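import Pool.Agent.LX.Chi

set_option autoImplicit false

/-!
LX-F1: `chi D` and `chi D₁ * chi D₂` as nontrivial Dirichlet characters.
-/

namespace Pool.Agent.LX

open Function

lemma cc_build (q : ℕ) (hq : 1 ≤ q) (f : ℕ → ℤ) (h1 : f 1 = 1)
    (hmul : ∀ a b, f (a * b) = f a * f b) (hper : ∀ k, f (k + q) = f k)
    (h0 : ∀ k, ¬ Nat.Coprime k q → f k = 0) (k₀ : ℕ) (hk₀ : f k₀ = -1) :
    ∃ χ : DirichletCharacter ℂ q, (∀ k : ℕ, χ (k : ZMod q) = ((f k : ℤ) : ℂ)) ∧ χ ≠ 1 := by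
  have : NeZero q := ⟨by omega⟩
  have hmod : ∀ k, f (k % q) = f k := Periodic.map_mod_nat (a := q) hper
  have hnat : ∀ k : ℕ, f ((k : ZMod q)).val = f k := fun k => by
    rw [ZMod.val_natCast, hmod]
  let χ : DirichletCharacter ℂ q :=
    { toFun := fun x => ((f x.val : ℤ) : ℂ)
      map_one' := by
        have := hnat 1
        rw [Nat.cast_one] at this
        rw [this, h1, Int.cast_one]
      map_mul' := fun x y => by
        rw [ZMod.val_mul, hmod, hmul, Int.cast_mul]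
      map_nonunit' := fun x hx => by
        have h2 : ¬ Nat.Coprime x.val q := by
          intro h
          apply hx
          have := (ZMod.unitOfCoprime x.val h).isUnit
          rwa [ZMod.coe_unitOfCoprime, ZMod.natCast_zmod_val] at this
        rw [h0 _ h2, Int.cast_zero] }
  have hχ : ∀ k : ℕ, χ (k : ZMod q) = ((f k : ℤ) : ℂ) := fun k => by
    show ((f ((k : ZMod q)).val : ℤ) : ℂ) = _
    rw [hnat]
  refine ⟨χ, hχ, fun h => ?_⟩
  have h2 := hχ k₀
  rw [h, hk₀] at h2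
  by_cases hu : IsUnit ((k₀ : ℕ) : ZMod q)
  · rw [MulChar.one_apply hu] at h2
    norm_num at h2
  · rw [MulChar.map_nonunit _ hu] at h2
    norm_num at h2

lemma cc_last (D : ℕ) (hD : 1 ≤ D) : chi D (4 * D - 1) = -1 := by
  have hodd : Odd (4 * D - 1) := by rw [Nat.odd_iff]; omega
  have h4 : (4 * D - 1) % 4 = 3 := by omega
  unfold chi
  rw [if_pos hodd]
  have e1 : jacobiSym (-(D : ℤ)) (4 * D - 1) = jacobiSym (4 * (-(D : ℤ))) (4 * D - 1) := by
    rw [jacobiSym.mul_left, jacobiSym.at_four hodd, one_mul]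
  have e2 : (4 * (-(D : ℤ))) % ((4 * D - 1 : ℕ) : ℤ) = (-1) % ((4 * D - 1 : ℕ) : ℤ) := by
    have : (4 * (-(D : ℤ))) = -1 + ((4 * D - 1 : ℕ) : ℤ) * (-1) := by
      push_cast [Nat.cast_sub (by omega : 1 ≤ 4 * D)]
      ring
    rw [this, Int.add_mul_emod_self_left]
  rw [e1, jacobiSym.mod_left' e2, jacobiSym.at_neg_one hodd, ZMod.χ₄_nat_three_mod_four h4]

/-- LX-F1 -/
theorem exists_char (D : ℕ) (hD : 1 ≤ D) :
    ∃ χ : DirichletCharacter ℂ (4 * D), (∀ k : ℕ, χ (k : ZMod (4 * D)) = (chi D k : ℂ)) ∧ χ ≠ 1 := by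
  apply cc_build (4 * D) (by omega) (chi D) (by simp [chi]) (chi_mul D)
    (fun k => chi_add D k hD) _ (4 * D - 1) (cc_last D hD)
  intro k hk
  by_contra h
  apply hk
  have h2 := (chi_ne_zero_iff D k hD).mp h
  have h3 : Nat.Coprime k (2 * (2 * D)) :=
    Nat.Coprime.mul_right (Nat.Coprime.coprime_mul_right_right h2) h2
  rwa [show 4 * D = 2 * (2 * D) by ring]

lemma cc_period (D k m : ℕ) (hD : 1 ≤ D) : chi D (k + 4 * D * m) = chi D k := by
  induction m with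
  | zero => simp
  | succ m ih =>
    rw [show k + 4 * D * (m + 1) = (k + 4 * D * m) + 4 * D by ring, chi_add D _ hD, ih]

lemma cc_decomp (N : ℕ) (hN : 1 ≤ N) (hsq : ¬ IsSquare N) :
    ∃ (l j N' : ℕ), l.Prime ∧ N = l ^ (2 * j + 1) * N' ∧ ¬ l ∣ N' := by
  obtain ⟨s, b, hs⟩ := Nat.sq_mul_squarefree N
  obtain ⟨hs, hsf⟩ := hs
  have hs1 : s ≠ 1 := by
    rintro rfl
    apply hsq
    exact ⟨b, by rw [← hs]; ring⟩
  obtain ⟨l, hl, t, ht⟩ := Nat.exists_prime_and_dvd hs1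
  have hb0 : b ≠ 0 := by
    rintro rfl
    simp at hs
    omega
  obtain ⟨j, b', hb', hbb⟩ := Nat.exists_eq_pow_mul_and_not_dvd hb0 l hl.ne_one
  refine ⟨l, j, b' ^ 2 * t, hl, ?_, ?_⟩
  · rw [← hs, ht, hbb]
    ring
  · intro h
    rcases hl.dvd_mul.mp h with h1 | h1
    · exact hb' (hl.dvd_of_dvd_pow h1)
    · obtain ⟨t', rfl⟩ := h1
      have h2 : l * l ∣ s := ⟨t', by rw [ht]; ring⟩
      exact hl.one_lt.ne' (Nat.isUnit_iff.mp (hsf l h2))

lemma cc_neg (N : ℕ) (hN : 1 ≤ N) (hsq : ¬ IsSquare N) :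
    ∃ k : ℕ, Odd k ∧ jacobiSym (N : ℤ) k = -1 := by
  obtain ⟨l, j, N', hl, hNe, hnd⟩ := cc_decomp N hN hsq
  have hN' : 1 ≤ N' := by
    rcases Nat.eq_zero_or_pos N' with h | h
    · rw [h, mul_zero] at hNe; omega
    · exact h
  have key : ∀ k : ℕ, Odd k → k % (4 * N') = 1 % (4 * N') → jacobiSym (l : ℤ) k = -1 →
      jacobiSym (N : ℤ) k = -1 := by
    intro k hk hmod hl1
    have h1 : jacobiSym (N' : ℤ) k = 1 := by
      rw [jacobiSym.mod_right' N' hk, hmod, ← jacobiSym.mod_right' N' odd_one]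
      exact jacobiSym.one_right _
    rw [hNe]
    push_cast
    rw [jacobiSym.mul_left, jacobiSym.pow_left, hl1, h1, mul_one]
    exact Odd.neg_one_pow ⟨j, rfl⟩
  rcases hl.eq_two_or_odd' with rfl | hlodd
  · have hN'odd : N' % 2 = 1 := by
      rcases Nat.mod_two_eq_zero_or_one N' with h | h
      · exact absurd (Nat.dvd_of_mod_eq_zero h) hnd
      · exact h
    refine ⟨1 + 4 * N', ?_, ?_⟩
    · rw [Nat.odd_iff]; omega
    · apply key
      · rw [Nat.odd_iff]; omega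
      · rw [Nat.add_mod_right]
      · have hodd : Odd (1 + 4 * N') := by rw [Nat.odd_iff]; omega
        rw [show (((2 : ℕ)) : ℤ) = 2 by norm_num, jacobiSym.at_two hodd,
          ZMod.χ₈_nat_eq_if_mod_eight]
        rw [if_neg (by omega), if_neg (by omega)]
  · have : Fact l.Prime := ⟨hl⟩
    have hl2 : l ≠ 2 := by
      rintro rfl
      exact absurd hlodd (by decide)
    have hchar : ringChar (ZMod l) ≠ 2 := by
      rw [ZMod.ringChar_zmod_n]
      exact hl2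
    obtain ⟨a, ha⟩ := FiniteField.exists_nonsquare hchar
    have hcop : Nat.Coprime (4 * N') l := by
      apply Nat.Coprime.symm
      rw [Nat.Prime.coprime_iff_not_dvd hl]
      intro h
      rcases hl.dvd_mul.mp h with h1 | h1
      · have h2 : l ∣ 2 ^ 2 := by norm_num; exact h1
        have h3 := hl.dvd_of_dvd_pow h2
        exact hl2 ((Nat.prime_dvd_prime_iff_eq hl Nat.prime_two).mp h3)
      · exact hnd h1
    obtain ⟨k, hk1, hk2⟩ := Nat.chineseRemainder hcop 1 a.val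
    have hk4 : k % 4 = 1 := by
      have h1 : k ≡ 1 [MOD 4] := hk1.of_mul_right N'
      exact h1
    have hkodd : Odd k := by rw [Nat.odd_iff]; omega
    refine ⟨k, hkodd, key k hkodd hk1 ?_⟩
    rw [← jacobiSym.quadratic_reciprocity_one_mod_four hk4 hlodd]
    rw [← jacobiSym.legendreSym.to_jacobiSym]
    have h1 : ((k : ℤ) : ZMod l) = a := by
      have h2 := (ZMod.natCast_eq_natCast_iff k a.val l).mpr hk2
      rw [ZMod.natCast_zmod_val] at h2
      simpa using h2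
    rw [legendreSym.eq_neg_one_iff, h1]
    exact ha

/-- LX-F1 -/
theorem exists_char_mul (D₁ D₂ : ℕ) (h₁ : 1 ≤ D₁) (h₂ : 1 ≤ D₂) (hsq : ¬ IsSquare (D₁ * D₂)) :
    ∃ χ : DirichletCharacter ℂ (4 * D₁ * (4 * D₂)),
      (∀ k : ℕ, χ (k : ZMod (4 * D₁ * (4 * D₂))) = ((chi D₁ k * chi D₂ k : ℤ) : ℂ)) ∧ χ ≠ 1 := by
  obtain ⟨k₀, hk₀, hJ⟩ := cc_neg (D₁ * D₂) (Nat.mul_pos h₁ h₂) hsq
  apply cc_build (4 * D₁ * (4 * D₂)) (Nat.mul_pos (by omega) (by omega))
    (fun k => chi D₁ k * chi D₂ k) (by simp [chi]) _ _ _ k₀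
  · simp only [chi]
    rw [if_pos hk₀, if_pos hk₀, ← jacobiSym.mul_left, neg_mul_neg]
    exact_mod_cast hJ
  · intro a b
    simp only [chi_mul]
    ring
  · intro k
    have e1 : chi D₁ (k + 4 * D₁ * (4 * D₂)) = chi D₁ k := cc_period D₁ k (4 * D₂) h₁
    have e2 : chi D₂ (k + 4 * D₁ * (4 * D₂)) = chi D₂ k := by
      rw [show k + 4 * D₁ * (4 * D₂) = k + 4 * D₂ * (4 * D₁) by ring]
      exact cc_period D₂ k (4 * D₁) h₂
    simp only [e1, e2]
  · intro k hk
    by_contra h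
    apply hk
    have h3 := (chi_ne_zero_iff D₁ k h₁).mp (left_ne_zero_of_mul h)
    have h4 := (chi_ne_zero_iff D₂ k h₂).mp (right_ne_zero_of_mul h)
    have h5 : ∀ D, Nat.Coprime k (2 * D) → Nat.Coprime k (4 * D) := by
      intro D h
      rw [show 4 * D = 2 * (2 * D) by ring]
      exact Nat.Coprime.mul_right (Nat.Coprime.coprime_mul_right_right h) h
    exact Nat.Coprime.mul_right (h5 _ h3) (h5 _ h4)

end Pool.Agent.LX
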