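import Pool.Agent.LX.Defs

set_option autoImplicit false

namespace Pool.Agent.LX

/-- The divisor bound `d(n) ≤ C n ^ ε`. -/
theorem divisor_bound (ε : ℝ) (hε : 0 < ε) : ∃ C : ℝ, 0 < C ∧ ∀ n : ℕ, 1 ≤ n →
    (n.divisors.card : ℝ) ≤ C * (n : ℝ) ^ ε := by
  have hl2 : 0 < Real.log 2 := Real.log_pos (by norm_num)
  set K : ℝ := max 1 (1 / (ε * Real.log 2)) with hK
  have hK1 : 1 ≤ K := le_max_left _ _
  have hK2 : 1 ≤ K * (ε * Real.log 2) := by
    have h1 : 1 / (ε * Real.log 2) ≤ K := le_max_right _ _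
    rw [div_le_iff₀ (by positivity)] at h1
    exact h1
  set M : ℕ := ⌈(2 : ℝ) ^ (1 / ε)⌉₊ with hM
  refine ⟨K ^ M, by positivity, fun n hn => ?_⟩
  have hn0 : n ≠ 0 := by omega
  have hcard : (n.divisors.card : ℝ) = ∏ p ∈ n.primeFactors, ((n.factorization p : ℝ) + 1) := by
    rw [Nat.card_divisors hn0]
    push_cast
    rfl
  have hnε : (n : ℝ) ^ ε = ∏ p ∈ n.primeFactors, (((p : ℝ) ^ n.factorization p) ^ ε) := by
    rw [Real.finsetProd_rpow _ _ (fun i _ => by positivity)]
    congr 1
    conv_lhs => rw [← Nat.prod_factorization_pow_eq_self hn0]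
    rw [Finsupp.prod]
    push_cast
    rfl
  have hterm : ∀ p ∈ n.primeFactors, ((n.factorization p : ℝ) + 1) ≤
      (if p < M then K else 1) * (((p : ℝ) ^ n.factorization p) ^ ε) := by
    intro p hp
    have hp2 : (2 : ℝ) ≤ p := by exact_mod_cast (Nat.prime_of_mem_primeFactors hp).two_le
    set f := n.factorization p with hf
    split_ifs with h
    · have h1 : Real.exp (f * (ε * Real.log 2)) ≤ ((p : ℝ) ^ f) ^ ε := by
        have h2 : Real.exp (f * (ε * Real.log 2)) = ((2 : ℝ) ^ f) ^ ε := by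
          rw [← Real.rpow_natCast, ← Real.rpow_mul (by norm_num), Real.rpow_def_of_pos (by norm_num)]
          congr 1
          ring
        rw [h2]
        gcongr
      have h3 : (f : ℝ) * (ε * Real.log 2) + 1 ≤ Real.exp (f * (ε * Real.log 2)) :=
        Real.add_one_le_exp _
      have h4 : (f : ℝ) * 1 ≤ (f : ℝ) * (K * (ε * Real.log 2)) :=
        mul_le_mul_of_nonneg_left hK2 (Nat.cast_nonneg _)
      calc (f : ℝ) + 1 ≤ K * ((f : ℝ) * (ε * Real.log 2) + 1) := by nlinarith
        _ ≤ K * ((p : ℝ) ^ f) ^ ε := by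
          apply mul_le_mul_of_nonneg_left (h3.trans h1) (by linarith)
    · rw [one_mul]
      have h1 : (2 : ℝ) ^ (1 / ε) ≤ p := by
        have : (M : ℝ) ≤ p := by exact_mod_cast not_lt.1 h
        exact (Nat.le_ceil _).trans this
      have h2 : (2 : ℝ) ≤ (p : ℝ) ^ ε := by
        calc (2 : ℝ) = ((2 : ℝ) ^ (1 / ε)) ^ ε := by
              rw [← Real.rpow_mul (by norm_num)]
              field_simp
              exact (Real.rpow_one 2).symm
          _ ≤ (p : ℝ) ^ ε := by gcongr
      have h3 : ((p : ℝ) ^ f) ^ ε = ((p : ℝ) ^ ε) ^ f := by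
        rw [← Real.rpow_natCast, ← Real.rpow_natCast, ← Real.rpow_mul (by linarith),
          ← Real.rpow_mul (by linarith), mul_comm]
      rw [h3]
      calc (f : ℝ) + 1 ≤ (2 : ℝ) ^ f := by
            have := Nat.lt_two_pow_self (n := f)
            exact_mod_cast this
        _ ≤ ((p : ℝ) ^ ε) ^ f := by gcongr
  rw [hcard, hnε]
  calc ∏ p ∈ n.primeFactors, ((n.factorization p : ℝ) + 1)
      ≤ ∏ p ∈ n.primeFactors, ((if p < M then K else 1) * (((p : ℝ) ^ n.factorization p) ^ ε)) :=
        Finset.prod_le_prod (fun _ _ => by positivity) hterm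
    _ = (∏ p ∈ n.primeFactors, (if p < M then K else 1)) *
          ∏ p ∈ n.primeFactors, (((p : ℝ) ^ n.factorization p) ^ ε) := Finset.prod_mul_distrib
    _ ≤ K ^ M * ∏ p ∈ n.primeFactors, (((p : ℝ) ^ n.factorization p) ^ ε) := by
        apply mul_le_mul_of_nonneg_right _ (Finset.prod_nonneg fun _ _ => by positivity)
        rw [← Finset.prod_filter, Finset.prod_const]
        apply pow_le_pow_right₀ hK1
        calc (n.primeFactors.filter (fun p => p < M)).card ≤ (Finset.range M).card := by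
              apply Finset.card_le_card
              intro p hp
              exact Finset.mem_range.2 (Finset.mem_filter.1 hp).2
          _ = M := Finset.card_range M

end Pool.Agent.LX
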