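import Mathlib

/-!
# Dirichlet's hyperbola method in an arithmetic progression

`ap_sum`: the sum of `∑ d ∣ C, χ d` over `C ≤ X` in a residue class `C₀` modulo `q` with
`χ C₀ = 1` is `2 X L / q` up to `O (√X)`.
-/

namespace Pool.Agent.LX

open Finset

/-- The number of `t` in `(A, B]` in a class modulo `q`, up to one. -/
theorem aps_card_modEq (A B q v : ℕ) (hq : 1 ≤ q) (hAB : A ≤ B) :
    |((#{x ∈ Ioc A B | x ≡ v [MOD q]} : ℕ) : ℝ) - ((B : ℝ) - A) / q| ≤ 1 := by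
  have h := Nat.Ioc_filter_modEq_card A B (Nat.lt_of_lt_of_le Nat.zero_lt_one hq) v
  have hq' : (0 : ℚ) < q := by exact_mod_cast hq
  set f1 : ℤ := ⌊((B : ℚ) - v) / q⌋ with hf1
  set f2 : ℤ := ⌊((A : ℚ) - v) / q⌋ with hf2
  have h1 : (f1 : ℚ) ≤ ((B : ℚ) - v) / q := Int.floor_le _
  have h2 : ((B : ℚ) - v) / q < f1 + 1 := Int.lt_floor_add_one _
  have h3 : (f2 : ℚ) ≤ ((A : ℚ) - v) / q := Int.floor_le _
  have h4 : ((A : ℚ) - v) / q < f2 + 1 := Int.lt_floor_add_one _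
  have hle : f2 ≤ f1 := by
    apply Int.floor_le_floor
    have : (A : ℚ) ≤ B := by exact_mod_cast hAB
    gcongr
  have hcard : ((#{x ∈ Ioc A B | x ≡ v [MOD q]} : ℕ) : ℤ) = f1 - f2 := by
    rw [h]
    exact max_eq_left (by omega)
  have hcardQ : ((#{x ∈ Ioc A B | x ≡ v [MOD q]} : ℕ) : ℚ) = f1 - f2 := by
    exact_mod_cast hcard
  have h5 : |((#{x ∈ Ioc A B | x ≡ v [MOD q]} : ℕ) : ℚ) - ((B : ℚ) - A) / q| ≤ 1 := by
    rw [hcardQ]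
    have e : ((B : ℚ) - A) / q = ((B : ℚ) - v) / q - ((A : ℚ) - v) / q := by ring
    rw [e, abs_le]
    constructor <;> linarith
  have h6 := (Rat.cast_le (K := ℝ)).mpr h5
  rw [Rat.cast_abs] at h6
  push_cast at h6
  exact h6

/-- The number of `t` in `(A, X / e]` with `e t` in a given class modulo `q`, up to two. -/
theorem aps_card (A X e q C : ℕ) (hq : 1 ≤ q) (he : 1 ≤ e) (hA : A * e ≤ X)
    (hcop : Nat.Coprime e q) :
    |((#{x ∈ Ioc A (X / e) | (e * x) % q = C % q} : ℕ) : ℝ) - ((X : ℝ) / e - A) / q| ≤ 2 := by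
  obtain ⟨r, hr⟩ : ∃ r : ℕ, e * r ≡ C [MOD q] := by
    obtain ⟨k, hk1, hk2⟩ := Nat.chineseRemainder hcop 0 C
    obtain ⟨m, rfl⟩ := (Nat.modEq_zero_iff_dvd.mp hk1)
    exact ⟨m, hk2⟩
  have hset : {x ∈ Ioc A (X / e) | (e * x) % q = C % q} =
      {x ∈ Ioc A (X / e) | x ≡ r [MOD q]} := by
    apply Finset.filter_congr
    intro x _
    constructor
    · intro h
      have h1 : e * x ≡ e * r [MOD q] := Nat.ModEq.trans h hr.symm
      exact Nat.ModEq.cancel_left_of_coprime (by rw [Nat.gcd_comm]; exact hcop) h1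
    · intro h
      exact (h.mul_left e).trans hr
  rw [hset]
  have hAB : A ≤ X / e := (Nat.le_div_iff_mul_le (by omega)).mpr hA
  have h1 := aps_card_modEq A (X / e) q r hq hAB
  have hqR : (1 : ℝ) ≤ q := by exact_mod_cast hq
  have heR : (0 : ℝ) < e := by exact_mod_cast he
  have h2 : ((X / e : ℕ) : ℝ) ≤ (X : ℝ) / e := Nat.cast_div_le
  have h3 : (X : ℝ) / e < ((X / e : ℕ) : ℝ) + 1 := by
    rw [div_lt_iff₀ heR]
    have h4 : X < (X / e + 1) * e := by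
      have h5 := Nat.div_add_mod X e
      have h6 := Nat.mod_lt X (show e > 0 by omega)
      nlinarith
    exact_mod_cast h4
  have h7 : |((X : ℝ) / e - A) / q - (((X / e : ℕ) : ℝ) - A) / q| ≤ 1 := by
    have e1 : ((X : ℝ) / e - A) / q - (((X / e : ℕ) : ℝ) - A) / q =
        ((X : ℝ) / e - ((X / e : ℕ) : ℝ)) / q := by ring
    rw [e1, abs_of_nonneg (by apply div_nonneg <;> linarith), div_le_one (by linarith)]
    linarith
  rw [abs_le] at h1 h7 ⊢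
  constructor <;> linarith [h1.1, h1.2, h7.1, h7.2]

/-- The double sum over pairs. -/
theorem aps_pairs (χ : ℕ → ℤ) (q C₀ X : ℕ) :
    (∑ C ∈ (Icc 1 X).filter (fun C => C % q = C₀ % q), ∑ d ∈ C.divisors, χ d) =
      ∑ p ∈ (Icc 1 X ×ˢ Icc 1 X).filter
        (fun p => p.1 * p.2 ≤ X ∧ (p.1 * p.2) % q = C₀ % q), χ p.1 := by
  rw [Finset.sum_sigma']
  refine Finset.sum_nbij' (fun s => (s.2, s.1 / s.2)) (fun p => ⟨p.1 * p.2, p.1⟩) ?_ ?_ ?_ ?_ ?_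
  · rintro ⟨C, d⟩ h
    simp only [mem_sigma, mem_filter, mem_Icc, Nat.mem_divisors, mem_product] at h ⊢
    obtain ⟨⟨⟨h1, h2⟩, h3⟩, ⟨k, rfl⟩, h5⟩ := h
    have hd : 0 < d := Nat.pos_of_ne_zero (fun h => h5 (by rw [h, zero_mul]))
    have hk : 0 < k := Nat.pos_of_ne_zero (fun h => h5 (by rw [h, mul_zero]))
    rw [Nat.mul_div_cancel_left k hd]
    refine ⟨⟨⟨hd, ?_⟩, ⟨hk, ?_⟩⟩, h2, h3⟩
    · exact (Nat.le_mul_of_pos_right d hk).trans h2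
    · exact (Nat.le_mul_of_pos_left k hd).trans h2
  · rintro ⟨d, e⟩ h
    simp only [mem_sigma, mem_filter, mem_Icc, Nat.mem_divisors, mem_product] at h ⊢
    obtain ⟨⟨⟨h1, h2⟩, ⟨h3, h4⟩⟩, h5, h6⟩ := h
    have hpos : 0 < d * e := Nat.mul_pos h1 h3
    exact ⟨⟨⟨hpos, h5⟩, h6⟩, Dvd.intro _ rfl, hpos.ne'⟩
  · rintro ⟨C, d⟩ h
    simp only [mem_sigma, mem_filter, mem_Icc, Nat.mem_divisors] at h
    obtain ⟨_, h4, h5⟩ := h
    simp only [Nat.mul_div_cancel' h4]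
  · rintro ⟨d, e⟩ h
    simp only [mem_filter, mem_Icc, mem_product] at h
    obtain ⟨⟨⟨h1, h2⟩, ⟨h3, h4⟩⟩, h5, h6⟩ := h
    simp only [Nat.mul_div_cancel_left e (show 0 < d by omega)]
  · rintro ⟨C, d⟩ _
    rfl

/-- Pairs with small first component. -/
theorem aps_small (χ : ℕ → ℤ) (q C₀ X Y : ℕ) (hYX : Y * Y ≤ X) :
    ∑ p ∈ ((Icc 1 X ×ˢ Icc 1 X).filter
        (fun p => p.1 * p.2 ≤ X ∧ (p.1 * p.2) % q = C₀ % q)).filter (fun p => p.1 ≤ Y), χ p.1 =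
      ∑ d ∈ Icc 1 Y, χ d * (#{x ∈ Ioc 0 (X / d) | (d * x) % q = C₀ % q} : ℕ) := by
  have h1 : ∀ d ∈ Icc 1 Y, χ d * (#{x ∈ Ioc 0 (X / d) | (d * x) % q = C₀ % q} : ℕ) =
      ∑ x ∈ {x ∈ Ioc 0 (X / d) | (d * x) % q = C₀ % q}, χ d := by
    intro d _
    rw [Finset.sum_const, nsmul_eq_mul, mul_comm]
  rw [Finset.sum_congr rfl h1, Finset.sum_sigma']
  refine Finset.sum_nbij' (fun p => ⟨p.1, p.2⟩) (fun s => (s.1, s.2)) ?_ ?_ ?_ ?_ ?_
  · rintro ⟨d, e⟩ h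
    simp only [mem_sigma, mem_filter, mem_Icc, mem_product, mem_Ioc] at h ⊢
    obtain ⟨⟨⟨⟨h1, h2⟩, ⟨h3, h4⟩⟩, h5, h6⟩, h7⟩ := h
    refine ⟨⟨h1, h7⟩, ⟨by omega, ?_⟩, h6⟩
    rw [Nat.le_div_iff_mul_le (by omega), mul_comm]
    exact h5
  · rintro ⟨d, e⟩ h
    simp only [mem_sigma, mem_filter, mem_Icc, mem_product, mem_Ioc] at h ⊢
    obtain ⟨⟨h1, h7⟩, ⟨h3, h4⟩, h6⟩ := h
    rw [Nat.le_div_iff_mul_le (by omega), mul_comm] at h4
    have h8 : Y ≤ Y * Y := Nat.le_mul_self Y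
    have h9 : e ≤ d * e := Nat.le_mul_of_pos_left e (by omega)
    exact ⟨⟨⟨⟨h1, by omega⟩, ⟨by omega, by omega⟩⟩, h4, h6⟩, h7⟩
  · rintro ⟨d, e⟩ _
    rfl
  · rintro ⟨d, e⟩ _
    rfl
  · rintro ⟨d, e⟩ _
    rfl

/-- Pairs with large first component. -/
theorem aps_large (χ : ℕ → ℤ) (q C₀ X Y : ℕ) (hYX : Y * Y ≤ X) (hXY : X < (Y + 1) * (Y + 1))
    (hχ : ∀ d e, (d * e) % q = C₀ % q → χ d = χ e) :
    ∑ p ∈ ((Icc 1 X ×ˢ Icc 1 X).filter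
        (fun p => p.1 * p.2 ≤ X ∧ (p.1 * p.2) % q = C₀ % q)).filter (fun p => ¬ p.1 ≤ Y), χ p.1 =
      ∑ e ∈ Icc 1 Y, χ e * (#{x ∈ Ioc Y (X / e) | (e * x) % q = C₀ % q} : ℕ) := by
  have h1 : ∀ e ∈ Icc 1 Y, χ e * (#{x ∈ Ioc Y (X / e) | (e * x) % q = C₀ % q} : ℕ) =
      ∑ x ∈ {x ∈ Ioc Y (X / e) | (e * x) % q = C₀ % q}, χ e := by
    intro d _
    rw [Finset.sum_const, nsmul_eq_mul, mul_comm]
  rw [Finset.sum_congr rfl h1, Finset.sum_sigma']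
  refine Finset.sum_nbij' (fun p => ⟨p.2, p.1⟩) (fun s => (s.2, s.1)) ?_ ?_ ?_ ?_ ?_
  · rintro ⟨d, e⟩ h
    simp only [mem_sigma, mem_filter, mem_Icc, mem_product, mem_Ioc] at h ⊢
    obtain ⟨⟨⟨⟨h1, h2⟩, ⟨h3, h4⟩⟩, h5, h6⟩, h7⟩ := h
    have h8 : e ≤ Y := by
      by_contra hcon
      have : (Y + 1) * (Y + 1) ≤ d * e := Nat.mul_le_mul (by omega) (by omega)
      omega
    refine ⟨⟨h3, h8⟩, ⟨by omega, ?_⟩, by rw [mul_comm]; exact h6⟩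
    rw [Nat.le_div_iff_mul_le (by omega)]
    exact h5
  · rintro ⟨e, d⟩ h
    simp only [mem_sigma, mem_filter, mem_Icc, mem_product, mem_Ioc] at h ⊢
    obtain ⟨⟨h1, h7⟩, ⟨h3, h4⟩, h6⟩ := h
    rw [Nat.le_div_iff_mul_le (by omega)] at h4
    have h8 : Y ≤ Y * Y := Nat.le_mul_self Y
    have h9 : d ≤ d * e := Nat.le_mul_of_pos_right d (by omega)
    exact ⟨⟨⟨⟨by omega, by omega⟩, ⟨h1, by omega⟩⟩, h4, by rw [mul_comm]; exact h6⟩, by omega⟩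
  · rintro ⟨d, e⟩ _
    rfl
  · rintro ⟨d, e⟩ _
    rfl
  · rintro ⟨d, e⟩ h
    simp only [mem_filter] at h
    exact hχ d e h.1.2.2

theorem ap_sum (χ : ℕ → ℤ) (q : ℕ) (hq : 1 ≤ q) (hmul : ∀ a b, χ (a * b) = χ a * χ b)
    (habs : ∀ k, |χ k| ≤ 1) (hper : ∀ k, χ (k + q) = χ k)
    (hne : ∀ k, χ k ≠ 0 ↔ Nat.Coprime k q) (hsum : ∀ a b, |∑ k ∈ Finset.Ico a b, χ k| ≤ q)
    (C₀ : ℕ) (hC : Nat.Coprime C₀ q) (hχ : χ C₀ = 1) (L E : ℝ)
    (hL : ∀ x : ℕ, 1 ≤ x → |∑ k ∈ Finset.Icc 1 x, (χ k : ℝ) / k - L| ≤ E / x) (X : ℕ)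
    (hX : 1 ≤ X) :
    |((∑ C ∈ (Finset.Icc 1 X).filter (fun C => C % q = C₀ % q), ∑ d ∈ C.divisors, χ d : ℤ) : ℝ)
      - 2 * X * L / q| ≤ (4 * E / q + 20) * Real.sqrt X := by
  have hχeq : ∀ d e, (d * e) % q = C₀ % q → χ d = χ e := by
    intro d e h
    have hp : Function.Periodic χ q := hper
    have h1 : χ (d * e) = 1 := by
      rw [← hp.map_mod_nat (d * e), h, hp.map_mod_nat C₀, hχ]
    rw [hmul] at h1
    rcases Int.eq_one_or_neg_one_of_mul_eq_one h1 with h2 | h2 <;> rw [h2] at h1 ⊢ <;> omega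
  rw [aps_pairs]
  set Y := Nat.sqrt X with hY
  have hY1 : 1 ≤ Y := by
    rw [hY, Nat.le_sqrt]; omega
  have hYX : Y * Y ≤ X := Nat.sqrt_le X
  have hXY : X < (Y + 1) * (Y + 1) := Nat.lt_succ_sqrt X
  rw [← Finset.sum_filter_add_sum_filter_not _ (fun p : ℕ × ℕ => p.1 ≤ Y),
    aps_small χ q C₀ X Y hYX, aps_large χ q C₀ X Y hYX hXY hχeq]
  have hqR : (1 : ℝ) ≤ q := by exact_mod_cast hq
  have hq0 : (0 : ℝ) < q := by linarith
  have hYR : (1 : ℝ) ≤ Y := by exact_mod_cast hY1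
  have hXR : (1 : ℝ) ≤ X := by exact_mod_cast hX
  -- estimate for one term
  have key : ∀ A : ℕ, A ≤ Y → ∀ e ∈ Icc 1 Y,
      |(χ e : ℝ) * (#{x ∈ Ioc A (X / e) | (e * x) % q = C₀ % q} : ℕ) -
        ((X : ℝ) / q * ((χ e : ℝ) / e) - A / q * χ e)| ≤ 2 := by
    intro A hA e he
    rw [mem_Icc] at he
    by_cases h0 : χ e = 0
    · rw [h0]
      norm_num
    · have hcop := (hne e).mp h0
      have hAe : A * e ≤ X := (Nat.mul_le_mul hA he.2).trans hYX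
      have h1 := aps_card A X e q C₀ hq he.1 hAe hcop
      have h2 : (χ e : ℝ) * (#{x ∈ Ioc A (X / e) | (e * x) % q = C₀ % q} : ℕ) -
          ((X : ℝ) / q * ((χ e : ℝ) / e) - A / q * χ e) =
          (χ e : ℝ) * ((#{x ∈ Ioc A (X / e) | (e * x) % q = C₀ % q} : ℕ) -
            ((X : ℝ) / e - A) / q) := by
        ring
      rw [h2, abs_mul]
      have h3 : |(χ e : ℝ)| ≤ 1 := by exact_mod_cast habs e
      calc |(χ e : ℝ)| * |((#{x ∈ Ioc A (X / e) | (e * x) % q = C₀ % q} : ℕ) : ℝ) -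
            ((X : ℝ) / e - A) / q| ≤ 1 * 2 :=
            mul_le_mul h3 h1 (abs_nonneg _) zero_le_one
        _ = 2 := by norm_num
  have sumkey : ∀ A : ℕ, A ≤ Y →
      |∑ e ∈ Icc 1 Y, (χ e : ℝ) * (#{x ∈ Ioc A (X / e) | (e * x) % q = C₀ % q} : ℕ) -
        ((X : ℝ) / q * ∑ e ∈ Icc 1 Y, (χ e : ℝ) / e - A / q * ∑ e ∈ Icc 1 Y, (χ e : ℝ))| ≤
        2 * Y := by
    intro A hA
    rw [Finset.mul_sum, Finset.mul_sum, ← Finset.sum_sub_distrib, ← Finset.sum_sub_distrib]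
    refine (Finset.abs_sum_le_sum_abs _ _).trans ?_
    refine (Finset.sum_le_card_nsmul _ _ _ (key A hA)).trans ?_
    rw [Nat.card_Icc, nsmul_eq_mul, Nat.add_sub_cancel, mul_comm]
  have k0 := sumkey 0 (Nat.zero_le _)
  have k1 := sumkey Y le_rfl
  have k2 : |∑ e ∈ Icc 1 Y, (χ e : ℝ)| ≤ q := by
    have h1 := hsum 1 (Y + 1)
    have h2 : Ico 1 (Y + 1) = Icc 1 Y := by
      ext x
      simp only [mem_Ico, mem_Icc]
      omega
    rw [h2] at h1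
    exact_mod_cast h1
  have k3 : |(Y : ℝ) / q * ∑ e ∈ Icc 1 Y, (χ e : ℝ)| ≤ Y := by
    rw [abs_mul, abs_of_nonneg (by positivity : (0 : ℝ) ≤ (Y : ℝ) / q)]
    calc (Y : ℝ) / q * |∑ e ∈ Icc 1 Y, (χ e : ℝ)| ≤ Y / q * q :=
          mul_le_mul_of_nonneg_left k2 (by positivity)
      _ = Y := by field_simp
  have hE0 : 0 ≤ E := by
    have h1 := hL 1 le_rfl
    have h2 := (abs_nonneg _).trans h1
    simpa using h2
  have hsq : (Y : ℝ) ≤ Real.sqrt X := by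
    apply Real.le_sqrt_of_sq_le
    rw [sq]
    exact_mod_cast hYX
  have hsq2 : (X : ℝ) / Y ≤ 2 * Real.sqrt X := by
    have h1 : Real.sqrt X ≤ 2 * Y := by
      rw [Real.sqrt_le_left (by positivity)]
      have h2 : X ≤ (2 * Y) * (2 * Y) := by nlinarith
      rw [sq]
      exact_mod_cast h2
    rw [div_le_iff₀ (by linarith)]
    have h3 : Real.sqrt X * Real.sqrt X = X := Real.mul_self_sqrt (by positivity)
    nlinarith [Real.sqrt_nonneg (X : ℝ)]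
  have k4 : |(X : ℝ) / q * (∑ e ∈ Icc 1 Y, (χ e : ℝ) / e - L)| ≤ 2 * E / q * Real.sqrt X := by
    rw [abs_mul, abs_of_nonneg (by positivity : (0 : ℝ) ≤ (X : ℝ) / q)]
    calc (X : ℝ) / q * |∑ e ∈ Icc 1 Y, (χ e : ℝ) / e - L| ≤ X / q * (E / Y) :=
          mul_le_mul_of_nonneg_left (hL Y hY1) (by positivity)
      _ = E / q * (X / Y) := by ring
      _ ≤ E / q * (2 * Real.sqrt X) :=
          mul_le_mul_of_nonneg_left hsq2 (by positivity)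
      _ = 2 * E / q * Real.sqrt X := by ring
  push_cast at k0 k1 ⊢
  simp only [zero_div, zero_mul, sub_zero] at k0
  set S := ∑ e ∈ Icc 1 Y, (χ e : ℝ) / e
  set R := ∑ e ∈ Icc 1 Y, (χ e : ℝ)
  set P0 := ∑ e ∈ Icc 1 Y, (χ e : ℝ) * (#{x ∈ Ioc 0 (X / e) | (e * x) % q = C₀ % q} : ℕ)
  set P1 := ∑ e ∈ Icc 1 Y, (χ e : ℝ) * (#{x ∈ Ioc Y (X / e) | (e * x) % q = C₀ % q} : ℕ)
  have e1 : P0 + P1 - 2 * X * L / q = (P0 - X / q * S) + (P1 - (X / q * S - Y / q * R)) -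
      Y / q * R + 2 * (X / q * (S - L)) := by ring
  rw [e1]
  rw [abs_le] at k0 k1 k3 k4 ⊢
  have e2 : (4 * E / q + 20) * Real.sqrt X = 2 * (2 * E / q * Real.sqrt X) +
      20 * Real.sqrt X := by ring
  rw [e2]
  constructor <;> linarith [k0.1, k0.2, k1.1, k1.2, k3.1, k3.2, k4.1, k4.2]

end Pool.Agent.LX
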