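import Pool.Agent.LX.Defs

set_option autoImplicit false

/-! Denominators of inverse isometries; isometries preserve the type of a direction. -/

open Matrix

namespace Pool.Agent.LX

private theorem iso_B_toR (x y : Fin 4 → ℤ) : B (toR x : Fin 4 → ℚ) (toR y) = ((B x y : ℤ) : ℚ) := by
  simp only [B, toR]
  push_cast
  ring

private theorem iso_B_smul_right (t : ℚ) (x y : Fin 4 → ℚ) : B x (t • y) = t * B x y := by
  simp only [B, Pi.smul_apply, smul_eq_mul]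
  ring

private theorem iso_B_smul_left (t : ℚ) (x y : Fin 4 → ℚ) : B (t • x) y = t * B x y := by
  simp only [B, Pi.smul_apply, smul_eq_mul]
  ring

private theorem iso_B_hat (w y : Fin 4 → ℤ) : B (hat w) y = 2 * dot w y := by
  simp [B, hat, dot]
  ring

private theorem iso_Q_hat (w : Fin 4 → ℤ) : Q (hat w) = 2 * Qs w := by
  simp [Q, B, hat, Qs]
  ring

private def GG : Matrix (Fin 4) (Fin 4) ℚ := Matrix.diagonal ![1, 1, 1, 2]

private theorem iso_B_eq (x y : Fin 4 → ℚ) : B x y = x ⬝ᵥ (GG *ᵥ y) := by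
  simp [B, GG, dotProduct, Fin.sum_univ_succ, Matrix.mulVec_diagonal]
  ring

private theorem iso_gram {A : Matrix (Fin 4) (Fin 4) ℚ} (hA : IsIso A) : Aᵀ * GG * A = GG := by
  have h : ∀ x y : Fin 4 → ℚ, x ⬝ᵥ ((Aᵀ * GG * A) *ᵥ y) = x ⬝ᵥ (GG *ᵥ y) := by
    intro x y
    rw [← iso_B_eq, ← hA x y, iso_B_eq, Matrix.mul_assoc, ← Matrix.mulVec_mulVec,
      ← Matrix.mulVec_mulVec, Matrix.dotProduct_mulVec, Matrix.vecMul_transpose]
  ext i j
  have h1 := h (Pi.single i 1) (Pi.single j 1)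
  simpa using h1

private theorem iso_det {A : Matrix (Fin 4) (Fin 4) ℚ} (hA : IsIso A) : A.det * A.det = 1 := by
  have h := congrArg Matrix.det (iso_gram hA)
  rw [Matrix.det_mul, Matrix.det_mul, Matrix.det_transpose] at h
  have hG : (GG).det = 2 := by
    simp [GG, Matrix.det_diagonal, Fin.prod_univ_succ]
  rw [hG] at h
  linarith

theorem den_inv (A : Matrix (Fin 4) (Fin 4) ℚ) (hA : IsIso A) (t : ℕ) (ht : Den A t) :
    ∃ A' : Matrix (Fin 4) (Fin 4) ℚ, A' * A = 1 ∧ A * A' = 1 ∧ IsIso A' ∧ Den A' (t ^ 3) := by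
  have hd := iso_det hA
  have hu : IsUnit A.det := IsUnit.of_mul_eq_one _ hd
  have h1 : A⁻¹ * A = 1 := Matrix.nonsing_inv_mul _ hu
  have h2 : A * A⁻¹ = 1 := Matrix.mul_nonsing_inv _ hu
  refine ⟨A⁻¹, h1, h2, ?_, ?_⟩
  · intro x y
    rw [← hA (A⁻¹ *ᵥ x) (A⁻¹ *ᵥ y), Matrix.mulVec_mulVec, Matrix.mulVec_mulVec, h2,
      Matrix.one_mulVec, Matrix.one_mulVec]
  · -- the integral matrix `N = t A`
    choose z hz using fun j : Fin 4 => ht (Pi.single j 1)
    let N : Matrix (Fin 4) (Fin 4) ℤ := Matrix.of fun i j => z j i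
    have hN : N.map (Int.castRingHom ℚ) = (t : ℚ) • A := by
      ext i j
      have h3 := congrFun (hz j) i
      have h4 : (toR (Pi.single j 1 : Fin 4 → ℤ) : Fin 4 → ℚ) = Pi.single j 1 := by
        funext l
        rcases eq_or_ne l j with rfl | hl
        · simp [toR]
        · simp [toR, Pi.single_eq_of_ne hl]
      rw [h4, Matrix.mulVec_single_one] at h3
      simp only [Pi.smul_apply, Matrix.col_apply, toR] at h3
      simp only [Matrix.map_apply, Matrix.smul_apply, N, Matrix.of_apply]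
      rw [h3]
      rfl
    have hadj : N.adjugate.map (Int.castRingHom ℚ) = (t : ℚ) ^ 3 • A.adjugate := by
      have h3 := RingHom.map_adjugate (Int.castRingHom ℚ) N
      rw [RingHom.mapMatrix_apply, RingHom.mapMatrix_apply, hN, Matrix.adjugate_smul] at h3
      simpa using h3
    have hinv : A⁻¹ = A.det • A.adjugate := by
      rw [Matrix.inv_def, Ring.inverse_eq_inv']
      congr 1
      exact inv_eq_of_mul_eq_one_right hd
    have hdd : ∃ d : ℤ, A.det = (d : ℚ) := by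
      have h5 : (A.det - 1) * (A.det + 1) = 0 := by linear_combination hd
      rcases mul_eq_zero.1 h5 with h6 | h6
      · exact ⟨1, by push_cast; linarith⟩
      · exact ⟨-1, by push_cast; linarith⟩
    obtain ⟨d, hdd⟩ := hdd
    intro y
    refine ⟨d • (N.adjugate *ᵥ y), ?_⟩
    funext i
    have h6 : (toR (d • (N.adjugate *ᵥ y)) : Fin 4 → ℚ) =
        (d : ℚ) • ((N.adjugate.map (Int.castRingHom ℚ)) *ᵥ toR y) := by
      funext l
      simp [toR, Matrix.mulVec, dotProduct]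
    rw [h6, hadj, hinv, ← hdd, Matrix.smul_mulVec, Matrix.smul_mulVec]
    push_cast
    simp only [Pi.smul_apply, smul_eq_mul]
    ring

private theorem ch_iff (w : Fin 4 → ℤ) : Ch w ↔ ∀ y : Fin 4 → ℤ, (2 : ℤ) ∣ dot w y - Q y := by
  constructor
  · rintro ⟨⟨a, ha⟩, ⟨b, hb⟩, ⟨c, hc⟩, ⟨d, hd⟩⟩ y
    have h : ∀ m : ℤ, (2 : ℤ) ∣ m - m * m := by
      intro m
      have := Int.even_mul_succ_self (m - 1)
      rw [sub_add_cancel] at this
      obtain ⟨k, hk⟩ := this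
      exact ⟨-k, by linear_combination -hk⟩
    obtain ⟨a', ha'⟩ := h (y 0)
    obtain ⟨b', hb'⟩ := h (y 1)
    obtain ⟨c', hc'⟩ := h (y 2)
    refine ⟨a * y 0 + b * y 1 + c * y 2 + d * y 3 - y 3 * y 3 + a' + b' + c', ?_⟩
    simp only [dot, Q, B, ha, hb, hc, hd]
    linear_combination ha' + hb' + hc'
  · intro h
    have h0 := h ![1, 0, 0, 0]
    have h1 := h ![0, 1, 0, 0]
    have h2 := h ![0, 0, 1, 0]
    have h3 := h ![0, 0, 0, 1]
    simp [dot, Q, B] at h0 h1 h2 h3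
    refine ⟨?_, ?_, ?_, ?_⟩
    · rw [Int.odd_iff]; omega
    · rw [Int.odd_iff]; omega
    · rw [Int.odd_iff]; omega
    · rw [Int.even_iff]; omega

/-- the key relation between the linear forms and the types -/
private theorem ch_of (w w' : Fin 4 → ℤ) (T : ℤ) (hT : Odd T)
    (h : ∀ y : Fin 4 → ℤ, ∃ y' : Fin 4 → ℤ, T * dot w' y = dot w y' ∧ Q y' = T ^ 2 * Q y)
    (hc : Ch w) : Ch w' := by
  rw [ch_iff] at hc ⊢
  intro y
  obtain ⟨y', h1, h2⟩ := h y
  have h3 := hc y'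
  rw [← h1, h2] at h3
  obtain ⟨s, hs⟩ := hT
  obtain ⟨k, hk⟩ := h3
  refine ⟨k - s * dot w' y + (2 * s ^ 2 + 2 * s) * Q y, ?_⟩
  rw [hs] at hk
  linear_combination hk

theorem inW_of_iso (w₀ w : Fin 4 → ℤ) (hw : InW w₀ w) (A : Matrix (Fin 4) (Fin 4) ℚ)
    (hA : IsIso A) (t : ℕ) (ht : Odd t) (hden : Den A t) (hc : IsCoprime (Qs w₀) (t : ℤ))
    (hint : IsInt (A *ᵥ toR (hat w))) :
    ∃ w' : Fin 4 → ℤ, A *ᵥ toR (hat w) = toR (hat w') ∧ InW w₀ w' := by
  obtain ⟨x, hx⟩ := hint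
  obtain ⟨A', hA1, hA2, hA', hden'⟩ := den_inv A hA t hden
  have htz : Odd (t : ℤ) := by exact_mod_cast ht
  have ht3 : Odd ((t : ℤ) ^ 3) := htz.pow
  -- pairing with `x`
  have key : ∀ y : Fin 4 → ℤ, ∃ y' : Fin 4 → ℤ, (t : ℤ) ^ 3 * B x y = 2 * dot w y' ∧
      Q y' = ((t : ℤ) ^ 3) ^ 2 * Q y := by
    intro y
    obtain ⟨y', hy'⟩ := hden' y
    refine ⟨y', ?_, ?_⟩
    · have h1 : B (A *ᵥ toR (hat w)) (A *ᵥ (toR y' : Fin 4 → ℚ)) = B (toR (hat w)) (toR y') :=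
        hA _ _
      rw [hx, ← hy', Matrix.mulVec_smul, Matrix.mulVec_mulVec, hA2, Matrix.one_mulVec,
        iso_B_smul_right, iso_B_toR, hy', iso_B_toR, iso_B_hat] at h1
      exact_mod_cast h1
    · have h1 : B (toR y' : Fin 4 → ℚ) (toR y') =
          ((t ^ 3 : ℕ) : ℚ) * (((t ^ 3 : ℕ) : ℚ) * B (toR y : Fin 4 → ℚ) (toR y)) := by
        rw [← hy', iso_B_smul_right, iso_B_smul_left, hA']
      rw [iso_B_toR, iso_B_toR] at h1
      have h2 : (B y' y' : ℤ) = (t : ℤ) ^ 3 * ((t : ℤ) ^ 3 * B y y) := by exact_mod_cast h1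
      rw [Q, Q, h2]
      ring
  have heven : ∀ m : ℤ, (∃ k, (t : ℤ) ^ 3 * m = 2 * k) → ∃ m', m = 2 * m' := by
    rintro m ⟨k, hk⟩
    have h1 : Even ((t : ℤ) ^ 3 * m) := ⟨k, by rw [hk]; ring⟩
    rcases Int.even_mul.1 h1 with h2 | h2
    · exact absurd h2 (Int.not_even_iff_odd.2 ht3)
    · obtain ⟨m', hm'⟩ := h2
      exact ⟨m', by rw [hm']; ring⟩
  obtain ⟨m0, hm0⟩ : ∃ m', x 0 = 2 * m' := by
    obtain ⟨y', h1, -⟩ := key ![1, 0, 0, 0]
    exact heven _ ⟨_, by simpa [B] using h1⟩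
  obtain ⟨m1, hm1⟩ : ∃ m', x 1 = 2 * m' := by
    obtain ⟨y', h1, -⟩ := key ![0, 1, 0, 0]
    exact heven _ ⟨_, by simpa [B] using h1⟩
  obtain ⟨m2, hm2⟩ : ∃ m', x 2 = 2 * m' := by
    obtain ⟨y', h1, -⟩ := key ![0, 0, 1, 0]
    exact heven _ ⟨_, by simpa [B] using h1⟩
  let w' : Fin 4 → ℤ := ![m0, m1, m2, x 3]
  have hxw : x = hat w' := by
    funext i
    fin_cases i
    · simpa [hat, w'] using hm0
    · simpa [hat, w'] using hm1
    · simpa [hat, w'] using hm2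
    · simp [hat, w']
  have hx' : A *ᵥ toR (hat w) = toR (hat w') := by rw [hx, hxw]
  -- the two relations
  have rel1 : ∀ y : Fin 4 → ℤ, ∃ y' : Fin 4 → ℤ, (t : ℤ) ^ 3 * dot w' y = dot w y' ∧
      Q y' = ((t : ℤ) ^ 3) ^ 2 * Q y := by
    intro y
    obtain ⟨y', h1, h2⟩ := key y
    refine ⟨y', ?_, h2⟩
    rw [hxw, iso_B_hat] at h1
    linarith
  have rel2 : ∀ y : Fin 4 → ℤ, ∃ y' : Fin 4 → ℤ, (t : ℤ) * dot w y = dot w' y' ∧
      Q y' = (t : ℤ) ^ 2 * Q y := by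
    intro y
    obtain ⟨y', hy'⟩ := hden y
    refine ⟨y', ?_, ?_⟩
    · have h1 : B (A *ᵥ toR (hat w)) (A *ᵥ (toR y : Fin 4 → ℚ)) = B (toR (hat w)) (toR y) :=
        hA _ _
      have h2 : (t : ℚ) * B (A *ᵥ toR (hat w)) (A *ᵥ (toR y : Fin 4 → ℚ)) =
          (t : ℚ) * B (toR (hat w)) (toR y) := by rw [h1]
      rw [← iso_B_smul_right, hy', hx', iso_B_toR, iso_B_toR, iso_B_hat, iso_B_hat] at h2
      have h3 : 2 * dot w' y' = (t : ℤ) * (2 * dot w y) := by exact_mod_cast h2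
      linarith
    · have h1 : B (toR y' : Fin 4 → ℚ) (toR y') =
          (t : ℚ) * ((t : ℚ) * B (toR y : Fin 4 → ℚ) (toR y)) := by
        rw [← hy', iso_B_smul_right, iso_B_smul_left, hA]
      rw [iso_B_toR, iso_B_toR] at h1
      have h2 : (B y' y' : ℤ) = (t : ℤ) * ((t : ℤ) * B y y) := by exact_mod_cast h1
      rw [Q, Q, h2]
      ring
  have hQs : Qs w' = Qs w₀ := by
    have h1 : B (A *ᵥ toR (hat w)) (A *ᵥ toR (hat w)) =
        B (toR (hat w) : Fin 4 → ℚ) (toR (hat w)) := hA _ _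
    rw [hx', iso_B_toR, iso_B_toR] at h1
    have h2 : (B (hat w') (hat w') : ℤ) = B (hat w) (hat w) := by exact_mod_cast h1
    have h3 : Q (hat w') = Q (hat w) := h2
    rw [iso_Q_hat, iso_Q_hat] at h3
    rw [← hw.2.1]
    linarith
  have hCh : Ch w' ↔ Ch w :=
    ⟨ch_of w' w t htz rel2, ch_of w w' _ ht3 rel1⟩
  refine ⟨w', hx', ?_, hQs, hCh.trans hw.2.2⟩
  intro p hp
  by_contra hne
  push Not at hne
  have hdot : ∀ y : Fin 4 → ℤ, (p : ℤ) ∣ dot w' y := by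
    intro y
    exact dvd_add (dvd_add (dvd_add ((hne 0).mul_right _) ((hne 1).mul_right _))
      ((hne 2).mul_right _)) ((hne 3).mul_right _)
  have hpz : Prime (p : ℤ) := Nat.prime_iff_prime_int.1 hp
  by_cases hpt : (p : ℤ) ∣ (t : ℤ)
  · have h1 : (p : ℤ) ∣ Qs w₀ := by
      rw [← hQs, Qs]
      have h2 : ∀ i, (p : ℤ) ∣ w' i ^ 2 := fun i => (hne i).trans (dvd_pow_self _ two_ne_zero)
      exact dvd_add (dvd_mul_of_dvd_right (dvd_add (dvd_add (h2 0) (h2 1)) (h2 2)) _) (h2 3)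
    exact hpz.not_isUnit (hc.isUnit_of_dvd' h1 hpt)
  · obtain ⟨i, hi⟩ := hw.1 p hp
    apply hi
    obtain ⟨y', h1, -⟩ := rel2 (Pi.single i 1)
    have h2 : (p : ℤ) ∣ (t : ℤ) * dot w (Pi.single i 1) := by
      rw [h1]
      exact hdot y'
    have h3 : dot w (Pi.single i 1) = w i := by
      fin_cases i <;> simp [dot]
    rw [h3] at h2
    exact (hpz.dvd_or_dvd h2).resolve_left hpt

end Pool.Agent.LX
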