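import Pool.Agent.LX.Defs

set_option autoImplicit false

/-!
Project LX (problem MP_063baf_nt), part B4: lifting of codes.
-/

open Matrix

namespace Pool.Agent.LX

/-- The bilinear form commutes with the cast of integer vectors. -/
theorem lift_B_toR {R : Type*} [CommRing R] (x y : Fin 4 → ℤ) :
    B (toR x : Fin 4 → R) (toR y) = ((B x y : ℤ) : R) := by
  simp [B, toR]

/-- Every vector modulo `q` is the cast of an integer vector. -/
theorem lift_exists_int (q : ℕ) (y : Fin 4 → ZMod q) : ∃ y₀ : Fin 4 → ℤ, toR y₀ = y := by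
  choose f hf using fun i => ZMod.intCast_surjective (y i)
  exact ⟨f, funext hf⟩

/-- A code given by an integer vector, in terms of divisibility. -/
theorem lift_code_int_iff (q : ℕ) (u z : Fin 4 → ℤ) :
    CodeZ q u (toR z) ↔ (q : ℤ) ∣ Q z ∧ (q : ℤ) ∣ B u z ∧
      ∃ y : Fin 4 → ℤ, (q : ℤ) ∣ B y z - 1 := by
  have h1 : Q (toR z : Fin 4 → ZMod q) = ((Q z : ℤ) : ZMod q) := lift_B_toR z z
  have h2 : B (toR u : Fin 4 → ZMod q) (toR z) = ((B u z : ℤ) : ZMod q) := lift_B_toR u z
  unfold CodeZ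
  rw [h1, h2, CharP.intCast_eq_zero_iff (ZMod q) q, CharP.intCast_eq_zero_iff (ZMod q) q]
  refine and_congr Iff.rfl (and_congr Iff.rfl ?_)
  constructor
  · rintro ⟨y, hy⟩
    obtain ⟨y₀, rfl⟩ := lift_exists_int q y
    refine ⟨y₀, ?_⟩
    rw [← CharP.intCast_eq_zero_iff (ZMod q) q]
    push_cast
    rw [← lift_B_toR, hy, sub_self]
  · rintro ⟨y₀, hy⟩
    refine ⟨toR y₀, ?_⟩
    rw [← CharP.intCast_eq_zero_iff (ZMod q) q] at hy
    push_cast at hy
    rw [lift_B_toR]
    exact sub_eq_zero.mp hy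

/-- The conditions on `t` for `z + d t` to be a code modulo `d e`, when `e` divides `d`. -/
theorem lift_code_step (d e : ℕ) (he : e ∣ d) (hd : 0 < d) (u z t : Fin 4 → ℤ) (a b : ℤ)
    (ha : Q z = d * a) (hb : B u z = d * b) (hy : ∃ y : Fin 4 → ℤ, (d : ℤ) ∣ B y z - 1) :
    CodeZ (d * e) u (toR (fun i => z i + d * t i)) ↔
      (e : ℤ) ∣ a + 2 * B z t ∧ (e : ℤ) ∣ b + B u t := by
  have hd0 : (d : ℤ) ≠ 0 := by exact_mod_cast hd.ne'
  have hed : (e : ℤ) ∣ (d : ℤ) := by exact_mod_cast he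
  have hQ : Q (fun i => z i + d * t i) = d * (a + 2 * B z t + d * Q t) := by
    have : Q (fun i => z i + d * t i) = Q z + 2 * d * B z t + d ^ 2 * Q t := by
      simp only [Q, B]; ring
    rw [this, ha]; ring
  have hB : B u (fun i => z i + d * t i) = d * (b + B u t) := by
    have : B u (fun i => z i + d * t i) = B u z + d * B u t := by
      simp only [B]; ring
    rw [this, hb]; ring
  rw [lift_code_int_iff, hQ, hB]
  push_cast
  rw [mul_dvd_mul_iff_left hd0, mul_dvd_mul_iff_left hd0]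
  have h3 : ∃ y : Fin 4 → ℤ, (d : ℤ) * e ∣ B y (fun i => z i + d * t i) - 1 := by
    obtain ⟨y, c, hc⟩ := hy
    refine ⟨fun i => (1 - d * (c + B y t)) * y i, ?_⟩
    have h4 : B (fun i => (1 - d * (c + B y t)) * y i) (fun i => z i + d * t i) - 1 =
        d * d * (-(c + B y t) ^ 2) := by
      have h5 : B (fun i => (1 - d * (c + B y t)) * y i) (fun i => z i + d * t i) =
          (1 - d * (c + B y t)) * (B y z + d * B y t) := by
        simp only [B]; ring
      have h6 : B y z = 1 + d * c := by linarith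
      rw [h5, h6]; ring
    rw [h4]
    exact Dvd.dvd.mul_right (mul_dvd_mul_left _ hed) _
  constructor
  · rintro ⟨h1, h2, -⟩
    refine ⟨?_, h2⟩
    have := (Int.dvd_add_left (hed.mul_right (Q t))).mp h1
    exact this
  · rintro ⟨h1, h2⟩
    exact ⟨dvd_add h1 (hed.mul_right _), h2, h3⟩

/-- The two linear conditions as a homomorphism. -/
def liftHom (e : ℕ) (u z : Fin 4 → ZMod e) : (Fin 4 → ZMod e) →+ ZMod e × ZMod e where
  toFun t := (2 * B z t, B u t)
  map_zero' := by simp [B]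
  map_add' s t := by
    simp only [B, Pi.add_apply, Prod.mk_add_mk, Prod.mk.injEq]
    constructor <;> ring

theorem liftHom_surjective (e : ℕ) (hodd : Odd e) (u z : Fin 4 → ZMod e)
    (hu : IsUnit (Q u)) (huz : B u z = 0) (hy : ∃ y, B y z = 1) :
    Function.Surjective (liftHom e u z) := by
  rintro ⟨α, β⟩
  obtain ⟨y, hy⟩ := hy
  obtain ⟨v, hv⟩ := hu.exists_right_inv
  have h2 : IsUnit (2 : ZMod e) := by
    have : IsUnit ((2 : ℕ) : ZMod e) :=
      (ZMod.isUnit_iff_coprime 2 e).mpr ((Nat.coprime_two_left).mpr hodd)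
    simpa using this
  obtain ⟨w, hw⟩ := h2.exists_right_inv
  refine ⟨fun i => (β * v) * u i + (α * w) * (y i - B u y * v * u i), ?_⟩
  have e1 : B z (fun i => (β * v) * u i + (α * w) * (y i - B u y * v * u i)) =
      (β * v) * B u z + (α * w) * (B y z - B u y * v * B u z) := by
    simp only [B]; ring
  have e2 : B u (fun i => (β * v) * u i + (α * w) * (y i - B u y * v * u i)) =
      (β * v) * Q u + (α * w) * (B u y - B u y * v * Q u) := by
    simp only [B, Q]; ring
  show (2 * B z _, B u _) = (α, β)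
  rw [e1, e2, huz, hy]
  refine Prod.ext ?_ ?_
  · show 2 * (β * v * 0 + α * w * (1 - B u y * v * 0)) = α
    linear_combination α * hw
  · show β * v * Q u + α * w * (B u y - B u y * v * Q u) = β
    linear_combination (β - α * w * B u y) * hv

/-- The fibres of a surjective homomorphism of finite groups. -/
theorem lift_fiber_card {G H : Type*} [AddCommGroup G] [AddCommGroup H] [Finite G] [Finite H]
    (f : G →+ H) (hf : Function.Surjective f) (x : H) :
    {g | f g = x}.ncard * Nat.card H = Nat.card G := by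
  classical
  have := Fintype.ofFinite G
  have := Fintype.ofFinite H
  have h1 : ∀ y : H, {g | f g = y}.ncard = {g | f g = x}.ncard := by
    intro y
    obtain ⟨g₀, hg₀⟩ := hf (y - x)
    have : {g | f g = y} = (fun g => g₀ + g) '' {g | f g = x} := by
      ext g
      constructor
      · intro hg
        refine ⟨-g₀ + g, ?_, by simp⟩
        have hg' : f g = y := hg
        show f (-g₀ + g) = x
        rw [map_add, map_neg, hg₀, hg']; abel
      · rintro ⟨g', hg', rfl⟩
        have hg'' : f g' = x := hg'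
        show f (g₀ + g') = y
        rw [map_add, hg₀, hg'']; abel
    rw [this, Set.ncard_image_of_injective _ (add_right_injective g₀)]
  have h2 : (Finset.univ : Finset G).card =
      ∑ b ∈ (Finset.univ : Finset H), ((Finset.univ : Finset G).filter (fun g => f g = b)).card :=
    Finset.card_eq_sum_card_fiberwise (fun _ _ => Finset.mem_coe.mpr (Finset.mem_univ _))
  have h3 : ∀ b : H, ((Finset.univ : Finset G).filter (fun g => f g = b)).card =
      {g | f g = x}.ncard := by
    intro b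
    rw [← h1 b, ← Set.ncard_coe_finset]
    congr 1
    ext g; simp
  rw [Finset.sum_congr rfl (fun b _ => h3 b), Finset.sum_const, smul_eq_mul] at h2
  rw [Nat.card_eq_fintype_card, Nat.card_eq_fintype_card, ← Finset.card_univ,
    ← Finset.card_univ, h2, mul_comm]

/-- The number of solutions of the two linear conditions. -/
theorem lift_solutions (e : ℕ) (he : 0 < e) (hodd : Odd e) (u z : Fin 4 → ZMod e)
    (hu : IsUnit (Q u)) (huz : B u z = 0) (hy : ∃ y, B y z = 1) (α β : ZMod e) :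
    {t : Fin 4 → ZMod e | 2 * B z t = α ∧ B u t = β}.ncard = e ^ 2 := by
  have : NeZero e := ⟨he.ne'⟩
  have h := lift_fiber_card (liftHom e u z) (liftHom_surjective e hodd u z hu huz hy) (α, β)
  have h1 : {g | liftHom e u z g = (α, β)} = {t : Fin 4 → ZMod e | 2 * B z t = α ∧ B u t = β} := by
    ext t
    show (2 * B z t, B u t) = (α, β) ↔ _
    rw [Prod.mk.injEq]; rfl
  rw [h1] at h
  have h2 : Nat.card (ZMod e × ZMod e) = e ^ 2 := by
    rw [Nat.card_prod, Nat.card_zmod]; ring
  have h3 : Nat.card (Fin 4 → ZMod e) = e ^ 4 := by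
    rw [Nat.card_pi]; simp
  rw [h2, h3] at h
  have h4 : (0 : ℕ) < e ^ 2 := by positivity
  have : e ^ 4 = e ^ 2 * e ^ 2 := by ring
  rw [this] at h
  exact Nat.eq_of_mul_eq_mul_right h4 h

/-- The data of an integer code modulo `d`, reduced modulo a divisor `e`. -/
theorem lift_red_data (d e : ℕ) (he : e ∣ d) (u z : Fin 4 → ℤ) (hu : IsCoprime (Q u) (e : ℤ))
    (hz : CodeZ d u (toR z)) :
    IsUnit (Q (toR u : Fin 4 → ZMod e)) ∧ B (toR u : Fin 4 → ZMod e) (toR z) = 0 ∧
      ∃ y : Fin 4 → ZMod e, B y (toR z) = 1 := by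
  rw [lift_code_int_iff] at hz
  obtain ⟨-, h2, y, hy⟩ := hz
  have hed : (e : ℤ) ∣ (d : ℤ) := by exact_mod_cast he
  refine ⟨?_, ?_, toR y, ?_⟩
  · show IsUnit (B (toR u : Fin 4 → ZMod e) (toR u))
    rw [lift_B_toR]
    obtain ⟨r, s, hrs⟩ := hu
    refine IsUnit.of_mul_eq_one ((r : ℤ) : ZMod e) ?_
    have : ((r * Q u + s * (e : ℤ) : ℤ) : ZMod e) = 1 := by rw [hrs]; simp
    push_cast at this
    rw [ZMod.natCast_self, mul_zero, add_zero] at this
    rw [mul_comm]; exact this
  · rw [lift_B_toR, CharP.intCast_eq_zero_iff (ZMod e) e]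
    exact hed.trans h2
  · have := hed.trans hy
    rw [← CharP.intCast_eq_zero_iff (ZMod e) e] at this
    push_cast at this
    rw [lift_B_toR]
    exact sub_eq_zero.mp this

/-- One step of the lifting: from `d` to `d e` with `e ∣ d` there are exactly `e ^ 2` lifts. -/
theorem lift_one_step (d e q : ℕ) (hq : q = d * e) (hdq : d ∣ q) (he : e ∣ d) (hodd : Odd e)
    (hd : 0 < d) (u : Fin 4 → ℤ) (hu : IsCoprime (Q u) (e : ℤ)) (z : Fin 4 → ZMod d)
    (hz : CodeZ d u z) :
    {z' : Fin 4 → ZMod q | CodeZ q u z' ∧ red hdq z' = z}.ncard = e ^ 2 := by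
  subst hq
  obtain ⟨z₀, rfl⟩ := lift_exists_int d z
  have he0 : 0 < e := Nat.pos_of_dvd_of_pos he hd
  have : NeZero e := ⟨he0.ne'⟩
  have hd0 : (d : ℤ) ≠ 0 := by exact_mod_cast hd.ne'
  obtain ⟨hu1, huz1, hy1⟩ := lift_red_data d e he u z₀ hu hz
  have hz' := hz
  rw [lift_code_int_iff] at hz'
  obtain ⟨⟨a, ha⟩, ⟨b, hb⟩, hy⟩ := hz'
  have key : ∀ t : Fin 4 → ℤ, CodeZ (d * e) u (toR (fun i => z₀ i + d * t i)) ↔
      (toR t : Fin 4 → ZMod e) ∈ {t : Fin 4 → ZMod e | 2 * B (toR z₀) t = -(a : ZMod e) ∧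
        B (toR u) t = -(b : ZMod e)} := by
    intro t
    rw [lift_code_step d e he hd u z₀ t a b ha hb hy]
    show _ ↔ (2 * B (toR z₀ : Fin 4 → ZMod e) (toR t) = -(a : ZMod e) ∧
        B (toR u : Fin 4 → ZMod e) (toR t) = -(b : ZMod e))
    rw [lift_B_toR, lift_B_toR, ← CharP.intCast_eq_zero_iff (ZMod e) e,
      ← CharP.intCast_eq_zero_iff (ZMod e) e]
    push_cast
    refine and_congr ?_ ?_
    · constructor
      · intro h; linear_combination h
      · intro h; linear_combination h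
    · constructor
      · intro h; linear_combination h
      · intro h; linear_combination h
  have hT := lift_solutions e he0 hodd (toR u) (toR z₀) hu1 huz1 hy1 (-(a : ZMod e))
    (-(b : ZMod e))
  set T : Set (Fin 4 → ZMod e) := {t : Fin 4 → ZMod e | 2 * B (toR z₀) t = -(a : ZMod e) ∧
        B (toR u) t = -(b : ZMod e)} with hTdef
  let f : (Fin 4 → ZMod e) → (Fin 4 → ZMod (d * e)) :=
    fun t => toR (fun i => z₀ i + d * ((t i).cast : ℤ))
  have hf : Function.Injective f := by
    intro t t' h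
    funext i
    have h1 := congrFun h i
    have h2 : ((z₀ i + d * ((t i).cast : ℤ) : ℤ) : ZMod (d * e)) =
      ((z₀ i + d * ((t' i).cast : ℤ) : ℤ) : ZMod (d * e)) := h1
    rw [← sub_eq_zero, ← Int.cast_sub, CharP.intCast_eq_zero_iff (ZMod (d * e)) (d * e)] at h2
    have h3 : z₀ i + d * ((t i).cast : ℤ) - (z₀ i + d * ((t' i).cast : ℤ)) =
      d * (((t i).cast : ℤ) - ((t' i).cast : ℤ)) := by ring
    rw [h3] at h2
    push_cast at h2
    rw [mul_dvd_mul_iff_left hd0, ← CharP.intCast_eq_zero_iff (ZMod e) e] at h2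
    push_cast at h2
    simpa [sub_eq_zero] using h2
  have hS : {z' : Fin 4 → ZMod (d * e) | CodeZ (d * e) u z' ∧ red hdq z' = toR z₀} = f '' T := by
    ext z'
    constructor
    · rintro ⟨h1, h2⟩
      obtain ⟨z₁, rfl⟩ := lift_exists_int (d * e) z'
      have h3 : ∀ i, (d : ℤ) ∣ z₁ i - z₀ i := by
        intro i
        have h4 := congrFun h2 i
        have h5 : ZMod.castHom hdq (ZMod d) ((z₁ i : ℤ) : ZMod (d * e)) = ((z₀ i : ℤ) : ZMod d) := h4
        rw [map_intCast] at h5
        rw [← CharP.intCast_eq_zero_iff (ZMod d) d]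
        push_cast
        rw [h5, sub_self]
      choose t₀ ht₀ using h3
      have h6 : z₁ = fun i => z₀ i + d * t₀ i := by
        funext i; linarith [ht₀ i]
      have h7 : (toR t₀ : Fin 4 → ZMod e) ∈ T := by
        rw [h6] at h1
        exact (key t₀).mp h1
      refine ⟨toR t₀, h7, ?_⟩
      funext i
      show ((z₀ i + d * ((((t₀ i : ℤ) : ZMod e)).cast : ℤ) : ℤ) : ZMod (d * e)) =
        ((z₁ i : ℤ) : ZMod (d * e))
      rw [← sub_eq_zero, ← Int.cast_sub, CharP.intCast_eq_zero_iff (ZMod (d * e)) (d * e)]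
      have h8 : z₀ i + d * ((((t₀ i : ℤ) : ZMod e)).cast : ℤ) - z₁ i =
          d * (((((t₀ i : ℤ) : ZMod e)).cast : ℤ) - t₀ i) := by
        rw [h6]; ring
      rw [h8]
      push_cast
      rw [mul_dvd_mul_iff_left hd0, ← CharP.intCast_eq_zero_iff (ZMod e) e]
      push_cast
      simp
    · rintro ⟨t, ht, rfl⟩
      obtain ⟨t₀, ht₀⟩ : ∃ t₀ : Fin 4 → ℤ, t₀ = fun i => ((t i).cast : ℤ) := ⟨_, rfl⟩
      have h1 : (toR t₀ : Fin 4 → ZMod e) = t := by
        funext i
        rw [ht₀]
        show ((((t i).cast : ℤ)) : ZMod e) = t i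
        simp
      have h2 : f t = toR (fun i => z₀ i + d * t₀ i) := by rw [ht₀]
      refine ⟨?_, ?_⟩
      · rw [h2]
        refine (key t₀).mpr ?_
        rw [h1]
        exact ht
      · rw [h2]
        funext i
        show ZMod.castHom hdq (ZMod d) ((z₀ i + d * t₀ i : ℤ) : ZMod (d * e)) =
          ((z₀ i : ℤ) : ZMod d)
        rw [map_intCast]
        push_cast
        simp
  rw [hS, Set.ncard_image_of_injective _ hf, hT]

/-- The number of lifts of a code. -/
theorem lift_count (P k : ℕ) (hP : Odd P) (hP1 : 1 < P) (hk : 1 ≤ k) (u : Fin 4 → ℤ)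
    (hu : IsCoprime (Q u) (P : ℤ)) (h : ℕ) (z : Fin 4 → ZMod (P ^ k)) (hz : CodeZ (P ^ k) u z) :
    {z' : Fin 4 → ZMod (P ^ (k + h)) | CodeZ (P ^ (k + h)) u z' ∧
      red (pow_dvd_pow P (Nat.le_add_right k h)) z' = z}.ncard = P ^ (2 * h) := by
  classical
  have hP0 : 0 < P := by omega
  induction h with
  | zero =>
    have h0 : ∀ z' : Fin 4 → ZMod (P ^ (k + 0)),
        red (pow_dvd_pow P (Nat.le_add_right k 0)) z' = z' := by
      intro z'
      funext i
      show ZMod.castHom (dvd_refl (P ^ k)) (ZMod (P ^ k)) (z' i) = z' i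
      rw [ZMod.castHom_self]; rfl
    have h1 : {z' : Fin 4 → ZMod (P ^ (k + 0)) | CodeZ (P ^ (k + 0)) u z' ∧
      red (pow_dvd_pow P (Nat.le_add_right k 0)) z' = z} = {z} := by
      ext z'
      constructor
      · rintro ⟨-, h2⟩
        rw [h0] at h2
        exact h2
      · intro h2
        have h3 : z' = z := h2
        subst h3
        exact ⟨hz, h0 _⟩
    rw [h1, Set.ncard_singleton]; simp
  | succ h ih =>
    have n1 : NeZero (P ^ (k + h)) := ⟨by positivity⟩
    have n2 : NeZero (P ^ (k + (h + 1))) := ⟨by positivity⟩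
    have hdvd : P ^ (k + h) ∣ P ^ (k + (h + 1)) := pow_dvd_pow P (by omega)
    have hred : ∀ z' : Fin 4 → ZMod (P ^ (k + (h + 1))),
        red (pow_dvd_pow P (Nat.le_add_right k h)) (red hdvd z') =
          red (pow_dvd_pow P (Nat.le_add_right k (h + 1))) z' := by
      intro z'
      funext i
      obtain ⟨m, hm⟩ := ZMod.intCast_surjective (z' i)
      show ZMod.castHom _ (ZMod (P ^ k)) (ZMod.castHom _ (ZMod (P ^ (k + h))) (z' i)) =
        ZMod.castHom _ (ZMod (P ^ k)) (z' i)
      rw [← hm, map_intCast, map_intCast, map_intCast]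
    set S : Set (Fin 4 → ZMod (P ^ (k + h))) := {z' | CodeZ (P ^ (k + h)) u z' ∧
      red (pow_dvd_pow P (Nat.le_add_right k h)) z' = z} with hS
    set S' : Set (Fin 4 → ZMod (P ^ (k + (h + 1)))) := {z' | CodeZ (P ^ (k + (h + 1))) u z' ∧
      red (pow_dvd_pow P (Nat.le_add_right k (h + 1))) z' = z} with hS'
    have hcode : ∀ z' : Fin 4 → ZMod (P ^ (k + (h + 1))), CodeZ (P ^ (k + (h + 1))) u z' →
        CodeZ (P ^ (k + h)) u (red hdvd z') := by
      intro z' hz'
      obtain ⟨z₁, rfl⟩ := lift_exists_int _ z'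
      have h1 : red hdvd (toR z₁) = toR z₁ := by
        funext i
        show ZMod.castHom hdvd (ZMod (P ^ (k + h))) ((z₁ i : ℤ) : ZMod (P ^ (k + (h + 1)))) =
          ((z₁ i : ℤ) : ZMod (P ^ (k + h)))
        rw [map_intCast]
      rw [h1]
      rw [lift_code_int_iff] at hz' ⊢
      have h2 : ((P ^ (k + h) : ℕ) : ℤ) ∣ ((P ^ (k + (h + 1)) : ℕ) : ℤ) := by
        exact_mod_cast hdvd
      obtain ⟨h3, h4, y, h5⟩ := hz'
      exact ⟨h2.trans h3, h2.trans h4, y, h2.trans h5⟩
    have hfib : ∀ z₁ ∈ S, {z' | z' ∈ S' ∧ red hdvd z' = z₁}.ncard = P ^ 2 := by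
      intro z₁ hz₁
      have h1 := lift_one_step (P ^ (k + h)) P (P ^ (k + (h + 1)))
        (by rw [← add_assoc, pow_succ]) hdvd (dvd_pow_self P (by omega)) hP (by positivity)
        u hu z₁ hz₁.1
      rw [← h1]
      congr 1
      ext z'
      constructor
      · rintro ⟨h2, h3⟩
        exact ⟨h2.1, h3⟩
      · rintro ⟨h2, h3⟩
        refine ⟨⟨h2, ?_⟩, h3⟩
        rw [← hred, h3]
        exact hz₁.2
    have hSf : S.Finite := Set.toFinite _
    have hSf' : S'.Finite := Set.toFinite _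
    have hsum : hSf'.toFinset.card = ∑ b ∈ hSf.toFinset,
        (hSf'.toFinset.filter (fun z' => red hdvd z' = b)).card := by
      apply Finset.card_eq_sum_card_fiberwise
      intro z' hz'
      have h1 : z' ∈ S' := hSf'.mem_toFinset.mp (Finset.mem_coe.mp hz')
      have h2 : red hdvd z' ∈ S := ⟨hcode z' h1.1, by rw [hred]; exact h1.2⟩
      exact Finset.mem_coe.mpr (hSf.mem_toFinset.mpr h2)
    have h3 : ∀ b ∈ hSf.toFinset, (hSf'.toFinset.filter (fun z' => red hdvd z' = b)).card =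
        P ^ 2 := by
      intro b hb
      have hb' : b ∈ S := hSf.mem_toFinset.mp hb
      rw [← hfib b hb', ← Set.ncard_coe_finset]
      congr 1
      ext z'
      rw [Finset.mem_coe, Finset.mem_filter, hSf'.mem_toFinset]
      exact Iff.rfl
    rw [Finset.sum_congr rfl h3, Finset.sum_const, smul_eq_mul,
      ← Set.ncard_eq_toFinset_card S' hSf', ← Set.ncard_eq_toFinset_card S hSf, ih] at hsum
    rw [hsum]; ring

/-- The auxiliary form of `lift_code` for the induction on the quotient. -/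
theorem lift_code_aux (P N : ℕ) (hP : Odd P) (u : Fin 4 → ℤ) (hu : IsCoprime (Q u) (P : ℤ))
    (m : ℕ) : ∀ (d : ℕ) (z : Fin 4 → ℤ), P ∣ d → d * m = P ^ N → CodeZ d u (toR z) →
    ∃ z' : Fin 4 → ℤ, CodeZ (P ^ N) u (toR z') ∧ ∀ i, (d : ℤ) ∣ z' i - z i := by
  have hP0 : 0 < P := hP.pos
  induction m using induction_on_primes with
  | zero =>
    intro d z _ h _
    have : 0 < P ^ N := by positivity
    omega
  | one =>
    intro d z _ h hz
    rw [mul_one] at h
    rw [← h]
    exact ⟨z, hz, fun i => by simp⟩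
  | prime_mul p a hp ih =>
    intro d z hPd h hz
    have hpP : p ∣ P := hp.dvd_of_dvd_pow (h ▸ ((dvd_mul_right p a).mul_left d))
    have hd : 0 < d := by
      rcases Nat.eq_zero_or_pos d with h0 | h0
      · rw [h0, zero_mul] at h
        have : 0 < P ^ N := by positivity
        omega
      · exact h0
    have hpodd : Odd p := Odd.of_dvd_nat hP hpP
    have hup : IsCoprime (Q u) (p : ℤ) :=
      hu.of_isCoprime_of_dvd_right (by exact_mod_cast hpP)
    have h1 := lift_one_step d p (d * p) rfl (dvd_mul_right d p) (hpP.trans hPd) hpodd hd u hup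
      (toR z) hz
    have h2 : {z' : Fin 4 → ZMod (d * p) | CodeZ (d * p) u z' ∧
        red (dvd_mul_right d p) z' = toR z}.Nonempty := by
      rw [Set.nonempty_iff_ne_empty]
      intro h3
      rw [h3, Set.ncard_empty] at h1
      have : 0 < p ^ 2 := pow_pos hp.pos 2
      omega
    obtain ⟨z', hz', hred⟩ := h2
    obtain ⟨z₁, rfl⟩ := lift_exists_int (d * p) z'
    obtain ⟨z₂, hz₂, hdvd⟩ := ih (d * p) z₁ (hPd.mul_right p) (by rw [mul_assoc]; exact h) hz'
    refine ⟨z₂, hz₂, fun i => ?_⟩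
    have h4 : (d : ℤ) ∣ z₂ i - z₁ i := by
      refine dvd_trans ?_ (hdvd i)
      push_cast
      exact dvd_mul_right _ _
    have h5 : (d : ℤ) ∣ z₁ i - z i := by
      have h6 := congrFun hred i
      have h7 : ZMod.castHom (dvd_mul_right d p) (ZMod d) ((z₁ i : ℤ) : ZMod (d * p)) =
        ((z i : ℤ) : ZMod d) := h6
      rw [map_intCast] at h7
      rw [← CharP.intCast_eq_zero_iff (ZMod d) d]
      push_cast
      rw [h7, sub_self]
    have h8 := dvd_add h4 h5
    have h9 : z₂ i - z₁ i + (z₁ i - z i) = z₂ i - z i := by ring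
    rwa [h9] at h8

/-- A code modulo `d`, with `P ∣ d ∣ P ^ N`, lifts to a code modulo `P ^ N`. -/
theorem lift_code (P N d : ℕ) (hP : Odd P) (hPd : P ∣ d) (hd : d ∣ P ^ N) (u z : Fin 4 → ℤ)
    (hu : IsCoprime (Q u) (P : ℤ)) (hz : CodeZ d u (toR z)) :
    ∃ z' : Fin 4 → ℤ, CodeZ (P ^ N) u (toR z') ∧ ∀ i, (d : ℤ) ∣ z' i - z i := by
  obtain ⟨m, hm⟩ := hd
  exact lift_code_aux P N hP u hu m d z hPd hm.symm hz

end Pool.Agent.LX
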