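import Pool.Agent.LX.GramOne

set_option autoImplicit false

/-!
# Kneser neighbours of `ℤ^4` with the form `x^2 + y^2 + z^2 + 2 w^2` (project LX)
-/

open Matrix

namespace Pool.Agent.LX

/-- The Gram matrix of the form. -/
def nbG (R : Type*) [CommRing R] : Matrix (Fin 4) (Fin 4) R := Matrix.diagonal ![1, 1, 1, 2]

theorem nb_B_eq {R : Type*} [CommRing R] (x y : Fin 4 → R) : B x y = x ⬝ᵥ (nbG R *ᵥ y) := by
  simp [B, nbG, dotProduct, Matrix.mulVec, Fin.sum_univ_four, Matrix.diagonal_apply]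
  ring

theorem nb_B_mul {R : Type*} [CommRing R] (M : Matrix (Fin 4) (Fin 4) R) (x y : Fin 4 → R) :
    B (M *ᵥ x) (M *ᵥ y) = x ⬝ᵥ ((Mᵀ * nbG R * M) *ᵥ y) := by
  rw [nb_B_eq, ← Matrix.mulVec_mulVec, ← Matrix.mulVec_mulVec, Matrix.dotProduct_mulVec x,
    Matrix.vecMul_transpose]

theorem nb_castB {R : Type*} [CommRing R] (x y : Fin 4 → ℤ) :
    B (toR x : Fin 4 → R) (toR y) = ((B x y : ℤ) : R) := by
  simp [B, toR]

theorem nb_gcd (a b : ℤ) : ∃ g x y a' b' : ℤ, a = g * a' ∧ b = g * b' ∧ x * a' + y * b' = 1 := by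
  by_cases h : a = 0 ∧ b = 0
  · exact ⟨0, 1, 0, 1, 0, by simp [h.1], by simp [h.2], by norm_num⟩
  · have hg : (Int.gcd a b : ℤ) ≠ 0 := by
      intro h0
      exact h (Int.gcd_eq_zero_iff.mp (by exact_mod_cast h0))
    obtain ⟨a', ha'⟩ := Int.gcd_dvd_left a b
    obtain ⟨b', hb'⟩ := Int.gcd_dvd_right a b
    refine ⟨Int.gcd a b, Int.gcdA a b, Int.gcdB a b, a', b', ha', hb', ?_⟩
    apply mul_left_cancel₀ hg
    have h1 := Int.gcd_eq_gcd_ab a b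
    linear_combination (Int.gcdA a b) * (-ha') + (Int.gcdB a b) * (-hb') - h1

/-- Elimination in the coordinates `2, 3`. -/
theorem nb_step23 (v : Fin 4 → ℤ) : ∃ U U' : Matrix (Fin 4) (Fin 4) ℤ, U * U' = 1 ∧ U' * U = 1 ∧
    (∀ i, U 0 i = if i = 0 then 1 else 0) ∧
    (∀ i, U i 0 = if i = 0 then 1 else 0) ∧ (U *ᵥ v) 3 = 0 := by
  obtain ⟨g, x, y, a, b, ha, hb, h⟩ := nb_gcd (v 2) (v 3)
  refine ⟨!![1, 0, 0, 0; 0, 1, 0, 0; 0, 0, x, y; 0, 0, -b, a],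
    !![1, 0, 0, 0; 0, 1, 0, 0; 0, 0, a, -y; 0, 0, b, x], ?_, ?_, ?_, ?_, ?_⟩
  · ext i j
    fin_cases i <;> fin_cases j <;> simp [Matrix.mul_apply, Fin.sum_univ_four] <;>
      first | ring1 | linear_combination h
  · ext i j
    fin_cases i <;> fin_cases j <;> simp [Matrix.mul_apply, Fin.sum_univ_four] <;>
      first | ring1 | linear_combination h
  · intro i
    fin_cases i <;> simp
  · intro i
    fin_cases i <;> simp
  · simp [Matrix.mulVec, dotProduct, Fin.sum_univ_four]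
    rw [ha, hb]
    ring

/-- Elimination in the coordinates `1, 2`. -/
theorem nb_step12 (v : Fin 4 → ℤ) (hv : v 3 = 0) :
    ∃ U U' : Matrix (Fin 4) (Fin 4) ℤ, U * U' = 1 ∧ U' * U = 1 ∧
    (∀ i, U 0 i = if i = 0 then 1 else 0) ∧
    (∀ i, U i 0 = if i = 0 then 1 else 0) ∧ (U *ᵥ v) 2 = 0 ∧ (U *ᵥ v) 3 = 0 := by
  obtain ⟨g, x, y, a, b, ha, hb, h⟩ := nb_gcd (v 1) (v 2)
  refine ⟨!![1, 0, 0, 0; 0, x, y, 0; 0, -b, a, 0; 0, 0, 0, 1],
    !![1, 0, 0, 0; 0, a, -y, 0; 0, b, x, 0; 0, 0, 0, 1], ?_, ?_, ?_, ?_, ?_, ?_⟩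
  · ext i j
    fin_cases i <;> fin_cases j <;> simp [Matrix.mul_apply, Fin.sum_univ_four] <;>
      first | ring1 | linear_combination h
  · ext i j
    fin_cases i <;> fin_cases j <;> simp [Matrix.mul_apply, Fin.sum_univ_four] <;>
      first | ring1 | linear_combination h
  · intro i
    fin_cases i <;> simp
  · intro i
    fin_cases i <;> simp
  · simp [Matrix.mulVec, dotProduct, Fin.sum_univ_four]
    rw [ha, hb]
    ring
  · simp [Matrix.mulVec, dotProduct, Fin.sum_univ_four, hv]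

/-- Elimination in the coordinates `0, 1`. -/
theorem nb_step01 (v : Fin 4 → ℤ) (hv : v 2 = 0) (hv' : v 3 = 0) :
    ∃ U U' : Matrix (Fin 4) (Fin 4) ℤ, U * U' = 1 ∧ U' * U = 1 ∧
    (U *ᵥ v) 1 = 0 ∧ (U *ᵥ v) 2 = 0 ∧ (U *ᵥ v) 3 = 0 := by
  obtain ⟨g, x, y, a, b, ha, hb, h⟩ := nb_gcd (v 0) (v 1)
  refine ⟨!![x, y, 0, 0; -b, a, 0, 0; 0, 0, 1, 0; 0, 0, 0, 1],
    !![a, -y, 0, 0; b, x, 0, 0; 0, 0, 1, 0; 0, 0, 0, 1], ?_, ?_, ?_, ?_, ?_⟩
  · ext i j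
    fin_cases i <;> fin_cases j <;> simp [Matrix.mul_apply, Fin.sum_univ_four] <;>
      first | ring1 | linear_combination h
  · ext i j
    fin_cases i <;> fin_cases j <;> simp [Matrix.mul_apply, Fin.sum_univ_four] <;>
      first | ring1 | linear_combination h
  · simp [Matrix.mulVec, dotProduct, Fin.sum_univ_four]
    rw [ha, hb]
    ring
  · simp [Matrix.mulVec, dotProduct, Fin.sum_univ_four, hv]
  · simp [Matrix.mulVec, dotProduct, Fin.sum_univ_four, hv']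

/-- Elimination fixing the coordinate `0`. -/
theorem nb_red3 (v : Fin 4 → ℤ) : ∃ U U' : Matrix (Fin 4) (Fin 4) ℤ, U * U' = 1 ∧ U' * U = 1 ∧
    (∀ i, U 0 i = if i = 0 then 1 else 0) ∧
    (∀ i, U i 0 = if i = 0 then 1 else 0) ∧ (U *ᵥ v) 2 = 0 ∧ (U *ᵥ v) 3 = 0 := by
  obtain ⟨U, U', h1, h2, h3, h4, h5⟩ := nb_step23 v
  obtain ⟨V, V', k1, k2, k3, k4, k5, k6⟩ := nb_step12 (U *ᵥ v) h5
  refine ⟨V * U, U' * V', ?_, ?_, ?_, ?_, ?_, ?_⟩
  · rw [Matrix.mul_assoc, ← Matrix.mul_assoc U, h1, Matrix.one_mul, k1]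
  · rw [Matrix.mul_assoc, ← Matrix.mul_assoc V', k2, Matrix.one_mul, h2]
  · intro i
    rw [Matrix.mul_apply, Fin.sum_univ_four, k3, k3, k3, k3]
    simp [h3]
  · intro i
    rw [Matrix.mul_apply, Fin.sum_univ_four, h4, h4, h4, h4]
    simp [k4]
  · rw [← Matrix.mulVec_mulVec, k5]
  · rw [← Matrix.mulVec_mulVec, k6]

/-- Elimination of all coordinates but the first. -/
theorem nb_red4 (v : Fin 4 → ℤ) : ∃ U U' : Matrix (Fin 4) (Fin 4) ℤ, U * U' = 1 ∧ U' * U = 1 ∧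
    (U *ᵥ v) 1 = 0 ∧ (U *ᵥ v) 2 = 0 ∧ (U *ᵥ v) 3 = 0 := by
  obtain ⟨U, U', h1, h2, -, -, h3, h4⟩ := nb_red3 v
  obtain ⟨V, V', k1, k2, k3, k4, k5⟩ := nb_step01 (U *ᵥ v) h3 h4
  refine ⟨V * U, U' * V', ?_, ?_, ?_, ?_, ?_⟩
  · rw [Matrix.mul_assoc, ← Matrix.mul_assoc U, h1, Matrix.one_mul, k1]
  · rw [Matrix.mul_assoc, ← Matrix.mul_assoc V', k2, Matrix.one_mul, h2]
  · rw [← Matrix.mulVec_mulVec, k3]
  · rw [← Matrix.mulVec_mulVec, k4]
  · rw [← Matrix.mulVec_mulVec, k5]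

/-- A lift of an isotropic vector modulo `q` to an isotropic vector modulo `q ^ 2`. -/
theorem nb_lift (q : ℕ) (hq : Odd q) (z : Fin 4 → ℤ)
    (hQ : Q (toR z : Fin 4 → ZMod q) = 0) (hz : ∃ y : Fin 4 → ZMod q, B y (toR z) = 1) :
    ∃ (z₁ y₀ : Fin 4 → ℤ), (q : ℤ) ^ 2 ∣ Q z₁ ∧ (q : ℤ) ∣ B y₀ z₁ - 1 ∧
      ∀ y, (q : ℤ) ∣ B y z₁ ↔ (q : ℤ) ∣ B y z := by
  obtain ⟨y, hy⟩ := hz
  obtain ⟨y₀, rfl⟩ : ∃ y₀ : Fin 4 → ℤ, toR y₀ = y := by
    refine ⟨fun i => (ZMod.intCast_surjective (y i)).choose, ?_⟩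
    funext i
    exact (ZMod.intCast_surjective (y i)).choose_spec
  rw [nb_castB] at hy
  unfold Q at hQ
  rw [nb_castB, ZMod.intCast_zmod_eq_zero_iff_dvd] at hQ
  have hy' : (q : ℤ) ∣ B y₀ z - 1 := by
    rw [← ZMod.intCast_zmod_eq_zero_iff_dvd]
    push_cast
    rw [hy, sub_self]
  obtain ⟨m, hm⟩ := hQ
  obtain ⟨h, hh⟩ := hq
  obtain ⟨r, hr⟩ := hy'
  have hq1 : (q : ℤ) = 2 * h + 1 := by exact_mod_cast hh
  refine ⟨fun i => z i + q * (-(m * (h + 1))) * y₀ i, y₀, ?_, ?_, ?_⟩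
  · have e1 : Q (fun i => z i + q * (-(m * (h + 1))) * y₀ i) =
        B z z - 2 * q * (m * (h + 1)) * B y₀ z + q ^ 2 * (m * (h + 1)) ^ 2 * B y₀ y₀ := by
      simp only [Q, B]
      ring
    rw [e1, hm]
    have e2 : B y₀ z = 1 + q * r := by linear_combination hr
    rw [e2]
    refine ⟨-m - 2 * m * (h + 1) * r + (m * (h + 1)) ^ 2 * B y₀ y₀, ?_⟩
    linear_combination m * q * hq1
  · have e1 : B y₀ (fun i => z i + q * (-(m * (h + 1))) * y₀ i) - 1 =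
        (B y₀ z - 1) + q * (-(m * (h + 1)) * B y₀ y₀) := by
      simp only [B]
      ring
    rw [e1, hr, ← mul_add]
    exact dvd_mul_right _ _
  · intro y
    have e1 : B y (fun i => z i + q * (-(m * (h + 1))) * y₀ i) =
        B y z + q * (-(m * (h + 1)) * B y y₀) := by
      simp only [B]
      ring
    rw [e1]
    exact (Int.dvd_add_left (dvd_mul_right _ _))

/-- The adapted basis: the columns of `W`. -/
theorem nb_basis (q : ℕ) (hq : Odd q) (z : Fin 4 → ℤ)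
    (hQ : Q (toR z : Fin 4 → ZMod q) = 0) (hz : ∃ y : Fin 4 → ZMod q, B y (toR z) = 1) :
    ∃ W W' : Matrix (Fin 4) (Fin 4) ℤ, W * W' = 1 ∧ W' * W = 1 ∧
      (q : ℤ) ^ 2 ∣ (Wᵀ * nbG ℤ * W) 0 0 ∧ (q : ℤ) ∣ (Wᵀ * nbG ℤ * W) 2 0 ∧
      (q : ℤ) ∣ (Wᵀ * nbG ℤ * W) 3 0 ∧ ∀ y, (q : ℤ) ∣ (W' *ᵥ y) 1 ↔ (q : ℤ) ∣ B y z := by
  obtain ⟨z₁, y₀, h1, h2, h3⟩ := nb_lift q hq z hQ hz
  obtain ⟨U, U', u1, u2, u3, u4, u5⟩ := nb_red4 z₁
  obtain ⟨V, V', v1, v2, v3, v4, v5, v6⟩ := nb_red3 (fun j => (U'ᵀ * nbG ℤ * U') j 0)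
  have hW1 : U' * Vᵀ * (V'ᵀ * U) = 1 := by
    rw [Matrix.mul_assoc, ← Matrix.mul_assoc Vᵀ, ← Matrix.transpose_mul, v2,
      Matrix.transpose_one, Matrix.one_mul, u2]
  have hW2 : V'ᵀ * U * (U' * Vᵀ) = 1 := by
    rw [Matrix.mul_assoc, ← Matrix.mul_assoc U, u1, Matrix.one_mul, ← Matrix.transpose_mul, v1,
      Matrix.transpose_one]
  set g : ℤ := (U *ᵥ z₁) 0 with hg
  have hz1 : z₁ = U' *ᵥ (Pi.single 0 g) := by
    have : U *ᵥ z₁ = Pi.single 0 g := by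
      funext i
      fin_cases i
      · simp [hg]
      · simpa using u3
      · simpa using u4
      · simpa using u5
    rw [← this, Matrix.mulVec_mulVec, u2, Matrix.one_mulVec]
  have hVe : Vᵀ *ᵥ (Pi.single 0 g) = Pi.single 0 g := by
    funext i
    rw [Matrix.mulVec_single]
    simp only [Pi.smul_apply, Matrix.col_apply, Matrix.transpose_apply, v3]
    fin_cases i <;> simp
  have hz2 : z₁ = (U' * Vᵀ) *ᵥ (Pi.single 0 g) := by
    rw [← Matrix.mulVec_mulVec, hVe, ← hz1]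
  set W := U' * Vᵀ with hW
  set W' := V'ᵀ * U with hW'
  have hT : ∀ i, (Wᵀ * nbG ℤ * W) i 0 = (V *ᵥ (fun j => (U'ᵀ * nbG ℤ * U') j 0)) i := by
    intro i
    have e1 : Wᵀ * nbG ℤ * W = V * (U'ᵀ * nbG ℤ * U') * Vᵀ := by
      rw [hW, Matrix.transpose_mul, Matrix.transpose_transpose]
      simp only [Matrix.mul_assoc]
    rw [e1, Matrix.mul_apply, Fin.sum_univ_four]
    simp only [Matrix.transpose_apply, v3]
    simp [Matrix.mul_apply, Matrix.mulVec, dotProduct]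
  have hT2 : (Wᵀ * nbG ℤ * W) 2 0 = 0 := by rw [hT, v5]
  have hT3 : (Wᵀ * nbG ℤ * W) 3 0 = 0 := by rw [hT, v6]
  set T := Wᵀ * nbG ℤ * W with hTdef
  have hB : ∀ y, B y z₁ = g * ((W' *ᵥ y) 0 * T 0 0 + (W' *ᵥ y) 1 * T 1 0) := by
    intro y
    have e1 : y = W *ᵥ (W' *ᵥ y) := by
      rw [Matrix.mulVec_mulVec, hW1, Matrix.one_mulVec]
    conv_lhs => rw [e1, hz2]
    rw [nb_B_mul, ← hTdef]
    simp only [dotProduct, Fin.sum_univ_four, Matrix.mulVec_single, Pi.smul_apply,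
      Matrix.col_apply, hT2, hT3]
    simp
    ring
  have hQz : Q z₁ = g ^ 2 * T 0 0 := by
    have e0 : W' *ᵥ z₁ = Pi.single 0 g := by
      rw [hz2, Matrix.mulVec_mulVec, hW2, Matrix.one_mulVec]
    have := hB z₁
    rw [e0] at this
    unfold Q
    rw [this]
    simp
    ring
  have hcop : IsCoprime (q : ℤ) (g * ((W' *ᵥ y₀) 0 * T 0 0 + (W' *ᵥ y₀) 1 * T 1 0)) := by
    rw [← hB]
    obtain ⟨r, hr⟩ := h2
    exact ⟨-r, 1, by linear_combination hr⟩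
  have hcg : IsCoprime (q : ℤ) g := hcop.of_mul_right_left
  have hT00 : (q : ℤ) ^ 2 ∣ T 0 0 := by
    rw [hQz] at h1
    exact (hcg.pow (m := 2) (n := 2)).dvd_of_dvd_mul_left h1
  have hqT : (q : ℤ) ∣ T 0 0 := (dvd_pow_self _ two_ne_zero).trans hT00
  have hcT : IsCoprime (q : ℤ) (T 1 0) := by
    have h4 := hcop.of_mul_right_right
    obtain ⟨r, hr⟩ := hqT
    have h5 : (W' *ᵥ y₀) 0 * T 0 0 + (W' *ᵥ y₀) 1 * T 1 0 =
        (W' *ᵥ y₀) 1 * T 1 0 + (q : ℤ) * ((W' *ᵥ y₀) 0 * r) := by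
      rw [hr]
      ring
    rw [h5] at h4
    exact (h4.of_add_mul_left_right).of_mul_right_right
  refine ⟨W, W', hW1, hW2, hT00, by rw [← hTdef, hT2]; exact dvd_zero _,
    by rw [← hTdef, hT3]; exact dvd_zero _, ?_⟩
  intro y
  rw [← h3, hB]
  constructor
  · intro h
    exact dvd_mul_of_dvd_right (dvd_add (dvd_mul_of_dvd_right hqT _) (dvd_mul_of_dvd_left h _)) _
  · intro h
    have h4 := hcg.dvd_of_dvd_mul_left h
    rw [Int.dvd_add_right (dvd_mul_of_dvd_right hqT _)] at h4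
    exact hcT.dvd_of_dvd_mul_right h4

/-- The Gram matrix of the neighbour. -/
theorem nb_gram (q : ℕ) (hq : 0 < q) (W W' : Matrix (Fin 4) (Fin 4) ℤ) (hW : W * W' = 1)
    (hW' : W' * W = 1) (h0 : (q : ℤ) ^ 2 ∣ (Wᵀ * nbG ℤ * W) 0 0)
    (h2 : (q : ℤ) ∣ (Wᵀ * nbG ℤ * W) 2 0) (h3 : (q : ℤ) ∣ (Wᵀ * nbG ℤ * W) 3 0) :
    ∃ S : Matrix (Fin 4) (Fin 4) ℤ, Sᵀ = S ∧ (∀ x : Fin 4 → ℤ, x ≠ 0 → 0 < x ⬝ᵥ (S *ᵥ x)) ∧
      S.det = 2 ∧ Matrix.diagonal ![(q : ℤ) ^ 2, 1, q, q] * S *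
        Matrix.diagonal ![(q : ℤ) ^ 2, 1, q, q] = (q : ℤ) ^ 2 • (Wᵀ * nbG ℤ * W) := by
  have hq0 : (q : ℤ) ≠ 0 := by exact_mod_cast hq.ne'
  have hGt : (nbG ℤ)ᵀ = nbG ℤ := Matrix.diagonal_transpose _
  have hTt : (Wᵀ * nbG ℤ * W)ᵀ = Wᵀ * nbG ℤ * W := by
    rw [Matrix.transpose_mul, Matrix.transpose_mul, Matrix.transpose_transpose, hGt,
      Matrix.mul_assoc]
  have hTdet : (Wᵀ * nbG ℤ * W).det = 2 := by
    rw [Matrix.det_mul, Matrix.det_mul, Matrix.det_transpose, nbG, Matrix.det_diagonal]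
    have : W.det * W'.det = 1 := by rw [← Matrix.det_mul, hW, Matrix.det_one]
    have h4 : W.det * W.det = 1 := by
      rcases Int.isUnit_iff.mp (IsUnit.of_mul_eq_one _ this) with h | h <;> rw [h] <;> norm_num
    simp [Fin.prod_univ_four]
    linear_combination 2 * h4
  have hTpos : ∀ x : Fin 4 → ℤ, x ≠ 0 → 0 < x ⬝ᵥ ((Wᵀ * nbG ℤ * W) *ᵥ x) := by
    intro x hx
    rw [← nb_B_mul]
    have hWx : W *ᵥ x ≠ 0 := by
      intro h
      apply hx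
      have : W' *ᵥ (W *ᵥ x) = x := by rw [Matrix.mulVec_mulVec, hW', Matrix.one_mulVec]
      rw [← this, h, Matrix.mulVec_zero]
    obtain ⟨i, hi⟩ := Function.ne_iff.mp hWx
    have hi' : 0 < (W *ᵥ x) i * (W *ᵥ x) i := by
      have := mul_self_pos.mpr hi
      simpa using this
    have n0 := mul_self_nonneg ((W *ᵥ x) 0)
    have n1 := mul_self_nonneg ((W *ᵥ x) 1)
    have n2 := mul_self_nonneg ((W *ᵥ x) 2)
    have n3 := mul_self_nonneg ((W *ᵥ x) 3)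
    unfold B
    fin_cases i <;> simp only [Fin.zero_eta, Fin.mk_one, Fin.reduceFinMk] at hi' <;> linarith
  set T := Wᵀ * nbG ℤ * W with hT
  have hTs : ∀ i j, T i j = T j i := fun i j => by
    conv_lhs => rw [← hTt]
    rfl
  set e : Fin 4 → ℤ := ![(q : ℤ) ^ 2, 1, q, q] with he
  set e' : Fin 4 → ℤ := ![1, (q : ℤ) ^ 2, q, q] with he'
  have hee : ∀ i, e i * e' i = (q : ℤ) ^ 2 := by
    intro i
    fin_cases i <;> simp [he, he'] <;> ring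
  have hne : ∀ i, e i ≠ 0 := by
    intro i
    fin_cases i <;> simp [he, hq.ne']
  have hne' : ∀ i, e' i ≠ 0 := by
    intro i
    fin_cases i <;> simp [he', hq.ne']
  have hdiv : ∀ i j, ∃ s, (q : ℤ) ^ 2 * T i j = e i * s * e j := by
    obtain ⟨t0, ht0⟩ := h0
    obtain ⟨t2, ht2⟩ := h2
    obtain ⟨t3, ht3⟩ := h3
    have ht2' : T 0 2 = q * t2 := by rw [hTs, ht2]
    have ht3' : T 0 3 = q * t3 := by rw [hTs, ht3]
    have e0 : e 0 = (q : ℤ) ^ 2 := rfl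
    have e1 : e 1 = 1 := rfl
    have e2 : e 2 = q := rfl
    have e3 : e 3 = q := rfl
    intro i j
    fin_cases i <;> fin_cases j <;>
      simp only [Fin.zero_eta, Fin.mk_one, Fin.reduceFinMk, e0, e1, e2, e3]
    · exact ⟨t0, by rw [ht0]; ring⟩
    · exact ⟨T 0 1, by ring⟩
    · exact ⟨t2, by rw [ht2']; ring⟩
    · exact ⟨t3, by rw [ht3']; ring⟩
    · exact ⟨T 1 0, by ring⟩
    · exact ⟨(q : ℤ) ^ 2 * T 1 1, by ring⟩
    · exact ⟨q * T 1 2, by ring⟩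
    · exact ⟨q * T 1 3, by ring⟩
    · exact ⟨t2, by rw [ht2]; ring⟩
    · exact ⟨q * T 2 1, by ring⟩
    · exact ⟨T 2 2, by ring⟩
    · exact ⟨T 2 3, by ring⟩
    · exact ⟨t3, by rw [ht3]; ring⟩
    · exact ⟨q * T 3 1, by ring⟩
    · exact ⟨T 3 2, by ring⟩
    · exact ⟨T 3 3, by ring⟩
  choose s hs using hdiv
  have hES : Matrix.diagonal e * Matrix.of s * Matrix.diagonal e = (q : ℤ) ^ 2 • T := by
    ext i j
    rw [Matrix.mul_diagonal, Matrix.diagonal_mul, Matrix.smul_apply, smul_eq_mul, hs]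
    rfl
  refine ⟨Matrix.of s, ?_, ?_, ?_, hES⟩
  · ext i j
    have k1 := hs i j
    have k2 := hs j i
    rw [hTs, k2] at k1
    have : e i * e j ≠ 0 := mul_ne_zero (hne i) (hne j)
    apply mul_left_cancel₀ this
    simp only [Matrix.transpose_apply, Matrix.of_apply]
    linear_combination k1
  · intro x hx
    have hx' : (fun i => e' i * x i) ≠ 0 := by
      obtain ⟨i, hi⟩ := Function.ne_iff.mp hx
      exact Function.ne_iff.mpr ⟨i, mul_ne_zero (hne' i) hi⟩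
    have h4 := hTpos _ hx'
    have h5 : (q : ℤ) ^ 2 * ((fun i => e' i * x i) ⬝ᵥ (T *ᵥ (fun i => e' i * x i))) =
        ((q : ℤ) ^ 2) ^ 2 * (x ⬝ᵥ (Matrix.of s *ᵥ x)) := by
      simp only [dotProduct, Matrix.mulVec, Finset.mul_sum]
      refine Finset.sum_congr rfl fun i _ => Finset.sum_congr rfl fun j _ => ?_
      have k1 := hs i j
      rw [Matrix.of_apply]
      calc (q : ℤ) ^ 2 * (e' i * x i * (T i j * (e' j * x j)))
          = ((q : ℤ) ^ 2 * T i j) * (e' i * x i * (e' j * x j)) := by ring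
        _ = (e i * e' i) * (e j * e' j) * (x i * (s i j * x j)) := by rw [k1]; ring
        _ = _ := by rw [hee, hee]; ring
    have h6 : 0 < ((q : ℤ) ^ 2) ^ 2 * (x ⬝ᵥ (Matrix.of s *ᵥ x)) := by
      rw [← h5]
      positivity
    exact (pos_iff_pos_of_mul_pos h6).mp (by positivity)
  · have h4 := congrArg Matrix.det hES
    rw [Matrix.det_mul, Matrix.det_mul, Matrix.det_smul, hTdet, Matrix.det_diagonal] at h4
    simp [Fin.prod_univ_four, he] at h4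
    have h5 : ((q : ℤ) ^ 8) ≠ 0 := pow_ne_zero _ hq0
    apply mul_left_cancel₀ h5
    linear_combination h4

/-- `exists_neighbor` from `gram_one`. -/
theorem exists_neighbor_of (H : ∀ (S : Matrix (Fin 4) (Fin 4) ℤ) (_ : Sᵀ = S)
    (_ : ∀ x : Fin 4 → ℤ, x ≠ 0 → 0 < x ⬝ᵥ (S *ᵥ x)) (_ : S.det = 2),
    ∃ f : Fin 4 → Fin 4 → ℤ, IsUnit (Matrix.of f).det ∧ ∀ i j, B (f i) (f j) = S i j)
    (q : ℕ) (hq : Odd q) (z : Fin 4 → ℤ)
    (hQ : Q (toR z : Fin 4 → ZMod q) = 0) (hz : ∃ y : Fin 4 → ZMod q, B y (toR z) = 1) :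
    ∃ A : Matrix (Fin 4) (Fin 4) ℚ, IsIso A ∧
      ∀ y : Fin 4 → ℤ, IsInt (A *ᵥ toR y) ↔ B (toR y : Fin 4 → ZMod q) (toR z) = 0 := by
  have hq0 : 0 < q := hq.pos
  have hqz : (q : ℤ) ≠ 0 := by exact_mod_cast hq0.ne'
  have hqq : (q : ℚ) ≠ 0 := by exact_mod_cast hq0.ne'
  obtain ⟨W, W', w1, w2, w3, w4, w5, w6⟩ := nb_basis q hq z hQ hz
  obtain ⟨S, s1, s2, s3, s4⟩ := nb_gram q hq0 W W' w1 w2 w3 w4 w5
  obtain ⟨f, f1, f2⟩ := H S s1 s2 s3
  set E : Matrix (Fin 4) (Fin 4) ℤ := Matrix.diagonal ![(q : ℤ) ^ 2, 1, q, q] with hE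
  set F : Matrix (Fin 4) (Fin 4) ℤ := (Matrix.of f)ᵀ with hF
  have hEt : Eᵀ = E := Matrix.diagonal_transpose _
  have hFS : Fᵀ * nbG ℤ * F = S := by
    ext i j
    rw [← f2, nb_B_eq, hF, Matrix.transpose_transpose, Matrix.mul_assoc]
    rfl
  set N : Matrix (Fin 4) (Fin 4) ℤ := F * E * W' with hN
  have hNG : Nᵀ * nbG ℤ * N = (q : ℤ) ^ 2 • nbG ℤ := by
    have e1 : Nᵀ * nbG ℤ * N = W'ᵀ * (E * (Fᵀ * nbG ℤ * F) * E) * W' := by
      rw [hN, Matrix.transpose_mul, Matrix.transpose_mul, hEt]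
      simp only [Matrix.mul_assoc]
    rw [e1, hFS, s4]
    have e2 : W'ᵀ * Wᵀ = 1 := by rw [← Matrix.transpose_mul, w1, Matrix.transpose_one]
    rw [Matrix.mul_smul, Matrix.smul_mul]
    congr 1
    calc W'ᵀ * (Wᵀ * nbG ℤ * W) * W' = (W'ᵀ * Wᵀ) * nbG ℤ * (W * W') := by
          simp only [Matrix.mul_assoc]
      _ = nbG ℤ := by rw [e2, w1, Matrix.one_mul, Matrix.mul_one]
  have hFu : ∃ F' : Matrix (Fin 4) (Fin 4) ℤ, F' * F = 1 := by
    have : IsUnit F.det := by rw [hF, Matrix.det_transpose]; exact f1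
    exact ⟨F⁻¹, Matrix.nonsing_inv_mul F this⟩
  obtain ⟨F', hF'⟩ := hFu
  set φ : ℤ →+* ℚ := Int.castRingHom ℚ with hφ
  refine ⟨(q : ℚ)⁻¹ • N.map φ, ?_, ?_⟩
  · intro x y
    rw [nb_B_mul]
    have e1 : (((q : ℚ)⁻¹ • N.map φ)ᵀ * nbG ℚ * ((q : ℚ)⁻¹ • N.map φ)) = nbG ℚ := by
      have e2 : nbG ℚ = (nbG ℤ).map φ := by
        rw [nbG, nbG, Matrix.diagonal_map (map_zero φ)]
        congr 1
        funext i
        fin_cases i <;> simp
      have e3 : (N.map φ)ᵀ * (nbG ℤ).map φ * N.map φ = (Nᵀ * nbG ℤ * N).map φ := by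
        clear_value N
        rw [Matrix.map_mul, Matrix.map_mul, Matrix.transpose_map]
      rw [Matrix.transpose_smul, Matrix.smul_mul, Matrix.smul_mul, Matrix.mul_smul, e2, e3, hNG]
      ext i j
      rw [Matrix.smul_apply, Matrix.smul_apply, Matrix.map_apply, Matrix.map_apply,
        Matrix.smul_apply, smul_eq_mul, smul_eq_mul, smul_eq_mul, map_mul, map_pow]
      simp only [hφ, eq_intCast, Int.cast_natCast]
      field_simp
    rw [e1, ← nb_B_eq]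
  · intro y
    rw [nb_castB, ZMod.intCast_zmod_eq_zero_iff_dvd, ← w6]
    have e1 : ((q : ℚ)⁻¹ • N.map φ) *ᵥ toR y = (q : ℚ)⁻¹ • toR (N *ᵥ y) := by
      rw [Matrix.smul_mulVec]
      congr 1
      funext i
      simp [Matrix.mulVec, dotProduct, toR, hφ]
    rw [e1]
    have e2 : E *ᵥ (W' *ᵥ y) = F' *ᵥ (N *ᵥ y) := by
      rw [hN, Matrix.mulVec_mulVec, Matrix.mulVec_mulVec, ← Matrix.mul_assoc, ← Matrix.mul_assoc,
        hF', Matrix.one_mul]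
    have e3 : N *ᵥ y = F *ᵥ (E *ᵥ (W' *ᵥ y)) := by
      rw [hN, Matrix.mulVec_mulVec, Matrix.mulVec_mulVec, Matrix.mul_assoc]
    constructor
    · rintro ⟨v, hv⟩
      have e4 : N *ᵥ y = (q : ℤ) • v := by
        funext i
        have := congrFun hv i
        simp only [Pi.smul_apply, toR, smul_eq_mul] at this ⊢
        have h5 : (((N *ᵥ y) i : ℤ) : ℚ) = (q : ℚ) * v i := by
          rw [← this]
          field_simp
        exact_mod_cast h5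
      rw [e4, Matrix.mulVec_smul] at e2
      have e5 := congrFun e2 1
      rw [hE, Matrix.mulVec_diagonal] at e5
      simp at e5
      rw [e5]
      exact dvd_mul_right _ _
    · rintro ⟨r, hr⟩
      have e4 : E *ᵥ (W' *ᵥ y) = (q : ℤ) • ![q * (W' *ᵥ y) 0, r, (W' *ᵥ y) 2, (W' *ᵥ y) 3] := by
        funext i
        rw [hE, Matrix.mulVec_diagonal]
        fin_cases i
        · simp; ring
        · simp [hr]
        · simp
        · simp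
      refine ⟨F *ᵥ ![q * (W' *ᵥ y) 0, r, (W' *ᵥ y) 2, (W' *ᵥ y) 3], ?_⟩
      rw [e3, e4, Matrix.mulVec_smul]
      funext i
      simp only [Pi.smul_apply, toR, smul_eq_mul]
      push_cast
      field_simp

/-- LX-A3 Neighbor.lean -/
theorem exists_neighbor (q : ℕ) (hq : Odd q) (z : Fin 4 → ℤ)
    (hQ : Q (toR z : Fin 4 → ZMod q) = 0) (hz : ∃ y : Fin 4 → ZMod q, B y (toR z) = 1) :
    ∃ A : Matrix (Fin 4) (Fin 4) ℚ, IsIso A ∧
      ∀ y : Fin 4 → ℤ, IsInt (A *ᵥ toR y) ↔ B (toR y : Fin 4 → ZMod q) (toR z) = 0 := by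
  exact exists_neighbor_of gram_one q hq z hQ hz

end Pool.Agent.LX
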