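import Pool.Agent.LX.Defs

set_option autoImplicit false

/-!
The structure of an isometry with odd denominator: the set of the integer vectors with integral
image is given by a code.
-/

open Matrix

namespace Pool.Agent.LX

namespace StructAux


section Field

variable {F : Type*} [Field F]

/-- The determinant of four vectors. -/
def dt (a b c d : Fin 4 → F) : F := (Matrix.of ![a, b, c, d]).det

lemma dt_sq (a b c d : Fin 4 → F) : dt a b c d ^ 2 * 2 =
    (Matrix.of ![![B a a, B a b, B a c, B a d], ![B b a, B b b, B b c, B b d],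
      ![B c a, B c b, B c c, B c d], ![B d a, B d b, B d c, B d d]]).det := by
  have h : Matrix.of ![![B a a, B a b, B a c, B a d], ![B b a, B b b, B b c, B b d],
      ![B c a, B c b, B c c, B c d], ![B d a, B d b, B d c, B d d]] =
      Matrix.of ![a, b, c, d] * Matrix.diagonal ![1, 1, 1, 2] * (Matrix.of ![a, b, c, d])ᵀ := by
    ext i j
    fin_cases i <;> fin_cases j <;>
      simp [Matrix.mul_apply, Fin.sum_univ_four, B, Matrix.vecMul_diagonal] <;> ring
  rw [h, Matrix.det_mul, Matrix.det_mul, Matrix.det_transpose, Matrix.det_diagonal]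
  unfold dt
  simp [Fin.prod_univ_four]
  ring

lemma dt_zero (h2 : (2 : F) ≠ 0) (u x y t : Fin 4 → F)
    (hux : B u x = 0) (huy : B u y = 0) (hxx : B x x = 0) (hyy : B y y = 0) (hxy : B x y = 0) :
    dt u x y t = 0 := by
  have hc : ∀ a b : Fin 4 → F, B a b = B b a := fun a b => by unfold B; ring
  have h := dt_sq u x y t
  rw [hc x u, hc y u, hc y x, hux, huy, hxx, hyy, hxy] at h
  have h0 : (Matrix.of ![![B u u, 0, 0, B u t], ![0, 0, 0, B x t],
      ![0, 0, 0, B y t], ![B t u, B t x, B t y, B t t]]).det = 0 := by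
    simp [Matrix.det_succ_row_zero, Fin.sum_univ_succ, Fin.succAbove]
  rw [h0] at h
  have h3 : dt u x y t ^ 2 = 0 := (mul_eq_zero.1 h).resolve_right h2
  exact pow_eq_zero_iff (two_ne_zero) |>.1 h3

lemma prop_of_isotropic (h2 : (2 : F) ≠ 0) (u x y : Fin 4 → F) (hu : B u u ≠ 0)
    (hux : B u x = 0) (huy : B u y = 0) (hxx : B x x = 0) (hyy : B y y = 0) (hxy : B x y = 0)
    (i j : Fin 4) : x i * y j = x j * y i := by
  have h := fun t => dt_zero h2 u x y t hux huy hxx hyy hxy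
  have h0 := h ![1, 0, 0, 0]
  have h1 := h ![0, 1, 0, 0]
  have h2' := h ![0, 0, 1, 0]
  have h3 := h ![0, 0, 0, 1]
  simp [dt, Matrix.det_succ_row_zero, Fin.sum_univ_succ, Fin.succAbove] at h0 h1 h2' h3
  unfold B at hux huy hu
  apply mul_left_cancel₀ hu
  fin_cases i <;> fin_cases j <;> simp only [Fin.zero_eta, Fin.mk_one, Fin.reduceFinMk]
  all_goals first
    | ring1
    | linear_combination u 2 * h3 - 2 * u 3 * h2' + (u 0 * y 1 - u 1 * y 0) * hux - (u 0 * x 1 - u 1 * x 0) * huy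
    | linear_combination -(u 2 * h3 - 2 * u 3 * h2' + (u 0 * y 1 - u 1 * y 0) * hux - (u 0 * x 1 - u 1 * x 0) * huy)
    | linear_combination -(u 1 * h3) + 2 * u 3 * h1 + (u 0 * y 2 - u 2 * y 0) * hux - (u 0 * x 2 - u 2 * x 0) * huy
    | linear_combination -(-(u 1 * h3) + 2 * u 3 * h1 + (u 0 * y 2 - u 2 * y 0) * hux - (u 0 * x 2 - u 2 * x 0) * huy)
    | linear_combination u 1 * h2' - u 2 * h1 + (u 0 * y 3 - u 3 * y 0) * hux - (u 0 * x 3 - u 3 * x 0) * huy
    | linear_combination -(u 1 * h2' - u 2 * h1 + (u 0 * y 3 - u 3 * y 0) * hux - (u 0 * x 3 - u 3 * x 0) * huy)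
    | linear_combination u 0 * h3 - 2 * u 3 * h0 + (u 1 * y 2 - u 2 * y 1) * hux - (u 1 * x 2 - u 2 * x 1) * huy
    | linear_combination -(u 0 * h3 - 2 * u 3 * h0 + (u 1 * y 2 - u 2 * y 1) * hux - (u 1 * x 2 - u 2 * x 1) * huy)
    | linear_combination -(u 0 * h2') + u 2 * h0 + (u 1 * y 3 - u 3 * y 1) * hux - (u 1 * x 3 - u 3 * x 1) * huy
    | linear_combination -(-(u 0 * h2') + u 2 * h0 + (u 1 * y 3 - u 3 * y 1) * hux - (u 1 * x 3 - u 3 * x 1) * huy)
    | linear_combination u 0 * h1 - u 1 * h0 + (u 2 * y 3 - u 3 * y 2) * hux - (u 2 * x 3 - u 3 * x 2) * huy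
    | linear_combination -(u 0 * h1 - u 1 * h0 + (u 2 * y 3 - u 3 * y 2) * hux - (u 2 * x 3 - u 3 * x 2) * huy)

end Field

lemma int_iff (q : ℚ) (t : ℤ) : (∃ n : ℤ, (t : ℚ) * q = n) ↔ (q.den : ℤ) ∣ t := by
  constructor
  · rintro ⟨n, hn⟩
    have h1 : (t : ℚ) * q.num = n * q.den := by
      rw [← hn, mul_assoc, Rat.mul_den_eq_num]
    have h2 : t * q.num = n * q.den := by exact_mod_cast h1
    have h3 : IsCoprime (q.den : ℤ) q.num := by
      rw [Int.isCoprime_iff_nat_coprime]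
      simpa using q.reduced.symm
    exact h3.dvd_of_dvd_mul_right ⟨n, by rw [h2]; ring⟩
  · rintro ⟨k, rfl⟩
    refine ⟨k * q.num, ?_⟩
    push_cast
    rw [mul_comm (q.den : ℚ), mul_assoc, mul_comm (q.den : ℚ) q, Rat.mul_den_eq_num]

lemma exists_den (A : Matrix (Fin 4) (Fin 4) ℚ) (T : ℕ) (hA : Den A T) :
    ∃ (d : ℕ) (N : Matrix (Fin 4) (Fin 4) ℤ), 0 < d ∧ d ∣ T ∧
      (∀ i j, (d : ℚ) * A i j = N i j) ∧ ∀ l : ℕ, l.Prime → l ∣ d → ∃ i j, ¬ (l : ℤ) ∣ N i j := by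
  classical
  let d := (Finset.univ : Finset (Fin 4 × Fin 4)).lcm (fun p => (A p.1 p.2).den)
  have hd0 : d ≠ 0 := by
    simp only [d, Ne, Finset.lcm_eq_zero_iff]
    rintro ⟨p, -, hp⟩
    exact (A p.1 p.2).den_nz hp
  have hdv : ∀ t : ℕ, d ∣ t ↔ ∀ i j, (A i j).den ∣ t := by
    intro t
    simp only [d, Finset.lcm_dvd_iff, Finset.mem_univ, true_imp_iff, Prod.forall]
  have hint : ∀ t : ℕ, d ∣ t ↔ ∀ i j, ∃ n : ℤ, (t : ℚ) * A i j = n := by
    intro t
    rw [hdv]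
    refine forall_congr' fun i => forall_congr' fun j => ?_
    have := int_iff (A i j) t
    rw [Int.natCast_dvd_natCast] at this
    rw [← this]
    simp
  have hN := (hint d).1 dvd_rfl
  choose N hN using hN
  refine ⟨d, N, Nat.pos_of_ne_zero hd0, ?_, hN, ?_⟩
  · rw [hint]
    intro i j
    obtain ⟨z, hz⟩ := hA (Pi.single j 1)
    refine ⟨z i, ?_⟩
    have h1 := congrFun hz i
    have h2 : (toR (Pi.single j (1 : ℤ)) : Fin 4 → ℚ) = Pi.single j 1 := by
      ext k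
      by_cases hk : k = j
      · subst hk; simp [toR]
      · simp [toR, hk]
    rw [h2] at h1
    simpa [toR] using h1
  · intro l hl hld
    by_contra hcon
    push Not at hcon
    obtain ⟨e, he⟩ := hld
    have hl0 : (l : ℚ) ≠ 0 := by exact_mod_cast hl.ne_zero
    have h1 : d ∣ e := by
      rw [hint]
      intro i j
      obtain ⟨n, hn⟩ := hcon i j
      refine ⟨n, ?_⟩
      have h2 := hN i j
      rw [he, hn] at h2
      push_cast at h2
      have h3 : (l : ℚ) * ((e : ℚ) * A i j) = l * n := by rw [← h2]; ring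
      exact mul_left_cancel₀ hl0 h3
    have he0 : 0 < e := by
      rcases Nat.eq_zero_or_pos e with h | h
      · rw [h, mul_zero] at he; exact absurd he hd0
      · exact h
    have h2 := Nat.le_of_dvd he0 h1
    have h3 : 2 * e ≤ l * e := Nat.mul_le_mul_right e hl.two_le
    omega

lemma exists_comb (d : ℕ) (hd : 0 < d) (N : Matrix (Fin 4) (Fin 4) ℤ)
    (h : ∀ l : ℕ, l.Prime → l ∣ d → ∃ i j, ¬ (l : ℤ) ∣ N i j) :
    ∃ c : Fin 4 → ℤ, ∀ l : ℕ, l.Prime → l ∣ d → ∃ j, ¬ (l : ℤ) ∣ (c ᵥ* N) j := by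
  classical
  choose! I J hIJ using h
  have hc : ∀ i : Fin 4, ∃ k : ℕ, ∀ p ∈ d.primeFactors, k ≡ (if i = I p then 1 else 0) [MOD p] := by
    intro i
    obtain ⟨k, hk⟩ := Nat.chineseRemainderOfFinset (fun p => if i = I p then 1 else 0) id
      d.primeFactors (fun p hp => (Nat.prime_of_mem_primeFactors hp).ne_zero)
      (fun p hp q hq hpq => (Nat.coprime_primes (Nat.prime_of_mem_primeFactors hp)
        (Nat.prime_of_mem_primeFactors hq)).2 hpq)
    exact ⟨k, hk⟩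
  choose c hc using hc
  refine ⟨fun i => c i, fun l hl hld => ⟨J l, ?_⟩⟩
  have hmem : l ∈ d.primeFactors := Nat.mem_primeFactors.2 ⟨hl, hld, hd.ne'⟩
  intro hcon
  apply hIJ l hl hld
  have h1 : ∀ i, (l : ℤ) ∣ (c i : ℤ) - (if i = I l then 1 else 0) := by
    intro i
    have := hc i l hmem
    have h2 := (Nat.modEq_iff_dvd.1 this.symm)
    push_cast at h2
    exact h2
  have h2 : ((fun i => (c i : ℤ)) ᵥ* N) (J l) = ∑ i, (c i : ℤ) * N i (J l) := by
    simp [Matrix.vecMul, dotProduct]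
  rw [h2] at hcon
  have h3 : N (I l) (J l) = (∑ i, (c i : ℤ) * N i (J l)) -
      ∑ i, ((c i : ℤ) - (if i = I l then 1 else 0)) * N i (J l) := by
    rw [← Finset.sum_sub_distrib]
    have : ∀ i, (c i : ℤ) * N i (J l) - ((c i : ℤ) - (if i = I l then 1 else 0)) * N i (J l) =
        if i = I l then N i (J l) else 0 := by
      intro i
      split_ifs <;> ring
    simp only [this]
    simp
  rw [h3]
  exact dvd_sub hcon (Finset.dvd_sum fun i _ => (h1 i).mul_right _)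


lemma toR_inj {x y : Fin 4 → ℤ} (h : (toR x : Fin 4 → ℚ) = toR y) : x = y := by
  ext i
  have := congrFun h i
  simpa [toR] using this

lemma B_toR {R : Type*} [CommRing R] (x y : Fin 4 → ℤ) :
    B (toR x : Fin 4 → R) (toR y) = ((B x y : ℤ) : R) := by
  simp [B, toR]

lemma toR_mulVec (A : Matrix (Fin 4) (Fin 4) ℚ) (d : ℕ) (N : Matrix (Fin 4) (Fin 4) ℤ)
    (hN : ∀ i j, (d : ℚ) * A i j = N i j) (y : Fin 4 → ℤ) :
    (toR (N *ᵥ y) : Fin 4 → ℚ) = (d : ℚ) • (A *ᵥ toR y) := by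
  ext i
  simp only [toR, Matrix.mulVec, dotProduct, Fin.sum_univ_four, Pi.smul_apply, smul_eq_mul]
  push_cast
  simp only [← hN]
  ring

lemma B_mulVec (A : Matrix (Fin 4) (Fin 4) ℚ) (hA : IsIso A) (d : ℕ)
    (N : Matrix (Fin 4) (Fin 4) ℤ) (hN : ∀ i j, (d : ℚ) * A i j = N i j) (x y : Fin 4 → ℤ) :
    B (N *ᵥ x) (N *ᵥ y) = d ^ 2 * B x y := by
  have h : ((B (N *ᵥ x) (N *ᵥ y) : ℤ) : ℚ) = d ^ 2 * ((B x y : ℤ) : ℚ) := by
    rw [← B_toR, ← B_toR, toR_mulVec A d N hN, toR_mulVec A d N hN, ← hA (toR x) (toR y)]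
    unfold B
    simp only [Pi.smul_apply, smul_eq_mul]
    ring
  exact_mod_cast h

lemma iso_matrix (A : Matrix (Fin 4) (Fin 4) ℚ) (hA : IsIso A) :
    A * Matrix.diagonal ![2, 2, 2, 1] * Aᵀ = Matrix.diagonal ![2, 2, 2, 1] := by
  have hG : Aᵀ * Matrix.diagonal ![1, 1, 1, 2] * A = Matrix.diagonal ![1, 1, 1, 2] := by
    ext i j
    have h := hA (Pi.single i 1) (Pi.single j 1)
    simp only [B, Matrix.mulVec_single_one, Matrix.col_apply] at h
    rw [Matrix.mul_apply, Fin.sum_univ_four]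
    simp only [Matrix.mul_diagonal, Matrix.transpose_apply]
    simp only [Matrix.cons_val_zero, Matrix.cons_val_one, Matrix.cons_val]
    have h2 : A 0 i * 1 * A 0 j + A 1 i * 1 * A 1 j + A 2 i * 1 * A 2 j + A 3 i * 2 * A 3 j =
        A 0 i * A 0 j + A 1 i * A 1 j + A 2 i * A 2 j + 2 * (A 3 i * A 3 j) := by ring
    rw [h2, h]
    fin_cases i <;> fin_cases j <;> simp
  have hHG : (Matrix.diagonal ![2, 2, 2, 1] : Matrix (Fin 4) (Fin 4) ℚ) *
      Matrix.diagonal ![1, 1, 1, 2] = (2 : ℚ) • 1 := by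
    rw [Matrix.diagonal_mul_diagonal]
    ext i j
    fin_cases i <;> fin_cases j <;> simp
  have hGH : (Matrix.diagonal ![1, 1, 1, 2] : Matrix (Fin 4) (Fin 4) ℚ) *
      Matrix.diagonal ![2, 2, 2, 1] = (2 : ℚ) • 1 := by
    rw [Matrix.diagonal_mul_diagonal]
    ext i j
    fin_cases i <;> fin_cases j <;> simp
  set G : Matrix (Fin 4) (Fin 4) ℚ := Matrix.diagonal ![1, 1, 1, 2]
  set H : Matrix (Fin 4) (Fin 4) ℚ := Matrix.diagonal ![2, 2, 2, 1]
  have h1 : ((1 / 2 : ℚ) • (H * Aᵀ * G)) * A = 1 := by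
    rw [Matrix.smul_mul, Matrix.mul_assoc, Matrix.mul_assoc, ← Matrix.mul_assoc Aᵀ, hG, hHG,
      smul_smul]
    norm_num
  have h2 : A * ((1 / 2 : ℚ) • (H * Aᵀ * G)) = 1 := mul_eq_one_comm.1 h1
  have h3 : A * (H * Aᵀ * G) = (2 : ℚ) • 1 := by
    have := congrArg (fun M => (2 : ℚ) • M) h2
    simp only [Matrix.mul_smul, smul_smul] at this
    norm_num at this
    rw [this]
  have h4 : A * H * Aᵀ * (G * H) = (2 : ℚ) • H := by
    rw [← Matrix.mul_assoc]
    have : A * H * Aᵀ * G = (2 : ℚ) • 1 := by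
      rw [← h3]; simp only [Matrix.mul_assoc]
    rw [this, Matrix.smul_mul, Matrix.one_mul]
  rw [hGH, Matrix.mul_smul, Matrix.mul_one] at h4
  exact smul_right_injective _ (two_ne_zero) h4


lemma norm_comb (A : Matrix (Fin 4) (Fin 4) ℚ) (hA : IsIso A) (d : ℕ)
    (N : Matrix (Fin 4) (Fin 4) ℤ) (hN : ∀ i j, (d : ℚ) * A i j = N i j) (c : Fin 4 → ℤ) :
    2 * ((c ᵥ* N) 0 ^ 2 + (c ᵥ* N) 1 ^ 2 + (c ᵥ* N) 2 ^ 2) + (c ᵥ* N) 3 ^ 2 =
      d ^ 2 * (2 * (c 0 ^ 2 + c 1 ^ 2 + c 2 ^ 2) + c 3 ^ 2) := by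
  have h := iso_matrix A hA
  have h1 : ∀ i j, 2 * (A i 0 * A j 0 + A i 1 * A j 1 + A i 2 * A j 2) + A i 3 * A j 3 =
      (Matrix.diagonal ![2, 2, 2, 1] : Matrix (Fin 4) (Fin 4) ℚ) i j := by
    intro i j
    rw [← h, Matrix.mul_apply, Fin.sum_univ_four]
    simp only [Matrix.mul_diagonal, Matrix.transpose_apply]
    simp only [Matrix.cons_val_zero, Matrix.cons_val_one, Matrix.cons_val]
    ring
  have h2 : ∀ i j, 2 * (N i 0 * N j 0 + N i 1 * N j 1 + N i 2 * N j 2) + N i 3 * N j 3 =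
      (d : ℤ) ^ 2 * (Matrix.diagonal ![2, 2, 2, 1] : Matrix (Fin 4) (Fin 4) ℤ) i j := by
    intro i j
    have h3 : ((2 * (N i 0 * N j 0 + N i 1 * N j 1 + N i 2 * N j 2) + N i 3 * N j 3 : ℤ) : ℚ) =
        (d : ℚ) ^ 2 * (Matrix.diagonal ![2, 2, 2, 1] : Matrix (Fin 4) (Fin 4) ℚ) i j := by
      rw [← h1]
      push_cast
      simp only [← hN]
      ring
    have h4 : (Matrix.diagonal ![2, 2, 2, 1] : Matrix (Fin 4) (Fin 4) ℚ) i j =
        (((Matrix.diagonal ![2, 2, 2, 1] : Matrix (Fin 4) (Fin 4) ℤ) i j : ℤ) : ℚ) := by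
      fin_cases i <;> fin_cases j <;> simp [Matrix.diagonal]
    rw [h4] at h3
    exact_mod_cast h3
  have e : ∀ k, (c ᵥ* N) k = c 0 * N 0 k + c 1 * N 1 k + c 2 * N 2 k + c 3 * N 3 k := by
    intro k
    simp [Matrix.vecMul, dotProduct, Fin.sum_univ_four]
  simp only [e]
  have g00 := h2 0 0
  have g01 := h2 0 1
  have g02 := h2 0 2
  have g03 := h2 0 3
  have g11 := h2 1 1
  have g12 := h2 1 2
  have g13 := h2 1 3
  have g22 := h2 2 2
  have g23 := h2 2 3
  have g33 := h2 3 3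
  simp [Matrix.diagonal] at g00 g01 g02 g03 g11 g12 g13 g22 g23 g33
  linear_combination c 0 ^ 2 * g00 + c 1 ^ 2 * g11 + c 2 ^ 2 * g22 + c 3 ^ 2 * g33 +
    2 * c 0 * c 1 * g01 + 2 * c 0 * c 2 * g02 + 2 * c 0 * c 3 * g03 + 2 * c 1 * c 2 * g12 +
    2 * c 1 * c 3 * g13 + 2 * c 2 * c 3 * g23

lemma exists_bezout (d : ℕ) (r : Fin 4 → ℤ)
    (h : ∀ l : ℕ, l.Prime → l ∣ d → ∃ j, ¬ (l : ℤ) ∣ r j) :
    ∃ y : Fin 4 → ℤ, (d : ℤ) ∣ r ⬝ᵥ y - 1 := by
  let I : Ideal ℤ := Ideal.span {(d : ℤ)} ⊔ Ideal.span (Set.range r)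
  have hI : I = ⊤ := by
    let g := Submodule.IsPrincipal.generator I
    have hg : Ideal.span {g} = I := Ideal.span_singleton_generator I
    have hgd : ∀ x ∈ I, g ∣ x := fun x hx => by
      rw [← hg, Ideal.mem_span_singleton] at hx
      exact hx
    have h1 : g.natAbs = 1 := by
      by_contra hne
      obtain ⟨l, hl, hlg⟩ := Nat.exists_prime_and_dvd hne
      have hlg' : (l : ℤ) ∣ g := Int.natCast_dvd.2 hlg
      have h2 : (l : ℤ) ∣ (d : ℤ) := hlg'.trans (hgd _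
        (Submodule.mem_sup_left (Ideal.mem_span_singleton_self _)))
      obtain ⟨j, hj⟩ := h l hl (Int.natCast_dvd_natCast.1 h2)
      exact hj (hlg'.trans (hgd _ (Submodule.mem_sup_right (Ideal.subset_span ⟨j, rfl⟩))))
    rw [← hg, Ideal.span_singleton_eq_top]
    exact Int.isUnit_iff_natAbs_eq.2 h1
  have h1 : (1 : ℤ) ∈ I := by rw [hI]; trivial
  obtain ⟨a, ha, b, hb, hab⟩ := Submodule.mem_sup.1 h1
  obtain ⟨y, hy⟩ := Ideal.mem_span_range_iff_exists_fun.1 hb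
  refine ⟨y, ?_⟩
  have h2 : r ⬝ᵥ y = b := by
    rw [← hy]
    simp [dotProduct, mul_comm]
  rw [h2]
  have h3 := Ideal.mem_span_singleton.1 ha
  have h4 : b - 1 = -a := by linarith
  rw [h4]
  exact (dvd_neg).2 h3

end StructAux

open StructAux

/-- Let `A` be an isometry with denominator dividing `P ^ j`, `P` odd, which maps the integer
vector `u`, `Q u` prime to `P`, to an integer vector. Then there is a divisor `d` of `P ^ j` and a
code `z` of `u` modulo `d` such that `A y` is integral if and only if `B y z = 0` modulo `d`. -/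
theorem iso_structure (A : Matrix (Fin 4) (Fin 4) ℚ) (hA : IsIso A) (P j : ℕ) (hP : Odd P)
    (hden : Den A (P ^ j)) (u u' : Fin 4 → ℤ) (hu : A *ᵥ toR u = toR u')
    (hc : IsCoprime (Q u) (P : ℤ)) :
    ∃ (d : ℕ) (z : Fin 4 → ℤ), d ∣ P ^ j ∧ CodeZ d u (toR z) ∧
      ∀ y : Fin 4 → ℤ, IsInt (A *ᵥ toR y) ↔ B (toR y : Fin 4 → ZMod d) (toR z) = 0 := by
  classical
  obtain ⟨d, N, hd, hdP, hN, hgcd⟩ := exists_den A (P ^ j) hden
  obtain ⟨c, hcr⟩ := exists_comb d hd N hgcd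
  have hodd : Odd d := Odd.of_dvd_nat hP.pow hdP
  have hd0 : (d : ℤ) ≠ 0 := by exact_mod_cast hd.ne'
  have hdQ : (d : ℚ) ≠ 0 := by exact_mod_cast hd.ne'
  -- the image of `u`
  have hNu : N *ᵥ u = (d : ℤ) • u' := by
    apply toR_inj
    rw [toR_mulVec A d N hN, hu]
    ext i
    simp [toR]
  have hBu : ∀ y, B (N *ᵥ y) u' = d * B y u := by
    intro y
    have h := B_mulVec A hA d N hN y u
    rw [hNu] at h
    have h2 : B (N *ᵥ y) ((d : ℤ) • u') = d * B (N *ᵥ y) u' := by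
      unfold B
      simp only [Pi.smul_apply, smul_eq_mul]
      ring
    rw [h2] at h
    apply mul_left_cancel₀ hd0
    rw [h]
    ring
  have hQu : B u' u' = B u u := by
    have h := hBu u
    rw [hNu] at h
    have h2 : B ((d : ℤ) • u') u' = d * B u' u' := by
      unfold B
      simp only [Pi.smul_apply, smul_eq_mul]
      ring
    rw [h2] at h
    exact mul_left_cancel₀ hd0 h
  have hrdot : ∀ y : Fin 4 → ℤ, (c ᵥ* N) ⬝ᵥ y = c ⬝ᵥ (N *ᵥ y) := fun y =>
    (Matrix.dotProduct_mulVec c N y).symm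
  -- the main claim
  have key : ∀ y : Fin 4 → ℤ, (d : ℤ) ∣ (c ᵥ* N) ⬝ᵥ y → ∀ i, (d : ℤ) ∣ (N *ᵥ y) i := by
    intro y hy
    rw [hrdot] at hy
    let g : ℕ := Nat.gcd d ((Finset.univ : Finset (Fin 4)).gcd fun i => ((N *ᵥ y) i).natAbs)
    have hgd : g ∣ d := Nat.gcd_dvd_left _ _
    have hgx : ∀ i, (g : ℤ) ∣ (N *ᵥ y) i := fun i => by
      rw [Int.natCast_dvd]
      exact (Nat.gcd_dvd_right _ _).trans (Finset.gcd_dvd (Finset.mem_univ i))
    have hg0 : 0 < g := Nat.pos_of_dvd_of_pos hgd hd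
    obtain ⟨d', hd'⟩ := hgd
    choose x' hx' using hgx
    by_cases h1 : d' = 1
    · rw [h1, mul_one] at hd'
      intro i
      rw [hd']
      exact ⟨x' i, hx' i⟩
    exfalso
    obtain ⟨l, hl, hld'⟩ := Nat.exists_prime_and_dvd h1
    have hld : l ∣ d := by rw [hd']; exact hld'.mul_left g
    have hxl : ∃ i, ¬ (l : ℤ) ∣ x' i := by
      by_contra hcon
      push Not at hcon
      have h2 : g * l ∣ g := by
        apply Nat.dvd_gcd
        · rw [hd']; exact Nat.mul_dvd_mul_left g hld'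
        · apply Finset.dvd_gcd
          intro i _
          rw [← Int.natCast_dvd, hx' i]
          push_cast
          exact mul_dvd_mul_left _ (hcon i)
      have h3 := Nat.le_of_dvd hg0 h2
      have h4 : g * 2 ≤ g * l := Nat.mul_le_mul_left g hl.two_le
      omega
    obtain ⟨i₀, hi₀⟩ := hxl
    have hgz : (g : ℤ) ≠ 0 := by exact_mod_cast hg0.ne'
    have hdz : (d : ℤ) = g * d' := by rw [hd']; push_cast; ring
    have hld'z : (l : ℤ) ∣ (d' : ℤ) := Int.natCast_dvd_natCast.2 hld'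
    have hx : N *ᵥ y = (g : ℤ) • x' := by
      ext i
      rw [hx' i]
      simp
    -- orthogonality relations
    have hsm : ∀ a : Fin 4 → ℤ, B ((g : ℤ) • x') a = g * B x' a := by
      intro a
      unfold B
      simp only [Pi.smul_apply, smul_eq_mul]
      ring
    have hsm2 : ∀ a : Fin 4 → ℤ, B a ((g : ℤ) • x') = g * B a x' := by
      intro a
      unfold B
      simp only [Pi.smul_apply, smul_eq_mul]
      ring
    have o1 : ∀ y₀, (l : ℤ) ∣ B x' (N *ᵥ y₀) := by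
      intro y₀
      have h := B_mulVec A hA d N hN y y₀
      rw [hx, hsm, hdz] at h
      have h2 : B x' (N *ᵥ y₀) = (d' : ℤ) * (g * d' * B y y₀) := by
        apply mul_left_cancel₀ hgz
        rw [h]
        ring
      rw [h2]
      exact hld'z.mul_right _
    have o2 : (l : ℤ) ∣ B x' x' := by
      have h := B_mulVec A hA d N hN y y
      rw [hx, hsm, hsm2, hdz] at h
      have h2 : B x' x' = (d' : ℤ) * (d' * B y y) := by
        apply mul_left_cancel₀ hgz
        apply mul_left_cancel₀ hgz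
        rw [h]
        ring
      rw [h2]
      exact hld'z.mul_right _
    have hcomm : ∀ a b : Fin 4 → ℤ, B a b = B b a := fun a b => by unfold B; ring
    have o3 : (l : ℤ) ∣ B u' x' := by
      have h := hBu y
      rw [hx, hsm, hdz] at h
      have h2 : B u' x' = (d' : ℤ) * B y u := by
        apply mul_left_cancel₀ hgz
        rw [hcomm u' x', h]
        ring
      rw [h2]
      exact hld'z.mul_right _
    have hldz : (l : ℤ) ∣ (d : ℤ) := Int.natCast_dvd_natCast.2 hld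
    have o4 : ∀ y₀, (l : ℤ) ∣ B u' (N *ᵥ y₀) := by
      intro y₀
      rw [hcomm, hBu]
      exact hldz.mul_right _
    have o5 : ∀ y₀, (l : ℤ) ∣ B (N *ᵥ y₀) (N *ᵥ y₀) := by
      intro y₀
      rw [B_mulVec A hA d N hN, pow_two, mul_assoc]
      exact hldz.mul_right _
    have : Fact l.Prime := ⟨hl⟩
    have hlP : l ∣ P := hl.dvd_of_dvd_pow (hld.trans hdP)
    have o6 : ¬ (l : ℤ) ∣ B u' u' := by
      intro hcon
      rw [hQu] at hcon
      have h2 : IsCoprime (l : ℤ) (l : ℤ) :=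
        (hc.of_isCoprime_of_dvd_left hcon).of_isCoprime_of_dvd_right
          (Int.natCast_dvd_natCast.2 hlP)
      have h3 : IsUnit (l : ℤ) := isCoprime_self.1 h2
      rw [Int.isUnit_iff_natAbs_eq] at h3
      exact hl.one_lt.ne' (by simpa using h3)
    have o7 : (2 : ZMod l) ≠ 0 := by
      intro hcon
      have h2 : ((2 : ℕ) : ZMod l) = 0 := by exact_mod_cast hcon
      rw [ZMod.natCast_eq_zero_iff] at h2
      have h3 : l = 2 := (Nat.prime_dvd_prime_iff_eq hl Nat.prime_two).1 h2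
      rw [h3] at hlP
      exact (Nat.not_even_iff_odd.2 hP) (even_iff_two_dvd.2 hlP)
    have cst : ∀ a : ℤ, (l : ℤ) ∣ a ↔ (a : ZMod l) = 0 := fun a =>
      (ZMod.intCast_zmod_eq_zero_iff_dvd a l).symm
    have hpar : ∀ y₀ i, (l : ℤ) ∣ x' i₀ * (N *ᵥ y₀) i - x' i * (N *ᵥ y₀) i₀ := by
      intro y₀ i
      have h := prop_of_isotropic o7 (toR u' : Fin 4 → ZMod l) (toR x') (toR (N *ᵥ y₀))
        (by rw [B_toR]; rwa [cst] at o6) (by rw [B_toR]; rwa [cst] at o3)
        (by rw [B_toR]; exact (cst _).1 (o4 y₀)) (by rw [B_toR]; rwa [cst] at o2)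
        (by rw [B_toR]; exact (cst _).1 (o5 y₀)) (by rw [B_toR]; exact (cst _).1 (o1 y₀)) i₀ i
      rw [cst]
      push_cast
      rw [sub_eq_zero]
      exact h
    have hcx : (l : ℤ) ∣ c ⬝ᵥ x' := by
      rw [hx, dotProduct_smul, smul_eq_mul, hdz] at hy
      exact hld'z.trans ((mul_dvd_mul_iff_left hgz).1 hy)
    obtain ⟨j₀, hj₀⟩ := hcr l hl hld
    apply hj₀
    have h5 : (c ᵥ* N) j₀ = c ⬝ᵥ (N *ᵥ (Pi.single j₀ 1)) := by
      rw [← hrdot]
      simp
    rw [h5]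
    have h6 : (l : ℤ) ∣ x' i₀ * (c ⬝ᵥ (N *ᵥ (Pi.single j₀ 1))) := by
      have h7 : x' i₀ * (c ⬝ᵥ (N *ᵥ (Pi.single j₀ 1))) =
          (c ⬝ᵥ x') * (N *ᵥ (Pi.single j₀ 1)) i₀ + ∑ i, c i *
            (x' i₀ * (N *ᵥ (Pi.single j₀ 1)) i - x' i * (N *ᵥ (Pi.single j₀ 1)) i₀) := by
        simp only [dotProduct, Fin.sum_univ_four]
        ring
      rw [h7]
      exact dvd_add (hcx.mul_right _) (Finset.dvd_sum fun i _ => (hpar _ i).mul_left _)
    exact (Int.Prime.dvd_mul' hl h6).resolve_left hi₀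
  -- the code
  obtain ⟨h, hh⟩ : ∃ h : ℕ, 2 * h = d + 1 := by
    obtain ⟨k, hk⟩ := hodd
    exact ⟨k + 1, by omega⟩
  have hhz : 2 * (h : ℤ) = d + 1 := by exact_mod_cast hh
  set r : Fin 4 → ℤ := c ᵥ* N with hr
  let z : Fin 4 → ℤ := ![r 0, r 1, r 2, r 3 * h]
  have hBz : ∀ y : Fin 4 → ℤ, B y z = r ⬝ᵥ y + d * (y 3 * r 3) := by
    intro y
    simp only [B, z, dotProduct, Fin.sum_univ_four, Matrix.cons_val_zero, Matrix.cons_val_one,
      Matrix.cons_val]
    linear_combination (y 3 * r 3) * hhz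
  have hzero : ∀ y : Fin 4 → ℤ, B (toR y : Fin 4 → ZMod d) (toR z) = 0 ↔ (d : ℤ) ∣ r ⬝ᵥ y := by
    intro y
    rw [B_toR, ZMod.intCast_zmod_eq_zero_iff_dvd, hBz]
    exact (Int.dvd_add_left (dvd_mul_right _ _))
  refine ⟨d, z, hdP, ⟨?_, ?_, ?_⟩, ?_⟩
  · have h1 : (Q (toR z) : ZMod d) = ((B z z : ℤ) : ZMod d) := B_toR z z
    rw [h1, ZMod.intCast_zmod_eq_zero_iff_dvd]
    have h2 : (d : ℤ) ∣ 2 * B z z := by
      have h3 := norm_comb A hA d N hN c
      rw [← hr] at h3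
      have h4 : 2 * B z z = d * (d * (2 * (c 0 ^ 2 + c 1 ^ 2 + c 2 ^ 2) + c 3 ^ 2) +
          (d + 2) * r 3 ^ 2) := by
        simp only [B, z, Matrix.cons_val_zero, Matrix.cons_val_one, Matrix.cons_val]
        linear_combination h3 + (2 * h + d + 1 : ℤ) * r 3 ^ 2 * hhz
      rw [h4]
      exact dvd_mul_right _ _
    have h3 : IsCoprime (d : ℤ) 2 := by
      rw [Int.isCoprime_iff_gcd_eq_one]
      have : Nat.Coprime d 2 := (Nat.coprime_two_right).2 hodd
      exact_mod_cast this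
    exact h3.dvd_of_dvd_mul_left h2
  · rw [hzero, hrdot, hNu, dotProduct_smul, smul_eq_mul]
    exact dvd_mul_right _ _
  · obtain ⟨y, hy⟩ := exists_bezout d r hcr
    refine ⟨toR y, ?_⟩
    rw [B_toR, hBz]
    have h2 : ((r ⬝ᵥ y - 1 : ℤ) : ZMod d) = 0 := (ZMod.intCast_zmod_eq_zero_iff_dvd _ _).2 hy
    push_cast at h2 ⊢
    simp only [ZMod.natCast_self, zero_mul, add_zero]
    exact sub_eq_zero.1 h2
  · intro y
    rw [hzero]
    constructor
    · rintro ⟨t, ht⟩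
      have h1 : N *ᵥ y = (d : ℤ) • t := by
        apply toR_inj
        rw [toR_mulVec A d N hN, ht]
        ext i
        simp [toR]
      rw [hrdot, h1, dotProduct_smul, smul_eq_mul]
      exact dvd_mul_right _ _
    · intro hy
      have h1 := key y hy
      choose t ht using h1
      refine ⟨t, ?_⟩
      have h2 := toR_mulVec A d N hN y
      ext i
      have h3 := congrFun h2 i
      simp only [toR, ht i, Pi.smul_apply, smul_eq_mul] at h3
      push_cast at h3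
      exact (mul_left_cancel₀ hdQ h3).symm

end Pool.Agent.LX
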