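import Pool.Agent.LX.Defs

set_option autoImplicit false

open Matrix

namespace Pool.Agent.LX

lemma unique_castB {R : Type*} [CommRing R] (x y : Fin 4 → ℤ) :
    B (toR x : Fin 4 → R) (toR y) = ((B x y : ℤ) : R) := by
  simp [B, toR]

lemma unique_lift (d : ℕ) (y : Fin 4 → ZMod d) : ∃ y' : Fin 4 → ℤ, toR y' = y := by
  choose f hf using fun i => ZMod.intCast_surjective (y i)
  exact ⟨f, funext fun i => hf i⟩

/-- LX-B3 Unique.lean -/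
theorem code_unique (d₁ d₂ : ℕ) (hd : Odd d₂) (z₁ z₂ : Fin 4 → ℤ)
    (h₁ : ∃ y : Fin 4 → ZMod d₁, B y (toR z₁) = 1) (h₂ : ∃ y : Fin 4 → ZMod d₂, B y (toR z₂) = 1)
    (h : ∀ y : Fin 4 → ℤ, B (toR y : Fin 4 → ZMod d₁) (toR z₁) = 0 →
      B (toR y : Fin 4 → ZMod d₂) (toR z₂) = 0) :
    d₂ ∣ d₁ ∧ ∃ c : ℤ, IsCoprime c (d₂ : ℤ) ∧
      ∀ i, ((z₂ i : ℤ) : ZMod d₂) = (c : ZMod d₂) * ((z₁ i : ℤ) : ZMod d₂) := by
  obtain ⟨y₁', hy₁'⟩ := h₁
  obtain ⟨y₂', hy₂'⟩ := h₂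
  obtain ⟨y₁, rfl⟩ := unique_lift d₁ y₁'
  obtain ⟨y₂, rfl⟩ := unique_lift d₂ y₂'
  have h' : ∀ y : Fin 4 → ℤ, (d₁ : ℤ) ∣ B y z₁ → (d₂ : ℤ) ∣ B y z₂ := by
    intro y hy
    have := h y (by rw [unique_castB, ZMod.intCast_zmod_eq_zero_iff_dvd]; exact hy)
    rwa [unique_castB, ZMod.intCast_zmod_eq_zero_iff_dvd] at this
  have e₁ : (d₁ : ℤ) ∣ B y₁ z₁ - 1 := by
    rw [← ZMod.intCast_zmod_eq_zero_iff_dvd]
    push_cast
    rw [← unique_castB, hy₁', sub_self]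
  have e₂ : (d₂ : ℤ) ∣ B y₂ z₂ - 1 := by
    rw [← ZMod.intCast_zmod_eq_zero_iff_dvd]
    push_cast
    rw [← unique_castB, hy₂', sub_self]
  have key : ∀ y : Fin 4 → ℤ, (d₂ : ℤ) ∣ B y z₂ - B y z₁ * B y₁ z₂ := by
    intro y
    have := h' (fun i => y i - B y z₁ * y₁ i) (by
      have e : B (fun i => y i - B y z₁ * y₁ i) z₁ = -(B y z₁ * (B y₁ z₁ - 1)) := by
        simp only [B]; ring
      rw [e]
      exact (dvd_neg).2 (Dvd.dvd.mul_left e₁ _))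
    have e : B (fun i => y i - B y z₁ * y₁ i) z₂ = B y z₂ - B y z₁ * B y₁ z₂ := by
      simp only [B]; ring
    rwa [e] at this
  have hcop : IsCoprime (B y₁ z₂) (d₂ : ℤ) := by
    obtain ⟨k, hk⟩ := key y₂
    obtain ⟨l, hl⟩ := e₂
    exact ⟨B y₂ z₁, k - l, by linear_combination hl - hk⟩
  refine ⟨?_, B y₁ z₂, hcop, ?_⟩
  · have h1 : (d₂ : ℤ) ∣ B (fun i => (d₁ : ℤ) * y₁ i) z₂ := by
      apply h'
      refine ⟨B y₁ z₁, ?_⟩
      simp only [B]; ring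
    have e : B (fun i => (d₁ : ℤ) * y₁ i) z₂ = B y₁ z₂ * d₁ := by
      simp only [B]; ring
    rw [e] at h1
    exact_mod_cast hcop.symm.dvd_of_dvd_mul_left h1
  · intro i
    have h2 : IsCoprime (2 : ℤ) (d₂ : ℤ) := by
      obtain ⟨k, hk⟩ := hd
      exact ⟨-(k : ℤ), 1, by rw [hk]; push_cast; ring⟩
    have main : (d₂ : ℤ) ∣ z₂ i - B y₁ z₂ * z₁ i := by
      fin_cases i
      · have := key ![1, 0, 0, 0]
        have e : B ![1, 0, 0, 0] z₂ - B ![1, 0, 0, 0] z₁ * B y₁ z₂ = z₂ 0 - B y₁ z₂ * z₁ 0 := by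
          simp [B]; ring
        rwa [e] at this
      · have := key ![0, 1, 0, 0]
        have e : B ![0, 1, 0, 0] z₂ - B ![0, 1, 0, 0] z₁ * B y₁ z₂ = z₂ 1 - B y₁ z₂ * z₁ 1 := by
          simp [B]; ring
        rwa [e] at this
      · have := key ![0, 0, 1, 0]
        have e : B ![0, 0, 1, 0] z₂ - B ![0, 0, 1, 0] z₁ * B y₁ z₂ = z₂ 2 - B y₁ z₂ * z₁ 2 := by
          simp [B]; ring
        rwa [e] at this
      · have := key ![0, 0, 0, 1]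
        have e : B ![0, 0, 0, 1] z₂ - B ![0, 0, 0, 1] z₁ * B y₁ z₂ =
            2 * (z₂ 3 - B y₁ z₂ * z₁ 3) := by
          simp [B]; ring
        rw [e] at this
        exact h2.symm.dvd_of_dvd_mul_left this
    have := (ZMod.intCast_zmod_eq_zero_iff_dvd _ _).2 main
    push_cast at this
    linear_combination this

end Pool.Agent.LX
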