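import Pool.Agent.LX.Defs
import Pool.Agent.LX.Neighbor
import Pool.Agent.LX.Iso
import Pool.Agent.LX.Structure
import Pool.Agent.LX.Unique
import Pool.Agent.LX.Lift

set_option autoImplicit false

open Matrix

namespace Pool.Agent.LX


private theorem ext_toR_smul {R : Type*} [CommRing R] (t : ℤ) (y : Fin 4 → ℤ) :
    (toR (fun i => t * y i) : Fin 4 → R) = (t : R) • toR y := by
  funext i; simp [toR]

private theorem ext_B_smul_left {R : Type*} [CommRing R] (t : R) (x y : Fin 4 → R) :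
    B (t • x) y = t * B x y := by
  simp only [B, Pi.smul_apply, smul_eq_mul]; ring

private theorem ext_B_smul_right {R : Type*} [CommRing R] (t : R) (x y : Fin 4 → R) :
    B x (t • y) = t * B x y := by
  simp only [B, Pi.smul_apply, smul_eq_mul]; ring

private theorem ext_B_map {R S : Type*} [CommRing R] [CommRing S] (f : R →+* S)
    (x y : Fin 4 → R) : B (fun i => f (x i)) (fun i => f (y i)) = f (B x y) := by
  simp only [B, map_add, map_mul, map_ofNat]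

private theorem ext_B_toR {R : Type*} [CommRing R] (x y : Fin 4 → ℤ) :
    B (toR x : Fin 4 → R) (toR y) = ((B x y : ℤ) : R) := by
  simp only [B, toR]; push_cast; ring

private theorem ext_B_zmod (q : ℕ) (x y : Fin 4 → ℤ) :
    B (toR x : Fin 4 → ZMod q) (toR y) = 0 ↔ (q : ℤ) ∣ B x y := by
  rw [ext_B_toR, ZMod.intCast_zmod_eq_zero_iff_dvd]

/-- LX-B7: every code of `w` lifts to a code which hits `w₀`. -/
theorem extend_hit (w₀ : Fin 4 → ℤ) (P ρ : ℕ) (hP : Odd P) (hP1 : 1 < P)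
    (hc : IsCoprime (Qs w₀) (P : ℤ)) (hC : ConnP w₀ P ρ) (w : Fin 4 → ℤ) (h₀ : InW w₀ w₀)
    (hw : InW w₀ w) (k : ℕ) (hk : 1 ≤ k) (z : Fin 4 → ZMod (P ^ k))
    (hz : CodeZ (P ^ k) (hat w) z) :
    ∃ z' : Fin 4 → ZMod (P ^ (k + (2 * ρ + 1))), CodeZ (P ^ (k + (2 * ρ + 1))) (hat w) z' ∧
      red (pow_dvd_pow P (Nat.le_add_right k (2 * ρ + 1))) z' = z ∧
      Hit (P ^ (k + (2 * ρ + 1))) (hat w₀) (hat w) z' := by
  have hP0 : 0 < P := by omega
  have hPz : (P : ℤ) ≠ 0 := by exact_mod_cast hP0.ne'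
  have hQw : IsCoprime (Q (hat w)) (P : ℤ) := by
    have e : Q (hat w) = 2 * Qs w₀ := by
      rw [← hw.2.1]; simp [Q, B, hat, Qs]; ring
    rw [e]
    refine IsCoprime.mul_left ?_ hc
    have := Nat.isCoprime_iff_coprime.2 (Nat.coprime_two_left.2 hP)
    exact_mod_cast this
  -- step 1: lift the code to level `k + (ρ + 1)`
  obtain ⟨z2, hz2, hr2⟩ : ∃ z2 : Fin 4 → ZMod (P ^ (k + (ρ + 1))),
      CodeZ (P ^ (k + (ρ + 1))) (hat w) z2 ∧
      red (pow_dvd_pow P (Nat.le_add_right k (ρ + 1))) z2 = z := by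
    have h := lift_count P k hP hP1 hk (hat w) hQw (ρ + 1) z hz
    have hne : {z' : Fin 4 → ZMod (P ^ (k + (ρ + 1))) | CodeZ (P ^ (k + (ρ + 1))) (hat w) z' ∧
      red (pow_dvd_pow P (Nat.le_add_right k (ρ + 1))) z' = z}.ncard ≠ 0 := by
      rw [h]; positivity
    obtain ⟨z', hz'⟩ := Set.nonempty_of_ncard_ne_zero hne
    exact ⟨z', hz'.1, hz'.2⟩
  obtain ⟨Z2, rfl⟩ : ∃ Z2 : Fin 4 → ℤ, toR Z2 = z2 := by
    choose Z2 hZ2 using fun i => ZMod.intCast_surjective (z2 i)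
    exact ⟨Z2, funext hZ2⟩
  -- step 2: the neighbour
  obtain ⟨A2, hA2, hA2i⟩ := exists_neighbor (P ^ (k + (ρ + 1))) hP.pow Z2 hz2.1 hz2.2.2
  have hden2 : Den A2 (P ^ (k + (ρ + 1))) := by
    intro y
    have h1 : IsInt (A2 *ᵥ toR (fun i => ((P ^ (k + (ρ + 1)) : ℕ) : ℤ) * y i)) := by
      rw [hA2i, ext_B_zmod]
      refine ⟨B y Z2, ?_⟩
      simp only [B]; ring
    rw [ext_toR_smul, Matrix.mulVec_smul] at h1
    exact_mod_cast h1
  have hint2 : IsInt (A2 *ᵥ toR (hat w)) := (hA2i _).2 hz2.2.1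
  obtain ⟨w2, hw2, hw2W⟩ := inW_of_iso w₀ w hw A2 hA2 (P ^ (k + (ρ + 1))) hP.pow hden2
    (by push_cast; exact hc.pow_right) hint2
  obtain ⟨C, C', hCi, hCC, hCw, hCd, hCd'⟩ := hC w2 w₀ hw2W h₀
  -- step 3: the isometry `A`
  have hAi : IsIso (C * A2) := by
    intro x y
    rw [← Matrix.mulVec_mulVec, ← Matrix.mulVec_mulVec, hCi, hA2]
  have hAw : (C * A2) *ᵥ toR (hat w) = toR (hat w₀) := by
    rw [← Matrix.mulVec_mulVec, hw2, hCw]
  have hAd : Den (C * A2) (P ^ (k + (2 * ρ + 1))) := by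
    intro y
    obtain ⟨y1, hy1⟩ := hden2 y
    obtain ⟨y2, hy2⟩ := hCd y1
    refine ⟨y2, ?_⟩
    rw [← hy2, ← hy1, Matrix.mulVec_smul, Matrix.mulVec_mulVec, smul_smul]
    congr 1
    push_cast
    ring
  obtain ⟨d, z1, hd, hz1, hz1i⟩ := iso_structure (C * A2) hAi P (k + (2 * ρ + 1)) hP hAd (hat w)
    (hat w₀) hAw hQw
  -- step 4: `z1` and `Z2` are proportional modulo `P ^ (k + 1)`
  have hkey : ∀ y : Fin 4 → ℤ, B (toR y : Fin 4 → ZMod d) (toR z1) = 0 →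
      B (toR y : Fin 4 → ZMod (P ^ (k + 1))) (toR Z2) = 0 := by
    intro y hy
    obtain ⟨y1, hy1⟩ := (hz1i y).2 hy
    have h2 : IsInt (A2 *ᵥ toR (fun i => ((P ^ ρ : ℕ) : ℤ) * y i)) := by
      obtain ⟨y2, hy2⟩ := hCd' y1
      refine ⟨y2, ?_⟩
      rw [← hy2, ← hy1, ext_toR_smul, Matrix.mulVec_smul, Matrix.mulVec_mulVec,
        ← Matrix.mul_assoc, hCC, Matrix.one_mul]
      push_cast
      rfl
    rw [hA2i, ext_B_zmod] at h2
    rw [ext_B_zmod]
    have e : B (fun i => ((P ^ ρ : ℕ) : ℤ) * y i) Z2 = (P : ℤ) ^ ρ * B y Z2 := by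
      simp only [B]; push_cast; ring
    rw [e] at h2
    have e2 : ((P ^ (k + (ρ + 1)) : ℕ) : ℤ) = (P : ℤ) ^ ρ * (P : ℤ) ^ (k + 1) := by
      push_cast; ring
    rw [e2] at h2
    push_cast
    exact (mul_dvd_mul_iff_left (pow_ne_zero _ hPz)).1 h2
  have hred : ∀ y z : Fin 4 → ℤ, B (toR y : Fin 4 → ZMod (P ^ (k + (ρ + 1)))) (toR z) = 1 →
      B (toR y : Fin 4 → ZMod (P ^ (k + 1))) (toR z) = 1 := by
    intro y z h
    have h' := congrArg (ZMod.castHom (pow_dvd_pow P (show k + 1 ≤ k + (ρ + 1) by omega))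
      (ZMod (P ^ (k + 1)))) h
    rw [ext_B_toR, map_intCast, map_one] at h'
    rw [ext_B_toR, h']
  obtain ⟨hPd, c, hcc, hcz⟩ := code_unique d (P ^ (k + 1)) hP.pow z1 Z2 hz1.2.2 (by
    obtain ⟨y, hy⟩ := hz2.2.2
    obtain ⟨Y, rfl⟩ : ∃ Y : Fin 4 → ℤ, toR Y = y := by
      choose Y hY using fun i => ZMod.intCast_surjective (y i)
      exact ⟨Y, funext hY⟩
    exact ⟨toR Y, hred Y Z2 hy⟩) hkey
  -- step 5: lift `c * z1`
  have hPd1 : P ∣ d := (dvd_pow_self P (Nat.succ_ne_zero k)).trans hPd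
  have hcP : IsCoprime c (P : ℤ) := by
    refine hcc.of_isCoprime_of_dvd_right ?_
    push_cast
    exact dvd_pow_self _ (Nat.succ_ne_zero k)
  have hcd : IsCoprime c (d : ℤ) := by
    refine (hcP.pow_right (n := k + (2 * ρ + 1))).of_isCoprime_of_dvd_right ?_
    exact_mod_cast hd
  have hcu : IsUnit ((c : ℤ) : ZMod d) := (ZMod.coe_int_isUnit_iff_isCoprime c d).2 hcd.symm
  have hzc : CodeZ d (hat w) (toR (fun i => c * z1 i)) := by
    rw [ext_toR_smul]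
    obtain ⟨hq1, hb1, y, hy⟩ := hz1
    refine ⟨?_, ?_, ?_⟩
    · rw [Q] at hq1 ⊢
      rw [ext_B_smul_left, ext_B_smul_right, hq1]; simp
    · rw [ext_B_smul_right, hb1]; simp
    · obtain ⟨c', hc'⟩ := hcu.exists_left_inv
      refine ⟨c' • y, ?_⟩
      rw [ext_B_smul_right, ext_B_smul_left, hy, mul_one, mul_comm]
      exact hc'
  obtain ⟨z', hz', hz'd⟩ := lift_code P (k + (2 * ρ + 1)) d hP hPd1 hd (hat w) _ hQw hzc
  refine ⟨toR z', hz', ?_, C * A2, hAi, hAw, ?_⟩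
  · rw [← hr2]
    funext i
    simp only [red, toR, map_intCast]
    have h1 : ((P ^ (k + 1) : ℕ) : ℤ) ∣ z' i - c * z1 i :=
      (Int.natCast_dvd_natCast.2 hPd).trans (hz'd i)
    have h2 : ((P ^ (k + 1) : ℕ) : ℤ) ∣ Z2 i - c * z1 i := by
      have := hcz i
      rw [← ZMod.intCast_zmod_eq_zero_iff_dvd]
      push_cast
      rw [this]; ring
    have h3 : ((P ^ k : ℕ) : ℤ) ∣ z' i - Z2 i := by
      have h4 : ((P ^ (k + 1) : ℕ) : ℤ) ∣ z' i - Z2 i := by
        have := dvd_sub h1 h2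
        have e : z' i - c * z1 i - (Z2 i - c * z1 i) = z' i - Z2 i := by ring
        rwa [e] at this
      refine dvd_trans ?_ h4
      exact Int.natCast_dvd_natCast.2 (pow_dvd_pow P (Nat.le_succ k))
    have h5 := (ZMod.intCast_zmod_eq_zero_iff_dvd _ _).2 h3
    push_cast at h5
    exact sub_eq_zero.1 h5
  · intro y hy
    rw [hz1i]
    have h1 : (d : ℤ) ∣ B y z' := by
      rw [ext_B_zmod] at hy
      exact (Int.natCast_dvd_natCast.2 hd).trans hy
    have h2 : (d : ℤ) ∣ B y (fun i => c * z1 i) := by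
      have e : B y (fun i => c * z1 i) = B y z' - (y 0 * (z' 0 - c * z1 0)
          + y 1 * (z' 1 - c * z1 1) + y 2 * (z' 2 - c * z1 2) + 2 * (y 3 * (z' 3 - c * z1 3))) := by
        simp only [B]; ring
      rw [e]
      exact dvd_sub h1 (dvd_add (dvd_add (dvd_add ((hz'd 0).mul_left _) ((hz'd 1).mul_left _))
        ((hz'd 2).mul_left _)) (((hz'd 3).mul_left _).mul_left _))
    have h3 : (d : ℤ) ∣ c * B y z1 := by
      have e : B y (fun i => c * z1 i) = c * B y z1 := by simp only [B]; ring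
      rwa [e] at h2
    rw [ext_B_zmod]
    exact hcd.symm.dvd_of_dvd_mul_left h3

end Pool.Agent.LX
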