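import Pool.Agent.LX.Defs
import Pool.Agent.LX.Lift
import Pool.Agent.LX.Extend

set_option autoImplicit false

/-!
The number of codes which avoid a direction (project LX, row B8).
-/

open Matrix

namespace Pool.Agent.LX

theorem av_red_toR {a b : ℕ} (h : a ∣ b) (y : Fin 4 → ℤ) :
    red h (toR y : Fin 4 → ZMod b) = toR y := by
  funext i
  simp [red, toR]

theorem av_red_B {a b : ℕ} (h : a ∣ b) (x y : Fin 4 → ZMod b) :
    ZMod.castHom h (ZMod a) (B x y) = B (red h x) (red h y) := by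
  simp only [B, red, map_add, map_mul, map_ofNat]

theorem av_B_smul {R : Type*} [CommRing R] (c : R) (x y : Fin 4 → R) :
    B x (c • y) = c * B x y := by
  simp only [B, Pi.smul_apply, smul_eq_mul]
  ring

theorem av_Q_smul {R : Type*} [CommRing R] (c : R) (y : Fin 4 → R) :
    Q (c • y) = c ^ 2 * Q y := by
  simp only [Q, B, Pi.smul_apply, smul_eq_mul]
  ring

theorem av_codeZ_red {a b : ℕ} (h : a ∣ b) {u : Fin 4 → ℤ} {z : Fin 4 → ZMod b}
    (hz : CodeZ b u z) : CodeZ a u (red h z) := by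
  obtain ⟨h1, h2, y, h3⟩ := hz
  refine ⟨?_, ?_, red h y, ?_⟩
  · have e := av_red_B h z z
    rw [show B z z = 0 from h1, map_zero] at e
    exact e.symm
  · have e := av_red_B h (toR u) z
    rw [h2, map_zero, av_red_toR] at e
    exact e.symm
  · rw [← av_red_B, h3, map_one]

theorem av_hit_of_red {a b : ℕ} (h : a ∣ b) {u₀ u : Fin 4 → ℤ} {z : Fin 4 → ZMod b}
    (hz : Hit a u₀ u (red h z)) : Hit b u₀ u z := by
  obtain ⟨A, h1, h2, h3⟩ := hz
  refine ⟨A, h1, h2, fun y hy => h3 y ?_⟩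
  rw [← av_red_toR h, ← av_red_B, hy, map_zero]

theorem av_codeZ_smul {q : ℕ} {u : Fin 4 → ℤ} {z : Fin 4 → ZMod q} {c : ZMod q} (hc : IsUnit c)
    (hz : CodeZ q u z) : CodeZ q u (c • z) := by
  obtain ⟨h1, h2, y, h3⟩ := hz
  obtain ⟨c', rfl⟩ := hc
  refine ⟨by rw [av_Q_smul, h1, mul_zero], by rw [av_B_smul, h2, mul_zero],
    ((c'⁻¹ : (ZMod q)ˣ) : ZMod q) • y, ?_⟩
  rw [av_B_smul]
  have e : B (((c'⁻¹ : (ZMod q)ˣ) : ZMod q) • y) z = ((c'⁻¹ : (ZMod q)ˣ) : ZMod q) * B y z := by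
    simp only [B, Pi.smul_apply, smul_eq_mul]
    ring
  rw [e, h3, mul_one, Units.mul_inv]

theorem av_hit_smul {q : ℕ} {u₀ u : Fin 4 → ℤ} {z : Fin 4 → ZMod q} {c : ZMod q}
    (hc : IsUnit c) (hz : Hit q u₀ u z) : Hit q u₀ u (c • z) := by
  obtain ⟨A, h1, h2, h3⟩ := hz
  refine ⟨A, h1, h2, fun y hy => h3 y ?_⟩
  rw [av_B_smul] at hy
  exact (hc.mul_right_eq_zero).mp hy

/-- One step of the induction. -/
theorem av_step (w₀ : Fin 4 → ℤ) (P ρ : ℕ) (hP : Odd P) (hP1 : 1 < P)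
    (hc : IsCoprime (Qs w₀) (P : ℤ)) (hC : ConnP w₀ P ρ) (w : Fin 4 → ℤ) (h₀ : InW w₀ w₀)
    (hw : InW w₀ w) (k : ℕ) (hk : 1 ≤ k) :
    (AV (P ^ (k + (2 * ρ + 1))) (hat w₀) (hat w)).ncard ≤
      (P ^ (2 * (2 * ρ + 1)) - P ^ (2 * ρ + 1)) * (AV (P ^ k) (hat w₀) (hat w)).ncard := by
  classical
  have hP0 : P ≠ 0 := by omega
  have : NeZero (P ^ k) := ⟨pow_ne_zero _ hP0⟩
  have : NeZero (P ^ (k + (2 * ρ + 1))) := ⟨pow_ne_zero _ hP0⟩
  set h := 2 * ρ + 1 with hh
  set hd : P ^ k ∣ P ^ (k + h) := pow_dvd_pow P (Nat.le_add_right k h) with hhd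
  have hQ : IsCoprime (Q (hat w)) (P : ℤ) := by
    have e : Q (hat w) = 2 * Qs w₀ := by
      rw [← hw.2.1]
      simp [Q, B, hat, Qs]
      ring
    rw [e]
    refine IsCoprime.mul_left ?_ hc
    obtain ⟨m, hm⟩ := hP
    refine ⟨-m, 1, ?_⟩
    rw [hm]
    push_cast
    ring
  rw [Set.ncard_eq_toFinset_card _ (Set.toFinite _), Set.ncard_eq_toFinset_card _ (Set.toFinite _)]
  refine Finset.card_le_mul_card_image_of_maps_to (f := red hd) ?_ _ ?_
  · intro z' hz'
    rw [Set.Finite.mem_toFinset] at hz' ⊢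
    exact ⟨av_codeZ_red hd hz'.1, fun hH => hz'.2 (av_hit_of_red hd hH)⟩
  · intro z hz
    rw [Set.Finite.mem_toFinset] at hz
    -- all codes above `z`
    set S : Finset (Fin 4 → ZMod (P ^ (k + h))) := Finset.univ.filter
      (fun z' => CodeZ (P ^ (k + h)) (hat w) z' ∧ red hd z' = z) with hS
    have hScard : S.card = P ^ (2 * h) := by
      rw [← lift_count P k hP hP1 hk (hat w) hQ h z hz.1, ← Set.ncard_coe_finset]
      congr 1
      ext z'
      simp [hS]
    obtain ⟨z0, hz0, hz0r, hz0h⟩ := extend_hit w₀ P ρ hP hP1 hc hC w h₀ hw k hk z hz.1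
    -- the multiples
    set T : Finset (Fin 4 → ZMod (P ^ (k + h))) :=
      (Finset.range (P ^ h)).image
        (fun j => (((1 + P ^ k * j : ℕ) : ZMod (P ^ (k + h))) • z0)) with hT
    have hPk : P ∣ P ^ k := dvd_pow_self P (by omega)
    have hPk1 : 1 < P ^ k := Nat.one_lt_pow (by omega) hP1
    have hTcard : T.card = P ^ h := by
      rw [hT, Finset.card_image_of_injOn, Finset.card_range]
      intro j hj j' hj' he
      rw [Finset.coe_range, Set.mem_Iio] at hj hj'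
      obtain ⟨y, hy⟩ := hz0.2.2
      have e1 := congrArg (fun v => B y v) he
      simp only [av_B_smul, hy, mul_one] at e1
      have bound : ∀ j, j < P ^ h → 1 + P ^ k * j < P ^ (k + h) := by
        intro j hj
        have e2 : P ^ k * (j + 1) ≤ P ^ k * P ^ h := Nat.mul_le_mul_left _ hj
        rw [← pow_add, mul_add, mul_one] at e2
        omega
      rw [ZMod.natCast_eq_natCast_iff', Nat.mod_eq_of_lt (bound j hj),
        Nat.mod_eq_of_lt (bound j' hj')] at e1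
      have e3 : P ^ k * j = P ^ k * j' := by omega
      exact Nat.eq_of_mul_eq_mul_left (by omega) e3
    have hunit : ∀ j : ℕ, IsUnit (((1 + P ^ k * j : ℕ) : ZMod (P ^ (k + h)))) := by
      intro j
      rw [ZMod.isUnit_iff_coprime]
      apply Nat.Coprime.pow_right
      obtain ⟨m, hm⟩ := hPk
      rw [hm, mul_assoc]
      simp
    have hred : ∀ j : ℕ, red hd ((((1 + P ^ k * j : ℕ) : ZMod (P ^ (k + h)))) • z0) = z := by
      intro j
      rw [← hz0r]
      funext i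
      have e : ((P : ZMod (P ^ k))) ^ k = 0 := by
        have := ZMod.natCast_self (P ^ k)
        push_cast at this
        exact this
      change ZMod.castHom hd (ZMod (P ^ k)) (((1 + P ^ k * j : ℕ) : ZMod (P ^ (k + h))) * z0 i)
        = ZMod.castHom hd (ZMod (P ^ k)) (z0 i)
      rw [map_mul, map_natCast]
      push_cast
      rw [e, zero_mul, add_zero, one_mul]
    have hTS : T ⊆ S := by
      intro v hv
      rw [hT, Finset.mem_image] at hv
      obtain ⟨j, _, rfl⟩ := hv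
      rw [hS, Finset.mem_filter]
      exact ⟨Finset.mem_univ _, av_codeZ_smul (hunit j) hz0, hred j⟩
    have hsub : ((Set.toFinite (AV (P ^ (k + h)) (hat w₀) (hat w))).toFinset.filter
        (fun a => red hd a = z)) ⊆ S \ T := by
      intro v hv
      rw [Finset.mem_filter, Set.Finite.mem_toFinset] at hv
      rw [Finset.mem_sdiff]
      refine ⟨?_, ?_⟩
      · rw [hS, Finset.mem_filter]
        exact ⟨Finset.mem_univ _, hv.1.1, hv.2⟩
      · intro hvT
        rw [hT, Finset.mem_image] at hvT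
        obtain ⟨j, _, rfl⟩ := hvT
        exact hv.1.2 (av_hit_smul (hunit j) hz0h)
    refine (Finset.card_le_card hsub).trans ?_
    rw [Finset.card_sdiff_of_subset hTS, hScard, hTcard]

/-- LX-B8 -/
theorem avoid_bound (w₀ : Fin 4 → ℤ) (P ρ : ℕ) (hP : Odd P) (hP1 : 1 < P)
    (hc : IsCoprime (Qs w₀) (P : ℤ)) (hC : ConnP w₀ P ρ) (w : Fin 4 → ℤ) (h₀ : InW w₀ w₀)
    (hw : InW w₀ w) (b : ℕ) :
    (AV (P ^ (1 + b * (2 * ρ + 1))) (hat w₀) (hat w)).ncard ≤
      P ^ 4 * (P ^ (2 * (2 * ρ + 1)) - P ^ (2 * ρ + 1)) ^ b := by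
  induction b with
  | zero =>
    have : NeZero (P ^ (1 + 0 * (2 * ρ + 1))) := ⟨pow_ne_zero _ (by omega)⟩
    rw [pow_zero, mul_one]
    refine (Set.ncard_le_ncard (Set.subset_univ _) (Set.toFinite _)).trans ?_
    rw [Set.ncard_univ, Nat.card_eq_fintype_card, Fintype.card_fun, ZMod.card, Fintype.card_fin,
      zero_mul, add_zero, pow_one]
  | succ b ih =>
    have e : 1 + (b + 1) * (2 * ρ + 1) = (1 + b * (2 * ρ + 1)) + (2 * ρ + 1) := by ring
    rw [e]
    refine (av_step w₀ P ρ hP hP1 hc hC w h₀ hw (1 + b * (2 * ρ + 1)) (by omega)).trans ?_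
    calc (P ^ (2 * (2 * ρ + 1)) - P ^ (2 * ρ + 1)) *
          (AV (P ^ (1 + b * (2 * ρ + 1))) (hat w₀) (hat w)).ncard
        ≤ (P ^ (2 * (2 * ρ + 1)) - P ^ (2 * ρ + 1)) *
          (P ^ 4 * (P ^ (2 * (2 * ρ + 1)) - P ^ (2 * ρ + 1)) ^ b) := Nat.mul_le_mul_left _ ih
      _ = _ := by ring

end Pool.Agent.LX
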