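import Pool.Agent.LX.Defs

set_option autoImplicit false

/-!
Counting the values of a binary quadratic form in a residue class.
-/

open Matrix

namespace Pool.Agent.LX

namespace BinAux

/-! ### points in an interval and in a residue class -/

lemma interval_count (q : ℤ) (hq : 0 < q) (r : ℤ) (m h : ℝ) (hh : 0 ≤ h) :
    ∃ T : Finset ℤ, (∀ X : ℤ, |(X : ℝ) - m| ≤ h → q ∣ X - r → X ∈ T) ∧
      (T.card : ℝ) ≤ 2 * h / q + 1 := by
  have hq' : (0 : ℝ) < q := by exact_mod_cast hq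
  refine ⟨(Finset.Icc ⌈(m - h - r) / q⌉ ⌊(m + h - r) / q⌋).image fun k => r + q * k, ?_, ?_⟩
  · rintro X hX ⟨k, hk⟩
    rw [Finset.mem_image]
    refine ⟨k, ?_, by linarith⟩
    have hXk : (X : ℝ) = r + q * k := by
      have : X = r + q * k := by linarith
      rw [this]; push_cast; ring
    rw [abs_le] at hX
    rw [Finset.mem_Icc, Int.ceil_le, Int.le_floor, div_le_iff₀ hq', le_div_iff₀ hq']
    constructor <;> nlinarith [hX.1, hX.2]
  · refine le_trans (Nat.cast_le.2 Finset.card_image_le) ?_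
    rw [Int.card_Icc]
    have h0 : 0 ≤ 2 * h / q + 1 := by positivity
    rcases le_or_gt 0 (⌊(m + h - r) / q⌋ + 1 - ⌈(m - h - r) / q⌉) with h1 | h1
    · have h2 : (((⌊(m + h - r) / q⌋ + 1 - ⌈(m - h - r) / q⌉).toNat : ℤ) : ℝ) =
          ((⌊(m + h - r) / q⌋ + 1 - ⌈(m - h - r) / q⌉ : ℤ) : ℝ) := by
        rw [Int.toNat_of_nonneg h1]
      have h3 := Int.floor_le ((m + h - r) / (q : ℝ))
      have h4 := Int.le_ceil ((m - h - r) / (q : ℝ))
      have h5 : (m + h - r) / (q : ℝ) - (m - h - r) / q = 2 * h / q := by ring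
      rw [Int.cast_natCast] at h2
      rw [h2]
      push_cast
      linarith
    · rw [Int.toNat_of_nonpos h1.le]
      simpa using h0

/-- points of a class in an ellipse -/
lemma class_count (A B C : ℤ) (δ : ℕ) (hδ : 0 < δ) (hA : 0 < A) (hd : A * C - B ^ 2 = δ)
    (q : ℤ) (hq : 0 < q) (X0 Y0 : ℤ) (R : ℝ) :
    ∃ T : Finset (ℤ × ℤ), (∀ X Y : ℤ,
      ((A * X ^ 2 + 2 * B * X * Y + C * Y ^ 2 : ℤ) : ℝ) ≤ R → q ∣ X - X0 → q ∣ Y - Y0 →
        (X, Y) ∈ T) ∧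
      (T.card : ℝ) ≤ (2 * Real.sqrt (A * R / δ) / q + 1) * (2 * Real.sqrt (R / A) / q + 1) := by
  classical
  have hA' : (0 : ℝ) < A := by exact_mod_cast hA
  have hδ' : (0 : ℝ) < δ := by exact_mod_cast hδ
  have hq' : (0 : ℝ) < q := by exact_mod_cast hq
  obtain ⟨T, hT, hTc⟩ := interval_count q hq Y0 0 (Real.sqrt (A * R / δ)) (Real.sqrt_nonneg _)
  choose U hU hUc using fun Y : ℤ => interval_count q hq X0 (-(B * Y / A)) (Real.sqrt (R / A))
    (Real.sqrt_nonneg _)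
  refine ⟨T.biUnion fun Y => (U Y).image fun X => (X, Y), ?_, ?_⟩
  · intro X Y h hX hY
    have hd' : (A : ℝ) * C - B ^ 2 = δ := by exact_mod_cast hd
    push_cast at h
    have e1 : ((A : ℝ) * X + B * Y) ^ 2 + δ * Y ^ 2 ≤ A * R := by
      have : ((A : ℝ) * X + B * Y) ^ 2 + δ * Y ^ 2 =
          A * (A * X ^ 2 + 2 * B * X * Y + C * Y ^ 2) := by
        rw [← hd']; ring
      rw [this]
      exact mul_le_mul_of_nonneg_left h hA'.le
    rw [Finset.mem_biUnion]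
    refine ⟨Y, hT Y ?_ hY, ?_⟩
    · rw [sub_zero]
      refine Real.abs_le_sqrt ?_
      rw [le_div_iff₀ hδ']
      nlinarith [sq_nonneg ((A : ℝ) * X + B * Y)]
    · rw [Finset.mem_image]
      refine ⟨X, hU Y X ?_ hX, rfl⟩
      refine Real.abs_le_sqrt ?_
      have e2 : ((X : ℝ) - -(B * Y / A)) = (A * X + B * Y) / A := by
        field_simp
        ring
      rw [e2, div_pow, div_le_div_iff₀ (by positivity) hA']
      have e3 : ((A : ℝ) * X + B * Y) ^ 2 ≤ A * R := by nlinarith [mul_nonneg hδ'.le (sq_nonneg (Y : ℝ))]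
      nlinarith
  · have h1 : ((T.biUnion fun Y => (U Y).image fun X => (X, Y)).card : ℝ) ≤
        ∑ Y ∈ T, (2 * Real.sqrt (R / A) / q + 1) := by
      refine le_trans (Nat.cast_le.2 Finset.card_biUnion_le) ?_
      push_cast
      refine Finset.sum_le_sum fun Y _ => le_trans ?_ (hUc Y)
      exact Nat.cast_le.2 Finset.card_image_le
    refine h1.trans ?_
    rw [Finset.sum_const, nsmul_eq_mul]
    exact mul_le_mul_of_nonneg_right hTc (by positivity)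

/-! ### reduction of a positive form -/

lemma exists_min (c β γ : ℤ) (δ : ℕ) (hδ : 0 < δ) (hc : 0 < c) (hd : c * γ - β ^ 2 = δ) :
    ∃ a a' : ℤ, 0 < c * a ^ 2 + 2 * β * a * a' + γ * a' ^ 2 ∧ IsCoprime a a' ∧
      ∀ x y : ℤ, (x ≠ 0 ∨ y ≠ 0) → c * a ^ 2 + 2 * β * a * a' + γ * a' ^ 2 ≤
        c * x ^ 2 + 2 * β * x * y + γ * y ^ 2 := by
  classical
  have hpos : ∀ x y : ℤ, (x ≠ 0 ∨ y ≠ 0) → 0 < c * x ^ 2 + 2 * β * x * y + γ * y ^ 2 := by
    intro x y h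
    have e1 : c * (c * x ^ 2 + 2 * β * x * y + γ * y ^ 2) = (c * x + β * y) ^ 2 + δ * y ^ 2 := by
      rw [← hd]; ring
    have hδ' : (0 : ℤ) < δ := by exact_mod_cast hδ
    have e2 : 0 < (c * x + β * y) ^ 2 + δ * y ^ 2 := by
      rcases eq_or_ne y 0 with hy | hy
      · subst hy
        have hx : x ≠ 0 := by simpa using h
        have : 0 < (c * x + β * 0) ^ 2 := by
          have : c * x + β * 0 ≠ 0 := by simpa using ⟨hc.ne', hx⟩
          positivity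
        nlinarith
      · have : 0 < (δ : ℤ) * y ^ 2 := by positivity
        nlinarith [sq_nonneg (c * x + β * y)]
    rw [← e1] at e2
    exact (mul_pos_iff_of_pos_left hc).1 e2
  have hex : ∃ N : ℕ, ∃ x y : ℤ, (x ≠ 0 ∨ y ≠ 0) ∧
      c * x ^ 2 + 2 * β * x * y + γ * y ^ 2 = N :=
    ⟨c.toNat, 1, 0, Or.inl one_ne_zero, by rw [Int.toNat_of_nonneg hc.le]; ring⟩
  obtain ⟨a, a', hne, hN⟩ := Nat.find_spec hex
  have hmin : ∀ x y : ℤ, (x ≠ 0 ∨ y ≠ 0) → c * a ^ 2 + 2 * β * a * a' + γ * a' ^ 2 ≤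
        c * x ^ 2 + 2 * β * x * y + γ * y ^ 2 := by
    intro x y h
    have h1 := Nat.find_min' hex (m := (c * x ^ 2 + 2 * β * x * y + γ * y ^ 2).toNat)
      ⟨x, y, h, by rw [Int.toNat_of_nonneg (hpos x y h).le]⟩
    rw [hN]
    have := hpos x y h
    omega
  refine ⟨a, a', hpos a a' hne, ?_, hmin⟩
  rw [Int.isCoprime_iff_gcd_eq_one]
  by_contra hg
  have hg0 : Int.gcd a a' ≠ 0 := by
    intro h0
    rw [Int.gcd_eq_zero_iff] at h0
    rcases hne with h | h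
    · exact h h0.1
    · exact h h0.2
  obtain ⟨x, hx⟩ := Int.gcd_dvd_left (a := a) (b := a')
  obtain ⟨y, hy⟩ := Int.gcd_dvd_right (a := a) (b := a')
  set G : ℤ := (Int.gcd a a' : ℤ) with hG
  have hG2 : 2 ≤ G := by omega
  have hxy : x ≠ 0 ∨ y ≠ 0 := by
    by_contra hcon
    push Not at hcon
    rw [hcon.1, mul_zero] at hx
    rw [hcon.2, mul_zero] at hy
    rcases hne with h | h
    · exact h hx
    · exact h hy
  have h1 := hmin x y hxy
  have h2 := hpos x y hxy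
  have h3 : c * a ^ 2 + 2 * β * a * a' + γ * a' ^ 2 =
      G ^ 2 * (c * x ^ 2 + 2 * β * x * y + γ * y ^ 2) := by
    rw [hx, hy]; ring
  rw [h3] at h1
  have h4 : 4 ≤ G ^ 2 := by nlinarith
  nlinarith [mul_le_mul_of_nonneg_right h4 h2.le]

lemma exists_reduced (c β γ : ℤ) (δ : ℕ) (hδ : 0 < δ) (hc : 0 < c) (hd : c * γ - β ^ 2 = δ) :
    ∃ a a' b b' A B C : ℤ, a * b' - b * a' = 1 ∧ 0 < A ∧ A * C - B ^ 2 = δ ∧ 3 * A ^ 2 ≤ 4 * δ ∧
      ∀ X Y : ℤ, c * (a * X + b * Y) ^ 2 + 2 * β * (a * X + b * Y) * (a' * X + b' * Y) +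
        γ * (a' * X + b' * Y) ^ 2 = A * X ^ 2 + 2 * B * X * Y + C * Y ^ 2 := by
  obtain ⟨a, a', hA, ⟨u, v, huv⟩, hmin⟩ := exists_min c β γ δ hδ hc hd
  set A := c * a ^ 2 + 2 * β * a * a' + γ * a' ^ 2 with hAdef
  -- `a u + a' v = 1`
  set B0 := c * a * (-v) + β * (a * u + a' * (-v)) + γ * a' * u with hB0
  -- choose `k` with `|2 (B0 + k A)| ≤ A`
  obtain ⟨k, hk⟩ : ∃ k : ℤ, |2 * (B0 + k * A)| ≤ A := by
    refine ⟨-((2 * B0 + A) / (2 * A)), ?_⟩
    have h1 := Int.emod_add_mul_ediv (2 * B0 + A) (2 * A)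
    have h2 := Int.emod_nonneg (2 * B0 + A) (b := 2 * A) (by omega)
    have h3 := Int.emod_lt_of_pos (2 * B0 + A) (b := 2 * A) (by omega)
    rw [abs_le]
    constructor <;> nlinarith
  set b := -v + k * a with hb
  set b' := u + k * a' with hb'
  have hdet : a * b' - b * a' = 1 := by
    rw [hb, hb', ← huv]; ring
  refine ⟨a, a', b, b', A, B0 + k * A, c * b ^ 2 + 2 * β * b * b' + γ * b' ^ 2, hdet, hA, ?_, ?_, ?_⟩
  · have e1 : B0 + k * A = c * a * b + β * (a * b' + a' * b) + γ * a' * b' := by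
      rw [hB0, hAdef, hb, hb']; ring
    rw [e1, ← hd, hAdef]
    have e2 : (c * a ^ 2 + 2 * β * a * a' + γ * a' ^ 2) * (c * b ^ 2 + 2 * β * b * b' + γ * b' ^ 2) -
        (c * a * b + β * (a * b' + a' * b) + γ * a' * b') ^ 2 =
        (c * γ - β ^ 2) * (a * b' - b * a') ^ 2 := by ring
    rw [e2, hdet]
    ring
  · have hC : A ≤ c * b ^ 2 + 2 * β * b * b' + γ * b' ^ 2 := by
      apply hmin
      by_contra hcon
      push Not at hcon
      rw [hcon.1, hcon.2] at hdet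
      simp at hdet
    have e1 : B0 + k * A = c * a * b + β * (a * b' + a' * b) + γ * a' * b' := by
      rw [hB0, hAdef, hb, hb']; ring
    have e2 : A * (c * b ^ 2 + 2 * β * b * b' + γ * b' ^ 2) - (B0 + k * A) ^ 2 = δ := by
      rw [e1, ← hd, hAdef]
      have e2 : (c * a ^ 2 + 2 * β * a * a' + γ * a' ^ 2) *
          (c * b ^ 2 + 2 * β * b * b' + γ * b' ^ 2) -
          (c * a * b + β * (a * b' + a' * b) + γ * a' * b') ^ 2 =
          (c * γ - β ^ 2) * (a * b' - b * a') ^ 2 := by ring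
      rw [e2, hdet]
      ring
    have e3 : (2 * (B0 + k * A)) ^ 2 ≤ A ^ 2 := sq_le_sq' (by have := (abs_le.1 hk).1; linarith)
      (abs_le.1 hk).2
    nlinarith
  · intro X Y
    rw [hB0, hAdef, hb, hb']
    ring

/-! ### square roots -/

lemma dvd_of_sq {p k : ℕ} (hp : p.Prime) (h2 : p ≠ 2) {z w : ℤ} (hw : ¬ (p : ℤ) ∣ w)
    (h : (p : ℤ) ^ k ∣ z ^ 2 - w ^ 2) :
    ((p : ℤ) ∣ z - w → (p : ℤ) ^ k ∣ z - w) ∧ (¬ (p : ℤ) ∣ z - w → (p : ℤ) ^ k ∣ z + w) := by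
  have hp' : Prime (p : ℤ) := Nat.prime_iff_prime_int.1 hp
  have e : z ^ 2 - w ^ 2 = (z - w) * (z + w) := by ring
  rw [e] at h
  constructor
  · intro h1
    have h3 : ¬ (p : ℤ) ∣ z + w := by
      intro h4
      have h5 : (p : ℤ) ∣ 2 * w := by
        have := dvd_sub h4 h1
        have e : z + w - (z - w) = 2 * w := by ring
        rwa [e] at this
      rcases hp'.dvd_or_dvd h5 with h6 | h6
      · have : p ∣ 2 := by exact_mod_cast h6
        exact h2 ((Nat.prime_dvd_prime_iff_eq hp Nat.prime_two).1 this)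
      · exact hw h6
    exact (IsCoprime.pow_left ((Prime.coprime_iff_not_dvd hp').2 h3)).dvd_of_dvd_mul_right h
  · intro h1
    exact (IsCoprime.pow_left ((Prime.coprime_iff_not_dvd hp').2 h1)).dvd_of_dvd_mul_left h

lemma two_aux {f : ℕ} (hf : 1 ≤ f) {z z' w : ℤ} (hw : Odd w) (h4 : 4 ∣ z - w) (h4' : 4 ∣ z' - w)
    (h : (2 : ℤ) ^ (f + 1) ∣ z ^ 2 - w ^ 2) (h' : (2 : ℤ) ^ (f + 1) ∣ z' ^ 2 - w ^ 2)
    (hb : ((2 : ℤ) ^ (f + 1) ∣ z - w ∨ (2 : ℤ) ^ (f + 1) ∣ z + w) ↔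
      ((2 : ℤ) ^ (f + 1) ∣ z' - w ∨ (2 : ℤ) ^ (f + 1) ∣ z' + w)) :
    (2 : ℤ) ^ (f + 1) ∣ z - z' := by
  have h2 : (2 : ℤ) ^ (f + 1) = 2 ^ f * 2 := pow_succ _ _
  have key : ∀ y : ℤ, 4 ∣ y - w → (2 : ℤ) ^ (f + 1) ∣ y ^ 2 - w ^ 2 →
      (2 : ℤ) ^ f ∣ y - w ∧ ¬ (2 : ℤ) ^ (f + 1) ∣ y + w := by
    rintro y ⟨s, hs⟩ hy
    have e1 : y + w = 2 * (2 * s + w) := by linarith
    have hodd : ¬ (2 : ℤ) ∣ 2 * s + w := by
      obtain ⟨r, hr⟩ := hw
      omega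
    constructor
    · have e2 : y ^ 2 - w ^ 2 = 2 * ((y - w) * (2 * s + w)) := by
        have : y ^ 2 - w ^ 2 = (y - w) * (y + w) := by ring
        rw [this, e1]; ring
      rw [e2, h2, mul_comm ((2 : ℤ) ^ f) 2] at hy
      have h3 := (mul_dvd_mul_iff_left (two_ne_zero' ℤ)).1 hy
      exact (IsCoprime.pow_left ((Prime.coprime_iff_not_dvd Int.prime_two).2 hodd)).dvd_of_dvd_mul_right h3
    · intro h3
      apply hodd
      rw [e1, h2, mul_comm ((2 : ℤ) ^ f) 2] at h3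
      have h4 := (mul_dvd_mul_iff_left (two_ne_zero' ℤ)).1 h3
      exact (dvd_pow_self 2 (by omega)).trans h4
  obtain ⟨⟨t, ht⟩, hn⟩ := key z h4 h
  obtain ⟨⟨t', ht'⟩, hn'⟩ := key z' h4' h'
  rw [or_iff_left hn, or_iff_left hn', ht, ht', h2] at hb
  have hpos : (2 : ℤ) ^ f ≠ 0 := by positivity
  rw [mul_dvd_mul_iff_left hpos, mul_dvd_mul_iff_left hpos] at hb
  have e : z - z' = 2 ^ f * (t - t') := by linarith
  rw [e, h2, mul_dvd_mul_iff_left hpos]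
  omega

lemma two_case {e : ℕ} {z z' w : ℤ} (hz : Odd z) (hz' : Odd z') (hw : Odd w)
    (h : (2 : ℤ) ^ e ∣ z ^ 2 - w ^ 2) (h' : (2 : ℤ) ^ e ∣ z' ^ 2 - w ^ 2)
    (h4 : 4 ∣ z - w ↔ 4 ∣ z' - w)
    (hb : ((2 : ℤ) ^ e ∣ z - w ∨ (2 : ℤ) ^ e ∣ z + w) ↔
      ((2 : ℤ) ^ e ∣ z' - w ∨ (2 : ℤ) ^ e ∣ z' + w)) :
    (2 : ℤ) ^ e ∣ z - z' := by
  rcases e with _ | f
  · simp
  rcases Nat.eq_zero_or_pos f with hf | hf
  · subst hf
    obtain ⟨r, hr⟩ := hz
    obtain ⟨r', hr'⟩ := hz'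
    rw [zero_add, pow_one]
    omega
  by_cases h1 : 4 ∣ z - w
  · exact two_aux hf hw h1 (h4.1 h1) h h' hb
  · have h1' : ¬ 4 ∣ z' - w := fun h2 => h1 (h4.2 h2)
    obtain ⟨r, hr⟩ := hz
    obtain ⟨r', hr'⟩ := hz'
    obtain ⟨u, hu⟩ := hw
    refine two_aux (w := -w) hf (Odd.neg ⟨u, hu⟩) (by omega) (by omega) (by rwa [neg_sq])
      (by rwa [neg_sq]) ?_
    rw [sub_neg_eq_add, sub_neg_eq_add, ← sub_eq_add_neg, ← sub_eq_add_neg, or_comm, hb, or_comm]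

/-- the number of square roots of a unit modulo `δ` -/
lemma sqrt_count (δ : ℕ) [NeZero δ] (E : ZMod δ) (hE : IsUnit E) :
    {z : ZMod δ | z ^ 2 = E}.ncard ≤ 2 * 2 ^ om δ := by
  classical
  rcases Set.eq_empty_or_nonempty {z : ZMod δ | z ^ 2 = E} with h0 | ⟨z₁, hz₁⟩
  · rw [h0, Set.ncard_empty]
    exact Nat.zero_le _
  have hδ0 : δ ≠ 0 := NeZero.ne δ
  set W : ℤ := (z₁.val : ℤ) with hW
  have hunit : ∀ z : ZMod δ, z ^ 2 = E → ∀ p : ℕ, p.Prime → p ∣ δ → ¬ (p : ℤ) ∣ (z.val : ℤ) := by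
    intro z hz p hp hpd hdiv
    have hzu : IsUnit z := by
      rw [← hz] at hE
      exact (isUnit_pow_iff two_ne_zero).1 hE
    have h1 : Nat.Coprime z.val δ := by
      have := (ZMod.isUnit_iff_coprime z.val δ).1 (by rwa [ZMod.natCast_zmod_val])
      exact this
    have h2 : p ∣ z.val := by exact_mod_cast hdiv
    have h3 := Nat.dvd_gcd h2 hpd
    rw [h1] at h3
    exact hp.one_lt.ne' (Nat.dvd_one.1 h3)
  have hsq : ∀ z : ZMod δ, z ^ 2 = E → (δ : ℤ) ∣ (z.val : ℤ) ^ 2 - W ^ 2 := by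
    intro z hz
    rw [← ZMod.intCast_zmod_eq_zero_iff_dvd]
    push_cast
    rw [hW]
    push_cast
    rw [ZMod.natCast_zmod_val, ZMod.natCast_zmod_val, hz, show z₁ ^ 2 = E from hz₁, sub_self]
  let e := δ.factorization 2
  let F : ZMod δ → Finset ℕ × Bool := fun z =>
    (δ.primeFactors.filter (fun p => (if p = 2 then (4 : ℤ) else p) ∣ (z.val : ℤ) - W),
      decide ((2 : ℤ) ^ e ∣ (z.val : ℤ) - W ∨ (2 : ℤ) ^ e ∣ (z.val : ℤ) + W))
  have hinj : Set.InjOn F {z : ZMod δ | z ^ 2 = E} := by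
    intro z hz z' hz' hF
    have hz : z ^ 2 = E := hz
    have hz' : z' ^ 2 = E := hz'
    have hF1 : ∀ p, p.Prime → p ∣ δ → ((if p = 2 then (4 : ℤ) else p) ∣ (z.val : ℤ) - W ↔
        (if p = 2 then (4 : ℤ) else p) ∣ (z'.val : ℤ) - W) := by
      intro p hp hpd
      have h1 := congrArg (fun a => p ∈ a.1) hF
      have hm : p ∈ δ.primeFactors := Nat.mem_primeFactors.2 ⟨hp, hpd, hδ0⟩
      simpa only [F, Finset.mem_filter, hm, true_and, eq_iff_iff] using h1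
    have hF2 : ((2 : ℤ) ^ e ∣ (z.val : ℤ) - W ∨ (2 : ℤ) ^ e ∣ (z.val : ℤ) + W) ↔
        ((2 : ℤ) ^ e ∣ (z'.val : ℤ) - W ∨ (2 : ℤ) ^ e ∣ (z'.val : ℤ) + W) := by
      have h1 := congrArg (fun a => a.2) hF
      simpa only [F, decide_eq_decide] using h1
    have hdvd : (δ : ℤ) ∣ (z.val : ℤ) - z'.val := by
      rw [Int.natCast_dvd, Nat.dvd_iff_prime_pow_dvd_dvd]
      intro p k hp hpk
      rcases Nat.eq_zero_or_pos k with hk | hk
      · simp [hk]
      rw [← Int.natCast_dvd]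
      have hpd : p ∣ δ := (dvd_pow_self p hk.ne').trans hpk
      have hs1 : ((p ^ k : ℕ) : ℤ) ∣ (z.val : ℤ) ^ 2 - W ^ 2 :=
        (Int.natCast_dvd_natCast.2 hpk).trans (hsq z hz)
      have hs2 : ((p ^ k : ℕ) : ℤ) ∣ (z'.val : ℤ) ^ 2 - W ^ 2 :=
        (Int.natCast_dvd_natCast.2 hpk).trans (hsq z' hz')
      rcases eq_or_ne p 2 with h2 | h2
      · subst h2
        have hodd : ∀ z : ZMod δ, z ^ 2 = E → Odd (z.val : ℤ) := by
          intro z hz
          have := hunit z hz 2 Nat.prime_two hpd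
          rw [← Int.not_even_iff_odd, even_iff_two_dvd]
          exact_mod_cast this
        have hke : k ≤ e := (Nat.prime_two.pow_dvd_iff_le_factorization hδ0).1 hpk
        have hed : ((2 : ℤ) ^ e) ∣ δ := by
          have : 2 ^ e ∣ δ := Nat.ordProj_dvd δ 2
          exact_mod_cast this
        have h4 := hF1 2 Nat.prime_two hpd
        rw [if_pos rfl] at h4
        have h5 := two_case (hodd z hz) (hodd z' hz') (hodd z₁ hz₁) (hed.trans (hsq z hz))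
          (hed.trans (hsq z' hz')) h4 hF2
        push_cast
        exact (pow_dvd_pow 2 hke).trans h5
      · have h4 := hF1 p hp hpd
        rw [if_neg h2] at h4
        have hw := hunit z₁ hz₁ p hp hpd
        push_cast at hs1 hs2 ⊢
        have k1 := dvd_of_sq hp h2 hw hs1
        have k2 := dvd_of_sq hp h2 hw hs2
        by_cases h5 : (p : ℤ) ∣ (z.val : ℤ) - W
        · have := dvd_sub (k1.1 h5) (k2.1 (h4.1 h5))
          have e : (z.val : ℤ) - W - ((z'.val : ℤ) - W) = z.val - z'.val := by ring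
          rwa [e] at this
        · have := dvd_sub (k1.2 h5) (k2.2 (fun h => h5 (h4.2 h)))
          have e : (z.val : ℤ) + W - ((z'.val : ℤ) + W) = z.val - z'.val := by ring
          rwa [e] at this
    rw [← ZMod.intCast_zmod_eq_zero_iff_dvd] at hdvd
    push_cast at hdvd
    rw [ZMod.natCast_zmod_val, ZMod.natCast_zmod_val] at hdvd
    exact sub_eq_zero.1 hdvd
  have hmaps : ∀ z ∈ {z : ZMod δ | z ^ 2 = E}, F z ∈
      ((δ.primeFactors.powerset ×ˢ (Finset.univ : Finset Bool) : Finset _) : Set _) := by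
    intro z _
    simp only [F, Finset.coe_product, Set.mem_prod, Finset.mem_coe, Finset.mem_powerset,
      Finset.mem_univ, and_true]
    exact Finset.filter_subset _ _
  have h1 := Set.ncard_le_ncard_of_injOn F hmaps hinj (Finset.finite_toSet _)
  rw [Set.ncard_coe_finset, Finset.card_product, Finset.card_powerset, Finset.card_univ,
    Fintype.card_bool] at h1
  rw [om, mul_comm]
  exact h1

/-- the number of classes -/
lemma good_count (δ : ℕ) [NeZero δ] (c β γ : ℤ) (hd : c * γ - β ^ 2 = δ)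
    (hc : IsCoprime c (2 * δ : ℤ)) (g C₀ : ℕ) (hg : Nat.Coprime g (2 * δ))
    (hC : Nat.Coprime C₀ (2 * δ)) :
    {κ : ZMod δ × ZMod δ | (g : ZMod δ) ^ 2 *
      (c * κ.1 ^ 2 + 2 * β * κ.1 * κ.2 + γ * κ.2 ^ 2) = C₀}.ncard ≤ 2 * 2 ^ om δ * δ := by
  have hcu : IsUnit (c : ZMod δ) := by
    rw [ZMod.coe_int_isUnit_iff_isCoprime]
    exact (IsCoprime.of_mul_right_right hc).symm
  obtain ⟨G, hG⟩ : IsUnit (g : ZMod δ) := by
    rw [ZMod.isUnit_iff_coprime]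
    exact Nat.Coprime.coprime_mul_left_right hg
  have hCu : IsUnit (C₀ : ZMod δ) := by
    rw [ZMod.isUnit_iff_coprime]
    exact Nat.Coprime.coprime_mul_left_right hC
  set E : ZMod δ := c * C₀ * ((G⁻¹ : (ZMod δ)ˣ) : ZMod δ) ^ 2 with hE
  have hEu : IsUnit E := (hcu.mul hCu).mul ((G⁻¹).isUnit.pow 2)
  have hd' : (c : ZMod δ) * γ - β ^ 2 = 0 := by
    have h := congrArg (fun a : ℤ => (a : ZMod δ)) hd
    push_cast at h
    rw [h, ZMod.natCast_self]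
  have hGi : (g : ZMod δ) * ((G⁻¹ : (ZMod δ)ˣ) : ZMod δ) = 1 := by
    rw [← hG, Units.mul_inv]
  have h1 : {κ : ZMod δ × ZMod δ | (g : ZMod δ) ^ 2 *
      (c * κ.1 ^ 2 + 2 * β * κ.1 * κ.2 + γ * κ.2 ^ 2) = C₀}.ncard ≤
      ({z : ZMod δ | z ^ 2 = E} ×ˢ (Set.univ : Set (ZMod δ))).ncard := by
    refine Set.ncard_le_ncard_of_injOn (fun κ => ((c : ZMod δ) * κ.1 + β * κ.2, κ.2)) ?_ ?_
      (Set.toFinite _)
    · intro κ hκ
      have hκ : (g : ZMod δ) ^ 2 * (c * κ.1 ^ 2 + 2 * β * κ.1 * κ.2 + γ * κ.2 ^ 2) = C₀ := hκ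
      refine ⟨?_, Set.mem_univ _⟩
      change ((c : ZMod δ) * κ.1 + β * κ.2) ^ 2 = E
      rw [hE, ← hκ]
      have e1 : (c : ZMod δ) * ((g : ZMod δ) ^ 2 *
          (c * κ.1 ^ 2 + 2 * β * κ.1 * κ.2 + γ * κ.2 ^ 2)) *
          ((G⁻¹ : (ZMod δ)ˣ) : ZMod δ) ^ 2 = ((g : ZMod δ) * ((G⁻¹ : (ZMod δ)ˣ) : ZMod δ)) ^ 2 *
            (c * (c * κ.1 ^ 2 + 2 * β * κ.1 * κ.2 + γ * κ.2 ^ 2)) := by ring
      rw [e1, hGi]
      linear_combination -κ.2 ^ 2 * hd'
    · intro κ _ κ' _ h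
      have h2 : κ.2 = κ'.2 := (Prod.ext_iff.1 h).2
      have h1 : (c : ZMod δ) * κ.1 + β * κ.2 = c * κ'.1 + β * κ'.2 := (Prod.ext_iff.1 h).1
      rw [h2] at h1
      exact Prod.ext (hcu.mul_left_cancel (add_right_cancel h1)) h2
  refine h1.trans ?_
  rw [Set.ncard_prod, Set.ncard_univ, Nat.card_zmod]
  exact Nat.mul_le_mul_right _ (sqrt_count δ E hEu)

end BinAux

open BinAux in
/-- LX-E8 BinCount.lean -/
theorem bin_count : ∃ K : ℝ, 0 < K ∧ ∀ (δ : ℕ) (c β γ : ℤ), 0 < δ → 0 < c → c * γ - β ^ 2 = δ →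
    IsCoprime c (2 * δ : ℤ) → ∀ (g C₀ : ℕ) (Y : ℝ), Nat.Coprime g (2 * δ) →
    Nat.Coprime C₀ (2 * δ) → 0 ≤ Y →
    {p : ℤ × ℤ | ((c * p.1 ^ 2 + 2 * β * p.1 * p.2 + γ * p.2 ^ 2 : ℤ) : ℝ) ≤ Y ∧
      (g ^ 2 * (c * p.1 ^ 2 + 2 * β * p.1 * p.2 + γ * p.2 ^ 2)) % (16 * δ) =
        C₀ % (16 * δ)}.Finite ∧
    ({p : ℤ × ℤ | ((c * p.1 ^ 2 + 2 * β * p.1 * p.2 + γ * p.2 ^ 2 : ℤ) : ℝ) ≤ Y ∧
      (g ^ 2 * (c * p.1 ^ 2 + 2 * β * p.1 * p.2 + γ * p.2 ^ 2)) % (16 * δ) =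
        C₀ % (16 * δ)}.ncard : ℝ) ≤
      K * 2 ^ om δ * (Y / (Real.sqrt δ * δ) + Real.sqrt Y + δ) := by
  classical
  refine ⟨12, by norm_num, ?_⟩
  intro δ c β γ hδ hc hd hcop g C₀ Y hg hC hY
  have : NeZero δ := ⟨hδ.ne'⟩
  obtain ⟨a, a', b, b', A, B', C, hdet, hA, hdd, hAδ, hform⟩ := exists_reduced c β γ δ hδ hc hd
  set S := {p : ℤ × ℤ | ((c * p.1 ^ 2 + 2 * β * p.1 * p.2 + γ * p.2 ^ 2 : ℤ) : ℝ) ≤ Y ∧
      (g ^ 2 * (c * p.1 ^ 2 + 2 * β * p.1 * p.2 + γ * p.2 ^ 2)) % (16 * δ) =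
        C₀ % (16 * δ)} with hS
  set Good := {κ : ZMod δ × ZMod δ | (g : ZMod δ) ^ 2 *
      (c * κ.1 ^ 2 + 2 * β * κ.1 * κ.2 + γ * κ.2 ^ 2) = C₀} with hGood
  have hGc := good_count δ c β γ hd hcop g C₀ hg hC
  set Gd : Finset (ZMod δ × ZMod δ) := (Set.toFinite Good).toFinset with hGd
  have hGdc : Gd.card ≤ 2 * 2 ^ om δ * δ := by
    rw [hGd, ← Set.ncard_eq_toFinset_card]
    exact hGc
  have hδz : (0 : ℤ) < δ := by exact_mod_cast hδ
  choose T hT hTc using fun κ : ZMod δ × ZMod δ => class_count A B' C δ hδ hA hdd δ hδz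
    (b' * (κ.1.val : ℤ) - b * (κ.2.val : ℤ)) (-a' * (κ.1.val : ℤ) + a * (κ.2.val : ℤ)) Y
  set U : Finset (ℤ × ℤ) := Gd.biUnion fun κ => (T κ).image
    fun P => (a * P.1 + b * P.2, a' * P.1 + b' * P.2) with hU
  have hSU : S ⊆ (U : Set (ℤ × ℤ)) := by
    rintro ⟨x, y⟩ ⟨h1, h2⟩
    rw [hU, Finset.mem_coe, Finset.mem_biUnion]
    refine ⟨((x : ZMod δ), (y : ZMod δ)), ?_, ?_⟩
    · rw [hGd, Set.Finite.mem_toFinset]
      change (g : ZMod δ) ^ 2 * (c * (x : ZMod δ) ^ 2 + 2 * β * (x : ZMod δ) * (y : ZMod δ) +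
        γ * (y : ZMod δ) ^ 2) = C₀
      have h3 : (g ^ 2 * (c * x ^ 2 + 2 * β * x * y + γ * y ^ 2) : ℤ) ≡ C₀ [ZMOD δ] :=
        Int.ModEq.of_mul_left 16 h2
      have h4 := (ZMod.intCast_eq_intCast_iff _ _ δ).2 h3
      push_cast at h4
      exact h4
    · rw [Finset.mem_image]
      have hx : (δ : ℤ) ∣ x - ((x : ZMod δ).val : ℤ) := by
        rw [← ZMod.intCast_zmod_eq_zero_iff_dvd]
        push_cast
        rw [ZMod.natCast_zmod_val, sub_self]
      have hy : (δ : ℤ) ∣ y - ((y : ZMod δ).val : ℤ) := by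
        rw [← ZMod.intCast_zmod_eq_zero_iff_dvd]
        push_cast
        rw [ZMod.natCast_zmod_val, sub_self]
      refine ⟨(b' * x - b * y, -a' * x + a * y), hT _ _ _ ?_ ?_ ?_, ?_⟩
      · rw [← hform]
        have e1 : a * (b' * x - b * y) + b * (-a' * x + a * y) = x := by
          linear_combination x * hdet
        have e2 : a' * (b' * x - b * y) + b' * (-a' * x + a * y) = y := by
          linear_combination y * hdet
        rw [e1, e2]
        exact h1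
      · have e1 : b' * x - b * y - (b' * ((x : ZMod δ).val : ℤ) - b * ((y : ZMod δ).val : ℤ)) =
            b' * (x - ((x : ZMod δ).val : ℤ)) - b * (y - ((y : ZMod δ).val : ℤ)) := by ring
        change (δ : ℤ) ∣ b' * x - b * y - (b' * ((x : ZMod δ).val : ℤ) - b * ((y : ZMod δ).val : ℤ))
        rw [e1]
        exact dvd_sub (hx.mul_left _) (hy.mul_left _)
      · have e1 : -a' * x + a * y - (-a' * ((x : ZMod δ).val : ℤ) + a * ((y : ZMod δ).val : ℤ)) =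
            -a' * (x - ((x : ZMod δ).val : ℤ)) + a * (y - ((y : ZMod δ).val : ℤ)) := by ring
        change (δ : ℤ) ∣ -a' * x + a * y - (-a' * ((x : ZMod δ).val : ℤ) + a * ((y : ZMod δ).val : ℤ))
        rw [e1]
        exact dvd_add (hx.mul_left _) (hy.mul_left _)
      · refine Prod.ext ?_ ?_
        · change a * (b' * x - b * y) + b * (-a' * x + a * y) = x
          linear_combination x * hdet
        · change a' * (b' * x - b * y) + b' * (-a' * x + a * y) = y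
          linear_combination y * hdet
  have hfin : S.Finite := (Finset.finite_toSet U).subset hSU
  refine ⟨hfin, ?_⟩
  have h1 : S.ncard ≤ U.card := by
    rw [← Set.ncard_coe_finset U]
    exact Set.ncard_le_ncard hSU (Finset.finite_toSet U)
  have hA' : (0 : ℝ) < A := by exact_mod_cast hA
  have hδ' : (0 : ℝ) < δ := by exact_mod_cast hδ
  set u := 2 * Real.sqrt (A * Y / δ) with hu
  set v := 2 * Real.sqrt (Y / A) with hv
  have h2 : (U.card : ℝ) ≤ (2 * 2 ^ om δ * δ) * ((u / δ + 1) * (v / δ + 1)) := by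
    have h3 : (U.card : ℝ) ≤ ∑ κ ∈ Gd, ((u / δ + 1) * (v / δ + 1)) := by
      refine le_trans (Nat.cast_le.2 Finset.card_biUnion_le) ?_
      push_cast
      refine Finset.sum_le_sum fun κ _ => le_trans (Nat.cast_le.2 Finset.card_image_le) ?_
      have := hTc κ
      rw [Int.cast_natCast] at this
      exact this
    refine h3.trans ?_
    rw [Finset.sum_const, nsmul_eq_mul]
    refine mul_le_mul_of_nonneg_right ?_ (by positivity)
    exact_mod_cast hGdc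
  have hA1 : (1 : ℝ) ≤ A := by exact_mod_cast hA
  have hAδ' : 3 * (A : ℝ) ^ 2 ≤ 4 * δ := by exact_mod_cast hAδ
  have hsY := Real.sqrt_nonneg Y
  -- the product `u v`
  have huv : u * v = 4 * (Y / Real.sqrt δ) := by
    have e1 : u * v = 4 * (Real.sqrt (A * Y / δ) * Real.sqrt (Y / A)) := by rw [hu, hv]; ring
    rw [e1, ← Real.sqrt_mul (by positivity)]
    have e2 : (A : ℝ) * Y / δ * (Y / A) = (Y / Real.sqrt δ) ^ 2 := by
      rw [div_pow, Real.sq_sqrt hδ'.le]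
      field_simp
    rw [e2, Real.sqrt_sq (by positivity)]
  have hu4 : u ≤ 4 * Real.sqrt Y := by
    have e1 : (A : ℝ) * Y / δ ≤ 2 ^ 2 * Y := by
      rw [div_le_iff₀ hδ']
      have : (A : ℝ) ≤ 4 * δ := by nlinarith
      nlinarith
    have e2 := Real.sqrt_le_sqrt e1
    rw [Real.sqrt_mul (by positivity), Real.sqrt_sq (by norm_num)] at e2
    rw [hu]
    linarith
  have hv2 : v ≤ 2 * Real.sqrt Y := by
    have e1 : Y / A ≤ Y := div_le_self hY hA1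
    have e2 := Real.sqrt_le_sqrt e1
    rw [hv]
    linarith
  have h3 : (δ : ℝ) * ((u / δ + 1) * (v / δ + 1)) = u * v / δ + u + v + δ := by
    field_simp
    ring
  have h4 : (δ : ℝ) * ((u / δ + 1) * (v / δ + 1)) ≤
      6 * (Y / (Real.sqrt δ * δ) + Real.sqrt Y + δ) := by
    rw [h3, huv]
    have e1 : 4 * (Y / Real.sqrt δ) / δ = 4 * (Y / (Real.sqrt δ * δ)) := by
      rw [mul_div_assoc, div_div]
    rw [e1]
    have e2 : 0 ≤ Y / (Real.sqrt δ * δ) := by positivity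
    linarith
  calc (S.ncard : ℝ) ≤ U.card := by exact_mod_cast h1
    _ ≤ (2 * 2 ^ om δ * δ) * ((u / δ + 1) * (v / δ + 1)) := h2
    _ = 2 * 2 ^ om δ * (δ * ((u / δ + 1) * (v / δ + 1))) := by ring
    _ ≤ 2 * 2 ^ om δ * (6 * (Y / (Real.sqrt δ * δ) + Real.sqrt Y + δ)) :=
        mul_le_mul_of_nonneg_left h4 (by positivity)
    _ = 12 * 2 ^ om δ * (Y / (Real.sqrt δ * δ) + Real.sqrt Y + δ) := by ring

end Pool.Agent.LX
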