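import Pool.Agent.LX.Defs

set_option autoImplicit false

open Matrix

namespace Pool.Agent.LX

lemma divdet_castB {R : Type*} [CommRing R] (x y : Fin 4 → ℤ) :
    B (toR x : Fin 4 → R) (toR y) = ((B x y : ℤ) : R) := by
  simp [B, toR]

/-- If the rows `u, x₁, x₂, z` are orthogonal to `z` and `B y z = 1`, the Gram determinant of
`u, x₁, x₂` vanishes. -/
lemma divdet_aux {R : Type*} [CommRing R] (u x₁ x₂ z y : Fin 4 → R) (hQ : B z z = 0)
    (hu : B u z = 0) (h₁ : B x₁ z = 0) (h₂ : B x₂ z = 0) (hy : B y z = 1) :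
    B u u * (B x₁ x₁ * B x₂ x₂ - B x₁ x₂ ^ 2) - B u x₁ * (B u x₁ * B x₂ x₂ - B u x₂ * B x₁ x₂)
      + B u x₂ * (B u x₁ * B x₁ x₂ - B u x₂ * B x₁ x₁) = 0 := by
  set X : Matrix (Fin 4) (Fin 4) R := Matrix.of ![u, x₁, x₂, z] with hX
  set Y : Matrix (Fin 4) (Fin 4) R := Matrix.of ![u, x₁, x₂, y] with hY
  set g : Fin 4 → R := ![z 0, z 1, z 2, 2 * z 3] with hg
  set G : Matrix (Fin 4) (Fin 4) R := Matrix.diagonal ![1, 1, 1, 2] with hG
  have hXg : X *ᵥ g = 0 := by
    funext i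
    fin_cases i
    · simp only [B] at hu
      simp [hX, hg, Matrix.mulVec, dotProduct, Fin.sum_univ_four]
      linear_combination hu
    · simp only [B] at h₁
      simp [hX, hg, Matrix.mulVec, dotProduct, Fin.sum_univ_four]
      linear_combination h₁
    · simp only [B] at h₂
      simp [hX, hg, Matrix.mulVec, dotProduct, Fin.sum_univ_four]
      linear_combination h₂
    · simp only [B] at hQ
      simp [hX, hg, Matrix.mulVec, dotProduct, Fin.sum_univ_four]
      linear_combination hQ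
  have hdet0 : X.det • g = 0 := by
    have h := congrArg (fun v => X.adjugate *ᵥ v) hXg
    simp only [Matrix.mulVec_mulVec, Matrix.adjugate_mul, Matrix.mulVec_zero,
      Matrix.smul_mulVec, Matrix.one_mulVec] at h
    exact h
  have hdet : X.det = 0 := by
    have h0 := congrFun hdet0 0
    have h1 := congrFun hdet0 1
    have h2 := congrFun hdet0 2
    have h3 := congrFun hdet0 3
    simp [hg] at h0 h1 h2 h3
    simp only [B] at hy
    linear_combination (-X.det) * hy + y 0 * h0 + y 1 * h1 + y 2 * h2 + y 3 * h3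
  have hN : (X * G * Yᵀ).det = 0 := by
    rw [Matrix.det_mul, Matrix.det_mul, hdet, zero_mul, zero_mul]
  have hent : ∀ i j, (X * G * Yᵀ) i j = B (X i) (Y j) := by
    intro i j
    simp [hG, Matrix.mul_apply, Matrix.diagonal, Fin.sum_univ_four, B]
    ring
  rw [Matrix.det_succ_row (X * G * Yᵀ) 3, Fin.sum_univ_four, Matrix.det_fin_three,
    Matrix.det_fin_three, Matrix.det_fin_three, Matrix.det_fin_three] at hN
  simp only [Matrix.submatrix_apply, hent] at hN
  have hu' : B z u = 0 := by rw [← hu]; simp only [B]; ring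
  have h₁' : B z x₁ = 0 := by rw [← h₁]; simp only [B]; ring
  have h₂' : B z x₂ = 0 := by rw [← h₂]; simp only [B]; ring
  have hy' : B z y = 1 := by rw [← hy]; simp only [B]; ring
  have s1 : B x₁ u = B u x₁ := by simp only [B]; ring
  have s2 : B x₂ u = B u x₂ := by simp only [B]; ring
  have s3 : B x₂ x₁ = B x₁ x₂ := by simp only [B]; ring
  have r0 : X 3 = z := rfl
  have c0 : Y 0 = u := rfl
  have c1 : Y 1 = x₁ := rfl
  have c2 : Y 2 = x₂ := rfl
  have c3 : Y 3 = y := rfl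
  rw [r0, c0, c1, c2, c3, hu', h₁', h₂', hy'] at hN
  have q0 : X ((3 : Fin 4).succAbove 0) = u := rfl
  have q1 : X ((3 : Fin 4).succAbove 1) = x₁ := rfl
  have q2 : X ((3 : Fin 4).succAbove 2) = x₂ := rfl
  have p0 : Y ((3 : Fin 4).succAbove 0) = u := rfl
  have p1 : Y ((3 : Fin 4).succAbove 1) = x₁ := rfl
  have p2 : Y ((3 : Fin 4).succAbove 2) = x₂ := rfl
  rw [q0, q1, q2, p0, p1, p2, s1, s2, s3] at hN
  simp at hN
  linear_combination hN

/-- LX-B6 DivDet.lean -/
theorem div_det (q : ℕ) (hq : Odd q) (u x₁ x₂ : Fin 4 → ℤ) (z : Fin 4 → ZMod q)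
    (hz : CodeZ q u z) (h₁ : B (toR x₁) z = 0) (h₂ : B (toR x₂) z = 0) :
    (q : ℤ) ∣ Q u * (Q x₁ * Q x₂ - B x₁ x₂ ^ 2) - B u x₁ * (B u x₁ * Q x₂ - B u x₂ * B x₁ x₂)
      + B u x₂ * (B u x₁ * B x₁ x₂ - B u x₂ * Q x₁) := by
  obtain ⟨hQ, hu, y, hy⟩ := hz
  have := divdet_aux (toR u) (toR x₁) (toR x₂) z y hQ hu h₁ h₂ hy
  simp only [divdet_castB] at this
  rw [← ZMod.intCast_zmod_eq_zero_iff_dvd]
  simp only [Q]
  push_cast
  linear_combination this

end Pool.Agent.LX
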