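import Pool.Agent.LX.CodesX
import Pool.Agent.LX.DivDet
import Pool.Agent.LX.Avoid

set_option autoImplicit false

/-!
The double counting argument of Linnik's method.
-/

open Matrix

namespace Pool.Agent.LX

theorem cs_B_hat (w x : Fin 4 → ℤ) : B (hat w) x = 2 * dot w x := by
  simp only [B, hat, dot]
  simp
  ring

theorem cs_Q_hat (w : Fin 4 → ℤ) : Q (hat w) = 2 * Qs w := by
  simp only [Q, B, hat, Qs]
  simp
  ring

theorem cs_B_toR {R : Type*} [CommRing R] (x y : Fin 4 → ℤ) :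
    B (toR x : Fin 4 → R) (toR y) = ((B x y : ℤ) : R) := by
  simp only [B, toR]
  push_cast
  ring

theorem cs_finite_norm (n : ℤ) : {x : Fin 4 → ℤ | Q x = n}.Finite := by
  refine Set.Finite.subset (Set.finite_Icc (fun _ : Fin 4 => -n) (fun _ => n)) ?_
  intro x hx
  simp only [Set.mem_ofPred_eq, Q, B] at hx
  have key : ∀ i, x i ^ 2 ≤ n := by
    intro i
    fin_cases i <;> simp only [Fin.zero_eta, Fin.mk_one, Fin.reduceFinMk] <;>
      nlinarith [sq_nonneg (x 0), sq_nonneg (x 1), sq_nonneg (x 2), sq_nonneg (x 3)]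
  constructor
  · intro i
    show -n ≤ x i
    have := key i
    rcases le_or_gt 0 (x i) with h | h
    · nlinarith
    · nlinarith
  · intro i
    show x i ≤ n
    have := key i
    rcases le_or_gt (x i) 0 with h | h
    · nlinarith [sq_nonneg (x i)]
    · nlinarith

/-- Double counting with Cauchy-Schwarz. -/
theorem cs_count {α β : Type*} [DecidableEq α] [DecidableEq β] (R : Finset α) (Z : Finset β)
    (E : α → Finset β) (hE : ∀ x ∈ R, E x ⊆ Z) (m M : ℕ) (hm : ∀ x ∈ R, m ≤ (E x).card)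
    (hM : ∀ x ∈ R, (E x).card ≤ M) :
    (R.card * m) ^ 2 ≤ Z.card * (M * ((R ×ˢ R).filter (fun p => (E p.1 ∩ E p.2).Nonempty)).card) := by
  have h1 : R.card * m ≤ ∑ x ∈ R, (E x).card := by
    calc R.card * m = ∑ x ∈ R, m := by simp
      _ ≤ _ := Finset.sum_le_sum hm
  have h2 : ∑ x ∈ R, (E x).card = ∑ z ∈ Z, (R.filter (fun x => z ∈ E x)).card := by
    calc ∑ x ∈ R, (E x).card = ∑ x ∈ R, ∑ z ∈ Z, if z ∈ E x then 1 else 0 := by
          refine Finset.sum_congr rfl (fun x hx => ?_)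
          rw [← Finset.card_filter]
          congr 1
          ext z
          simp only [Finset.mem_filter]
          exact ⟨fun h => ⟨hE x hx h, h⟩, fun h => h.2⟩
      _ = ∑ z ∈ Z, ∑ x ∈ R, if z ∈ E x then 1 else 0 := Finset.sum_comm
      _ = _ := by
          refine Finset.sum_congr rfl (fun z _ => ?_)
          rw [← Finset.card_filter]
  have h3 : (∑ z ∈ Z, (R.filter (fun x => z ∈ E x)).card) ^ 2 ≤
      Z.card * ∑ z ∈ Z, (R.filter (fun x => z ∈ E x)).card ^ 2 :=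
    sq_sum_le_card_mul_sum_sq
  have h4 : ∑ z ∈ Z, (R.filter (fun x => z ∈ E x)).card ^ 2 =
      ∑ p ∈ R ×ˢ R, (E p.1 ∩ E p.2).card := by
    calc ∑ z ∈ Z, (R.filter (fun x => z ∈ E x)).card ^ 2
        = ∑ z ∈ Z, ∑ p ∈ R ×ˢ R, if z ∈ E p.1 ∩ E p.2 then 1 else 0 := by
          refine Finset.sum_congr rfl (fun z _ => ?_)
          rw [← Finset.card_filter, sq, ← Finset.card_product]
          congr 1
          ext p
          simp only [Finset.mem_product, Finset.mem_filter, Finset.mem_inter]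
          tauto
      _ = ∑ p ∈ R ×ˢ R, ∑ z ∈ Z, if z ∈ E p.1 ∩ E p.2 then 1 else 0 := Finset.sum_comm
      _ = _ := by
          refine Finset.sum_congr rfl (fun p hp => ?_)
          rw [← Finset.card_filter]
          congr 1
          ext z
          simp only [Finset.mem_filter, Finset.mem_inter]
          rw [Finset.mem_product] at hp
          exact ⟨fun h => h.2, fun h => ⟨hE _ hp.1 h.1, h⟩⟩
  have h5 : ∑ p ∈ R ×ˢ R, (E p.1 ∩ E p.2).card ≤
      M * ((R ×ˢ R).filter (fun p => (E p.1 ∩ E p.2).Nonempty)).card := by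
    calc ∑ p ∈ R ×ˢ R, (E p.1 ∩ E p.2).card
        ≤ ∑ p ∈ R ×ˢ R, if (E p.1 ∩ E p.2).Nonempty then M else 0 := by
          refine Finset.sum_le_sum (fun p hp => ?_)
          rw [Finset.mem_product] at hp
          split_ifs with hne
          · exact (Finset.card_le_card Finset.inter_subset_left).trans (hM _ hp.1)
          · rw [Finset.not_nonempty_iff_eq_empty] at hne
            rw [hne]
            simp
      _ = _ := by
          rw [← Finset.sum_filter, Finset.sum_const, smul_eq_mul, mul_comm]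
  calc (R.card * m) ^ 2 ≤ (∑ x ∈ R, (E x).card) ^ 2 := Nat.pow_le_pow_left h1 2
    _ ≤ Z.card * ∑ z ∈ Z, (R.filter (fun x => z ∈ E x)).card ^ 2 := by rw [h2]; exact h3
    _ ≤ _ := by
        rw [h4]
        exact Nat.mul_le_mul_left _ h5

/-- LX-H2 CSStep.lean -/
theorem cs_step (w₀ : Fin 4 → ℤ) (P ρ : ℕ) (hP : Odd P) (hP1 : 1 < P) (hsq : Squarefree P)
    (hc : IsCoprime (Qs w₀) (P : ℤ)) (hC : ConnP w₀ P ρ) (w : Fin 4 → ℤ) (h₀ : InW w₀ w₀)
    (hw : InW w₀ w) (n s : ℤ) (hn : 0 < n)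
    (hD : IsCoprime (Qs w₀ * n - 2 * s ^ 2) (P : ℤ))
    (hr : ∀ p : ℕ, p.Prime → p ∣ P → ∃ r : ℤ, (p : ℤ) ∣ r ^ 2 + (Qs w₀ * n - 2 * s ^ 2))
    (hno : ¬ ∃ x : Fin 4 → ℤ, Q x = n ∧ dot w₀ x = s) (b : ℕ) :
    ((Rset w n s).ncard : ℝ) ^ 2 ≤ (P : ℝ) ^ (1 + b * (2 * ρ + 1) + 7) *
      (1 - 1 / (P : ℝ) ^ (2 * ρ + 1)) ^ b *
      ({p : (Fin 4 → ℤ) × (Fin 4 → ℤ) | p.1 ∈ Rset w n s ∧ p.2 ∈ Rset w n s ∧
        (P : ℤ) ^ (1 + b * (2 * ρ + 1)) ∣
          (n - B p.1 p.2) * (Qs w₀ * (n + B p.1 p.2) - 4 * s ^ 2)}.ncard : ℝ) := by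
  classical
  set h : ℕ := 2 * ρ + 1 with hh
  set q : ℕ := P ^ (1 + b * h) with hq
  have hQw : Qs w = Qs w₀ := hw.2.1
  have : NeZero q := ⟨by rw [hq]; positivity⟩
  have hqodd : Odd q := hP.pow
  have h2P : IsCoprime (2 : ℤ) (P : ℤ) := by
    rw [Int.isCoprime_iff_gcd_eq_one]
    have := hP.coprime_two_left
    simpa [Int.gcd] using this
  have h2q : IsCoprime (q : ℤ) (2 : ℤ) := by
    rw [hq]; push_cast
    exact IsCoprime.pow_left h2P.symm
  have hRfin : (Rset w n s).Finite := (cs_finite_norm n).subset (fun x hx => hx.1)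
  set RF : Finset (Fin 4 → ℤ) := hRfin.toFinset with hRF
  set E : (Fin 4 → ℤ) → Finset (Fin 4 → ZMod q) := fun x =>
    Finset.univ.filter (fun z => CodeZ q (hat w) z ∧ B (toR x) z = 0) with hE
  set Z : Finset (Fin 4 → ZMod q) :=
    Finset.univ.filter (fun z => z ∈ AV q (hat w₀) (hat w)) with hZ
  -- the codes of `x`
  have hcodes : ∀ x ∈ RF, P ^ (b * h) ≤ (E x).card ∧ (E x).card ≤ P ^ (1 + b * h + 3) := by
    intro x hx
    rw [hRF, Set.Finite.mem_toFinset] at hx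
    have hxQ : Q x = n := hx.1
    have hxd : dot w x = s := hx.2.1
    have e1 : Q (hat w) * Q x - B (hat w) x ^ 2 = 2 * (Qs w₀ * n - 2 * s ^ 2) := by
      rw [cs_Q_hat, cs_B_hat, hxQ, hxd, hQw]; ring
    have key := codes_x P hP hP1 hsq (hat w) x
      (by rw [cs_Q_hat, hQw]; exact h2P.mul_left hc)
      (by rw [e1]; exact h2P.mul_left hD)
      (by
        intro p hp hpP
        obtain ⟨r, hr'⟩ := hr p hp hpP
        refine ⟨2 * r, ?_⟩
        rw [e1]
        have : (2 * r) ^ 2 + 2 * (2 * (Qs w₀ * n - 2 * s ^ 2)) =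
          4 * (r ^ 2 + (Qs w₀ * n - 2 * s ^ 2)) := by ring
        rw [this]
        exact Dvd.dvd.mul_left hr' 4)
      (1 + b * h) (by omega)
    have e2 : {z : Fin 4 → ZMod (P ^ (1 + b * h)) |
        CodeZ (P ^ (1 + b * h)) (hat w) z ∧ B (toR x) z = 0}.ncard = (E x).card := by
      rw [← Set.ncard_coe_finset]
      congr 1
      ext z
      exact ⟨fun h => Finset.mem_coe.2 (Finset.mem_filter.2 ⟨Finset.mem_univ _, h⟩),
        fun h => (Finset.mem_filter.1 (Finset.mem_coe.1 h)).2⟩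
    rw [e2] at key
    have e3 : 1 + b * h - 1 = b * h := by omega
    rw [e3] at key
    exact key
  -- they avoid `w₀`
  have hEZ : ∀ x ∈ RF, E x ⊆ Z := by
    intro x hx z hz
    rw [hRF, Set.Finite.mem_toFinset] at hx
    simp only [hE, Finset.mem_filter, Finset.mem_univ, true_and] at hz
    simp only [hZ, Finset.mem_filter, Finset.mem_univ, true_and, AV, Set.mem_ofPred_eq]
    refine ⟨hz.1, ?_⟩
    rintro ⟨A, hA, hA0, hAi⟩
    obtain ⟨x', hx'⟩ := hAi x hz.2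
    apply hno
    refine ⟨x', ?_, ?_⟩
    · have := hA (toR x) (toR x)
      rw [hx', cs_B_toR, cs_B_toR] at this
      have h1 : B x' x' = B x x := by exact_mod_cast this
      show B x' x' = n
      rw [h1]; exact hx.1
    · have := hA (toR (hat w)) (toR x)
      rw [hx', hA0, cs_B_toR, cs_B_toR] at this
      have h1 : B (hat w₀) x' = B (hat w) x := by exact_mod_cast this
      rw [cs_B_hat, cs_B_hat, hx.2.1] at h1
      linarith
  have main := cs_count RF Z E hEZ (P ^ (b * h)) (P ^ (1 + b * h + 3))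
    (fun x hx => (hcodes x hx).1) (fun x hx => (hcodes x hx).2)
  have hZcard : Z.card ≤ P ^ 4 * (P ^ (2 * h) - P ^ h) ^ b := by
    have := avoid_bound w₀ P ρ hP hP1 hc hC w h₀ hw b
    rw [← hh] at this
    have e2 : (AV (P ^ (1 + b * h)) (hat w₀) (hat w)).ncard = Z.card := by
      rw [← Set.ncard_coe_finset]
      congr 1
      ext z
      exact ⟨fun h => Finset.mem_coe.2 (Finset.mem_filter.2 ⟨Finset.mem_univ _, h⟩),
        fun h => (Finset.mem_filter.1 (Finset.mem_coe.1 h)).2⟩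
    rw [e2] at this
    exact this
  -- pairs
  set T : Set ((Fin 4 → ℤ) × (Fin 4 → ℤ)) := {p | p.1 ∈ Rset w n s ∧ p.2 ∈ Rset w n s ∧
        (P : ℤ) ^ (1 + b * h) ∣
          (n - B p.1 p.2) * (Qs w₀ * (n + B p.1 p.2) - 4 * s ^ 2)} with hT
  have hTfin : T.Finite := by
    refine Set.Finite.subset (hRfin.prod hRfin) ?_
    rintro p hp
    exact ⟨hp.1, hp.2.1⟩
  have hpairs : ((RF ×ˢ RF).filter (fun p => (E p.1 ∩ E p.2).Nonempty)).card ≤ T.ncard := by
    rw [← Set.ncard_coe_finset]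
    refine Set.ncard_le_ncard ?_ hTfin
    intro p hp
    rw [Finset.mem_coe, Finset.mem_filter, Finset.mem_product] at hp
    obtain ⟨⟨h1, h2⟩, z, hz⟩ := hp
    rw [hRF, Set.Finite.mem_toFinset] at h1 h2
    simp only [hE, Finset.mem_inter, Finset.mem_filter, Finset.mem_univ, true_and] at hz
    refine ⟨h1, h2, ?_⟩
    have hdd := div_det q hqodd (hat w) p.1 p.2 z hz.1.1 hz.1.2 hz.2.2
    have e1 : Q p.1 = n := h1.1
    have e2 : Q p.2 = n := h2.1
    have e3 : B (hat w) p.1 = 2 * s := by rw [cs_B_hat, h1.2.1]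
    have e4 : B (hat w) p.2 = 2 * s := by rw [cs_B_hat, h2.2.1]
    rw [e1, e2, e3, e4, cs_Q_hat, hQw] at hdd
    have e5 : 2 * Qs w₀ * (n * n - B p.1 p.2 ^ 2) - 2 * s * (2 * s * n - 2 * s * B p.1 p.2) +
        2 * s * (2 * s * B p.1 p.2 - 2 * s * n) =
        2 * ((n - B p.1 p.2) * (Qs w₀ * (n + B p.1 p.2) - 4 * s ^ 2)) := by ring
    rw [e5] at hdd
    have := h2q.dvd_of_dvd_mul_left hdd
    rw [hq] at this
    exact_mod_cast this
  -- conclusion
  have hfin : ((Rset w n s).ncard * P ^ (b * h)) ^ 2 ≤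
      (P ^ 4 * (P ^ (2 * h) - P ^ h) ^ b) * (P ^ (1 + b * h + 3) * T.ncard) := by
    have e1 : (Rset w n s).ncard = RF.card := by
      rw [hRF, Set.ncard_eq_toFinset_card _ hRfin]
    rw [e1]
    refine main.trans ?_
    exact Nat.mul_le_mul hZcard (Nat.mul_le_mul_left _ hpairs)
  have hPpos : (0 : ℝ) < P := by
    have : 0 < P := by omega
    exact_mod_cast this
  have hle : P ^ h ≤ P ^ (2 * h) := Nat.pow_le_pow_right (by omega) (by omega)
  have hfinR : (((Rset w n s).ncard : ℝ) * (P : ℝ) ^ (b * h)) ^ 2 ≤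
      ((P : ℝ) ^ 4 * ((P : ℝ) ^ (2 * h) - (P : ℝ) ^ h) ^ b) *
        ((P : ℝ) ^ (1 + b * h + 3) * (T.ncard : ℝ)) := by
    have := (Nat.cast_le (α := ℝ)).2 hfin
    push_cast [Nat.cast_sub hle] at this
    exact this
  have hθ : ((P : ℝ) ^ (2 * h) - (P : ℝ) ^ h) ^ b =
      (P : ℝ) ^ (2 * (b * h)) * (1 - 1 / (P : ℝ) ^ h) ^ b := by
    have : (P : ℝ) ^ (2 * h) - (P : ℝ) ^ h = (P : ℝ) ^ (2 * h) * (1 - 1 / (P : ℝ) ^ h) := by
      field_simp
      ring
    rw [this, mul_pow, ← pow_mul]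
    congr 2
    ring
  rw [hθ] at hfinR
  have hpp : (0 : ℝ) < (P : ℝ) ^ (2 * (b * h)) := by positivity
  have e6 : (((Rset w n s).ncard : ℝ) * (P : ℝ) ^ (b * h)) ^ 2 =
      (P : ℝ) ^ (2 * (b * h)) * ((Rset w n s).ncard : ℝ) ^ 2 := by
    ring
  have e7 : (P : ℝ) ^ 4 * ((P : ℝ) ^ (2 * (b * h)) * (1 - 1 / (P : ℝ) ^ h) ^ b) *
        ((P : ℝ) ^ (1 + b * h + 3) * (T.ncard : ℝ)) =
      (P : ℝ) ^ (2 * (b * h)) * ((P : ℝ) ^ (1 + b * h + 7) * (1 - 1 / (P : ℝ) ^ h) ^ b *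
        (T.ncard : ℝ)) := by
    ring
  rw [e6, e7] at hfinR
  exact le_of_mul_le_mul_left hfinR hpp

end Pool.Agent.LX
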