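import Pool.Agent.LX.Defs

set_option autoImplicit false

namespace Pool.Agent.LX

/-- LX-E1 -/
theorem chi_mul (D a b : ℕ) : chi D (a * b) = chi D a * chi D b := by
  unfold chi
  by_cases ha : Odd a
  · by_cases hb : Odd b
    · have ha0 : a ≠ 0 := by rintro rfl; simp at ha
      have hb0 : b ≠ 0 := by rintro rfl; simp at hb
      rw [if_pos ha, if_pos hb, if_pos (ha.mul hb), jacobiSym.mul_right' _ ha0 hb0]
    · rw [if_neg hb, if_neg (fun h => hb (Nat.odd_mul.1 h).2), mul_zero]
  · rw [if_neg ha, if_neg (fun h => ha (Nat.odd_mul.1 h).1), zero_mul]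

private theorem chi_odd_add (D k : ℕ) : Odd (k + 4 * D) ↔ Odd k := by
  rw [Nat.odd_iff, Nat.odd_iff]; omega

/-- LX-E1 -/
theorem chi_add (D k : ℕ) (hD : 1 ≤ D) : chi D (k + 4 * D) = chi D k := by
  unfold chi
  by_cases hk : Odd k
  · rw [if_pos hk, if_pos ((chi_odd_add D k).2 hk), jacobiSym.mod_right _ ((chi_odd_add D k).2 hk),
      jacobiSym.mod_right _ hk]
    have e : (-(D : ℤ)).natAbs = D := by simp
    rw [e, Nat.add_mod_right]
  · rw [if_neg hk, if_neg (fun h => hk ((chi_odd_add D k).1 h))]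

/-- LX-E1 -/
theorem chi_abs (D k : ℕ) : |chi D k| ≤ 1 := by
  unfold chi
  split_ifs
  · rcases jacobiSym.trichotomy (-(D : ℤ)) k with h | h | h <;> rw [h] <;> simp
  · simp

/-- LX-E1 -/
theorem chi_ne_zero_iff (D k : ℕ) (hD : 1 ≤ D) : chi D k ≠ 0 ↔ Nat.Coprime k (2 * D) := by
  unfold chi
  by_cases hk : Odd k
  · have hk0 : k ≠ 0 := by rintro rfl; simp at hk
    rw [if_pos hk, Ne, jacobiSym.eq_zero_iff]
    have e : (-(D : ℤ)).gcd k = Nat.gcd D k := by
      rw [Int.gcd, Int.natAbs_neg, Int.natAbs_natCast, Int.natAbs_natCast]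
    rw [e]
    constructor
    · intro h
      have h1 : Nat.gcd D k = 1 := by
        by_contra h2; exact h ⟨hk0, h2⟩
      refine Nat.Coprime.mul_right (Nat.coprime_two_right.2 hk) ?_
      rw [Nat.Coprime, Nat.gcd_comm]; exact h1
    · intro h h'
      have h2 : Nat.Coprime k D := Nat.Coprime.coprime_mul_left_right h
      apply h'.2
      rw [Nat.gcd_comm]; exact h2
  · rw [if_neg hk]
    constructor
    · intro h; exact absurd rfl h
    · intro h
      exact absurd (Nat.coprime_two_right.1 (Nat.Coprime.coprime_mul_right_right h)) hk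

/-- LX-E1 -/
theorem chi_four (D k : ℕ) : chi (4 * D) k = chi D k := by
  unfold chi
  by_cases hk : Odd k
  · rw [if_pos hk, if_pos hk]
    have e : (-((4 * D : ℕ) : ℤ)) = 4 * -(D : ℤ) := by push_cast; ring
    rw [e, jacobiSym.mul_left, jacobiSym.at_four hk, one_mul]
  · rw [if_neg hk, if_neg hk]

private theorem chi_add_mul (D k m : ℕ) (hD : 1 ≤ D) : chi D (k + 4 * D * m) = chi D k := by
  induction m with
  | zero => simp
  | succ m ih =>
    rw [show k + 4 * D * (m + 1) = (k + 4 * D * m) + 4 * D by ring, chi_add D _ hD, ih]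

private theorem chi_last (D : ℕ) (hD : 1 ≤ D) : chi D (4 * D - 1) = -1 := by
  have hodd : Odd (4 * D - 1) := by rw [Nat.odd_iff]; omega
  have h4 : (4 * D - 1) % 4 = 3 := by omega
  rw [← chi_four]
  unfold chi
  rw [if_pos hodd]
  have e : jacobiSym (-((4 * D : ℕ) : ℤ)) (4 * D - 1) = jacobiSym (-1) (4 * D - 1) := by
    apply jacobiSym.mod_left'
    have : ((4 * D - 1 : ℕ) : ℤ) = 4 * D - 1 := by
      rw [Nat.cast_sub (by omega)]; push_cast; ring
    rw [this]
    have h2 : (-((4 * D : ℕ) : ℤ)) = -1 + (4 * (D : ℤ) - 1) * (-1) := by push_cast; ring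
    rw [h2, Int.add_mul_emod_self_left]
  rw [e, jacobiSym.at_neg_one hodd]
  exact ZMod.χ₄_nat_three_mod_four h4

private theorem chi_neg (D k : ℕ) (hD : 1 ≤ D) (hk : 1 ≤ k) (hk2 : k ≤ 4 * D) :
    chi D (4 * D - k) = -chi D k := by
  have h1 : chi D ((4 * D - 1) * k) = -chi D k := by
    rw [chi_mul, chi_last D hD, neg_one_mul]
  rw [← h1]
  have e : (4 * D - 1) * k = (4 * D - k) + 4 * D * (k - 1) := by
    zify [show 1 ≤ 4 * D by omega, hk2, hk]
    ring
  rw [e, chi_add_mul D _ _ hD]

private theorem chi_zero (D : ℕ) : chi D 0 = 0 := by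
  unfold chi; simp

private theorem chi_period (D : ℕ) (hD : 1 ≤ D) : ∑ k ∈ Finset.range (4 * D), chi D k = 0 := by
  have h0 : ∑ k ∈ Finset.range (4 * D), chi D k = ∑ k ∈ Finset.range (4 * D + 1), chi D k := by
    rw [Finset.sum_range_succ]
    have := chi_add D 0 hD
    rw [zero_add, chi_zero] at this
    rw [this, add_zero]
  rw [h0]
  have h1 : ∑ k ∈ Finset.range (4 * D + 1), chi D k
      = -∑ k ∈ Finset.range (4 * D + 1), chi D k := by
    conv_lhs => rw [← Finset.sum_range_reflect]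
    rw [← Finset.sum_neg_distrib]
    apply Finset.sum_congr rfl
    intro k hk
    rw [Finset.mem_range] at hk
    have e : 4 * D + 1 - 1 - k = 4 * D - k := by omega
    rw [e]
    rcases Nat.eq_zero_or_pos k with rfl | hk0
    · have := chi_add D 0 hD
      rw [zero_add, chi_zero] at this
      rw [Nat.sub_zero, this, chi_zero, neg_zero]
    · exact chi_neg D k hD hk0 (by omega)
  linarith

private theorem chi_window (D a : ℕ) (hD : 1 ≤ D) :
    ∑ k ∈ Finset.range (4 * D), chi D (a + k) = 0 := by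
  induction a with
  | zero => simpa using chi_period D hD
  | succ a ih =>
    have h1 : ∑ k ∈ Finset.range (4 * D + 1), chi D (a + k)
        = ∑ k ∈ Finset.range (4 * D), chi D (a + k) + chi D (a + 4 * D) :=
      Finset.sum_range_succ _ _
    have h2 : ∑ k ∈ Finset.range (4 * D + 1), chi D (a + k)
        = ∑ k ∈ Finset.range (4 * D), chi D (a + (k + 1)) + chi D (a + 0) :=
      Finset.sum_range_succ' _ _
    rw [chi_add D a hD] at h1
    have h3 : ∑ k ∈ Finset.range (4 * D), chi D (a + 1 + k)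
        = ∑ k ∈ Finset.range (4 * D), chi D (a + (k + 1)) :=
      Finset.sum_congr rfl fun k _ => by rw [show a + 1 + k = a + (k + 1) by ring]
    rw [h3]
    rw [add_zero] at h2
    linarith

private theorem chi_short (D a n : ℕ) : |∑ k ∈ Finset.range n, chi D (a + k)| ≤ n := by
  calc |∑ k ∈ Finset.range n, chi D (a + k)| ≤ ∑ k ∈ Finset.range n, |chi D (a + k)| :=
        Finset.abs_sum_le_sum_abs _ _
    _ ≤ ∑ k ∈ Finset.range n, (1 : ℤ) := Finset.sum_le_sum fun k _ => chi_abs D _
    _ = n := by simp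

private theorem chi_range_le (D : ℕ) (hD : 1 ≤ D) : ∀ n a : ℕ,
    |∑ k ∈ Finset.range n, chi D (a + k)| ≤ 4 * D := by
  intro n
  induction n using Nat.strong_induction_on with
  | _ n ih =>
    intro a
    rcases lt_or_ge n (4 * D) with h | h
    · refine (chi_short D a n).trans ?_
      exact_mod_cast h.le
    · obtain ⟨m, rfl⟩ := Nat.exists_eq_add_of_le h
      rw [Finset.sum_range_add, chi_window D a hD, zero_add]
      have h1 := ih m (by omega) (a + 4 * D)
      have e : ∑ k ∈ Finset.range m, chi D (a + (4 * D + k))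
          = ∑ k ∈ Finset.range m, chi D (a + 4 * D + k) :=
        Finset.sum_congr rfl fun k _ => by rw [add_assoc]
      rw [e]
      exact h1

/-- LX-E1 -/
theorem chi_sum_le (D a b : ℕ) (hD : 1 ≤ D) : |∑ k ∈ Finset.Ico a b, chi D k| ≤ 4 * D := by
  rw [Finset.sum_Ico_eq_sum_range]
  exact chi_range_le D hD _ _

end Pool.Agent.LX
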