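import Pool.Agent.LX.Defs

set_option autoImplicit false

/-!
The choice of the value `s` of the linear form: congruence conditions at `2`, at the odd part of
`Qs w₀` and at the primes dividing `P`.
-/

namespace Pool.Agent.LX

/-- The local condition at a prime `p = ±1 mod 8`. -/
theorem cs_local (p : ℕ) [Fact p.Prime] (h8 : p % 8 = 1 ∨ p % 8 = 7) (N : ℤ) :
    ∃ a : ℕ, ∀ t : ℤ, (t : ZMod p) = (a : ZMod p) →
      ¬ (p : ℤ) ∣ N - 2 * t ^ 2 ∧ ∃ r : ℤ, (p : ℤ) ∣ r ^ 2 + (N - 2 * t ^ 2) := by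
  have hp : p.Prime := Fact.out
  have hp2 : p ≠ 2 := by rintro rfl; omega
  have hp3 : p ≠ 3 := by rintro rfl; omega
  have h2 : (2 : ZMod p) ≠ 0 := by
    intro h
    have h' : ((2 : ℕ) : ZMod p) = 0 := by exact_mod_cast h
    rw [ZMod.natCast_eq_zero_iff] at h'
    exact hp2 ((Nat.prime_dvd_prime_iff_eq hp Nat.prime_two).1 h')
  have h3 : (3 : ZMod p) ≠ 0 := by
    intro h
    have h' : ((3 : ℕ) : ZMod p) = 0 := by exact_mod_cast h
    rw [ZMod.natCast_eq_zero_iff] at h'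
    exact hp3 ((Nat.prime_dvd_prime_iff_eq hp Nat.prime_three).1 h')
  obtain ⟨θ, hθ⟩ := (ZMod.exists_sq_eq_two_iff hp2).2 h8
  have hθ0 : θ ≠ 0 := by
    rintro rfl
    apply h2
    rw [hθ, mul_zero]
  have key : ∃ a y : ZMod p, y ≠ 0 ∧ 2 * a ^ 2 - (N : ZMod p) = y ^ 2 := by
    by_cases hN : (N : ZMod p) = 0
    · exact ⟨1, θ, hθ0, by rw [hN, pow_two θ, ← hθ]; ring⟩
    · obtain ⟨k, hk, hkN⟩ : ∃ k : ZMod p, k ≠ 0 ∧ k ^ 2 ≠ (N : ZMod p) := by
        by_cases h1 : (N : ZMod p) = 1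
        · refine ⟨2, h2, ?_⟩
          rw [h1]
          intro h
          apply h3
          linear_combination h
        · exact ⟨1, one_ne_zero, by rw [one_pow]; exact fun h => h1 h.symm⟩
      refine ⟨(k + N / k) / (2 * θ), (k - N / k) / 2, ?_, ?_⟩
      · intro h
        rw [div_eq_zero_iff] at h
        rcases h with h | h
        · apply hkN
          have h' : k = N / k := sub_eq_zero.1 h
          rw [eq_div_iff hk] at h'
          rw [pow_two]
          exact h'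
        · exact h2 h
      · have hθ' : θ ^ 2 = 2 := by rw [hθ]; ring
        have e : ((k + N / k) / (2 * θ)) ^ 2 = (k + N / k) ^ 2 / (4 * 2) := by
          rw [div_pow, mul_pow, hθ']
          norm_num
        rw [e]
        have h4 : (4 : ZMod p) ≠ 0 := by
          have : (4 : ZMod p) = 2 ^ 2 := by norm_num
          rw [this]
          exact pow_ne_zero _ h2
        field_simp
        ring
  obtain ⟨a, y, hy, hay⟩ := key
  refine ⟨a.val, ?_⟩
  intro t ht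
  rw [ZMod.natCast_val, ZMod.cast_id] at ht
  have h0 : ((N - 2 * t ^ 2 : ℤ) : ZMod p) = - y ^ 2 := by
    push_cast
    rw [ht]
    linear_combination -hay
  refine ⟨?_, (y.val : ℤ), ?_⟩
  · intro hd
    rw [← ZMod.intCast_zmod_eq_zero_iff_dvd, h0] at hd
    exact hy (by simpa using hd)
  · rw [← ZMod.intCast_zmod_eq_zero_iff_dvd, Int.cast_add, h0]
    push_cast
    rw [ZMod.natCast_val, ZMod.cast_id]
    ring

/-- The condition at `2`. -/
theorem cs_two (w : Fin 4 → ℤ) (n : ℤ) :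
    ∃ e : ℕ, ∀ t : ℤ, t % 2 = (e : ℤ) % 2 →
      (Odd (w 3) → ((Qs w * n - 2 * t ^ 2) % 4 = 1 ∨ (Qs w * n - 2 * t ^ 2) % 4 = 2)) ∧
      (Even (w 3) → (Even (Qs w / 2) → Odd t) ∧ (Ch w → Even (n - t)) ∧
        (¬ Ch w → Odd (Qs w / 2 * n - t ^ 2))) := by
  have hsq : ∀ t : ℤ, t % 2 = 0 → t ^ 2 % 4 = 0 := by
    intro t ht
    obtain ⟨u, rfl⟩ : ∃ u, t = 2 * u := ⟨t / 2, by omega⟩
    have : (2 * u) ^ 2 = 4 * u ^ 2 := by ring
    omega
  have hsq1 : ∀ t : ℤ, t % 2 = 1 → t ^ 2 % 4 = 1 := by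
    intro t ht
    obtain ⟨u, rfl⟩ : ∃ u, t = 2 * u + 1 := ⟨t / 2, by omega⟩
    have : (2 * u + 1) ^ 2 = 4 * (u ^ 2 + u) + 1 := by ring
    omega
  rcases Int.even_or_odd (w 3) with h3 | h3
  · -- `w 3` even
    have hodd : ¬ Odd (w 3) := Int.not_odd_iff_even.2 h3
    have hM : ∃ m : ℤ, Qs w / 2 = m ∧ (Ch w → m % 2 = 1) := by
      obtain ⟨k, hk⟩ := h3
      refine ⟨w 0 ^ 2 + w 1 ^ 2 + w 2 ^ 2 + 2 * k ^ 2, ?_, ?_⟩
      · have : Qs w = 2 * (w 0 ^ 2 + w 1 ^ 2 + w 2 ^ 2 + 2 * k ^ 2) := by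
          unfold Qs
          rw [hk]
          ring
        omega
      · rintro ⟨h0, h1, h2, -⟩
        rw [Int.odd_iff] at h0 h1 h2
        have e0 := hsq1 _ h0
        have e1 := hsq1 _ h1
        have e2 := hsq1 _ h2
        omega
    obtain ⟨m, hm, hCh⟩ := hM
    rw [hm]
    rcases Int.emod_two_eq_zero_or_one m with hm2 | hm2
    · -- `m` even: `t` odd
      refine ⟨1, ?_⟩
      intro t ht
      have ht1 : t % 2 = 1 := by simpa using ht
      refine ⟨fun h => absurd h hodd, fun _ => ⟨fun _ => Int.odd_iff.2 ht1, ?_, ?_⟩⟩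
      · intro hc
        have := hCh hc
        omega
      · intro _
        have e1 := hsq1 _ ht1
        obtain ⟨u, hu⟩ : ∃ u, m = 2 * u := ⟨m / 2, by omega⟩
        rw [Int.odd_iff, hu, mul_assoc]
        omega
    · by_cases hc : Ch w
      · refine ⟨(n % 2).toNat, ?_⟩
        intro t ht
        have hn0 : 0 ≤ n % 2 := Int.emod_nonneg _ (by norm_num)
        rw [Int.toNat_of_nonneg hn0] at ht
        refine ⟨fun h => absurd h hodd, fun _ => ⟨?_, ?_, ?_⟩⟩
        · intro he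
          rw [Int.even_iff] at he
          omega
        · intro _
          rw [Int.even_iff]
          omega
        · intro h
          exact absurd hc h
      · refine ⟨((n + 1) % 2).toNat, ?_⟩
        intro t ht
        have hn0 : 0 ≤ (n + 1) % 2 := Int.emod_nonneg _ (by norm_num)
        rw [Int.toNat_of_nonneg hn0] at ht
        refine ⟨fun h => absurd h hodd, fun _ => ⟨?_, ?_, ?_⟩⟩
        · intro he
          rw [Int.even_iff] at he
          omega
        · intro h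
          exact absurd h hc
        · intro _
          obtain ⟨u, hu⟩ : ∃ u, m = 2 * u + 1 := ⟨m / 2, by omega⟩
          have hexp : m * n = 2 * (u * n) + n := by rw [hu]; ring
          rw [Int.odd_iff, hexp]
          rcases Int.emod_two_eq_zero_or_one t with h | h
          · have := hsq t h
            omega
          · have := hsq1 t h
            omega
  · -- `w 3` odd
    have heven : ¬ Even (w 3) := Int.not_even_iff_odd.2 h3
    rcases (show (Qs w * n) % 4 = 0 ∨ (Qs w * n) % 4 = 1 ∨ (Qs w * n) % 4 = 2 ∨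
      (Qs w * n) % 4 = 3 by omega) with h | h | h | h
    · refine ⟨1, fun t ht => ⟨fun _ => ?_, fun h => absurd h heven⟩⟩
      have := hsq1 t (by simpa using ht)
      omega
    · refine ⟨0, fun t ht => ⟨fun _ => ?_, fun h => absurd h heven⟩⟩
      have := hsq t (by simpa using ht)
      omega
    · refine ⟨0, fun t ht => ⟨fun _ => ?_, fun h => absurd h heven⟩⟩
      have := hsq t (by simpa using ht)
      omega
    · refine ⟨1, fun t ht => ⟨fun _ => ?_, fun h => absurd h heven⟩⟩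
      have := hsq1 t (by simpa using ht)
      omega

theorem cs_coprime (t : ℤ) (a m : ℕ) (h1 : IsCoprime t (m : ℤ)) (h2 : a ≠ 0 → Odd t) :
    IsCoprime t ((2 : ℤ) ^ a * m) := by
  refine IsCoprime.mul_right ?_ h1
  rcases Nat.eq_zero_or_pos a with rfl | ha
  · rw [pow_zero]; exact isCoprime_one_right
  · refine IsCoprime.pow_right ?_
    obtain ⟨u, hu⟩ := h2 (by omega)
    exact ⟨1, -u, by rw [hu]; ring⟩

theorem choose_s (w₀ : Fin 4 → ℤ) (hw : Prim w₀) (P : ℕ) (hP1 : 1 < P) (hP : Odd P)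
    (hsq : Squarefree P) (hc : IsCoprime (Qs w₀) (P : ℤ))
    (h8 : ∀ p : ℕ, p.Prime → p ∣ P → p % 8 = 1 ∨ p % 8 = 7) :
    ∃ S₁ : ℕ, 0 < S₁ ∧ ∀ n : ℤ, ∃ s : ℕ, s < S₁ ∧ ∀ j : ℕ,
      GoodS w₀ n (s + j * S₁ : ℕ) ∧
      IsCoprime (Qs w₀ * n - 2 * ((s + j * S₁ : ℕ) : ℤ) ^ 2) (P : ℤ) ∧
      ∀ p : ℕ, p.Prime → p ∣ P →
        ∃ r : ℤ, (p : ℤ) ∣ r ^ 2 + (Qs w₀ * n - 2 * ((s + j * S₁ : ℕ) : ℤ) ^ 2) := by
  -- `Qs w₀` is positive
  have hQ0 : 0 < Qs w₀ := by
    by_contra hcon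
    obtain ⟨i, hi⟩ := hw 2 Nat.prime_two
    have h0 : w₀ 0 = 0 ∧ w₀ 1 = 0 ∧ w₀ 2 = 0 ∧ w₀ 3 = 0 := by
      have e : 2 * (w₀ 0 ^ 2 + w₀ 1 ^ 2 + w₀ 2 ^ 2) + w₀ 3 ^ 2 ≤ 0 := not_lt.1 hcon
      refine ⟨?_, ?_, ?_, ?_⟩ <;>
      · rw [← pow_eq_zero_iff (n := 2) (by norm_num)]
        nlinarith [sq_nonneg (w₀ 0), sq_nonneg (w₀ 1), sq_nonneg (w₀ 2), sq_nonneg (w₀ 3)]
    apply hi
    fin_cases i
    · simp [h0.1]
    · simp [h0.2.1]
    · simp [h0.2.2.1]
    · simp [h0.2.2.2]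
  obtain ⟨M, hM⟩ : ∃ M : ℕ, Qs w₀ = M := ⟨(Qs w₀).toNat, (Int.toNat_of_nonneg hQ0.le).symm⟩
  have hM0 : M ≠ 0 := by
    rintro rfl
    rw [hM] at hQ0
    simp at hQ0
  obtain ⟨a, m, hmodd, hMm⟩ := Nat.exists_eq_two_pow_mul_odd hM0
  have hMP : Nat.Coprime M P := by
    rw [hM] at hc
    exact Nat.isCoprime_iff_coprime.1 hc
  have hmP : Nat.Coprime m P := by
    rw [hMm] at hMP
    exact (Nat.Coprime.coprime_mul_left hMP)
  have hcop : Nat.Coprime (2 * P) m := by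
    refine Nat.Coprime.mul_left ?_ hmP.symm
    exact (Nat.coprime_two_left).2 hmodd
  refine ⟨2 * P * m, ?_, ?_⟩
  · have := hmodd.pos
    positivity
  intro n
  obtain ⟨e, he⟩ := cs_two w₀ n
  have hloc : ∀ p : ℕ, ∃ b : ℕ, p.Prime → p ∣ P → ∀ t : ℤ, (t : ZMod p) = (b : ZMod p) →
      ¬ (p : ℤ) ∣ Qs w₀ * n - 2 * t ^ 2 ∧ ∃ r : ℤ, (p : ℤ) ∣ r ^ 2 + (Qs w₀ * n - 2 * t ^ 2) := by
    intro p
    by_cases hp : p.Prime ∧ p ∣ P
    · have : Fact p.Prime := ⟨hp.1⟩
      obtain ⟨b, hb⟩ := cs_local p (h8 p hp.1 hp.2) (Qs w₀ * n)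
      exact ⟨b, fun _ _ => hb⟩
    · exact ⟨0, fun h1 h2 => absurd ⟨h1, h2⟩ hp⟩
  choose b hb using hloc
  let T : Finset ℕ := insert 2 P.primeFactors
  have hTprime : ∀ p ∈ T, p.Prime := by
    intro p hp
    rcases Finset.mem_insert.1 hp with rfl | hp
    · exact Nat.prime_two
    · exact Nat.prime_of_mem_primeFactors hp
  obtain ⟨k₀, hk₀⟩ := Nat.chineseRemainderOfFinset (fun p => if p = 2 then e else b p) (fun p => p) T
    (fun p hp => (hTprime p hp).ne_zero) (by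
      intro p hp q hq hpq
      exact (Nat.coprime_primes (hTprime p hp) (hTprime q hq)).2 hpq)
  obtain ⟨k, hk1, hk2⟩ := Nat.chineseRemainder hcop k₀ 1
  have hS : 0 < 2 * P * m := by
    have := hmodd.pos
    positivity
  refine ⟨k % (2 * P * m), Nat.mod_lt _ hS, ?_⟩
  intro j
  set t : ℕ := k % (2 * P * m) + j * (2 * P * m) with ht
  have htk : t ≡ k [MOD 2 * P * m] := by
    rw [ht]
    unfold Nat.ModEq
    rw [Nat.add_mul_mod_self_right, Nat.mod_mod]
  have ht1 : t ≡ k₀ [MOD 2 * P] := (htk.of_mul_right m).trans hk1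
  have htm : t ≡ 1 [MOD m] := (htk.of_mul_left (2 * P)).trans hk2
  have hodd2 : (2 : ℕ) ∉ P.primeFactors := by
    intro h
    have := Nat.dvd_of_mem_primeFactors h
    rw [Nat.odd_iff] at hP
    omega
  have ht2 : t ≡ e [MOD 2] := by
    have h1 := hk₀ 2 (Finset.mem_insert_self _ _)
    simp only [if_true] at h1
    exact (ht1.of_mul_right P).trans h1
  have htp : ∀ p : ℕ, p.Prime → p ∣ P → ((t : ℤ) : ZMod p) = (b p : ZMod p) := by
    intro p hp hpP
    have hmem : p ∈ P.primeFactors := Nat.mem_primeFactors.2 ⟨hp, hpP, by omega⟩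
    have h1 := hk₀ p (Finset.mem_insert_of_mem hmem)
    have hp2 : p ≠ 2 := by rintro rfl; exact hodd2 hmem
    rw [if_neg hp2] at h1
    have h2 : t ≡ b p [MOD p] := (ht1.of_dvd (Dvd.dvd.mul_left hpP 2)).trans h1
    rw [Int.cast_natCast]
    exact (ZMod.natCast_eq_natCast_iff _ _ _).2 h2
  have hemod : ((t : ℤ)) % 2 = (e : ℤ) % 2 := by
    have h1 : t % 2 = e % 2 := ht2
    omega
  have htwo := he (t : ℤ) hemod
  have hcopm : IsCoprime (t : ℤ) (m : ℤ) := by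
    have h1 : ((1 : ℕ) : ℤ) ≡ (t : ℤ) [ZMOD (m : ℤ)] := (Int.natCast_modEq_iff.2 htm).symm
    obtain ⟨c, hc'⟩ := h1.dvd
    refine ⟨1, -c, ?_⟩
    push_cast at hc'
    linear_combination hc'
  refine ⟨⟨?_, ?_⟩, ?_, ?_⟩
  · intro hodd
    refine ⟨?_, htwo.1 hodd⟩
    have ha : a = 0 := by
      by_contra ha
      obtain ⟨a', rfl⟩ := Nat.exists_eq_succ_of_ne_zero ha
      have hev : Even (Qs w₀) := by
        rw [hM, hMm, pow_succ]
        push_cast
        exact ⟨2 ^ a' * m, by ring⟩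
      have hod : Odd (Qs w₀) := by
        unfold Qs
        exact (even_two_mul _).add_odd hodd.pow
      exact (Int.not_even_iff_odd.2 hod) hev
    rw [hM, hMm, ha, pow_zero, one_mul]
    exact hcopm
  · intro hev
    obtain ⟨h1, h2, h3⟩ := htwo.2 hev
    refine ⟨?_, h2, h3⟩
    have ha : a ≠ 0 := by
      rintro rfl
      rw [pow_zero, one_mul] at hMm
      have hod : Odd (Qs w₀) := by
        rw [hM, hMm]
        exact_mod_cast hmodd
      have hev' : Even (Qs w₀) := by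
        unfold Qs
        refine (even_two_mul _).add ?_
        rw [pow_two]
        exact hev.mul_right _
      exact (Int.not_even_iff_odd.2 hod) hev'
    obtain ⟨a', rfl⟩ := Nat.exists_eq_succ_of_ne_zero ha
    have hhalf : Qs w₀ / 2 = (2 : ℤ) ^ a' * m := by
      rw [hM, hMm, pow_succ]
      push_cast
      rw [show (2 : ℤ) ^ a' * 2 * m = 2 * (2 ^ a' * m) by ring]
      omega
    rw [hhalf]
    refine cs_coprime _ _ _ hcopm ?_
    intro ha'
    apply h1
    rw [hhalf]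
    obtain ⟨a'', rfl⟩ := Nat.exists_eq_succ_of_ne_zero ha'
    exact ⟨2 ^ a'' * m, by rw [Nat.succ_eq_add_one, pow_succ]; ring⟩
  · rw [Int.isCoprime_iff_gcd_eq_one]
    by_contra hg
    obtain ⟨p, hp, hpd⟩ := Nat.exists_prime_and_dvd hg
    have hd1 : (p : ℤ) ∣ Qs w₀ * n - 2 * (t : ℤ) ^ 2 :=
      (Int.natCast_dvd_natCast.2 hpd).trans (Int.gcd_dvd_left _ _)
    have hd2 : (p : ℤ) ∣ (P : ℤ) :=
      (Int.natCast_dvd_natCast.2 hpd).trans (Int.gcd_dvd_right _ _)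
    have hpP : p ∣ P := Int.natCast_dvd_natCast.1 hd2
    exact (hb p hp hpP _ (htp p hp hpP)).1 hd1
  · intro p hp hpP
    exact (hb p hp hpP _ (htp p hp hpP)).2

end Pool.Agent.LX
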