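import Pool.Agent.LX.Defs

/-!
Project LX, row LX-39: the saturation of the lattice spanned by `u, x₁, x₂`.
-/

set_option autoImplicit false

namespace Pool.Agent.LX

/-- The Gram determinant of `u, x₁, x₂` is divisible by the square of the index. -/
theorem closure_gram (u x₁ x₂ y : Fin 4 → ℤ) (k a b : ℤ)
    (h : ∀ l, x₂ l = k * y l + a * x₁ l + b * u l) :
    Q u * (Q x₁ * Q x₂ - B x₁ x₂ ^ 2) - B u x₁ * (B u x₁ * Q x₂ - B u x₂ * B x₁ x₂)
      + B u x₂ * (B u x₁ * B x₁ x₂ - B u x₂ * Q x₁) =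
    k ^ 2 * (Q u * (Q x₁ * Q y - B x₁ y ^ 2) - B u x₁ * (B u x₁ * Q y - B u y * B x₁ y)
      + B u y * (B u x₁ * B x₁ y - B u y * Q x₁)) := by
  have e1 : B u x₂ = k * B u y + a * B u x₁ + b * Q u := by
    simp only [Q, B, h]
    ring
  have e2 : B x₁ x₂ = k * B x₁ y + a * Q x₁ + b * B u x₁ := by
    simp only [Q, B, h]
    ring
  have e3 : Q x₂ = k ^ 2 * Q y + a ^ 2 * Q x₁ + b ^ 2 * Q u + 2 * k * a * B x₁ y
      + 2 * k * b * B u y + 2 * a * b * B u x₁ := by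
    simp only [Q, B, h]
    ring
  rw [e1, e2, e3]
  ring

/-- LX-G2: the saturation of the lattice spanned by `u, x₁, x₂`. -/
theorem closure_exists (u x₁ x₂ : Fin 4 → ℤ) (h₁ : SatV u x₁) (h₂ : SatV u x₂)
    (hd : 0 < Q u * (Q x₁ * Q x₂ - B x₁ x₂ ^ 2) - B u x₁ * (B u x₁ * Q x₂ - B u x₂ * B x₁ x₂)
      + B u x₂ * (B u x₁ * B x₁ x₂ - B u x₂ * Q x₁)) :
    ∃ (κ c₁ c₀ : ℤ) (y : Fin 4 → ℤ), 0 < κ ∧ 0 ≤ c₁ ∧ c₁ < κ ∧ 0 ≤ c₀ ∧ c₀ < κ ∧
      IsCoprime c₁ κ ∧ (∀ l, x₂ l = κ * y l + c₁ * x₁ l + c₀ * u l) ∧ Sat3 u x₁ y := by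
  classical
  set D : ℤ := Q u * (Q x₁ * Q x₂ - B x₁ x₂ ^ 2)
      - B u x₁ * (B u x₁ * Q x₂ - B u x₂ * B x₁ x₂)
      + B u x₂ * (B u x₁ * B x₁ x₂ - B u x₂ * Q x₁) with hD
  let S : Set ℕ := {k | 0 < k ∧ ∃ (a b : ℤ) (y : Fin 4 → ℤ),
    ∀ l, x₂ l = (k : ℤ) * y l + a * x₁ l + b * u l}
  have hbd : ∀ k ∈ S, k ≤ D.toNat := by
    rintro k ⟨hk, a, b, y, h⟩
    have h1 := closure_gram u x₁ x₂ y k a b h
    rw [← hD] at h1
    have hdvd : (k : ℤ) ∣ D := by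
      rw [h1, pow_two, mul_assoc]
      exact dvd_mul_right _ _
    have h2 := Int.le_of_dvd hd hdvd
    omega
  have hne : S.Nonempty := ⟨1, one_pos, 0, 0, x₂, fun l => by simp⟩
  have hBdd : BddAbove S := ⟨D.toNat, hbd⟩
  obtain ⟨k, hkS, hmax⟩ : ∃ k ∈ S, ∀ k' ∈ S, k' ≤ k :=
    ⟨sSup S, Nat.sSup_mem hne hBdd, fun k' h => le_csSup hBdd h⟩
  obtain ⟨hk, a, b, y₀, h⟩ := hkS
  have hkZ : (0 : ℤ) < k := by exact_mod_cast hk
  set c₁ : ℤ := a % k with hc₁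
  set c₀ : ℤ := b % k with hc₀
  set y : Fin 4 → ℤ := fun l => y₀ l + a / k * x₁ l + b / k * u l with hy
  have hrep : ∀ l, x₂ l = (k : ℤ) * y l + c₁ * x₁ l + c₀ * u l := by
    intro l
    have ea := Int.emod_add_mul_ediv a k
    have eb := Int.emod_add_mul_ediv b k
    rw [h l, hy, hc₁, hc₀]
    linear_combination (-(x₁ l)) * ea + (-(u l)) * eb
  refine ⟨k, c₁, c₀, y, hkZ, Int.emod_nonneg _ hkZ.ne', Int.emod_lt_of_pos _ hkZ,
    Int.emod_nonneg _ hkZ.ne', Int.emod_lt_of_pos _ hkZ, ?_, hrep, ?_⟩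
  · -- coprimality
    rw [Int.isCoprime_iff_gcd_eq_one]
    by_contra hg
    obtain ⟨p, hp, hpg⟩ := Nat.exists_prime_and_dvd hg
    have hp1 : (p : ℤ) ∣ c₁ := (Int.natCast_dvd_natCast.2 hpg).trans (Int.gcd_dvd_left _ _)
    have hp2 : (p : ℤ) ∣ k := (Int.natCast_dvd_natCast.2 hpg).trans (Int.gcd_dvd_right _ _)
    have h3 := h₂ p hp (-c₀) 1 (fun l => by
      have : -c₀ * u l + 1 * x₂ l = k * y l + c₁ * x₁ l := by rw [hrep l]; ring
      rw [this]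
      exact dvd_add (hp2.mul_right _) (hp1.mul_right _))
    have h4 : (p : ℤ) ∣ 1 := h3.2
    have h5 := Int.le_of_dvd one_pos h4
    have := hp.two_le
    omega
  · intro p hp i j m hdvd
    have hpm : (p : ℤ) ∣ m := by
      by_contra hpm
      have hcop : IsCoprime (p : ℤ) m := by
        rw [Int.isCoprime_iff_gcd_eq_one]
        have hpp : Prime (p : ℤ) := Nat.prime_iff_prime_int.1 hp
        exact Int.isCoprime_iff_gcd_eq_one.1 ((Prime.coprime_iff_not_dvd hpp).2 hpm)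
      obtain ⟨r, s, hrs⟩ := hcop
      choose z hz using hdvd
      have hmem : k * p ∈ S := by
        refine ⟨Nat.mul_pos hk hp.pos, c₁ - k * (s * j), c₀ - k * (s * i),
          fun l => r * y l + s * z l, fun l => ?_⟩
        push_cast
        rw [hrep l]
        linear_combination (k * y l) * (-hrs) + k * s * hz l
      have h6 := hmax _ hmem
      have h7 := hp.two_le
      nlinarith
    obtain ⟨m', hm'⟩ := hpm
    have h8 := h₁ p hp i j (fun l => by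
      have : i * u l + j * x₁ l = (i * u l + j * x₁ l + m * y l) - p * (m' * y l) := by
        rw [hm']; ring
      rw [this]
      exact dvd_sub (hdvd l) (dvd_mul_right _ _))
    exact ⟨h8.1, h8.2, ⟨m', hm'⟩⟩

end Pool.Agent.LX
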