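import Pool.Agent.LX.Defs

set_option autoImplicit false
set_option linter.all false

/-!
LX-B5: the number of codes modulo `P ^ k` orthogonal to `u` and `x`.
-/

open Matrix

namespace Pool.Agent.LX

section General

variable {R : Type*} [CommRing R]

/-- Twice the vector which represents `y ↦ det (u, x, a, y)`. -/
def cxT (u x a : Fin 4 → R) : Fin 4 → R :=
  ![-2 * (u 1 * (x 2 * a 3 - x 3 * a 2) - u 2 * (x 1 * a 3 - x 3 * a 1)
      + u 3 * (x 1 * a 2 - x 2 * a 1)),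
    2 * (u 0 * (x 2 * a 3 - x 3 * a 2) - u 2 * (x 0 * a 3 - x 3 * a 0)
      + u 3 * (x 0 * a 2 - x 2 * a 0)),
    -2 * (u 0 * (x 1 * a 3 - x 3 * a 1) - u 1 * (x 0 * a 3 - x 3 * a 0)
      + u 3 * (x 0 * a 1 - x 1 * a 0)),
    (u 0 * (x 1 * a 2 - x 2 * a 1) - u 1 * (x 0 * a 2 - x 2 * a 0)
      + u 2 * (x 0 * a 1 - x 1 * a 0))]

/-- The coefficients of the projection to the span of `u` and `x`. -/
def cxA (u x a : Fin 4 → R) : R := Q x * B u a - B u x * B x a

/-- The vector `Z(a)`. -/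
def cxZ (u x : Fin 4 → R) (r : R) (a : Fin 4 → R) : Fin 4 → R := fun i =>
  (Q u * Q x - B u x ^ 2) * cxT u x a i
    + r * ((Q u * Q x - B u x ^ 2) * a i - cxA u x a * u i - cxA x u a * x i)

lemma cx_lin (y v w : Fin 4 → R) (c d : R) :
    B y (fun i => c * v i + d * w i) = c * B y v + d * B y w := by
  simp only [B]; ring

lemma cxT_u (u x a : Fin 4 → R) : B u (cxT u x a) = 0 := by
  simp only [B, cxT, cons_val_zero, cons_val_one, cons_val]; ring

lemma cxT_x (u x a : Fin 4 → R) : B x (cxT u x a) = 0 := by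
  simp only [B, cxT, cons_val_zero, cons_val_one, cons_val]; ring

lemma cxT_a (u x a : Fin 4 → R) : B a (cxT u x a) = 0 := by
  simp only [B, cxT, cons_val_zero, cons_val_one, cons_val]; ring

lemma cxT_Q (u x a : Fin 4 → R) : Q (cxT u x a) = 2 *
    (Q u * (Q x * Q a - B x a ^ 2) - B u x * (B u x * Q a - B x a * B u a)
      + B u a * (B u x * B x a - Q x * B u a)) := by
  simp only [Q, B, cxT, cons_val_zero, cons_val_one, cons_val]; ring

lemma cxZ_u (u x : Fin 4 → R) (r : R) (a : Fin 4 → R) : B u (cxZ u x r a) = 0 := by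
  have e : B u (cxZ u x r a) = (Q u * Q x - B u x ^ 2) * B u (cxT u x a)
      + r * ((Q u * Q x - B u x ^ 2) * B u a - cxA u x a * B u u - cxA x u a * B u x) := by
    simp only [B, cxZ]; ring
  have h : B x u = B u x := by simp only [B]; ring
  rw [e, cxT_u]
  simp only [cxA, Q, h]
  ring

lemma cxZ_x (u x : Fin 4 → R) (r : R) (a : Fin 4 → R) : B x (cxZ u x r a) = 0 := by
  have e : B x (cxZ u x r a) = (Q u * Q x - B u x ^ 2) * B x (cxT u x a)
      + r * ((Q u * Q x - B u x ^ 2) * B x a - cxA u x a * B x u - cxA x u a * B x x) := by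
    simp only [B, cxZ]; ring
  have h : B x u = B u x := by simp only [B]; ring
  rw [e, cxT_x]
  simp only [cxA, Q, h]
  ring

lemma cxZ_Q (u x : Fin 4 → R) (r : R) (a : Fin 4 → R)
    (hr : r ^ 2 + 2 * (Q u * Q x - B u x ^ 2) = 0) : Q (cxZ u x r a) = 0 := by
  have h : B x u = B u x := by simp only [B]; ring
  have h1 : B a u = B u a := by simp only [B]; ring
  have h2 : B a x = B x a := by simp only [B]; ring
  have e : Q (cxZ u x r a) = (Q u * Q x - B u x ^ 2) * B (cxT u x a) (cxZ u x r a)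
      + r * ((Q u * Q x - B u x ^ 2) * B a (cxZ u x r a) - cxA u x a * B u (cxZ u x r a)
        - cxA x u a * B x (cxZ u x r a)) := by
    simp only [Q, B, cxZ]; ring
  have e1 : B (cxT u x a) (cxZ u x r a) = (Q u * Q x - B u x ^ 2) * Q (cxT u x a)
      + r * ((Q u * Q x - B u x ^ 2) * B a (cxT u x a) - cxA u x a * B u (cxT u x a)
        - cxA x u a * B x (cxT u x a)) := by
    simp only [Q, B, cxZ]; ring
  have e2 : B a (cxZ u x r a) = (Q u * Q x - B u x ^ 2) * B a (cxT u x a)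
      + r * ((Q u * Q x - B u x ^ 2) * B a a - cxA u x a * B a u - cxA x u a * B a x) := by
    simp only [B, cxZ]; ring
  rw [e, e1, e2, cxZ_u, cxZ_x, cxT_u, cxT_x, cxT_a, cxT_Q]
  simp only [cxA, h, h1, h2]
  have h3 : B a a = Q a := rfl
  rw [h3]
  linear_combination (Q u * Q x - B u x ^ 2) *
    (Q u * (Q x * Q a - B x a ^ 2) - B u x * (B u x * Q a - B x a * B u a)
      + B u a * (B u x * B x a - Q x * B u a)) * hr

lemma cxZ_trace (u x : Fin 4 → R) (r : R) :
    ∑ i, cxZ u x r (Pi.single i 1) i = 2 * (Q u * Q x - B u x ^ 2) * r := by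
  simp only [Fin.sum_univ_four, cxZ, cxT, cxA, Q, B, cons_val_zero, cons_val_one, cons_val]
  simp
  ring

end General

/-! ### Chinese remainders -/

lemma cx_crt (T : Finset ℕ) (hT : ∀ p ∈ T, p.Prime) (f : ℕ → ℤ) :
    ∃ r : ℤ, ∀ p ∈ T, (p : ℤ) ∣ r - f p := by
  classical
  induction T using Finset.induction_on with
  | empty => exact ⟨0, by simp⟩
  | insert q T hq ih =>
    obtain ⟨r, hr⟩ := ih (fun p hp => hT p (Finset.mem_insert_of_mem hp))
    have hqp : q.Prime := hT q (Finset.mem_insert_self _ _)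
    have hc : IsCoprime (∏ p ∈ T, (p : ℤ)) (q : ℤ) := by
      apply IsCoprime.prod_left
      intro p hp
      have hpp := hT p (Finset.mem_insert_of_mem hp)
      exact Nat.isCoprime_iff_coprime.mpr ((Nat.coprime_primes hpp hqp).mpr
        (fun h => hq (h ▸ hp)))
    obtain ⟨a, b, hab⟩ := hc
    refine ⟨r * (b * q) + f q * (a * ∏ p ∈ T, (p : ℤ)), fun p hp => ?_⟩
    rcases Finset.mem_insert.mp hp with rfl | hp
    · refine ⟨(r - f p) * b, ?_⟩
      linear_combination (f p) * hab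
    · have h1 : r * (b * q) + f q * (a * ∏ p ∈ T, (p : ℤ)) - f p
          = (r - f p) + (f q - r) * a * ∏ p ∈ T, (p : ℤ) := by
        linear_combination r * hab
      rw [h1]
      exact dvd_add (hr p hp) (Dvd.dvd.mul_left (Finset.dvd_prod_of_mem _ hp) _)

/-- Newton's method. -/
lemma cx_sqrt (P : ℕ) (hP : Odd P) (D : ℤ) (hD : IsCoprime D (P : ℤ))
    (h : ∃ r : ℤ, (P : ℤ) ∣ r ^ 2 + 2 * D) (k : ℕ) (hk : 1 ≤ k) :
    ∃ r : ℤ, (P : ℤ) ^ k ∣ r ^ 2 + 2 * D := by
  have h2 : IsCoprime (2 : ℤ) (P : ℤ) := by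
    obtain ⟨m, hm⟩ := hP
    exact ⟨-m, 1, by rw [hm]; push_cast; ring⟩
  induction k, hk using Nat.le_induction with
  | base => simpa using h
  | succ k hk ih =>
    obtain ⟨r, hr⟩ := ih
    have hPr : (P : ℤ) ∣ r ^ 2 + 2 * D := (dvd_pow_self _ (by omega)).trans hr
    have hrc : IsCoprime (2 * r) ((P : ℤ) ^ (k + 1)) := by
      apply IsCoprime.pow_right
      apply h2.mul_left
      obtain ⟨c, hc⟩ := hPr
      have h3 : IsCoprime (r ^ 2) (P : ℤ) := by
        have h4 : IsCoprime (-(2 * D)) (P : ℤ) := (h2.mul_left hD).neg_left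
        have h5 : r ^ 2 = -(2 * D) + P * c := by linear_combination hc
        rw [h5]
        exact IsCoprime.add_mul_left_left h4 c
      exact (IsCoprime.pow_left_iff (by norm_num)).mp h3
    obtain ⟨s, t, hst⟩ := hrc
    refine ⟨r - s * (r ^ 2 + 2 * D), ?_⟩
    have e : (r - s * (r ^ 2 + 2 * D)) ^ 2 + 2 * D
        = (r ^ 2 + 2 * D) * t * (P : ℤ) ^ (k + 1) + s ^ 2 * (r ^ 2 + 2 * D) ^ 2 := by
      linear_combination (r ^ 2 + 2 * D) * (-hst)
    rw [e]
    apply dvd_add (Dvd.intro_left _ rfl)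
    apply Dvd.dvd.mul_left
    have h6 : (P : ℤ) ^ (k + 1) ∣ ((P : ℤ) ^ k) ^ 2 := by
      rw [← pow_mul]
      exact pow_dvd_pow _ (by omega)
    exact h6.trans (pow_dvd_pow_of_dvd hr 2)

lemma cx_sqfree_dvd (P : ℕ) (hsq : Squarefree P) (m : ℤ)
    (h : ∀ p : ℕ, p.Prime → p ∣ P → (p : ℤ) ∣ m) : (P : ℤ) ∣ m := by
  have h1 : P ∣ m.natAbs := by
    rw [← Nat.prod_primeFactors_of_squarefree hsq]
    apply Finset.prod_primes_dvd
    · intro p hp
      exact (Nat.prime_of_mem_primeFactors hp).prime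
    · intro p hp
      exact Int.natCast_dvd.mp (h p (Nat.prime_of_mem_primeFactors hp)
        (Nat.dvd_of_mem_primeFactors hp))
  exact Int.natCast_dvd.mpr h1

/-- An integer vector which is nonzero modulo every prime divisor of the odd number `n` is
unimodular modulo `n`. -/
lemma cx_unimod (n : ℕ) (hn : Odd n) (z : Fin 4 → ℤ)
    (h : ∀ p : ℕ, p.Prime → p ∣ n → ∃ i, ¬ (p : ℤ) ∣ z i) :
    ∃ y : Fin 4 → ZMod n, B y (toR z) = 1 := by
  set I : Ideal ℤ := Ideal.span {z 0, z 1, z 2, 2 * z 3, (n : ℤ)} with hI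
  have htop : I = ⊤ := by
    obtain ⟨g, hg⟩ := (IsPrincipalIdealRing.principal I).principal
    have hdvd : ∀ m ∈ I, g ∣ m := fun m hm => by
      rw [hg] at hm
      exact Ideal.mem_span_singleton.mp hm
    by_contra hne
    have hg1 : g.natAbs ≠ 1 := by
      intro h1
      apply hne
      rw [hg, Ideal.submodule_span_eq, Ideal.span_singleton_eq_top]
      exact Int.isUnit_iff_natAbs_eq.mpr h1
    obtain ⟨p, hp, hpg⟩ := Nat.exists_prime_and_dvd hg1
    have hpg' : (p : ℤ) ∣ g := Int.natCast_dvd.mpr hpg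
    have hmem : ∀ m ∈ ({z 0, z 1, z 2, 2 * z 3, (n : ℤ)} : Set ℤ), (p : ℤ) ∣ m := fun m hm =>
      hpg'.trans (hdvd m (Ideal.subset_span hm))
    have hpn : p ∣ n := Int.natCast_dvd_natCast.mp (hmem _ (by simp))
    obtain ⟨i, hi⟩ := h p hp hpn
    have hp2 : IsCoprime (p : ℤ) 2 := by
      have h2 : Nat.Coprime p 2 := by
        rw [Nat.coprime_two_right]
        exact hn.of_dvd_nat hpn
      exact_mod_cast Nat.isCoprime_iff_coprime.mpr h2
    apply hi
    fin_cases i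
    · exact hmem _ (by simp)
    · exact hmem _ (by simp)
    · exact hmem _ (by simp)
    · exact hp2.dvd_of_dvd_mul_left (hmem _ (by simp))
  have h1 : (1 : ℤ) ∈ I := htop ▸ Submodule.mem_top
  rw [hI] at h1
  obtain ⟨a, s1, h2, e1⟩ := Ideal.mem_span_insert.mp h1
  obtain ⟨b, s2, h3, e2⟩ := Ideal.mem_span_insert.mp h2
  obtain ⟨c, s3, h4, e3⟩ := Ideal.mem_span_insert.mp h3
  obtain ⟨d, s4, h5, e4⟩ := Ideal.mem_span_insert.mp h4
  obtain ⟨e, e5⟩ := Ideal.mem_span_singleton.mp h5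
  refine ⟨toR ![a, b, c, d], ?_⟩
  have h6 : a * z 0 + b * z 1 + c * z 2 + 2 * (d * z 3) = 1 - n * e := by
    rw [e1, e2, e3, e4, e5]; ring
  have h7 := congrArg (Int.cast : ℤ → ZMod n) h6
  push_cast at h7
  simp only [B, toR, cons_val_zero, cons_val_one, cons_val]
  rw [h7]
  simp

/-! ### The Gram determinant -/

lemma cx_det {R : Type*} [CommRing R] (u x y z : Fin 4 → R) (h1 : B u z = 0) (h2 : B x z = 0) :
    2 * (Matrix.of ![u, x, y, z]).det ^ 2 =
      Q z * (Q u * (Q x * Q y - B x y ^ 2) - B u x * (B u x * Q y - B x y * B u y)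
        + B u y * (B u x * B x y - Q x * B u y)) - B y z ^ 2 * (Q u * Q x - B u x ^ 2) := by
  have e1 : Matrix.of ![u, x, y, z] * Matrix.diagonal ![1, 1, 1, 2] * (Matrix.of ![u, x, y, z])ᵀ
      = !![Q u, B u x, B u y, 0; B u x, Q x, B x y, 0; B u y, B x y, Q y, B y z;
          0, 0, B y z, Q z] := by
    have hs : ∀ v w : Fin 4 → R, B v w = B w v := fun v w => by simp only [B]; ring
    have hm : ∀ (a b : Fin 4 → R), ∑ l, (a l * (![1, 1, 1, 2] : Fin 4 → R) l) * b l = B a b := by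
      intro a b
      simp only [Fin.sum_univ_four, B, cons_val_zero, cons_val_one, cons_val]
      ring
    ext i j
    rw [Matrix.mul_apply]
    simp only [Matrix.mul_diagonal, Matrix.transpose_apply]
    rw [hm]
    have r0 : (Matrix.of ![u, x, y, z]) 0 = u := rfl
    have r1 : (Matrix.of ![u, x, y, z]) 1 = x := rfl
    have r2 : (Matrix.of ![u, x, y, z]) 2 = y := rfl
    have r3 : (Matrix.of ![u, x, y, z]) 3 = z := rfl
    fin_cases i <;> fin_cases j <;>
      simp [Q, r0, r1, r2, r3, h1, h2, hs x u, hs y u, hs y x, hs z u, hs z x, hs z y]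
  have e2 := congrArg Matrix.det e1
  rw [Matrix.det_mul, Matrix.det_mul, Matrix.det_transpose, Matrix.det_diagonal] at e2
  have e3 : ∏ i, (![1, 1, 1, 2] : Fin 4 → R) i = 2 := by
    simp [Fin.prod_univ_four]
  rw [e3] at e2
  have e4 : (!![Q u, B u x, B u y, 0; B u x, Q x, B x y, 0; B u y, B x y, Q y, B y z;
          0, 0, B y z, Q z]).det = Q z * (Q u * (Q x * Q y - B x y ^ 2)
            - B u x * (B u x * Q y - B x y * B u y)
        + B u y * (B u x * B x y - Q x * B u y)) - B y z ^ 2 * (Q u * Q x - B u x ^ 2) := by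
    rw [Matrix.det_succ_row_zero]
    simp [Fin.sum_univ_succ, Matrix.det_succ_row_zero, Fin.succAbove]
    ring
  rw [← e4, ← e2]
  ring

lemma cx_inj {R : Type*} [CommRing R] (u x y z w : Fin 4 → R)
    (hdet : IsUnit (2 * (Matrix.of ![u, x, y, z]).det ^ 2))
    (h1 : B u w = 0) (h2 : B x w = 0) (h3 : B y w = 0) (h4 : B z w = 0) : w = 0 := by
  set M : Matrix (Fin 4) (Fin 4) R := Matrix.of ![u, x, y, z] * Matrix.diagonal ![1, 1, 1, 2]
    with hM
  have hu2 : IsUnit (2 : R) := isUnit_of_mul_isUnit_left hdet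
  have hud : IsUnit (Matrix.of ![u, x, y, z]).det :=
    (isUnit_pow_iff (by norm_num)).mp (isUnit_of_mul_isUnit_right hdet)
  have hMu : IsUnit M.det := by
    rw [hM, Matrix.det_mul, Matrix.det_diagonal]
    have e3 : ∏ i, (![1, 1, 1, 2] : Fin 4 → R) i = 2 := by
      simp [Fin.prod_univ_four]
    rw [e3]
    exact hud.mul hu2
  have hw : M *ᵥ w = 0 := by
    funext i
    have : ∀ i, (M *ᵥ w) i = B ((Matrix.of ![u, x, y, z]) i) w := by
      intro i
      rw [Matrix.mulVec, dotProduct]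
      simp only [hM, Matrix.mul_diagonal, Fin.sum_univ_four, B, cons_val_zero, cons_val_one,
        cons_val]
      ring
    rw [this]
    fin_cases i
    · exact h1
    · exact h2
    · exact h3
    · exact h4
  have hinj := Matrix.mulVec_injective_of_isUnit ((Matrix.isUnit_iff_isUnit_det M).mpr hMu)
  apply hinj
  rw [hw, Matrix.mulVec_zero]

/-! ### Reduction modulo `P` -/

lemma cx_map {R S : Type*} [CommRing R] [CommRing S] (f : R →+* S) (x y : Fin 4 → R) :
    f (B x y) = B (fun i => f (x i)) (fun i => f (y i)) := by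
  simp only [B, map_add, map_mul, map_ofNat]

lemma cx_isUnit (P k : ℕ) (hP1 : 1 < P) (a : ZMod (P ^ k)) (h : P ∣ P ^ k)
    (ha : IsUnit (ZMod.castHom h (ZMod P) a)) : IsUnit a := by
  haveI : NeZero (P ^ k) := ⟨(pow_pos (by omega) k).ne'⟩
  haveI : NeZero P := ⟨by omega⟩
  have e1 : ((a.val : ℕ) : ZMod (P ^ k)) = a := ZMod.natCast_zmod_val a
  rw [← e1, ZMod.isUnit_iff_coprime]
  rw [← e1, map_natCast, ZMod.isUnit_iff_coprime] at ha
  exact Nat.Coprime.pow_right k ha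

lemma cx_upper (P : ℕ) (hP : Odd P) (hP1 : 1 < P) (u x : Fin 4 → ℤ)
    (hD : IsCoprime (Q u * Q x - B u x ^ 2) (P : ℤ)) (k : ℕ) (hk : 1 ≤ k) :
    {z : Fin 4 → ZMod (P ^ k) | CodeZ (P ^ k) u z ∧ B (toR x) z = 0}.ncard ≤ P ^ (k + 3) := by
  classical
  haveI : NeZero (P ^ k) := ⟨(pow_pos (by omega) k).ne'⟩
  haveI : NeZero P := ⟨by omega⟩
  have hdvd : P ∣ P ^ k := dvd_pow_self P (by omega)
  set φ : ZMod (P ^ k) →+* ZMod P := ZMod.castHom hdvd (ZMod P) with hφ
  set ψ : (Fin 4 → ZMod (P ^ k)) → (Fin 4 → ZMod P) := fun z i => φ (z i) with hψ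
  have hψB : ∀ v w, φ (B v w) = B (ψ v) (ψ w) := fun v w => cx_map φ v w
  have hY : ∀ c : Fin 4 → ZMod P, ∃ y : Fin 4 → ZMod (P ^ k),
      (∃ z, CodeZ (P ^ k) u z ∧ ψ z = c) → B (ψ y) c = 1 := by
    intro c
    by_cases h : ∃ z, CodeZ (P ^ k) u z ∧ ψ z = c
    · obtain ⟨z, hz, rfl⟩ := h
      obtain ⟨y, hy⟩ := hz.2.2
      refine ⟨y, fun _ => ?_⟩
      rw [← hψB, hy, map_one]
    · exact ⟨0, fun h' => absurd h' h⟩
  choose Y hY using hY
  set T : Set ((Fin 4 → ZMod P) × ℕ) := (Set.univ : Set (Fin 4 → ZMod P)) ×ˢ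
    ((Finset.range (P ^ (k - 1)) : Finset ℕ) : Set ℕ) with hT
  have hTfin : T.Finite := Set.finite_univ.prod (Finset.finite_toSet _)
  have hTcard : T.ncard = P ^ (k + 3) := by
    rw [hT, Set.ncard_prod, Set.ncard_univ, Set.ncard_coe_finset, Finset.card_range,
      Nat.card_eq_fintype_card, Fintype.card_fun, ZMod.card, Fintype.card_fin, ← pow_add]
    congr 1
    omega
  rw [← hTcard]
  have hPk : P ^ k = P * P ^ (k - 1) := by
    rw [← pow_succ']
    congr 1
    omega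
  apply Set.ncard_le_ncard_of_injOn
    (fun z => (ψ z, (B (Y (ψ z)) z).val / P)) _ _ hTfin
  · rintro z ⟨hz, hxz⟩
    refine ⟨Set.mem_univ _, ?_⟩
    simp only [Finset.coe_range, Set.mem_Iio]
    apply Nat.div_lt_of_lt_mul
    rw [← hPk]
    exact ZMod.val_lt _
  · rintro z ⟨hz, hxz⟩ z' ⟨hz', hxz'⟩ heq
    obtain ⟨hc, hq⟩ := Prod.mk.inj heq
    have hmod : ∀ z, CodeZ (P ^ k) u z → (B (Y (ψ z)) z).val % P = 1 := by
      intro z hz
      have h1 : φ (B (Y (ψ z)) z) = 1 := by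
        rw [hψB]
        exact hY (ψ z) ⟨z, hz, rfl⟩
      have h2 : (((B (Y (ψ z)) z).val : ℕ) : ZMod P) = ((1 : ℕ) : ZMod P) := by
        have h3 : φ (((B (Y (ψ z)) z).val : ℕ) : ZMod (P ^ k)) = 1 := by
          rw [ZMod.natCast_zmod_val]
          exact h1
        rw [map_natCast] at h3
        rw [h3]; simp
      have h3 := (ZMod.natCast_eq_natCast_iff' _ _ _).mp h2
      rw [h3]
      exact Nat.mod_eq_of_lt hP1
    have hval : (B (Y (ψ z)) z).val = (B (Y (ψ z')) z').val := by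
      rw [← Nat.div_add_mod (B (Y (ψ z)) z).val P, ← Nat.div_add_mod (B (Y (ψ z')) z').val P,
        hq, hmod z hz, hmod z' hz']
    have hs := ZMod.val_injective (P ^ k) hval
    rw [← hc] at hs
    set y := Y (ψ z) with hy
    have hyz : B (ψ y) (ψ z) = 1 := hY (ψ z) ⟨z, hz, rfl⟩
    have hyz' : B (ψ y) (ψ z') = 1 := by rw [← hc]; exact hyz
    have hsub : ∀ v : Fin 4 → ZMod (P ^ k), B v (z' - z) = B v z' - B v z := by
      intro v
      simp only [B, Pi.sub_apply]; ring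
    have hadd : ∀ v : Fin 4 → ZMod (P ^ k), B v (z + z') = B v z + B v z' := by
      intro v
      simp only [B, Pi.add_apply]; ring
    have hz0 : z' - z = 0 := by
      apply cx_inj (toR u) (toR x) y (z + z')
      · have h1 : B (toR u) (z + z') = 0 := by rw [hadd, hz.2.1, hz'.2.1, add_zero]
        have h2 : B (toR x) (z + z') = 0 := by rw [hadd, hxz, hxz', add_zero]
        rw [cx_det _ _ _ _ h1 h2]
        apply cx_isUnit P k hP1 _ hdvd
        rw [map_sub, map_mul, map_mul, map_pow]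
        have h3 : φ (Q (z + z')) = 0 := by
          have h4 : Q (z + z') = Q z + Q z' + 2 * B z z' := by
            simp only [Q, B, Pi.add_apply]; ring
          rw [h4, hz.1, hz'.1, map_add, map_mul, hψB, ← hc]
          have h5 : B (ψ z) (ψ z) = φ (Q z) := (hψB z z).symm
          rw [h5, hz.1]
          simp
        have h4 : φ (B y (z + z')) = 2 := by
          rw [hadd, map_add, hψB, hψB, hyz, hyz']
          norm_num
        have h5 : φ (Q (toR u : Fin 4 → ZMod (P ^ k)) * Q (toR x) - B (toR u) (toR x) ^ 2)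
            = ((Q u * Q x - B u x ^ 2 : ℤ) : ZMod P) := by
          have hφ2 : φ 2 = 2 := map_ofNat φ 2
          simp only [Q, B, toR]
          simp [hφ2]
        have h6 : (ZMod.castHom hdvd (ZMod P)) = φ := rfl
        rw [h6, h3, h4, h5, zero_mul, zero_sub]
        rw [IsUnit.neg_iff]
        apply IsUnit.mul
        · apply IsUnit.pow
          have h7 : IsUnit (((2 : ℕ)) : ZMod P) := by
            rw [ZMod.isUnit_iff_coprime]
            exact Nat.coprime_two_left.mpr hP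
          simpa using h7
        · obtain ⟨a, b, hab⟩ := hD
          have h8 := congrArg (Int.cast : ℤ → ZMod P) hab
          rw [Int.cast_add, Int.cast_mul, Int.cast_mul] at h8
          have h9 : (((P : ℤ)) : ZMod P) = 0 := by simp
          rw [h9, mul_zero, add_zero, Int.cast_one] at h8
          exact IsUnit.of_mul_eq_one_right _ h8
      · rw [hsub, hz.2.1, hz'.2.1, sub_zero]
      · rw [hsub, hxz, hxz', sub_zero]
      · rw [hsub, hs, sub_self]
      · have : B (z + z') (z' - z) = Q z' - Q z := by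
          simp only [Q, B, Pi.add_apply, Pi.sub_apply]; ring
        rw [this, hz.1, hz'.1, sub_zero]
    exact (sub_eq_zero.mp hz0).symm

/-! ### The lower bound -/

lemma cx_totient (P k : ℕ) (hP1 : 1 < P) (hsq : Squarefree P) (hk : 1 ≤ k) :
    P ^ (k - 1) ≤ (P ^ k).totient := by
  have h1 := Nat.totient_mul_prod_primeFactors (P ^ k)
  have h2 : (P ^ k).primeFactors = P.primeFactors := Nat.primeFactors_pow P (by omega)
  rw [h2, Nat.prod_primeFactors_of_squarefree hsq] at h1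
  have h3 : 1 ≤ ∏ p ∈ P.primeFactors, (p - 1) := by
    apply Finset.one_le_prod'
    intro p hp
    have := (Nat.prime_of_mem_primeFactors hp).two_le
    omega
  have h4 : P ^ k = P ^ (k - 1) * P := by
    rw [← pow_succ]
    congr 1
    omega
  have h5 : P ^ (k - 1) * P ≤ (P ^ k).totient * P := by
    rw [h1, ← h4]
    exact Nat.le_mul_of_pos_right _ h3
  exact Nat.le_of_mul_le_mul_right h5 (by omega)

lemma cx_toR {R : Type*} [CommRing R] (u x a : Fin 4 → ℤ) (r : ℤ) :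
    (toR (cxZ u x r a) : Fin 4 → R) = cxZ (toR u) (toR x) (r : R) (toR a) := by
  funext i
  fin_cases i <;> simp [toR, cxZ, cxT, cxA, Q, B]

/-- LX-B5 -/
theorem codes_x (P : ℕ) (hP : Odd P) (hP1 : 1 < P) (hsq : Squarefree P) (u x : Fin 4 → ℤ)
    (hu : IsCoprime (Q u) (P : ℤ)) (hD : IsCoprime (Q u * Q x - B u x ^ 2) (P : ℤ))
    (hr : ∀ p : ℕ, p.Prime → p ∣ P → ∃ r : ℤ, (p : ℤ) ∣ r ^ 2 + 2 * (Q u * Q x - B u x ^ 2))
    (k : ℕ) (hk : 1 ≤ k) :
    P ^ (k - 1) ≤ {z : Fin 4 → ZMod (P ^ k) | CodeZ (P ^ k) u z ∧ B (toR x) z = 0}.ncard ∧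
    {z : Fin 4 → ZMod (P ^ k) | CodeZ (P ^ k) u z ∧ B (toR x) z = 0}.ncard ≤ P ^ (k + 3) := by
  classical
  refine ⟨?_, cx_upper P hP hP1 u x hD k hk⟩
  haveI : NeZero (P ^ k) := ⟨(pow_pos (by omega) k).ne'⟩
  -- the square root
  have hbase : ∃ r : ℤ, (P : ℤ) ∣ r ^ 2 + 2 * (Q u * Q x - B u x ^ 2) := by
    have h1 : ∀ p : ℕ, ∃ r : ℤ, p.Prime → p ∣ P →
        (p : ℤ) ∣ r ^ 2 + 2 * (Q u * Q x - B u x ^ 2) := by
      intro p
      by_cases h : p.Prime ∧ p ∣ P
      · obtain ⟨r, hr⟩ := hr p h.1 h.2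
        exact ⟨r, fun _ _ => hr⟩
      · exact ⟨0, fun h1 h2 => absurd ⟨h1, h2⟩ h⟩
    choose f hf using h1
    obtain ⟨r, hr'⟩ := cx_crt P.primeFactors (fun p hp => Nat.prime_of_mem_primeFactors hp) f
    refine ⟨r, cx_sqfree_dvd P hsq _ fun p hp hpP => ?_⟩
    have h2 := hr' p (Nat.mem_primeFactors.mpr ⟨hp, hpP, by omega⟩)
    have h3 : r ^ 2 + 2 * (Q u * Q x - B u x ^ 2)
        = (r - f p) * (r + f p) + ((f p) ^ 2 + 2 * (Q u * Q x - B u x ^ 2)) := by ring
    rw [h3]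
    exact dvd_add (Dvd.dvd.mul_right h2 _) (hf p hp hpP)
  obtain ⟨r, hr'⟩ := cx_sqrt P hP _ hD hbase k hk
  -- the vector
  have h2P : ∀ p : ℕ, p.Prime → p ∣ P → ¬ (p : ℤ) ∣ 2 := by
    intro p hp hpP h
    have h1 : p ∣ 2 := by exact_mod_cast h
    have h2 := (Nat.prime_dvd_prime_iff_eq hp Nat.prime_two).mp h1
    rw [h2] at hpP
    exact (Nat.not_even_iff_odd.mpr hP) (even_iff_two_dvd.mpr hpP)
  have hDp : ∀ p : ℕ, p.Prime → p ∣ P → ¬ (p : ℤ) ∣ Q u * Q x - B u x ^ 2 := by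
    intro p hp hpP h
    have h1 : (p : ℤ) ∣ (P : ℤ) := Int.natCast_dvd_natCast.mpr hpP
    have h2 := hD.isUnit_of_dvd' h h1
    rw [Int.isUnit_iff_natAbs_eq, Int.natAbs_natCast] at h2
    exact hp.one_lt.ne' h2
  have hi : ∀ p : ℕ, ∃ i : Fin 4, p.Prime → p ∣ P →
      ¬ (p : ℤ) ∣ cxZ u x r (Pi.single i 1) i := by
    intro p
    by_cases h : p.Prime ∧ p ∣ P
    · by_contra hcon
      push Not at hcon
      have h1 : (p : ℤ) ∣ 2 * (Q u * Q x - B u x ^ 2) * r := by
        rw [← cxZ_trace]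
        exact Finset.dvd_sum fun i _ => (hcon i).2.2
      have hpp : Prime (p : ℤ) := Nat.prime_iff_prime_int.mp h.1
      rcases hpp.dvd_or_dvd h1 with h2 | h2
      · rcases hpp.dvd_or_dvd h2 with h3 | h3
        · exact h2P p h.1 h.2 h3
        · exact hDp p h.1 h.2 h3
      · have h3 : (p : ℤ) ∣ (P : ℤ) ^ k :=
          (Int.natCast_dvd_natCast.mpr h.2).trans (dvd_pow_self _ (by omega))
        have h4 := h3.trans hr'
        have h5 : (p : ℤ) ∣ 2 * (Q u * Q x - B u x ^ 2) := by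
          have h6 : 2 * (Q u * Q x - B u x ^ 2)
              = (r ^ 2 + 2 * (Q u * Q x - B u x ^ 2)) - r * r := by ring
          rw [h6]
          exact dvd_sub h4 (Dvd.dvd.mul_left h2 _)
        rcases hpp.dvd_or_dvd h5 with h6 | h6
        · exact h2P p h.1 h.2 h6
        · exact hDp p h.1 h.2 h6
    · exact ⟨0, fun h1 h2 => absurd ⟨h1, h2⟩ h⟩
  choose ix hix using hi
  have ha : ∀ l : Fin 4, ∃ a : ℤ, ∀ p ∈ P.primeFactors,
      (p : ℤ) ∣ a - (Pi.single (ix p) 1 : Fin 4 → ℤ) l := fun l =>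
    cx_crt P.primeFactors (fun p hp => Nat.prime_of_mem_primeFactors hp)
      (fun p => (Pi.single (ix p) 1 : Fin 4 → ℤ) l)
  choose a ha using ha
  set Z : Fin 4 → ℤ := cxZ u x r a with hZ
  have hZp : ∀ p : ℕ, p.Prime → p ∣ P ^ k → ∃ i, ¬ (p : ℤ) ∣ Z i := by
    intro p hp hpk
    have hpP : p ∣ P := hp.dvd_of_dvd_pow hpk
    refine ⟨ix p, fun hdiv => hix p hp hpP ?_⟩
    have h1 : (toR a : Fin 4 → ZMod p) = toR (Pi.single (ix p) 1) := by
      funext l
      have h2 := ha l p (Nat.mem_primeFactors.mpr ⟨hp, hpP, by omega⟩)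
      have h3 := (ZMod.intCast_zmod_eq_zero_iff_dvd _ p).mpr h2
      rw [Int.cast_sub] at h3
      exact sub_eq_zero.mp h3
    have h2 : (toR Z : Fin 4 → ZMod p) = toR (cxZ u x r (Pi.single (ix p) 1)) := by
      rw [hZ, cx_toR, cx_toR, h1]
    have h3 := congrFun h2 (ix p)
    simp only [toR] at h3
    rw [(ZMod.intCast_zmod_eq_zero_iff_dvd _ p).mpr hdiv] at h3
    exact (ZMod.intCast_zmod_eq_zero_iff_dvd _ p).mp h3.symm
  obtain ⟨y, hy⟩ := cx_unimod (P ^ k) hP.pow Z hZp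
  set z₀ : Fin 4 → ZMod (P ^ k) := toR Z with hz₀
  have hz₀' : z₀ = cxZ (toR u) (toR x) (r : ZMod (P ^ k)) (toR a) := by
    rw [hz₀, hZ, cx_toR]
  have hrr : (r : ZMod (P ^ k)) ^ 2 + 2 * (Q (toR u : Fin 4 → ZMod (P ^ k)) * Q (toR x)
      - B (toR u) (toR x) ^ 2) = 0 := by
    have h1 : (P ^ k : ℕ) ∣ ((r ^ 2 + 2 * (Q u * Q x - B u x ^ 2) : ℤ)).natAbs := by
      rw [← Int.natCast_dvd]
      push_cast
      exact hr'
    have h2 := (ZMod.intCast_zmod_eq_zero_iff_dvd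
      (r ^ 2 + 2 * (Q u * Q x - B u x ^ 2)) (P ^ k)).mpr (Int.natCast_dvd.mpr h1)
    rw [← h2]
    simp only [Q, B, toR]
    push_cast
    ring
  have hzQ : Q z₀ = 0 := by rw [hz₀']; exact cxZ_Q _ _ _ _ hrr
  have hzu : B (toR u) z₀ = 0 := by rw [hz₀']; exact cxZ_u _ _ _ _
  have hzx : B (toR x) z₀ = 0 := by rw [hz₀']; exact cxZ_x _ _ _ _
  have hsm : ∀ (v : Fin 4 → ZMod (P ^ k)) (c : ZMod (P ^ k)), B v (c • z₀) = c * B v z₀ := by
    intro v c
    simp only [B, Pi.smul_apply, smul_eq_mul]; ring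
  refine (cx_totient P k hP1 hsq hk).trans ?_
  rw [← ZMod.card_units_eq_totient, ← Nat.card_eq_fintype_card, ← Set.ncard_univ]
  apply Set.ncard_le_ncard_of_injOn (fun c : (ZMod (P ^ k))ˣ => (c : ZMod (P ^ k)) • z₀) _ _
    (Set.toFinite _)
  · intro c _
    refine ⟨⟨?_, ?_, ?_⟩, ?_⟩
    · have : Q ((c : ZMod (P ^ k)) • z₀) = c * (c * Q z₀) := by
        simp only [Q, B, Pi.smul_apply, smul_eq_mul]; ring
      rw [this, hzQ, mul_zero, mul_zero]
    · rw [hsm, hzu, mul_zero]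
    · refine ⟨((c⁻¹ : (ZMod (P ^ k))ˣ) : ZMod (P ^ k)) • y, ?_⟩
      have : B (((c⁻¹ : (ZMod (P ^ k))ˣ) : ZMod (P ^ k)) • y) ((c : ZMod (P ^ k)) • z₀)
          = (((c⁻¹ : (ZMod (P ^ k))ˣ) : ZMod (P ^ k)) * c) * B y z₀ := by
        simp only [B, Pi.smul_apply, smul_eq_mul]; ring
      rw [this, hy, Units.inv_mul, mul_one]
    · rw [hsm, hzx, mul_zero]
  · intro c _ c' _ heq
    apply Units.ext
    have h1 : B y ((c : ZMod (P ^ k)) • z₀) = B y ((c' : ZMod (P ^ k)) • z₀) :=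
      congrArg (B y) heq
    rw [hsm, hsm, hy, mul_one, mul_one] at h1
    exact h1

end Pool.Agent.LX
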