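import Pool.Agent.LX.Defs

/-!
# Connectivity of the directions by isometries (from the lemmas on quaternions)
-/

set_option autoImplicit false

open Matrix

namespace Pool.Agent.LX

theorem conn_Q_hat (w : Fin 4 → ℤ) : Q (hat w) = 2 * Qs w := by
  simp [Q, B, hat, Qs]
  ring

theorem conn_Q_neg (u : Fin 4 → ℤ) : Q (-u) = Q u := by
  simp [Q, B]

theorem conn_Q_iot (u : Fin 4 → ℤ) : Q (iot u) = Q u := by
  simp [Q, B, iot]

theorem conn_hat_iot (w : Fin 4 → ℤ) : hat (iot w) = iot (hat w) := by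
  simp [hat, iot]

theorem conn_iot_iot (u : Fin 4 → ℤ) : iot (iot u) = u := by
  funext i
  fin_cases i <;> simp [iot]

theorem conn_Qs_pos {w : Fin 4 → ℤ} (hw : Prim w) : 0 < Qs w := by
  obtain ⟨i, hi⟩ := hw 2 Nat.prime_two
  have h : w i ≠ 0 := fun h => hi (h ▸ dvd_zero _)
  have h1 : 0 < w i ^ 2 := by positivity
  have h2 : ∀ j, 0 ≤ w j ^ 2 := fun j => sq_nonneg _
  unfold Qs
  have := h2 0
  have := h2 1
  have := h2 2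
  have := h2 3
  fin_cases i <;> simp at h1 <;> positivity

/-- The reflection in the last coordinate. -/
def connJ : Matrix (Fin 4) (Fin 4) ℚ := Matrix.diagonal ![1, 1, 1, -1]

theorem connJ_mulVec (x : Fin 4 → ℚ) : connJ *ᵥ x = iot x := by
  funext i
  rw [connJ, Matrix.mulVec_diagonal]
  fin_cases i <;> simp [iot]

theorem conn_toR_iot (y : Fin 4 → ℤ) : (toR (iot y) : Fin 4 → ℚ) = iot (toR y) := by
  funext i
  fin_cases i <;> simp [iot, toR]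

theorem conn_toR_neg (y : Fin 4 → ℤ) : (toR (-y) : Fin 4 → ℚ) = -toR y := by
  funext i
  simp [toR]

theorem conn_B_iot (x y : Fin 4 → ℚ) : B (iot x) (iot y) = B x y := by
  simp [B, iot]

theorem conn_B_neg (x y : Fin 4 → ℚ) : B (-x) (-y) = B x y := by
  simp [B]

theorem conn_cop {M : ℤ} {u u' : Fin 4 → ℤ} {c κ : ℤ} (h : Rel M u u' c) (hκ : κ ∣ c)
    (hodd : κ % 2 = 1) : IsCoprime κ M := by
  obtain ⟨α, h1, h2, h3, h4, h5⟩ := h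
  rw [Int.isCoprime_iff_gcd_eq_one]
  by_contra hne
  obtain ⟨p, hp, hpd⟩ := Nat.exists_prime_and_dvd hne
  have h6 : (p : ℤ) ∣ κ := (Int.natCast_dvd_natCast.2 hpd).trans (Int.gcd_dvd_left _ _)
  have h7 : (p : ℤ) ∣ M := (Int.natCast_dvd_natCast.2 hpd).trans (Int.gcd_dvd_right _ _)
  refine h5 p hp ?_ (h6.trans hκ) h7
  rintro rfl
  have h8 : (2 : ℤ) ∣ κ := h6
  omega

theorem conn_pos {M : ℤ} {u u' : Fin 4 → ℤ} {c : ℤ} (h : Rel M u u' c) : 0 < c := by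
  obtain ⟨α, h1, h2, h3, h4, h5⟩ := h
  exact h2

/-- A prime `7` modulo `8` which divides neither number. -/
theorem conn_prime (N : ℤ) (hN : 0 < N) : ∃ r : ℤ, 0 < r ∧ r % 8 = 7 ∧ IsCoprime r N := by
  have hu : IsUnit (7 : ZMod 8) := by decide
  obtain ⟨p, hp1, hp2, hp3⟩ := Nat.forall_exists_prime_gt_and_eq_mod hu N.natAbs
  refine ⟨p, by exact_mod_cast hp2.pos, ?_, ?_⟩
  · have h1 : ((p : ℕ) : ZMod 8) = ((7 : ℕ) : ZMod 8) := by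
      rw [hp3]
      rfl
    rw [ZMod.natCast_eq_natCast_iff] at h1
    have h2 : p % 8 = 7 := h1
    omega
  · rw [Int.isCoprime_iff_gcd_eq_one, Int.gcd_eq_natAbs, Int.natAbs_natCast]
    refine (Nat.Prime.coprime_iff_not_dvd hp2).2 fun hd => ?_
    have := Nat.le_of_dvd (by omega) hd
    omega

theorem conn_sq (H_mul : ∀ {M : ℤ} {u₁ u₂ u₃ : Fin 4 → ℤ} {c c' : ℤ}, Rel M u₁ u₂ c →
      Rel M u₂ u₃ c' → Rel M u₁ u₃ (c * c'))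
    (H_neg : ∀ (M : ℤ) (u : Fin 4 → ℤ), Rel M u (-u) 2) {M : ℤ} {u v : Fin 4 → ℤ} {a : ℕ} {y : ℤ}
    (h : Rel M u v (2 ^ a * y ^ 2)) :
    ∃ X : ℤ, Rel M u v (X ^ 2) ∨ Rel M u (-v) (X ^ 2) := by
  rcases Nat.even_or_odd' a with ⟨b, rfl | rfl⟩
  · refine ⟨2 ^ b * y, Or.inl ?_⟩
    have h1 : (2 ^ b * y) ^ 2 = 2 ^ (2 * b) * y ^ 2 := by ring
    rw [h1]
    exact h
  · refine ⟨2 ^ (b + 1) * y, Or.inr ?_⟩
    have h1 : (2 ^ (b + 1) * y) ^ 2 = 2 ^ (2 * b + 1) * y ^ 2 * 2 := by ring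
    rw [h1]
    exact H_mul h (H_neg M v)

/-- The last step. -/
theorem conn_fin
    (H_eichler : ∀ (M : ℤ), 0 < M → ∀ (u u' : Fin 4 → ℤ), Q u = 2 * M → Q u' = 2 * M →
      ∀ (X : ℤ), Rel M u u' (X ^ 2) →
      ∃ (A : Matrix (Fin 4) (Fin 4) ℚ) (t : ℕ), IsIso A ∧ A *ᵥ toR u = toR u' ∧ 0 < t ∧ Den A t ∧
        ∀ p : ℕ, p.Prime → p ∣ t → (p % 8 = 1 ∨ p % 8 = 7) ∧ ¬ (p : ℤ) ∣ M)
    (w w' : Fin 4 → ℤ) (hw : Prim w) (hQ : Qs w' = Qs w) (u : Fin 4 → ℤ)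
    (hu : u = hat w ∨ u = hat (iot w)) (X : ℤ)
    (hX : Rel (Qs w) u (hat w') (X ^ 2) ∨ Rel (Qs w) u (-hat w') (X ^ 2)) :
    ∃ (A : Matrix (Fin 4) (Fin 4) ℚ) (t : ℕ), IsIso A ∧ A *ᵥ toR (hat w) = toR (hat w') ∧
      0 < t ∧ Den A t ∧
      ∀ p : ℕ, p.Prime → p ∣ t → (p % 8 = 1 ∨ p % 8 = 7) ∧ ¬ (p : ℤ) ∣ Qs w := by
  have hM := conn_Qs_pos hw
  have hQu : Q u = 2 * Qs w := by
    rcases hu with rfl | rfl
    · exact conn_Q_hat w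
    · rw [conn_hat_iot, conn_Q_iot]
      exact conn_Q_hat w
  have hQ' : Q (hat w') = 2 * Qs w := by rw [conn_Q_hat, hQ]
  -- an isometry from `u` to `hat w'`
  have h1 : ∃ (A : Matrix (Fin 4) (Fin 4) ℚ) (t : ℕ), IsIso A ∧ A *ᵥ toR u = toR (hat w') ∧
      0 < t ∧ Den A t ∧
      ∀ p : ℕ, p.Prime → p ∣ t → (p % 8 = 1 ∨ p % 8 = 7) ∧ ¬ (p : ℤ) ∣ Qs w := by
    rcases hX with hX | hX
    · exact H_eichler _ hM u (hat w') hQu hQ' X hX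
    · obtain ⟨A, t, hA, hAu, ht, hD, hp⟩ := H_eichler _ hM u (-hat w') hQu
        (by rw [conn_Q_neg]; exact hQ') X hX
      refine ⟨-A, t, fun x y => ?_, ?_, ht, fun y => ?_, hp⟩
      · rw [Matrix.neg_mulVec, Matrix.neg_mulVec, conn_B_neg]
        exact hA x y
      · rw [Matrix.neg_mulVec, hAu, conn_toR_neg, neg_neg]
      · obtain ⟨z, hz⟩ := hD y
        refine ⟨-z, ?_⟩
        rw [Matrix.neg_mulVec, smul_neg, hz, conn_toR_neg]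
  obtain ⟨A, t, hA, hAu, ht, hD, hp⟩ := h1
  rcases hu with rfl | rfl
  · exact ⟨A, t, hA, hAu, ht, hD, hp⟩
  · refine ⟨A * connJ, t, fun x y => ?_, ?_, ht, fun y => ?_, hp⟩
    · rw [← Matrix.mulVec_mulVec, ← Matrix.mulVec_mulVec, hA, connJ_mulVec, connJ_mulVec,
        conn_B_iot]
    · rw [← Matrix.mulVec_mulVec, connJ_mulVec, ← conn_toR_iot, ← conn_hat_iot]
      exact hAu
    · rw [← Matrix.mulVec_mulVec, connJ_mulVec, ← conn_toR_iot]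
      exact hD (iot y)

/-- Connectivity. -/
theorem conn_of
    (H_mul : ∀ {M : ℤ} {u₁ u₂ u₃ : Fin 4 → ℤ} {c c' : ℤ}, Rel M u₁ u₂ c →
      Rel M u₂ u₃ c' → Rel M u₁ u₃ (c * c'))
    (H_neg : ∀ (M : ℤ) (u : Fin 4 → ℤ), Rel M u (-u) 2)
    (H_iot : ∀ {M : ℤ} {u u' : Fin 4 → ℤ} {c : ℤ}, Rel M u u' c → Rel M (iot u) (iot u') c)
    (H_trans : ∀ (w w' : Fin 4 → ℤ), Prim w → InW w w' → ∃ c : ℤ, Rel (Qs w) (hat w) (hat w') c)
    (H_noob_gen : ∀ (w : Fin 4 → ℤ), Prim w → ¬ Ch w →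
      ∃ (j : ℕ) (c : ℤ), (c % 8 = 3 ∨ c % 8 = 5) ∧
        Rel (Qs w) (hat (iot w)) (hat w) (2 ^ j * c))
    (H_noob_ch : ∀ (w : Fin 4 → ℤ), Prim w → Ch w → ∀ (r : ℤ), (r = 3 ∨ r = 7) →
      ∃ (j : ℕ) (c : ℤ), c % 8 = r ∧ Rel (Qs w) (hat (iot w)) (hat w) (2 ^ j * c))
    (H_units_gen : ∀ (w : Fin 4 → ℤ), Prim w → ¬ Ch w → ∀ (c : ℤ), c % 8 = 7 → 0 < c →
      IsCoprime c (Qs w) → ∃ k : ℤ, k ≠ 0 ∧ Rel (Qs w) (hat w) (hat w) (c * k ^ 2))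
    (H_units_ch : ∀ (w : Fin 4 → ℤ), Prim w → Ch w → ∀ (c : ℤ), c % 8 = 1 → 0 < c →
      IsCoprime c (Qs w) → ∃ k : ℤ, k ≠ 0 ∧ Rel (Qs w) (hat w) (hat w) (c * k ^ 2))
    (H_eichler : ∀ (M : ℤ), 0 < M → ∀ (u u' : Fin 4 → ℤ), Q u = 2 * M → Q u' = 2 * M →
      ∀ (X : ℤ), Rel M u u' (X ^ 2) →
      ∃ (A : Matrix (Fin 4) (Fin 4) ℚ) (t : ℕ), IsIso A ∧ A *ᵥ toR u = toR u' ∧ 0 < t ∧ Den A t ∧
        ∀ p : ℕ, p.Prime → p ∣ t → (p % 8 = 1 ∨ p % 8 = 7) ∧ ¬ (p : ℤ) ∣ M)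
    (w w' : Fin 4 → ℤ) (hw : Prim w) (hw' : InW w w') :
    ∃ (A : Matrix (Fin 4) (Fin 4) ℚ) (t : ℕ), IsIso A ∧ A *ᵥ toR (hat w) = toR (hat w') ∧
      0 < t ∧ Den A t ∧
      ∀ p : ℕ, p.Prime → p ∣ t → (p % 8 = 1 ∨ p % 8 = 7) ∧ ¬ (p : ℤ) ∣ Qs w := by
  obtain ⟨hp', hQ, hCh⟩ := hw'
  have hM := conn_Qs_pos hw
  obtain ⟨c₀, hc₀⟩ := H_trans w w' hw ⟨hp', hQ, hCh⟩
  have hc₀pos := conn_pos hc₀
  -- the odd part
  obtain ⟨a, κ, hκ2, hκ⟩ : ∃ (a : ℕ) (κ : ℤ), κ % 2 = 1 ∧ c₀ = 2 ^ a * κ := by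
    obtain ⟨a, m, hm, he⟩ := Nat.exists_eq_two_pow_mul_odd (n := c₀.natAbs) (by omega)
    refine ⟨a, m, ?_, ?_⟩
    · obtain ⟨l, hl⟩ := hm
      omega
    · have h1 : (c₀.natAbs : ℤ) = c₀ := Int.natAbs_of_nonneg hc₀pos.le
      rw [← h1, he]
      push_cast
      ring
  -- reduction to a relation whose odd part is a square
  suffices hmain : ∃ (u : Fin 4 → ℤ) (b : ℕ) (y : ℤ), (u = hat w ∨ u = hat (iot w)) ∧
      Rel (Qs w) u (hat w') (2 ^ b * y ^ 2) by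
    obtain ⟨u, b, y, hu, hr⟩ := hmain
    obtain ⟨X, hX⟩ := conn_sq H_mul H_neg hr
    exact conn_fin H_eichler w w' hw hQ u hu X hX
  -- positivity and coprimality of odd parts
  have hodd : ∀ {u v : Fin 4 → ℤ} {j : ℕ} {c : ℤ}, c % 2 = 1 → Rel (Qs w) u v (2 ^ j * c) →
      0 < c ∧ IsCoprime c (Qs w) := by
    intro u v j c hc h
    have h1 := conn_pos h
    exact ⟨(mul_pos_iff_of_pos_left (by positivity : (0 : ℤ) < 2 ^ j)).1 h1,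
      conn_cop h (Dvd.intro_left _ rfl) hc⟩
  rw [hκ] at hc₀
  obtain ⟨hκ0, hκc⟩ := hodd hκ2 hc₀
  by_cases hC : Ch w
  · have hC' : Ch w' := hCh.2 hC
    -- once the odd part is 1 modulo 8
    have key : ∀ (u : Fin 4 → ℤ) (b : ℕ) (κ : ℤ), (u = hat w ∨ u = hat (iot w)) → κ % 8 = 1 →
        Rel (Qs w) u (hat w') (2 ^ b * κ) → ∃ (u : Fin 4 → ℤ) (b : ℕ) (y : ℤ),
        (u = hat w ∨ u = hat (iot w)) ∧ Rel (Qs w) u (hat w') (2 ^ b * y ^ 2) := by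
      intro u b κ hu hκ1 h
      obtain ⟨h0, h1⟩ := hodd (by omega) h
      obtain ⟨k, _, hk⟩ := H_units_ch w' hp' hC' κ hκ1 h0 (by rw [hQ]; exact h1)
      rw [hQ] at hk
      refine ⟨u, b, κ * k, hu, ?_⟩
      have h2 : 2 ^ b * (κ * k) ^ 2 = 2 ^ b * κ * (κ * k ^ 2) := by ring
      rw [h2]
      exact H_mul h hk
    have h8 : κ % 8 = 1 ∨ κ % 8 = 3 ∨ κ % 8 = 5 ∨ κ % 8 = 7 := by omega
    rcases h8 with h8 | h8 | h8 | h8
    · exact key _ a κ (Or.inl rfl) h8 hc₀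
    · obtain ⟨j, c, hc, h⟩ := H_noob_ch w hw hC 3 (Or.inl rfl)
      refine key _ (j + a) (c * κ) (Or.inr rfl) (by rw [Int.mul_emod, hc, h8]; rfl) ?_
      have h2 : (2 : ℤ) ^ (j + a) * (c * κ) = 2 ^ j * c * (2 ^ a * κ) := by ring
      rw [h2]
      exact H_mul h hc₀
    · obtain ⟨j, c, hc, h⟩ := H_noob_ch w hw hC 3 (Or.inl rfl)
      obtain ⟨j', c', hc', h'⟩ := H_noob_ch w hw hC 7 (Or.inr rfl)
      have h3 := H_iot h
      rw [← conn_hat_iot, ← conn_hat_iot, conn_iot_iot] at h3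
      have h4 := H_mul (H_mul h3 h') hc₀
      refine key _ (j + j' + a) (c * c' * κ) (Or.inl rfl)
        (by rw [Int.mul_emod, Int.mul_emod c c', hc, hc', h8]; rfl) ?_
      have h2 : (2 : ℤ) ^ (j + j' + a) * (c * c' * κ) =
          2 ^ j * c * (2 ^ j' * c') * (2 ^ a * κ) := by ring
      rw [h2]
      exact h4
    · obtain ⟨j, c, hc, h⟩ := H_noob_ch w hw hC 7 (Or.inr rfl)
      refine key _ (j + a) (c * κ) (Or.inr rfl) (by rw [Int.mul_emod, hc, h8]; rfl) ?_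
      have h2 : (2 : ℤ) ^ (j + a) * (c * κ) = 2 ^ j * c * (2 ^ a * κ) := by ring
      rw [h2]
      exact H_mul h hc₀
  · have hC' : ¬ Ch w' := fun h => hC (hCh.1 h)
    -- once the odd part is 1 or 7 modulo 8
    have key : ∀ (u : Fin 4 → ℤ) (b : ℕ) (κ : ℤ), (u = hat w ∨ u = hat (iot w)) →
        (κ % 8 = 1 ∨ κ % 8 = 7) →
        Rel (Qs w) u (hat w') (2 ^ b * κ) → ∃ (u : Fin 4 → ℤ) (b : ℕ) (y : ℤ),
        (u = hat w ∨ u = hat (iot w)) ∧ Rel (Qs w) u (hat w') (2 ^ b * y ^ 2) := by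
      intro u b κ hu hκ1 h
      obtain ⟨h0, h1⟩ := hodd (by omega) h
      rcases hκ1 with hκ1 | hκ1
      · obtain ⟨r, hr0, hr7, hrc⟩ := conn_prime (Qs w) hM
        obtain ⟨k, _, hk⟩ := H_units_gen w' hp' hC' (κ * r)
          (by rw [Int.mul_emod, hκ1, hr7]; rfl) (mul_pos h0 hr0)
          (by rw [hQ]; exact h1.mul_left hrc)
        obtain ⟨k', _, hk'⟩ := H_units_gen w' hp' hC' r hr7 hr0 (by rw [hQ]; exact hrc)
        rw [hQ] at hk hk'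
        refine ⟨u, b, κ * r * k * k', hu, ?_⟩
        have h2 : 2 ^ b * (κ * r * k * k') ^ 2 =
            2 ^ b * κ * (κ * r * k ^ 2) * (r * k' ^ 2) := by ring
        rw [h2]
        exact H_mul (H_mul h hk) hk'
      · obtain ⟨k, _, hk⟩ := H_units_gen w' hp' hC' κ hκ1 h0 (by rw [hQ]; exact h1)
        rw [hQ] at hk
        refine ⟨u, b, κ * k, hu, ?_⟩
        have h2 : 2 ^ b * (κ * k) ^ 2 = 2 ^ b * κ * (κ * k ^ 2) := by ring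
        rw [h2]
        exact H_mul h hk
    have h8 : (κ % 8 = 1 ∨ κ % 8 = 7) ∨ (κ % 8 = 3 ∨ κ % 8 = 5) := by omega
    rcases h8 with h8 | h8
    · exact key _ a κ (Or.inl rfl) h8 hc₀
    · obtain ⟨j, c, hc, h⟩ := H_noob_gen w hw hC
      refine key _ (j + a) (c * κ) (Or.inr rfl) ?_ ?_
      · rw [Int.mul_emod]
        rcases hc with hc | hc <;> rcases h8 with h8 | h8 <;> rw [hc, h8] <;> decide
      · have h2 : (2 : ℤ) ^ (j + a) * (c * κ) = 2 ^ j * c * (2 ^ a * κ) := by ring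
        rw [h2]
        exact H_mul h hc₀

end Pool.Agent.LX
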