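import Pool.Agent.LX.Defs

set_option autoImplicit false

/-!
From a relation of square norm to an isometry whose denominator is composed of primes which are
`1` or `7` modulo `8`.
-/

open Matrix Quaternion

namespace Pool.Agent.LX

/-! ### The conjugation of the coefficients -/

theorem ei_sg_mul (a b : HZ) : sg (a * b) = sg a * sg b := by
  ext <;> simp [sg]

theorem ei_sg_add (a b : HZ) : sg (a + b) = sg a + sg b := by
  ext <;> simp [sg]

theorem ei_sg_star (a : HZ) : sg (star a) = star (sg a) := by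
  ext <;> simp [sg]

theorem ei_sg_sg (a : HZ) : sg (sg a) = a := by
  ext <;> simp [sg]

theorem ei_sg_intCast (n : ℤ) : sg (n : HZ) = n := by
  ext <;> simp [sg]

theorem ei_normSq_sg (a : HZ) : normSq (sg a) = star (normSq a) := by
  rw [normSq_def', normSq_def']
  simp [sg]

theorem ei_sg_io (y : Fin 4 → ℤ) : sg (io y) = - star (io y) := by
  ext <;> simp [sg, io]

theorem ei_sg_star_io (y : Fin 4 → ℤ) : sg (star (io y)) = - io y := by
  ext <;> simp [sg, io]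

theorem ei_normSq_io (y : Fin 4 → ℤ) : normSq (io y) = ((Q y : ℤ) : Zsqrtd 2) := by
  rw [normSq_def']
  ext
  · simp [io, Q, B, pow_two]; ring
  · simp [io, Q, B, pow_two]

theorem ei_io_add (x y : Fin 4 → ℤ) : io (x + y) = io x + io y := by
  ext <;> simp [io]

theorem ei_io_act (α : HZ) (y : Fin 4 → ℤ) : io (act α y) = α * io y * sg (star α) := by
  ext <;> simp [io, act, sg] <;> ring

/-! ### The vectors `β` -/

/-- The quaternions which intertwine `u` and `u'`. -/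
noncomputable def eiB (M : ℤ) (u u' : Fin 4 → ℤ) (γ : HZ) : HZ :=
  ((2 * M : ℤ) : HZ) * γ + io u' * sg γ * star (io u)

theorem ei_star_mul_io {M : ℤ} {u : Fin 4 → ℤ} (hu : Q u = 2 * M) :
    star (io u) * io u = ((2 * M : ℤ) : HZ) := by
  rw [star_mul_self, ei_normSq_io, hu]
  rfl

theorem ei_io_mul_star {M : ℤ} {u : Fin 4 → ℤ} (hu : Q u = 2 * M) :
    io u * star (io u) = ((2 * M : ℤ) : HZ) := by
  rw [self_mul_star, ei_normSq_io, hu]
  rfl

theorem ei_beta_int {M : ℤ} {u u' : Fin 4 → ℤ} (hu : Q u = 2 * M) (hu' : Q u' = 2 * M) (γ : HZ) :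
    eiB M u u' γ * io u = io u' * sg (eiB M u u' γ) := by
  have h1 : eiB M u u' γ * io u = ((2 * M : ℤ) : HZ) * (γ * io u) +
      ((2 * M : ℤ) : HZ) * (io u' * sg γ) := by
    rw [eiB, add_mul, mul_assoc, mul_assoc (io u' * sg γ), ei_star_mul_io hu,
      (Int.cast_commute (2 * M) (io u' * sg γ)).eq]
  have h2 : io u' * sg (eiB M u u' γ) = ((2 * M : ℤ) : HZ) * (io u' * sg γ) +
      ((2 * M : ℤ) : HZ) * (γ * io u) := by
    rw [eiB, ei_sg_add, ei_sg_mul, ei_sg_mul, ei_sg_mul, ei_sg_sg, ei_sg_star_io, ei_sg_intCast,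
      mul_add, ei_sg_io u']
    congr 1
    · rw [← mul_assoc, ← (Int.cast_commute (2 * M) (io u')).eq, mul_assoc]
    · have h3 : io u' * (-star (io u') * γ * -io u) = io u' * star (io u') * (γ * io u) := by
        have h4 : -star (io u') * γ * -io u = star (io u') * γ * io u := by
          have h5 := neg_mul (star (io u')) γ
          have h6 := neg_mul_neg (star (io u') * γ) (io u)
          rw [← h6]
          congr 1
        rw [h4]
        simp only [mul_assoc]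
      rw [h3, ei_io_mul_star hu']
  rw [h1, h2, add_comm]

theorem ei_normSq_im {M : ℤ} (hM : M ≠ 0) {u u' : Fin 4 → ℤ} (hu : Q u = 2 * M)
    (hu' : Q u' = 2 * M) {β : HZ} (h : β * io u = io u' * sg β) : (normSq β).im = 0 := by
  have h1 := congrArg normSq h
  rw [map_mul, map_mul, ei_normSq_io, ei_normSq_io, ei_normSq_sg, hu, hu'] at h1
  have h2 := congrArg Zsqrtd.im h1
  simp at h2
  have h3 : M * (normSq β).im = 0 := by linarith
  exact (mul_eq_zero.mp h3).resolve_left hM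

theorem ei_re_conj (a z : HZ) : (a * z * star a).re = normSq a * z.re := by
  rw [normSq_def']
  simp
  ring

theorem ei_re_cast_mul (n : ℤ) (ξ : HZ) : ((n : HZ) * ξ).re = (n : Zsqrtd 2) * ξ.re := by
  simp

theorem ei_add_star (c : ℤ) (r : Zsqrtd 2) :
    (c : Zsqrtd 2) * r + c * star r = ((2 * c * r.re : ℤ) : Zsqrtd 2) := by
  ext
  · rw [Zsqrtd.re_add, Zsqrtd.re_intCast, Zsqrtd.re_mul, Zsqrtd.re_mul, Zsqrtd.re_intCast,
      Zsqrtd.im_intCast]
    simp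
    ring
  · rw [Zsqrtd.im_add, Zsqrtd.im_intCast, Zsqrtd.im_mul, Zsqrtd.im_mul, Zsqrtd.re_intCast,
      Zsqrtd.im_intCast]
    simp

theorem ei_trace {M : ℤ} {u u' : Fin 4 → ℤ} (hu' : Q u' = 2 * M) {α : HZ}
    (h : α * io u = io u' * sg α) (γ : HZ) :
    (α * star (eiB M u u' γ)).re = ((4 * M * (α * star γ).re.re : ℤ) : Zsqrtd 2) := by
  have h1 : α * star (eiB M u u' γ) = ((2 * M : ℤ) : HZ) * (α * star γ) +
      io u' * sg (α * star γ) * star (io u') := by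
    have h2 : star (eiB M u u' γ) = star γ * ((2 * M : ℤ) : HZ) +
        io u * (star (sg γ) * star (io u')) := by
      have h3 := star_add (((2 * M : ℤ) : HZ) * γ) (io u' * sg γ * star (io u))
      rw [eiB, h3]
      rw [star_mul, star_mul, star_mul, star_star, star_intCast]
    rw [h2, mul_add, ← mul_assoc, ← (Int.cast_commute (2 * M) (α * star γ)).eq,
      ← mul_assoc α (io u), h, ei_sg_mul, ei_sg_star]
    noncomm_ring
  rw [h1, re_add, ei_re_conj, ei_normSq_io, hu', ei_re_cast_mul]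
  have h3 : (sg (α * star γ)).re = star (α * star γ).re := rfl
  rw [h3, ei_add_star]
  congr 1
  ring

/-! ### A power of two -/

theorem ei_tr_add (α γ γ' : HZ) :
    (α * star (γ + γ')).re.re = (α * star γ).re.re + (α * star γ').re.re := by
  simp
  ring

theorem ei_tr_neg (α γ : HZ) : (α * star (-γ)).re.re = -(α * star γ).re.re := by
  simp
  ring

/-- The integers `2 X X₁ - tr (α β)`. -/
def eiF (M X : ℤ) (α : HZ) : (ℤ × HZ) →+ ℤ where
  toFun x := 2 * X * x.1 - 8 * M * (α * star x.2).re.re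
  map_zero' := by simp
  map_add' x y := by
    rw [Prod.fst_add, Prod.snd_add, ei_tr_add]
    ring

theorem ei_comb (M X : ℤ) (α : HZ) (hX : X ≠ 0)
    (hM : ∀ p : ℕ, p.Prime → p ≠ 2 → (p : ℤ) ∣ X → ¬ (p : ℤ) ∣ M)
    (hmin : ∀ p : ℕ, p.Prime → p ≠ 2 → (p : ℤ) ∣ X → ¬ ∃ α₁ : HZ, α = (p : HZ) * α₁) :
    ∃ (a : ℕ) (X₁ : ℤ) (γ : HZ), 2 * X * X₁ - 8 * M * (α * star γ).re.re = 2 ^ a := by
  classical
  let f : (ℤ × HZ) →ₗ[ℤ] ℤ := (eiF M X α).toIntLinearMap
  have hf : ∀ x, f x = 2 * X * x.1 - 8 * M * (α * star x.2).re.re := fun x => rfl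
  obtain ⟨g, hg⟩ := (IsPrincipalIdealRing.principal (LinearMap.range f : Ideal ℤ)).principal
  have hdvd : ∀ x, g ∣ f x := by
    intro x
    have h1 : f x ∈ (LinearMap.range f : Ideal ℤ) := ⟨x, rfl⟩
    rw [hg] at h1
    exact Ideal.mem_span_singleton.mp h1
  have hmem : ∃ x, f x = g := by
    have h1 : g ∈ (LinearMap.range f : Ideal ℤ) := by
      rw [hg]
      exact Ideal.mem_span_singleton_self g
    exact h1
  have hgX : g ∣ 2 * X := by
    have h1 := hdvd (1, 0)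
    rw [hf] at h1
    simpa using h1
  have hg0 : g ≠ 0 := by
    rintro rfl
    rw [zero_dvd_iff] at hgX
    omega
  have hpow : g.natAbs = 2 ^ g.natAbs.primeFactorsList.length := by
    apply Nat.eq_prime_pow_of_unique_prime_dvd (Int.natAbs_ne_zero.mpr hg0)
    intro p hp hpg
    by_contra hp2
    have hpg' : (p : ℤ) ∣ g := Int.natCast_dvd.mpr hpg
    have hpi : Prime (p : ℤ) := Nat.prime_iff_prime_int.mp hp
    have hnot2 : ¬ (p : ℤ) ∣ 2 := by
      intro h2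
      have h3 : p ∣ 2 := by exact_mod_cast h2
      exact hp2 ((Nat.prime_dvd_prime_iff_eq hp Nat.prime_two).mp h3)
    have hpX : (p : ℤ) ∣ X := (hpi.dvd_or_dvd (hpg'.trans hgX)).resolve_left hnot2
    have hpM := hM p hp hp2 hpX
    have hkey : ∀ γ : HZ, (p : ℤ) ∣ (α * star γ).re.re := by
      intro γ
      have h1 := hpg'.trans (hdvd (0, γ))
      rw [hf] at h1
      have h2 : (p : ℤ) ∣ 8 * M * (α * star γ).re.re := by
        have h3 : 2 * X * (0 : ℤ) - 8 * M * (α * star γ).re.re =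
            -(8 * M * (α * star γ).re.re) := by ring
        have h4 : (p : ℤ) ∣ 2 * X * (0 : ℤ) - 8 * M * (α * star γ).re.re := h1
        rw [h3] at h4
        exact (dvd_neg).mp h4
      rcases hpi.dvd_or_dvd h2 with h3 | h3
      · exfalso
        rcases hpi.dvd_or_dvd h3 with h4 | h4
        · have h5 : (p : ℤ) ∣ 2 ^ 3 := by norm_num; exact h4
          exact hnot2 (hpi.dvd_of_dvd_pow h5)
        · exact hpM h4
      · exact h3
    have e : ∀ z : Zsqrtd 2, (p : ℤ) ∣ z.re → (p : ℤ) ∣ 2 * z.im →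
        ∃ z₁ : Zsqrtd 2, z = (p : Zsqrtd 2) * z₁ := by
      rintro ⟨a, b⟩ ⟨c, hc⟩ hb
      obtain ⟨d, hd⟩ := (hpi.dvd_or_dvd hb).resolve_left hnot2
      refine ⟨⟨c, d⟩, ?_⟩
      ext
      · simpa using hc
      · simpa using hd
    have h1 := hkey ⟨1, 0, 0, 0⟩
    have h2 := hkey ⟨⟨0, 1⟩, 0, 0, 0⟩
    have h3 := hkey ⟨0, 1, 0, 0⟩
    have h4 := hkey ⟨0, ⟨0, 1⟩, 0, 0⟩
    have h5 := hkey ⟨0, 0, 1, 0⟩
    have h6 := hkey ⟨0, 0, ⟨0, 1⟩, 0⟩
    have h7 := hkey ⟨0, 0, 0, 1⟩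
    have h8 := hkey ⟨0, 0, 0, ⟨0, 1⟩⟩
    simp at h1 h2 h3 h4 h5 h6 h7 h8
    obtain ⟨z0, hz0⟩ := e α.re h1 h2
    obtain ⟨z1, hz1⟩ := e α.imI h3 h4
    obtain ⟨z2, hz2⟩ := e α.imJ h5 h6
    obtain ⟨z3, hz3⟩ := e α.imK h7 h8
    refine hmin p hp hp2 hpX ⟨⟨z0, z1, z2, z3⟩, ?_⟩
    apply Quaternion.ext
    · rw [hz0]; simp
    · rw [hz1]; simp
    · rw [hz2]; simp
    · rw [hz3]; simp
  obtain ⟨⟨X₁, γ⟩, hx⟩ := hmem
  rw [hf] at hx
  have hpow' : (g.natAbs : ℤ) = 2 ^ g.natAbs.primeFactorsList.length := by exact_mod_cast hpow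
  rcases Int.natAbs_eq g with h | h
  · refine ⟨g.natAbs.primeFactorsList.length, X₁, γ, ?_⟩
    rw [← hpow', ← h]
    exact hx
  · refine ⟨g.natAbs.primeFactorsList.length, -X₁, -γ, ?_⟩
    rw [← hpow', ei_tr_neg]
    have h1 : 2 * X * X₁ - 8 * M * (α * star γ).re.re = g := hx
    linarith

/-! ### The isometry of a quaternion -/

theorem ei_act_add (α : HZ) (x y : Fin 4 → ℤ) : act α (x + y) = act α x + act α y := by
  funext i
  fin_cases i <;> simp [act, io] <;> ring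

theorem ei_act_sum (α : HZ) (y : Fin 4 → ℤ) (i : Fin 4) :
    act α y i = ∑ k, act α (Pi.single k 1) i * y k := by
  rw [Fin.sum_univ_four]
  fin_cases i <;> simp [act, io, Pi.single_apply] <;> ring

theorem ei_Q_act (α : HZ) (N : ℤ) (hN : normSq α = (N : Zsqrtd 2)) (y : Fin 4 → ℤ) :
    Q (act α y) = N ^ 2 * Q y := by
  have h1 := congrArg normSq (ei_io_act α y)
  rw [map_mul, map_mul, ei_normSq_io, ei_normSq_io, ei_normSq_sg, normSq_star, hN] at h1
  have h2 := congrArg Zsqrtd.re h1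
  have h3 : star ((N : ℤ) : Zsqrtd 2) = ((N : ℤ) : Zsqrtd 2) := by ext <;> simp
  rw [h3, Zsqrtd.re_intCast, ← Int.cast_mul, ← Int.cast_mul, Zsqrtd.re_intCast] at h2
  rw [h2]
  ring

theorem ei_B_act (α : HZ) (N : ℤ) (hN : normSq α = (N : Zsqrtd 2)) (x y : Fin 4 → ℤ) :
    B (act α x) (act α y) = N ^ 2 * B x y := by
  have h : ∀ a b : Fin 4 → ℤ, Q (a + b) = Q a + Q b + 2 * B a b := by
    intro a b
    simp only [Q, B, Pi.add_apply]
    ring
  have h1 := h (act α x) (act α y)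
  rw [← ei_act_add, ei_Q_act α N hN, ei_Q_act α N hN, ei_Q_act α N hN, h x y] at h1
  linarith

/-- The matrix of the isometry. -/
noncomputable def eiA (α : HZ) (N : ℤ) : Matrix (Fin 4) (Fin 4) ℚ :=
  Matrix.of fun i k => (act α (Pi.single k 1) i : ℚ) / N

theorem eiA_mulVec (α : HZ) (N : ℤ) (y : Fin 4 → ℤ) (i : Fin 4) :
    (eiA α N *ᵥ toR y) i = (act α y i : ℚ) / N := by
  rw [Matrix.mulVec, dotProduct, ei_act_sum, Int.cast_sum, Finset.sum_div]
  refine Finset.sum_congr rfl fun k _ => ?_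
  rw [eiA, Matrix.of_apply, toR, Int.cast_mul]
  ring

theorem ei_B_smul (a : ℚ) (x y : Fin 4 → ℚ) : B (a • x) (a • y) = a ^ 2 * B x y := by
  simp only [B, Pi.smul_apply, smul_eq_mul]
  ring

theorem ei_B_toR (x y : Fin 4 → ℤ) : B (toR x : Fin 4 → ℚ) (toR y) = (B x y : ℤ) := by
  simp only [B, toR]
  push_cast
  ring

theorem ei_common (x : Fin 4 → ℚ) : ∃ D : ℕ, 0 < D ∧ ∃ z : Fin 4 → ℤ, (D : ℚ) • x = toR z := by
  refine ⟨∏ i, (x i).den, Finset.prod_pos fun i _ => (x i).den_pos,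
    fun i => (x i).num * ∏ j ∈ Finset.univ.erase i, ((x j).den : ℤ), ?_⟩
  funext i
  rw [Pi.smul_apply, smul_eq_mul, toR, ← Finset.mul_prod_erase Finset.univ _ (Finset.mem_univ i)]
  push_cast
  have h := Rat.mul_den_eq_num (x i)
  calc ((x i).den : ℚ) * (∏ j ∈ Finset.univ.erase i, ((x j).den : ℚ)) * x i
      = (x i * (x i).den) * ∏ j ∈ Finset.univ.erase i, ((x j).den : ℚ) := by ring
    _ = _ := by rw [h]

theorem eiA_isIso (α : HZ) (N : ℤ) (hN0 : N ≠ 0) (hN : normSq α = (N : Zsqrtd 2)) :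
    IsIso (eiA α N) := by
  have hN0' : (N : ℚ) ≠ 0 := by exact_mod_cast hN0
  have key : ∀ x y : Fin 4 → ℤ, B (eiA α N *ᵥ toR x) (eiA α N *ᵥ toR y) =
      B (toR x : Fin 4 → ℚ) (toR y) := by
    intro x y
    have h1 : ∀ z : Fin 4 → ℤ, eiA α N *ᵥ toR z = (1 / (N : ℚ)) • (toR (act α z) : Fin 4 → ℚ) := by
      intro z
      funext i
      rw [eiA_mulVec, Pi.smul_apply, smul_eq_mul, toR]
      ring
    rw [h1, h1, ei_B_smul, ei_B_toR, ei_B_toR, ei_B_act α N hN]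
    push_cast
    field_simp
  intro x y
  obtain ⟨D, hD, x', hx⟩ := ei_common x
  obtain ⟨E, hE, y', hy⟩ := ei_common y
  have hDE : ((D : ℚ) * E) ^ 2 ≠ 0 := by positivity
  have h1 : ((D : ℚ) * E) • x = toR (fun i => (E : ℤ) * x' i) := by
    funext i
    have h2 := congrFun hx i
    rw [Pi.smul_apply, smul_eq_mul] at h2 ⊢
    rw [toR] at h2 ⊢
    push_cast
    rw [← h2]
    ring
  have h2 : ((D : ℚ) * E) • y = toR (fun i => (D : ℤ) * y' i) := by
    funext i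
    have h2 := congrFun hy i
    rw [Pi.smul_apply, smul_eq_mul] at h2 ⊢
    rw [toR] at h2 ⊢
    push_cast
    rw [← h2]
    ring
  have h3 := key (fun i => (E : ℤ) * x' i) (fun i => (D : ℤ) * y' i)
  rw [← h1, ← h2, Matrix.mulVec_smul, Matrix.mulVec_smul, ei_B_smul, ei_B_smul] at h3
  exact mul_left_cancel₀ hDE h3

/-! ### Congruences -/

theorem ei_act_congr (α δ : HZ) (F : ℤ) (y : Fin 4 → ℤ) (i : Fin 4) :
    F ∣ act (α + (F : HZ) * δ) y i - act α y i := by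
  have h0 : star (α + (F : HZ) * δ) = star α + (F : HZ) * star δ := by
    ext <;> simp [add_comm]
  have hc : ∀ a : HZ, a * (F : HZ) = (F : HZ) * a := fun a => ((Int.cast_commute F a).eq).symm
  obtain ⟨η, hη⟩ : ∃ η : HZ, (α + (F : HZ) * δ) * io y * sg (star (α + (F : HZ) * δ)) =
      α * io y * sg (star α) + (F : HZ) * η := by
    refine ⟨δ * io y * sg (star α) + α * io y * sg (star δ) +
      (F : HZ) * (δ * io y * sg (star δ)), ?_⟩
    rw [h0, ei_sg_add, ei_sg_mul, ei_sg_intCast]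
    have h1 : α * io y * ((F : HZ) * sg (star δ)) = (F : HZ) * (α * io y * sg (star δ)) := by
      rw [← mul_assoc, hc, mul_assoc]
    have h2 : (F : HZ) * δ * io y * ((F : HZ) * sg (star δ)) =
        (F : HZ) * ((F : HZ) * (δ * io y * sg (star δ))) := by
      rw [← mul_assoc, hc]
      simp only [mul_assoc]
    simp only [add_mul, mul_add]
    rw [h1, h2]
    simp only [mul_assoc]
    abel
  have h3 : ∀ z : Zsqrtd 2, F ∣ ((F : Zsqrtd 2) * z).re ∧ F ∣ ((F : Zsqrtd 2) * z).im := by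
    intro z
    constructor
    · rw [Zsqrtd.re_mul, Zsqrtd.re_intCast, Zsqrtd.im_intCast]
      exact ⟨z.re, by ring⟩
    · rw [Zsqrtd.im_mul, Zsqrtd.re_intCast, Zsqrtd.im_intCast]
      exact ⟨z.im, by ring⟩
  unfold act
  rw [hη]
  fin_cases i
  · simpa using (h3 η.imI).1
  · simpa using (h3 η.imJ).1
  · simpa using (h3 η.imK).1
  · simpa using (h3 η.re).2

theorem ei_two_pow (n : ℤ) (hn : n ≠ 0) : ∃ (k : ℕ) (m : ℤ), Odd m ∧ n = 2 ^ k * m := by
  obtain ⟨k, m, hm, h⟩ := Nat.exists_eq_two_pow_mul_odd (Int.natAbs_ne_zero.mpr hn)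
  have hm' : Odd (m : ℤ) := by exact_mod_cast hm
  have h' : ((n.natAbs : ℕ) : ℤ) = 2 ^ k * m := by exact_mod_cast h
  rcases Int.natAbs_eq n with h1 | h1
  · exact ⟨k, m, hm', by rw [h1, h']⟩
  · exact ⟨k, -m, hm'.neg, by rw [h1, h']; ring⟩

theorem ei_cross (e f : ℤ) (α β : HZ) : ((e : HZ) * α * star ((f : HZ) * β)).re =
    (e : Zsqrtd 2) * f * (α * star β).re := by
  simp
  ring

theorem ei_act_u {u u' : Fin 4 → ℤ} {α : HZ} {N : ℤ} (hN : normSq α = (N : Zsqrtd 2))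
    (h : α * io u = io u' * sg α) (i : Fin 4) : act α u i = N * u' i := by
  have h1 : io (act α u) = (N : HZ) * io u' := by
    rw [ei_io_act, h, mul_assoc, ← ei_sg_mul, self_mul_star, hN]
    have h2 : (((N : ℤ) : Zsqrtd 2) : HZ) = ((N : ℤ) : HZ) := rfl
    rw [h2, ei_sg_intCast]
    exact ((Int.cast_commute N (io u')).eq).symm
  fin_cases i
  · simpa [io] using congrArg (fun z : HZ => z.imI.re) h1
  · simpa [io] using congrArg (fun z : HZ => z.imJ.re) h1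
  · simpa [io] using congrArg (fun z : HZ => z.imK.re) h1
  · simpa [io] using congrArg (fun z : HZ => z.re.im) h1

theorem ei_main (M : ℤ) (hM : 0 < M) (u u' : Fin 4 → ℤ) (hu : Q u = 2 * M) (hu' : Q u' = 2 * M)
    (X : ℤ) (α : HZ) (hX : X ≠ 0) (hN : normSq α = ((X ^ 2 : ℤ) : Zsqrtd 2))
    (hα : α * io u = io u' * sg α) (ht : ∃ t : ℤ, Odd t ∧ ∀ y i, X ^ 2 ∣ t * act α y i)
    (hp : ∀ p : ℕ, p.Prime → p ≠ 2 → (p : ℤ) ∣ X → ¬ (p : ℤ) ∣ M)
    (hmin : ∀ p : ℕ, p.Prime → p ≠ 2 → (p : ℤ) ∣ X → ¬ ∃ α₁ : HZ, α = (p : HZ) * α₁) :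
    ∃ (A : Matrix (Fin 4) (Fin 4) ℚ) (t : ℕ), IsIso A ∧ A *ᵥ toR u = toR u' ∧ 0 < t ∧ Den A t ∧
      ∀ p : ℕ, p.Prime → p ∣ t → (p % 8 = 1 ∨ p % 8 = 7) ∧ ¬ (p : ℤ) ∣ M := by
  obtain ⟨a, X₁, γ, hc⟩ := ei_comb M X α hX hp hmin
  have hβi := ei_beta_int hu hu' γ
  have hτ := ei_trace hu' hα γ
  have him := ei_normSq_im hM.ne' hu hu' hβi
  generalize hβ : eiB M u u' γ = β at hβi hτ him
  generalize hm : (α * star γ).re.re = m at hc hτ
  obtain ⟨n₁, hn₁⟩ : ∃ n₁ : ℤ, normSq β = (n₁ : Zsqrtd 2) :=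
    ⟨(normSq β).re, by ext <;> simp [him]⟩
  obtain ⟨j, R, hR, hMR⟩ := ei_two_pow M hM.ne'
  obtain ⟨x, X₀, hX₀, hXX⟩ := ei_two_pow X hX
  obtain ⟨q, hq⟩ : ∃ q : ℤ, q = X₁ ^ 2 - n₁ := ⟨_, rfl⟩
  obtain ⟨F, hF⟩ : ∃ F : ℤ, F = 2 ^ (2 * x + 1) * R ^ 2 := ⟨_, rfl⟩
  obtain ⟨e, he⟩ : ∃ e : ℤ, e = 1 - F * q := ⟨_, rfl⟩
  obtain ⟨f, hf⟩ : ∃ f : ℤ, f = F * 2 ^ a := ⟨_, rfl⟩
  obtain ⟨N, hNdef⟩ : ∃ N : ℤ, N = e ^ 2 * X ^ 2 + 2 * (e * f * (4 * M * m)) + f ^ 2 * n₁ :=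
    ⟨_, rfl⟩
  obtain ⟨s, hs⟩ : ∃ s : ℤ, s = (-2 * q + F * q ^ 2) * X ^ 2 + 8 * e * 2 ^ a * M * m +
      F * 2 ^ (2 * a) * n₁ := ⟨_, rfl⟩
  obtain ⟨N₀, hN₀⟩ : ∃ N₀ : ℤ, N₀ = X₀ ^ 2 + 2 * R ^ 2 * s := ⟨_, rfl⟩
  have hNF : N = X ^ 2 + F * s := by
    rw [hNdef, hs, hf, he]
    ring
  have hN2 : N = 2 ^ (2 * x) * N₀ := by
    rw [hNF, hN₀, hXX, hF]
    ring
  have hkey : (e * X + f * X₁) ^ 2 - N = 2 * (2 ^ (x + a) * R) ^ 2 := by
    have h1 : (e * X + f * X₁) ^ 2 - N = e * f * (2 * X * X₁ - 8 * M * m) + f ^ 2 * q := by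
      rw [hNdef, hq]
      ring
    rw [h1, hc, he, hf, hF]
    ring
  have hN₀odd : Odd N₀ := by
    rw [hN₀]
    exact hX₀.pow.add_even ⟨R ^ 2 * s, by ring⟩
  have hN₀0 : N₀ ≠ 0 := by
    rintro rfl
    exact absurd hN₀odd (by decide)
  have hN0 : N ≠ 0 := by
    rw [hN2]
    exact mul_ne_zero (by positivity) hN₀0
  -- the quaternion
  have hnorm : normSq ((e : HZ) * α + (f : HZ) * β) = (N : Zsqrtd 2) := by
    rw [normSq_add, map_mul, map_mul, normSq_intCast, normSq_intCast, hN, hn₁, ei_cross, hτ, hNdef]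
    push_cast
    ring
  have hint : ((e : HZ) * α + (f : HZ) * β) * io u = io u' * sg ((e : HZ) * α + (f : HZ) * β) := by
    have hcm : ∀ (k : ℤ) (z : HZ), io u' * ((k : HZ) * z) = (k : HZ) * (io u' * z) := by
      intro k z
      rw [← mul_assoc, ← (Int.cast_commute k (io u')).eq, mul_assoc]
    rw [ei_sg_add, ei_sg_mul, ei_sg_mul, ei_sg_intCast, ei_sg_intCast, mul_add, hcm, hcm, ← hα,
      ← hβi, add_mul, mul_assoc, mul_assoc]
  have hδ : (e : HZ) * α + (f : HZ) * β =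
      α + (F : HZ) * (((-q : ℤ) : HZ) * α + ((2 ^ a : ℤ) : HZ) * β) := by
    have h1 : α + ((F * -q : ℤ) : HZ) * α = (e : HZ) * α := by
      have h2 : e = 1 + F * -q := by
        rw [he]
        ring
      rw [h2, Int.cast_add, Int.cast_one, add_mul, one_mul]
    rw [mul_add, ← mul_assoc, ← mul_assoc, ← Int.cast_mul, ← Int.cast_mul, ← add_assoc, h1, hf]
  generalize hα' : (e : HZ) * α + (f : HZ) * β = α' at hnorm hint hδ
  -- divisibility
  have hdiv : ∀ y i, ∃ w : ℤ, act α' y i = 2 ^ (2 * x) * w := by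
    intro y i
    have h1 : (2 : ℤ) ^ (2 * x) ∣ act α y i := by
      obtain ⟨t, htodd, ht⟩ := ht
      have h2 : (2 : ℤ) ^ (2 * x) ∣ t * act α y i := by
        refine Dvd.dvd.trans ?_ (ht y i)
        rw [hXX]
        exact ⟨X₀ ^ 2, by ring⟩
      have h3 : IsCoprime ((2 : ℤ) ^ (2 * x)) t := by
        apply IsCoprime.pow_left
        obtain ⟨k, hk⟩ := htodd
        exact ⟨-k, 1, by rw [hk]; ring⟩
      exact h3.dvd_of_dvd_mul_left h2
    have h2 : (2 : ℤ) ^ (2 * x) ∣ act α' y i - act α y i := by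
      rw [hδ]
      refine Dvd.dvd.trans ?_ (ei_act_congr α _ F y i)
      rw [hF]
      exact ⟨2 * R ^ 2, by ring⟩
    have h3 := dvd_add h2 h1
    rw [sub_add_cancel] at h3
    exact h3
  refine ⟨eiA α' N, N₀.natAbs, eiA_isIso α' N hN0 hnorm, ?_, Int.natAbs_pos.mpr hN₀0, ?_, ?_⟩
  · funext i
    rw [eiA_mulVec, ei_act_u hnorm hint, toR]
    have h1 : (N : ℚ) ≠ 0 := by exact_mod_cast hN0
    push_cast
    field_simp
  · intro y
    choose w hw using hdiv y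
    refine ⟨fun i => N₀.sign * w i, ?_⟩
    funext i
    rw [Pi.smul_apply, smul_eq_mul, eiA_mulVec, hw, hN2, toR]
    have h1 : (N₀ : ℚ) ≠ 0 := by exact_mod_cast hN₀0
    have h2 : (N₀.natAbs : ℚ) = (N₀.sign : ℚ) * N₀ := by
      have h3 : ((N₀.natAbs : ℕ) : ℤ) = N₀.sign * N₀ := by
        rw [Int.sign_mul_self_eq_natAbs]
      have h4 := congrArg (Int.cast : ℤ → ℚ) h3
      rw [Int.cast_natCast, Int.cast_mul] at h4
      exact h4
    rw [h2]
    push_cast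
    field_simp
  · intro p hpp hpt
    have hpN : (p : ℤ) ∣ N₀ := Int.natCast_dvd.mpr hpt
    have hpi : Prime (p : ℤ) := Nat.prime_iff_prime_int.mp hpp
    have hp2 : p ≠ 2 := by
      rintro rfl
      rw [← Int.not_even_iff_odd] at hN₀odd
      exact hN₀odd (even_iff_two_dvd.mpr (by exact_mod_cast hpN))
    have hnot2 : ¬ (p : ℤ) ∣ 2 := by
      intro h2
      have h3 : p ∣ 2 := by exact_mod_cast h2
      exact hp2 ((Nat.prime_dvd_prime_iff_eq hpp Nat.prime_two).mp h3)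
    have hpM : ¬ (p : ℤ) ∣ M := by
      intro hpM
      have hpR : (p : ℤ) ∣ R := by
        rw [hMR] at hpM
        exact (hpi.dvd_or_dvd hpM).resolve_left fun h => hnot2 (hpi.dvd_of_dvd_pow h)
      have h1 : (p : ℤ) ∣ X₀ ^ 2 := by
        have h2 : X₀ ^ 2 = N₀ - R * (2 * R * s) := by
          rw [hN₀]
          ring
        rw [h2]
        exact dvd_sub hpN (hpR.mul_right _)
      have h2 : (p : ℤ) ∣ X := by
        rw [hXX]
        exact (hpi.dvd_of_dvd_pow h1).mul_left _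
      exact hp p hpp hp2 h2 hpM
    refine ⟨?_, hpM⟩
    have : Fact p.Prime := ⟨hpp⟩
    rw [← ZMod.exists_sq_eq_two_iff hp2]
    have hpR : ¬ (p : ℤ) ∣ R := fun h => hpM (by rw [hMR]; exact h.mul_left _)
    have hS : ¬ (p : ℤ) ∣ 2 ^ (x + a) * R := by
      intro h
      rcases hpi.dvd_or_dvd h with h1 | h1
      · exact hnot2 (hpi.dvd_of_dvd_pow h1)
      · exact hpR h1
    have hS' : ((2 ^ (x + a) * R : ℤ) : ZMod p) ≠ 0 := by
      rw [Ne, ZMod.intCast_zmod_eq_zero_iff_dvd]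
      exact hS
    have h1 : (((e * X + f * X₁) ^ 2 : ℤ) : ZMod p) = ((2 * (2 ^ (x + a) * R) ^ 2 : ℤ) : ZMod p) := by
      rw [← sub_eq_zero, ← Int.cast_sub, ZMod.intCast_zmod_eq_zero_iff_dvd]
      have h2 : (e * X + f * X₁) ^ 2 - 2 * (2 ^ (x + a) * R) ^ 2 = N := by linarith
      rw [h2, hN2]
      exact hpN.mul_left _
    refine ⟨((e * X + f * X₁ : ℤ) : ZMod p) / ((2 ^ (x + a) * R : ℤ) : ZMod p), ?_⟩
    rw [div_mul_div_comm, eq_div_iff (mul_ne_zero hS' hS')]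
    rw [Int.cast_pow, Int.cast_mul, Int.cast_pow] at h1
    have h3 : ((2 : ℤ) : ZMod p) = 2 := by norm_num
    rw [h3] at h1
    rw [← pow_two, ← pow_two]
    exact h1.symm

theorem ei_act_smul (l : ℤ) (α : HZ) (y : Fin 4 → ℤ) (i : Fin 4) :
    act ((l : HZ) * α) y i = l ^ 2 * act α y i := by
  fin_cases i <;> simp [act, sg, io] <;> ring

theorem ei_cancel {l : ℤ} (hl : l ≠ 0) {a b : HZ} (h : (l : HZ) * a = (l : HZ) * b) : a = b := by
  have h1 : ∀ z w : Zsqrtd 2, (l : Zsqrtd 2) * z = (l : Zsqrtd 2) * w → z = w := by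
    intro z w hzw
    have h2 := congrArg Zsqrtd.re hzw
    have h3 := congrArg Zsqrtd.im hzw
    simp only [Zsqrtd.re_mul, Zsqrtd.im_mul, Zsqrtd.re_intCast, Zsqrtd.im_intCast, mul_zero,
      zero_mul, add_zero] at h2 h3
    ext
    · exact mul_left_cancel₀ hl h2
    · exact mul_left_cancel₀ hl h3
  apply Quaternion.ext
  · exact h1 _ _ (by simpa using congrArg (fun z : HZ => z.re) h)
  · exact h1 _ _ (by simpa using congrArg (fun z : HZ => z.imI) h)
  · exact h1 _ _ (by simpa using congrArg (fun z : HZ => z.imJ) h)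
  · exact h1 _ _ (by simpa using congrArg (fun z : HZ => z.imK) h)

/-- LX-D5 -/
theorem eichler (M : ℤ) (hM : 0 < M) (u u' : Fin 4 → ℤ) (hu : Q u = 2 * M) (hu' : Q u' = 2 * M)
    (X : ℤ) (h : Rel M u u' (X ^ 2)) :
    ∃ (A : Matrix (Fin 4) (Fin 4) ℚ) (t : ℕ), IsIso A ∧ A *ᵥ toR u = toR u' ∧ 0 < t ∧ Den A t ∧
      ∀ p : ℕ, p.Prime → p ∣ t → (p % 8 = 1 ∨ p % 8 = 7) ∧ ¬ (p : ℤ) ∣ M := by
  induction hn : X.natAbs using Nat.strong_induction_on generalizing X with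
  | _ n ih =>
    obtain ⟨α, hN, hX2, hα, ht, hp⟩ := h
    have hX : X ≠ 0 := by
      rintro rfl
      simp at hX2
    have hp' : ∀ p : ℕ, p.Prime → p ≠ 2 → (p : ℤ) ∣ X → ¬ (p : ℤ) ∣ M := fun p hpp hp2 hpX =>
      hp p hpp hp2 (hpX.trans (Dvd.intro_left _ (by ring)))
    by_cases hmin : ∀ p : ℕ, p.Prime → p ≠ 2 → (p : ℤ) ∣ X → ¬ ∃ α₁ : HZ, α = (p : HZ) * α₁
    · exact ei_main M hM u u' hu hu' X α hX hN hα ht hp' hmin
    · push Not at hmin
      obtain ⟨l, hl, hl2, ⟨X₁, hX₁⟩, α₁, hα₁⟩ := hmin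
      have hl0 : (l : ℤ) ≠ 0 := by exact_mod_cast hl.ne_zero
      have hX₁0 : X₁ ≠ 0 := by
        rintro rfl
        exact hX (by rw [hX₁, mul_zero])
      have hlc : (l : HZ) = ((l : ℤ) : HZ) := by norm_cast
      refine ih X₁.natAbs ?_ X₁ ⟨α₁, ?_, by positivity, ?_, ?_, ?_⟩ rfl
      · rw [← hn, hX₁, Int.natAbs_mul, Int.natAbs_natCast]
        have h1 := hl.two_le
        have h2 : 0 < X₁.natAbs := Int.natAbs_pos.mpr hX₁0
        nlinarith
      · rw [hα₁, map_mul, hlc, normSq_intCast, hX₁] at hN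
        have h1 : (((l : ℤ) ^ 2 : ℤ) : Zsqrtd 2) * normSq α₁ =
            (((l : ℤ) ^ 2 : ℤ) : Zsqrtd 2) * ((X₁ ^ 2 : ℤ) : Zsqrtd 2) := by
          rw [Int.cast_pow, hN]
          push_cast
          ring
        have hl2' : (l : ℤ) ^ 2 ≠ 0 := pow_ne_zero 2 hl0
        have h2 := congrArg Zsqrtd.re h1
        have h3 := congrArg Zsqrtd.im h1
        simp only [Zsqrtd.re_mul, Zsqrtd.im_mul, Zsqrtd.re_intCast, Zsqrtd.im_intCast, mul_zero,
          zero_mul, add_zero] at h2 h3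
        ext
        · rw [Zsqrtd.re_intCast]
          exact mul_left_cancel₀ hl2' h2
        · rw [Zsqrtd.im_intCast]
          exact (mul_eq_zero.mp h3).resolve_left hl2'
      · apply ei_cancel hl0
        rw [hα₁, hlc, ei_sg_mul, ei_sg_intCast, mul_assoc, ← mul_assoc (io u'),
          ← (Int.cast_commute (l : ℤ) (io u')).eq, mul_assoc] at hα
        exact hα
      · obtain ⟨t, htodd, ht⟩ := ht
        refine ⟨t, htodd, fun y i => ?_⟩
        have h1 := ht y i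
        have h2 : act α y i = (l : ℤ) ^ 2 * act α₁ y i := by
          rw [hα₁, hlc, ei_act_smul]
        rw [h2, hX₁] at h1
        have h3 : (l : ℤ) ^ 2 * X₁ ^ 2 ∣ (l : ℤ) ^ 2 * (t * act α₁ y i) := by
          have h4 : (l : ℤ) ^ 2 * X₁ ^ 2 = (l * X₁) ^ 2 := by ring
          have h5 : (l : ℤ) ^ 2 * (t * act α₁ y i) = t * ((l : ℤ) ^ 2 * act α₁ y i) := by ring
          rw [h4, h5]
          exact h1
        exact Int.dvd_of_mul_dvd_mul_left (pow_ne_zero 2 hl0) h3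
      · intro p hpp hp2 hpX
        refine hp p hpp hp2 (hpX.trans ?_)
        rw [hX₁]
        exact ⟨(l : ℤ) ^ 2, by ring⟩

end Pool.Agent.LX
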