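import Pool.Agent.LX.Defs

set_option autoImplicit false

/-!
# Adjusting a vector of the hyperplane `dot w = 0` at the odd primes dividing `Qs w`
-/

namespace Pool.Agent.LX

namespace OrthAdjust

lemma dot_add (w x h : Fin 4 → ℤ) (c : ℤ) : dot w (fun i => x i + c * h i) = dot w x + c * dot w h := by
  unfold dot
  ring

lemma Q_eq (x : Fin 4 → ℤ) : Q x = x 0 ^ 2 + x 1 ^ 2 + x 2 ^ 2 + 2 * x 3 ^ 2 := by
  unfold Q B
  ring

lemma Q_add (x h : Fin 4 → ℤ) (c : ℤ) :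
    Q (fun i => x i + c * h i) = Q x + c * (2 * B x h + c * Q h) := by
  unfold Q B
  ring

/-- For every odd prime `p` dividing `Qs w` there is a vector of the hyperplane whose norm is not
divisible by `p`. -/
lemma exists_vec (w : Fin 4 → ℤ) (hw : Prim w) (p : ℕ) (hp : p.Prime) (h2 : p ≠ 2)
    (hd : (p : ℤ) ∣ Qs w) : ∃ h : Fin 4 → ℤ, dot w h = 0 ∧ ¬ (p : ℤ) ∣ Q h := by
  by_contra hcon
  push Not at hcon
  have hpz : Prime (p : ℤ) := Nat.prime_iff_prime_int.1 hp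
  have hp2 : ¬ (p : ℤ) ∣ 2 := by
    intro h
    have h3 : p ∣ 2 := by exact_mod_cast h
    exact h2 ((Nat.prime_dvd_prime_iff_eq hp Nat.prime_two).1 h3)
  have h01 := hcon ![w 1, -w 0, 0, 0] (by simp [dot]; ring)
  have h02 := hcon ![w 2, 0, -w 0, 0] (by simp [dot]; ring)
  have h12 := hcon ![0, w 2, -w 1, 0] (by simp [dot]; ring)
  rw [Q_eq] at h01 h02 h12
  simp at h01 h02 h12
  have key : ∀ x : ℤ, (p : ℤ) ∣ 2 * x ^ 2 → (p : ℤ) ∣ x := by
    intro x hx
    rcases hpz.dvd_or_dvd hx with h | h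
    · exact absurd h hp2
    · exact hpz.dvd_of_dvd_pow h
  have a0 : (p : ℤ) ∣ w 0 := by
    apply key
    have h := (h01.add h02).sub h12
    have e : w 1 ^ 2 + w 0 ^ 2 + (w 2 ^ 2 + w 0 ^ 2) - (w 2 ^ 2 + w 1 ^ 2) = 2 * w 0 ^ 2 := by ring
    rwa [e] at h
  have a1 : (p : ℤ) ∣ w 1 := by
    apply key
    have h := (h01.add h12).sub h02
    have e : w 1 ^ 2 + w 0 ^ 2 + (w 2 ^ 2 + w 1 ^ 2) - (w 2 ^ 2 + w 0 ^ 2) = 2 * w 1 ^ 2 := by ring
    rwa [e] at h
  have a2 : (p : ℤ) ∣ w 2 := by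
    apply key
    have h := (h02.add h12).sub h01
    have e : w 2 ^ 2 + w 0 ^ 2 + (w 2 ^ 2 + w 1 ^ 2) - (w 1 ^ 2 + w 0 ^ 2) = 2 * w 2 ^ 2 := by ring
    rwa [e] at h
  have a3 : (p : ℤ) ∣ w 3 := by
    have h : (p : ℤ) ∣ w 3 ^ 2 := by
      have e : w 3 ^ 2 = Qs w - 2 * (w 0 * w 0 + w 1 * w 1 + w 2 * w 2) := by
        unfold Qs
        ring
      rw [e]
      apply hd.sub
      exact (((a0.mul_right _).add (a1.mul_right _)).add (a2.mul_right _)).mul_left 2
    exact hpz.dvd_of_dvd_pow h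
  obtain ⟨i, hi⟩ := hw p hp
  fin_cases i
  · exact hi a0
  · exact hi a1
  · exact hi a2
  · exact hi a3

lemma adjust (w g₂ : Fin 4 → ℤ) (h : dot w g₂ = 0) (S : Finset ℕ) :
    (∀ p ∈ S, p.Prime ∧ p ≠ 2 ∧ ∃ v : Fin 4 → ℤ, dot w v = 0 ∧ ¬ (p : ℤ) ∣ Q v) →
    ∃ g : Fin 4 → ℤ, dot w g = 0 ∧ (∀ i, (16 : ℤ) ∣ g i - g₂ i) ∧
      ∀ p ∈ S, ¬ (p : ℤ) ∣ Q g := by
  induction S using Finset.induction_on with
  | empty =>
    intro _
    exact ⟨g₂, h, fun i => by simp, fun p hp => absurd hp (Finset.notMem_empty p)⟩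
  | insert p S hpS ih =>
    intro hS
    obtain ⟨g, hg0, hg16, hgS⟩ := ih fun q hq => hS q (Finset.mem_insert_of_mem hq)
    obtain ⟨hp, hp2, v, hv0, hvp⟩ := hS p (Finset.mem_insert_self p S)
    by_cases hpg : (p : ℤ) ∣ Q g
    swap
    · refine ⟨g, hg0, hg16, fun q hq => ?_⟩
      rcases Finset.mem_insert.1 hq with rfl | hq
      · exact hpg
      · exact hgS q hq
    have hpz : Prime (p : ℤ) := Nat.prime_iff_prime_int.1 hp
    set m : ℤ := 16 * ∏ q ∈ S, (q : ℤ) with hm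
    have hp2' : ¬ (p : ℤ) ∣ 2 := by
      intro h
      have h3 : p ∣ 2 := by exact_mod_cast h
      exact hp2 ((Nat.prime_dvd_prime_iff_eq hp Nat.prime_two).1 h3)
    have hpm : ¬ (p : ℤ) ∣ m := by
      intro hd
      rcases hpz.dvd_or_dvd hd with hd | hd
      · have e : (16 : ℤ) = 2 ^ 4 := by norm_num
        rw [e] at hd
        exact hp2' (hpz.dvd_of_dvd_pow hd)
      · obtain ⟨q, hq, hd⟩ := (hpz.dvd_finsetProd_iff _).1 hd
        have h3 : p ∣ q := by exact_mod_cast hd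
        have hq' := (hS q (Finset.mem_insert_of_mem hq)).1
        have := (Nat.prime_dvd_prime_iff_eq hp hq').1 h3
        exact hpS (this ▸ hq)
    have hex : ∃ t : ℤ, ¬ (p : ℤ) ∣ 2 * B g v + m * t * Q v ∧ (t = 1 ∨ t = -1) := by
      by_contra hcon
      push Not at hcon
      have h1 : (p : ℤ) ∣ 2 * B g v + m * 1 * Q v := by
        by_contra hc
        exact absurd rfl (hcon 1 hc).1
      have h2 : (p : ℤ) ∣ 2 * B g v + m * (-1) * Q v := by
        by_contra hc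
        exact absurd rfl (hcon (-1) hc).2
      have h3 := h1.sub h2
      have e : 2 * B g v + m * 1 * Q v - (2 * B g v + m * (-1) * Q v) = 2 * (m * Q v) := by ring
      rw [e] at h3
      rcases hpz.dvd_or_dvd h3 with h3 | h3
      · exact hp2' h3
      rcases hpz.dvd_or_dvd h3 with h3 | h3
      · exact hpm h3
      · exact hvp h3
    obtain ⟨t, ht, ht1⟩ := hex
    refine ⟨fun i => g i + m * t * v i, ?_, ?_, ?_⟩
    · rw [dot_add, hg0, hv0]
      ring
    · intro i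
      have e : g i + m * t * v i - g₂ i = (g i - g₂ i) + 16 * ((∏ q ∈ S, (q : ℤ)) * t * v i) := by
        rw [hm]
        ring
      change (16 : ℤ) ∣ g i + m * t * v i - g₂ i
      rw [e]
      exact (hg16 i).add (dvd_mul_right _ _)
    · intro q hq hd
      rw [Q_add] at hd
      rcases Finset.mem_insert.1 hq with rfl | hq
      · have h1 : (q : ℤ) ∣ m * t * (2 * B g v + m * t * Q v) := (dvd_add_right hpg).1 hd
        rcases hpz.dvd_or_dvd h1 with h1 | h1
        · rcases hpz.dvd_or_dvd h1 with h1 | h1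
          · exact hpm h1
          · rcases ht1 with rfl | rfl
            · exact hpz.not_isUnit (isUnit_of_dvd_one h1)
            · exact hpz.not_isUnit (isUnit_of_dvd_one ((dvd_neg).1 h1))
        · exact ht h1
      · have h1 : (q : ℤ) ∣ m * t * (2 * B g v + m * t * Q v) := by
          have h2 : (q : ℤ) ∣ m := by
            rw [hm]
            exact (Finset.dvd_prod_of_mem (fun q : ℕ => (q : ℤ)) hq).mul_left 16
          exact (h2.mul_right t).mul_right _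
        exact hgS q hq ((dvd_add_left h1).1 hd)

end OrthAdjust

/-- A vector of the hyperplane `dot w = 0` can be changed modulo `16` only trivially so that its
norm is not divisible by the odd primes dividing `Qs w`. -/
theorem orth_adjust (w g₂ : Fin 4 → ℤ) (hw : Prim w) (h : dot w g₂ = 0) :
    ∃ g : Fin 4 → ℤ, dot w g = 0 ∧ (∀ i, (16 : ℤ) ∣ g i - g₂ i) ∧
      ∀ p : ℕ, p.Prime → p ≠ 2 → (p : ℤ) ∣ Qs w → ¬ (p : ℤ) ∣ Q g := by
  have hN : Qs w ≠ 0 := by
    intro h0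
    obtain ⟨i, hi⟩ := hw 2 Nat.prime_two
    unfold Qs at h0
    have h0' : w 0 = 0 ∧ w 1 = 0 ∧ w 2 = 0 ∧ w 3 = 0 := by
      refine ⟨?_, ?_, ?_, ?_⟩ <;> nlinarith [sq_nonneg (w 0), sq_nonneg (w 1), sq_nonneg (w 2),
        sq_nonneg (w 3)]
    obtain ⟨h0, h1, h2, h3⟩ := h0'
    fin_cases i
    · exact hi (by simp [h0])
    · exact hi (by simp [h1])
    · exact hi (by simp [h2])
    · exact hi (by simp [h3])
  obtain ⟨g, hg0, hg16, hgS⟩ := OrthAdjust.adjust w g₂ h ((Qs w).natAbs.primeFactors.erase 2)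
    (by
      intro p hp
      rw [Finset.mem_erase, Nat.mem_primeFactors] at hp
      obtain ⟨hp2, hpp, hpd, _⟩ := hp
      exact ⟨hpp, hp2, OrthAdjust.exists_vec w hw p hpp hp2 (Int.natCast_dvd.2 hpd)⟩)
  refine ⟨g, hg0, hg16, fun p hp hp2 hd => hgS p ?_⟩
  rw [Finset.mem_erase, Nat.mem_primeFactors]
  exact ⟨hp2, hp, Int.natCast_dvd.1 hd, Int.natAbs_ne_zero.2 hN⟩

end Pool.Agent.LX
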