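import Pool.Agent.LX.Defs

set_option autoImplicit false

/-!
Products of two reflections as quaternions (LX-12).
-/

open Matrix

namespace Pool.Agent.LX

/-- `Q a` times the reflection in `a`, on integer vectors. -/
private def rfR (a y : Fin 4 → ℤ) : Fin 4 → ℤ := fun i => Q a * y i - 2 * B a y * a i

private theorem rf_sg_re (α : HZ) : (sg α).re = star α.re := rfl
private theorem rf_sg_imI (α : HZ) : (sg α).imI = star α.imI := rfl
private theorem rf_sg_imJ (α : HZ) : (sg α).imJ = star α.imJ := rfl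
private theorem rf_sg_imK (α : HZ) : (sg α).imK = star α.imK := rfl
private theorem rf_io_re (y : Fin 4 → ℤ) : (io y).re = ⟨0, y 3⟩ := rfl
private theorem rf_io_imI (y : Fin 4 → ℤ) : (io y).imI = ⟨y 0, 0⟩ := rfl
private theorem rf_io_imJ (y : Fin 4 → ℤ) : (io y).imJ = ⟨y 1, 0⟩ := rfl
private theorem rf_io_imK (y : Fin 4 → ℤ) : (io y).imK = ⟨y 2, 0⟩ := rfl

private theorem rf_sg_mul (α β : HZ) : sg (α * β) = sg α * sg β := by
  ext <;> simp [rf_sg_re, rf_sg_imI, rf_sg_imJ, rf_sg_imK, Quaternion.re_mul, Quaternion.imI_mul,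
    Quaternion.imJ_mul, Quaternion.imK_mul]

private theorem rf_sg_io (y : Fin 4 → ℤ) : sg (io y) = - star (io y) := by
  ext <;> simp [rf_sg_re, rf_sg_imI, rf_sg_imJ, rf_sg_imK, rf_io_re, rf_io_imI, rf_io_imJ,
    rf_io_imK]

private theorem rf_sg_star_io (y : Fin 4 → ℤ) : sg (star (io y)) = - io y := by
  ext <;> simp [rf_sg_re, rf_sg_imI, rf_sg_imJ, rf_sg_imK, rf_io_re, rf_io_imI, rf_io_imJ,
    rf_io_imK]

private theorem rf_three (a y : Fin 4 → ℤ) :
    star (io a) * io y * star (io a) = - star (io (rfR a y)) := by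
  ext <;> simp [rf_io_re, rf_io_imI, rf_io_imJ,
    rf_io_imK, rfR, Q, B, Quaternion.re_mul, Quaternion.imI_mul, Quaternion.imJ_mul,
    Quaternion.imK_mul] <;> ring

private theorem rf_three' (g y : Fin 4 → ℤ) :
    io g * star (io y) * io g = - io (rfR g y) := by
  ext <;> simp [rf_io_re, rf_io_imI, rf_io_imJ,
    rf_io_imK, rfR, Q, B, Quaternion.re_mul, Quaternion.imI_mul, Quaternion.imJ_mul,
    Quaternion.imK_mul] <;> ring

private theorem rf_quat (g a y : Fin 4 → ℤ) :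
    (io g * star (io a)) * io y * sg (star (io g * star (io a))) = io (rfR g (rfR a y)) := by
  have hn : ∀ x y : HZ, (-x) * (-y) = x * y := fun x y => neg_mul_neg x y
  have hn1 : ∀ x y : HZ, x * (-y) = -(x * y) := fun x y => mul_neg x y
  have hn2 : ∀ x y : HZ, (-x) * y = -(x * y) := fun x y => neg_mul x y
  have hn3 : ∀ x : HZ, - -x = x := fun x => neg_neg x
  have h1 : sg (star (io g * star (io a))) = star (io a) * io g := by
    rw [star_mul, star_star, rf_sg_mul, rf_sg_io, rf_sg_star_io, hn]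
  rw [h1]
  have h2 : io g * star (io a) * io y * (star (io a) * io g) =
      io g * (star (io a) * io y * star (io a)) * io g := by
    simp only [mul_assoc]
  rw [h2, rf_three, hn1, hn2, rf_three', hn3]

private theorem rf_act (g a y : Fin 4 → ℤ) :
    act (io g * star (io a)) y = rfR g (rfR a y) := by
  unfold act
  rw [rf_quat]
  funext i
  fin_cases i <;> rfl

private theorem rf_normSq_io (y : Fin 4 → ℤ) : Quaternion.normSq (io y) = ((Q y : ℤ) : Zsqrtd 2) := by
  rw [Quaternion.normSq_def', rf_io_re, rf_io_imI, rf_io_imJ, rf_io_imK]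
  ext
  · simp [Q, B, pow_two]
    ring
  · simp [pow_two]

private theorem rf_normSq (g a : Fin 4 → ℤ) :
    Quaternion.normSq (io g * star (io a)) = ((Q a * Q g : ℤ) : Zsqrtd 2) := by
  rw [map_mul, Quaternion.normSq_star, rf_normSq_io, rf_normSq_io, mul_comm]
  push_cast
  rfl

private theorem rf_Q_pos {a : Fin 4 → ℤ} (ha : a ≠ 0) : 0 < Q a := by
  have h : ∃ i, a i ≠ 0 := by
    by_contra hcon
    push Not at hcon
    exact ha (funext hcon)
  obtain ⟨i, hi⟩ := h
  have h0 := mul_self_nonneg (a 0)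
  have h1 := mul_self_nonneg (a 1)
  have h2 := mul_self_nonneg (a 2)
  have h3 := mul_self_nonneg (a 3)
  have hi2 : 0 < a i * a i := mul_self_pos.2 hi
  unfold Q B
  fin_cases i
  · have : 0 < a 0 * a 0 := hi2
    linarith
  · have : 0 < a 1 * a 1 := hi2
    linarith
  · have : 0 < a 2 * a 2 := hi2
    linarith
  · have : 0 < a 3 * a 3 := hi2
    linarith

private theorem rf_cancel (c : ℤ) (hc : c ≠ 0) (x y : HZ)
    (h : (c : Zsqrtd 2) • x = (c : Zsqrtd 2) • y) : x = y := by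
  have e : ∀ p q : Zsqrtd 2, (c : Zsqrtd 2) • p = (c : Zsqrtd 2) • q → p = q := by
    intro p q hpq
    exact Zsqrtd.eq_of_smul_eq_smul_left hc hpq
  apply Quaternion.ext
  · exact e _ _ (congrArg (fun q : HZ => q.re) h)
  · exact e _ _ (congrArg (fun q : HZ => q.imI) h)
  · exact e _ _ (congrArg (fun q : HZ => q.imJ) h)
  · exact e _ _ (congrArg (fun q : HZ => q.imK) h)

private theorem rf_io_smul (c : ℤ) (y : Fin 4 → ℤ) : io (c • y) = (c : Zsqrtd 2) • io y := by
  apply Quaternion.ext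
  · change (⟨0, c • y 3⟩ : Zsqrtd 2) = (c : Zsqrtd 2) * (⟨0, y 3⟩ : Zsqrtd 2)
    ext <;> simp
  · change (⟨c • y 0, 0⟩ : Zsqrtd 2) = (c : Zsqrtd 2) * (⟨y 0, 0⟩ : Zsqrtd 2)
    ext <;> simp
  · change (⟨c • y 1, 0⟩ : Zsqrtd 2) = (c : Zsqrtd 2) * (⟨y 1, 0⟩ : Zsqrtd 2)
    ext <;> simp
  · change (⟨c • y 2, 0⟩ : Zsqrtd 2) = (c : Zsqrtd 2) * (⟨y 2, 0⟩ : Zsqrtd 2)
    ext <;> simp

private theorem rf_smul_mul (c : Zsqrtd 2) (x y : HZ) : (c • x) * y = c • (x * y) := by
  rw [← Quaternion.coe_mul_eq_smul, mul_assoc, Quaternion.coe_mul_eq_smul]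

private theorem rf_B_cast (x y : Fin 4 → ℤ) :
    B (toR x : Fin 4 → ℚ) (toR y) = ((B x y : ℤ) : ℚ) := by
  simp [B, toR]

private theorem rf_refl_smul (g : Fin 4 → ℤ) (c : ℚ) (x : Fin 4 → ℚ) :
    refl g (c • x) = c • refl g x := by
  have h : B (toR g) (c • x) = c * B (toR g) x := by
    simp [B]
    ring
  unfold refl
  rw [h]
  funext i
  simp
  ring

private theorem rf_toR {a : Fin 4 → ℤ} (ha : a ≠ 0) (y : Fin 4 → ℤ) :
    (toR (rfR a y) : Fin 4 → ℚ) = ((Q a : ℤ) : ℚ) • refl a (toR y) := by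
  have hq : ((Q a : ℤ) : ℚ) ≠ 0 := by
    exact_mod_cast (rf_Q_pos ha).ne'
  unfold refl
  have h1 : (Q (toR a : Fin 4 → ℚ)) = ((Q a : ℤ) : ℚ) := rf_B_cast a a
  rw [h1, rf_B_cast]
  funext i
  simp only [toR, rfR, Pi.smul_apply, Pi.sub_apply, smul_eq_mul]
  field_simp
  push_cast
  ring

/-- The reflection in a good vector is integral at two. -/
private theorem rf_good {a : Fin 4 → ℤ} (ha2 : Good2 a) :
    ∃ t : ℤ, Odd t ∧ ∀ y : Fin 4 → ℤ, ∃ z : Fin 4 → ℤ, ∀ i, t * rfR a y i = Q a * z i := by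
  obtain ⟨j, a', haa, hq4⟩ := ha2
  have hQ : Q a = 4 ^ j * Q a' := by
    have h4 : (4 : ℤ) ^ j = 2 ^ j * 2 ^ j := by
      rw [← mul_pow]
      norm_num
    unfold Q B
    rw [haa 0, haa 1, haa 2, haa 3, h4]
    ring
  have hB : ∀ y, B a y = 2 ^ j * B a' y := by
    intro y
    unfold B
    rw [haa 0, haa 1, haa 2, haa 3]
    ring
  have hR : ∀ y i, rfR a y i = 4 ^ j * rfR a' y i := by
    intro y i
    have h4 : (4 : ℤ) ^ j = 2 ^ j * 2 ^ j := by
      rw [← mul_pow]
      norm_num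
    unfold rfR
    rw [hQ, hB, haa i, h4]
    ring
  rcases Int.even_or_odd (Q a') with he | ho
  · obtain ⟨m, hm⟩ := he
    have hmo : Odd m := by
      rcases Int.even_or_odd m with h | h
      · obtain ⟨r, hr⟩ := h
        exfalso
        apply hq4
        rw [hm, hr]
        omega
      · exact h
    refine ⟨m, hmo, fun y => ⟨fun i => m * y i - B a' y * a' i, fun i => ?_⟩⟩
    rw [hR, hQ]
    unfold rfR
    rw [hm]
    ring
  · refine ⟨Q a', ho, fun y => ⟨fun i => Q a' * y i - 2 * B a' y * a' i, fun i => ?_⟩⟩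
    rw [hR, hQ]
    unfold rfR
    ring

private theorem rf_smul (g : Fin 4 → ℤ) (c : ℤ) (x y : Fin 4 → ℤ) (h : ∀ i, x i = c * y i)
    (i : Fin 4) : rfR g x i = c * rfR g y i := by
  unfold rfR B
  rw [h i, h 0, h 1, h 2, h 3]
  ring

/-- LX-D2 -/
theorem rel_of_refl (M : ℤ) (u u' a g : Fin 4 → ℤ) (ha : a ≠ 0) (hg : g ≠ 0)
    (ha2 : Good2 a) (hg2 : Good2 g)
    (hap : ∀ p : ℕ, p.Prime → p ≠ 2 → (p : ℤ) ∣ Q a * Q g → ¬ (p : ℤ) ∣ M)
    (h : refl g (refl a (toR u)) = toR u') : Rel M u u' (Q a * Q g) := by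
  have hpos : 0 < Q a * Q g := mul_pos (rf_Q_pos ha) (rf_Q_pos hg)
  refine ⟨io g * star (io a), rf_normSq g a, hpos, ?_, ?_, hap⟩
  · -- the intertwining relation
    have h1 : rfR g (rfR a u) = (Q a * Q g) • u' := by
      have h2 : (toR (rfR g (rfR a u)) : Fin 4 → ℚ) = toR ((Q a * Q g) • u') := by
        rw [rf_toR hg, rf_toR ha, rf_refl_smul, h]
        funext i
        simp [toR]
        ring
      funext i
      have h3 := congrFun h2 i
      simp only [toR] at h3
      exact_mod_cast h3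
    have h4 := rf_quat g a u
    rw [h1, rf_io_smul] at h4
    apply rf_cancel (Q a * Q g) hpos.ne'
    have h5 : sg (star (io g * star (io a))) * sg (io g * star (io a)) =
        (((Q a * Q g : ℤ) : Zsqrtd 2) : HZ) := by
      rw [← rf_sg_mul, Quaternion.star_mul_self, rf_normSq]
      ext <;> simp [rf_sg_re, rf_sg_imI, rf_sg_imJ, rf_sg_imK]
    have h6 := congrArg (fun q : HZ => q * sg (io g * star (io a))) h4
    rw [mul_assoc (io g * star (io a) * io u), h5, Quaternion.mul_coe_eq_smul,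
      rf_smul_mul] at h6
    exact h6
  · obtain ⟨t, ht, hta⟩ := rf_good ha2
    obtain ⟨s, hs, hsg⟩ := rf_good hg2
    refine ⟨t * s, ht.mul hs, fun y i => ?_⟩
    rw [rf_act]
    obtain ⟨z, hz⟩ := hta y
    obtain ⟨z', hz'⟩ := hsg z
    refine ⟨z' i, ?_⟩
    have e1 : t * rfR g (rfR a y) i = rfR g (fun l => t * rfR a y l) i :=
      (rf_smul g t _ (rfR a y) (fun l => rfl) i).symm
    have e2 : rfR g (fun l => t * rfR a y l) i = Q a * rfR g z i :=
      rf_smul g (Q a) _ z hz i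
    calc t * s * rfR g (rfR a y) i = s * (t * rfR g (rfR a y) i) := by ring
      _ = s * (Q a * rfR g z i) := by rw [e1, e2]
      _ = Q a * (s * rfR g z i) := by ring
      _ = Q a * (Q g * z' i) := by rw [hz' i]
      _ = Q a * Q g * z' i := by ring

end Pool.Agent.LX
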