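import Pool.Agent.LX.Defs
import Pool.Agent.LX.Refl
import Pool.Agent.LX.OrthAdjust

set_option autoImplicit false

open Matrix

namespace Pool.Agent.LX

namespace NoobAux

lemma odd_sq (x : ℤ) (h : x % 2 = 1) : ∃ t, x ^ 2 = 8 * t + 1 := by
  obtain ⟨k, hk⟩ : ∃ k, x = 2 * k + 1 := ⟨x / 2, by omega⟩
  obtain ⟨m, hm⟩ := Int.even_mul_succ_self k
  refine ⟨m, ?_⟩
  rw [hk]
  linear_combination 4 * hm

lemma sq_four (x : ℤ) (h : x % 4 = 0) : ∃ t, x ^ 2 = 16 * t := by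
  obtain ⟨k, hk⟩ : ∃ k, x = 4 * k := ⟨x / 4, by omega⟩
  exact ⟨k ^ 2, by rw [hk]; ring⟩

lemma sq_two (x : ℤ) (h : x % 4 = 2) : ∃ t, x ^ 2 = 16 * t + 4 := by
  obtain ⟨k, hk⟩ : ∃ k, x = 4 * k + 2 := ⟨x / 4, by omega⟩
  exact ⟨k ^ 2 + k, by rw [hk]; ring⟩

lemma sq_even (x : ℤ) (h : x % 2 = 0) : ∃ t, x ^ 2 = 4 * t := by
  obtain ⟨k, hk⟩ : ∃ k, x = 2 * k := ⟨x / 2, by omega⟩
  exact ⟨k ^ 2, by rw [hk]; ring⟩

lemma Q_vec (p q r s : ℤ) : Q ![p, q, r, s] = p ^ 2 + q ^ 2 + r ^ 2 + 2 * s ^ 2 := by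
  simp [Q, B]
  ring

lemma dot_vec (w : Fin 4 → ℤ) (p q r s : ℤ) :
    dot w ![p, q, r, s] = w 0 * p + w 1 * q + w 2 * r + w 3 * s := by
  simp [dot]

lemma exists_g2 (w : Fin 4 → ℤ) (hw : Prim w) (hCh : ¬ Ch w) :
    ∃ g : Fin 4 → ℤ, dot w g = 0 ∧ (Q g % 8 = 3 ∨ Q g % 8 = 5) := by
  rcases Int.emod_two_eq_zero_or_one (w 3) with h3 | h3
  · rcases Int.emod_two_eq_zero_or_one (w 0) with h0 | h0 <;>
    rcases Int.emod_two_eq_zero_or_one (w 1) with h1 | h1 <;>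
    rcases Int.emod_two_eq_zero_or_one (w 2) with h2 | h2
    · exfalso
      obtain ⟨i, hi⟩ := hw 2 Nat.prime_two
      apply hi
      fin_cases i
      · exact Int.dvd_of_emod_eq_zero h0
      · exact Int.dvd_of_emod_eq_zero h1
      · exact Int.dvd_of_emod_eq_zero h2
      · exact Int.dvd_of_emod_eq_zero h3
    · -- only w 2 odd
      obtain ⟨t, ht⟩ := odd_sq _ h2
      rcases (by omega : w 0 % 4 = 0 ∨ w 0 % 4 = 2) with h4 | h4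
      · refine ⟨![w 2, 2 * w 2, -(w 0 + 2 * w 1), 0], by rw [dot_vec]; ring, Or.inr ?_⟩
        obtain ⟨u, hu⟩ := sq_four (w 0 + 2 * w 1) (by omega)
        rw [Q_vec]
        have : w 2 ^ 2 + (2 * w 2) ^ 2 + (-(w 0 + 2 * w 1)) ^ 2 + 2 * 0 ^ 2 =
          5 * (8 * t + 1) + 16 * u := by rw [← ht, ← hu]; ring
        omega
      · refine ⟨![w 2, 0, -w 0, 0], by rw [dot_vec]; ring, Or.inr ?_⟩
        obtain ⟨u, hu⟩ := sq_two (w 0) h4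
        rw [Q_vec]
        have : w 2 ^ 2 + 0 ^ 2 + (-w 0) ^ 2 + 2 * 0 ^ 2 =
          (8 * t + 1) + (16 * u + 4) := by rw [← ht, ← hu]; ring
        omega
    · -- only w 1 odd
      obtain ⟨t, ht⟩ := odd_sq _ h1
      rcases (by omega : w 0 % 4 = 0 ∨ w 0 % 4 = 2) with h4 | h4
      · refine ⟨![w 1, -(w 0 + 2 * w 2), 2 * w 1, 0], by rw [dot_vec]; ring, Or.inr ?_⟩
        obtain ⟨u, hu⟩ := sq_four (w 0 + 2 * w 2) (by omega)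
        rw [Q_vec]
        have : w 1 ^ 2 + (-(w 0 + 2 * w 2)) ^ 2 + (2 * w 1) ^ 2 + 2 * 0 ^ 2 =
          5 * (8 * t + 1) + 16 * u := by rw [← ht, ← hu]; ring
        omega
      · refine ⟨![w 1, -w 0, 0, 0], by rw [dot_vec]; ring, Or.inr ?_⟩
        obtain ⟨u, hu⟩ := sq_two (w 0) h4
        rw [Q_vec]
        have : w 1 ^ 2 + (-w 0) ^ 2 + 0 ^ 2 + 2 * 0 ^ 2 =
          (8 * t + 1) + (16 * u + 4) := by rw [← ht, ← hu]; ring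
        omega
    · -- w 1, w 2 odd
      refine ⟨![-w 1, w 0 - w 2, w 1, 0], by rw [dot_vec]; ring, Or.inl ?_⟩
      obtain ⟨t, ht⟩ := odd_sq _ h1
      obtain ⟨u, hu⟩ := odd_sq (w 0 - w 2) (by omega)
      rw [Q_vec]
      have : (-w 1) ^ 2 + (w 0 - w 2) ^ 2 + w 1 ^ 2 + 2 * 0 ^ 2 =
        2 * (8 * t + 1) + (8 * u + 1) := by rw [← ht, ← hu]; ring
      omega
    · -- only w 0 odd
      obtain ⟨t, ht⟩ := odd_sq _ h0
      rcases (by omega : w 1 % 4 = 0 ∨ w 1 % 4 = 2) with h4 | h4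
      · refine ⟨![-(w 1 + 2 * w 2), w 0, 2 * w 0, 0], by rw [dot_vec]; ring, Or.inr ?_⟩
        obtain ⟨u, hu⟩ := sq_four (w 1 + 2 * w 2) (by omega)
        rw [Q_vec]
        have : (-(w 1 + 2 * w 2)) ^ 2 + w 0 ^ 2 + (2 * w 0) ^ 2 + 2 * 0 ^ 2 =
          5 * (8 * t + 1) + 16 * u := by rw [← ht, ← hu]; ring
        omega
      · refine ⟨![-w 1, w 0, 0, 0], by rw [dot_vec]; ring, Or.inr ?_⟩
        obtain ⟨u, hu⟩ := sq_two (w 1) h4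
        rw [Q_vec]
        have : (-w 1) ^ 2 + w 0 ^ 2 + 0 ^ 2 + 2 * 0 ^ 2 =
          (8 * t + 1) + (16 * u + 4) := by rw [← ht, ← hu]; ring
        omega
    · -- w 0, w 2 odd
      refine ⟨![w 1 - w 2, -w 0, w 0, 0], by rw [dot_vec]; ring, Or.inl ?_⟩
      obtain ⟨t, ht⟩ := odd_sq _ h0
      obtain ⟨u, hu⟩ := odd_sq (w 1 - w 2) (by omega)
      rw [Q_vec]
      have : (w 1 - w 2) ^ 2 + (-w 0) ^ 2 + w 0 ^ 2 + 2 * 0 ^ 2 =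
        2 * (8 * t + 1) + (8 * u + 1) := by rw [← ht, ← hu]; ring
      omega
    · -- w 0, w 1 odd
      refine ⟨![w 1 - w 2, -w 0, w 0, 0], by rw [dot_vec]; ring, Or.inl ?_⟩
      obtain ⟨t, ht⟩ := odd_sq _ h0
      obtain ⟨u, hu⟩ := odd_sq (w 1 - w 2) (by omega)
      rw [Q_vec]
      have : (w 1 - w 2) ^ 2 + (-w 0) ^ 2 + w 0 ^ 2 + 2 * 0 ^ 2 =
        2 * (8 * t + 1) + (8 * u + 1) := by rw [← ht, ← hu]; ring
      omega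
    · exact absurd ⟨Int.odd_iff.2 h0, Int.odd_iff.2 h1, Int.odd_iff.2 h2, Int.even_iff.2 h3⟩ hCh
  · obtain ⟨t, ht⟩ := odd_sq _ h3
    rcases Int.emod_two_eq_zero_or_one (w 0) with h0 | h0
    · refine ⟨![w 3, 2 * w 3, 0, -(w 0 + 2 * w 1)], by rw [dot_vec]; ring, Or.inr ?_⟩
      obtain ⟨u, hu⟩ := sq_even (w 0 + 2 * w 1) (by omega)
      rw [Q_vec]
      have : w 3 ^ 2 + (2 * w 3) ^ 2 + 0 ^ 2 + 2 * (-(w 0 + 2 * w 1)) ^ 2 =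
        5 * (8 * t + 1) + 2 * (4 * u) := by rw [← ht, ← hu]; ring
      omega
    · refine ⟨![w 3, 0, 0, -w 0], by rw [dot_vec]; ring, Or.inl ?_⟩
      obtain ⟨u, hu⟩ := odd_sq _ h0
      rw [Q_vec]
      have : w 3 ^ 2 + 0 ^ 2 + 0 ^ 2 + 2 * (-w 0) ^ 2 =
        (8 * t + 1) + 2 * (8 * u + 1) := by rw [← ht, ← hu]; ring
      omega

lemma exists_g2_ch (w : Fin 4 → ℤ) (hCh : Ch w) (r : ℤ) (hr : r = 3 ∨ r = 7) :
    ∃ g : Fin 4 → ℤ, dot w g = 0 ∧ Q g % 16 = 2 * r := by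
  obtain ⟨o0, o1, o2, e3⟩ := hCh
  have h0 := Int.odd_iff.1 o0
  have h1 := Int.odd_iff.1 o1
  have h2 := Int.odd_iff.1 o2
  obtain ⟨t, ht⟩ := odd_sq _ h0
  rcases hr with hr | hr
  · rcases (by omega : (w 1 - w 2) % 4 = 2 ∨ (w 1 + w 2) % 4 = 2) with h4 | h4
    · refine ⟨![w 1 - w 2, -w 0, w 0, 0], by rw [dot_vec]; ring, ?_⟩
      obtain ⟨u, hu⟩ := sq_two _ h4
      rw [Q_vec]
      have : (w 1 - w 2) ^ 2 + (-w 0) ^ 2 + w 0 ^ 2 + 2 * 0 ^ 2 =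
        (16 * u + 4) + 2 * (8 * t + 1) := by rw [← ht, ← hu]; ring
      omega
    · refine ⟨![w 1 + w 2, -w 0, -w 0, 0], by rw [dot_vec]; ring, ?_⟩
      obtain ⟨u, hu⟩ := sq_two _ h4
      rw [Q_vec]
      have : (w 1 + w 2) ^ 2 + (-w 0) ^ 2 + (-w 0) ^ 2 + 2 * 0 ^ 2 =
        (16 * u + 4) + 2 * (8 * t + 1) := by rw [← ht, ← hu]; ring
      omega
  · obtain ⟨s, hs⟩ := odd_sq _ h2
    obtain ⟨u, hu⟩ := odd_sq (w 0 + 2 * w 1) (by omega)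
    obtain ⟨m, hm⟩ := o0.mul o1
    rcases Int.emod_two_eq_zero_or_one (s + u) with h5 | h5
    · refine ⟨![-w 2, 2 * w 2, w 0 - 2 * w 1, 0], by rw [dot_vec]; ring, ?_⟩
      rw [Q_vec]
      have : (-w 2) ^ 2 + (2 * w 2) ^ 2 + (w 0 - 2 * w 1) ^ 2 + 2 * 0 ^ 2 =
        5 * (8 * s + 1) + (8 * u + 1) - 8 * (2 * m + 1) := by rw [← hs, ← hu, ← hm]; ring
      omega
    · refine ⟨![w 2, 2 * w 2, -(w 0 + 2 * w 1), 0], by rw [dot_vec]; ring, ?_⟩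
      rw [Q_vec]
      have : w 2 ^ 2 + (2 * w 2) ^ 2 + (-(w 0 + 2 * w 1)) ^ 2 + 2 * 0 ^ 2 =
        5 * (8 * s + 1) + (8 * u + 1) := by rw [← hs, ← hu]; ring
      omega

lemma Q_congr (g g₂ : Fin 4 → ℤ) (h : ∀ i, (16 : ℤ) ∣ g i - g₂ i) : Q g % 16 = Q g₂ % 16 := by
  choose k hk using h
  have e : ∀ i, g i = g₂ i + 16 * k i := fun i => by rw [← hk]; ring
  refine (Int.emod_emod_of_dvd _ (dvd_refl 16)).symm.trans ?_
  refine Int.ModEq.trans (b := Q g) (Int.mod_modEq _ _) ?_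
  refine (Int.modEq_iff_dvd.2 ?_).symm
  refine ⟨2 * (g₂ 0 * k 0 + g₂ 1 * k 1 + g₂ 2 * k 2 + 2 * (g₂ 3 * k 3)) +
    16 * (k 0 ^ 2 + k 1 ^ 2 + k 2 ^ 2 + 2 * k 3 ^ 2), ?_⟩
  simp only [Q, B, e]
  ring

lemma rel_aux (w g : Fin 4 → ℤ) (hg : g ≠ 0) (hdot : dot w g = 0) (hg2 : Q g % 4 ≠ 0)
    (hp : ∀ p : ℕ, p.Prime → p ≠ 2 → (p : ℤ) ∣ Qs w → ¬ (p : ℤ) ∣ Q g) :
    Rel (Qs w) (hat (iot w)) (hat w) (2 * Q g) := by
  have hQa : Q (![0, 0, 0, 1] : Fin 4 → ℤ) = 2 := by simp [Q, B]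
  have ha : (![0, 0, 0, 1] : Fin 4 → ℤ) ≠ 0 := by
    intro h
    have := congrFun h 3
    simp at this
  rw [← hQa]
  refine rel_of_refl _ _ _ _ _ ha hg ⟨0, _, fun i => by rw [pow_zero, one_mul], by rw [hQa]; decide⟩
    ⟨0, _, fun i => by rw [pow_zero, one_mul], hg2⟩ ?_ ?_
  · intro p hpp hp2 hd hM
    rw [hQa] at hd
    rcases (Nat.prime_iff_prime_int.1 hpp).dvd_or_dvd hd with h | h
    · have : p ∣ 2 := by exact_mod_cast h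
      exact hp2 ((Nat.prime_dvd_prime_iff_eq hpp Nat.prime_two).1 this)
    · exact hp p hpp hp2 hM h
  · have h1 : refl ![0, 0, 0, 1] (toR (hat (iot w))) = toR (hat w) := by
      ext i
      fin_cases i <;> simp [refl, toR, hat, iot, Q, B] <;> ring
    rw [h1]
    have h2 : B (toR g : Fin 4 → ℚ) (toR (hat w)) = 0 := by
      have : B (toR g : Fin 4 → ℚ) (toR (hat w)) = ((2 * dot w g : ℤ) : ℚ) := by
        simp [toR, hat, B, dot]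
        ring
      rw [this, hdot]
      simp
    unfold refl
    rw [h2]
    simp

end NoobAux

open NoobAux

theorem noob_gen (w : Fin 4 → ℤ) (hw : Prim w) (hCh : ¬ Ch w) :
    ∃ (j : ℕ) (c : ℤ), (c % 8 = 3 ∨ c % 8 = 5) ∧ Rel (Qs w) (hat (iot w)) (hat w) (2 ^ j * c) := by
  obtain ⟨g₂, h1, h2⟩ := exists_g2 w hw hCh
  obtain ⟨g, hd, hc, hp⟩ := orth_adjust w g₂ hw h1
  have h3 := Q_congr g g₂ hc
  have h4 : Q g % 8 = 3 ∨ Q g % 8 = 5 := by omega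
  have hg : g ≠ 0 := by
    rintro rfl
    simp [Q, B] at h4
  refine ⟨1, Q g, h4, ?_⟩
  rw [pow_one]
  exact rel_aux w g hg hd (by omega) hp

theorem noob_ch (w : Fin 4 → ℤ) (hw : Prim w) (hCh : Ch w) (r : ℤ) (hr : r = 3 ∨ r = 7) :
    ∃ (j : ℕ) (c : ℤ), c % 8 = r ∧ Rel (Qs w) (hat (iot w)) (hat w) (2 ^ j * c) := by
  obtain ⟨g₂, h1, h2⟩ := exists_g2_ch w hCh r hr
  obtain ⟨g, hd, hc, hp⟩ := orth_adjust w g₂ hw h1
  have h3 := Q_congr g g₂ hc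
  have hg : g ≠ 0 := by
    rintro rfl
    have hq0 : Q (0 : Fin 4 → ℤ) = 0 := by simp [Q, B]
    rw [hq0] at h3
    omega
  refine ⟨2, Q g / 2, by omega, ?_⟩
  have h5 : (2 : ℤ) ^ 2 * (Q g / 2) = 2 * Q g := by omega
  rw [h5]
  exact rel_aux w g hg hd (by omega) hp

end Pool.Agent.LX
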