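import Pool.Agent.LX.Defs

set_option autoImplicit false

/-!
Basic properties of the action of the quaternions over `ℤ[√2]` on `ℤ^4` (project LX, row D1).
-/

open Matrix

namespace Pool.Agent.LX

theorem hz_neg_mul (a b : HZ) : -a * b = -(a * b) := neg_mul a b

theorem hz_mul_neg (a b : HZ) : a * -b = -(a * b) := mul_neg a b

theorem hz_comm (n : ℤ) (a : HZ) : (n : HZ) * a = a * (n : HZ) := Int.cast_commute n a

/-! ### The conjugation `sg` -/

theorem sg_mul (a b : HZ) : sg (a * b) = sg a * sg b := by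
  apply Quaternion.ext <;> simp [sg, star_mul', star_add, star_sub]

theorem sg_add (a b : HZ) : sg (a + b) = sg a + sg b := by
  apply Quaternion.ext <;> simp [sg, star_add]

theorem sg_neg (a : HZ) : sg (-a) = -sg a := by
  apply Quaternion.ext <;> simp [sg]

theorem sg_sg (a : HZ) : sg (sg a) = a := by
  apply Quaternion.ext <;> simp [sg]

theorem sg_star (a : HZ) : sg (star a) = star (sg a) := by
  apply Quaternion.ext <;> simp [sg]

theorem sg_intCast (n : ℤ) : sg (n : HZ) = (n : HZ) := by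
  apply Quaternion.ext <;> simp [sg]

theorem sg_one : sg (1 : HZ) = 1 := by
  have h := sg_intCast 1
  simpa using h

theorem normSq_sg (a : HZ) : Quaternion.normSq (sg a) = star (Quaternion.normSq a) := by
  simp [Quaternion.normSq_def', sg, star_pow, star_add]

theorem normSq_star' (a : HZ) : Quaternion.normSq (star a) = Quaternion.normSq a :=
  Quaternion.normSq_star a

theorem sg_coe (r : Zsqrtd 2) : sg (r : HZ) = ((star r : Zsqrtd 2) : HZ) := by
  apply Quaternion.ext <;> simp [sg]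

/-! ### The embedding `io` -/

theorem io_add (x y : Fin 4 → ℤ) : io (x + y) = io x + io y := by
  apply Quaternion.ext <;> apply Zsqrtd.ext <;> simp [io]

theorem io_neg (x : Fin 4 → ℤ) : io (-x) = -io x := by
  apply Quaternion.ext <;> apply Zsqrtd.ext <;> simp [io]

theorem io_smul (n : ℤ) (x : Fin 4 → ℤ) : io (n • x) = (n : HZ) * io x := by
  apply Quaternion.ext <;> apply Zsqrtd.ext <;> simp [io]

theorem io_inj {x y : Fin 4 → ℤ} (h : io x = io y) : x = y := by
  have h0 := congrArg (fun q : HZ => q.imI.re) h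
  have h1 := congrArg (fun q : HZ => q.imJ.re) h
  have h2 := congrArg (fun q : HZ => q.imK.re) h
  have h3 := congrArg (fun q : HZ => q.re.im) h
  simp only [io] at h0 h1 h2 h3
  funext i
  fin_cases i
  · exact h0
  · exact h1
  · exact h2
  · exact h3

theorem sg_star_io (y : Fin 4 → ℤ) : sg (star (io y)) = -io y := by
  apply Quaternion.ext <;> apply Zsqrtd.ext <;> simp [io, sg]

theorem io_iot (y : Fin 4 → ℤ) : io (iot y) = sg (io y) := by
  apply Quaternion.ext <;> apply Zsqrtd.ext <;> simp [io, sg, iot]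

theorem iot_iot (y : Fin 4 → ℤ) : iot (iot y) = y := by
  funext i
  fin_cases i <;> simp [iot]

theorem normSq_io (y : Fin 4 → ℤ) : Quaternion.normSq (io y) = ((Q y : ℤ) : Zsqrtd 2) := by
  apply Zsqrtd.ext
  · simp [Quaternion.normSq_def', io, Q, B, pow_two]
    ring
  · simp [Quaternion.normSq_def', io, Q, B, pow_two]

/-- An element fixed by `β ↦ -σ(β̄)` comes from `ℤ^4`. -/
theorem io_of_sg_star {β : HZ} (h : sg (star β) = -β) :
    io ![β.imI.re, β.imJ.re, β.imK.re, β.re.im] = β := by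
  have h0 := congrArg (fun q : HZ => q.re.re) h
  have h1 := congrArg (fun q : HZ => q.imI.im) h
  have h2 := congrArg (fun q : HZ => q.imJ.im) h
  have h3 := congrArg (fun q : HZ => q.imK.im) h
  simp [sg] at h0 h1 h2 h3
  apply Quaternion.ext <;> apply Zsqrtd.ext <;> simp [io] <;> omega

/-- LX-D1 -/
theorem io_act (α : HZ) (y : Fin 4 → ℤ) : io (act α y) = α * io y * sg (star α) := by
  apply io_of_sg_star
  rw [star_mul, star_mul, sg_mul, sg_mul, sg_star_io, ← sg_star, star_star, sg_sg, hz_neg_mul,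
    hz_mul_neg, mul_assoc]

/-! ### Additivity and composition of the action -/

theorem act_add (α : HZ) (x y : Fin 4 → ℤ) : act α (x + y) = act α x + act α y := by
  apply io_inj
  rw [io_add, io_act, io_act, io_act, io_add, mul_add, add_mul]

theorem act_neg (α : HZ) (x : Fin 4 → ℤ) : act α (-x) = -act α x := by
  apply io_inj
  rw [io_neg, io_act, io_act, io_neg, hz_mul_neg, hz_neg_mul]

theorem act_smul (α : HZ) (n : ℤ) (x : Fin 4 → ℤ) : act α (n • x) = n • act α x := by
  apply io_inj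
  rw [io_smul, io_act, io_act, io_smul, ← mul_assoc, ← hz_comm]
  simp only [mul_assoc]

theorem act_mul (α β : HZ) (x : Fin 4 → ℤ) : act (α * β) x = act α (act β x) := by
  apply io_inj
  rw [io_act, io_act, io_act, star_mul, sg_mul]
  simp only [mul_assoc]

theorem act_int (n : ℤ) (x : Fin 4 → ℤ) : act (n : HZ) x = (n ^ 2) • x := by
  apply io_inj
  rw [io_act, io_smul, star_intCast, sg_intCast, mul_assoc, ← hz_comm, ← mul_assoc]
  push_cast
  rw [pow_two]

theorem act_sg (α : HZ) (x : Fin 4 → ℤ) : act (sg α) x = iot (act α (iot x)) := by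
  apply io_inj
  rw [io_iot, io_act, io_act, io_iot, sg_mul, sg_mul, sg_sg, sg_sg, sg_star]
  simp only [sg_sg]

/-! ### Norms -/

theorem intCast_eq (c : ℤ) : (((c : Zsqrtd 2)) : HZ) = (c : HZ) := by
  apply Quaternion.ext <;> simp

/-- The action multiplies `Q` by the square of the norm. -/
theorem Q_act {α : HZ} {c : ℤ} (h : Quaternion.normSq α = (c : Zsqrtd 2)) (y : Fin 4 → ℤ) :
    Q (act α y) = c ^ 2 * Q y := by
  have h1 := normSq_io (act α y)
  rw [io_act, map_mul, map_mul, normSq_sg, normSq_star', h, normSq_io, star_intCast] at h1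
  have h2 : (((c ^ 2 * Q y : ℤ)) : Zsqrtd 2) = ((Q (act α y) : ℤ) : Zsqrtd 2) := by
    rw [← h1]; push_cast; ring
  exact (Int.cast_injective h2).symm

/-- The action multiplies `Q` by the norm from `ℤ[√2]` of the norm of the quaternion. -/
theorem Q_act_norm (α : HZ) (y : Fin 4 → ℤ) :
    Q (act α y) = (Quaternion.normSq α).norm * Q y := by
  have h1 := normSq_io (act α y)
  rw [io_act, map_mul, map_mul, normSq_sg, normSq_star', normSq_io] at h1
  have h2 : ((((Quaternion.normSq α).norm * Q y : ℤ)) : Zsqrtd 2)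
      = ((Q (act α y) : ℤ) : Zsqrtd 2) := by
    rw [← h1, Int.cast_mul, Zsqrtd.norm_eq_mul_conj]
    ring
  exact (Int.cast_injective h2).symm

theorem Q_add (x y : Fin 4 → ℤ) : Q (x + y) = Q x + 2 * B x y + Q y := by
  simp only [Q, B, Pi.add_apply]; ring

theorem B_act {α : HZ} {c : ℤ} (h : Quaternion.normSq α = (c : Zsqrtd 2)) (x y : Fin 4 → ℤ) :
    B (act α x) (act α y) = c ^ 2 * B x y := by
  have h1 := Q_act h (x + y)
  rw [act_add, Q_add, Q_add, Q_act h, Q_act h] at h1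
  linarith

theorem hz_cancel {c : ℤ} (hc : c ≠ 0) {a b : HZ} (h : (c : HZ) * a = (c : HZ) * b) : a = b := by
  have key : ∀ z w : Zsqrtd 2, (c : Zsqrtd 2) * z = (c : Zsqrtd 2) * w → z = w := by
    intro z w hzw
    have h1 := congrArg Zsqrtd.re hzw
    have h2 := congrArg Zsqrtd.im hzw
    simp only [Zsqrtd.re_mul, Zsqrtd.im_mul, Zsqrtd.re_intCast, Zsqrtd.im_intCast, mul_zero,
      zero_mul, add_zero] at h1 h2
    exact Zsqrtd.ext (mul_left_cancel₀ hc h1) (mul_left_cancel₀ hc h2)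
  have h0 := congrArg (fun q : HZ => q.re) h
  have h1 := congrArg (fun q : HZ => q.imI) h
  have h2 := congrArg (fun q : HZ => q.imJ) h
  have h3 := congrArg (fun q : HZ => q.imK) h
  simp only [Quaternion.re_mul, Quaternion.imI_mul, Quaternion.imJ_mul, Quaternion.imK_mul,
    Quaternion.re_intCast, Quaternion.imI_intCast, Quaternion.imJ_intCast,
    Quaternion.imK_intCast, zero_mul, sub_zero, add_zero] at h0 h1 h2 h3
  apply Quaternion.ext
  · exact key _ _ h0
  · exact key _ _ h1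
  · exact key _ _ h2
  · exact key _ _ h3

/-- The intertwining relation says that `act α u = c u'`. -/
theorem act_of_inter {α : HZ} {c : ℤ} {u u' : Fin 4 → ℤ}
    (h : Quaternion.normSq α = (c : Zsqrtd 2)) (hu : α * io u = io u' * sg α) :
    act α u = c • u' := by
  apply io_inj
  rw [io_act, hu, mul_assoc, ← sg_mul, Quaternion.self_mul_star, h, intCast_eq, sg_intCast,
    io_smul, hz_comm]

theorem act_act_star {α : HZ} {c : ℤ} (h : Quaternion.normSq α = (c : Zsqrtd 2))
    (y : Fin 4 → ℤ) : act α (act (star α) y) = (c ^ 2) • y := by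
  rw [← act_mul, Quaternion.self_mul_star, h, intCast_eq, act_int]

theorem act_star_act {α : HZ} {c : ℤ} (h : Quaternion.normSq α = (c : Zsqrtd 2))
    (y : Fin 4 → ℤ) : act (star α) (act α y) = (c ^ 2) • y := by
  rw [← act_mul, Quaternion.star_mul_self, h, intCast_eq, act_int]

theorem B_smul_left (n : ℤ) (x y : Fin 4 → ℤ) : B (n • x) y = n * B x y := by
  simp only [B, Pi.smul_apply, smul_eq_mul]; ring

theorem B_smul_right (n : ℤ) (x y : Fin 4 → ℤ) : B x (n • y) = n * B x y := by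
  simp only [B, Pi.smul_apply, smul_eq_mul]; ring

/-- `act (star α)` is the adjoint of `act α`. -/
theorem B_act_star {α : HZ} {c : ℤ} (h : Quaternion.normSq α = (c : Zsqrtd 2)) (hc : c ≠ 0)
    (x y : Fin 4 → ℤ) : B (act (star α) y) x = B y (act α x) := by
  have h1 := B_act h (act (star α) y) x
  rw [act_act_star h, B_smul_left] at h1
  exact (mul_left_cancel₀ (pow_ne_zero 2 hc) h1).symm

/-- LX-D1 -/
theorem Rel.mul {M : ℤ} {u₁ u₂ u₃ : Fin 4 → ℤ} {c c' : ℤ} (h : Rel M u₁ u₂ c)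
    (h' : Rel M u₂ u₃ c') : Rel M u₁ u₃ (c * c') := by
  obtain ⟨α, hN, hc, hu, ⟨t, ht, hd⟩, hp⟩ := h
  obtain ⟨β, hN', hc', hu', ⟨t', ht', hd'⟩, hp'⟩ := h'
  refine ⟨β * α, ?_, mul_pos hc hc', ?_, ⟨t * t', ht.mul ht', ?_⟩, ?_⟩
  · rw [map_mul, hN, hN']; push_cast; ring
  · rw [mul_assoc, hu, ← mul_assoc, hu', sg_mul, mul_assoc]
  · intro y i
    choose z hz using hd y
    have e : t • act α y = c • z := by
      funext j
      simpa using hz j
    rw [act_mul]
    have e2 : t • act β (act α y) = c • act β z := by rw [← act_smul, e, act_smul]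
    have e3 := congrFun e2 i
    simp only [Pi.smul_apply, smul_eq_mul] at e3
    obtain ⟨w, hw⟩ := hd' z i
    refine ⟨w, ?_⟩
    calc t * t' * act β (act α y) i = t' * (t * act β (act α y) i) := by ring
      _ = c * (t' * act β z i) := by rw [e3]; ring
      _ = c * c' * w := by rw [hw]; ring
  · intro p hpp hp2 hdvd
    rcases (Nat.prime_iff_prime_int.mp hpp).dvd_or_dvd hdvd with h1 | h1
    · exact hp p hpp hp2 h1
    · exact hp' p hpp hp2 h1

/-- `c`-integrality passes to the conjugate. -/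
theorem dvd_act_star {α : HZ} {c t : ℤ} (hN : Quaternion.normSq α = (c : Zsqrtd 2)) (hc : c ≠ 0)
    (hd : ∀ y i, c ∣ t * act α y i) (y : Fin 4 → ℤ) (i : Fin 4) :
    c ∣ t * act (star α) y i := by
  have hB : ∀ x : Fin 4 → ℤ, ∃ a : ℤ, t * B (act (star α) y) x = c * a := by
    intro x
    choose z hz using hd x
    refine ⟨B y z, ?_⟩
    have e : t • act α x = c • z := by
      funext j
      simpa using hz j
    rw [B_act_star hN hc, ← B_smul_right, e, B_smul_right]
  set v := act (star α) y with hv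
  obtain ⟨a0, h0⟩ := hB ![1, 0, 0, 0]
  obtain ⟨a1, h1⟩ := hB ![0, 1, 0, 0]
  obtain ⟨a2, h2⟩ := hB ![0, 0, 1, 0]
  obtain ⟨b, h3⟩ := hB ![0, 0, 0, 1]
  simp [B] at h0 h1 h2 h3
  have hQ : Q v = c ^ 2 * Q y := Q_act (by rw [normSq_star', hN]) y
  have hb : 2 * t ^ 2 * Q y = 2 * (a0 ^ 2 + a1 ^ 2 + a2 ^ 2) + b ^ 2 := by
    apply mul_left_cancel₀ (pow_ne_zero 2 hc)
    have e1 : c ^ 2 * (2 * t ^ 2 * Q y) = 2 * t ^ 2 * Q v := by rw [hQ]; ring
    have e2 : 2 * t ^ 2 * Q v = 2 * ((t * v 0) ^ 2 + (t * v 1) ^ 2 + (t * v 2) ^ 2)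
        + (t * (2 * v 3)) ^ 2 := by
      simp only [Q, B]; ring
    rw [e1, e2, h0, h1, h2, h3]; ring
  have hbe : Even b := by
    have : Even (b ^ 2) := by
      refine ⟨t ^ 2 * Q y - (a0 ^ 2 + a1 ^ 2 + a2 ^ 2), ?_⟩
      linarith
    exact (Int.even_pow.mp this).1
  obtain ⟨b', hb'⟩ := hbe
  fin_cases i
  · exact ⟨a0, h0⟩
  · exact ⟨a1, h1⟩
  · exact ⟨a2, h2⟩
  · refine ⟨b', ?_⟩
    have : t * (2 * v 3) = c * (b' + b') := by rw [h3, hb']
    change t * v 3 = c * b'
    linarith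

/-- LX-D1 -/
theorem Rel.symm {M : ℤ} {u₁ u₂ : Fin 4 → ℤ} {c : ℤ} (h : Rel M u₁ u₂ c) : Rel M u₂ u₁ c := by
  obtain ⟨α, hN, hc, hu, ⟨t, ht, hd⟩, hp⟩ := h
  refine ⟨star α, by rw [normSq_star', hN], hc, ?_, ⟨t, ht, ?_⟩, hp⟩
  · have h1 : (c : HZ) * (io u₁ * sg (star α)) = (c : HZ) * (star α * io u₂) := by
      calc (c : HZ) * (io u₁ * sg (star α)) = (star α * α) * io u₁ * sg (star α) := by
            rw [Quaternion.star_mul_self, hN, intCast_eq, mul_assoc]
        _ = star α * (α * io u₁) * sg (star α) := by simp only [mul_assoc]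
        _ = star α * (io u₂ * sg α) * sg (star α) := by rw [hu]
        _ = star α * io u₂ * sg (α * star α) := by rw [sg_mul]; simp only [mul_assoc]
        _ = _ := by rw [Quaternion.self_mul_star, hN, intCast_eq, sg_intCast, hz_comm]
    exact (hz_cancel hc.ne' h1).symm
  · exact dvd_act_star hN hc.ne' hd

/-- LX-D1 -/
theorem rel_neg (M : ℤ) (u : Fin 4 → ℤ) : Rel M u (-u) 2 := by
  have hcomm : ∀ a : HZ, (((⟨0, 1⟩ : Zsqrtd 2)) : HZ) * a = a * (((⟨0, 1⟩ : Zsqrtd 2)) : HZ) :=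
    fun a => Quaternion.coe_commutes _ a
  have hsq : (((⟨0, 1⟩ : Zsqrtd 2)) : HZ) * (((⟨0, 1⟩ : Zsqrtd 2)) : HZ) = ((2 : ℤ) : HZ) := by
    rw [← Quaternion.coe_mul, ← intCast_eq]
    congr 1
  have hsg : sg (((⟨0, 1⟩ : Zsqrtd 2)) : HZ) = -(((⟨0, 1⟩ : Zsqrtd 2)) : HZ) := by
    rw [sg_coe, ← Quaternion.coe_neg]
    congr 1
  refine ⟨(((⟨0, 1⟩ : Zsqrtd 2)) : HZ), ?_, by norm_num, ?_, ⟨1, odd_one, ?_⟩, ?_⟩
  · rw [Quaternion.normSq_coe]
    apply Zsqrtd.ext <;> simp [pow_two]
  · rw [io_neg, hsg, hz_neg_mul, hz_mul_neg, neg_neg, hcomm]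
  · intro y i
    have h1 : act (((⟨0, 1⟩ : Zsqrtd 2)) : HZ) y = (-2 : ℤ) • y := by
      apply io_inj
      rw [io_act, Quaternion.star_coe, hsg, hz_mul_neg, hcomm, mul_assoc, hsq, io_smul, ← hz_comm]
      rw [← hz_neg_mul]
      congr 1
    rw [h1]
    exact ⟨-y i, by simp⟩
  · intro p hpp hp2 hdvd
    exfalso
    apply hp2
    have h2 : p ∣ 2 := by exact_mod_cast hdvd
    exact (Nat.prime_dvd_prime_iff_eq hpp Nat.prime_two).mp h2

/-- LX-D1 -/
theorem rel_iot {M : ℤ} {u u' : Fin 4 → ℤ} {c : ℤ} (h : Rel M u u' c) :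
    Rel M (iot u) (iot u') c := by
  obtain ⟨α, hN, hc, hu, ⟨t, ht, hd⟩, hp⟩ := h
  refine ⟨sg α, ?_, hc, ?_, ⟨t, ht, ?_⟩, hp⟩
  · rw [normSq_sg, hN, star_intCast]
  · rw [io_iot, io_iot, ← sg_mul, hu, sg_mul]
  · intro y i
    rw [act_sg]
    have key : ∀ j, c ∣ t * act α (iot y) j := hd (iot y)
    fin_cases i
    · exact key 0
    · exact key 1
    · exact key 2
    · have := key 3
      change c ∣ t * -(act α (iot y) 3)
      rw [mul_neg]
      exact (dvd_neg).mpr this

end Pool.Agent.LX
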