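import Pool.Agent.LX.Defs

set_option autoImplicit false

/-!
Transitivity at an odd prime: a vector `a` with `Q a` and
`Q a * B u u' - 2 * B a u * B a u'` prime to `p`.
-/

namespace Pool.Agent.LX

private lemma to_aux {F : Type*} [Field F] (h2 : (2 : F) ≠ 0) {s t x y : F} (hs : s ≠ 0)
    (ht : t ≠ 0) (hxy : x * y = 0) (h1 : (s + x) * (t + y) = 0) (h3 : (s + x) * (-t + y) = 0)
    (h4 : (s - x) * (t - y) = 0) : False := by
  rcases mul_eq_zero.mp hxy with hx | hy
  · rw [hx] at h1 h3
    have a1 : t + y = 0 := (mul_eq_zero.mp h1).resolve_left (by simpa using hs)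
    have a2 : -t + y = 0 := (mul_eq_zero.mp h3).resolve_left (by simpa using hs)
    exact mul_ne_zero h2 ht (by linear_combination a1 - a2)
  · rw [hy] at h1 h4
    have a1 : s + x = 0 := (mul_eq_zero.mp h1).resolve_right (by simpa using ht)
    have a2 : s - x = 0 := (mul_eq_zero.mp h4).resolve_right (by simpa using ht)
    exact mul_ne_zero h2 hs (by linear_combination a1 + a2)

private lemma to_core {F : Type*} [Field F] (h2 : (2 : F) ≠ 0) (U U' : Fin 4 → F)
    (hU : ∃ i, U i ≠ 0) (hU' : ∃ i, U' i ≠ 0)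
    (H : ∀ a b c d : ℤ, ((a : F) ^ 2 + (b : F) ^ 2 + (c : F) ^ 2 + 2 * (d : F) ^ 2) ≠ 0 →
      ((a : F) ^ 2 + (b : F) ^ 2 + (c : F) ^ 2 + 2 * (d : F) ^ 2) *
        (U 0 * U' 0 + U 1 * U' 1 + U 2 * U' 2 + 2 * (U 3 * U' 3)) =
      2 * ((a : F) * U 0 + b * U 1 + c * U 2 + 2 * (d * U 3)) *
        ((a : F) * U' 0 + b * U' 1 + c * U' 2 + 2 * (d * U' 3))) : False := by
  have e0 := H 1 0 0 0 (by simp)
  have e1 := H 0 1 0 0 (by simp)
  have e2 := H 0 0 1 0 (by simp)
  have e3 := H 0 0 0 1 (by simpa using h2)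
  push_cast at e0 e1 e2 e3
  have hβ : U 0 * U' 0 + U 1 * U' 1 + U 2 * U' 2 + 2 * (U 3 * U' 3) = 0 := by
    have h4 : (2 * 2 : F) * (U 0 * U' 0 + U 1 * U' 1 + U 2 * U' 2 + 2 * (U 3 * U' 3)) = 0 := by
      linear_combination 2 * e0 + 2 * e1 + 2 * e2 + e3
    rcases mul_eq_zero.mp h4 with h | h
    · exact absurd h (mul_ne_zero h2 h2)
    · exact h
  rw [hβ] at e0 e1 e2 e3
  have z0 : U 0 * U' 0 = 0 := by
    have : (2 : F) * (U 0 * U' 0) = 0 := by linear_combination -e0
    exact (mul_eq_zero.mp this).resolve_left h2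
  have z1 : U 1 * U' 1 = 0 := by
    have : (2 : F) * (U 1 * U' 1) = 0 := by linear_combination -e1
    exact (mul_eq_zero.mp this).resolve_left h2
  have z2 : U 2 * U' 2 = 0 := by
    have : (2 : F) * (U 2 * U' 2) = 0 := by linear_combination -e2
    exact (mul_eq_zero.mp this).resolve_left h2
  have z3 : U 3 * U' 3 = 0 := by
    have : (2 * 2 * 2 : F) * (U 3 * U' 3) = 0 := by linear_combination -e3
    exact (mul_eq_zero.mp this).resolve_left (mul_ne_zero (mul_ne_zero h2 h2) h2)
  have K : ∀ a b c d : ℤ, ((a : F) ^ 2 + (b : F) ^ 2 + (c : F) ^ 2 + 2 * (d : F) ^ 2) ≠ 0 →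
      ((a : F) * U 0 + b * U 1 + c * U 2 + 2 * (d * U 3)) *
        ((a : F) * U' 0 + b * U' 1 + c * U' 2 + 2 * (d * U' 3)) = 0 := by
    intro a b c d h
    have h1 := H a b c d h
    rw [hβ] at h1
    have : (2 : F) * (((a : F) * U 0 + b * U 1 + c * U 2 + 2 * (d * U 3)) *
        ((a : F) * U' 0 + b * U' 1 + c * U' 2 + 2 * (d * U' 3))) = 0 := by
      linear_combination -h1
    exact (mul_eq_zero.mp this).resolve_left h2
  obtain ⟨i, hi⟩ := hU
  obtain ⟨j, hj⟩ := hU'
  fin_cases i <;> fin_cases j <;> simp only [Fin.zero_eta, Fin.mk_one, Fin.reduceFinMk] at hi hj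
  · exact absurd z0 (mul_ne_zero hi hj)
  · have yi : U' 0 = 0 := (mul_eq_zero.mp z0).resolve_left hi
    have yj : U 1 = 0 := (mul_eq_zero.mp z1).resolve_right hj
    have h := K 1 1 0 0 (by push_cast; intro h; exact h2 (by linear_combination h))
    rw [yi, yj] at h
    push_cast at h
    exact mul_ne_zero hi hj (by linear_combination h)
  · have yi : U' 0 = 0 := (mul_eq_zero.mp z0).resolve_left hi
    have yj : U 2 = 0 := (mul_eq_zero.mp z2).resolve_right hj
    have h := K 1 0 1 0 (by push_cast; intro h; exact h2 (by linear_combination h))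
    rw [yi, yj] at h
    push_cast at h
    exact mul_ne_zero hi hj (by linear_combination h)
  · have yi : U' 0 = 0 := (mul_eq_zero.mp z0).resolve_left hi
    have yj : U 3 = 0 := (mul_eq_zero.mp z3).resolve_right hj
    have h1 := K 1 1 0 1 (by push_cast; intro h; exact mul_ne_zero h2 h2 (by linear_combination h))
    have h3 := K 1 1 0 (-1) (by push_cast; intro h; exact mul_ne_zero h2 h2 (by linear_combination h))
    have h4 := K 1 (-1) 0 1 (by push_cast; intro h; exact mul_ne_zero h2 h2 (by linear_combination h))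
    rw [yi, yj] at h1 h3 h4
    push_cast at h1 h3 h4
    exact to_aux h2 (s := U 0) (t := 2 * U' 3) (x := U 1) (y := U' 1) hi (mul_ne_zero h2 hj) z1
      (by linear_combination h1) (by linear_combination h3) (by linear_combination h4)
  · have yi : U' 1 = 0 := (mul_eq_zero.mp z1).resolve_left hi
    have yj : U 0 = 0 := (mul_eq_zero.mp z0).resolve_right hj
    have h := K 1 1 0 0 (by push_cast; intro h; exact h2 (by linear_combination h))
    rw [yi, yj] at h
    push_cast at h
    exact mul_ne_zero hi hj (by linear_combination h)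
  · exact absurd z1 (mul_ne_zero hi hj)
  · have yi : U' 1 = 0 := (mul_eq_zero.mp z1).resolve_left hi
    have yj : U 2 = 0 := (mul_eq_zero.mp z2).resolve_right hj
    have h := K 0 1 1 0 (by push_cast; intro h; exact h2 (by linear_combination h))
    rw [yi, yj] at h
    push_cast at h
    exact mul_ne_zero hi hj (by linear_combination h)
  · have yi : U' 1 = 0 := (mul_eq_zero.mp z1).resolve_left hi
    have yj : U 3 = 0 := (mul_eq_zero.mp z3).resolve_right hj
    have h1 := K 1 1 0 1 (by push_cast; intro h; exact mul_ne_zero h2 h2 (by linear_combination h))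
    have h3 := K 1 1 0 (-1) (by push_cast; intro h; exact mul_ne_zero h2 h2 (by linear_combination h))
    have h4 := K (-1) 1 0 1 (by push_cast; intro h; exact mul_ne_zero h2 h2 (by linear_combination h))
    rw [yi, yj] at h1 h3 h4
    push_cast at h1 h3 h4
    exact to_aux h2 (s := U 1) (t := 2 * U' 3) (x := U 0) (y := U' 0) hi (mul_ne_zero h2 hj) z0
      (by linear_combination h1) (by linear_combination h3) (by linear_combination h4)
  · have yi : U' 2 = 0 := (mul_eq_zero.mp z2).resolve_left hi
    have yj : U 0 = 0 := (mul_eq_zero.mp z0).resolve_right hj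
    have h := K 1 0 1 0 (by push_cast; intro h; exact h2 (by linear_combination h))
    rw [yi, yj] at h
    push_cast at h
    exact mul_ne_zero hi hj (by linear_combination h)
  · have yi : U' 2 = 0 := (mul_eq_zero.mp z2).resolve_left hi
    have yj : U 1 = 0 := (mul_eq_zero.mp z1).resolve_right hj
    have h := K 0 1 1 0 (by push_cast; intro h; exact h2 (by linear_combination h))
    rw [yi, yj] at h
    push_cast at h
    exact mul_ne_zero hi hj (by linear_combination h)
  · exact absurd z2 (mul_ne_zero hi hj)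
  · have yi : U' 2 = 0 := (mul_eq_zero.mp z2).resolve_left hi
    have yj : U 3 = 0 := (mul_eq_zero.mp z3).resolve_right hj
    have h1 := K 1 0 1 1 (by push_cast; intro h; exact mul_ne_zero h2 h2 (by linear_combination h))
    have h3 := K 1 0 1 (-1) (by push_cast; intro h; exact mul_ne_zero h2 h2 (by linear_combination h))
    have h4 := K (-1) 0 1 1 (by push_cast; intro h; exact mul_ne_zero h2 h2 (by linear_combination h))
    rw [yi, yj] at h1 h3 h4
    push_cast at h1 h3 h4
    exact to_aux h2 (s := U 2) (t := 2 * U' 3) (x := U 0) (y := U' 0) hi (mul_ne_zero h2 hj) z0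
      (by linear_combination h1) (by linear_combination h3) (by linear_combination h4)
  · have yi : U' 3 = 0 := (mul_eq_zero.mp z3).resolve_left hi
    have yj : U 0 = 0 := (mul_eq_zero.mp z0).resolve_right hj
    have h1 := K 1 1 0 1 (by push_cast; intro h; exact mul_ne_zero h2 h2 (by linear_combination h))
    have h3 := K (-1) 1 0 1 (by push_cast; intro h; exact mul_ne_zero h2 h2 (by linear_combination h))
    have h4 := K 1 (-1) 0 1 (by push_cast; intro h; exact mul_ne_zero h2 h2 (by linear_combination h))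
    rw [yi, yj] at h1 h3 h4
    push_cast at h1 h3 h4
    exact to_aux h2 (s := 2 * U 3) (t := U' 0) (x := U 1) (y := U' 1) (mul_ne_zero h2 hi) hj z1
      (by linear_combination h1) (by linear_combination h3) (by linear_combination h4)
  · have yi : U' 3 = 0 := (mul_eq_zero.mp z3).resolve_left hi
    have yj : U 1 = 0 := (mul_eq_zero.mp z1).resolve_right hj
    have h1 := K 1 1 0 1 (by push_cast; intro h; exact mul_ne_zero h2 h2 (by linear_combination h))
    have h3 := K 1 (-1) 0 1 (by push_cast; intro h; exact mul_ne_zero h2 h2 (by linear_combination h))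
    have h4 := K (-1) 1 0 1 (by push_cast; intro h; exact mul_ne_zero h2 h2 (by linear_combination h))
    rw [yi, yj] at h1 h3 h4
    push_cast at h1 h3 h4
    exact to_aux h2 (s := 2 * U 3) (t := U' 1) (x := U 0) (y := U' 0) (mul_ne_zero h2 hi) hj z0
      (by linear_combination h1) (by linear_combination h3) (by linear_combination h4)
  · have yi : U' 3 = 0 := (mul_eq_zero.mp z3).resolve_left hi
    have yj : U 2 = 0 := (mul_eq_zero.mp z2).resolve_right hj
    have h1 := K 1 0 1 1 (by push_cast; intro h; exact mul_ne_zero h2 h2 (by linear_combination h))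
    have h3 := K 1 0 (-1) 1 (by push_cast; intro h; exact mul_ne_zero h2 h2 (by linear_combination h))
    have h4 := K (-1) 0 1 1 (by push_cast; intro h; exact mul_ne_zero h2 h2 (by linear_combination h))
    rw [yi, yj] at h1 h3 h4
    push_cast at h1 h3 h4
    exact to_aux h2 (s := 2 * U 3) (t := U' 2) (x := U 0) (y := U' 0) (mul_ne_zero h2 hi) hj z0
      (by linear_combination h1) (by linear_combination h3) (by linear_combination h4)
  · exact absurd z3 (mul_ne_zero hi hj)

/-- LX-D3a: at an odd prime some reflection vector works. -/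
theorem trans_odd (p : ℕ) (hp : p.Prime) (hp2 : p ≠ 2) (u u' : Fin 4 → ℤ)
    (hu : ∃ i, ¬ (p : ℤ) ∣ u i) (hu' : ∃ i, ¬ (p : ℤ) ∣ u' i) :
    ∃ a : Fin 4 → ℤ, ¬ (p : ℤ) ∣ Q a ∧ ¬ (p : ℤ) ∣ Q a * B u u' - 2 * B a u * B a u' := by
  haveI : Fact p.Prime := ⟨hp⟩
  by_contra hcon
  push Not at hcon
  have h2 : (2 : ZMod p) ≠ 0 := by
    intro h
    have h' : ((2 : ℕ) : ZMod p) = 0 := by exact_mod_cast h
    rw [ZMod.natCast_eq_zero_iff] at h'
    exact hp2 ((Nat.prime_dvd_prime_iff_eq hp Nat.prime_two).mp h')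
  refine to_core h2 (fun i => (u i : ZMod p)) (fun i => (u' i : ZMod p)) ?_ ?_ ?_
  · obtain ⟨i, hi⟩ := hu
    exact ⟨i, fun h => hi ((ZMod.intCast_zmod_eq_zero_iff_dvd _ _).mp h)⟩
  · obtain ⟨i, hi⟩ := hu'
    exact ⟨i, fun h => hi ((ZMod.intCast_zmod_eq_zero_iff_dvd _ _).mp h)⟩
  · intro a b c d h
    have hQ : ¬ (p : ℤ) ∣ Q ![a, b, c, d] := by
      intro hd
      apply h
      have := (ZMod.intCast_zmod_eq_zero_iff_dvd _ p).mpr hd
      simp only [Q, B, Matrix.cons_val] at this
      push_cast at this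
      linear_combination this
    have h1 := (ZMod.intCast_zmod_eq_zero_iff_dvd _ p).mpr (hcon ![a, b, c, d] hQ)
    simp only [Q, B, Matrix.cons_val] at h1
    push_cast at h1
    linear_combination h1

end Pool.Agent.LX
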