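import Mathlib

set_option autoImplicit false

/-!
Definitions for the project LX (problem MP_063baf_nt): representations of large integers by
`x^2 + y^2 + z^2 + 2 w^2` with a bounded linear form.
-/

open Matrix

namespace Pool.Agent.LX

/-- The bilinear form of `x^2 + y^2 + z^2 + 2 w^2`. -/
def B {R : Type*} [CommRing R] (x y : Fin 4 → R) : R :=
  x 0 * y 0 + x 1 * y 1 + x 2 * y 2 + 2 * (x 3 * y 3)

/-- The quadratic form `x^2 + y^2 + z^2 + 2 w^2`. -/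
def Q {R : Type*} [CommRing R] (x : Fin 4 → R) : R := B x x

/-- The dual form `2 a^2 + 2 b^2 + 2 c^2 + d^2`. -/
def Qs (w : Fin 4 → ℤ) : ℤ := 2 * (w 0 ^ 2 + w 1 ^ 2 + w 2 ^ 2) + w 3 ^ 2

/-- The linear form `a x + b y + c z + d w`. -/
def dot (w x : Fin 4 → ℤ) : ℤ := w 0 * x 0 + w 1 * x 1 + w 2 * x 2 + w 3 * x 3

/-- Twice the vector that represents the linear form `dot w`: `B (hat w) x = 2 * dot w x`. -/
def hat (w : Fin 4 → ℤ) : Fin 4 → ℤ := ![2 * w 0, 2 * w 1, 2 * w 2, w 3]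

/-- Coordinatewise cast of an integer vector. -/
def toR {R : Type*} [CommRing R] (x : Fin 4 → ℤ) : Fin 4 → R := fun i => (x i : R)

/-- The rational vector `x` is integral. -/
def IsInt (x : Fin 4 → ℚ) : Prop := ∃ z : Fin 4 → ℤ, x = toR z

/-- `A` is an isometry of the rational quadratic space. -/
def IsIso (A : Matrix (Fin 4) (Fin 4) ℚ) : Prop :=
  ∀ x y : Fin 4 → ℚ, B (A *ᵥ x) (A *ᵥ y) = B x y

/-- `t` times the matrix `A` is integral. -/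
def Den (A : Matrix (Fin 4) (Fin 4) ℚ) (t : ℕ) : Prop :=
  ∀ y : Fin 4 → ℤ, IsInt ((t : ℚ) • (A *ᵥ toR y))

/-- The integer vector `w` is primitive. -/
def Prim (w : Fin 4 → ℤ) : Prop := ∀ p : ℕ, p.Prime → ∃ i, ¬ (p : ℤ) ∣ w i

/-- The characteristic type: `a, b, c` odd, `d` even. -/
def Ch (w : Fin 4 → ℤ) : Prop := Odd (w 0) ∧ Odd (w 1) ∧ Odd (w 2) ∧ Even (w 3)

/-- The finite set of directions of the same norm and the same type as `w₀`. -/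
def InW (w₀ w : Fin 4 → ℤ) : Prop := Prim w ∧ Qs w = Qs w₀ ∧ (Ch w ↔ Ch w₀)

/-- Codes modulo `q`: unimodular isotropic vectors orthogonal to `u`. -/
def CodeZ (q : ℕ) (u : Fin 4 → ℤ) (z : Fin 4 → ZMod q) : Prop :=
  Q z = 0 ∧ B (toR u) z = 0 ∧ ∃ y : Fin 4 → ZMod q, B y z = 1

/-- The code `z` of `u` hits `u₀`. -/
def Hit (q : ℕ) (u₀ u : Fin 4 → ℤ) (z : Fin 4 → ZMod q) : Prop :=
  ∃ A : Matrix (Fin 4) (Fin 4) ℚ, IsIso A ∧ A *ᵥ toR u = toR u₀ ∧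
    ∀ y : Fin 4 → ℤ, B (toR y) z = 0 → IsInt (A *ᵥ toR y)

/-- The codes which avoid `u₀`. -/
def AV (q : ℕ) (u₀ u : Fin 4 → ℤ) : Set (Fin 4 → ZMod q) := {z | CodeZ q u z ∧ ¬ Hit q u₀ u z}

/-- Coordinatewise reduction. -/
def red {a b : ℕ} (h : a ∣ b) (z : Fin 4 → ZMod b) : Fin 4 → ZMod a :=
  fun i => ZMod.castHom h (ZMod a) (z i)

/-- All directions of `W` are connected by isometries with denominator dividing `P ^ ρ`. -/
def ConnP (w₀ : Fin 4 → ℤ) (P ρ : ℕ) : Prop :=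
  ∀ w w' : Fin 4 → ℤ, InW w₀ w → InW w₀ w' → ∃ C C' : Matrix (Fin 4) (Fin 4) ℚ,
    IsIso C ∧ C' * C = 1 ∧ C *ᵥ toR (hat w) = toR (hat w') ∧ Den C (P ^ ρ) ∧ Den C' (P ^ ρ)

/-- The primitive integer vector in the direction of `hat w`. -/
def vs (w : Fin 4 → ℤ) : Fin 4 → ℤ :=
  if Even (w 3) then ![w 0, w 1, w 2, w 3 / 2] else hat w

/-- The lattice spanned by `u` and `x` is saturated. -/
def SatV (u x : Fin 4 → ℤ) : Prop :=
  ∀ p : ℕ, p.Prime → ∀ i j : ℤ, (∀ l, (p : ℤ) ∣ i * u l + j * x l) → (p : ℤ) ∣ i ∧ (p : ℤ) ∣ j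

/-- The vectors of norm `n` on which the linear form takes the value `s`, saturated with `vs w`. -/
def Rset (w : Fin 4 → ℤ) (n s : ℤ) : Set (Fin 4 → ℤ) :=
  {x | Q x = n ∧ dot w x = s ∧ SatV (vs w) x}

/-- The congruence conditions on `s` at the primes dividing `2 * Qs w`. -/
def GoodS (w : Fin 4 → ℤ) (n s : ℤ) : Prop :=
  (Odd (w 3) → IsCoprime s (Qs w) ∧
    ((Qs w * n - 2 * s ^ 2) % 4 = 1 ∨ (Qs w * n - 2 * s ^ 2) % 4 = 2)) ∧
  (Even (w 3) → IsCoprime s (Qs w / 2) ∧ (Ch w → Even (n - s)) ∧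
    (¬ Ch w → Odd (Qs w / 2 * n - s ^ 2)))

/-- `(vs w, x, e, f)` is a basis of `ℤ^4` with a Gram matrix of the shape
`[[*, *, 0, 0], [*, n, g, 0], [0, g, *, b], [0, 0, b, κ]]`. -/
structure Frame (w : Fin 4 → ℤ) (n s g κ b : ℤ) (x e f : Fin 4 → ℤ) : Prop where
  det : IsUnit (Matrix.of ![vs w, x, e, f]).det
  hx : Q x = n
  hs : dot w x = s
  he : B (vs w) e = 0
  hxe : B x e = g
  hf : B (vs w) f = 0
  hxf : B x f = 0
  hef : B e f = b
  hff : Q f = κ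

/-- The character `k ↦ (-D / k)` on odd `k`. -/
def chi (D k : ℕ) : ℤ := if Odd k then jacobiSym (-(D : ℤ)) k else 0

/-- `L` is the value at `1` of the L-series of `chi D`. -/
def IsL (D : ℕ) (L : ℝ) : Prop :=
  ∀ x : ℕ, 1 ≤ x → |∑ k ∈ Finset.Icc 1 x, (chi D k : ℝ) / k - L| ≤ 16 * D / x

/-- The number of square roots of `-δ` modulo `c`. -/
noncomputable def rho (δ c : ℕ) : ℕ := {β : ZMod c | β ^ 2 = -(δ : ZMod c)}.ncard

/-- The number of prime factors. -/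
def om (k : ℕ) : ℕ := k.primeFactors.card

/-- `y` lies in the saturation condition for three vectors. -/
def Sat3 (u x y : Fin 4 → ℤ) : Prop :=
  ∀ p : ℕ, p.Prime → ∀ i j k : ℤ, (∀ l, (p : ℤ) ∣ i * u l + j * x l + k * y l) →
    (p : ℤ) ∣ i ∧ (p : ℤ) ∣ j ∧ (p : ℤ) ∣ k

/-- The vectors `x` of norm `n` with `B u x = σ` for which `u, x` is saturated. -/
def RU (u : Fin 4 → ℤ) (n σ : ℤ) : Set (Fin 4 → ℤ) := {x | Q x = n ∧ B u x = σ ∧ SatV u x}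

/-- The reflection in `a`. -/
def refl (a : Fin 4 → ℤ) (x : Fin 4 → ℚ) : Fin 4 → ℚ :=
  x - (2 * B (toR a) x / Q (toR a)) • (toR a : Fin 4 → ℚ)

/-- Up to a power of two, `a` is an integer vector whose norm is not divisible by `4`. -/
def Good2 (a : Fin 4 → ℤ) : Prop :=
  ∃ (j : ℕ) (a' : Fin 4 → ℤ), (∀ i, a i = 2 ^ j * a' i) ∧ Q a' % 4 ≠ 0

/-- The automorphism `w ↦ -w` of the last coordinate. -/
def iot {R : Type*} [CommRing R] (y : Fin 4 → R) : Fin 4 → R := ![y 0, y 1, y 2, -y 3]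

/-- Quaternions over `ℤ[√2]`. -/
abbrev HZ := Quaternion (Zsqrtd 2)

/-- The embedding of `ℤ^4` in `HZ`: `(x, y, z, w) ↦ w √2 + x i + y j + z k`. -/
def io (y : Fin 4 → ℤ) : HZ := ⟨⟨0, y 3⟩, ⟨y 0, 0⟩, ⟨y 1, 0⟩, ⟨y 2, 0⟩⟩

/-- The conjugation `√2 ↦ -√2` of the coefficients. -/
def sg (α : HZ) : HZ := ⟨star α.re, star α.imI, star α.imJ, star α.imK⟩

/-- The action `y ↦ α y σ(ᾱ)`. -/
def act (α : HZ) (y : Fin 4 → ℤ) : Fin 4 → ℤ :=
  ![(α * io y * sg (star α)).imI.re, (α * io y * sg (star α)).imJ.re,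
    (α * io y * sg (star α)).imK.re, (α * io y * sg (star α)).re.im]

/-- There is a quaternion of norm `c` which maps `u` to `u'`, is invertible at `2` and whose
norm is prime to the odd part of `M`. -/
def Rel (M : ℤ) (u u' : Fin 4 → ℤ) (c : ℤ) : Prop :=
  ∃ α : HZ, Quaternion.normSq α = (c : Zsqrtd 2) ∧ 0 < c ∧ α * io u = io u' * sg α ∧
    (∃ t : ℤ, Odd t ∧ ∀ y i, c ∣ t * act α y i) ∧
    ∀ p : ℕ, p.Prime → p ≠ 2 → (p : ℤ) ∣ c → ¬ (p : ℤ) ∣ M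

end Pool.Agent.LX
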