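import Mathlib
import Pool.Agent.LX.Defs

set_option autoImplicit false

/-!
Project LX (problem MP_063baf_nt), row LX-13: the conditions at the prime two for the
transitivity of the isometries on the directions of a given norm and type.
-/

namespace Pool.Agent.LX

theorem good2_of_mod (g c : Fin 4 → ℤ) (j : ℕ) (hj : j ≤ 3)
    (h : ∀ i, (16 : ℤ) ∣ g i - 2 ^ j * c i) (hc : Q c % 4 ≠ 0) : Good2 g := by
  choose k hk using h
  refine ⟨j, fun i => c i + 2 * (2 ^ (3 - j) * k i), fun i => ?_, ?_⟩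
  · have h1 : (16 : ℤ) = 2 ^ j * (2 * 2 ^ (3 - j)) := by
      interval_cases j <;> norm_num
    have h2 := hk i
    rw [h1] at h2
    linear_combination h2
  · have h1 : Q (fun i => c i + 2 * (2 ^ (3 - j) * k i)) =
        Q c + 4 * (B c (fun i => 2 ^ (3 - j) * k i) + Q fun i => 2 ^ (3 - j) * k i) := by
      simp only [Q, B]
      ring
    rw [h1]
    omega

theorem mod_refl (w w' a a₂ : Fin 4 → ℤ) (h : ∀ i, (16 : ℤ) ∣ a i - a₂ i) (i : Fin 4) :
    (16 : ℤ) ∣ (Q a * hat w' i - Q a * hat w i + 2 * B a (hat w) * a i) -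
      (Q a₂ * hat w' i - Q a₂ * hat w i + 2 * B a₂ (hat w) * a₂ i) := by
  have h' : ∀ i, a₂ i ≡ a i [ZMOD 16] := fun i => (Int.modEq_iff_dvd).2 (h i)
  have hQ : Q a₂ ≡ Q a [ZMOD 16] := by
    unfold Q B
    exact ((((h' 0).mul (h' 0)).add ((h' 1).mul (h' 1))).add ((h' 2).mul (h' 2))).add
      (((h' 3).mul (h' 3)).mul_left 2)
  have hB : B a₂ (hat w) ≡ B a (hat w) [ZMOD 16] := by
    unfold B
    exact ((((h' 0).mul_right _).add ((h' 1).mul_right _)).add ((h' 2).mul_right _)).add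
      (((h' 3).mul_right _).mul_left 2)
  have h1 : Q a₂ * hat w' i - Q a₂ * hat w i + 2 * B a₂ (hat w) * a₂ i ≡
      Q a * hat w' i - Q a * hat w i + 2 * B a (hat w) * a i [ZMOD 16] :=
    ((hQ.mul_right _).sub (hQ.mul_right _)).add ((hB.mul_left 2).mul (h' i))
  exact (Int.modEq_iff_dvd).1 h1

/-- it is enough to look at one vector -/
theorem trans_two_of (w w' a₂ c : Fin 4 → ℤ) (j : ℕ) (hj : j ≤ 3) (ha : Q a₂ % 4 ≠ 0)
    (hc : Q c % 4 ≠ 0)
    (h : ∀ i, Q a₂ * hat w' i - Q a₂ * hat w i + 2 * B a₂ (hat w) * a₂ i = 2 ^ j * c i) :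
    ∃ a₂ : Fin 4 → ℤ, ∀ a : Fin 4 → ℤ, (∀ i, (16 : ℤ) ∣ a i - a₂ i) →
      Good2 a ∧ Good2 (fun i => Q a * hat w' i - Q a * hat w i + 2 * B a (hat w) * a i) := by
  refine ⟨a₂, fun a h16 => ⟨good2_of_mod a a₂ 0 (by norm_num) (fun i => ?_) ha,
    good2_of_mod _ c j hj (fun i => ?_) hc⟩⟩
  · simpa using h16 i
  · rw [← h i]
    exact mod_refl w w' a a₂ h16 i

/-- two non-constant colourings of three points have a common bichromatic pair -/
theorem common_pair (a b c a' b' c' : ℤ) (h1 : a % 2 = 1 ∨ b % 2 = 1 ∨ c % 2 = 1)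
    (h2 : a % 2 = 0 ∨ b % 2 = 0 ∨ c % 2 = 0) (h3 : a' % 2 = 1 ∨ b' % 2 = 1 ∨ c' % 2 = 1)
    (h4 : a' % 2 = 0 ∨ b' % 2 = 0 ∨ c' % 2 = 0) :
    ((a - b) % 2 = 1 ∧ (a' - b') % 2 = 1) ∨ ((a - c) % 2 = 1 ∧ (a' - c') % 2 = 1) ∨
      ((b - c) % 2 = 1 ∧ (b' - c') % 2 = 1) := by
  omega

theorem odd_mul {x y : ℤ} (hx : x % 2 = 1) (hy : y % 2 = 1) : ∃ k, x * y = 2 * k + 1 := by
  obtain ⟨a, ha⟩ : ∃ a, x = 2 * a + 1 := ⟨x / 2, by omega⟩
  obtain ⟨b, hb⟩ : ∃ b, y = 2 * b + 1 := ⟨y / 2, by omega⟩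
  exact ⟨2 * a * b + a + b, by rw [ha, hb]; ring⟩

theorem trans_two (w w' : Fin 4 → ℤ) (hw : Prim w) (hw' : InW w w') :
    ∃ a₂ : Fin 4 → ℤ, ∀ a : Fin 4 → ℤ, (∀ i, (16 : ℤ) ∣ a i - a₂ i) →
      Good2 a ∧ Good2 (fun i => Q a * hat w' i - Q a * hat w i + 2 * B a (hat w) * a i) := by
  obtain ⟨hp', hqs, hch⟩ := hw'
  have hq : 2 * (w' 0 ^ 2 + w' 1 ^ 2 + w' 2 ^ 2) + w' 3 ^ 2 =
      2 * (w 0 ^ 2 + w 1 ^ 2 + w 2 ^ 2) + w 3 ^ 2 := hqs
  obtain ⟨r, hr⟩ : ∃ r, w 3 = 2 * r + w 3 % 2 := ⟨w 3 / 2, by omega⟩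
  obtain ⟨s, hs⟩ : ∃ s, w' 3 = 2 * s + w' 3 % 2 := ⟨w' 3 / 2, by omega⟩
  have hpar : w' 3 % 2 = w 3 % 2 := by
    rcases Int.emod_two_eq_zero_or_one (w 3) with h | h <;>
      rcases Int.emod_two_eq_zero_or_one (w' 3) with h' | h' <;> rw [h, h'] <;> exfalso <;>
      rw [h] at hr <;> rw [h'] at hs <;> rw [hr, hs] at hq <;> ring_nf at hq <;> omega
  rcases Int.emod_two_eq_zero_or_one (w 3) with h | h
  · -- `w 3` even
    rw [h, add_zero] at hr
    rw [hpar, h, add_zero] at hs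
    by_cases hC : Ch w
    · have hC' := hch.2 hC
      obtain ⟨⟨p0, h0⟩, ⟨p1, h1⟩, ⟨p2, h2⟩, -⟩ := hC
      obtain ⟨⟨q0, k0⟩, ⟨q1, k1⟩, ⟨q2, k2⟩, -⟩ := hC'
      have hrs : ∃ t, s = r + 2 * t := by
        have e : ∀ p : ℤ, ∃ m, (2 * p + 1) ^ 2 = 8 * m + 1 := fun p => by
          obtain ⟨m, hm⟩ := Int.even_mul_succ_self p
          exact ⟨m, by linear_combination 4 * hm⟩
        obtain ⟨m0, e0⟩ := e p0
        obtain ⟨m1, e1⟩ := e p1
        obtain ⟨m2, e2⟩ := e p2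
        obtain ⟨n0, f0⟩ := e q0
        obtain ⟨n1, f1⟩ := e q1
        obtain ⟨n2, f2⟩ := e q2
        rw [hr, hs, h0, h1, h2, k0, k1, k2, e0, e1, e2, f0, f1, f2] at hq
        rcases Int.even_or_odd' r with ⟨a, ha | ha⟩ <;>
          rcases Int.even_or_odd' s with ⟨b, hb | hb⟩
        · exact ⟨b - a, by rw [ha, hb]; ring⟩
        · exfalso
          rw [ha, hb] at hq
          ring_nf at hq
          omega
        · exfalso
          rw [ha, hb] at hq
          ring_nf at hq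
          omega
        · exact ⟨b - a, by rw [ha, hb]; ring⟩
      obtain ⟨t, ht⟩ := hrs
      by_cases hc : Q ![q0 + p0 + 1, q1 - p1, q2 - p2, t] % 4 = 0
      · refine trans_two_of w w' ![0, 0, 0, 1] ![q0 - p0, q1 - p1, q2 - p2, r + t] 3 (by norm_num)
          (by simp [Q, B]) ?_ ?_
        · have e : Q ![q0 - p0, q1 - p1, q2 - p2, r + t] =
              Q ![q0 + p0 + 1, q1 - p1, q2 - p2, t] + 2 * (r ^ 2 + 2 * r * t - 2 * p0 * q0 - p0 -
                q0) - 1 := by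
            simp [Q, B]
            ring
          rw [e]
          omega
        · intro i
          fin_cases i <;> simp [Q, B, hat, hr, hs, h0, h1, h2, k0, k1, k2, ht] <;> ring
      · refine trans_two_of w w' ![1, 0, 0, 0] _ 2 (by norm_num) (by simp [Q, B]) hc ?_
        intro i
        fin_cases i <;> simp [Q, B, hat, hr, hs, h0, h1, h2, k0, k1, k2, ht] <;> ring
    · have hC' := fun hh => hC (hch.1 hh)
      have key : ∀ v : Fin 4 → ℤ, Prim v → v 3 % 2 = 0 → ¬ Ch v →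
          (v 0 % 2 = 1 ∨ v 1 % 2 = 1 ∨ v 2 % 2 = 1) ∧ (v 0 % 2 = 0 ∨ v 1 % 2 = 0 ∨ v 2 % 2 = 0) := by
        intro v hv h3 hch
        constructor
        · obtain ⟨i, hi⟩ := hv 2 Nat.prime_two
          have hi' : v i % 2 = 1 := by
            have : ¬ (2 : ℤ) ∣ v i := by exact_mod_cast hi
            omega
          fin_cases i
          · exact Or.inl hi'
          · exact Or.inr (Or.inl hi')
          · exact Or.inr (Or.inr hi')
          · exact absurd hi' (by simp [h3])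
        · by_contra hcon
          apply hch
          refine ⟨Int.odd_iff.2 ?_, Int.odd_iff.2 ?_, Int.odd_iff.2 ?_, Int.even_iff.2 h3⟩ <;> omega
      obtain ⟨a1, a2⟩ := key w hw h hC
      obtain ⟨b1, b2⟩ := key w' hp' (by rw [hpar, h]) hC'
      by_cases hc : Q ![w' 0 + w 0, w' 1 - w 1, w' 2 - w 2, s - r] % 4 = 0
      · rcases common_pair _ _ _ _ _ _ a1 a2 b1 b2 with ⟨c1, c2⟩ | ⟨c1, c2⟩ | ⟨c1, c2⟩
        · obtain ⟨k, hk⟩ := odd_mul c1 c2
          refine trans_two_of w w' ![1, -1, 0, 0] ![w' 0 - w 1, w' 1 - w 0, w' 2 - w 2, s - r] 2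
            (by norm_num) (by simp [Q, B]) ?_ ?_
          · have e : Q ![w' 0 - w 1, w' 1 - w 0, w' 2 - w 2, s - r] =
                Q ![w' 0 + w 0, w' 1 - w 1, w' 2 - w 2, s - r] - 4 * (w 0 * w' 0) +
                2 * ((w 0 - w 1) * (w' 0 - w' 1)) := by
              simp [Q, B]
              ring
            rw [e, hk]
            omega
          · intro i
            fin_cases i <;> simp [Q, B, hat, hr, hs] <;> ring
        · obtain ⟨k, hk⟩ := odd_mul c1 c2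
          refine trans_two_of w w' ![1, 0, -1, 0] ![w' 0 - w 2, w' 1 - w 1, w' 2 - w 0, s - r] 2
            (by norm_num) (by simp [Q, B]) ?_ ?_
          · have e : Q ![w' 0 - w 2, w' 1 - w 1, w' 2 - w 0, s - r] =
                Q ![w' 0 + w 0, w' 1 - w 1, w' 2 - w 2, s - r] - 4 * (w 0 * w' 0) +
                2 * ((w 0 - w 2) * (w' 0 - w' 2)) := by
              simp [Q, B]
              ring
            rw [e, hk]
            omega
          · intro i
            fin_cases i <;> simp [Q, B, hat, hr, hs] <;> ring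
        · obtain ⟨k, hk⟩ := odd_mul c1 c2
          refine trans_two_of w w' ![0, 1, -1, 0] ![w' 0 - w 0, w' 1 - w 2, w' 2 - w 1, s - r] 2
            (by norm_num) (by simp [Q, B]) ?_ ?_
          · have e : Q ![w' 0 - w 0, w' 1 - w 2, w' 2 - w 1, s - r] =
                Q ![w' 0 + w 0, w' 1 - w 1, w' 2 - w 2, s - r] - 4 * (w 0 * w' 0) +
                2 * ((w 1 - w 2) * (w' 1 - w' 2)) := by
              simp [Q, B]
              ring
            rw [e, hk]
            omega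
          · intro i
            fin_cases i <;> simp [Q, B, hat, hr, hs] <;> ring
      · refine trans_two_of w w' ![1, 0, 0, 0] _ 1 (by norm_num) (by simp [Q, B]) hc ?_
        intro i
        fin_cases i <;> simp [Q, B, hat, hr, hs] <;> ring
  · -- `w 3` odd
    rw [h] at hr
    rw [hpar, h] at hs
    by_cases hc : Q ![w' 0 + w 0, w' 1 - w 1, w' 2 - w 2, s - r] % 4 = 0
    · refine trans_two_of w w' ![0, 0, 0, 1] ![w' 0 - w 0, w' 1 - w 1, w' 2 - w 2, s + r + 1] 2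
        (by norm_num) (by simp [Q, B]) ?_ ?_
      · have e : Q ![w' 0 - w 0, w' 1 - w 1, w' 2 - w 2, s + r + 1] =
            Q ![w' 0 + w 0, w' 1 - w 1, w' 2 - w 2, s - r] +
              4 * (2 * r * s + r + s - w 0 * w' 0) + 2 := by
          simp [Q, B]
          ring
        rw [e]
        omega
      · intro i
        fin_cases i <;> simp [Q, B, hat, hr, hs] <;> ring
    · refine trans_two_of w w' ![1, 0, 0, 0] _ 1 (by norm_num) (by simp [Q, B]) hc ?_
      intro i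
      fin_cases i <;> simp [Q, B, hat, hr, hs] <;> ring

end Pool.Agent.LX
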