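import Pool.Agent.LX.Defs
import Pool.Agent.LX.TransOdd
import Pool.Agent.LX.Refl
import Pool.Agent.LX.TransTwo

set_option autoImplicit false

/-!
Transitivity: any two directions of `W` are related.
-/

open Matrix

namespace Pool.Agent.LX

private lemma tr_crt (a₂ : Fin 4 → ℤ) (b : ℕ → Fin 4 → ℤ) (S : Finset ℕ)
    (hS : ∀ p ∈ S, p.Prime ∧ p ≠ 2) :
    ∃ a : Fin 4 → ℤ, (∀ i, (16 : ℤ) ∣ a i - a₂ i) ∧ ∀ p ∈ S, ∀ i, (p : ℤ) ∣ a i - b p i := by
  induction S using Finset.induction_on with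
  | empty => exact ⟨a₂, by simp, by simp⟩
  | insert p S hpS ih =>
    obtain ⟨a, ha, hb⟩ := ih fun q hq => hS q (Finset.mem_insert_of_mem hq)
    obtain ⟨hp, hp2⟩ := hS p (Finset.mem_insert_self p S)
    have hpr : Prime (p : ℤ) := Nat.prime_iff_prime_int.mp hp
    have hnd : ¬ (p : ℤ) ∣ 16 * ∏ q ∈ S, (q : ℤ) := by
      intro h
      rcases hpr.dvd_or_dvd h with h | h
      · have h2 : (p : ℤ) ∣ (2 : ℤ) ^ 4 := by norm_num; exact h
        have h3 : p ∣ 2 := by exact_mod_cast hpr.dvd_of_dvd_pow h2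
        exact hp2 ((Nat.prime_dvd_prime_iff_eq hp Nat.prime_two).mp h3)
      · obtain ⟨q, hq, h⟩ := (Prime.dvd_finsetProd_iff hpr _).mp h
        have h3 : p ∣ q := by exact_mod_cast h
        have h4 := (Nat.prime_dvd_prime_iff_eq hp (hS q (Finset.mem_insert_of_mem hq)).1).mp h3
        exact hpS (h4 ▸ hq)
    have hcop : IsCoprime (16 * ∏ q ∈ S, (q : ℤ)) (p : ℤ) :=
      ((Prime.coprime_iff_not_dvd hpr).mpr hnd).symm
    obtain ⟨s, t, hst⟩ := hcop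
    refine ⟨fun i => a i + (16 * ∏ q ∈ S, (q : ℤ)) * (s * (b p i - a i)), fun i => ?_, ?_⟩
    · have h := dvd_add (ha i) (Dvd.intro ((∏ q ∈ S, (q : ℤ)) * (s * (b p i - a i))) rfl :
        (16 : ℤ) ∣ 16 * ((∏ q ∈ S, (q : ℤ)) * (s * (b p i - a i))))
      have e : a i + (16 * ∏ q ∈ S, (q : ℤ)) * (s * (b p i - a i)) - a₂ i =
        a i - a₂ i + 16 * ((∏ q ∈ S, (q : ℤ)) * (s * (b p i - a i))) := by ring
      simpa only [e] using h
    · intro q hq i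
      rcases Finset.mem_insert.mp hq with rfl | hq
      · refine ⟨-(t * (b q i - a i)), ?_⟩
        linear_combination (b q i - a i) * hst
      · obtain ⟨c, hc⟩ := hb q hq i
        obtain ⟨d, hd⟩ := Finset.dvd_prod_of_mem (fun q : ℕ => (q : ℤ)) hq
        refine ⟨c + 16 * d * (s * (b p i - a i)), ?_⟩
        have hd' : ∏ q ∈ S, (q : ℤ) = (q : ℤ) * d := hd
        rw [hd']
        linear_combination hc

private lemma tr_Q_pos {x : Fin 4 → ℤ} (hx : x ≠ 0) : 0 < Q x := by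
  obtain ⟨i, hi⟩ := Function.ne_iff.mp hx
  have hi2 : 0 < x i ^ 2 := by
    have : x i ≠ 0 := hi
    positivity
  unfold Q B
  fin_cases i <;> simp at hi2 <;> nlinarith [sq_nonneg (x 0), sq_nonneg (x 1), sq_nonneg (x 2), sq_nonneg (x 3)]

private lemma tr_ne_of_good {a : Fin 4 → ℤ} (h : Good2 a) : a ≠ 0 := by
  rintro rfl
  obtain ⟨j, a', h1, h2⟩ := h
  apply h2
  have : a' = 0 := by
    funext i
    have := h1 i
    simp at this
    exact this
  subst this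
  simp [Q, B]

private lemma tr_hat {w : Fin 4 → ℤ} (hw : Prim w) {p : ℕ} (hp : p.Prime) (hp2 : p ≠ 2) :
    ∃ i, ¬ (p : ℤ) ∣ hat w i := by
  obtain ⟨i, hi⟩ := hw p hp
  have hpr : Prime (p : ℤ) := Nat.prime_iff_prime_int.mp hp
  have h2 : ¬ (p : ℤ) ∣ 2 := by
    intro h
    have h3 : p ∣ 2 := by exact_mod_cast h
    exact hp2 ((Nat.prime_dvd_prime_iff_eq hp Nat.prime_two).mp h3)
  refine ⟨i, ?_⟩
  fin_cases i
  · intro h; rcases hpr.dvd_or_dvd (show (p : ℤ) ∣ 2 * w 0 from h) with h | h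
    · exact h2 h
    · exact hi h
  · intro h; rcases hpr.dvd_or_dvd (show (p : ℤ) ∣ 2 * w 1 from h) with h | h
    · exact h2 h
    · exact hi h
  · intro h; rcases hpr.dvd_or_dvd (show (p : ℤ) ∣ 2 * w 2 from h) with h | h
    · exact h2 h
    · exact hi h
  · exact hi

private lemma tr_Q_hat (w : Fin 4 → ℤ) : Q (hat w) = 2 * Qs w := by
  simp [Q, B, hat, Qs]; ring

private lemma tr_refl (a g u u' : Fin 4 → ℤ) (ha : a ≠ 0) (hg : g ≠ 0) (hQ : Q u = Q u')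
    (h : ∀ i, g i = Q a * u' i - Q a * u i + 2 * B a u * a i) :
    refl g (refl a (toR u)) = toR u' := by
  have ha' : (Q (toR a : Fin 4 → ℚ)) ≠ 0 := by
    have h1 : (Q (toR a : Fin 4 → ℚ)) = ((Q a : ℤ) : ℚ) := by simp [Q, B, toR]
    rw [h1]
    exact_mod_cast (tr_Q_pos ha).ne'
  have hg' : (Q (toR g : Fin 4 → ℚ)) ≠ 0 := by
    have h1 : (Q (toR g : Fin 4 → ℚ)) = ((Q g : ℤ) : ℚ) := by simp [Q, B, toR]
    rw [h1]
    exact_mod_cast (tr_Q_pos hg).ne'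
  have hQ' : (Q (toR u : Fin 4 → ℚ)) = Q (toR u' : Fin 4 → ℚ) := by
    have h1 : (Q (toR u : Fin 4 → ℚ)) = ((Q u : ℤ) : ℚ) := by simp [Q, B, toR]
    have h2 : (Q (toR u' : Fin 4 → ℚ)) = ((Q u' : ℤ) : ℚ) := by simp [Q, B, toR]
    rw [h1, h2, hQ]
  -- coordinates of g over the rationals
  have hG : (toR g : Fin 4 → ℚ) = fun i => Q (toR a : Fin 4 → ℚ) * (u' i : ℚ) -
      Q (toR a : Fin 4 → ℚ) * (u i : ℚ) + 2 * B (toR a : Fin 4 → ℚ) (toR u) * (a i : ℚ) := by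
    funext i
    have h1 : (Q (toR a : Fin 4 → ℚ)) = ((Q a : ℤ) : ℚ) := by simp [Q, B, toR]
    have h2 : (B (toR a : Fin 4 → ℚ) (toR u)) = ((B a u : ℤ) : ℚ) := by simp [B, toR]
    rw [h1, h2]
    simp only [toR, h i]
    push_cast
    ring
  set y : Fin 4 → ℚ := refl a (toR u) with hy
  have hyi : ∀ i, y i = (u i : ℚ) - 2 * B (toR a) (toR u) / Q (toR a : Fin 4 → ℚ) * (a i : ℚ) := by
    intro i; simp [hy, refl, toR]
  have hGy : ∀ i, (toR g : Fin 4 → ℚ) i = Q (toR a : Fin 4 → ℚ) * ((u' i : ℚ) - y i) := by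
    intro i
    rw [hG, hyi i]
    field_simp
    ring
  have hQy : Q y = Q (toR u : Fin 4 → ℚ) := by
    have e : ∀ i, y i = (toR u : Fin 4 → ℚ) i -
      2 * B (toR a) (toR u) / Q (toR a : Fin 4 → ℚ) * (toR a : Fin 4 → ℚ) i := hyi
    have key : Q y = Q (toR u : Fin 4 → ℚ) - 2 * (2 * B (toR a) (toR u) / Q (toR a : Fin 4 → ℚ)) *
        B (toR a : Fin 4 → ℚ) (toR u) + (2 * B (toR a) (toR u) / Q (toR a : Fin 4 → ℚ)) ^ 2 *
        Q (toR a : Fin 4 → ℚ) := by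
      generalize 2 * B (toR a) (toR u) / Q (toR a : Fin 4 → ℚ) = lam at e
      simp only [Q, B, e]
      ring
    rw [key]
    field_simp
    ring
  set qa : ℚ := Q (toR a : Fin 4 → ℚ) with hqa
  have hQG : Q (toR g : Fin 4 → ℚ) = qa ^ 2 * (Q (toR u' : Fin 4 → ℚ) + Q y - 2 * B (toR u' : Fin 4 → ℚ) y) := by
    simp only [Q, B, hGy]
    simp only [toR]
    ring
  have hBG : B (toR g : Fin 4 → ℚ) y = qa * (B (toR u' : Fin 4 → ℚ) y - Q y) := by
    simp only [Q, B, hGy]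
    simp only [toR]
    ring
  have h1 : 2 * B (toR g : Fin 4 → ℚ) y / Q (toR g : Fin 4 → ℚ) = - (1 / qa) := by
    rw [div_eq_iff hg', hQG, hBG, hQy, ← hQ']
    field_simp
    ring
  funext i
  have h2 : refl g y i = y i - 2 * B (toR g) y / Q (toR g : Fin 4 → ℚ) * (toR g : Fin 4 → ℚ) i := by
    simp [refl]
  rw [h2, h1, hGy i]
  simp only [toR]
  field_simp
  ring

/-- LX-D3 Trans.lean -/
theorem rel_trans (w w' : Fin 4 → ℤ) (hw : Prim w) (hw' : InW w w') :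
    ∃ c : ℤ, Rel (Qs w) (hat w) (hat w') c := by
  obtain ⟨a₂, h₂⟩ := trans_two w w' hw hw'
  have hw1 : Prim w' := hw'.1
  have hQs : Qs w' = Qs w := hw'.2.1
  have hex : ∀ p : ℕ, ∃ b : Fin 4 → ℤ, p.Prime → p ≠ 2 → ¬ (p : ℤ) ∣ Q b ∧
      ¬ (p : ℤ) ∣ Q b * B (hat w) (hat w') - 2 * B b (hat w) * B b (hat w') := by
    intro p
    by_cases hp : p.Prime ∧ p ≠ 2
    · obtain ⟨b, hb⟩ := trans_odd p hp.1 hp.2 (hat w) (hat w') (tr_hat hw hp.1 hp.2)
        (tr_hat hw1 hp.1 hp.2)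
      exact ⟨b, fun _ _ => hb⟩
    · exact ⟨0, fun h1 h2 => absurd ⟨h1, h2⟩ hp⟩
  choose b hb using hex
  obtain ⟨a, ha, hab⟩ := tr_crt a₂ b ((Qs w).natAbs.primeFactors.filter (· ≠ 2)) (by
    intro p hp
    rw [Finset.mem_filter] at hp
    exact ⟨Nat.prime_of_mem_primeFactors hp.1, hp.2⟩)
  obtain ⟨hga, hgg⟩ := h₂ a ha
  have ha0 := tr_ne_of_good hga
  have hg0 := tr_ne_of_good hgg
  refine ⟨_, rel_of_refl (Qs w) (hat w) (hat w') a _ ha0 hg0 hga hgg ?_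
    (tr_refl a _ (hat w) (hat w') ha0 hg0 (by rw [tr_Q_hat, tr_Q_hat, hQs]) fun i => rfl)⟩
  intro p hp hp2 hdvd hpM
  have hpr : Prime (p : ℤ) := Nat.prime_iff_prime_int.mp hp
  have h2 : ¬ (p : ℤ) ∣ 2 := by
    intro h
    have h3 : p ∣ 2 := by exact_mod_cast h
    exact hp2 ((Nat.prime_dvd_prime_iff_eq hp Nat.prime_two).mp h3)
  have hw0 : Qs w ≠ 0 := by
    intro h
    have h1 : w = 0 := by
      unfold Qs at h
      have e0 : w 0 = 0 := by nlinarith [sq_nonneg (w 0), sq_nonneg (w 1), sq_nonneg (w 2), sq_nonneg (w 3)]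
      have e1 : w 1 = 0 := by nlinarith [sq_nonneg (w 0), sq_nonneg (w 1), sq_nonneg (w 2), sq_nonneg (w 3)]
      have e2 : w 2 = 0 := by nlinarith [sq_nonneg (w 0), sq_nonneg (w 1), sq_nonneg (w 2), sq_nonneg (w 3)]
      have e3 : w 3 = 0 := by nlinarith [sq_nonneg (w 0), sq_nonneg (w 1), sq_nonneg (w 2), sq_nonneg (w 3)]
      funext i; fin_cases i <;> assumption
    obtain ⟨i, hi⟩ := hw 2 Nat.prime_two
    exact hi (by simp [h1])
  have hmem : p ∈ (Qs w).natAbs.primeFactors.filter (· ≠ 2) := by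
    rw [Finset.mem_filter, Nat.mem_primeFactors]
    exact ⟨⟨hp, Int.natCast_dvd.mp hpM, by simpa using hw0⟩, hp2⟩
  obtain ⟨hb1, hb2⟩ := hb p hp hp2
  have hc := hab p hmem
  have hm : ∀ i, a i ≡ b p i [ZMOD p] := fun i => (Int.modEq_iff_dvd.mpr (hc i)).symm
  have hQa : Q a ≡ Q (b p) [ZMOD p] := by
    unfold Q B
    exact Int.ModEq.add (Int.ModEq.add (Int.ModEq.add ((hm 0).mul (hm 0)) ((hm 1).mul (hm 1)))
      ((hm 2).mul (hm 2))) ((Int.ModEq.refl 2).mul ((hm 3).mul (hm 3)))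
  have hBa : ∀ u : Fin 4 → ℤ, B a u ≡ B (b p) u [ZMOD p] := by
    intro u
    unfold B
    exact Int.ModEq.add (Int.ModEq.add (Int.ModEq.add ((hm 0).mul rfl) ((hm 1).mul rfl))
      ((hm 2).mul rfl)) ((Int.ModEq.refl 2).mul ((hm 3).mul rfl))
  have hQa' : ¬ (p : ℤ) ∣ Q a := by
    intro h
    exact hb1 (Int.modEq_zero_iff_dvd.mp (hQa.symm.trans (Int.modEq_zero_iff_dvd.mpr h)))
  have hE' : ¬ (p : ℤ) ∣ Q a * B (hat w) (hat w') - 2 * B a (hat w) * B a (hat w') := by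
    intro h
    refine hb2 (Int.modEq_zero_iff_dvd.mp (Int.ModEq.trans ?_ (Int.modEq_zero_iff_dvd.mpr h)))
    exact ((hQa.mul rfl).sub (((Int.ModEq.refl 2).mul (hBa _)).mul (hBa _))).symm
  rcases hpr.dvd_or_dvd hdvd with h | h
  · exact hQa' h
  · have hexp : Q (fun i => Q a * hat w' i - Q a * hat w i + 2 * B a (hat w) * a i) =
        Q a ^ 2 * (Q (hat w) + Q (hat w')) -
        2 * (Q a * (Q a * B (hat w) (hat w') - 2 * B a (hat w) * B a (hat w'))) := by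
      simp only [Q, B]
      ring
    rw [hexp, tr_Q_hat, tr_Q_hat, hQs] at h
    have h5 : (p : ℤ) ∣ 2 * (Q a * (Q a * B (hat w) (hat w') - 2 * B a (hat w) * B a (hat w'))) := by
      have h6 : (p : ℤ) ∣ Q a ^ 2 * (2 * Qs w + 2 * Qs w) := by
        obtain ⟨k, hk⟩ := hpM
        exact ⟨Q a ^ 2 * (4 * k), by rw [hk]; ring⟩
      exact (dvd_sub_right h6).mp h
    rcases hpr.dvd_or_dvd h5 with h | h
    · exact h2 h
    · rcases hpr.dvd_or_dvd h with h | h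
      · exact hQa' h
      · exact hE' h

end Pool.Agent.LX
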