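import Pool.Agent.LX.Defs

set_option autoImplicit false

/-! Auxiliary lemmas for the row LX-E6. -/

open Matrix

namespace Pool.Agent.LX

namespace FamilyAux

theorem gram_det (v x e f : Fin 4 → ℤ) (p q n g b κ : ℤ)
    (det : IsUnit (Matrix.of ![v, x, e, f]).det) (hvv : B v v = p) (hvx : B v x = q)
    (hn : Q x = n) (hve : B v e = 0) (hxe : B x e = g) (hvf : B v f = 0) (hxf : B x f = 0)
    (hef : B e f = b) (hff : Q f = κ) :
    (p * n - q ^ 2) * (Q e * κ - b ^ 2) - p * g ^ 2 * κ = 2 := by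
  have key : Matrix.of ![v, x, e, f] * Matrix.diagonal ![1, 1, 1, 2] *
      (Matrix.of ![v, x, e, f])ᵀ =
      Matrix.of ![![p, q, 0, 0], ![q, n, g, 0], ![0, g, Q e, b], ![0, 0, b, κ]] := by
    unfold Q B at *
    ext i j
    fin_cases i <;> fin_cases j <;>
      simp [Matrix.mul_apply, Fin.sum_univ_four, Matrix.vecMul_diagonal] <;> linarith
  have h1 := congrArg Matrix.det key
  rw [Matrix.det_mul, Matrix.det_mul, Matrix.det_transpose, Matrix.det_diagonal] at h1
  have h2 : (Matrix.of ![v, x, e, f]).det * (Matrix.of ![v, x, e, f]).det = 1 := by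
    rcases Int.isUnit_iff.mp det with h | h <;> rw [h] <;> norm_num
  have h3 : (Matrix.of ![![p, q, 0, 0], ![q, n, g, 0], ![0, g, Q e, b], ![0, 0, b, κ]]).det =
      (p * n - q ^ 2) * (Q e * κ - b ^ 2) - p * g ^ 2 * κ := by
    have h4 : (Fin.succAbove (1 : Fin 4) (2 : Fin 3)) = 3 := by decide
    simp [Matrix.det_succ_row_zero, Fin.sum_univ_succ, h4]
    ring
  rw [h3] at h1
  rw [← h1]
  simp [Fin.prod_univ_four]
  linear_combination (2 : ℤ) * h2

theorem exists_coeff (v x e f : Fin 4 → ℤ) (det : IsUnit (Matrix.of ![v, x, e, f]).det)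
    (y : Fin 4 → ℤ) : ∃ k₀ k₁ k₂ k₃ : ℤ, ∀ l, y l = k₀ * v l + k₁ * x l + k₂ * e l + k₃ * f l := by
  set N := Matrix.of ![v, x, e, f] with hN
  have h : (y ᵥ* N⁻¹) ᵥ* N = y := by
    rw [Matrix.vecMul_vecMul, Matrix.nonsing_inv_mul _ det, Matrix.vecMul_one]
  refine ⟨(y ᵥ* N⁻¹) 0, (y ᵥ* N⁻¹) 1, (y ᵥ* N⁻¹) 2, (y ᵥ* N⁻¹) 3, fun l => ?_⟩
  have h1 := congrFun h l
  rw [← h1]
  conv_lhs => rw [Matrix.vecMul, dotProduct, Fin.sum_univ_four]
  simp [hN]

/-- the orthogonal complement of `v, x` -/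
theorem orth_basis (v x e f : Fin 4 → ℤ) (lam p q n g b κ D : ℤ)
    (det : IsUnit (Matrix.of ![v, x, e, f]).det) (hlam : lam ≠ 0) (hp : p ≠ 0)
    (hvv : B v v = lam * p) (hvx : B v x = lam * q)
    (hn : Q x = n) (hve : B v e = 0) (hxe : B x e = g) (hvf : B v f = 0) (hxf : B x f = 0)
    (hef : B e f = b) (hff : Q f = κ) (hD : D = p * n - lam * q ^ 2) (hg : g ≠ 0)
    (hqp : IsCoprime q p) (hgD : IsCoprime g D) :
    (∀ y : Fin 4 → ℤ, B v y = 0 → B x y = 0 →
      ∃ i j : ℤ, ∀ l, y l = i * f l + j * (-g * q * v l + g * p * x l - D * e l)) ∧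
    (∀ i j : ℤ, Q (fun l => i * f l + j * (-g * q * v l + g * p * x l - D * e l)) =
      κ * i ^ 2 + 2 * (-D * b) * i * j + D * (D * Q e - p * g ^ 2) * j ^ 2) ∧
    lam * (D * (Q e * κ - b ^ 2) - p * g ^ 2 * κ) = 2 := by
  refine ⟨fun y hy₁ hy₂ => ?_, fun i j => ?_, ?_⟩
  · obtain ⟨k₀, k₁, k₂, k₃, hk⟩ := exists_coeff v x e f det y
    have h1 : B v y = lam * (k₀ * p + k₁ * q) := by
      have : B v y = k₀ * B v v + k₁ * B v x + k₂ * B v e + k₃ * B v f := by
        unfold B; rw [hk 0, hk 1, hk 2, hk 3]; ring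
      rw [this, hvv, hvx, hve, hvf]; ring
    have h2 : B x y = k₀ * (lam * q) + k₁ * n + k₂ * g := by
      have : B x y = k₀ * B v x + k₁ * Q x + k₂ * B x e + k₃ * B x f := by
        unfold Q B; rw [hk 0, hk 1, hk 2, hk 3]; ring
      rw [this, hvx, hn, hxe, hxf]; ring
    rw [hy₁] at h1
    rw [hy₂] at h2
    have h3 : k₀ * p + k₁ * q = 0 := by
      rcases mul_eq_zero.mp h1.symm with h | h
      · exact absurd h hlam
      · exact h
    have h4 : p ∣ k₁ := by
      have : p ∣ k₁ * q := ⟨-k₀, by linear_combination h3⟩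
      exact hqp.symm.dvd_of_dvd_mul_right this
    obtain ⟨k, rfl⟩ := h4
    have h5 : k₀ = -q * k := by
      have : p * (k₀ + q * k) = 0 := by linear_combination h3
      rcases mul_eq_zero.mp this with h | h
      · exact absurd h hp
      · linear_combination h
    subst h5
    have h6 : k * D + k₂ * g = 0 := by rw [hD]; linear_combination -h2
    have h7 : g ∣ k := by
      have : g ∣ k * D := ⟨-k₂, by linear_combination h6⟩
      exact hgD.dvd_of_dvd_mul_right this
    obtain ⟨j, rfl⟩ := h7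
    have h8 : k₂ = -D * j := by
      have : g * (k₂ + D * j) = 0 := by linear_combination h6
      rcases mul_eq_zero.mp this with h | h
      · exact absurd h hg
      · linear_combination h
    subst h8
    refine ⟨k₃, j, fun l => ?_⟩
    rw [hk l]; ring
  · have h1 : Q (fun l => i * f l + j * (-g * q * v l + g * p * x l - D * e l)) =
        i ^ 2 * Q f + j ^ 2 * (g ^ 2 * q ^ 2 * B v v + g ^ 2 * p ^ 2 * Q x + D ^ 2 * Q e
          - 2 * g ^ 2 * p * q * B v x + 2 * g * q * D * B v e - 2 * g * p * D * B x e)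
        + 2 * i * j * (-g * q * B v f + g * p * B x f - D * B e f) := by
      unfold Q B; ring
    rw [h1, hvv, hvx, hve, hxe, hvf, hxf, hef, hff, hn, hD]
    ring
  · have h := gram_det v x e f (lam * p) (lam * q) n g b κ det hvv hvx hn hve hxe hvf hxf hef hff
    rw [← h, hD]; ring

end FamilyAux

end Pool.Agent.LX
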