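import Pool.Agent.LX.Defs

set_option autoImplicit false

/-!
# Hermite's bound for integral positive definite Gram matrices (project LX)
-/

open Matrix

namespace Pool.Agent.LX

/-- The corner of `Vᵀ S V` is the value of the form at the first column of `V`. -/
lemma hermite_corner {m : ℕ} (S V : Matrix (Fin (m + 1)) (Fin (m + 1)) ℤ) :
    (Vᵀ * S * V) 0 0 = (fun i => V i 0) ⬝ᵥ (S *ᵥ fun i => V i 0) := by
  rw [Matrix.mul_assoc, Matrix.mul_apply]
  rfl

/-- The first column of a unimodular matrix is not zero. -/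
lemma hermite_col_ne {m : ℕ} (V : Matrix (Fin (m + 1)) (Fin (m + 1)) ℤ) (hV : IsUnit V.det) :
    (fun i => V i 0) ≠ 0 := by
  intro h
  have h0 : V.det = 0 := Matrix.det_eq_zero_of_column_eq_zero 0 (fun i => congrFun h i)
  rw [h0] at hV
  exact not_isUnit_zero hV

/-- Determinant of a matrix whose first column is `(c, 0, ..., 0)`. -/
lemma hermite_det_col {m : ℕ} (A : Matrix (Fin (m + 1)) (Fin (m + 1)) ℤ)
    (h : ∀ i : Fin m, A i.succ 0 = 0) :
    A.det = A 0 0 * (A.submatrix Fin.succ Fin.succ).det := by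
  rw [Matrix.det_succ_column_zero, Fin.sum_univ_succ]
  have h1 : ∑ i : Fin m, (-1 : ℤ) ^ ((i.succ : Fin (m + 1)) : ℕ) * A i.succ 0 *
      (A.submatrix (Fin.succAbove i.succ) Fin.succ).det = 0 := by
    apply Finset.sum_eq_zero
    intro i _
    rw [h i]
    ring
  rw [h1]
  simp

/-- The complete square: `a Q(k, x) = (a k + r)^2 + F(x)`. -/
lemma hermite_square {m : ℕ} (T : Matrix (Fin (m + 1)) (Fin (m + 1)) ℤ) (hT : Tᵀ = T) (k : ℤ)
    (x : Fin m → ℤ) :
    T 0 0 * ((Fin.cons k x : Fin (m + 1) → ℤ) ⬝ᵥ (T *ᵥ Fin.cons k x)) =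
      (T 0 0 * k + ∑ i, T 0 i.succ * x i) ^ 2 +
      x ⬝ᵥ ((Matrix.of fun i j => T 0 0 * T i.succ j.succ - T 0 i.succ * T 0 j.succ) *ᵥ x) := by
  have hsym : ∀ i : Fin m, T i.succ 0 = T 0 i.succ := fun i => by
    conv_lhs => rw [← hT]
    rfl
  simp only [dotProduct, Matrix.mulVec, Fin.sum_univ_succ, Fin.cons_zero, Fin.cons_succ, hsym,
    Matrix.of_apply]
  set r : ℤ := ∑ i, T 0 i.succ * x i with hr
  have e1 : ∑ i : Fin m, x i * (T 0 i.succ * k + ∑ j, T i.succ j.succ * x j) =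
      k * r + ∑ i : Fin m, x i * ∑ j, T i.succ j.succ * x j := by
    rw [hr, Finset.mul_sum, ← Finset.sum_add_distrib]
    refine Finset.sum_congr rfl fun i _ => ?_
    ring
  have e2 : ∑ i : Fin m, x i * ∑ j, (T 0 0 * T i.succ j.succ - T 0 i.succ * T 0 j.succ) * x j =
      T 0 0 * (∑ i : Fin m, x i * ∑ j, T i.succ j.succ * x j) - r ^ 2 := by
    have e3 : ∀ i : Fin m, ∑ j, (T 0 0 * T i.succ j.succ - T 0 i.succ * T 0 j.succ) * x j =
        T 0 0 * (∑ j, T i.succ j.succ * x j) - T 0 i.succ * r := by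
      intro i
      rw [hr, Finset.mul_sum, Finset.mul_sum, ← Finset.sum_sub_distrib]
      refine Finset.sum_congr rfl fun j _ => ?_
      ring
    simp only [e3]
    have e4 : r ^ 2 = ∑ i : Fin m, T 0 i.succ * x i * r := by
      rw [← Finset.sum_mul, ← hr, sq]
    rw [e4, Finset.mul_sum, ← Finset.sum_sub_distrib]
    refine Finset.sum_congr rfl fun i _ => ?_
    ring
  rw [e1, e2]
  ring

/-- The determinant of the complement. -/
lemma hermite_det {m : ℕ} (T : Matrix (Fin (m + 1)) (Fin (m + 1)) ℤ) (hT : Tᵀ = T) :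
    T 0 0 * (Matrix.of fun i j : Fin m =>
      T 0 0 * T i.succ j.succ - T 0 i.succ * T 0 j.succ).det = T 0 0 ^ m * T.det := by
  have hsym : ∀ i : Fin m, T i.succ 0 = T 0 i.succ := fun i => by
    conv_lhs => rw [← hT]
    rfl
  -- the row operations
  let E : Matrix (Fin (m + 1)) (Fin (m + 1)) ℤ :=
    Matrix.of (Fin.cons (Fin.cons 1 0) fun i => Fin.cons (-T 0 i.succ) (T 0 0 • (1 : Matrix _ _ ℤ) i))
  have hE : Eᵀ.det = T 0 0 ^ m := by
    rw [hermite_det_col Eᵀ (fun i => by simp [E])]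
    have : Eᵀ.submatrix Fin.succ Fin.succ = T 0 0 • (1 : Matrix (Fin m) (Fin m) ℤ) := by
      ext i j
      simp [E, Matrix.one_apply, eq_comm]
    rw [this, Matrix.det_smul, Matrix.det_one]
    simp [E]
  rw [Matrix.det_transpose] at hE
  have hET0 : ∀ j, (E * T) 0 j = T 0 j := by
    intro j
    rw [Matrix.mul_apply, Fin.sum_univ_succ]
    simp [E]
  have hETs : ∀ i : Fin m, ∀ j, (E * T) i.succ j = T 0 0 * T i.succ j - T 0 i.succ * T 0 j := by
    intro i j
    rw [Matrix.mul_apply, Fin.sum_univ_succ]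
    have : ∑ l : Fin m, E i.succ l.succ * T l.succ j = T 0 0 * T i.succ j := by
      rw [Finset.sum_eq_single i]
      · simp [E]
      · intro l _ hl
        simp [E, hl.symm]
      · simp
    rw [this]
    simp [E]
    ring
  have hdet : (E * T).det = T 0 0 * (Matrix.of fun i j : Fin m =>
      T 0 0 * T i.succ j.succ - T 0 i.succ * T 0 j.succ).det := by
    rw [hermite_det_col (E * T) (fun i => by rw [hETs, hsym]; ring), hET0]
    congr 2
    ext i j
    rw [Matrix.submatrix_apply, hETs]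
    rfl
  rw [← hdet, Matrix.det_mul, hE]

/-- There is a nearest multiple. -/
lemma hermite_near (a r : ℤ) (ha : 0 < a) : ∃ k : ℤ, 4 * (a * k + r) ^ 2 ≤ a ^ 2 := by
  refine ⟨-((2 * r + a) / (2 * a)), ?_⟩
  have h1 := Int.emod_add_mul_ediv (2 * r + a) (2 * a)
  have h2 := Int.emod_nonneg (2 * r + a) (show (2 * a : ℤ) ≠ 0 by omega)
  have h3 := Int.emod_lt_of_pos (2 * r + a) (show (0 : ℤ) < 2 * a by omega)
  set q := (2 * r + a) / (2 * a)
  set s := (2 * r + a) % (2 * a)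
  have h4 : 2 * (a * -q + r) = s - a := by linarith
  have h5 : 4 * (a * -q + r) ^ 2 = (s - a) ^ 2 := by rw [← h4]; ring
  rw [h5]
  nlinarith

theorem hermite (n : ℕ) (S : Matrix (Fin (n + 1)) (Fin (n + 1)) ℤ) (hS : Sᵀ = S)
    (hpos : ∀ x : Fin (n + 1) → ℤ, x ≠ 0 → 0 < x ⬝ᵥ (S *ᵥ x)) :
    ∃ U : Matrix (Fin (n + 1)) (Fin (n + 1)) ℤ, IsUnit U.det ∧
      (((Uᵀ * S * U) 0 0 : ℤ) : ℝ) ^ (n + 1) ≤ (4 / 3 : ℝ) ^ (n * (n + 1) / 2) * (S.det : ℝ) := by
  induction n with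
  | zero =>
    refine ⟨1, by simp, ?_⟩
    simp
  | succ n ih =>
    classical
    have hcorner : ∀ V : Matrix (Fin (n + 1 + 1)) (Fin (n + 1 + 1)) ℤ, IsUnit V.det →
        0 < (Vᵀ * S * V) 0 0 := by
      intro V hV
      rw [hermite_corner]
      exact hpos _ (hermite_col_ne V hV)
    have hex : ∃ m : ℕ, ∃ U : Matrix (Fin (n + 1 + 1)) (Fin (n + 1 + 1)) ℤ,
        IsUnit U.det ∧ ((Uᵀ * S * U) 0 0).toNat = m := ⟨_, 1, by simp, rfl⟩
    obtain ⟨U₀, hU₀, hm⟩ := Nat.find_spec hex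
    have hmin : ∀ V : Matrix (Fin (n + 1 + 1)) (Fin (n + 1 + 1)) ℤ, IsUnit V.det →
        (U₀ᵀ * S * U₀) 0 0 ≤ (Vᵀ * S * V) 0 0 := by
      intro V hV
      have h1 := Nat.find_min' hex ⟨V, hV, rfl⟩
      rw [← hm] at h1
      have h2 := hcorner U₀ hU₀
      have h3 := hcorner V hV
      omega
    set T : Matrix (Fin (n + 1 + 1)) (Fin (n + 1 + 1)) ℤ := U₀ᵀ * S * U₀ with hTdef
    have hT : Tᵀ = T := by
      rw [hTdef, Matrix.transpose_mul, Matrix.transpose_mul, Matrix.transpose_transpose, hS,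
        Matrix.mul_assoc]
    have hTS : ∀ V, Vᵀ * T * V = (U₀ * V)ᵀ * S * (U₀ * V) := by
      intro V
      rw [hTdef, Matrix.transpose_mul]
      simp only [Matrix.mul_assoc]
    have hTmin : ∀ V : Matrix (Fin (n + 1 + 1)) (Fin (n + 1 + 1)) ℤ, IsUnit V.det →
        T 0 0 ≤ (Vᵀ * T * V) 0 0 := by
      intro V hV
      rw [hTS]
      apply hmin
      rw [Matrix.det_mul]
      exact hU₀.mul hV
    have hTpos : ∀ x : Fin (n + 1 + 1) → ℤ, x ≠ 0 → 0 < x ⬝ᵥ (T *ᵥ x) := by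
      intro x hx
      have h1 : x ⬝ᵥ (T *ᵥ x) = (U₀ *ᵥ x) ⬝ᵥ (S *ᵥ (U₀ *ᵥ x)) := by
        rw [hTdef, Matrix.mul_assoc, ← Matrix.mulVec_mulVec, ← Matrix.mulVec_mulVec,
          Matrix.dotProduct_mulVec, Matrix.vecMul_transpose]
      rw [h1]
      apply hpos
      intro h0
      apply hx
      have hU' : IsUnit U₀ := (Matrix.isUnit_iff_isUnit_det U₀).2 hU₀
      have h2 : U₀⁻¹ *ᵥ (U₀ *ᵥ x) = x := by
        rw [Matrix.mulVec_mulVec, Matrix.nonsing_inv_mul U₀ hU₀, Matrix.one_mulVec]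
      rw [← h2, h0, Matrix.mulVec_zero]
    have hdetT : T.det = S.det := by
      rw [hTdef, Matrix.det_mul, Matrix.det_mul, Matrix.det_transpose]
      have : U₀.det * U₀.det = 1 := by
        rcases Int.isUnit_iff.1 hU₀ with h | h <;> rw [h] <;> norm_num
      linear_combination S.det * this
    have ha : 0 < T 0 0 := hcorner U₀ hU₀
    -- the complement
    let F : Matrix (Fin (n + 1)) (Fin (n + 1)) ℤ :=
      Matrix.of fun i j => T 0 0 * T i.succ j.succ - T 0 i.succ * T 0 j.succ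
    have hF : Fᵀ = F := by
      ext i j
      have h1 : T j.succ i.succ = T i.succ j.succ := by
        conv_lhs => rw [← hT]
        rfl
      simp only [F, Matrix.transpose_apply, Matrix.of_apply, h1]
      ring
    have hFpos : ∀ x : Fin (n + 1) → ℤ, x ≠ 0 → 0 < x ⬝ᵥ (F *ᵥ x) := by
      intro x hx
      have h1 := hermite_square T hT (-∑ i, T 0 i.succ * x i) (T 0 0 • x)
      have h2 : (Fin.cons (-∑ i, T 0 i.succ * x i) (T 0 0 • x) : Fin (n + 1 + 1) → ℤ) ≠ 0 := by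
        intro h0
        apply hx
        funext i
        have h3 := congrFun h0 i.succ
        simp only [Fin.cons_succ, Pi.smul_apply, smul_eq_mul, Pi.zero_apply, mul_eq_zero] at h3
        rcases h3 with h3 | h3
        · exact absurd h3 ha.ne'
        · exact h3
      have h3 := hTpos _ h2
      have h4 : ∑ i, T 0 i.succ * (T 0 0 • x) i = T 0 0 * ∑ i, T 0 i.succ * x i := by
        rw [Finset.mul_sum]
        refine Finset.sum_congr rfl fun i _ => ?_
        simp only [Pi.smul_apply, smul_eq_mul]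
        ring
      have h5 : (T 0 0 • x) ⬝ᵥ (F *ᵥ (T 0 0 • x)) = T 0 0 ^ 2 * (x ⬝ᵥ (F *ᵥ x)) := by
        rw [Matrix.mulVec_smul, smul_dotProduct, dotProduct_smul, smul_eq_mul, smul_eq_mul]
        ring
      rw [h4] at h1
      have h6 : T 0 0 ^ 2 * (x ⬝ᵥ (F *ᵥ x)) =
          T 0 0 * ((Fin.cons (-∑ i, T 0 i.succ * x i) (T 0 0 • x) : Fin (n + 1 + 1) → ℤ) ⬝ᵥ
            (T *ᵥ Fin.cons (-∑ i, T 0 i.succ * x i) (T 0 0 • x))) := by
        rw [h1, ← h5]
        ring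
      have h7 : 0 < T 0 0 ^ 2 * (x ⬝ᵥ (F *ᵥ x)) := by
        rw [h6]; exact mul_pos ha h3
      exact pos_of_mul_pos_right h7 (by positivity)
    obtain ⟨U', hU', hf⟩ := ih F hF hFpos
    set f : ℤ := (U'ᵀ * F * U') 0 0 with hfdef
    have hfc : f = (fun i => U' i 0) ⬝ᵥ (F *ᵥ fun i => U' i 0) := hermite_corner F U'
    -- the shear
    obtain ⟨k, hk⟩ := hermite_near (T 0 0) (∑ i, T 0 i.succ * U' i 0) ha
    let V₁ : Matrix (Fin (n + 1 + 1)) (Fin (n + 1 + 1)) ℤ :=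
      Matrix.of (Fin.cons (Fin.cons 1 fun j => if j = 0 then k else 0)
        fun i => Fin.cons 0 (U' i))
    have hV₁ : V₁.det = U'.det := by
      rw [hermite_det_col V₁ (fun i => by simp [V₁])]
      have : V₁.submatrix Fin.succ Fin.succ = U' := by
        ext i j
        simp [V₁]
      rw [this]
      simp [V₁]
    let V : Matrix (Fin (n + 1 + 1)) (Fin (n + 1 + 1)) ℤ := V₁.submatrix id (Equiv.swap 0 1)
    have hVdet : IsUnit V.det := by
      have : V.det = -U'.det := by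
        rw [← hV₁]
        have h := Matrix.det_permute' (Equiv.swap (0 : Fin (n + 1 + 1)) 1) V₁
        rw [Equiv.Perm.sign_swap (by simp)] at h
        simpa using h
      rw [this]
      exact hU'.neg
    have hVcol : (fun i => V i 0) = (Fin.cons k fun i => U' i 0 : Fin (n + 1 + 1) → ℤ) := by
      funext i
      have h10 : (Equiv.swap (0 : Fin (n + 1 + 1)) 1) 0 = Fin.succ 0 := by
        rw [Equiv.swap_apply_left]; rfl
      have hVi : V i 0 = V₁ i (Fin.succ 0) := by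
        rw [← h10]; rfl
      rw [hVi]
      refine Fin.cases ?_ (fun i => ?_) i
      · simp only [V₁, Matrix.of_apply, Fin.cons_zero, Fin.cons_succ, if_true]
      · simp only [V₁, Matrix.of_apply, Fin.cons_succ]
    have hmV := hTmin V hVdet
    rw [hermite_corner, hVcol] at hmV
    have hsq := hermite_square T hT k (fun i => U' i 0)
    have hf34 : 3 * T 0 0 ^ 2 ≤ 4 * f := by
      have h1 : T 0 0 * T 0 0 ≤ T 0 0 * ((Fin.cons k fun i => U' i 0 : Fin (n + 1 + 1) → ℤ) ⬝ᵥ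
          (T *ᵥ Fin.cons k fun i => U' i 0)) := mul_le_mul_of_nonneg_left hmV ha.le
      rw [hsq] at h1
      have h2 : f = (fun i => U' i 0) ⬝ᵥ ((Matrix.of fun i j =>
        T 0 0 * T i.succ j.succ - T 0 i.succ * T 0 j.succ) *ᵥ fun i => U' i 0) := hfc
      rw [← h2] at h1
      nlinarith
    -- the estimate
    have hdetF : F.det = T 0 0 ^ n * T.det := by
      have h1 := hermite_det T hT
      have h2 : T 0 0 * F.det = T 0 0 * (T 0 0 ^ n * T.det) := by
        rw [show T 0 0 * F.det = T 0 0 ^ (n + 1) * T.det from h1]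
        ring
      exact mul_left_cancel₀ ha.ne' h2
    refine ⟨U₀, hU₀, ?_⟩
    rw [← hTdef, ← hdetT]
    rw [hdetF] at hf
    rw [Int.cast_mul, Int.cast_pow] at hf
    have haR : (0 : ℝ) < (T 0 0 : ℝ) := by exact_mod_cast ha
    have hfR : (3 / 4 : ℝ) * (T 0 0 : ℝ) ^ 2 ≤ (f : ℝ) := by
      have : (3 : ℝ) * (T 0 0 : ℝ) ^ 2 ≤ 4 * (f : ℝ) := by exact_mod_cast hf34
      linarith
    have hexp : (n + 1) * (n + 1 + 1) / 2 = n * (n + 1) / 2 + (n + 1) := by
      have : (n + 1) * (n + 1 + 1) = n * (n + 1) + 2 * (n + 1) := by ring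
      rw [this, Nat.add_mul_div_left _ _ (by norm_num)]
    rw [hexp, pow_add (4 / 3 : ℝ)]
    have h1 : ((3 / 4 : ℝ) * (T 0 0 : ℝ) ^ 2) ^ (n + 1) ≤ (f : ℝ) ^ (n + 1) :=
      pow_le_pow_left₀ (by positivity) hfR _
    have h2 := h1.trans hf
    have h3 : (4 / 3 : ℝ) ^ (n + 1) * ((3 / 4 : ℝ) * (T 0 0 : ℝ) ^ 2) ^ (n + 1) =
        (T 0 0 : ℝ) ^ n * (T 0 0 : ℝ) ^ (n + 1 + 1) := by
      rw [← mul_pow, show (4 / 3 : ℝ) * (3 / 4 * (T 0 0 : ℝ) ^ 2) = (T 0 0 : ℝ) ^ 2 by ring,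
        ← pow_mul, ← pow_add]
      congr 1
      ring
    have h4 : (T 0 0 : ℝ) ^ n * (T 0 0 : ℝ) ^ (n + 1 + 1) ≤ (T 0 0 : ℝ) ^ n *
        ((4 / 3 : ℝ) ^ (n * (n + 1) / 2) * (4 / 3 : ℝ) ^ (n + 1) * (T.det : ℝ)) := by
      rw [← h3]
      refine (mul_le_mul_of_nonneg_left h2 (by positivity)).trans (le_of_eq ?_)
      ring
    exact le_of_mul_le_mul_left h4 (pow_pos haR n)

end Pool.Agent.LX
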