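import Pool.Agent.LX.Defs
import Pool.Agent.LX.Hermite

set_option autoImplicit false

/-!
LX-02 : class number one for positive definite quaternary lattices of determinant two.
-/

open Matrix

namespace Pool.Agent.LX

theorem go_quad {n : ℕ} (S W : Matrix (Fin n) (Fin n) ℤ) (z : Fin n → ℤ) :
    z ⬝ᵥ ((Wᵀ * S * W) *ᵥ z) = (W *ᵥ z) ⬝ᵥ (S *ᵥ (W *ᵥ z)) := by
  rw [← mulVec_mulVec, ← mulVec_mulVec, dotProduct_mulVec, vecMul_transpose]

theorem go_inj {n : ℕ} (W : Matrix (Fin n) (Fin n) ℤ) (hW : IsUnit W.det) (z : Fin n → ℤ)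
    (hz : z ≠ 0) : W *ᵥ z ≠ 0 := by
  intro h
  apply hz
  have h1 : W⁻¹ *ᵥ (W *ᵥ z) = z := by
    rw [mulVec_mulVec, nonsing_inv_mul _ hW, one_mulVec]
  rw [← h1, h, mulVec_zero]

theorem go_pos {n : ℕ} (S W : Matrix (Fin n) (Fin n) ℤ) (hW : IsUnit W.det)
    (hpos : ∀ x : Fin n → ℤ, x ≠ 0 → 0 < x ⬝ᵥ (S *ᵥ x)) (x : Fin n → ℤ) (hx : x ≠ 0) :
    0 < x ⬝ᵥ ((Wᵀ * S * W) *ᵥ x) := by
  rw [go_quad]
  exact hpos _ (go_inj W hW x hx)

theorem go_det {n : ℕ} (S W : Matrix (Fin n) (Fin n) ℤ) (hW : IsUnit W.det) :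
    (Wᵀ * S * W).det = S.det := by
  rw [det_mul, det_mul, det_transpose]
  rcases Int.isUnit_iff.1 hW with h | h <;> rw [h] <;> ring

/-- The block matrix `1 ⊕ M`. -/
def gemb {n : ℕ} (M : Matrix (Fin n) (Fin n) ℤ) : Matrix (Fin (n + 1)) (Fin (n + 1)) ℤ :=
  Matrix.of (Fin.cons (Fin.cons 1 (fun _ => 0)) (fun i => Fin.cons 0 (M i)))

theorem gemb_zero_zero {n : ℕ} (M : Matrix (Fin n) (Fin n) ℤ) : gemb M 0 0 = 1 := rfl

theorem gemb_zero_succ {n : ℕ} (M : Matrix (Fin n) (Fin n) ℤ) (j : Fin n) :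
    gemb M 0 j.succ = 0 := rfl

theorem gemb_succ_zero {n : ℕ} (M : Matrix (Fin n) (Fin n) ℤ) (i : Fin n) :
    gemb M i.succ 0 = 0 := rfl

theorem gemb_succ_succ {n : ℕ} (M : Matrix (Fin n) (Fin n) ℤ) (i j : Fin n) :
    gemb M i.succ j.succ = M i j := rfl

theorem gemb_mul {n : ℕ} (M N : Matrix (Fin n) (Fin n) ℤ) : gemb M * gemb N = gemb (M * N) := by
  ext i j
  rw [mul_apply, Fin.sum_univ_succ]
  refine Fin.cases ?_ (fun i => ?_) i <;> refine Fin.cases ?_ (fun j => ?_) j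
  · simp [gemb_zero_zero, gemb_zero_succ, gemb_succ_zero]
  · simp [gemb_zero_zero, gemb_zero_succ]
  · simp [gemb_succ_zero]
  · simp [gemb_succ_succ, gemb_succ_zero, mul_apply]

theorem gemb_transpose {n : ℕ} (M : Matrix (Fin n) (Fin n) ℤ) : (gemb M)ᵀ = gemb Mᵀ := by
  ext i j
  rw [transpose_apply]
  refine Fin.cases ?_ (fun i => ?_) i <;> refine Fin.cases ?_ (fun j => ?_) j
  · rfl
  · rfl
  · rfl
  · rfl

theorem gemb_det {n : ℕ} (M : Matrix (Fin n) (Fin n) ℤ) : (gemb M).det = M.det := by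
  rw [det_succ_row_zero, Fin.sum_univ_succ]
  have h1 : (gemb M).submatrix Fin.succ (Fin.succAbove 0) = M := by
    ext i j
    rw [submatrix_apply, Fin.zero_succAbove]
    rfl
  rw [h1]
  simp [gemb_zero_zero, gemb_zero_succ]

theorem gemb_diagonal {n : ℕ} (d : Fin n → ℤ) :
    gemb (diagonal d) = diagonal (Fin.cons 1 d : Fin (n + 1) → ℤ) := by
  ext i j
  refine Fin.cases ?_ (fun i => ?_) i <;> refine Fin.cases ?_ (fun j => ?_) j
  · rfl
  · rw [gemb_zero_succ, diagonal_apply_ne _ (Fin.succ_ne_zero j).symm]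
  · rw [gemb_succ_zero, diagonal_apply_ne _ (Fin.succ_ne_zero i)]
  · rw [gemb_succ_succ]
    by_cases h : i = j
    · subst h
      rw [diagonal_apply_eq, diagonal_apply_eq, Fin.cons_succ]
    · rw [diagonal_apply_ne _ h, diagonal_apply_ne _ (fun h' => h (Fin.succ_injective _ h'))]

theorem gemb_quad {n : ℕ} (M : Matrix (Fin n) (Fin n) ℤ) (y : Fin n → ℤ) :
    (Fin.cons 0 y : Fin (n + 1) → ℤ) ⬝ᵥ (gemb M *ᵥ (Fin.cons 0 y : Fin (n + 1) → ℤ)) =
      y ⬝ᵥ (M *ᵥ y) := by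
  simp only [dotProduct, mulVec, Fin.sum_univ_succ, Fin.cons_zero, Fin.cons_succ, zero_mul,
    mul_zero, zero_add, gemb_succ_succ]

/-- Splitting off a vector of norm one. -/
theorem go_step (n : ℕ) (S : Matrix (Fin (n + 2)) (Fin (n + 2)) ℤ) (hS : Sᵀ = S)
    (hpos : ∀ x : Fin (n + 2) → ℤ, x ≠ 0 → 0 < x ⬝ᵥ (S *ᵥ x)) (hdet : S.det = 2)
    (hn : (4 / 3 : ℝ) ^ ((n + 1) * (n + 1 + 1) / 2) * 2 < 2 ^ (n + 1 + 1)) :
    ∃ (W : Matrix (Fin (n + 2)) (Fin (n + 2)) ℤ) (S' : Matrix (Fin (n + 1)) (Fin (n + 1)) ℤ),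
      IsUnit W.det ∧ S'ᵀ = S' ∧ (∀ x : Fin (n + 1) → ℤ, x ≠ 0 → 0 < x ⬝ᵥ (S' *ᵥ x)) ∧
      S'.det = 2 ∧ Wᵀ * S * W = gemb S' := by
  obtain ⟨U, hU, hUle⟩ := hermite (n + 1) S hS hpos
  set T : Matrix (Fin (n + 2)) (Fin (n + 2)) ℤ := Uᵀ * S * U with hT
  have hTs : Tᵀ = T := by
    rw [hT, transpose_mul, transpose_mul, transpose_transpose, hS, Matrix.mul_assoc]
  have hTsym : ∀ i j, T i j = T j i := fun i j => by
    conv_lhs => rw [← hTs]
    rfl
  have hTpos := go_pos S U hU hpos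
  rw [← hT] at hTpos
  have hT0 : T 0 0 = 1 := by
    have h1 : 0 < T 0 0 := by
      have h2 := hTpos (Pi.single 0 1) (by
        intro h
        have := congrFun h 0
        simp at this)
      simpa [dotProduct, mulVec, Pi.single_apply] using h2
    have h2 : T 0 0 < 2 := by
      by_contra h3
      have h4 : (2 : ℝ) ≤ ((T 0 0 : ℤ) : ℝ) := by exact_mod_cast not_lt.1 h3
      have h5 : (2 : ℝ) ^ (n + 1 + 1) ≤ ((T 0 0 : ℤ) : ℝ) ^ (n + 1 + 1) :=
        pow_le_pow_left₀ (by norm_num) h4 _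
      rw [hdet] at hUle
      push_cast at hUle
      linarith
    omega
  let V : Matrix (Fin (n + 2)) (Fin (n + 2)) ℤ :=
    Matrix.of (Fin.cons (Fin.cons 1 (fun j => -T 0 j.succ))
      (fun i => Fin.cons 0 ((1 : Matrix (Fin (n + 1)) (Fin (n + 1)) ℤ) i)))
  have hV00 : V 0 0 = 1 := rfl
  have hV0s : ∀ j : Fin (n + 1), V 0 j.succ = -T 0 j.succ := fun _ => rfl
  have hVs0 : ∀ i : Fin (n + 1), V i.succ 0 = 0 := fun _ => rfl
  have hVss : ∀ i j : Fin (n + 1), V i.succ j.succ =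
    (1 : Matrix (Fin (n + 1)) (Fin (n + 1)) ℤ) i j := fun _ _ => rfl
  have hVdet : V.det = 1 := by
    rw [det_succ_column_zero, Fin.sum_univ_succ]
    have h1 : V.submatrix (Fin.succAbove 0) Fin.succ = 1 := by
      ext i j
      rw [submatrix_apply, Fin.zero_succAbove, hVss]
    rw [h1, hV00]
    simp [hVs0]
  have hVu : IsUnit V.det := by rw [hVdet]; exact isUnit_one
  let S' : Matrix (Fin (n + 1)) (Fin (n + 1)) ℤ :=
    Matrix.of fun i j => T i.succ j.succ - T 0 i.succ * T 0 j.succ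
  have hTV0 : ∀ c, (T * V) c 0 = T c 0 := by
    intro c
    rw [mul_apply, Fin.sum_univ_succ, hV00]
    simp [hVs0]
  have hTVs : ∀ c (j : Fin (n + 1)), (T * V) c j.succ = T c j.succ - T c 0 * T 0 j.succ := by
    intro c j
    rw [mul_apply, Fin.sum_univ_succ, hV0s]
    simp only [hVss, one_apply, mul_ite, mul_one, mul_zero, Finset.mem_univ, if_true,
      Finset.sum_ite_eq']
    ring
  have hVTV : Vᵀ * T * V = gemb S' := by
    rw [Matrix.mul_assoc]
    ext i j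
    rw [mul_apply, Fin.sum_univ_succ]
    refine Fin.cases ?_ (fun i => ?_) i <;> refine Fin.cases ?_ (fun j => ?_) j
    · rw [gemb_zero_zero, transpose_apply, hV00, hTV0, hT0]
      simp [hVs0]
    · rw [gemb_zero_succ, transpose_apply, hV00, hTVs, hT0]
      simp [hVs0]
    · rw [gemb_succ_zero, transpose_apply, hV0s, hTV0, hT0]
      simp only [transpose_apply, hVss, one_apply, hTV0, ite_mul, one_mul, zero_mul,
        Finset.sum_ite_eq', Finset.mem_univ, if_true]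
      rw [hTsym i.succ 0]
      ring
    · rw [gemb_succ_succ, transpose_apply, hV0s, hTVs, hT0]
      simp only [transpose_apply, hVss, one_apply, hTVs, ite_mul, one_mul, zero_mul,
        Finset.sum_ite_eq', Finset.mem_univ, if_true]
      rw [hTsym i.succ 0]
      simp only [S', of_apply]
      ring
  have hW : (U * V)ᵀ * S * (U * V) = gemb S' := by
    rw [← hVTV, hT, transpose_mul]
    simp only [Matrix.mul_assoc]
  have hWu : IsUnit (U * V).det := by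
    rw [det_mul]
    exact hU.mul hVu
  refine ⟨U * V, S', hWu, ?_, ?_, ?_, hW⟩
  · ext i j
    simp only [S', transpose_apply, of_apply]
    rw [hTsym i.succ j.succ]
    ring
  · intro x hx
    rw [← gemb_quad, ← hW]
    apply go_pos S _ hWu hpos
    intro h
    apply hx
    funext i
    exact congrFun h i.succ
  · rw [← gemb_det, ← hW, go_det _ _ hWu, hdet]

/-- Diagonalization over `ℤ`. -/
theorem go_diag (n : ℕ) (hn : n ≤ 3) (S : Matrix (Fin (n + 1)) (Fin (n + 1)) ℤ) (hS : Sᵀ = S)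
    (hpos : ∀ x : Fin (n + 1) → ℤ, x ≠ 0 → 0 < x ⬝ᵥ (S *ᵥ x)) (hdet : S.det = 2) :
    ∃ W : Matrix (Fin (n + 1)) (Fin (n + 1)) ℤ, IsUnit W.det ∧
      Wᵀ * S * W = diagonal (fun i => if i = Fin.last n then 2 else 1) := by
  induction n with
  | zero =>
    refine ⟨1, by rw [det_one]; exact isUnit_one, ?_⟩
    rw [transpose_one, Matrix.one_mul, Matrix.mul_one]
    ext i j
    have hi : i = 0 := Fin.ext (by omega)
    have hj : j = 0 := Fin.ext (by omega)
    subst hi; subst hj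
    have h1 : S.det = S 0 0 := det_fin_one S
    rw [diagonal_apply_eq, ← h1, hdet]
    rfl
  | succ n ih =>
    have hn' : (4 / 3 : ℝ) ^ ((n + 1) * (n + 1 + 1) / 2) * 2 < 2 ^ (n + 1 + 1) := by
      have : n ≤ 2 := by omega
      interval_cases n <;> norm_num
    obtain ⟨W, S', hWu, hS's, hS'p, hS'd, hWe⟩ := go_step n S hS hpos hdet hn'
    obtain ⟨W', hW'u, hW'e⟩ := ih (by omega) S' hS's hS'p hS'd
    refine ⟨W * gemb W', by rw [det_mul, gemb_det]; exact hWu.mul hW'u, ?_⟩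
    have h1 : (W * gemb W')ᵀ * S * (W * gemb W') = gemb (W'ᵀ * S' * W') := by
      rw [← gemb_mul, ← gemb_mul, ← gemb_transpose, ← hWe, transpose_mul]
      simp only [Matrix.mul_assoc]
    rw [h1, hW'e, gemb_diagonal]
    congr 1
    funext i
    refine Fin.cases ?_ (fun i => ?_) i
    · rw [Fin.cons_zero, if_neg]
      exact (Fin.succ_ne_zero (Fin.last n)).symm
    · rw [Fin.cons_succ]
      by_cases h : i = Fin.last n
      · rw [if_pos h, if_pos (by rw [h]; rfl)]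
      · rw [if_neg h, if_neg]
        intro h'
        exact h (Fin.succ_injective _ h')

/-- LX-A2 GramOne.lean -/
theorem gram_one (S : Matrix (Fin 4) (Fin 4) ℤ) (hS : Sᵀ = S)
    (hpos : ∀ x : Fin 4 → ℤ, x ≠ 0 → 0 < x ⬝ᵥ (S *ᵥ x)) (hdet : S.det = 2) :
    ∃ f : Fin 4 → Fin 4 → ℤ, IsUnit (Matrix.of f).det ∧ ∀ i j, B (f i) (f j) = S i j := by
  obtain ⟨W, hW, hWe⟩ := go_diag 3 le_rfl S hS hpos hdet
  have h1 : W * W⁻¹ = 1 := mul_nonsing_inv _ hW
  have h2 : (W⁻¹)ᵀ * Wᵀ = 1 := by rw [← transpose_mul, h1, transpose_one]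
  refine ⟨fun i k => W⁻¹ k i, ?_, ?_⟩
  · have h3 : (Matrix.of fun i k => W⁻¹ k i) = (W⁻¹)ᵀ := rfl
    rw [h3, det_transpose]
    rw [isUnit_iff_exists_inv]
    exact ⟨W.det, by rw [← det_mul, nonsing_inv_mul _ hW, det_one]⟩
  · intro i j
    have h4 : S = (W⁻¹)ᵀ * diagonal (fun i : Fin 4 => if i = Fin.last 3 then 2 else 1) * W⁻¹ := by
      rw [← hWe]
      calc S = ((W⁻¹)ᵀ * Wᵀ) * S * (W * W⁻¹) := by rw [h1, h2, Matrix.one_mul, Matrix.mul_one]
        _ = (W⁻¹)ᵀ * (Wᵀ * S * W) * W⁻¹ := by simp only [Matrix.mul_assoc]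
    have h5 : S i j = ∑ k, W⁻¹ k i * ((if k = Fin.last 3 then 2 else 1) * W⁻¹ k j) := by
      conv_lhs => rw [h4]
      rw [Matrix.mul_assoc, mul_apply]
      apply Finset.sum_congr rfl
      intro k _
      rw [transpose_apply, diagonal_mul]
    rw [h5, Fin.sum_univ_four, if_neg (by decide), if_neg (by decide), if_neg (by decide),
      if_pos (by decide)]
    unfold B
    ring

end Pool.Agent.LX
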