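import Pool.Agent.LX.Defs
import Pool.Agent.LX.GramOne

set_option autoImplicit false

open Matrix

namespace Pool.Agent.LX

namespace FrEv

/-- the quadratic form with the Gram matrix of a frame -/
lemma pos_aux (m s n g a b c x0 x1 x2 x3 : ℤ) (hm : 0 < m) (hD : 0 < m * n - s ^ 2) (hc : 0 < c)
    (h : (m * n - s ^ 2) * (a * c - b ^ 2) - m * g ^ 2 * c = 2)
    (hx : ¬(x0 = 0 ∧ x1 = 0 ∧ x2 = 0 ∧ x3 = 0)) :
    0 < m * x0 ^ 2 + 2 * s * x0 * x1 + n * x1 ^ 2 + 2 * g * x1 * x2 + a * x2 ^ 2 +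
      2 * b * x2 * x3 + c * x3 ^ 2 := by
  have key : m * (m * n - s ^ 2) * c * (m * x0 ^ 2 + 2 * s * x0 * x1 + n * x1 ^ 2 +
      2 * g * x1 * x2 + a * x2 ^ 2 + 2 * b * x2 * x3 + c * x3 ^ 2) =
      (m * n - s ^ 2) * c * (m * x0 + s * x1) ^ 2 +
        c * ((m * n - s ^ 2) * x1 + m * g * x2) ^ 2 +
        m * (m * n - s ^ 2) * (c * x3 + b * x2) ^ 2 + 2 * m * x2 ^ 2 := by
    linear_combination (m * x2 ^ 2) * h
  set D := m * n - s ^ 2 with hDd
  have hmDc : 0 < m * D * c := by positivity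
  refine (mul_pos_iff_of_pos_left hmDc).1 ?_
  rw [key]
  by_cases h2 : x2 = 0
  · subst h2
    by_cases h3 : x3 = 0
    · subst h3
      by_cases h1 : x1 = 0
      · subst h1
        have h0 : x0 ≠ 0 := fun h0 => hx ⟨h0, rfl, rfl, rfl⟩
        have : 0 < (m * x0 + s * 0) ^ 2 := by
          have : m * x0 + s * 0 ≠ 0 := by
            rw [mul_zero, add_zero]
            exact mul_ne_zero hm.ne' h0
          positivity
        positivity
      · have : 0 < (D * x1 + m * g * 0) ^ 2 := by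
          have : D * x1 + m * g * 0 ≠ 0 := by
            rw [mul_zero, add_zero]
            exact mul_ne_zero hD.ne' h1
          positivity
        positivity
    · have : 0 < (c * x3 + b * 0) ^ 2 := by
        have : c * x3 + b * 0 ≠ 0 := by
          rw [mul_zero, add_zero]
          exact mul_ne_zero hc.ne' h3
        positivity
      positivity
  · positivity

/-- the Gram matrix -/
def GM (m s n g a b c : ℤ) : Matrix (Fin 4) (Fin 4) ℤ :=
  !![m, s, 0, 0; s, n, g, 0; 0, g, a, b; 0, 0, b, c]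

lemma det_GM (m s n g a b c : ℤ) :
    (GM m s n g a b c).det = (m * n - s ^ 2) * (a * c - b ^ 2) - m * g ^ 2 * c := by
  unfold GM
  simp [Matrix.det_succ_row_zero, Fin.sum_univ_succ, Fin.succAbove]
  ring

lemma GM_symm (m s n g a b c : ℤ) : (GM m s n g a b c)ᵀ = GM m s n g a b c := by
  ext i j
  fin_cases i <;> fin_cases j <;> rfl

lemma GM_quad (m s n g a b c : ℤ) (x : Fin 4 → ℤ) : x ⬝ᵥ (GM m s n g a b c *ᵥ x) =
    m * x 0 ^ 2 + 2 * s * x 0 * x 1 + n * x 1 ^ 2 + 2 * g * x 1 * x 2 + a * x 2 ^ 2 +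
      2 * b * x 2 * x 3 + c * x 3 ^ 2 := by
  simp [dotProduct, mulVec, Fin.sum_univ_four, GM]
  ring

lemma exists_rows (m s n g a b c : ℤ) (hm : 0 < m) (hD : 0 < m * n - s ^ 2) (hc : 0 < c)
    (h : (m * n - s ^ 2) * (a * c - b ^ 2) - m * g ^ 2 * c = 2) :
    ∃ f : Fin 4 → Fin 4 → ℤ, IsUnit (Matrix.of f).det ∧
      ∀ i j, B (f i) (f j) = GM m s n g a b c i j := by
  refine gram_one _ (GM_symm _ _ _ _ _ _ _) ?_ (by rw [det_GM, h])
  intro x hx
  rw [GM_quad]
  refine pos_aux m s n g a b c _ _ _ _ hm hD hc h ?_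
  rintro ⟨h0, h1, h2, h3⟩
  refine hx ?_
  ext i
  fin_cases i
  · exact h0
  · exact h1
  · exact h2
  · exact h3

/-- a vector whose products with a basis are even is even -/
lemma even_of_rows (f : Fin 4 → Fin 4 → ℤ) (hf : IsUnit (Matrix.of f).det) (v : Fin 4 → ℤ)
    (hv : ∀ i, 2 ∣ ∑ j, f i j * v j) (j : Fin 4) : 2 ∣ v j := by
  choose u hu using hv
  have h1 : Matrix.of f *ᵥ v = (2 : ℤ) • u := by
    ext i
    rw [Pi.smul_apply, smul_eq_mul, ← hu]
    rfl
  have h2 : (Matrix.of f).det • v = (2 : ℤ) • ((Matrix.of f).adjugate *ᵥ u) := by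
    rw [← mulVec_smul, ← h1, mulVec_mulVec, adjugate_mul, smul_mulVec, one_mulVec]
  have h3 := congrFun h2 j
  rw [Pi.smul_apply, Pi.smul_apply, smul_eq_mul, smul_eq_mul] at h3
  exact (hf.dvd_mul_left).1 ⟨_, h3⟩

end FrEv

open FrEv

theorem frame_even (w₀ : Fin 4 → ℤ) (hw : Prim w₀) (heven : Even (w₀ 3)) (n s g a b c : ℤ)
    (hs : IsCoprime s (Qs w₀ / 2)) (hn : 0 < n) (hD : 0 < Qs w₀ / 2 * n - s ^ 2) (hc : 0 < c)
    (h : (Qs w₀ / 2 * n - s ^ 2) * (a * c - b ^ 2) - Qs w₀ / 2 * g ^ 2 * c = 2)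
    (hCh : Ch w₀ → Even a ∧ Even c ∧ Even (n - s)) (hN : ¬ Ch w₀ → Odd c) :
    ∃ w x e f : Fin 4 → ℤ, InW w₀ w ∧ Frame w n s g c b x e f := by
  set m := Qs w₀ / 2 with hmd
  have hm2 : Qs w₀ = 2 * m := by
    obtain ⟨k, hk⟩ := heven
    have : Qs w₀ = 2 * (w₀ 0 ^ 2 + w₀ 1 ^ 2 + w₀ 2 ^ 2 + 2 * k ^ 2) := by
      unfold Qs
      rw [hk]
      ring
    rw [hmd, this]
    simp
  have hm : 0 < m := by
    have h1 : 0 < m * n := by nlinarith [sq_nonneg s]
    exact (mul_pos_iff_of_pos_right hn).1 h1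
  obtain ⟨f, hf, hB⟩ := exists_rows m s n g a b c hm hD hc h
  set w : Fin 4 → ℤ := ![f 0 0, f 0 1, f 0 2, 2 * f 0 3] with hwd
  have hvs : vs w = f 0 := by
    unfold vs
    rw [if_pos (by simp [hwd])]
    ext i
    fin_cases i <;> simp [hwd]
  have hdot : ∀ y, dot w y = B (f 0) y := by
    intro y
    simp [dot, B, hwd]
    ring
  have h00 : B (f 0) (f 0) = m := hB 0 0
  have h01 : B (f 0) (f 1) = s := hB 0 1
  have h02 : B (f 0) (f 2) = 0 := hB 0 2
  have h03 : B (f 0) (f 3) = 0 := hB 0 3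
  have h11 : B (f 1) (f 1) = n := hB 1 1
  have h12 : B (f 1) (f 2) = g := hB 1 2
  have h13 : B (f 1) (f 3) = 0 := hB 1 3
  have h22 : B (f 2) (f 2) = a := hB 2 2
  have h23 : B (f 2) (f 3) = b := hB 2 3
  have h33 : B (f 3) (f 3) = c := hB 3 3
  have hprim : Prim w := by
    intro p hp
    by_contra hcon
    push Not at hcon
    have hd : ∀ y, (p : ℤ) ∣ dot w y := by
      intro y
      unfold dot
      exact dvd_add (dvd_add (dvd_add (Dvd.dvd.mul_right (hcon 0) _) (Dvd.dvd.mul_right (hcon 1) _))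
        (Dvd.dvd.mul_right (hcon 2) _)) (Dvd.dvd.mul_right (hcon 3) _)
    have h1 := hd (f 0)
    have h2 := hd (f 1)
    rw [hdot, h00] at h1
    rw [hdot, h01] at h2
    have h3 := hs.isUnit_of_dvd' h2 h1
    rw [Int.isUnit_iff] at h3
    have := hp.two_le
    omega
  have hQs : Qs w = Qs w₀ := by
    rw [hm2, ← h00]
    simp [Qs, B, hwd]
    ring
  have hChw : Ch w ↔ Ch w₀ := by
    constructor
    · rintro ⟨c0, c1, c2, -⟩
      by_contra hno
      have hodd := hN hno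
      have h1 : Even (B (f 0) (f 3) - B (f 3) (f 3)) := by
        have c0' : Odd (f 0 0) := c0
        have c1' : Odd (f 0 1) := c1
        have c2' : Odd (f 0 2) := c2
        simp only [B]
        have e : ∀ x y : ℤ, Odd x → Even (x * y - y * y) := by
          intro x y hx
          have : x * y - y * y = (x - y) * y := by ring
          rw [this]
          rcases Int.even_or_odd y with hy | hy
          · exact hy.mul_left _
          · exact (hx.sub_odd hy).mul_right _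
        have e2 : f 0 0 * f 3 0 + f 0 1 * f 3 1 + f 0 2 * f 3 2 + 2 * (f 0 3 * f 3 3) -
            (f 3 0 * f 3 0 + f 3 1 * f 3 1 + f 3 2 * f 3 2 + 2 * (f 3 3 * f 3 3)) =
            (f 0 0 * f 3 0 - f 3 0 * f 3 0) + (f 0 1 * f 3 1 - f 3 1 * f 3 1) +
            (f 0 2 * f 3 2 - f 3 2 * f 3 2) + 2 * (f 0 3 * f 3 3 - f 3 3 * f 3 3) := by ring
        rw [e2]
        exact (((e _ _ c0').add (e _ _ c1')).add (e _ _ c2')).add (even_two_mul _)
      rw [h03, h33, zero_sub, even_neg] at h1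
      exact (Int.not_even_iff_odd.2 hodd) h1
    · intro hC
      obtain ⟨ha, hce, hns⟩ := hCh hC
      have hev : ∀ j, 2 ∣ (![f 0 0 - 1, f 0 1 - 1, f 0 2 - 1, 0] : Fin 4 → ℤ) j := by
        refine even_of_rows f hf _ ?_
        have e : ∀ i, Even (B (f 0) (f i) - B (f i) (f i)) →
            2 ∣ ∑ j, f i j * (![f 0 0 - 1, f 0 1 - 1, f 0 2 - 1, 0] : Fin 4 → ℤ) j := by
          intro i hi
          rw [← even_iff_two_dvd]
          have e1 : ∑ j, f i j * (![f 0 0 - 1, f 0 1 - 1, f 0 2 - 1, 0] : Fin 4 → ℤ) j =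
            (B (f 0) (f i) - B (f i) (f i)) + (f i 0 * (f i 0 - 1) + f i 1 * (f i 1 - 1) +
              f i 2 * (f i 2 - 1)) + 2 * (f i 3 * f i 3 - f 0 3 * f i 3) := by
            simp [Fin.sum_univ_four, B]
            ring
          rw [e1]
          have e3 : ∀ t : ℤ, Even (t * (t - 1)) := fun t => Int.even_mul_pred_self t
          exact (hi.add (((e3 _).add (e3 _)).add (e3 _))).add (even_two_mul _)
        intro i
        refine e i ?_
        fin_cases i
        · change Even (B (f 0) (f 0) - B (f 0) (f 0))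
          rw [sub_self]
          exact Even.zero
        · change Even (B (f 0) (f 1) - B (f 1) (f 1))
          rw [h01, h11, ← even_neg, neg_sub]
          exact hns
        · change Even (B (f 0) (f 2) - B (f 2) (f 2))
          rw [h02, h22, zero_sub, even_neg]
          exact ha
        · change Even (B (f 0) (f 3) - B (f 3) (f 3))
          rw [h03, h33, zero_sub, even_neg]
          exact hce
      have o : ∀ t : ℤ, 2 ∣ t - 1 → Odd t := by
        intro t ht
        rw [Int.odd_iff]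
        omega
      exact ⟨o _ (hev 0), o _ (hev 1), o _ (hev 2), even_two_mul _⟩
  refine ⟨w, f 1, f 2, f 3, ⟨hprim, hQs, hChw⟩, ?_, h11, ?_, ?_, h12, ?_, h13, h23, h33⟩
  · rw [hvs]
    have : (![f 0, f 1, f 2, f 3] : Fin 4 → Fin 4 → ℤ) = f := by
      ext i
      fin_cases i <;> rfl
    rw [this]
    exact hf
  · rw [hdot, h01]
  · rw [hvs, h02]
  · rw [hvs, h03]

end Pool.Agent.LX
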