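import Pool.Agent.LX.Defs
import Pool.Agent.LX.FrameEven

set_option autoImplicit false

open Matrix

namespace Pool.Agent.LX

open FrEv

theorem frame_odd (w₀ : Fin 4 → ℤ) (hw : Prim w₀) (hodd : Odd (w₀ 3)) (n s g a b c : ℤ)
    (hs : IsCoprime s (Qs w₀)) (hn : 0 < n) (hΔ : 0 < Qs w₀ * n - 2 * s ^ 2) (hc : 0 < c)
    (h : (Qs w₀ * n - 2 * s ^ 2) * (a * c - b ^ 2) - Qs w₀ * g ^ 2 * c = 1) :
    ∃ w x e f : Fin 4 → ℤ, InW w₀ w ∧ Frame w n s g c b x e f := by
  set M := Qs w₀ with hMd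
  have hMo : Odd M := by
    rw [hMd]
    unfold Qs
    exact (even_two_mul _).add_odd hodd.pow
  have hM : 0 < M := by
    have h1 : 0 < M * n := by nlinarith [sq_nonneg s]
    exact (mul_pos_iff_of_pos_right hn).1 h1
  obtain ⟨f, hf, hB⟩ := exists_rows (2 * M) (2 * s) n g a b c (by positivity)
    (by nlinarith) hc (by linear_combination 2 * h)
  have h00 : B (f 0) (f 0) = 2 * M := hB 0 0
  have h01 : B (f 0) (f 1) = 2 * s := hB 0 1
  have h02 : B (f 0) (f 2) = 0 := hB 0 2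
  have h03 : B (f 0) (f 3) = 0 := hB 0 3
  have h11 : B (f 1) (f 1) = n := hB 1 1
  have h12 : B (f 1) (f 2) = g := hB 1 2
  have h13 : B (f 1) (f 3) = 0 := hB 1 3
  have h22 : B (f 2) (f 2) = a := hB 2 2
  have h23 : B (f 2) (f 3) = b := hB 2 3
  have h33 : B (f 3) (f 3) = c := hB 3 3
  have hev : ∀ j, 2 ∣ (![f 0 0, f 0 1, f 0 2, 0] : Fin 4 → ℤ) j := by
    refine even_of_rows f hf _ ?_
    intro i
    have e1 : ∑ j, f i j * (![f 0 0, f 0 1, f 0 2, 0] : Fin 4 → ℤ) j =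
        B (f 0) (f i) - 2 * (f 0 3 * f i 3) := by
      simp [Fin.sum_univ_four, B]
      ring
    rw [e1]
    refine dvd_sub ?_ (dvd_mul_right _ _)
    fin_cases i
    · exact ⟨M, h00⟩
    · exact ⟨s, h01⟩
    · exact ⟨0, h02⟩
    · exact ⟨0, h03⟩
  obtain ⟨x0, hx0⟩ : 2 ∣ f 0 0 := hev 0
  obtain ⟨x1, hx1⟩ : 2 ∣ f 0 1 := hev 1
  obtain ⟨x2, hx2⟩ : 2 ∣ f 0 2 := hev 2
  set w : Fin 4 → ℤ := ![x0, x1, x2, f 0 3] with hwd
  have hhat : hat w = f 0 := by
    ext i
    fin_cases i <;> simp [hat, hwd, hx0, hx1, hx2]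
  have hdot : ∀ y, 2 * dot w y = B (f 0) y := by
    intro y
    rw [← hhat]
    simp [dot, B, hat]
    ring
  have hQs : Qs w = M := by
    have : 2 * Qs w = 2 * M := by
      rw [← h00, ← hhat]
      simp [Qs, B, hat]
      ring
    omega
  have hw3 : Odd (w 3) := by
    by_contra hno
    rw [Int.not_odd_iff_even] at hno
    have : Even (Qs w) := by
      unfold Qs
      exact (even_two_mul _).add (hno.pow_of_ne_zero two_ne_zero)
    rw [hQs] at this
    exact (Int.not_even_iff_odd.2 hMo) this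
  have hvs : vs w = f 0 := by
    unfold vs
    rw [if_neg (Int.not_even_iff_odd.2 hw3)]
    exact hhat
  have hs1 : dot w (f 1) = s := by
    have := hdot (f 1)
    rw [h01] at this
    omega
  have hprim : Prim w := by
    intro p hp
    by_contra hcon
    push Not at hcon
    have hd : ∀ y, (p : ℤ) ∣ dot w y := by
      intro y
      unfold dot
      exact dvd_add (dvd_add (dvd_add (Dvd.dvd.mul_right (hcon 0) _) (Dvd.dvd.mul_right (hcon 1) _))
        (Dvd.dvd.mul_right (hcon 2) _)) (Dvd.dvd.mul_right (hcon 3) _)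
    have h1 := hd (f 1)
    rw [hs1] at h1
    have h2 : (p : ℤ) ∣ Qs w := by
      unfold Qs
      refine dvd_add (Dvd.dvd.mul_left (dvd_add (dvd_add ?_ ?_) ?_) _) ?_
      · exact Dvd.dvd.pow (hcon 0) two_ne_zero
      · exact Dvd.dvd.pow (hcon 1) two_ne_zero
      · exact Dvd.dvd.pow (hcon 2) two_ne_zero
      · exact Dvd.dvd.pow (hcon 3) two_ne_zero
    rw [hQs] at h2
    have h3 := hs.isUnit_of_dvd' h1 h2
    rw [Int.isUnit_iff] at h3
    have := hp.two_le
    omega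
  have hChw : Ch w ↔ Ch w₀ := by
    constructor
    · rintro ⟨-, -, -, h3⟩
      exact absurd hw3 (Int.not_odd_iff_even.2 h3)
    · rintro ⟨-, -, -, h3⟩
      exact absurd hodd (Int.not_odd_iff_even.2 h3)
  refine ⟨w, f 1, f 2, f 3, ⟨hprim, hQs, hChw⟩, ?_, h11, hs1, ?_, h12, ?_, h13, h23, h33⟩
  · rw [hvs]
    have : (![f 0, f 1, f 2, f 3] : Fin 4 → Fin 4 → ℤ) = f := by
      ext i
      fin_cases i <;> rfl
    rw [this]
    exact hf
  · rw [hvs, h02]
  · rw [hvs, h03]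

end Pool.Agent.LX
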