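import Pool.Agent.LX.Defs

/-!
LX-28: residue classes on which the character takes the value `1`.
-/

set_option autoImplicit false

namespace Pool.Agent.LX

open ZMod

theorem residue_crt (N K : ℕ) (hN : 0 < N) (hK : 0 < K) (h : Nat.Coprime N K) (r : ℤ) (t : ℕ) :
    ∃ C : ℕ, 0 < C ∧ (N : ℤ) ∣ C - r ∧ C % K = t % K := by
  obtain ⟨k, hk1, hk2⟩ := Nat.chineseRemainder h (r % N).toNat t
  refine ⟨k + N * K, by positivity, ?_, ?_⟩
  · have h1 : (N : ℤ) ∣ (k : ℤ) - ((r % N).toNat : ℤ) := by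
      have h2 := (Int.natCast_modEq_iff.2 hk1)
      exact (Int.modEq_iff_dvd.1 h2.symm)
    rw [Int.toNat_of_nonneg (Int.emod_nonneg _ (by omega))] at h1
    have h3 : (N : ℤ) ∣ r % N - r := by
      have := Int.emod_add_mul_ediv r N
      exact ⟨-(r / N), by linarith⟩
    have h4 : ((k + N * K : ℕ) : ℤ) - r = (k - r % N) + (r % N - r) + N * K := by
      push_cast
      ring
    rw [h4]
    exact dvd_add (dvd_add h1 h3) (Dvd.intro _ rfl)
  · rw [Nat.add_mul_mod_self_right]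
    exact hk2

theorem residue_cop {N C : ℕ} (r : ℤ) (hr : IsCoprime r (N : ℤ)) (h : (N : ℤ) ∣ C - r)
    (hC : Odd C) : Nat.Coprime C (2 * N) := by
  refine Nat.Coprime.mul_right (Nat.coprime_two_right.2 hC) ?_
  rw [← Nat.isCoprime_iff_coprime]
  obtain ⟨k, hk⟩ := h
  have h1 : (C : ℤ) = r + N * k := by linarith
  rw [h1]
  exact hr.add_mul_left_left k

theorem residue_modEq {N C : ℕ} {r : ℤ} (hd : (N : ℤ) ∣ C - r) :
    jacobiSym C N = jacobiSym r N := by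
  apply jacobiSym.mod_left'
  exact Int.emod_eq_emod_iff_emod_sub_eq_zero.2 (Int.emod_eq_zero_of_dvd hd)

theorem residue_four (N : ℕ) (hN4 : N % 4 = 1) (r : ℤ) (hr : IsCoprime r (N : ℤ)) :
    ∃ C : ℕ, 0 < C ∧ Odd C ∧ Nat.Coprime C (2 * N) ∧ (N : ℤ) ∣ C - r ∧
      jacobiSym (-(N : ℤ)) C = 1 := by
  have hN : 0 < N := by omega
  have hodd : Odd N := by rw [Nat.odd_iff]; omega
  have hcop : Nat.Coprime N 4 := by
    rw [show (4 : ℕ) = 2 ^ 2 from rfl]
    exact Nat.Coprime.pow_right 2 (Nat.coprime_two_right.2 hodd)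
  have hg : r.gcd N = 1 := Int.isCoprime_iff_gcd_eq_one.1 hr
  have key : ∀ (C : ℕ), Odd C → (N : ℤ) ∣ C - r →
      jacobiSym (-(N : ℤ)) C = χ₄ C * jacobiSym r N := by
    intro C hC hd
    rw [jacobiSym.neg _ hC, jacobiSym.quadratic_reciprocity_one_mod_four hN4 hC,
      residue_modEq hd]
  rcases jacobiSym.eq_one_or_neg_one hg with h1 | h1
  · obtain ⟨C, hC0, hd, hC4⟩ := residue_crt N 4 hN (by norm_num) hcop r 1
    have hC : Odd C := by rw [Nat.odd_iff]; omega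
    refine ⟨C, hC0, hC, residue_cop r hr hd hC, hd, ?_⟩
    rw [key C hC hd, h1, χ₄_nat_one_mod_four (by omega), one_mul]
  · obtain ⟨C, hC0, hd, hC4⟩ := residue_crt N 4 hN (by norm_num) hcop r 3
    have hC : Odd C := by rw [Nat.odd_iff]; omega
    refine ⟨C, hC0, hC, residue_cop r hr hd hC, hd, ?_⟩
    rw [key C hC hd, h1, χ₄_nat_three_mod_four (by omega)]
    norm_num

theorem residue_eight (N : ℕ) (hodd : Odd N) (r : ℤ) (hr : IsCoprime r (N : ℤ)) :
    ∃ C : ℕ, 0 < C ∧ Odd C ∧ Nat.Coprime C (2 * N) ∧ (N : ℤ) ∣ C - r ∧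
      jacobiSym (-((2 * N : ℕ) : ℤ)) C = 1 := by
  have hN : 0 < N := hodd.pos
  have hcop : Nat.Coprime N 8 := by
    rw [show (8 : ℕ) = 2 ^ 3 from rfl]
    exact Nat.Coprime.pow_right 3 (Nat.coprime_two_right.2 hodd)
  have hg : r.gcd N = 1 := Int.isCoprime_iff_gcd_eq_one.1 hr
  have key : ∀ (C : ℕ), C % 4 = 1 → (N : ℤ) ∣ C - r →
      jacobiSym (-((2 * N : ℕ) : ℤ)) C = χ₈ C * jacobiSym r N := by
    intro C hC4 hd
    have hC : Odd C := by rw [Nat.odd_iff]; omega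
    rw [jacobiSym.neg _ hC, χ₄_nat_one_mod_four hC4, one_mul, Nat.cast_mul, jacobiSym.mul_left,
      jacobiSym.quadratic_reciprocity_one_mod_four' hodd hC4, residue_modEq hd]
    congr 1
    exact jacobiSym.at_two hC
  rcases jacobiSym.eq_one_or_neg_one hg with h1 | h1
  · obtain ⟨C, hC0, hd, hC4⟩ := residue_crt N 8 hN (by norm_num) hcop r 1
    have hC : Odd C := by rw [Nat.odd_iff]; omega
    refine ⟨C, hC0, hC, residue_cop r hr hd hC, hd, ?_⟩
    rw [key C (by omega) hd, h1, χ₈_nat_eq_if_mod_eight, if_neg (by omega), if_pos (by omega)]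
    norm_num
  · obtain ⟨C, hC0, hd, hC4⟩ := residue_crt N 8 hN (by norm_num) hcop r 5
    have hC : Odd C := by rw [Nat.odd_iff]; omega
    refine ⟨C, hC0, hC, residue_cop r hr hd hC, hd, ?_⟩
    rw [key C (by omega) hd, h1, χ₈_nat_eq_if_mod_eight, if_neg (by omega), if_neg (by omega)]
    norm_num

theorem residue_odd (M n s : ℤ) (hM : Odd M) (hM0 : 0 < M) (hs : IsCoprime s M)
    (hΔ : 0 < M * n - 2 * s ^ 2)
    (h4 : (M * n - 2 * s ^ 2) % 4 = 1 ∨ (M * n - 2 * s ^ 2) % 4 = 2) :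
    ∃ C : ℕ, 0 < C ∧ Nat.Coprime C (2 * (M * n - 2 * s ^ 2).toNat) ∧
      (M * n - 2 * s ^ 2) ∣ M * C + 1 ∧ chi (M * n - 2 * s ^ 2).toNat C = 1 := by
  have hM2 : IsCoprime (2 : ℤ) M := by
    obtain ⟨u, hu⟩ := hM
    exact ⟨-u, 1, by rw [hu]; ring⟩
  have hcop : IsCoprime M (M * n - 2 * s ^ 2) := by
    have h1 : IsCoprime M (-(2 * s ^ 2)) := ((hM2.mul_left (hs.pow_left (m := 2))).symm).neg_right
    have h2 := h1.add_mul_left_right n
    rwa [show -(2 * s ^ 2) + M * n = M * n - 2 * s ^ 2 by ring] at h2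
  obtain ⟨N, hN⟩ := Int.eq_ofNat_of_zero_le hΔ.le
  rw [hN] at hcop h4 hΔ ⊢
  rw [Int.toNat_natCast]
  rcases h4 with h4 | h4
  · obtain ⟨a, b, hab⟩ := hcop
    have hr : IsCoprime (-a) (N : ℤ) := ⟨-M, b, by linarith⟩
    obtain ⟨C, hC0, hC, hCN, ⟨k, hk⟩, hj⟩ := residue_four N (by omega) (-a) hr
    refine ⟨C, hC0, hCN, ⟨b + M * k, ?_⟩, ?_⟩
    · have : (C : ℤ) = -a + N * k := by linarith
      rw [this]
      linear_combination (-1 : ℤ) * hab
    · unfold chi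
      rw [if_pos hC, hj]
  · obtain ⟨N', rfl⟩ : ∃ N', N = 2 * N' := ⟨N / 2, by omega⟩
    have hodd : Odd N' := by rw [Nat.odd_iff]; omega
    have hcop' : IsCoprime M (N' : ℤ) := by
      rw [Nat.cast_mul] at hcop
      exact hcop.of_mul_right_right
    obtain ⟨a, b, hab⟩ := hcop'
    have hr : IsCoprime (-a) (N' : ℤ) := ⟨-M, b, by linarith⟩
    obtain ⟨C, hC0, hC, hCN, ⟨k, hk⟩, hj⟩ := residue_eight N' hodd (-a) hr
    refine ⟨C, hC0, ?_, ?_, ?_⟩
    · exact Nat.Coprime.mul_right (Nat.coprime_two_right.2 hC) hCN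
    · have h1 : (N' : ℤ) ∣ M * C + 1 := by
        refine ⟨b + M * k, ?_⟩
        have : (C : ℤ) = -a + N' * k := by linarith
        rw [this]
        linear_combination (-1 : ℤ) * hab
      have h2 : (2 : ℤ) ∣ M * C + 1 := by
        obtain ⟨u, hu⟩ := hM
        obtain ⟨v, hv⟩ := hC
        refine ⟨2 * u * v + u + v + 1, ?_⟩
        rw [hu, hv]
        push_cast
        ring
      rw [Nat.cast_mul]
      have h3 : IsCoprime ((2 : ℕ) : ℤ) (N' : ℤ) :=
        Nat.isCoprime_iff_coprime.2 (Nat.coprime_two_left.2 hodd)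
      exact h3.mul_dvd h2 h1
    · unfold chi
      rw [if_pos hC, hj]

theorem residue_even (m n s : ℤ) (hm0 : 0 < m) (hs : IsCoprime s m)
    (hD : 0 < m * n - s ^ 2) (h2 : Odd (m * n - s ^ 2)) :
    ∃ C : ℕ, 0 < C ∧ Nat.Coprime C (2 * (2 * (m * n - s ^ 2)).toNat) ∧
      (m * n - s ^ 2) ∣ m * C + 2 ∧ chi (2 * (m * n - s ^ 2)).toNat C = 1 := by
  have hcop : IsCoprime m (m * n - s ^ 2) := by
    have h1 : IsCoprime m (-(s ^ 2)) := ((hs.pow_left (m := 2)).symm).neg_right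
    have h2 := h1.add_mul_left_right n
    rwa [show -(s ^ 2) + m * n = m * n - s ^ 2 by ring] at h2
  obtain ⟨N, hN⟩ := Int.eq_ofNat_of_zero_le hD.le
  rw [hN] at hcop h2 hD ⊢
  have hodd : Odd N := by
    rw [Nat.odd_iff]
    rw [Int.odd_iff] at h2
    omega
  have h22 : (2 * (N : ℤ)).toNat = 2 * N := by omega
  rw [h22]
  obtain ⟨a, b, hab⟩ := hcop
  have hN2 : IsCoprime (2 : ℤ) (N : ℤ) := by
    obtain ⟨u, hu⟩ := h2
    exact ⟨-u, 1, by rw [hu]; ring⟩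
  have hr : IsCoprime (-2 * a) (N : ℤ) := by
    have h1 : IsCoprime (-a) (N : ℤ) := ⟨-m, b, by linarith⟩
    have h3 := hN2.mul_left h1
    rwa [show (2 : ℤ) * -a = -2 * a by ring] at h3
  obtain ⟨C, hC0, hC, hCN, ⟨k, hk⟩, hj⟩ := residue_eight N hodd (-2 * a) hr
  refine ⟨C, hC0, ?_, ⟨2 * b + m * k, ?_⟩, ?_⟩
  · exact Nat.Coprime.mul_right (Nat.coprime_two_right.2 hC) hCN
  · have : (C : ℤ) = -2 * a + N * k := by linarith
    rw [this]
    linear_combination (-2 : ℤ) * hab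
  · unfold chi
    rw [if_pos hC, hj]

theorem residue_ch (m n s D₁ : ℤ) (hm0 : 0 < m) (hm : m % 8 = 3 ∨ m % 8 = 5)
    (hs : IsCoprime s m) (hD : 0 < D₁) (h2 : m * n - s ^ 2 = 2 * D₁) :
    ∃ C : ℕ, 0 < C ∧ Nat.Coprime C (2 * D₁.toNat) ∧
      4 * D₁ ∣ m * C + 1 ∧ chi D₁.toNat C = 1 := by
  have hcop2 : IsCoprime m (2 * D₁) := by
    have h1 : IsCoprime m (-(s ^ 2)) := ((hs.pow_left (m := 2)).symm).neg_right
    have h3 := h1.add_mul_left_right n
    rwa [show -(s ^ 2) + m * n = 2 * D₁ by linarith] at h3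
  have hcop : IsCoprime m (4 * D₁) := by
    have h3 := hcop2.of_mul_right_left
    have h4 := h3.mul_right hcop2
    rwa [show (2 : ℤ) * (2 * D₁) = 4 * D₁ by ring] at h4
  obtain ⟨N, hN⟩ := Int.eq_ofNat_of_zero_le hD.le
  obtain ⟨m', hm'⟩ := Int.eq_ofNat_of_zero_le hm0.le
  rw [hN] at hcop hD h2 ⊢
  rw [hm'] at hcop hm0 h2 hm hs ⊢
  rw [Int.toNat_natCast]
  have hN0 : 0 < N := by omega
  have hmo : Odd m' := by rw [Nat.odd_iff]; omega
  obtain ⟨a, b, hab⟩ := hcop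
  obtain ⟨c, hc⟩ := Int.eq_ofNat_of_zero_le (Int.emod_nonneg (-a) (b := 4 * (N : ℤ)) (by omega))
  have hcd : (4 * (N : ℤ)) ∣ m' * ((c + 4 * N : ℕ) : ℤ) + 1 := by
    have h3 := Int.emod_add_mul_ediv (-a) (4 * (N : ℤ))
    rw [hc] at h3
    refine ⟨b + m' * (1 - -a / (4 * (N : ℤ))), ?_⟩
    push_cast
    linear_combination (-1 : ℤ) * hab + m' * h3
  obtain ⟨C, hCdef⟩ : ∃ C : ℕ, C = c + 4 * N := ⟨_, rfl⟩
  rw [← hCdef] at hcd
  have hC0 : 0 < C := by omega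
  have hC : Odd C := by
    rw [Nat.odd_iff]
    obtain ⟨u, hu⟩ := hcd
    by_contra hne
    obtain ⟨v, hv⟩ : ∃ v, C = 2 * v := ⟨C / 2, by omega⟩
    rw [hv] at hu
    push_cast at hu
    have : (2 : ℤ) ∣ 1 := ⟨2 * N * u - m' * v, by linarith⟩
    norm_num at this
  have hm4 : (C * m') % (4 * N) = 4 * N - 1 := by
    obtain ⟨u, hu⟩ := hcd
    have hu0 : 0 < u := by
      by_contra hle
      have : 4 * (N : ℤ) * u ≤ 0 := mul_nonpos_of_nonneg_of_nonpos (by positivity) (by omega)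
      have h5 : (0 : ℤ) ≤ m' * C := by positivity
      omega
    obtain ⟨w, hw⟩ := Int.eq_ofNat_of_zero_le hu0.le
    have h5 : C * m' + 1 = 4 * N * w := by
      zify
      rw [← hw, ← hu]
      ring
    have hw0 : 0 < w := by omega
    obtain ⟨w', rfl⟩ : ∃ w', w = w' + 1 := ⟨w - 1, by omega⟩
    have h6 : C * m' = (4 * N - 1) + 4 * N * w' := by
      have : 4 * N * (w' + 1) = 4 * N * w' + 4 * N := by ring
      omega
    rw [h6, Nat.add_mul_mod_self_left]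
    exact Nat.mod_eq_of_lt (by omega)
  have hodd1 : Odd (4 * N - 1) := by rw [Nat.odd_iff]; omega
  have e1 : jacobiSym (N : ℤ) (4 * N - 1) = 1 := by
    have h3 := jacobiSym.mul_left 4 (N : ℤ) (4 * N - 1)
    rw [jacobiSym.at_four hodd1, one_mul] at h3
    rw [← h3, ← jacobiSym.one_left (4 * N - 1)]
    apply jacobiSym.mod_left'
    apply Int.emod_eq_emod_iff_emod_sub_eq_zero.2
    apply Int.emod_eq_zero_of_dvd
    refine ⟨1, ?_⟩
    rw [Nat.cast_sub (by omega)]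
    push_cast
    ring
  have e2 : jacobiSym (-(N : ℤ)) (4 * N - 1) = -1 := by
    rw [jacobiSym.neg _ hodd1, e1, χ₄_nat_three_mod_four (by omega)]
    norm_num
  have e3 : jacobiSym (-(N : ℤ)) (C * m') = -1 := by
    rw [jacobiSym.mod_right _ (hC.mul hmo), Int.natAbs_neg, Int.natAbs_natCast, hm4, e2]
  have e4 : jacobiSym (-(N : ℤ)) m' = -1 := by
    have h3 := jacobiSym.mul_left 2 (-(N : ℤ)) m'
    have h4 : jacobiSym (2 * -(N : ℤ)) m' = 1 := by
      rw [← jacobiSym.sq_one' (a := s) (b := m') (Int.isCoprime_iff_gcd_eq_one.1 hs)]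
      apply jacobiSym.mod_left'
      apply Int.emod_eq_emod_iff_emod_sub_eq_zero.2
      apply Int.emod_eq_zero_of_dvd
      exact ⟨-n, by linarith⟩
    rw [h4, jacobiSym.at_two hmo, χ₈_nat_eq_if_mod_eight, if_neg (by omega),
      if_neg (by omega)] at h3
    linarith
  rw [jacobiSym.mul_right' _ hC0.ne' (by omega), e4] at e3
  refine ⟨C, hC0, ?_, hcd, ?_⟩
  · refine Nat.Coprime.mul_right (Nat.coprime_two_right.2 hC) ?_
    rw [← Nat.isCoprime_iff_coprime]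
    obtain ⟨u, hu⟩ := hcd
    exact ⟨-m', 4 * u, by linarith⟩
  · unfold chi
    rw [if_pos hC]
    linarith

end Pool.Agent.LX
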