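import Pool.Agent.LX.Defs
import Pool.Agent.LX.FamilyAux
import Pool.Agent.LX.Chi
import Pool.Agent.LX.Residue
import Pool.Agent.LX.FrameOdd
import Pool.Agent.LX.FrameEven

set_option autoImplicit false

/-! LX-E6: the family of frames for a residue class. -/

open Matrix

namespace Pool.Agent.LX

namespace FamilyAux


theorem exists_b (c δ : ℕ) (r : ℤ) (hrc : IsCoprime r (c : ℤ)) (β : ZMod c)
    (hβ : β ^ 2 = -(δ : ZMod c)) :
    ∃ b : ℤ, ((r * b : ℤ) : ZMod c) = β ∧ (c : ℤ) ∣ (r * b) ^ 2 + δ := by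
  obtain ⟨β₀, rfl⟩ := ZMod.intCast_surjective β
  obtain ⟨u, v, huv⟩ := hrc
  have h1 : ((r * (u * β₀) : ℤ) : ZMod c) = (β₀ : ZMod c) := by
    have h2 : r * (u * β₀) = β₀ - β₀ * v * c := by linear_combination β₀ * huv
    rw [h2]
    push_cast
    simp
  refine ⟨u * β₀, h1, ?_⟩
  rw [← ZMod.intCast_zmod_eq_zero_iff_dvd]
  push_cast at h1 ⊢
  rw [h1, hβ]
  ring

theorem cop_of (g c δ C₀ : ℕ) (hC : Nat.Coprime C₀ (2 * δ))
    (h : (g ^ 2 * c) % (16 * δ) = C₀ % (16 * δ)) :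
    IsCoprime (c : ℤ) (2 * δ : ℤ) ∧ IsCoprime (g : ℤ) (2 * δ : ℤ) ∧
      (16 * δ : ℤ) ∣ (g : ℤ) ^ 2 * c - C₀ := by
  have h1 : g ^ 2 * c ≡ C₀ [MOD 16 * δ] := h
  have h2 : g ^ 2 * c ≡ C₀ [MOD 2 * δ] := h1.of_dvd ⟨8, by ring⟩
  have h3 : Nat.Coprime (g ^ 2 * c) (2 * δ) := by
    rw [Nat.Coprime, h2.gcd_eq]
    exact hC
  have h4 : Nat.Coprime c (2 * δ) := Nat.Coprime.coprime_mul_left h3
  have h5 : Nat.Coprime g (2 * δ) :=
    Nat.Coprime.coprime_dvd_left (Dvd.intro_left _ (by ring : (g * c) * g = g ^ 2 * c)) h3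
  refine ⟨?_, ?_, ?_⟩
  · have := Nat.isCoprime_iff_coprime.mpr h4
    exact_mod_cast this
  · have := Nat.isCoprime_iff_coprime.mpr h5
    exact_mod_cast this
  · have := (Nat.modEq_iff_dvd.mp h1.symm)
    exact_mod_cast this

theorem odd_Qs (w : Fin 4 → ℤ) : Odd (Qs w) ↔ Odd (w 3) := by
  unfold Qs
  rw [Int.odd_add]
  constructor
  · intro h
    by_contra hcon
    rw [Int.not_odd_iff_even] at hcon
    have h1 : Even (w 3 ^ 2) := by rw [Int.even_pow]; exact ⟨hcon, by norm_num⟩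
    have h2 := h.mpr h1
    have h3 : Even (2 * (w 0 ^ 2 + w 1 ^ 2 + w 2 ^ 2)) := even_two_mul _
    exact (Int.not_odd_iff_even.mpr h3) h2
  · intro h
    have h3 : Even (2 * (w 0 ^ 2 + w 1 ^ 2 + w 2 ^ 2)) := even_two_mul _
    have h1 : Odd (w 3 ^ 2) := h.pow
    constructor
    · intro h4; exact absurd h4 (Int.not_odd_iff_even.mpr h3)
    · intro h4; exact absurd h1 (Int.not_odd_iff_even.mpr h4)

theorem vs_odd (w : Fin 4 → ℤ) (h : Odd (w 3)) :
    B (vs w) (vs w) = 2 * Qs w ∧ ∀ x, B (vs w) x = 2 * dot w x := by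
  have h1 : vs w = hat w := by unfold vs; rw [if_neg (Int.not_even_iff_odd.mpr h)]
  rw [h1]
  constructor
  · unfold B hat Qs; simp; ring
  · intro x; unfold B hat dot; simp; ring

theorem vs_even (w : Fin 4 → ℤ) (h : Even (w 3)) :
    2 * B (vs w) (vs w) = Qs w ∧ ∀ x, B (vs w) x = dot w x := by
  have h1 : vs w = ![w 0, w 1, w 2, w 3 / 2] := by unfold vs; rw [if_pos h]
  obtain ⟨t, ht⟩ := h
  have h2 : w 3 / 2 = t := by omega
  rw [h1, h2]
  constructor
  · unfold B Qs; rw [ht]; simp; ring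
  · intro x; unfold B dot; rw [ht]; simp; ring

end FamilyAux

open FamilyAux in
/-- LX-E6 Family.lean -/
theorem family (w₀ : Fin 4 → ℤ) (hw : Prim w₀) (n s : ℤ) (hs : GoodS w₀ n s) (hn : 0 < n)
    (hΔ : 0 < Qs w₀ * n - 2 * s ^ 2) :
    ∃ (δ ε C₀ : ℕ) (r : ℤ), 0 < δ ∧
      ((δ : ℤ) = Qs w₀ * n - 2 * s ^ 2 ∨ 4 * (δ : ℤ) = Qs w₀ * n - 2 * s ^ 2) ∧
      (∀ k, chi δ k = chi (Qs w₀ * n - 2 * s ^ 2).toNat k) ∧ (ε = 1 ∨ ε = 2) ∧
      0 < C₀ ∧ Nat.Coprime C₀ (2 * δ) ∧ chi δ C₀ = 1 ∧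
      ∀ g c : ℕ, 0 < g → 0 < c → (g ^ 2 * c) % (16 * δ) = C₀ % (16 * δ) →
        ∀ β : ZMod c, β ^ 2 = -(δ : ZMod c) →
          ∃ (w x e f : Fin 4 → ℤ) (b : ℤ), InW w₀ w ∧ Frame w n s g (ε * c) (ε * b) x e f ∧
            ((r * b : ℤ) : ZMod c) = β ∧
            ∃ (β' γ : ℤ) (h : Fin 4 → ℤ), (c : ℤ) * γ - β' ^ 2 = δ ∧
              (∀ y : Fin 4 → ℤ, B (vs w) y = 0 → B x y = 0 →
                ∃ i j : ℤ, ∀ l, y l = i * f l + j * h l) ∧
              ∀ i j : ℤ, Q (fun l => i * f l + j * h l) =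
                ε * (c * i ^ 2 + 2 * β' * i * j + γ * j ^ 2) := by
  have hQpos : 0 < Qs w₀ := by
    by_contra hcon
    have h1 : Qs w₀ * n ≤ 0 := mul_nonpos_of_nonpos_of_nonneg (not_lt.mp hcon) hn.le
    nlinarith [sq_nonneg s]
  rcases Int.even_or_odd (w₀ 3) with heven | hodd
  · -- `w₀ 3` even
    obtain ⟨hs1, hs2, hs3⟩ := hs.2 heven
    obtain ⟨hv1, -⟩ := vs_even w₀ heven
    set m := Qs w₀ / 2 with hm
    have hQm : Qs w₀ = 2 * m := by omega
    have hm0 : 0 < m := by omega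
    have hΔD : Qs w₀ * n - 2 * s ^ 2 = 2 * (m * n - s ^ 2) := by rw [hQm]; ring
    have hD : 0 < m * n - s ^ 2 := by omega
    set D := m * n - s ^ 2 with hDdef
    by_cases hCh : Ch w₀
    · -- the characteristic type
      obtain ⟨hc0, hc1, hc2, hc3⟩ := id hCh
      have hns := hs2 hCh
      have hm8 : m % 8 = 3 ∨ m % 8 = 5 := by
        obtain ⟨a0, ha0⟩ := hc0
        obtain ⟨a1, ha1⟩ := hc1
        obtain ⟨a2, ha2⟩ := hc2
        obtain ⟨t, ht⟩ := hc3
        have h1 : 2 * m = 2 * (w₀ 0 ^ 2 + w₀ 1 ^ 2 + w₀ 2 ^ 2) + w₀ 3 ^ 2 := by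
          rw [← hQm]; rfl
        rw [ha0, ha1, ha2, ht] at h1
        obtain ⟨b0, hb0⟩ := Int.even_mul_succ_self a0
        obtain ⟨b1, hb1⟩ := Int.even_mul_succ_self a1
        obtain ⟨b2, hb2⟩ := Int.even_mul_succ_self a2
        have h2 : m = 3 + 8 * (b0 + b1 + b2) + 2 * t ^ 2 := by nlinarith
        rcases Int.even_or_odd t with ⟨u, hu⟩ | ⟨u, hu⟩
        · left
          rw [h2, hu]
          have : 3 + 8 * (b0 + b1 + b2) + 2 * (u + u) ^ 2 = 3 + 8 * (b0 + b1 + b2 + u ^ 2) := by ring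
          rw [this]; omega
        · right
          rw [h2, hu]
          have : 3 + 8 * (b0 + b1 + b2) + 2 * (2 * u + 1) ^ 2 =
              5 + 8 * (b0 + b1 + b2 + u ^ 2 + u) := by ring
          rw [this]; omega
      have hmodd : Odd m := by rw [Int.odd_iff]; omega
      have hDeven : Even D := by
        obtain ⟨t, ht⟩ := hns
        obtain ⟨k, hk⟩ := hmodd
        obtain ⟨u, hu⟩ := Int.even_mul_succ_self s
        refine ⟨k * n + t + s - u, ?_⟩
        rw [hDdef, hk]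
        have h3 : n = s + (t + t) := by linarith
        rw [h3]
        nlinarith
      obtain ⟨D₁, hD₁⟩ := hDeven
      have hD₁0 : 0 < D₁ := by omega
      have hD₁2 : m * n - s ^ 2 = 2 * D₁ := by rw [← hDdef, hD₁]; ring
      obtain ⟨C, hC0, hCc, hCd, hCχ⟩ := residue_ch m n s D₁ hm0 hm8 hs1 hD₁0 hD₁2
      have hδ : ((D₁.toNat : ℕ) : ℤ) = D₁ := Int.toNat_of_nonneg hD₁0.le
      have hΔ4 : Qs w₀ * n - 2 * s ^ 2 = 4 * D₁ := by rw [hΔD, hD₁]; ring
      refine ⟨D₁.toNat, 2, C, 2 * D₁, by omega, Or.inr (by rw [hδ, hΔ4]), fun k => ?_,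
        Or.inr rfl, hC0, hCc, hCχ, ?_⟩
      · have h1 : (Qs w₀ * n - 2 * s ^ 2).toNat = 4 * D₁.toNat := by rw [hΔ4]; omega
        rw [h1, chi_four]
      · intro g c hg hc h16 β hβ
        obtain ⟨hcc, hgc, hdv⟩ := cop_of g c _ C hCc h16
        rw [hδ] at hcc hgc hdv
        have hc4 : IsCoprime (c : ℤ) (4 * D₁) := by
          have h1 : IsCoprime (c : ℤ) 2 := hcc.of_mul_right_left
          have h2 := h1.mul_right hcc
          rwa [show (2 : ℤ) * (2 * D₁) = 4 * D₁ by ring] at h2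
        have hd1 : 4 * D₁ ∣ m * (g : ℤ) ^ 2 * c + 1 := by
          have h1 : m * (g : ℤ) ^ 2 * c + 1 = m * ((g : ℤ) ^ 2 * c - C) + (m * C + 1) := by ring
          rw [h1]
          exact dvd_add (Dvd.dvd.mul_left ((Dvd.intro 4 (by ring : 4 * D₁ * 4 = 16 * D₁)).trans hdv) m)
            hCd
        obtain ⟨d1, hd1⟩ := hd1
        obtain ⟨b, hb, hbd⟩ := exists_b c D₁.toNat (2 * D₁) hcc.symm β hβ
        rw [hδ] at hbd
        have h5 : (c : ℤ) ∣ 4 * D₁ * b ^ 2 + 1 := by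
          have h6 : (c : ℤ) ∣ D₁ * (4 * D₁ * b ^ 2 + 1) := by
            rw [show D₁ * (4 * D₁ * b ^ 2 + 1) = (2 * D₁ * b) ^ 2 + D₁ by ring]
            exact hbd
          exact (hcc.of_mul_right_right).dvd_of_dvd_mul_left h6
        have h7 : (c : ℤ) ∣ d1 + b ^ 2 := by
          have h8 : (c : ℤ) ∣ 4 * D₁ * (d1 + b ^ 2) := by
            rw [show 4 * D₁ * (d1 + b ^ 2) = (4 * D₁ * b ^ 2 + 1) + m * (g : ℤ) ^ 2 * c by
              linear_combination (-1 : ℤ) * hd1]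
            exact dvd_add h5 (Dvd.intro_left _ rfl)
          exact hc4.dvd_of_dvd_mul_left h8
        obtain ⟨a1, ha1⟩ := h7
        obtain ⟨w, x, e, f, hInW, hF⟩ := frame_even w₀ hw heven n s g (2 * a1) (2 * b) (2 * c) hs1 hn
          hD (by positivity) (by
            rw [← hm, ← hDdef, hD₁]
            linear_combination 2 * (-hd1) + 8 * D₁ * (-ha1) ) (fun _ =>
            ⟨even_two_mul _, even_two_mul _, hns⟩) (fun h => absurd hCh h)
        have hwe : Even (w 3) := by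
          rw [← Int.not_odd_iff_even, ← odd_Qs, hInW.2.1, odd_Qs, Int.not_odd_iff_even]
          exact heven
        obtain ⟨hv1, hv2⟩ := vs_even w hwe
        rw [hInW.2.1, hQm] at hv1
        have hvv : B (vs w) (vs w) = 1 * m := by linarith
        have hvx : B (vs w) x = 1 * s := by rw [hv2, hF.hs]; ring
        obtain ⟨hb1, hb2, hb3⟩ := orth_basis (vs w) x e f 1 m s n g (2 * b) (2 * c) D hF.det
          one_ne_zero hm0.ne' hvv hvx hF.hx hF.he hF.hxe hF.hf hF.hxf hF.hef hF.hff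
          (by rw [hDdef]; ring) (by positivity) hs1 (by
            rw [hD₁, ← two_mul]; exact hgc)
        refine ⟨w, x, e, f, b, hInW, by push_cast; exact hF, hb, -(2 * D₁ * b),
          D₁ * (D * Q e - m * (g : ℤ) ^ 2), _, ?_, hb1, fun i j => ?_⟩
        · rw [hδ]
          rw [hD₁] at hb3 ⊢
          have h9 : 2 * D₁ * (Q e * c - 2 * b ^ 2) - m * (g : ℤ) ^ 2 * c = 1 := by linarith
          linear_combination D₁ * h9
        · rw [hb2, hD₁]
          push_cast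
          ring
    · -- not characteristic
      have hodd := hs3 hCh
      obtain ⟨C, hC0, hCc, hCd, hCχ⟩ := residue_even m n s hm0 hs1 hD hodd
      rw [← hΔD] at hCc hCχ
      set δ := (Qs w₀ * n - 2 * s ^ 2).toNat with hδdef
      have hδ : (δ : ℤ) = 2 * D := by
        rw [hδdef, Int.toNat_of_nonneg hΔ.le, hΔD]
      refine ⟨δ, 1, C, D, by omega, Or.inl (by rw [hδ, hΔD]), fun k => rfl,
        Or.inl rfl, hC0, hCc, hCχ, ?_⟩
      intro g c hg hc h16 β hβ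
      obtain ⟨hcc, hgc, hdv⟩ := cop_of g c _ C hCc h16
      rw [hδ] at hcc hgc hdv
      have hcD : IsCoprime (c : ℤ) D := hcc.of_mul_right_right.of_mul_right_right
      have hgD : IsCoprime (g : ℤ) D := hgc.of_mul_right_right.of_mul_right_right
      have hd1 : D ∣ m * (g : ℤ) ^ 2 * c + 2 := by
        have h1 : m * (g : ℤ) ^ 2 * c + 2 = m * ((g : ℤ) ^ 2 * c - C) + (m * C + 2) := by ring
        rw [h1]
        exact dvd_add (Dvd.dvd.mul_left ((Dvd.intro 32 (by ring : D * 32 = 16 * (2 * D))).trans hdv) m)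
          hCd
      obtain ⟨d1, hd1⟩ := hd1
      obtain ⟨b, hb, hbd⟩ := exists_b c δ D hcD.symm β hβ
      rw [hδ] at hbd
      have h5 : (c : ℤ) ∣ D * b ^ 2 + 2 := by
        have h6 : (c : ℤ) ∣ D * (D * b ^ 2 + 2) := by
          rw [show D * (D * b ^ 2 + 2) = (D * b) ^ 2 + 2 * D by ring]
          exact hbd
        exact hcD.dvd_of_dvd_mul_left h6
      have h7 : (c : ℤ) ∣ d1 + b ^ 2 := by
        have h8 : (c : ℤ) ∣ D * (d1 + b ^ 2) := by
          rw [show D * (d1 + b ^ 2) = (D * b ^ 2 + 2) + m * (g : ℤ) ^ 2 * c by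
            linear_combination (-1 : ℤ) * hd1]
          exact dvd_add h5 (Dvd.intro_left _ rfl)
        exact hcD.dvd_of_dvd_mul_left h8
      obtain ⟨a1, ha1⟩ := h7
      have hcodd : Odd (c : ℤ) := by
        have h1 : IsCoprime (c : ℤ) 2 := hcc.of_mul_right_left
        rw [← Int.not_even_iff_odd]
        rintro ⟨t, ht⟩
        have h2 : (2 : ℤ) ∣ c := ⟨t, by linarith⟩
        have h3 := h1.isUnit_of_dvd' h2 dvd_rfl
        rw [Int.isUnit_iff] at h3
        omega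
      obtain ⟨w, x, e, f, hInW, hF⟩ := frame_even w₀ hw heven n s g a1 b c hs1 hn
        hD (by positivity) (by
          rw [← hm, ← hDdef]
          linear_combination (-hd1) + D * (-ha1)) (fun h => absurd h hCh) (fun _ => hcodd)
      have hwe : Even (w 3) := by
        rw [← Int.not_odd_iff_even, ← odd_Qs, hInW.2.1, odd_Qs, Int.not_odd_iff_even]
        exact heven
      obtain ⟨hv1, hv2⟩ := vs_even w hwe
      rw [hInW.2.1, hQm] at hv1
      have hvv : B (vs w) (vs w) = 1 * m := by linarith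
      have hvx : B (vs w) x = 1 * s := by rw [hv2, hF.hs]; ring
      obtain ⟨hb1, hb2, hb3⟩ := orth_basis (vs w) x e f 1 m s n g b c D hF.det
        one_ne_zero hm0.ne' hvv hvx hF.hx hF.he hF.hxe hF.hf hF.hxf hF.hef hF.hff
        (by rw [hDdef]; ring) (by positivity) hs1 hgD
      refine ⟨w, x, e, f, b, hInW, by push_cast; rw [one_mul, one_mul]; exact hF, hb, -(D * b),
        D * (D * Q e - m * (g : ℤ) ^ 2), _, ?_, hb1, fun i j => ?_⟩
      · rw [hδ]
        linear_combination D * hb3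
      · rw [hb2]
        push_cast
        ring
  · -- `w₀ 3` odd
    obtain ⟨hs1, hs2⟩ := hs.1 hodd
    obtain ⟨C, hC0, hCc, hCd, hCχ⟩ := residue_odd (Qs w₀) n s ((odd_Qs w₀).mpr hodd) hQpos hs1 hΔ hs2
    set D := Qs w₀ * n - 2 * s ^ 2 with hDdef
    have hδ : ((D.toNat : ℕ) : ℤ) = D := Int.toNat_of_nonneg hΔ.le
    refine ⟨D.toNat, 1, C, D, by omega, Or.inl hδ, fun k => rfl,
      Or.inl rfl, hC0, hCc, hCχ, ?_⟩
    intro g c hg hc h16 β hβ
    obtain ⟨hcc, hgc, hdv⟩ := cop_of g c _ C hCc h16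
    rw [hδ] at hcc hgc hdv
    have hcD : IsCoprime (c : ℤ) D := hcc.of_mul_right_right
    have hgD : IsCoprime (g : ℤ) D := hgc.of_mul_right_right
    have hd1 : D ∣ Qs w₀ * (g : ℤ) ^ 2 * c + 1 := by
      have h1 : Qs w₀ * (g : ℤ) ^ 2 * c + 1 =
        Qs w₀ * ((g : ℤ) ^ 2 * c - C) + (Qs w₀ * C + 1) := by ring
      rw [h1]
      exact dvd_add (Dvd.dvd.mul_left ((Dvd.intro 16 (by ring : D * 16 = 16 * D)).trans hdv) _)
        hCd
    obtain ⟨d1, hd1⟩ := hd1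
    obtain ⟨b, hb, hbd⟩ := exists_b c D.toNat D hcD.symm β hβ
    rw [hδ] at hbd
    have h5 : (c : ℤ) ∣ D * b ^ 2 + 1 := by
      have h6 : (c : ℤ) ∣ D * (D * b ^ 2 + 1) := by
        rw [show D * (D * b ^ 2 + 1) = (D * b) ^ 2 + D by ring]
        exact hbd
      exact hcD.dvd_of_dvd_mul_left h6
    have h7 : (c : ℤ) ∣ d1 + b ^ 2 := by
      have h8 : (c : ℤ) ∣ D * (d1 + b ^ 2) := by
        rw [show D * (d1 + b ^ 2) = (D * b ^ 2 + 1) + Qs w₀ * (g : ℤ) ^ 2 * c by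
          linear_combination (-1 : ℤ) * hd1]
        exact dvd_add h5 (Dvd.intro_left _ rfl)
      exact hcD.dvd_of_dvd_mul_left h8
    obtain ⟨a1, ha1⟩ := h7
    obtain ⟨w, x, e, f, hInW, hF⟩ := frame_odd w₀ hw hodd n s g a1 b c hs1 hn
      hΔ (by positivity) (by
        rw [← hDdef]
        linear_combination (-hd1) + D * (-ha1))
    have hwo : Odd (w 3) := by
      rw [← odd_Qs, hInW.2.1, odd_Qs]
      exact hodd
    obtain ⟨hv1, hv2⟩ := vs_odd w hwo
    rw [hInW.2.1] at hv1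
    have hvx : B (vs w) x = 2 * s := by rw [hv2, hF.hs]
    obtain ⟨hb1, hb2, hb3⟩ := orth_basis (vs w) x e f 2 (Qs w₀) s n g b c D hF.det
      two_ne_zero hQpos.ne' hv1 hvx hF.hx hF.he hF.hxe hF.hf hF.hxf hF.hef hF.hff
      hDdef (by positivity) hs1 hgD
    refine ⟨w, x, e, f, b, hInW, by push_cast; rw [one_mul, one_mul]; exact hF, hb, -(D * b),
      D * (D * Q e - Qs w₀ * (g : ℤ) ^ 2), _, ?_, hb1, fun i j => ?_⟩
    · rw [hδ]
      have h9 : D * (Q e * c - b ^ 2) - Qs w₀ * (g : ℤ) ^ 2 * c = 1 := by linarith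
      linear_combination D * h9
    · rw [hb2]
      push_cast
      ring

end Pool.Agent.LX
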