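import Pool.Agent.LX.Defs
import Pool.Agent.LX.Chi
import Pool.Agent.LX.Family

/-!
LX-E7: existence of a pair `(w, x)`.
-/

set_option autoImplicit false

open Matrix

namespace Pool.Agent.LX

theorem pe_chi_mod (D : ℕ) (hD : 1 ≤ D) (k : ℕ) : chi D k = chi D (k % (16 * D)) := by
  have h1 : ∀ j k : ℕ, chi D (k + 16 * D * j) = chi D k := by
    intro j
    induction j with
    | zero => intro k; rw [mul_zero, add_zero]
    | succ j ih =>
      intro k
      have h2 : k + 16 * D * (j + 1) = k + 16 * D * j + 4 * D + 4 * D + 4 * D + 4 * D := by ring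
      rw [h2, chi_add D _ hD, chi_add D _ hD, chi_add D _ hD, chi_add D _ hD, ih]
  have h3 := h1 (k / (16 * D)) (k % (16 * D))
  rw [Nat.mod_add_div] at h3
  exact h3

theorem pair_exists (w₀ : Fin 4 → ℤ) (hw : Prim w₀) (n s : ℤ) (hs : GoodS w₀ n s) (hn : 0 < n)
    (hΔ : 0 < Qs w₀ * n - 2 * s ^ 2) :
    ∃ w x : Fin 4 → ℤ, InW w₀ w ∧ Q x = n ∧ dot w x = s := by
  obtain ⟨δ, ε, C₀, r, hδ, -, -, -, hC0, hcop, hchi, hfam⟩ := family w₀ hw n s hs hn hΔ
  have hne : NeZero (16 * δ) := ⟨by omega⟩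
  have hcop16 : Nat.Coprime C₀ (16 * δ) := by
    have h1 : Nat.Coprime C₀ 2 := Nat.Coprime.coprime_mul_right_right hcop
    have h2 : Nat.Coprime C₀ δ := Nat.Coprime.coprime_mul_left_right hcop
    have h3 : Nat.Coprime C₀ (2 ^ 4) := h1.pow_right 4
    exact Nat.Coprime.mul_right h3 h2
  have hunit : IsUnit (C₀ : ZMod (16 * δ)) := (ZMod.isUnit_iff_coprime _ _).2 hcop16
  obtain ⟨c, hc1, hcp, hc⟩ := Nat.forall_exists_prime_gt_and_eq_mod hunit 2
  have hmod : c % (16 * δ) = C₀ % (16 * δ) := (ZMod.natCast_eq_natCast_iff' _ _ _).1 hc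
  have hchic : chi δ c = 1 := by
    rw [pe_chi_mod δ hδ c, hmod, ← pe_chi_mod δ hδ C₀, hchi]
  have hodd : Odd c := hcp.odd_of_ne_two (by omega)
  have hfact : Fact c.Prime := ⟨hcp⟩
  unfold chi at hchic
  rw [if_pos hodd, ← jacobiSym.legendreSym.to_jacobiSym] at hchic
  have h0 : ((-(δ : ℤ) : ℤ) : ZMod c) ≠ 0 := by
    intro h
    rw [(legendreSym.eq_zero_iff c _).2 h] at hchic
    exact zero_ne_one hchic
  obtain ⟨β, hβ⟩ := (legendreSym.eq_one_iff c h0).1 hchic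
  obtain ⟨w, x, e, f, b, hwW, hF, -⟩ := hfam 1 c one_pos hcp.pos
    (by rw [one_pow, one_mul, hmod]) β (by
      rw [pow_two, ← hβ]
      push_cast
      ring)
  exact ⟨w, x, hwW, hF.hx, hF.hs⟩

end Pool.Agent.LX
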