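import Pool.Agent.LX.Defs

set_option autoImplicit false

/-!
LX-19: elementary congruences for the unit step (part D6).
-/

namespace Pool.Agent.LX

theorem ua_crt {a b : ℤ} (h : IsCoprime a b) (x y : ℤ) : ∃ z, a ∣ z - x ∧ b ∣ z - y := by
  obtain ⟨u, v, huv⟩ := h
  refine ⟨x * (v * b) + y * (u * a), ⟨u * (y - x), ?_⟩, ⟨v * (x - y), ?_⟩⟩
  · have : v * b = 1 - u * a := by linarith
    rw [this]; ring
  · have : u * a = 1 - v * b := by linarith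
    rw [this]; ring

theorem ua_coprime_of_dvd {s s' a : ℤ} (h : a ∣ s' - s) (hs : IsCoprime s a) : IsCoprime s' a := by
  obtain ⟨t, ht⟩ := h
  have : s' = s + a * t := by linarith
  rw [this]
  exact (IsCoprime.add_mul_left_left_iff).2 hs

theorem ua_dvd_of_dvd {c X s k X' s' k' a : ℤ} (hX : a ∣ X' - X) (hs : a ∣ s' - s)
    (hk : a ∣ k' - k) (h : a ∣ c * k ^ 2 - X ^ 2 + 2 * s ^ 2) :
    a ∣ c * k' ^ 2 - X' ^ 2 + 2 * s' ^ 2 := by
  obtain ⟨x, hx⟩ := hX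
  obtain ⟨y, hy⟩ := hs
  obtain ⟨z, hz⟩ := hk
  obtain ⟨w, hw⟩ := h
  have e1 : X' = X + a * x := by linarith
  have e2 : s' = s + a * y := by linarith
  have e3 : k' = k + a * z := by linarith
  refine ⟨w + c * (2 * k * z + a * z ^ 2) - (2 * X * x + a * x ^ 2) +
    2 * (2 * s * y + a * y ^ 2), ?_⟩
  rw [e1, e2, e3]
  linear_combination hw

theorem ua_prime (p : ℕ) [Fact p.Prime] (hp : p ≠ 2) (a : ℕ) (c : ℤ)
    (hc : IsCoprime c (p : ℤ)) : ∃ X s k : ℤ, (p : ℤ) ^ a ∣ c * k ^ 2 - X ^ 2 + 2 * s ^ 2 ∧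
      IsCoprime s (p : ℤ) ∧ IsCoprime k (p : ℤ) := by
  have hpp : p.Prime := Fact.out
  have hpZ : Prime (p : ℤ) := Nat.prime_iff_prime_int.1 hpp
  have hcop : ∀ x : ℤ, IsCoprime x (p : ℤ) ↔ ((x : ZMod p) ≠ 0) := by
    intro x
    rw [isCoprime_comm, hpZ.coprime_iff_not_dvd, ne_eq, ZMod.intCast_zmod_eq_zero_iff_dvd]
  have h2 : (2 : ZMod p) ≠ 0 := by
    intro h
    have : ((2 : ℕ) : ZMod p) = 0 := by exact_mod_cast h
    rw [ZMod.natCast_eq_zero_iff] at this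
    exact hp ((Nat.prime_dvd_prime_iff_eq hpp Nat.prime_two).1 this)
  -- a solution modulo `p`
  have hsol : ∃ x y : ZMod p, x ^ 2 - 2 * y ^ 2 = (c : ZMod p) ∧ y ≠ 0 := by
    have hodd : Fintype.card (ZMod p) % 2 = 1 := by
      rw [ZMod.card]
      exact (hpp.eq_two_or_odd).resolve_left hp
    have hd1 : (Polynomial.X ^ 2 - Polynomial.C (c : ZMod p)).degree = 2 :=
      Polynomial.degree_X_pow_sub_C (by norm_num) _
    have hd2 : (-Polynomial.C (2 : ZMod p) * Polynomial.X ^ 2).degree = 2 := by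
      rw [neg_mul, Polynomial.degree_neg, Polynomial.degree_C_mul_X_pow 2 h2]
      rfl
    obtain ⟨x, y, hxy⟩ := FiniteField.exists_root_sum_quadratic hd1 hd2 hodd
    simp only [Polynomial.eval_sub, Polynomial.eval_pow, Polynomial.eval_X, Polynomial.eval_C,
      Polynomial.eval_mul, Polynomial.eval_neg] at hxy
    by_cases hy : y = 0
    · rw [hy] at hxy
      have hx : x ^ 2 = (c : ZMod p) := by linear_combination hxy
      have hc0 : (c : ZMod p) ≠ 0 := (hcop c).1 hc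
      have hx0 : x ≠ 0 := by
        intro h
        rw [h] at hx
        exact hc0 (by rw [← hx]; ring)
      exact ⟨3 * x, 2 * x, by linear_combination hx, mul_ne_zero h2 hx0⟩
    · exact ⟨x, y, by linear_combination hxy, hy⟩
  obtain ⟨x, y, hxy, hy⟩ := hsol
  obtain ⟨X, rfl⟩ := ZMod.intCast_surjective x
  obtain ⟨s, rfl⟩ := ZMod.intCast_surjective y
  -- an inverse of `c`
  obtain ⟨c', d', hcd⟩ := (hc.pow_right (n := a) : IsCoprime c ((p : ℤ) ^ a))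
  obtain ⟨c'', d'', hcd'⟩ : IsCoprime c ((p : ℤ) ^ (a + 1)) := hc.pow_right
  set u : ℤ := c'' * (X ^ 2 - 2 * s ^ 2) with hu
  have hu1 : (p : ℤ) ∣ u - 1 := by
    rw [← ZMod.intCast_zmod_eq_zero_iff_dvd]
    have h3 : ((c'' * c : ℤ) : ZMod p) = 1 := by
      have h4 : ((c'' * c + d'' * (p : ℤ) ^ (a + 1) : ℤ) : ZMod p) = 1 := by rw [hcd']; simp
      push_cast at h4 ⊢
      rw [ZMod.natCast_self, zero_pow (Nat.succ_ne_zero a), mul_zero, add_zero] at h4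
      exact h4
    rw [hu]
    push_cast at h3 ⊢
    rw [hxy, h3, sub_self]
  have hpow : (p : ℤ) ^ (a + 1) ∣ u ^ p ^ a - 1 := by
    have := dvd_sub_pow_of_dvd_sub (R := ℤ) (p := p) hu1 a
    rwa [one_pow] at this
  have hodd : Odd (p ^ a) := (hpp.odd_of_ne_two hp).pow
  obtain ⟨l, hl⟩ := hodd
  refine ⟨X, s, u ^ (l + 1), ?_, (hcop s).2 hy, ?_⟩
  · have hk : (u ^ (l + 1)) ^ 2 = u * u ^ p ^ a := by
      rw [hl]; ring
    rw [hk]
    have h5 : (p : ℤ) ^ a ∣ u ^ p ^ a - 1 := (pow_dvd_pow _ (Nat.le_succ a)).trans hpow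
    have h6 : (p : ℤ) ^ a ∣ c * u - (X ^ 2 - 2 * s ^ 2) := by
      have h7 : (p : ℤ) ^ a ∣ (p : ℤ) ^ (a + 1) := pow_dvd_pow _ (Nat.le_succ a)
      have h8 : c * u - (X ^ 2 - 2 * s ^ 2) = (p : ℤ) ^ (a + 1) * (-(d'' * (X ^ 2 - 2 * s ^ 2))) := by
        rw [hu]
        linear_combination (X ^ 2 - 2 * s ^ 2) * hcd'
      rw [h8]
      exact h7.mul_right _
    have h9 : c * (u * u ^ p ^ a) - X ^ 2 + 2 * s ^ 2 =
        c * u * (u ^ p ^ a - 1) + (c * u - (X ^ 2 - 2 * s ^ 2)) := by ring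
    rw [h9]
    exact dvd_add (h5.mul_left _) h6
  · refine IsCoprime.pow_left ?_
    obtain ⟨t, ht⟩ := hu1
    exact ⟨1, -t, by linear_combination ht⟩

theorem ua_odd (N : ℕ) : Odd N → ∀ c : ℤ, IsCoprime c (N : ℤ) → ∃ X s k : ℤ,
    (N : ℤ) ∣ c * k ^ 2 - X ^ 2 + 2 * s ^ 2 ∧ IsCoprime s (N : ℤ) ∧ IsCoprime k (N : ℤ) := by
  induction N using Nat.recOnPosPrimePosCoprime with
  | prime_pow p n hp hn =>
    intro hodd c hc
    have : Fact p.Prime := ⟨hp⟩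
    have hp2 : p ≠ 2 := by
      rintro rfl
      exact (Nat.not_odd_iff_even.2 ((even_two).pow_of_ne_zero hn.ne')) hodd
    rw [Nat.cast_pow] at hc ⊢
    have hc' : IsCoprime c (p : ℤ) := (IsCoprime.pow_right_iff hn).1 hc
    obtain ⟨X, s, k, h1, h2, h3⟩ := ua_prime p hp2 n c hc'
    exact ⟨X, s, k, h1, h2.pow_right, h3.pow_right⟩
  | zero => intro h; exact absurd h (by decide)
  | one =>
    intro _ c _
    exact ⟨0, 0, 0, by simp, by simpa using isCoprime_one_right, by simpa using isCoprime_one_right⟩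
  | coprime a b ha hb hab iha ihb =>
    intro hodd c hc
    rw [Nat.cast_mul] at hc ⊢
    have hc1 : IsCoprime c (a : ℤ) := hc.of_mul_right_left
    have hc2 : IsCoprime c (b : ℤ) := hc.of_mul_right_right
    obtain ⟨X₁, s₁, k₁, h1, h2, h3⟩ := iha (Nat.odd_mul.1 hodd).1 c hc1
    obtain ⟨X₂, s₂, k₂, h4, h5, h6⟩ := ihb (Nat.odd_mul.1 hodd).2 c hc2
    have hab' : IsCoprime (a : ℤ) (b : ℤ) := Nat.isCoprime_iff_coprime.2 hab
    obtain ⟨X, hX1, hX2⟩ := ua_crt hab' X₁ X₂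
    obtain ⟨s, hs1, hs2⟩ := ua_crt hab' s₁ s₂
    obtain ⟨k, hk1, hk2⟩ := ua_crt hab' k₁ k₂
    refine ⟨X, s, k, ?_, ?_, ?_⟩
    · exact hab'.mul_dvd (ua_dvd_of_dvd hX1 hs1 hk1 h1) (ua_dvd_of_dvd hX2 hs2 hk2 h4)
    · exact (ua_coprime_of_dvd hs1 h2).mul_right (ua_coprime_of_dvd hs2 h5)
    · exact (ua_coprime_of_dvd hk1 h3).mul_right (ua_coprime_of_dvd hk2 h6)

/-- A solution modulo the odd number `N` which is close to a given triple at `2`, with `k`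
large. -/
theorem ua_main (N : ℕ) (hN : Odd N) (E : ℕ) (c : ℤ) (hc0 : 0 < c) (hc : IsCoprime c (N : ℤ))
    (X₀ s₀ k₀ : ℤ) : ∃ X s k : ℤ,
      (N : ℤ) ∣ c * k ^ 2 - X ^ 2 + 2 * s ^ 2 ∧ IsCoprime s (N : ℤ) ∧ IsCoprime k (N : ℤ) ∧
      2 ^ E ∣ X - X₀ ∧ 2 ^ E ∣ s - s₀ ∧ 2 ^ E ∣ k - k₀ ∧ 0 < k ∧ 0 < c * k ^ 2 - X ^ 2 := by
  obtain ⟨X₁, s₁, k₁, h1, h2, h3⟩ := ua_odd N hN c hc
  have hcop : IsCoprime (N : ℤ) (2 ^ E : ℤ) := by
    refine IsCoprime.pow_right ?_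
    have : IsCoprime (N : ℤ) ((2 : ℕ) : ℤ) :=
      Nat.isCoprime_iff_coprime.2 (Nat.coprime_two_right.2 hN)
    exact_mod_cast this
  obtain ⟨X, hX1, hX2⟩ := ua_crt hcop X₁ X₀
  obtain ⟨s, hs1, hs2⟩ := ua_crt hcop s₁ s₀
  obtain ⟨k, hk1, hk2⟩ := ua_crt hcop k₁ k₀
  have hN0 : 0 < (N : ℤ) := by
    have : N ≠ 0 := by rintro rfl; exact absurd hN (by decide)
    exact_mod_cast Nat.pos_of_ne_zero this
  set m : ℤ := N * 2 ^ E with hm
  have hm1 : 1 ≤ m := by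
    have : 0 < m := by positivity
    omega
  set k' : ℤ := k + m * (|k| + |X| + 1) with hk'
  have hbig : |X| + 1 ≤ k' := by
    have h4 : |k| + |X| + 1 ≤ m * (|k| + |X| + 1) := by
      have : 0 ≤ |k| + |X| + 1 := by positivity
      nlinarith
    have h5 := neg_abs_le k
    rw [hk']
    linarith
  have hd1 : (N : ℤ) ∣ k' - k₁ := by
    have : k' - k₁ = (k - k₁) + N * (2 ^ E * (|k| + |X| + 1)) := by rw [hk', hm]; ring
    rw [this]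
    exact dvd_add hk1 (dvd_mul_right _ _)
  have hd2 : (2 : ℤ) ^ E ∣ k' - k₀ := by
    have : k' - k₀ = (k - k₀) + 2 ^ E * (N * (|k| + |X| + 1)) := by rw [hk', hm]; ring
    rw [this]
    exact dvd_add hk2 (dvd_mul_right _ _)
  refine ⟨X, s, k', ua_dvd_of_dvd hX1 hs1 hd1 h1, ua_coprime_of_dvd hs1 h2,
    ua_coprime_of_dvd hd1 h3, hX2, hs2, hd2, ?_, ?_⟩
  · have := abs_nonneg X
    linarith
  · have h6 := abs_nonneg X
    have h7 : |X| ^ 2 < k' ^ 2 := by nlinarith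
    have h8 : k' ^ 2 ≤ c * k' ^ 2 := by nlinarith [sq_nonneg k']
    rw [sq_abs] at h7
    linarith

/-- An integer which is `1` modulo `8` is a square modulo every power of two. -/
theorem ua_sqrt (a : ℤ) (ha : a % 8 = 1) (E : ℕ) : ∃ x : ℤ, Odd x ∧ 2 ^ (E + 3) ∣ x ^ 2 - a := by
  induction E with
  | zero => exact ⟨1, by decide, by norm_num; omega⟩
  | succ E ih =>
    obtain ⟨x, ⟨y, hy⟩, t, ht⟩ := ih
    rcases Int.even_or_odd t with ⟨r, hr⟩ | ⟨r, hr⟩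
    · refine ⟨x, ⟨y, hy⟩, r, ?_⟩
      rw [ht, hr]; ring
    · refine ⟨x + 2 ^ (E + 2), ⟨y + 2 ^ (E + 1), by rw [hy]; ring⟩, r + y + 1 + 2 ^ E, ?_⟩
      have e1 : (x + 2 ^ (E + 2)) ^ 2 - a = (x ^ 2 - a) + 2 ^ (E + 3) * x + 2 ^ (2 * E + 4) := by
        ring
      rw [e1, ht, hr, hy]
      ring

theorem ua_odd_of_dvd {E : ℕ} {x x₀ : ℤ} (h : (2 : ℤ) ^ (E + 1) ∣ x - x₀) (h0 : Odd x₀) :
    Odd x := by
  have h1 : (2 : ℤ) ∣ x - x₀ := (dvd_pow_self 2 (Nat.succ_ne_zero E)).trans h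
  obtain ⟨t, ht⟩ := h1
  obtain ⟨y, hy⟩ := h0
  exact ⟨t + y, by linarith⟩

theorem ua_sq_mod {x : ℤ} (h : Odd x) : x ^ 2 % 8 = 1 := by
  obtain ⟨y, rfl⟩ := h
  have h1 : (2 * y + 1) ^ 2 = 4 * (y * (y + 1)) + 1 := by ring
  obtain ⟨r, hr⟩ := Int.even_mul_succ_self y
  rw [h1, hr]
  omega

/-- LX-D6a UnitsArith.lean -/
theorem units_arith_odd (M c : ℤ) (hM : Odd M) (hM0 : 0 < M) (hc : c % 8 = 7) (hc0 : 0 < c)
    (hcop : IsCoprime c M) : ∃ k X s n : ℤ, k ≠ 0 ∧ 0 < n ∧ M * n = c * k ^ 2 - X ^ 2 + 2 * s ^ 2 ∧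
      IsCoprime s M ∧ IsCoprime (c * k ^ 2) M ∧ Odd (c * k ^ 2) ∧ (M * n - 2 * s ^ 2) % 4 = 2 ∧
      0 < M * n - 2 * s ^ 2 := by
  obtain ⟨N, rfl⟩ := Int.eq_ofNat_of_zero_le hM0.le
  have hN : Odd N := by exact_mod_cast hM
  obtain ⟨X, s, k, ⟨n, hn⟩, h2, h3, h4, -, h6, h7, h8⟩ := ua_main N hN 1 c hc0 hcop 1 0 1
  have hX : Odd X := ua_odd_of_dvd h4 (by decide)
  have hk : Odd k := ua_odd_of_dvd h6 (by decide)
  have hX8 := ua_sq_mod hX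
  have hk8 := ua_sq_mod hk
  have hck : c * k ^ 2 % 8 = 7 := by rw [Int.mul_emod, hc, hk8]; rfl
  have hval : (N : ℤ) * n - 2 * s ^ 2 = c * k ^ 2 - X ^ 2 := by rw [← hn]; ring
  refine ⟨k, X, s, n, h7.ne', ?_, hn.symm, h2, hcop.mul_left (h3.pow_left), ?_, ?_, ?_⟩
  · have h9 : 0 < (N : ℤ) * n := by
      have := sq_nonneg s
      linarith
    exact pos_of_mul_pos_right h9 hM0.le
  · rw [Int.odd_iff]; omega
  · rw [hval]; omega
  · rw [hval]; exact h8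

/-- LX-D6a UnitsArith.lean -/
theorem units_arith_even (m c : ℤ) (hm0 : 0 < m) (hc : c % 8 = 7) (hc0 : 0 < c)
    (hcop : IsCoprime c (2 * m)) : ∃ k X s n : ℤ, k ≠ 0 ∧ 0 < n ∧
      2 * m * n = c * k ^ 2 - X ^ 2 + 2 * s ^ 2 ∧
      IsCoprime s m ∧ IsCoprime (c * k ^ 2) (2 * m) ∧ Odd (m * n - s ^ 2) ∧
      0 < m * n - s ^ 2 := by
  obtain ⟨m', rfl⟩ := Int.eq_ofNat_of_zero_le hm0.le
  have hm' : m' ≠ 0 := by
    rintro rfl
    exact absurd hm0 (by decide)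
  obtain ⟨e, N, hNodd, hmN⟩ := Nat.exists_eq_two_pow_mul_odd hm'
  have hmN' : ((m' : ℕ) : ℤ) = 2 ^ e * (N : ℤ) := by rw [hmN]; push_cast; ring
  have hcN : IsCoprime c (N : ℤ) := by
    have : IsCoprime c ((m' : ℕ) : ℤ) := hcop.of_mul_right_right
    rw [hmN'] at this
    exact this.of_mul_right_right
  obtain ⟨X₀, hX₀, hX₀'⟩ := ua_sqrt (c + 2) (by omega) e
  obtain ⟨X, s, k, h1, h2, h3, h4, h5, h6, h7, h8⟩ :=
    ua_main N hNodd (e + 3) c hc0 hcN X₀ 1 1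
  have hX : Odd X := ua_odd_of_dvd h4 hX₀
  have hs : Odd s := ua_odd_of_dvd h5 (by decide)
  have hk : Odd k := ua_odd_of_dvd h6 (by decide)
  have hX8 := ua_sq_mod hX
  have hk8 := ua_sq_mod hk
  have hck : c * k ^ 2 % 8 = 7 := by rw [Int.mul_emod, hc, hk8]; rfl
  have h2adic : (2 : ℤ) ^ (e + 3) ∣ c * k ^ 2 - X ^ 2 + 2 * s ^ 2 := by
    refine ua_dvd_of_dvd h4 h5 h6 ?_
    have : c * 1 ^ 2 - X₀ ^ 2 + 2 * 1 ^ 2 = -(X₀ ^ 2 - (c + 2)) := by ring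
    rw [this]
    exact hX₀'.neg_right
  have hcopN : IsCoprime ((2 : ℤ) ^ (e + 1)) (N : ℤ) := by
    refine IsCoprime.pow_left ?_
    have : IsCoprime ((2 : ℕ) : ℤ) (N : ℤ) :=
      Nat.isCoprime_iff_coprime.2 (Nat.coprime_two_left.2 hNodd)
    exact_mod_cast this
  have hdvd : (2 : ℤ) ^ (e + 1) * N ∣ c * k ^ 2 - X ^ 2 + 2 * s ^ 2 :=
    hcopN.mul_dvd ((pow_dvd_pow 2 (by omega)).trans h2adic) h1
  obtain ⟨n, hn⟩ := hdvd
  have hn' : 2 * ((m' : ℕ) : ℤ) * n = c * k ^ 2 - X ^ 2 + 2 * s ^ 2 := by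
    rw [hn, hmN']; ring
  have hval : 2 * (((m' : ℕ) : ℤ) * n - s ^ 2) = c * k ^ 2 - X ^ 2 := by linarith
  have hs2 : IsCoprime s (2 : ℤ) := by
    obtain ⟨y, hy⟩ := hs
    exact ⟨1, -y, by rw [hy]; ring⟩
  have hk2 : IsCoprime k (2 : ℤ) := by
    obtain ⟨y, hy⟩ := hk
    exact ⟨1, -y, by rw [hy]; ring⟩
  refine ⟨k, X, s, n, h7.ne', ?_, hn', ?_, ?_, ?_, ?_⟩
  · have h9 : 0 < ((m' : ℕ) : ℤ) * n := by
      have := sq_nonneg s
      linarith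
    exact pos_of_mul_pos_right h9 hm0.le
  · rw [hmN']
    exact hs2.pow_right.mul_right h2
  · refine hcop.mul_left ?_
    refine (IsCoprime.pow_left ?_)
    rw [hmN']
    exact hk2.mul_right (hk2.pow_right.mul_right h3)
  · rw [Int.odd_iff]; omega
  · omega

/-- LX-D6a UnitsArith.lean -/
theorem units_arith_ch (m c : ℤ) (hm : Odd m) (hm0 : 0 < m) (hc : c % 8 = 1) (hc0 : 0 < c)
    (hcop : IsCoprime c (2 * m)) : ∃ k X s n : ℤ, k ≠ 0 ∧ 0 < n ∧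
      2 * m * n = c * k ^ 2 - X ^ 2 + 2 * s ^ 2 ∧
      IsCoprime s m ∧ IsCoprime (c * k ^ 2) (2 * m) ∧ Even (n - s) ∧
      0 < m * n - s ^ 2 := by
  obtain ⟨N, rfl⟩ := Int.eq_ofNat_of_zero_le hm0.le
  have hN : Odd N := by exact_mod_cast hm
  have hcN : IsCoprime c ((N : ℕ) : ℤ) := hcop.of_mul_right_right
  obtain ⟨X, s, k, h1, h2, h3, h4, -, h6, h7, h8⟩ := ua_main N hN 1 c hc0 hcN 1 0 1
  have hX : Odd X := ua_odd_of_dvd h4 (by decide)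
  have hk : Odd k := ua_odd_of_dvd h6 (by decide)
  have hX8 := ua_sq_mod hX
  have hk8 := ua_sq_mod hk
  have hck : c * k ^ 2 % 8 = 1 := by rw [Int.mul_emod, hc, hk8]; rfl
  have hcop2 : IsCoprime (2 : ℤ) (N : ℤ) := by
    have : IsCoprime ((2 : ℕ) : ℤ) (N : ℤ) :=
      Nat.isCoprime_iff_coprime.2 (Nat.coprime_two_left.2 hN)
    exact_mod_cast this
  have hdvd : (2 : ℤ) * N ∣ c * k ^ 2 - X ^ 2 + 2 * s ^ 2 :=
    hcop2.mul_dvd (by omega) h1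
  obtain ⟨n, hn⟩ := hdvd
  have hval : 2 * (((N : ℕ) : ℤ) * n - s ^ 2) = c * k ^ 2 - X ^ 2 := by linarith
  have hk2 : IsCoprime k (2 : ℤ) := by
    obtain ⟨y, hy⟩ := hk
    exact ⟨1, -y, by rw [hy]; ring⟩
  refine ⟨k, X, s, n, h7.ne', ?_, hn.symm, h2, ?_, ?_, ?_⟩
  · have h9 : 0 < ((N : ℕ) : ℤ) * n := by
      have := sq_nonneg s
      linarith
    exact pos_of_mul_pos_right h9 hm0.le
  · refine hcop.mul_left ?_
    exact (IsCoprime.pow_left (hk2.mul_right h3))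
  · have h10 : Even (((N : ℕ) : ℤ) * n - s ^ 2) := by
      rw [Int.even_iff]; omega
    rw [Int.even_sub, Int.even_mul, Int.even_pow' two_ne_zero] at h10
    rw [Int.even_sub]
    have h11 : ¬ Even ((N : ℕ) : ℤ) := Int.not_even_iff_odd.2 hm
    tauto
  · omega

end Pool.Agent.LX
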