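import Pool.Agent.LX.Defs
import Pool.Agent.LX.PairEx
import Pool.Agent.LX.QuatBasic
import Pool.Agent.LX.Trans
import Pool.Agent.LX.UnitsArith

/-!
LX-D6: self relations whose norm is `7` modulo `8` (or `1` modulo `8`) up to squares.
-/

set_option autoImplicit false

open Matrix

namespace Pool.Agent.LX

/-- The quaternion `X + omega` of the pair `(w, x)`. -/
def unGam (w x : Fin 4 → ℤ) (X : ℤ) : HZ :=
  ⟨⟨X, 0⟩, ⟨w 3 * x 0 - 2 * x 3 * w 0, x 2 * w 1 - x 1 * w 2⟩,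
    ⟨w 3 * x 1 - 2 * x 3 * w 1, x 0 * w 2 - x 2 * w 0⟩,
    ⟨w 3 * x 2 - 2 * x 3 * w 2, x 1 * w 0 - x 0 * w 1⟩⟩

theorem unGam_norm (w x : Fin 4 → ℤ) (X s : ℤ) (h : dot w x = s) :
    Quaternion.normSq (unGam w x X) = ((X ^ 2 + (Qs w * Q x - 2 * s ^ 2) : ℤ) : Zsqrtd 2) := by
  subst h
  rw [Quaternion.normSq_def']
  unfold unGam dot Qs Q B
  apply Zsqrtd.ext
  · simp [pow_two]
    ring
  · simp [pow_two]
    ring

theorem unGam_comm (w x : Fin 4 → ℤ) (X : ℤ) :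
    unGam w x X * io (hat w) = io (hat w) * sg (unGam w x X) := by
  have h0 : hat w 0 = 2 * w 0 := rfl
  have h1 : hat w 1 = 2 * w 1 := rfl
  have h2 : hat w 2 = 2 * w 2 := rfl
  have h3 : hat w 3 = w 3 := rfl
  ext
  all_goals simp only [Quaternion.re_mul, Quaternion.imI_mul, Quaternion.imJ_mul,
    Quaternion.imK_mul]
  all_goals simp [unGam, io, sg, h0, h1, h2, h3]
  all_goals ring

theorem un_pos (w : Fin 4 → ℤ) (hw : Prim w) : 0 < Qs w := by
  obtain ⟨i, hi⟩ := hw 2 Nat.prime_two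
  have h0 : w i ≠ 0 := by
    intro h
    rw [h] at hi
    exact hi (dvd_zero _)
  have h1 : 0 < w i ^ 2 := by positivity
  unfold Qs
  have a0 := sq_nonneg (w 0)
  have a1 := sq_nonneg (w 1)
  have a2 := sq_nonneg (w 2)
  have a3 := sq_nonneg (w 3)
  fin_cases i
  · simp only [Fin.zero_eta, Fin.mk_one, Fin.reduceFinMk] at h1
    linarith
  · simp only [Fin.zero_eta, Fin.mk_one, Fin.reduceFinMk] at h1
    linarith
  · simp only [Fin.zero_eta, Fin.mk_one, Fin.reduceFinMk] at h1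
    linarith
  · simp only [Fin.zero_eta, Fin.mk_one, Fin.reduceFinMk] at h1
    linarith

/-- The pair `(w, x)` gives a self relation. -/
theorem un_self (w x : Fin 4 → ℤ) (X s N : ℤ) (h : dot w x = s)
    (hN : N = X ^ 2 + (Qs w * Q x - 2 * s ^ 2)) (hN0 : 0 < N) (hodd : Odd N) (M : ℤ)
    (hcop : IsCoprime N M) : Rel M (hat w) (hat w) N := by
  refine ⟨unGam w x X, ?_, hN0, unGam_comm w x X, ⟨N, hodd, fun y i => dvd_mul_right _ _⟩, ?_⟩
  · rw [unGam_norm w x X s h, hN]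
  · intro p hp _ hpN hpM
    have h1 : IsUnit (p : ℤ) := hcop.isUnit_of_dvd' hpN hpM
    exact (Nat.prime_iff_prime_int.1 hp).not_isUnit h1

/-- Transport of a self relation. -/
theorem un_transport (w w' : Fin 4 → ℤ) (hw : Prim w) (hw' : InW w w') (c k : ℤ) (hk : k ≠ 0)
    (h : Rel (Qs w) (hat w') (hat w') (c * k ^ 2)) :
    ∃ k : ℤ, k ≠ 0 ∧ Rel (Qs w) (hat w) (hat w) (c * k ^ 2) := by
  obtain ⟨c₁, h₁⟩ := rel_trans w w' hw hw'
  have hc : 0 < c₁ := by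
    obtain ⟨_, _, h2, _⟩ := h₁
    exact h2
  have h2 := (h₁.mul h).mul h₁.symm
  refine ⟨k * c₁, mul_ne_zero hk hc.ne', ?_⟩
  have h3 : c * (k * c₁) ^ 2 = c₁ * (c * k ^ 2) * c₁ := by ring
  rw [h3]
  exact h2

theorem un_even (w : Fin 4 → ℤ) (h3 : Even (w 3)) : Qs w = 2 * (Qs w / 2) := by
  obtain ⟨t, ht⟩ := h3
  have h1 : Qs w = 2 * (w 0 ^ 2 + w 1 ^ 2 + w 2 ^ 2 + 2 * t ^ 2) := by
    unfold Qs
    rw [ht]
    ring
  omega

theorem units_gen (w : Fin 4 → ℤ) (hw : Prim w) (hCh : ¬ Ch w) (c : ℤ) (hc : c % 8 = 7)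
    (hc0 : 0 < c) (hcop : IsCoprime c (Qs w)) :
    ∃ k : ℤ, k ≠ 0 ∧ Rel (Qs w) (hat w) (hat w) (c * k ^ 2) := by
  have hM0 := un_pos w hw
  rcases Int.even_or_odd (w 3) with h3 | h3
  · have h2 := un_even w h3
    have hm0 : 0 < Qs w / 2 := by omega
    obtain ⟨k, X, s, n, hk, hn, he, hs, hcop', hodd, hpos⟩ :=
      units_arith_even (Qs w / 2) c hm0 hc hc0 (by rw [← h2]; exact hcop)
    rw [← h2] at he hcop'
    obtain ⟨w', x, hw', hx, hd⟩ := pair_exists w hw n s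
      ⟨fun h => absurd h3 (Int.not_even_iff_odd.2 h), fun _ => ⟨hs, fun h => absurd h hCh,
        fun _ => hodd⟩⟩ hn (by
        have h4 : Qs w * n = 2 * (Qs w / 2 * n) := by
          rw [← mul_assoc, ← h2]
        linarith)
    refine un_transport w w' hw hw' c k hk (un_self w' x X s _ hd ?_ (by positivity) ?_ _ hcop')
    · rw [hw'.2.1, hx, he]
      ring
    · have h4 : IsCoprime (c * k ^ 2) 2 := by
        rw [h2] at hcop'
        exact hcop'.of_mul_right_left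
      exact Int.isCoprime_two_right.1 h4
  · have hMo : Odd (Qs w) := by
      unfold Qs
      exact (even_two_mul _).add_odd h3.pow
    obtain ⟨k, X, s, n, hk, hn, he, hs, hcop', hodd, h4, hpos⟩ :=
      units_arith_odd (Qs w) c hMo hM0 hc hc0 hcop
    obtain ⟨w', x, hw', hx, hd⟩ := pair_exists w hw n s
      ⟨fun _ => ⟨hs, Or.inr h4⟩, fun h => absurd h3 (Int.not_odd_iff_even.2 h)⟩ hn hpos
    refine un_transport w w' hw hw' c k hk (un_self w' x X s _ hd ?_ (by positivity) hodd _ hcop')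
    rw [hw'.2.1, hx, he]
    ring

theorem units_ch (w : Fin 4 → ℤ) (hw : Prim w) (hCh : Ch w) (c : ℤ) (hc : c % 8 = 1)
    (hc0 : 0 < c) (hcop : IsCoprime c (Qs w)) :
    ∃ k : ℤ, k ≠ 0 ∧ Rel (Qs w) (hat w) (hat w) (c * k ^ 2) := by
  have hM0 := un_pos w hw
  obtain ⟨h0, h1, h1', h3⟩ := id hCh
  have h2 := un_even w h3
  have hm0 : 0 < Qs w / 2 := by omega
  have hmo : Odd (Qs w / 2) := by
    obtain ⟨t, ht⟩ := h3
    have h4 : Qs w = 2 * (w 0 ^ 2 + w 1 ^ 2 + w 2 ^ 2 + 2 * t ^ 2) := by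
      unfold Qs
      rw [ht]
      ring
    have h5 : Qs w / 2 = w 0 ^ 2 + w 1 ^ 2 + w 2 ^ 2 + 2 * t ^ 2 := by omega
    rw [h5]
    exact ((h0.pow.add_odd h1.pow).add_odd h1'.pow).add_even (even_two_mul _)
  obtain ⟨k, X, s, n, hk, hn, he, hs, hcop', heven, hpos⟩ :=
    units_arith_ch (Qs w / 2) c hmo hm0 hc hc0 (by rw [← h2]; exact hcop)
  rw [← h2] at he hcop'
  obtain ⟨w', x, hw', hx, hd⟩ := pair_exists w hw n s
    ⟨fun h => absurd h3 (Int.not_even_iff_odd.2 h), fun _ => ⟨hs, fun _ => heven,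
      fun h => absurd hCh h⟩⟩ hn (by
      have h4 : Qs w * n = 2 * (Qs w / 2 * n) := by
        rw [← mul_assoc, ← h2]
      linarith)
  refine un_transport w w' hw hw' c k hk (un_self w' x X s _ hd ?_ (by positivity) ?_ _ hcop')
  · rw [hw'.2.1, hx, he]
    ring
  · have h4 : IsCoprime (c * k ^ 2) 2 := by
      rw [h2] at hcop'
      exact hcop'.of_mul_right_left
    exact Int.isCoprime_two_right.1 h4

end Pool.Agent.LX
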