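import Pool.Agent.LX.Defs
import Pool.Agent.LX.ConnOf
import Pool.Agent.LX.QuatBasic
import Pool.Agent.LX.Trans
import Pool.Agent.LX.Noob
import Pool.Agent.LX.Units
import Pool.Agent.LX.Eichler

set_option autoImplicit false

open Matrix

namespace Pool.Agent.LX

theorem conn (w w' : Fin 4 → ℤ) (hw : Prim w) (hw' : InW w w') :
    ∃ (A : Matrix (Fin 4) (Fin 4) ℚ) (t : ℕ), IsIso A ∧ A *ᵥ toR (hat w) = toR (hat w') ∧
      0 < t ∧ Den A t ∧
      ∀ p : ℕ, p.Prime → p ∣ t → (p % 8 = 1 ∨ p % 8 = 7) ∧ ¬ (p : ℤ) ∣ Qs w :=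
  conn_of Rel.mul rel_neg rel_iot rel_trans noob_gen noob_ch units_gen units_ch eichler w w' hw hw'

end Pool.Agent.LX
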