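import Pool.Agent.LX.Defs
import Pool.Agent.LX.Iso
import Pool.Agent.LX.Conn

/-!
LX-22: all directions of the finite set `W` are connected by isometries whose denominators divide
a power of one squarefree number `P`.
-/

set_option autoImplicit false

open Matrix

namespace Pool.Agent.LX

theorem cp_den {A : Matrix (Fin 4) (Fin 4) ℚ} {t t' : ℕ} (h : Den A t) (hd : t ∣ t') :
    Den A t' := by
  intro y
  obtain ⟨z, hz⟩ := h y
  obtain ⟨c, rfl⟩ := hd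
  refine ⟨fun i => (c : ℤ) * z i, ?_⟩
  have h1 : ((t * c : ℕ) : ℚ) • (A *ᵥ toR y) = (c : ℚ) • ((t : ℚ) • (A *ᵥ toR y)) := by
    rw [smul_smul, Nat.cast_mul, mul_comm]
  rw [h1, hz]
  funext i
  simp [toR]

theorem cp_dvd {t P : ℕ} (ht : 0 < t) (hP : 0 < P)
    (h : ∀ p : ℕ, p.Prime → p ∣ t → p ∣ P) : t ∣ P ^ t := by
  rw [← Nat.factorization_le_iff_dvd ht.ne' (pow_pos hP t).ne']
  intro p
  by_cases hp : p.Prime
  · by_cases hpt : p ∣ t
    · have h1 : 1 ≤ P.factorization p := by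
        exact (Nat.Prime.dvd_iff_one_le_factorization hp hP.ne').1 (h p hp hpt)
      have h2 : t.factorization p < t := Nat.factorization_lt p ht.ne'
      rw [Nat.factorization_pow]
      simp only [Finsupp.smul_apply, smul_eq_mul]
      nlinarith
    · rw [Nat.factorization_eq_zero_of_not_dvd hpt]
      exact Nat.zero_le _
  · rw [Nat.factorization_eq_zero_of_not_prime _ hp]
    exact Nat.zero_le _

theorem cp_sq_le (a : ℤ) : |a| ≤ a ^ 2 := by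
  rw [← sq_abs]
  have h : 0 ≤ |a| := abs_nonneg a
  rcases h.eq_or_lt with h0 | h0
  · rw [← h0]
    norm_num
  · nlinarith

theorem cp_finite (M : ℤ) : {w : Fin 4 → ℤ | Qs w = M}.Finite := by
  refine (Set.finite_Icc (fun _ : Fin 4 => -M) (fun _ => M)).subset ?_
  intro w hw
  have hw : Qs w = M := hw
  rw [Qs] at hw
  have h0 := cp_sq_le (w 0)
  have h1 := cp_sq_le (w 1)
  have h2 := cp_sq_le (w 2)
  have h3 := cp_sq_le (w 3)
  have a0 := abs_nonneg (w 0)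
  have a1 := abs_nonneg (w 1)
  have a2 := abs_nonneg (w 2)
  have a3 := abs_nonneg (w 3)
  have key : ∀ i, |w i| ≤ M := by
    intro i
    fin_cases i <;> simp only [Fin.zero_eta, Fin.mk_one, Fin.reduceFinMk] <;> linarith
  rw [Set.mem_Icc, Pi.le_def, Pi.le_def]
  exact ⟨fun i => (abs_le.1 (key i)).1, fun i => (abs_le.1 (key i)).2⟩

theorem cp_Qs_pos {w : Fin 4 → ℤ} (hw : Prim w) : 0 < Qs w := by
  rw [Qs]
  obtain ⟨i, hi⟩ := hw 2 Nat.prime_two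
  have hi0 : w i ≠ 0 := by
    intro h
    apply hi
    rw [h]
    exact dvd_zero _
  have hi1 : 0 < w i ^ 2 := by positivity
  have h0 := sq_nonneg (w 0)
  have h1 := sq_nonneg (w 1)
  have h2 := sq_nonneg (w 2)
  have h3 := sq_nonneg (w 3)
  fin_cases i <;> simp only [Fin.zero_eta, Fin.mk_one, Fin.reduceFinMk] at hi1 <;> linarith

theorem exists_connP (w₀ : Fin 4 → ℤ) (hw : Prim w₀) :
    ∃ P ρ : ℕ, 1 < P ∧ Odd P ∧ Squarefree P ∧ IsCoprime (Qs w₀) (P : ℤ) ∧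
      (∀ p : ℕ, p.Prime → p ∣ P → p % 8 = 1 ∨ p % 8 = 7) ∧ ConnP w₀ P ρ := by
  classical
  have hfin : {w : Fin 4 → ℤ | InW w₀ w}.Finite :=
    (cp_finite (Qs w₀)).subset fun w h => h.2.1
  -- the isometries
  have hconn : ∀ p : (Fin 4 → ℤ) × (Fin 4 → ℤ), ∃ t : ℕ, 0 < t ∧
      (∀ q : ℕ, q.Prime → q ∣ t → (q % 8 = 1 ∨ q % 8 = 7) ∧ ¬ (q : ℤ) ∣ Qs w₀) ∧
      (InW w₀ p.1 → InW w₀ p.2 → ∃ C C' : Matrix (Fin 4) (Fin 4) ℚ,
        IsIso C ∧ C' * C = 1 ∧ C *ᵥ toR (hat p.1) = toR (hat p.2) ∧ Den C t ∧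
          Den C' (t ^ 3)) := by
    rintro ⟨w, w'⟩
    by_cases h : InW w₀ w ∧ InW w₀ w'
    · obtain ⟨h1, h2⟩ := h
      obtain ⟨A, t, hA, hAw, ht, hden, hp⟩ := conn w w' h1.1
        ⟨h2.1, h2.2.1.trans h1.2.1.symm, h2.2.2.trans h1.2.2.symm⟩
      obtain ⟨A', h3, -, -, h4⟩ := den_inv A hA t hden
      refine ⟨t, ht, fun q hq hqt => ?_, fun _ _ => ⟨A, A', hA, h3, hAw, hden, h4⟩⟩
      obtain ⟨h5, h6⟩ := hp q hq hqt
      rw [h1.2.1] at h6
      exact ⟨h5, h6⟩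
    · refine ⟨1, one_pos, fun q hq hq1 => ?_, fun h1 h2 => absurd ⟨h1, h2⟩ h⟩
      exact absurd (Nat.dvd_one.1 hq1) hq.one_lt.ne'
  choose T hT1 hT2 hT3 using hconn
  -- an extra prime
  obtain ⟨q, hq1, hq2, hq3⟩ := Nat.forall_exists_prime_gt_and_eq_mod (q := 8) (a := 7)
    (by decide) (Qs w₀).natAbs
  have hq8 : q % 8 = 7 := by
    have h1 : ((q : ℕ) : ZMod 8) = ((7 : ℕ) : ZMod 8) := by rw [hq3]; rfl
    exact (ZMod.natCast_eq_natCast_iff' q 7 8).1 h1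
  have hqs : ¬ (q : ℤ) ∣ Qs w₀ := by
    intro h
    have h1 := Int.natAbs_dvd_natAbs.2 h
    rw [Int.natAbs_natCast] at h1
    have h2 := Nat.le_of_dvd (Int.natAbs_pos.2 (cp_Qs_pos hw).ne') h1
    omega
  let W : Finset (Fin 4 → ℤ) := hfin.toFinset
  let S : Finset ℕ := insert q ((W ×ˢ W).biUnion fun p => (T p).primeFactors)
  have hS : ∀ r ∈ S, r.Prime ∧ (r % 8 = 1 ∨ r % 8 = 7) ∧ ¬ (r : ℤ) ∣ Qs w₀ := by
    intro r hr
    rcases Finset.mem_insert.1 hr with rfl | hr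
    · exact ⟨hq2, Or.inr hq8, hqs⟩
    · obtain ⟨p, -, hr⟩ := Finset.mem_biUnion.1 hr
      have h1 := Nat.prime_of_mem_primeFactors hr
      exact ⟨h1, hT2 p r h1 (Nat.dvd_of_mem_primeFactors hr)⟩
  let P : ℕ := ∏ r ∈ S, r
  have hPdvd : ∀ r ∈ S, r ∣ P := fun r hr => Finset.dvd_prod_of_mem _ hr
  have hP0 : 0 < P := Finset.prod_pos fun r hr => (hS r hr).1.pos
  have hPmem : ∀ r : ℕ, r.Prime → r ∣ P → r ∈ S := by
    intro r hr hrP
    obtain ⟨r', hr', h1⟩ := (Prime.dvd_finsetProd_iff hr.prime _).1 hrP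
    rwa [(Nat.prime_dvd_prime_iff_eq hr (hS r' hr').1).1 h1]
  have hqS : q ∈ S := Finset.mem_insert_self _ _
  let ρ : ℕ := 3 * (W ×ˢ W).sup T
  refine ⟨P, ρ, ?_, ?_, ?_, ?_, fun p hp hpP => (hS p (hPmem p hp hpP)).2.1, ?_⟩
  · exact lt_of_lt_of_le hq2.one_lt (Nat.le_of_dvd hP0 (hPdvd q hqS))
  · rw [← Nat.not_even_iff_odd]
    intro h
    have h1 := (hS 2 (hPmem 2 Nat.prime_two h.two_dvd)).2.1
    omega
  · refine Finset.squarefree_prod_of_pairwise_isCoprime ?_ fun r hr => (hS r hr).1.squarefree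
    intro r hr r' hr' hne
    exact Nat.coprime_iff_isRelPrime.1 ((Nat.coprime_primes (hS r hr).1 (hS r' hr').1).2 hne)
  · rw [Int.isCoprime_iff_gcd_eq_one]
    by_contra hne
    obtain ⟨r, hr, hrd⟩ := Nat.exists_prime_and_dvd hne
    have h1 : (r : ℤ) ∣ (Int.gcd (Qs w₀) (P : ℤ) : ℤ) := Int.natCast_dvd_natCast.2 hrd
    have h2 := h1.trans (Int.gcd_dvd_left (Qs w₀) (P : ℤ))
    have h3 := h1.trans (Int.gcd_dvd_right (Qs w₀) (P : ℤ))
    exact (hS r (hPmem r hr (Int.natCast_dvd_natCast.1 h3))).2.2 h2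
  · intro w w' h1 h2
    have hmem : (w, w') ∈ W ×ˢ W :=
      Finset.mem_product.2 ⟨hfin.mem_toFinset.2 h1, hfin.mem_toFinset.2 h2⟩
    obtain ⟨C, C', h3, h4, h5, h6, h7⟩ := hT3 (w, w') h1 h2
    have h8 : T (w, w') ∣ P ^ T (w, w') := cp_dvd (hT1 _) hP0 fun r hr hrT =>
      hPdvd r (Finset.mem_insert_of_mem (Finset.mem_biUnion.2 ⟨(w, w'), hmem,
        Nat.mem_primeFactors.2 ⟨hr, hrT, (hT1 _).ne'⟩⟩))
    have h9 : T (w, w') ≤ (W ×ˢ W).sup T := Finset.le_sup (f := T) hmem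
    refine ⟨C, C', h3, h4, h5, cp_den h6 ?_, cp_den h7 ?_⟩
    · exact h8.trans (pow_dvd_pow P (by omega))
    · have h10 := pow_dvd_pow_of_dvd h8 3
      rw [← pow_mul] at h10
      exact h10.trans (pow_dvd_pow P (by omega))

end Pool.Agent.LX
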