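import Pool.Agent.LX.Defs

set_option autoImplicit false

/-!
The class of `b` modulo `κ` is determined by the first two and the last vector of a frame.
-/

open Matrix

namespace Pool.Agent.LX

private theorem frame_basis (u x e f e' : Fin 4 → ℤ) (h : IsUnit (Matrix.of ![u, x, e, f]).det)
    (h' : IsUnit (Matrix.of ![u, x, e', f]).det) :
    ∃ α β ε γ : ℤ, (ε = 1 ∨ ε = -1) ∧
      ∀ l, e' l = α * u l + β * x l + ε * e l + γ * f l := by
  set M : Matrix (Fin 4) (Fin 4) ℤ := Matrix.of ![u, x, e, f] with hM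
  set c : Fin 4 → ℤ := e' ᵥ* M⁻¹ with hc
  have h1 : c ᵥ* M = e' := by
    rw [hc, Matrix.vecMul_vecMul, Matrix.nonsing_inv_mul M h, Matrix.vecMul_one]
  have h2 : ∑ k, c k • M k = e' := by
    rw [← h1, Matrix.vecMul_eq_sum]
  have h3 : Matrix.of ![u, x, e', f] = M.updateRow 2 (∑ k, c k • M k) := by
    rw [h2]
    ext i j
    fin_cases i <;> simp [hM, Matrix.updateRow_apply]
  have h4 : (Matrix.of ![u, x, e', f]).det = c 2 * M.det := by
    rw [h3, Matrix.det_updateRow_sum, smul_eq_mul]
  rw [h4] at h'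
  have h5 : IsUnit (c 2) := isUnit_of_mul_isUnit_left h'
  refine ⟨c 0, c 1, c 2, c 3, Int.isUnit_iff.1 h5, fun l => ?_⟩
  have h6 := congrFun h2 l
  rw [← h6]
  simp [Fin.sum_univ_four, hM]

private theorem eq_of_gram {q r n α β : ℤ} (h1 : α * q + β * r = 0) (h2 : α * r + β * n = 0)
    (hD : q * n - r ^ 2 ≠ 0) : α = 0 ∧ β = 0 := by
  have h3 : α * (q * n - r ^ 2) = 0 := by linear_combination n * h1 - r * h2
  have h4 : β * (q * n - r ^ 2) = 0 := by linear_combination q * h2 - r * h1
  exact ⟨(mul_eq_zero.1 h3).resolve_right hD, (mul_eq_zero.1 h4).resolve_right hD⟩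

private theorem dvd_two {D g m s α β : ℤ} (h1 : D * β = 2 * g * m) (h2 : D * α = -(2 * g * s))
    (hg : IsCoprime g D) (hs : IsCoprime s m) : D ∣ 2 := by
  have h3 : D ∣ 2 * m := by
    have : D ∣ g * (2 * m) := ⟨β, by rw [h1]; ring⟩
    exact hg.symm.dvd_of_dvd_mul_left this
  have h4 : D ∣ 2 * s := by
    have : D ∣ g * (2 * s) := ⟨-α, by rw [mul_neg, h2]; ring⟩
    exact hg.symm.dvd_of_dvd_mul_left this
  obtain ⟨a, b, hab⟩ := hs
  have h5 : (2 : ℤ) = a * (2 * s) + b * (2 * m) := by linear_combination (-2) * hab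
  rw [h5]
  exact dvd_add (h4.mul_left _) (h3.mul_left _)

theorem frame_inj (w x e e' f : Fin 4 → ℤ) (n s g κ b b' : ℤ) (h : Frame w n s g κ b x e f)
    (h' : Frame w n s g κ b' x e' f) (hs : IsCoprime s (if Even (w 3) then Qs w / 2 else Qs w))
    (hg : IsCoprime g (Qs w * n - 2 * s ^ 2)) (hΔ : 4 < Qs w * n - 2 * s ^ 2) : κ ∣ b' - b := by
  obtain ⟨α, β, ε, γ, hε, hl⟩ := frame_basis (vs w) x e f e' h.det h'.det
  have e0 := hl 0
  have e1 := hl 1
  have e2 := hl 2
  have e3 := hl 3
  have hx := h.hx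
  have hve := h.he
  have hxe := h.hxe
  have hvf := h.hf
  have hxf := h.hxf
  have hef := h.hef
  have hff := h.hff
  have hve' := h'.he
  have hxe' := h'.hxe
  have hef' := h'.hef
  have r1 : α * Q (vs w) + β * B (vs w) x = 0 := by
    simp only [Q, B] at *
    rw [e0, e1, e2, e3] at hve'
    linear_combination hve' - ε * hve - γ * hvf
  have r2 : α * B (vs w) x + β * n = g - ε * g := by
    simp only [Q, B] at *
    rw [e0, e1, e2, e3] at hxe'
    linear_combination hxe' - ε * hxe - γ * hxf - β * hx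
  have r3 : b' = ε * b + γ * κ := by
    simp only [Q, B] at *
    rw [e0, e1, e2, e3] at hef'
    linear_combination -hef' + ε * hef + γ * hff + α * hvf + β * hxf
  have hdot := h.hs
  by_cases h3 : Even (w 3)
  · obtain ⟨t, ht⟩ := h3
    have ht' : w 3 = 2 * t := by omega
    have hv : vs w = ![w 0, w 1, w 2, t] := by
      rw [vs, if_pos ⟨t, ht⟩, ht']
      simp
    have hQs : Qs w = 2 * Q (vs w) := by
      rw [hv]
      simp [Qs, Q, B, ht']
      ring
    have hB : B (vs w) x = s := by
      rw [hv, ← hdot]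
      simp [B, dot, ht']
      ring
    rw [if_pos ⟨t, ht⟩, hQs, Int.mul_ediv_cancel_left _ two_ne_zero] at hs
    rw [hQs] at hg hΔ
    rw [hB] at r1 r2
    rcases hε with rfl | rfl
    · obtain ⟨rfl, rfl⟩ := eq_of_gram (n := n) r1 (by linear_combination r2)
        (by intro h0; have : 2 * Q (vs w) * n - 2 * s ^ 2 = 0 := by linear_combination 2 * h0
            omega)
      exact ⟨γ, by rw [r3]; ring⟩
    · exfalso
      have hd : (Q (vs w) * n - s ^ 2) ∣ 2 := by
        refine dvd_two (β := β) (α := α) (g := g) (m := Q (vs w)) (s := s) ?_ ?_ ?_ hs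
        · linear_combination Q (vs w) * r2 - s * r1
        · linear_combination n * r1 - s * r2
        · refine hg.of_isCoprime_of_dvd_right ⟨2, by ring⟩
      have := Int.le_of_dvd two_pos hd
      nlinarith
  · have hv : vs w = hat w := by rw [vs, if_neg h3]
    have hQ : Q (vs w) = 2 * Qs w := by
      rw [hv]
      simp [Qs, Q, B, hat]
      ring
    have hB : B (vs w) x = 2 * s := by
      rw [hv, ← hdot]
      simp [B, dot, hat]
      ring
    rw [if_neg h3] at hs
    rw [hB, hQ] at r1
    rw [hB] at r2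
    rcases hε with rfl | rfl
    · obtain ⟨rfl, rfl⟩ := eq_of_gram (n := n) r1 (by linear_combination r2)
        (by intro h0; have : Qs w * n - 2 * s ^ 2 = 0 := by linarith
            omega)
      exact ⟨γ, by rw [r3]; ring⟩
    · exfalso
      have hd : (Qs w * n - 2 * s ^ 2) ∣ 2 := by
        refine dvd_two (β := β) (α := α) (g := g) (m := Qs w) (s := s) ?_ ?_ hg hs
        · linear_combination Qs w * r2 - s * r1
        · have h7 : 2 * ((Qs w * n - 2 * s ^ 2) * α) = 2 * (-(2 * g * s)) := by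
            linear_combination n * r1 - 2 * s * r2
          linarith
      have := Int.le_of_dvd two_pos hd
      omega

end Pool.Agent.LX
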