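import Pool.Agent.LX.Defs

set_option autoImplicit false

/-!
The number of divisors twisted by `chi δ` as a sum of numbers of square roots of `-δ`.
-/

namespace Pool.Agent.LX

namespace RhoAux

lemma chi_mul (D a b : ℕ) : chi D (a * b) = chi D a * chi D b := by
  unfold chi
  by_cases ha : Odd a
  · by_cases hb : Odd b
    · have hab : Odd (a * b) := ha.mul hb
      have ha0 : a ≠ 0 := by rintro rfl; exact absurd ha (by decide)
      have hb0 : b ≠ 0 := by rintro rfl; exact absurd hb (by decide)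
      have : NeZero a := ⟨ha0⟩
      have : NeZero b := ⟨hb0⟩
      rw [if_pos ha, if_pos hb, if_pos hab, jacobiSym.mul_right]
    · have hab : ¬ Odd (a * b) := fun h => hb (Nat.odd_mul.1 h).2
      rw [if_neg hb, if_neg hab, mul_zero]
  · have hab : ¬ Odd (a * b) := fun h => ha (Nat.odd_mul.1 h).1
    rw [if_neg ha, if_neg hab, zero_mul]

lemma chi_zero (D : ℕ) : chi D 0 = 0 := by
  unfold chi; rw [if_neg (by decide)]

lemma chi_one (D : ℕ) : chi D 1 = 1 := by
  unfold chi; rw [if_pos (by decide), jacobiSym.one_right]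

lemma rho_one (D : ℕ) : rho D 1 = 1 := by
  unfold rho
  rw [Set.ncard_eq_one]
  exact ⟨0, by ext x; simp [Subsingleton.elim _ (0 : ZMod 1)]⟩

lemma rho_mul (D a b : ℕ) (h : Nat.Coprime a b) : rho D (a * b) = rho D a * rho D b := by
  unfold rho
  rw [← Set.ncard_prod]
  set e := ZMod.chineseRemainder h
  rw [← Set.ncard_image_of_injective _ e.injective]
  congr 1
  ext ⟨x, y⟩
  simp only [Set.mem_image, Set.mem_ofPred_eq, Set.mem_prod]
  constructor
  · rintro ⟨β, hβ, hxy⟩
    have h1 : e β ^ 2 = -(D : ZMod a × ZMod b) := by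
      rw [← map_pow, hβ, map_neg, map_natCast]
    rw [hxy] at h1
    have h2 := congrArg Prod.fst h1
    have h3 := congrArg Prod.snd h1
    simpa using And.intro h2 h3
  · rintro ⟨hx, hy⟩
    refine ⟨e.symm (x, y), ?_, by simp⟩
    apply e.injective
    rw [map_pow, RingEquiv.apply_symm_apply, map_neg, map_natCast]
    ext
    · simpa using hx
    · simpa using hy

/-- A square root modulo `p` lifts to a square root modulo `p ^ b`. -/
lemma hensel (p : ℕ) (hp : p.Prime) (hp2 : p ≠ 2) (u x : ℤ) (hu : ¬ (p : ℤ) ∣ u)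
    (hx : (p : ℤ) ∣ x ^ 2 - u) : ∀ b : ℕ, ∃ y : ℤ, (p : ℤ) ^ (b + 1) ∣ y ^ 2 - u := by
  intro b
  induction b with
  | zero => exact ⟨x, by simpa using hx⟩
  | succ b ih =>
    obtain ⟨y, t, ht⟩ := ih
    have hpp : Prime (p : ℤ) := Nat.prime_iff_prime_int.1 hp
    have hy : ¬ (p : ℤ) ∣ 2 * y := by
      intro h
      rcases hpp.dvd_or_dvd h with h2 | h2
      · have : p ∣ 2 := by exact_mod_cast h2
        exact hp2 ((Nat.prime_dvd_prime_iff_eq hp Nat.prime_two).1 this)
      · apply hu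
        have h3 : (p : ℤ) ∣ y ^ 2 - u := by
          rw [ht]
          exact Dvd.dvd.mul_right (dvd_pow_self _ (by omega)) _
        have h4 : (p : ℤ) ∣ y ^ 2 := Dvd.dvd.pow h2 (by norm_num)
        have := dvd_sub h4 h3
        simpa using this
    have hcop : IsCoprime (2 * y) (p : ℤ) := ((Prime.coprime_iff_not_dvd hpp).2 hy).symm
    obtain ⟨a, c, hac⟩ := hcop
    refine ⟨y + (p : ℤ) ^ (b + 1) * (-t * a), ?_⟩
    refine ⟨t * c + (p : ℤ) ^ b * (t * a) ^ 2, ?_⟩
    have e1 : (y + (p : ℤ) ^ (b + 1) * (-t * a)) ^ 2 - u =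
        (y ^ 2 - u) - (p : ℤ) ^ (b + 1) * t * (a * (2 * y)) + ((p : ℤ) ^ (b + 1)) ^ 2 * (t * a) ^ 2 := by
      ring
    have e2 : a * (2 * y) = 1 - c * p := by linarith
    rw [e1, ht, e2]
    ring

lemma chi_prime (D p : ℕ) (hp : p.Prime) (hp2 : p ≠ 2) (hD : ¬ p ∣ D) :
    (chi D p = 1 ∧ IsSquare (-(D : ZMod p))) ∨ (chi D p = -1 ∧ ¬ IsSquare (-(D : ZMod p))) := by
  have : Fact p.Prime := ⟨hp⟩
  have hodd : Odd p := hp.odd_of_ne_two hp2
  have h1 : chi D p = legendreSym p (-(D : ℤ)) := by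
    unfold chi
    rw [if_pos hodd, jacobiSym.legendreSym.to_jacobiSym]
  have h0 : ((-(D : ℤ) : ℤ) : ZMod p) ≠ 0 := by
    rw [Ne, ZMod.intCast_zmod_eq_zero_iff_dvd]
    intro h
    exact hD (by exact_mod_cast (dvd_neg.1 h))
  have hc : ((-(D : ℤ) : ℤ) : ZMod p) = -(D : ZMod p) := by push_cast; rfl
  rcases legendreSym.eq_one_or_neg_one p h0 with h | h
  · left
    refine ⟨h1.trans h, ?_⟩
    have := (legendreSym.eq_one_iff p h0).1 h
    rwa [hc] at this
  · right
    refine ⟨h1.trans h, ?_⟩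
    have := (legendreSym.eq_neg_one_iff p).1 h
    rwa [hc] at this

lemma rho_prime_pow (D p b : ℕ) (hp : p.Prime) (hp2 : p ≠ 2) (hD : ¬ p ∣ D) :
    (rho D (p ^ (b + 1)) : ℤ) = 1 + chi D p := by
  have hpp : Prime (p : ℤ) := Nat.prime_iff_prime_int.1 hp
  have hDu : ¬ (p : ℤ) ∣ (-(D : ℤ)) := fun h => hD (by exact_mod_cast (dvd_neg.1 h))
  rcases chi_prime D p hp hp2 hD with ⟨h1, h2⟩ | ⟨h1, h2⟩
  · rw [h1]
    obtain ⟨r, hr⟩ := h2
    obtain ⟨x, rfl⟩ := ZMod.intCast_surjective r
    have hx : (p : ℤ) ∣ x ^ 2 - (-(D : ℤ)) := by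
      rw [← ZMod.intCast_zmod_eq_zero_iff_dvd]
      push_cast
      rw [hr]; ring
    obtain ⟨y, hy⟩ := hensel p hp hp2 (-(D : ℤ)) x hDu hx b
    have hyD : ¬ (p : ℤ) ∣ y := by
      intro h
      apply hDu
      have h3 : (p : ℤ) ∣ y ^ 2 - (-(D : ℤ)) := dvd_trans (dvd_pow_self _ (by omega)) hy
      have h4 : (p : ℤ) ∣ y ^ 2 := Dvd.dvd.pow h (by norm_num)
      have := dvd_sub h4 h3
      simpa using this
    have h2y : ¬ (p : ℤ) ∣ 2 * y := by
      intro h
      rcases hpp.dvd_or_dvd h with h2 | h2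
      · have : p ∣ 2 := by exact_mod_cast h2
        exact hp2 ((Nat.prime_dvd_prime_iff_eq hp Nat.prime_two).1 this)
      · exact hyD h2
    have hset : {β : ZMod (p ^ (b + 1)) | β ^ 2 = -(D : ZMod (p ^ (b + 1)))} =
        {((y : ℤ) : ZMod (p ^ (b + 1))), ((-y : ℤ) : ZMod (p ^ (b + 1)))} := by
      ext β
      obtain ⟨z, rfl⟩ := ZMod.intCast_surjective β
      simp only [Set.mem_ofPred_eq, Set.mem_insert_iff, Set.mem_singleton_iff]
      have hz1 : (((z : ℤ) : ZMod (p ^ (b + 1))) ^ 2 = -(D : ZMod (p ^ (b + 1)))) ↔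
          ((p : ℤ) ^ (b + 1) ∣ z ^ 2 - (-(D : ℤ))) := by
        have : ((p : ℤ) ^ (b + 1)) = ((p ^ (b + 1) : ℕ) : ℤ) := by push_cast; rfl
        rw [this, ← ZMod.intCast_zmod_eq_zero_iff_dvd]
        push_cast
        constructor
        · intro h; rw [h]; ring
        · intro h; linear_combination h
      have hz2 : ∀ w : ℤ, (((z : ℤ) : ZMod (p ^ (b + 1))) = ((w : ℤ) : ZMod (p ^ (b + 1)))) ↔
          ((p : ℤ) ^ (b + 1) ∣ z - w) := by
        intro w
        have : ((p : ℤ) ^ (b + 1)) = ((p ^ (b + 1) : ℕ) : ℤ) := by push_cast; rfl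
        rw [this, ← ZMod.intCast_zmod_eq_zero_iff_dvd]
        push_cast
        exact sub_eq_zero.symm
      rw [hz1, hz2, hz2]
      constructor
      · intro h
        have h5 : (p : ℤ) ^ (b + 1) ∣ (z - y) * (z - -y) := by
          have := dvd_sub h hy
          have e : z ^ 2 - (-(D : ℤ)) - (y ^ 2 - (-(D : ℤ))) = (z - y) * (z - -y) := by ring
          rwa [e] at this
        by_cases h6 : (p : ℤ) ∣ z - y
        · left
          have h7 : ¬ (p : ℤ) ∣ z - -y := by
            intro h8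
            apply h2y
            have := dvd_sub h8 h6
            have e : z - -y - (z - y) = 2 * y := by ring
            rwa [e] at this
          have h8 : IsCoprime ((p : ℤ) ^ (b + 1)) (z - -y) :=
            ((Prime.coprime_iff_not_dvd hpp).2 h7).pow_left
          exact h8.dvd_of_dvd_mul_right h5
        · right
          have h8 : IsCoprime ((p : ℤ) ^ (b + 1)) (z - y) :=
            ((Prime.coprime_iff_not_dvd hpp).2 h6).pow_left
          exact h8.dvd_of_dvd_mul_left h5
      · rintro (h | h)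
        · have h9 : z ^ 2 - (-(D : ℤ)) = (z - y) * (z + y) + (y ^ 2 - (-(D : ℤ))) := by ring
          rw [h9]
          exact dvd_add (Dvd.dvd.mul_right h _) hy
        · have h9 : z ^ 2 - (-(D : ℤ)) = (z - -y) * (z - y) + (y ^ 2 - (-(D : ℤ))) := by ring
          rw [h9]
          exact dvd_add (Dvd.dvd.mul_right h _) hy
    have hne : ((y : ℤ) : ZMod (p ^ (b + 1))) ≠ ((-y : ℤ) : ZMod (p ^ (b + 1))) := by
      intro h
      apply h2y
      have h3 : (((p ^ (b + 1) : ℕ) : ℤ)) ∣ y - -y := by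
        rw [← ZMod.intCast_zmod_eq_zero_iff_dvd]
        push_cast
        push_cast at h
        exact sub_eq_zero.2 h
      have h4 : (p : ℤ) ∣ ((p ^ (b + 1) : ℕ) : ℤ) := by
        push_cast
        exact dvd_pow_self _ (by omega)
      have h5 := dvd_trans h4 h3
      have e : y - -y = 2 * y := by ring
      rwa [e] at h5
    unfold rho
    rw [hset, Set.ncard_pair hne]
    norm_num
  · rw [h1]
    unfold rho
    have hset : {β : ZMod (p ^ (b + 1)) | β ^ 2 = -(D : ZMod (p ^ (b + 1)))} = ∅ := by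
      rw [Set.eq_empty_iff_forall_notMem]
      intro β hβ
      apply h2
      have hβ' : β ^ 2 = -(D : ZMod (p ^ (b + 1))) := hβ
      have h3 := congrArg (ZMod.castHom (dvd_pow_self p (Nat.succ_ne_zero b)) (ZMod p)) hβ'
      rw [map_pow, map_neg, map_natCast] at h3
      exact ⟨_, by rw [← h3, sq]⟩
    rw [hset, Set.ncard_empty]
    norm_num

/-- `chi δ` as an arithmetic function. -/
noncomputable def chiA (D : ℕ) : ArithmeticFunction ℤ := ⟨chi D, chi_zero D⟩

/-- `rho δ` as an arithmetic function. -/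
noncomputable def rhoA (D : ℕ) : ArithmeticFunction ℤ :=
  ⟨fun c => if c = 0 then 0 else (rho D c : ℤ), by simp⟩

open Classical in
/-- The indicator function of the positive squares. -/
noncomputable def sqA : ArithmeticFunction ℤ :=
  ⟨fun c => if c = 0 then 0 else if IsSquare c then 1 else 0, by simp⟩

lemma chiA_mult (D : ℕ) : (chiA D).IsMultiplicative :=
  ⟨chi_one D, fun {m n} _ => chi_mul D m n⟩

lemma rhoA_mult (D : ℕ) : (rhoA D).IsMultiplicative := by
  refine ⟨?_, ?_⟩
  · show (if (1 : ℕ) = 0 then 0 else (rho D 1 : ℤ)) = 1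
    rw [if_neg one_ne_zero, rho_one]
    norm_num
  · intro m n h
    show (if m * n = 0 then 0 else (rho D (m * n) : ℤ)) =
      (if m = 0 then 0 else (rho D m : ℤ)) * (if n = 0 then 0 else (rho D n : ℤ))
    by_cases hm : m = 0
    · simp [hm]
    · by_cases hn : n = 0
      · simp [hn]
      · rw [if_neg (Nat.mul_ne_zero hm hn), if_neg hm, if_neg hn, rho_mul D m n h]
        push_cast; rfl

lemma sqA_mult : sqA.IsMultiplicative := by
  classical
  refine ⟨?_, ?_⟩
  · show (if (1 : ℕ) = 0 then (0 : ℤ) else if IsSquare 1 then 1 else 0) = 1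
    simp
  · intro m n h
    show (if m * n = 0 then (0 : ℤ) else if IsSquare (m * n) then 1 else 0) =
      (if m = 0 then 0 else if IsSquare m then 1 else 0) *
        (if n = 0 then 0 else if IsSquare n then 1 else 0)
    by_cases hm : m = 0
    · simp [hm]
    · by_cases hn : n = 0
      · simp [hn]
      · rw [if_neg (Nat.mul_ne_zero hm hn), if_neg hm, if_neg hn]
        have key : IsSquare (m * n) ↔ IsSquare m ∧ IsSquare n := by
          constructor
          · rintro ⟨r, hr⟩
            have hr' : m * n = r ^ 2 := by rw [hr, sq]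
            have hr2 : n * m = r ^ 2 := by rw [mul_comm, hr']
            constructor
            · obtain ⟨d, hd⟩ := exists_eq_pow_of_mul_eq_pow
                (by rw [Nat.isUnit_iff]; exact h) hr'
              exact ⟨d, by rw [hd, sq]⟩
            · obtain ⟨d, hd⟩ := exists_eq_pow_of_mul_eq_pow
                (by rw [Nat.isUnit_iff]; exact h.symm) hr2
              exact ⟨d, by rw [hd, sq]⟩
          · rintro ⟨h1, h2⟩
            exact h1.mul h2
        by_cases h1 : IsSquare m
        · by_cases h2 : IsSquare n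
          · rw [if_pos (key.2 ⟨h1, h2⟩), if_pos h1, if_pos h2]; norm_num
          · rw [if_neg (fun h => h2 (key.1 h).2), if_neg h2, mul_zero]
        · rw [if_neg (fun h => h1 (key.1 h).1), if_neg h1, zero_mul]

lemma sq_prime_pow (p i : ℕ) (hp : p.Prime) : IsSquare (p ^ i) ↔ Even i := by
  constructor
  · rintro ⟨r, hr⟩
    have h1 : (p ^ i).factorization p = (r * r).factorization p := by rw [hr]
    have hr0 : r ≠ 0 := by
      rintro rfl
      exact absurd hr (pow_ne_zero _ hp.ne_zero)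
    rw [Nat.factorization_mul hr0 hr0, hp.factorization_pow] at h1
    simp at h1
    exact ⟨_, h1⟩
  · rintro ⟨j, rfl⟩
    exact ⟨p ^ j, by rw [pow_add]⟩

lemma lhs_eq (D C : ℕ) : ((chiA D) * (ArithmeticFunction.zeta : ArithmeticFunction ℤ)) C =
    ∑ d ∈ C.divisors, chi D d := by
  rw [ArithmeticFunction.coe_mul_zeta_apply]
  rfl

lemma rhs_eq (D C : ℕ) : (rhoA D * sqA) C =
    ∑ e ∈ C.divisors, rhoA D (C / e) * sqA e := by
  rw [ArithmeticFunction.mul_apply, Nat.sum_divisorsAntidiagonal' (fun x y => rhoA D x * sqA y)]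

lemma prime_pow_eq (D p : ℕ) (hp : p.Prime) (hp2 : p ≠ 2) (hD : ¬ p ∣ D) :
    ∀ a : ℕ, ((chiA D) * (ArithmeticFunction.zeta : ArithmeticFunction ℤ)) (p ^ a) =
      (rhoA D * sqA) (p ^ a) ∧
      ((chiA D) * (ArithmeticFunction.zeta : ArithmeticFunction ℤ)) (p ^ (a + 1)) =
      (rhoA D * sqA) (p ^ (a + 1)) := by
  classical
  have hchi : ∀ i : ℕ, chi D (p ^ i) = chi D p ^ i := by
    intro i
    induction i with
    | zero => rw [pow_zero, pow_zero, chi_one]
    | succ i ih => rw [pow_succ, pow_succ, chi_mul, ih]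
  have hF : ∀ a : ℕ, ((chiA D) * (ArithmeticFunction.zeta : ArithmeticFunction ℤ)) (p ^ a) =
      ∑ i ∈ Finset.range (a + 1), chi D p ^ i := by
    intro a
    rw [lhs_eq, Nat.sum_divisors_prime_pow hp]
    exact Finset.sum_congr rfl fun i _ => hchi i
  have hG : ∀ a : ℕ, (rhoA D * sqA) (p ^ a) =
      ∑ i ∈ Finset.range (a + 1), (rho D (p ^ (a - i)) : ℤ) * (if Even i then 1 else 0) := by
    intro a
    rw [rhs_eq, Nat.sum_divisors_prime_pow hp]
    refine Finset.sum_congr rfl fun i hi => ?_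
    have hi' : i ≤ a := by
      have := Finset.mem_range.1 hi
      omega
    have e1 : p ^ a / p ^ i = p ^ (a - i) := Nat.pow_div hi' hp.pos
    have e2 : rhoA D (p ^ (a - i)) = (rho D (p ^ (a - i)) : ℤ) := by
      show (if p ^ (a - i) = 0 then (0 : ℤ) else (rho D (p ^ (a - i)) : ℤ)) = _
      rw [if_neg (pow_ne_zero _ hp.ne_zero)]
    have e3 : sqA (p ^ i) = (if Even i then 1 else 0) := by
      show (if p ^ i = 0 then (0 : ℤ) else if IsSquare (p ^ i) then 1 else 0) = _
      rw [if_neg (pow_ne_zero _ hp.ne_zero)]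
      by_cases h : Even i
      · rw [if_pos h, if_pos ((sq_prime_pow p i hp).2 h)]
      · rw [if_neg h, if_neg (fun h2 => h ((sq_prime_pow p i hp).1 h2))]
    rw [e1, e2, e3]
  have hFs : ∀ a : ℕ, ((chiA D) * (ArithmeticFunction.zeta : ArithmeticFunction ℤ)) (p ^ (a + 2)) =
      ((chiA D) * (ArithmeticFunction.zeta : ArithmeticFunction ℤ)) (p ^ a) + (1 + chi D p) := by
    intro a
    rw [hF, hF, Finset.sum_range_succ, Finset.sum_range_succ]
    rcases chi_prime D p hp hp2 hD with ⟨h1, _⟩ | ⟨h1, _⟩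
    · rw [h1]; ring
    · rw [h1, pow_succ (-1 : ℤ) (a + 1)]; ring
  have hGs : ∀ a : ℕ, (rhoA D * sqA) (p ^ (a + 2)) = (rhoA D * sqA) (p ^ a) + (1 + chi D p) := by
    intro a
    rw [hG, hG, Finset.sum_range_succ', Finset.sum_range_succ']
    have e0 : (rho D (p ^ (a + 2 - 0)) : ℤ) = 1 + chi D p := by
      have := rho_prime_pow D p (a + 1) hp hp2 hD
      simpa using this
    have e1 : ∀ i ∈ Finset.range (a + 1),
        (rho D (p ^ (a + 2 - (i + 1 + 1))) : ℤ) * (if Even (i + 1 + 1) then 1 else 0) =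
        (rho D (p ^ (a - i)) : ℤ) * (if Even i then 1 else 0) := by
      intro i _
      have h1 : a + 2 - (i + 1 + 1) = a - i := by omega
      have h2 : Even (i + 1 + 1) ↔ Even i := by
        rw [Nat.even_add_one, Nat.even_add_one, not_not]
      rw [h1]
      by_cases h : Even i
      · rw [if_pos h, if_pos (h2.2 h)]
      · rw [if_neg h, if_neg (fun h3 => h (h2.1 h3))]
    rw [Finset.sum_congr rfl e1, e0]
    simp
  intro a
  induction a with
  | zero =>
    constructor
    · rw [hF, hG, zero_add, Finset.sum_range_one, Finset.sum_range_one, pow_zero, Nat.sub_zero,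
        pow_zero, rho_one, if_pos (by decide)]
      norm_num
    · rw [hF, hG]
      have h := rho_prime_pow D p 0 hp hp2 hD
      rw [zero_add, pow_one] at h
      simp [Finset.sum_range_succ, h]
  | succ a ih =>
    refine ⟨ih.2, ?_⟩
    have e : a + 1 + 1 = a + 2 := rfl
    rw [e, hFs, hGs, ih.1]

end RhoAux

open RhoAux in
/-- The twisted divisor sum as a sum of numbers of square roots of `-δ`. -/
theorem rho_sum (δ C : ℕ) (hδ : 1 ≤ δ) (hC0 : 0 < C) (hC : Nat.Coprime C (2 * δ)) :
    ∑ d ∈ C.divisors, chi δ d =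
      ∑ g ∈ (Finset.range (C + 1)).filter (fun g => 0 < g ∧ g ^ 2 ∣ C), (rho δ (C / g ^ 2) : ℤ) := by
  have key : ∀ n : ℕ, Nat.Coprime n (2 * δ) →
      ((chiA δ) * (ArithmeticFunction.zeta : ArithmeticFunction ℤ)) n = (rhoA δ * sqA) n := by
    intro n
    induction n using Nat.recOnPosPrimePosCoprime with
    | prime_pow p n hp hn =>
      intro h
      have hp1 : Nat.Coprime p (2 * δ) := Nat.Coprime.coprime_dvd_left (dvd_pow_self p hn.ne') h
      have hp2 : p ≠ 2 := by
        rintro rfl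
        exact absurd (Nat.Coprime.coprime_dvd_right (dvd_mul_right 2 δ) hp1) (by decide)
      have hD : ¬ p ∣ δ := by
        intro h2
        have := Nat.Coprime.coprime_dvd_right (dvd_trans h2 (dvd_mul_left δ 2)) hp1
        exact hp.one_lt.ne' ((Nat.coprime_self p).1 this)
      exact (prime_pow_eq δ p hp hp2 hD n).1
    | zero => intro _; simp
    | one =>
      intro _
      rw [((chiA_mult δ).mul (ArithmeticFunction.isMultiplicative_zeta.natCast)).1,
        ((rhoA_mult δ).mul sqA_mult).1]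
    | coprime a b ha hb hab iha ihb =>
      intro h
      rw [((chiA_mult δ).mul (ArithmeticFunction.isMultiplicative_zeta.natCast)).2 hab,
        ((rhoA_mult δ).mul sqA_mult).2 hab, iha (Nat.Coprime.coprime_dvd_left (dvd_mul_right a b) h),
        ihb (Nat.Coprime.coprime_dvd_left (dvd_mul_left b a) h)]
  rw [← lhs_eq, key C hC, rhs_eq]
  symm
  classical
  have h1 : ∑ e ∈ C.divisors, rhoA δ (C / e) * sqA e =
      ∑ e ∈ (C.divisors).filter IsSquare, (rho δ (C / e) : ℤ) := by
    rw [Finset.sum_filter]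
    refine Finset.sum_congr rfl fun e he => ?_
    have hed : e ∣ C := Nat.dvd_of_mem_divisors he
    have he0 : e ≠ 0 := by
      rintro rfl
      exact hC0.ne' (Nat.eq_zero_of_zero_dvd hed)
    have hq0 : C / e ≠ 0 := (Nat.div_pos (Nat.le_of_dvd hC0 hed) (Nat.pos_of_ne_zero he0)).ne'
    have e2 : rhoA δ (C / e) = (rho δ (C / e) : ℤ) := by
      show (if C / e = 0 then (0 : ℤ) else (rho δ (C / e) : ℤ)) = _
      rw [if_neg hq0]
    have e3 : sqA e = (if IsSquare e then 1 else 0) := by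
      show (if e = 0 then (0 : ℤ) else if IsSquare e then 1 else 0) = _
      rw [if_neg he0]
    rw [e2, e3]
    by_cases h : IsSquare e
    · rw [if_pos h, if_pos h, mul_one]
    · rw [if_neg h, if_neg h, mul_zero]
  rw [h1]
  refine Finset.sum_bij (fun g _ => g ^ 2) ?_ ?_ ?_ ?_
  · intro g hg
    rw [Finset.mem_filter] at hg
    rw [Finset.mem_filter, Nat.mem_divisors]
    exact ⟨⟨hg.2.2, hC0.ne'⟩, ⟨g, sq g⟩⟩
  · intro g _ g' _ h
    exact Nat.pow_left_injective (by norm_num : (2 : ℕ) ≠ 0) h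
  · intro e he
    rw [Finset.mem_filter, Nat.mem_divisors] at he
    obtain ⟨⟨hed, _⟩, r, hr⟩ := he
    have hr2 : r ^ 2 = e := by rw [hr, sq]
    have hdvd : r ^ 2 ∣ C := hr2 ▸ hed
    have hr0 : 0 < r := by
      rcases Nat.eq_zero_or_pos r with h | h
      · rw [h] at hdvd
        exact absurd (Nat.eq_zero_of_zero_dvd (by simpa using hdvd)) hC0.ne'
      · exact h
    refine ⟨r, ?_, hr2⟩
    rw [Finset.mem_filter, Finset.mem_range]
    refine ⟨?_, hr0, hdvd⟩
    have h2 := Nat.le_of_dvd hC0 hdvd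
    nlinarith
  · intro g _
    rfl

end Pool.Agent.LX
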