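import Pool.Agent.LX.Chi
import Pool.Agent.LX.Rho
import Pool.Agent.LX.APSum
import Pool.Agent.LX.Family
import Pool.Agent.LX.BinCount
import Pool.Agent.LX.FrameInj

set_option autoImplicit false

/-!
The lower bound for the number of vectors of norm `n` on which a primitive linear form takes the
value `s` (`count_lower`). The triples `(g, c, β)` with `g ^ 2 * c ≤ X` in a fixed residue class
are counted from below by a character sum and from above by the binary forms of the orthogonal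
complements.
-/

open Matrix

namespace Pool.Agent.LX

theorem cl_abs (a : ℤ) : |a| ≤ a ^ 2 := by
  rcases abs_cases a with ⟨h, h1⟩ | ⟨h, h1⟩
  · rw [h]
    nlinarith
  · rw [h]
    nlinarith

/-! ### Finiteness and saturation -/

theorem cl_finW (w₀ : Fin 4 → ℤ) : {w : Fin 4 → ℤ | InW w₀ w}.Finite := by
  apply Set.Finite.subset (Set.finite_Icc (fun _ : Fin 4 => -(Qs w₀)) (fun _ => Qs w₀))
  intro w hw
  obtain ⟨-, h, -⟩ := hw
  have key : ∀ i, (w i) ^ 2 ≤ Qs w₀ := by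
    intro i
    rw [← h]
    unfold Qs
    fin_cases i <;> simp <;>
      nlinarith [sq_nonneg (w 0), sq_nonneg (w 1), sq_nonneg (w 2), sq_nonneg (w 3)]
  have h2 : ∀ i, |w i| ≤ Qs w₀ := fun i => (cl_abs _).trans (key i)
  constructor
  · intro i
    exact (abs_le.mp (h2 i)).1
  · intro i
    exact (abs_le.mp (h2 i)).2

theorem cl_finR (w : Fin 4 → ℤ) (n s : ℤ) : (Rset w n s).Finite := by
  apply Set.Finite.subset (Set.finite_Icc (fun _ : Fin 4 => -n) (fun _ => n))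
  intro x hx
  obtain ⟨h, -, -⟩ := hx
  have key : ∀ i, (x i) ^ 2 ≤ n := by
    intro i
    rw [← h]
    unfold Q B
    fin_cases i <;> simp <;>
      nlinarith [sq_nonneg (x 0), sq_nonneg (x 1), sq_nonneg (x 2), sq_nonneg (x 3)]
  have h2 : ∀ i, |x i| ≤ n := fun i => (cl_abs _).trans (key i)
  constructor
  · intro i
    exact (abs_le.mp (h2 i)).1
  · intro i
    exact (abs_le.mp (h2 i)).2

theorem cl_satV (u x e f : Fin 4 → ℤ) (h : IsUnit (Matrix.of ![u, x, e, f]).det) :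
    SatV u x := by
  intro p hp i j hl
  set M : Matrix (Fin 4) (Fin 4) ℤ := Matrix.of ![u, x, e, f] with hM
  have hv : ∀ l, (![i, j, 0, 0] ᵥ* M) l = i * u l + j * x l := by
    intro l
    simp [Matrix.vecMul, dotProduct, Fin.sum_univ_four, hM]
  have h2 : (![i, j, 0, 0] ᵥ* M) ᵥ* M.adjugate = M.det • ![i, j, 0, 0] := by
    rw [Matrix.vecMul_vecMul, Matrix.mul_adjugate, Matrix.vecMul_smul, Matrix.vecMul_one]
  have h3 : ∀ k, (p : ℤ) ∣ (M.det • (![i, j, 0, 0] : Fin 4 → ℤ)) k := by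
    intro k
    rw [← h2]
    simp only [Matrix.vecMul, dotProduct]
    apply Finset.dvd_sum
    intro l _
    apply Dvd.dvd.mul_right
    have := hl l
    rw [← hv l] at this
    simpa only [Matrix.vecMul, dotProduct] using this
  have h4 : ∀ t : ℤ, (p : ℤ) ∣ M.det * t → (p : ℤ) ∣ t := by
    intro t ht
    exact (h.dvd_mul_left).mp ht
  constructor
  · apply h4
    have := h3 0
    simpa using this
  · apply h4
    have := h3 1
    simpa using this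

theorem cl_evenW (w₀ w : Fin 4 → ℤ) (h : Qs w = Qs w₀) : Even (w 3) ↔ Even (w₀ 3) := by
  have h1 : w 3 ^ 2 = w₀ 3 ^ 2 + 2 * ((w₀ 0 ^ 2 + w₀ 1 ^ 2 + w₀ 2 ^ 2)
      - (w 0 ^ 2 + w 1 ^ 2 + w 2 ^ 2)) := by
    unfold Qs at h
    linarith
  have h2 : Even (w 3 ^ 2) ↔ Even (w₀ 3 ^ 2) := by
    rw [h1, Int.even_add]
    simp
  simpa [Int.even_pow] using h2

/-! ### The data attached to a triple `(g, c, β)` -/

/-- The conclusion of `family`. -/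
def ClFam (w₀ : Fin 4 → ℤ) (n s : ℤ) (δ ε : ℕ) (r : ℤ) (g c : ℕ) (β : ZMod c)
    (w x e f : Fin 4 → ℤ) (b : ℤ) : Prop :=
  InW w₀ w ∧ Frame w n s g (ε * c) (ε * b) x e f ∧ ((r * b : ℤ) : ZMod c) = β ∧
    ∃ (β' γ : ℤ) (h : Fin 4 → ℤ), (c : ℤ) * γ - β' ^ 2 = δ ∧
      (∀ y : Fin 4 → ℤ, B (vs w) y = 0 → B x y = 0 →
        ∃ i j : ℤ, ∀ l, y l = i * f l + j * h l) ∧
      ∀ i j : ℤ, Q (fun l => i * f l + j * h l) =
        ε * (c * i ^ 2 + 2 * β' * i * j + γ * j ^ 2)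

/-- The binary form bound. -/
def ClBin (Kb : ℝ) : Prop :=
  ∀ (δ : ℕ) (c β γ : ℤ), 0 < δ → 0 < c → c * γ - β ^ 2 = δ →
    IsCoprime c (2 * δ : ℤ) → ∀ (g C₀ : ℕ) (Y : ℝ), Nat.Coprime g (2 * δ) →
    Nat.Coprime C₀ (2 * δ) → 0 ≤ Y →
    {p : ℤ × ℤ | ((c * p.1 ^ 2 + 2 * β * p.1 * p.2 + γ * p.2 ^ 2 : ℤ) : ℝ) ≤ Y ∧
      (g ^ 2 * (c * p.1 ^ 2 + 2 * β * p.1 * p.2 + γ * p.2 ^ 2)) % (16 * δ) =
        C₀ % (16 * δ)}.Finite ∧
    ({p : ℤ × ℤ | ((c * p.1 ^ 2 + 2 * β * p.1 * p.2 + γ * p.2 ^ 2 : ℤ) : ℝ) ≤ Y ∧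
      (g ^ 2 * (c * p.1 ^ 2 + 2 * β * p.1 * p.2 + γ * p.2 ^ 2)) % (16 * δ) =
        C₀ % (16 * δ)}.ncard : ℝ) ≤
      Kb * 2 ^ om δ * (Y / (Real.sqrt δ * δ) + Real.sqrt Y + δ)

theorem cl_coprime (δ g c C₀ : ℕ) (hC : Nat.Coprime C₀ (2 * δ))
    (h : (g ^ 2 * c) % (16 * δ) = C₀ % (16 * δ)) :
    Nat.Coprime g (2 * δ) ∧ Nat.Coprime c (2 * δ) := by
  have h1 : (g ^ 2 * c) ≡ C₀ [MOD 16 * δ] := h
  have h2 : (g ^ 2 * c) ≡ C₀ [MOD 2 * δ] := h1.of_dvd (Nat.mul_dvd_mul_right (by norm_num) δ)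
  have h3 : Nat.Coprime (g ^ 2 * c) (2 * δ) := by
    have h4 := h2.gcd_eq
    unfold Nat.Coprime at hC ⊢
    rw [h4]
    exact hC
  have h4 := Nat.Coprime.coprime_mul_left h3
  have h5 := Nat.Coprime.coprime_mul_right h3
  refine ⟨?_, h4⟩
  exact Nat.Coprime.coprime_dvd_left (dvd_pow_self g (by norm_num)) h5

/-- The number of triples with given `w`, `x` and `g`. -/
theorem cl_fiber (w₀ : Fin 4 → ℤ) (n s : ℤ) (δ ε C₀ X : ℕ) (r : ℤ) (Kb : ℝ) (hKb : 0 < Kb)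
    (hbin : ClBin Kb) (hδ : 0 < δ) (hε : 0 < ε) (hC₀ : Nat.Coprime C₀ (2 * δ))
    (hinj : ∀ (w x e e' f : Fin 4 → ℤ) (g : ℕ) (κ b b' : ℤ), InW w₀ w →
      Frame w n s g κ b x e f → Frame w n s g κ b' x e' f → Nat.Coprime g (2 * δ) → κ ∣ b' - b)
    (A : Finset (ℕ × ℕ × ℕ)) (W' X' E' F' : ℕ × ℕ × ℕ → Fin 4 → ℤ) (b' : ℕ × ℕ × ℕ → ℤ)
    (hA : ∀ a ∈ A, 0 < a.1 ∧ 0 < a.2.1 ∧ a.1 ^ 2 * a.2.1 ≤ X ∧
      (a.1 ^ 2 * a.2.1) % (16 * δ) = C₀ % (16 * δ) ∧ a.2.2 < a.2.1 ∧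
      ClFam w₀ n s δ ε r a.1 a.2.1 (a.2.2 : ZMod a.2.1) (W' a) (X' a) (E' a) (F' a) (b' a))
    (w x : Fin 4 → ℤ) (g : ℕ) :
    ((A.filter (fun a => (W' a = w ∧ X' a = x) ∧ a.1 = g)).card : ℝ) ≤
      Kb * 2 ^ om δ * ((X : ℝ) / g ^ 2 / (Real.sqrt δ * δ) + Real.sqrt ((X : ℝ) / g ^ 2) + δ) := by
  set Fb := A.filter (fun a => (W' a = w ∧ X' a = x) ∧ a.1 = g) with hFb
  rcases Finset.eq_empty_or_nonempty Fb with he | ⟨a₀, ha₀⟩
  · rw [he]
    simp only [Finset.card_empty, Nat.cast_zero]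
    positivity
  have hmem : ∀ a ∈ Fb, a ∈ A ∧ (W' a = w ∧ X' a = x) ∧ a.1 = g := by
    intro a ha
    rw [hFb, Finset.mem_filter] at ha
    exact ha
  obtain ⟨h0A, ⟨h0w, h0x⟩, h0g⟩ := hmem a₀ ha₀
  obtain ⟨h0g0, h0c0, h0X, h0m, h0b, h0W, h0F, h0r, β₀, γ₀, hh, hdisc, hbas, hform⟩ := hA a₀ h0A
  obtain ⟨hcg, hcc⟩ := cl_coprime δ _ _ C₀ hC₀ h0m
  rw [h0w, h0x] at hbas
  have hg0 : 0 < g := h0g ▸ h0g0
  have hcg' : Nat.Coprime g (2 * δ) := h0g ▸ hcg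
  have hcop : IsCoprime (a₀.2.1 : ℤ) (2 * δ : ℤ) := by
    have := Nat.isCoprime_iff_coprime.mpr hcc
    simpa using this
  obtain ⟨hfin, hcard⟩ := hbin δ a₀.2.1 β₀ γ₀ hδ (by exact_mod_cast h0c0) hdisc hcop g C₀
    ((X : ℝ) / g ^ 2) hcg' hC₀ (by positivity)
  set S : Set (ℤ × ℤ) := {p : ℤ × ℤ | (((a₀.2.1 : ℤ) * p.1 ^ 2 + 2 * β₀ * p.1 * p.2 +
    γ₀ * p.2 ^ 2 : ℤ) : ℝ) ≤ (X : ℝ) / g ^ 2 ∧
      ((g : ℤ) ^ 2 * ((a₀.2.1 : ℤ) * p.1 ^ 2 + 2 * β₀ * p.1 * p.2 + γ₀ * p.2 ^ 2)) % (16 * δ) =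
        C₀ % (16 * δ)} with hS
  -- coordinates of `F' a`
  have hco : ∀ a ∈ Fb, ∃ p : ℤ × ℤ, (∀ l, F' a l = p.1 * F' a₀ l + p.2 * hh l) ∧
      (a.2.1 : ℤ) = a₀.2.1 * p.1 ^ 2 + 2 * β₀ * p.1 * p.2 + γ₀ * p.2 ^ 2 := by
    intro a ha
    obtain ⟨haA, ⟨haw, hax⟩, hag⟩ := hmem a ha
    obtain ⟨-, -, -, -, -, haW, haF, -⟩ := hA a haA
    rw [haw, hax] at haF
    obtain ⟨i, j, hij⟩ := hbas (F' a) haF.hf haF.hxf
    refine ⟨(i, j), hij, ?_⟩
    have h1 := hform i j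
    have h2 : (fun l => i * F' a₀ l + j * hh l) = F' a := by
      funext l
      exact (hij l).symm
    rw [h2, haF.hff] at h1
    have hε' : (ε : ℤ) ≠ 0 := by exact_mod_cast hε.ne'
    exact mul_left_cancel₀ hε' h1
  choose! P hP1 hP2 using hco
  have hmaps : ∀ a ∈ Fb, P a ∈ S := by
    intro a ha
    obtain ⟨haA, ⟨haw, hax⟩, hag⟩ := hmem a ha
    obtain ⟨-, -, haX, ham, -, -⟩ := hA a haA
    rw [hag] at haX ham
    have h2 := hP2 a ha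
    refine ⟨?_, ?_⟩
    · rw [← h2, le_div_iff₀ (by positivity)]
      have : ((g ^ 2 * a.2.1 : ℕ) : ℝ) ≤ (X : ℝ) := by exact_mod_cast haX
      push_cast at this ⊢
      linarith
    · show ((g : ℤ) ^ 2 * ((a₀.2.1 : ℤ) * (P a).1 ^ 2 + 2 * β₀ * (P a).1 * (P a).2 +
        γ₀ * (P a).2 ^ 2)) % (16 * δ) = C₀ % (16 * δ)
      rw [← h2]
      exact_mod_cast ham
  have hinjP : Set.InjOn P (Fb : Set (ℕ × ℕ × ℕ)) := by
    intro a ha a1 ha1 hPP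
    have ha := Finset.mem_coe.mp ha
    have ha1 := Finset.mem_coe.mp ha1
    obtain ⟨haA, ⟨haw, hax⟩, hag⟩ := hmem a ha
    obtain ⟨haA1, ⟨haw1, hax1⟩, hag1⟩ := hmem a1 ha1
    obtain ⟨-, -, -, ham, hab, haW, haF, har, -⟩ := hA a haA
    obtain ⟨-, -, -, ham1, hab1, haW1, haF1, har1, -⟩ := hA a1 haA1
    have hc : a.2.1 = a1.2.1 := by
      have h1 := hP2 a ha
      have h2 := hP2 a1 ha1
      rw [hPP] at h1
      exact_mod_cast h1.trans h2.symm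
    have hf : F' a = F' a1 := by
      funext l
      rw [hP1 a ha l, hP1 a1 ha1 l, hPP]
    rw [haw, hax, hag] at haF
    rw [haw1, hax1, hag1, ← hf, ← hc] at haF1
    rw [haw] at haW
    have hdv := hinj w x (E' a) (E' a1) (F' a) g _ _ _ haW haF haF1 hcg'
    have hdv2 : (a.2.1 : ℤ) ∣ b' a1 - b' a := by
      have hε' : (ε : ℤ) ≠ 0 := by exact_mod_cast hε.ne'
      rw [← mul_sub] at hdv
      exact (mul_dvd_mul_iff_left hε').mp hdv
    have hb : a.2.2 = a1.2.2 := by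
      rw [← hc] at hab1
      have e1 : ((a.2.2 : ℕ) : ZMod a.2.1) = ((a1.2.2 : ℕ) : ZMod a.2.1) := by
        have e2 : (((r * b' a1 : ℤ)) : ZMod a.2.1) = ((a1.2.2 : ℕ) : ZMod a.2.1) := by
          rw [hc]
          exact har1
        rw [← har, ← e2]
        rw [ZMod.intCast_eq_intCast_iff_dvd_sub]
        rw [← mul_sub]
        exact Dvd.dvd.mul_left hdv2 r
      have e3 := (ZMod.natCast_eq_natCast_iff' _ _ _).mp e1
      rwa [Nat.mod_eq_of_lt hab, Nat.mod_eq_of_lt hab1] at e3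
    have hg : a.1 = a1.1 := hag.trans hag1.symm
    exact Prod.ext hg (Prod.ext hc hb)
  have hle : Fb.card ≤ S.ncard := by
    have h1 : (P '' (Fb : Set (ℕ × ℕ × ℕ))).ncard = Fb.card := by
      rw [hinjP.ncard_image, Set.ncard_coe_finset]
    rw [← h1]
    apply Set.ncard_le_ncard _ hfin
    rintro _ ⟨a, ha, rfl⟩
    exact hmaps a (Finset.mem_coe.mp ha)
  calc (Fb.card : ℝ) ≤ (S.ncard : ℝ) := by exact_mod_cast hle
    _ ≤ _ := hcard

theorem cl_sum_inv_sq (G : ℕ) : ∑ g ∈ Finset.Icc (1 : ℕ) G, 1 / (g : ℝ) ^ 2 ≤ (2 : ℝ) := by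
  have h : ∀ G : ℕ, 1 ≤ G → ∑ g ∈ Finset.Icc (1 : ℕ) G, 1 / (g : ℝ) ^ 2 ≤ (2 : ℝ) - 1 / (G : ℝ) := by
    intro G hG
    induction G, hG using Nat.le_induction with
    | base => norm_num
    | succ k hk ih =>
      rw [Finset.sum_Icc_succ_top (by omega)]
      have hk' : (0 : ℝ) < k := by exact_mod_cast hk
      have : 1 / ((k + 1 : ℕ) : ℝ) ^ 2 ≤ 1 / (k : ℝ) - 1 / ((k + 1 : ℕ) : ℝ) := by
        push_cast
        rw [div_sub_div _ _ hk'.ne' (by positivity), div_le_div_iff₀ (by positivity) (by positivity)]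
        nlinarith
      linarith
  rcases Nat.eq_zero_or_pos G with h0 | h0
  · subst h0
    simp
  · have h1 := h G h0
    have h2 : (0 : ℝ) ≤ 1 / G := by positivity
    linarith

/-- The bound for all triples. -/
theorem cl_total (w₀ : Fin 4 → ℤ) (n s : ℤ) (δ ε C₀ : ℕ) (r : ℤ) (Kb : ℝ) (hKb : 0 < Kb)
    (hbin : ClBin Kb) (hδ : 0 < δ) (hε : 0 < ε) (hC₀ : Nat.Coprime C₀ (2 * δ))
    (hinj : ∀ (w x e e' f : Fin 4 → ℤ) (g : ℕ) (κ b b' : ℤ), InW w₀ w →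
      Frame w n s g κ b x e f → Frame w n s g κ b' x e' f → Nat.Coprime g (2 * δ) → κ ∣ b' - b)
    (hfam : ∀ g c : ℕ, 0 < g → 0 < c → (g ^ 2 * c) % (16 * δ) = C₀ % (16 * δ) →
        ∀ β : ZMod c, β ^ 2 = -(δ : ZMod c) →
          ∃ (w x e f : Fin 4 → ℤ) (b : ℤ), ClFam w₀ n s δ ε r g c β w x e f b)
    (A : Finset (ℕ × ℕ × ℕ))
    (hA : ∀ a ∈ A, 0 < a.1 ∧ 0 < a.2.1 ∧ a.1 ^ 2 * a.2.1 ≤ (16 * δ) ^ 12 ∧
      (a.1 ^ 2 * a.2.1) % (16 * δ) = C₀ % (16 * δ) ∧ a.2.2 < a.2.1 ∧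
      (a.2.2 : ZMod a.2.1) ^ 2 = -(δ : ZMod a.2.1)) :
    (A.card : ℝ) ≤ (∑ w ∈ (cl_finW w₀).toFinset, ((Rset w n s).ncard : ℝ)) *
      (6 * Kb * 2 ^ om δ * (((16 * δ : ℕ) : ℝ) ^ 12 / (Real.sqrt δ * δ))) := by
  classical
  have hch : ∀ a : ℕ × ℕ × ℕ, ∃ (w x e f : Fin 4 → ℤ) (b : ℤ), a ∈ A →
      ClFam w₀ n s δ ε r a.1 a.2.1 (a.2.2 : ZMod a.2.1) w x e f b := by
    intro a
    by_cases ha : a ∈ A
    · obtain ⟨h1, h2, h3, h4, h5, h6⟩ := hA a ha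
      obtain ⟨w, x, e, f, b, h⟩ := hfam a.1 a.2.1 h1 h2 h4 _ h6
      exact ⟨w, x, e, f, b, fun _ => h⟩
    · exact ⟨0, 0, 0, 0, 0, fun h => absurd h ha⟩
  choose W' X' E' F' b' hD using hch
  have hA' : ∀ a ∈ A, 0 < a.1 ∧ 0 < a.2.1 ∧ a.1 ^ 2 * a.2.1 ≤ (16 * δ) ^ 12 ∧
      (a.1 ^ 2 * a.2.1) % (16 * δ) = C₀ % (16 * δ) ∧ a.2.2 < a.2.1 ∧
      ClFam w₀ n s δ ε r a.1 a.2.1 (a.2.2 : ZMod a.2.1) (W' a) (X' a) (E' a) (F' a) (b' a) := by
    intro a ha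
    obtain ⟨h1, h2, h3, h4, h5, h6⟩ := hA a ha
    exact ⟨h1, h2, h3, h4, h5, hD a ha⟩
  have hq1 : 1 ≤ 16 * δ := by omega
  -- the range of the pairs
  set PP : Finset (Σ _ : (Fin 4 → ℤ), (Fin 4 → ℤ)) :=
    (cl_finW w₀).toFinset.sigma (fun w => (cl_finR w n s).toFinset) with hPP
  have hPPcard : (PP.card : ℝ) = ∑ w ∈ (cl_finW w₀).toFinset, ((Rset w n s).ncard : ℝ) := by
    rw [hPP, Finset.card_sigma]
    push_cast
    apply Finset.sum_congr rfl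
    intro w _
    rw [Set.ncard_eq_toFinset_card _ (cl_finR w n s)]
  have hmapsP : ∀ a ∈ A, (⟨W' a, X' a⟩ : Σ _ : (Fin 4 → ℤ), (Fin 4 → ℤ)) ∈ PP := by
    intro a ha
    obtain ⟨h1, h2, h3, h4, h5, hW, hF, -⟩ := hA' a ha
    rw [hPP, Finset.mem_sigma]
    refine ⟨?_, ?_⟩
    · rw [Set.Finite.mem_toFinset]
      exact hW
    · rw [Set.Finite.mem_toFinset]
      exact ⟨hF.hx, hF.hs, cl_satV _ _ _ _ hF.det⟩
  have hcard1 := Finset.card_eq_sum_card_fiberwise hmapsP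
  -- bound for one pair
  have hpair : ∀ p ∈ PP, ((A.filter (fun a =>
      (⟨W' a, X' a⟩ : Σ _ : (Fin 4 → ℤ), (Fin 4 → ℤ)) = p)).card : ℝ) ≤
      6 * Kb * 2 ^ om δ * (((16 * δ : ℕ) : ℝ) ^ 12 / (Real.sqrt δ * δ)) := by
    rintro ⟨w, x⟩ -
    set Bf := A.filter (fun a => (⟨W' a, X' a⟩ : Σ _ : (Fin 4 → ℤ), (Fin 4 → ℤ)) = ⟨w, x⟩)
      with hBf
    have hg : ∀ a ∈ Bf, a.1 ∈ Finset.Icc 1 ((16 * δ) ^ 6) := by
      intro a ha
      rw [hBf, Finset.mem_filter] at ha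
      obtain ⟨h1, h2, h3, -⟩ := hA' a ha.1
      rw [Finset.mem_Icc]
      refine ⟨h1, ?_⟩
      by_contra hcon
      push Not at hcon
      have h4 : ((16 * δ) ^ 6) ^ 2 < a.1 ^ 2 := Nat.pow_lt_pow_left hcon (by norm_num)
      have h5 : a.1 ^ 2 ≤ a.1 ^ 2 * a.2.1 := Nat.le_mul_of_pos_right _ h2
      rw [← pow_mul] at h4
      have : (16 * δ) ^ 12 < (16 * δ) ^ 12 := lt_of_lt_of_le h4 (h5.trans h3)
      exact absurd this (lt_irrefl _)
    have hcard2 := Finset.card_eq_sum_card_fiberwise hg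
    have hone : ∀ g ∈ Finset.Icc 1 ((16 * δ) ^ 6), ((Bf.filter (fun a => a.1 = g)).card : ℝ) ≤
        Kb * 2 ^ om δ * (2 * (((16 * δ : ℕ) : ℝ) ^ 12 / (Real.sqrt δ * δ)) * (1 / (g : ℝ) ^ 2)
          + 2 * (Real.sqrt δ * δ)) := by
      intro g hgm
      have hg1 : 1 ≤ g := (Finset.mem_Icc.mp hgm).1
      have hg1' : (0 : ℝ) < g := by exact_mod_cast hg1
      have h1 := cl_fiber w₀ n s δ ε C₀ ((16 * δ) ^ 12) r Kb hKb hbin hδ hε hC₀ hinj A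
        W' X' E' F' b' hA' w x g
      have h2 : Bf.filter (fun a => a.1 = g) =
          A.filter (fun a => (W' a = w ∧ X' a = x) ∧ a.1 = g) := by
        ext a
        simp only [hBf, Finset.mem_filter, Sigma.mk.injEq, heq_eq_eq]
        tauto
      rw [h2]
      refine h1.trans ?_
      apply mul_le_mul_of_nonneg_left _ (by positivity)
      set Y : ℝ := (((16 * δ) ^ 12 : ℕ) : ℝ) / (g : ℝ) ^ 2 with hY
      have hYpos : 0 ≤ Y := by positivity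
      have hδ' : (1 : ℝ) ≤ δ := by exact_mod_cast hδ
      set α : ℝ := Real.sqrt δ * δ with hα
      have hsq1 : 1 ≤ Real.sqrt δ := by
        rw [Real.one_le_sqrt]
        exact hδ'
      have hαδ : (δ : ℝ) ≤ α := by
        rw [hα]
        nlinarith
      have hα0 : 0 < α := lt_of_lt_of_le (by linarith) hαδ
      have hsY : Real.sqrt Y ≤ Y / α + α := by
        rcases le_total (Real.sqrt Y) α with h | h
        · have : 0 ≤ Y / α := by positivity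
          linarith
        · have h3 : Real.sqrt Y * Real.sqrt Y = Y := Real.mul_self_sqrt hYpos
          have h4 : Real.sqrt Y ≤ Y / α := by
            rw [le_div_iff₀ hα0]
            nlinarith [Real.sqrt_nonneg Y]
          linarith
      have hYe : Y / α = ((16 * δ : ℕ) : ℝ) ^ 12 / α * (1 / (g : ℝ) ^ 2) := by
        rw [hY]
        push_cast
        field_simp
      have : 2 * (((16 * δ : ℕ) : ℝ) ^ 12 / α) * (1 / (g : ℝ) ^ 2) = 2 * (Y / α) := by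
        rw [hYe]
        ring
      rw [this]
      linarith
    have hsum : (Bf.card : ℝ) ≤ ∑ g ∈ Finset.Icc (1 : ℕ) ((16 * δ) ^ 6),
        Kb * 2 ^ om δ * (2 * (((16 * δ : ℕ) : ℝ) ^ 12 / (Real.sqrt δ * δ)) * (1 / (g : ℝ) ^ 2)
          + 2 * (Real.sqrt δ * δ)) := by
      rw [hcard2, Nat.cast_sum]
      exact Finset.sum_le_sum hone
    refine hsum.trans ?_
    rw [← Finset.mul_sum, Finset.sum_add_distrib, ← Finset.mul_sum, Finset.sum_const,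
      Nat.card_Icc, nsmul_eq_mul]
    have hs2 := cl_sum_inv_sq ((16 * δ) ^ 6)
    have hδ' : (1 : ℝ) ≤ δ := by exact_mod_cast hδ
    have hsq1 : 1 ≤ Real.sqrt δ := by
      rw [Real.one_le_sqrt]
      exact hδ'
    have hα0 : 0 < Real.sqrt δ * δ := by positivity
    set q : ℝ := ((16 * δ : ℕ) : ℝ) with hq
    have hqδ : (δ : ℝ) ≤ q := by
      rw [hq]
      push_cast
      linarith
    have hq1' : 1 ≤ q := hδ'.trans hqδ
    have hα2 : (Real.sqrt δ * δ) * (Real.sqrt δ * δ) = (δ : ℝ) ^ 3 := by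
      have := Real.mul_self_sqrt (show (0 : ℝ) ≤ δ by positivity)
      calc (Real.sqrt δ * δ) * (Real.sqrt δ * δ) = (Real.sqrt δ * Real.sqrt δ) * (δ : ℝ) ^ 2 := by
            ring
        _ = (δ : ℝ) ^ 3 := by
            rw [this]
            ring
    have hα3 : (Real.sqrt δ * δ) * q ^ 6 ≤ q ^ 12 / (Real.sqrt δ * δ) := by
      rw [le_div_iff₀ hα0]
      have h1 : Real.sqrt δ * δ * q ^ 6 * (Real.sqrt δ * δ) = (δ : ℝ) ^ 3 * q ^ 6 := by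
        rw [← hα2]
        ring
      rw [h1]
      have h2 : (δ : ℝ) ^ 3 ≤ q ^ 3 := pow_le_pow_left₀ (by positivity) hqδ 3
      have h3 : q ^ 3 ≤ q ^ 6 := pow_le_pow_right₀ hq1' (by norm_num)
      calc (δ : ℝ) ^ 3 * q ^ 6 ≤ q ^ 6 * q ^ 6 :=
            mul_le_mul_of_nonneg_right (h2.trans h3) (by positivity)
        _ = q ^ 12 := by ring
    have hcast : (((16 * δ) ^ 6 + 1 - 1 : ℕ) : ℝ) = q ^ 6 := by
      rw [hq]
      simp
    rw [hcast]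
    have hX : 0 ≤ q ^ 12 / (Real.sqrt δ * δ) := by positivity
    have h5 : 2 * (q ^ 12 / (Real.sqrt δ * δ)) *
        ∑ g ∈ Finset.Icc (1 : ℕ) ((16 * δ) ^ 6), 1 / (g : ℝ) ^ 2 ≤
        4 * (q ^ 12 / (Real.sqrt δ * δ)) := by
      nlinarith
    have h6 : q ^ 6 * (2 * (Real.sqrt δ * δ)) ≤ 2 * (q ^ 12 / (Real.sqrt δ * δ)) := by
      nlinarith
    have h7 : 2 * (q ^ 12 / (Real.sqrt δ * δ)) *
        ∑ g ∈ Finset.Icc (1 : ℕ) ((16 * δ) ^ 6), 1 / (g : ℝ) ^ 2 + q ^ 6 * (2 * (Real.sqrt δ * δ)) ≤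
        6 * (q ^ 12 / (Real.sqrt δ * δ)) := by linarith
    have h8 : 0 ≤ Kb * 2 ^ om δ := by positivity
    calc Kb * 2 ^ om δ * (2 * (q ^ 12 / (Real.sqrt δ * δ)) *
        ∑ g ∈ Finset.Icc (1 : ℕ) ((16 * δ) ^ 6), 1 / (g : ℝ) ^ 2 + q ^ 6 * (2 * (Real.sqrt δ * δ)))
        ≤ Kb * 2 ^ om δ * (6 * (q ^ 12 / (Real.sqrt δ * δ))) :=
          mul_le_mul_of_nonneg_left h7 h8
      _ = 6 * Kb * 2 ^ om δ * (q ^ 12 / (Real.sqrt δ * δ)) := by ring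
  rw [← hPPcard]
  have h9 : (A.card : ℝ) = ∑ p ∈ PP, ((A.filter (fun a =>
      (⟨W' a, X' a⟩ : Σ _ : (Fin 4 → ℤ), (Fin 4 → ℤ)) = p)).card : ℝ) := by
    rw [hcard1]
    push_cast
    rfl
  rw [h9]
  calc _ ≤ ∑ p ∈ PP, 6 * Kb * 2 ^ om δ * (((16 * δ : ℕ) : ℝ) ^ 12 / (Real.sqrt δ * δ)) :=
        Finset.sum_le_sum hpair
    _ = _ := by
        rw [Finset.sum_const, nsmul_eq_mul]

/-- The number of triples is at least the character sum. -/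
theorem cl_triples (δ C₀ X : ℕ) (hδ : 0 < δ) (hC₀ : Nat.Coprime C₀ (2 * δ)) :
    ∃ A : Finset (ℕ × ℕ × ℕ), (∀ a ∈ A, 0 < a.1 ∧ 0 < a.2.1 ∧ a.1 ^ 2 * a.2.1 ≤ X ∧
      (a.1 ^ 2 * a.2.1) % (16 * δ) = C₀ % (16 * δ) ∧ a.2.2 < a.2.1 ∧
      (a.2.2 : ZMod a.2.1) ^ 2 = -(δ : ZMod a.2.1)) ∧
    (∑ C ∈ (Finset.Icc 1 X).filter (fun C => C % (16 * δ) = C₀ % (16 * δ)),
      ∑ d ∈ C.divisors, chi δ d) = A.card := by
  classical
  set T : Finset (Σ _ : ℕ, Σ _ : ℕ, ℕ) :=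
    ((Finset.Icc 1 X).filter (fun C => C % (16 * δ) = C₀ % (16 * δ))).sigma
      (fun C => ((Finset.range (C + 1)).filter (fun g => 0 < g ∧ g ^ 2 ∣ C)).sigma
        (fun g => (Finset.range (C / g ^ 2)).filter
          (fun b : ℕ => (b : ZMod (C / g ^ 2)) ^ 2 = -(δ : ZMod (C / g ^ 2))))) with hT
  have hrho : ∀ c : ℕ, 0 < c → ((Finset.range c).filter
      (fun b : ℕ => (b : ZMod c) ^ 2 = -(δ : ZMod c))).card = rho δ c := by
    intro c hc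
    have : NeZero c := ⟨hc.ne'⟩
    unfold rho
    rw [← Set.ncard_coe_finset]
    have h1 : {β : ZMod c | β ^ 2 = -(δ : ZMod c)} = (fun b : ℕ => (b : ZMod c)) ''
        (((Finset.range c).filter (fun b : ℕ => (b : ZMod c) ^ 2 = -(δ : ZMod c)) :
          Finset ℕ) : Set ℕ) := by
      ext β
      simp only [Set.mem_ofPred_eq, Finset.coe_filter, Finset.mem_range, Set.mem_image]
      constructor
      · intro h
        refine ⟨β.val, ⟨ZMod.val_lt β, ?_⟩, ?_⟩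
        · rw [ZMod.natCast_zmod_val]
          exact h
        · exact ZMod.natCast_zmod_val β
      · rintro ⟨b, ⟨-, h⟩, rfl⟩
        exact h
    rw [h1, Set.InjOn.ncard_image]
    intro b hb b1 hb1 h
    simp only [Finset.coe_filter, Finset.mem_range, Set.mem_ofPred_eq] at hb hb1
    have h3 := (ZMod.natCast_eq_natCast_iff' _ _ _).mp h
    rwa [Nat.mod_eq_of_lt hb.1, Nat.mod_eq_of_lt hb1.1] at h3
  have hTcard : (∑ C ∈ (Finset.Icc 1 X).filter (fun C => C % (16 * δ) = C₀ % (16 * δ)),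
      ∑ d ∈ C.divisors, chi δ d) = (T.card : ℤ) := by
    rw [hT, Finset.card_sigma]
    push_cast
    apply Finset.sum_congr rfl
    intro C hC
    rw [Finset.mem_filter, Finset.mem_Icc] at hC
    have hC0 : 0 < C := hC.1.1
    have hcop : Nat.Coprime C (2 * δ) :=
      (cl_coprime δ 1 C C₀ hC₀ (by simpa using hC.2)).2
    rw [rho_sum δ C hδ hC0 hcop, Finset.card_sigma]
    push_cast
    apply Finset.sum_congr rfl
    intro g hg
    rw [Finset.mem_filter] at hg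
    rw [hrho]
    apply Nat.div_pos (Nat.le_of_dvd hC0 hg.2.2)
    exact pow_pos hg.2.1 2
  set φ : (Σ _ : ℕ, Σ _ : ℕ, ℕ) → ℕ × ℕ × ℕ := fun t => (t.2.1, t.1 / t.2.1 ^ 2, t.2.2) with hφ
  have hmem : ∀ t ∈ T, (0 < t.1 ∧ t.1 ≤ X ∧ t.1 % (16 * δ) = C₀ % (16 * δ)) ∧
      (0 < t.2.1 ∧ t.2.1 ^ 2 ∣ t.1) ∧ t.2.2 < t.1 / t.2.1 ^ 2 ∧
        (t.2.2 : ZMod (t.1 / t.2.1 ^ 2)) ^ 2 = -(δ : ZMod (t.1 / t.2.1 ^ 2)) := by
    intro t ht
    rw [hT, Finset.mem_sigma, Finset.mem_sigma, Finset.mem_filter, Finset.mem_filter,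
      Finset.mem_filter, Finset.mem_Icc, Finset.mem_range] at ht
    obtain ⟨⟨⟨h1, h2⟩, h3⟩, ⟨-, h4, h5⟩, h6, h7⟩ := ht
    exact ⟨⟨h1, h2, h3⟩, ⟨h4, h5⟩, by simpa using h6, h7⟩
  have hinj : Set.InjOn φ (T : Set (Σ _ : ℕ, Σ _ : ℕ, ℕ)) := by
    rintro ⟨C, g, b⟩ h ⟨C1, g1, b1⟩ h1 he
    obtain ⟨-, ⟨-, hd⟩, -⟩ := hmem _ (Finset.mem_coe.mp h)
    obtain ⟨-, ⟨-, hd1⟩, -⟩ := hmem _ (Finset.mem_coe.mp h1)
    simp only [hφ, Prod.mk.injEq] at he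
    obtain ⟨e1, e2, e3⟩ := he
    simp only at hd hd1
    subst e1
    subst e3
    have : C = C1 := by
      rw [← Nat.div_mul_cancel hd, ← Nat.div_mul_cancel hd1, e2]
    subst this
    rfl
  refine ⟨T.image φ, ?_, ?_⟩
  · intro a ha
    rw [Finset.mem_image] at ha
    obtain ⟨t, ht, rfl⟩ := ha
    obtain ⟨⟨h1, h2, h3⟩, ⟨h4, h5⟩, h6, h7⟩ := hmem t ht
    have h8 : t.2.1 ^ 2 * (t.1 / t.2.1 ^ 2) = t.1 := Nat.mul_div_cancel' h5
    simp only [hφ]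
    refine ⟨h4, ?_, ?_, ?_, h6, h7⟩
    · exact Nat.div_pos (Nat.le_of_dvd h1 h5) (pow_pos h4 2)
    · rw [h8]
      exact h2
    · rw [h8]
      exact h3
  · rw [hTcard, Finset.card_image_of_injOn hinj]

/-- LX-E9 CountLower.lean -/
theorem count_lower (w₀ : Fin 4 → ℤ) (hw : Prim w₀) : ∃ K : ℝ, 0 < K ∧ ∀ (n s : ℤ) (L : ℝ),
    GoodS w₀ n s → 0 < n → K ≤ ((Qs w₀ * n - 2 * s ^ 2 : ℤ) : ℝ) →
    IsL (Qs w₀ * n - 2 * s ^ 2).toNat L → 1 / ((Qs w₀ * n - 2 * s ^ 2 : ℤ) : ℝ) ≤ L →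
    ∃ w, InW w₀ w ∧ Real.sqrt ((Qs w₀ * n - 2 * s ^ 2 : ℤ) : ℝ) * L ≤
      K * 2 ^ om (Qs w₀ * n - 2 * s ^ 2).toNat * (Rset w n s).ncard := by
  classical
  obtain ⟨Kb, hKb, hbin0⟩ := bin_count
  have hbin : ClBin Kb := hbin0
  set Wf := (cl_finW w₀).toFinset with hWf
  have hw₀ : w₀ ∈ Wf := by
    rw [hWf, Set.Finite.mem_toFinset]
    exact ⟨hw, rfl, Iff.rfl⟩
  have hWcard : 0 < Wf.card := Finset.card_pos.mpr ⟨w₀, hw₀⟩
  refine ⟨5 + 192 * Kb * Wf.card, by positivity, ?_⟩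
  intro n s L hs hn hKΔ hL hL1
  set Δ : ℤ := Qs w₀ * n - 2 * s ^ 2 with hΔdef
  have hWc : (0 : ℝ) < Wf.card := by exact_mod_cast hWcard
  have hΔ5 : (5 : ℝ) ≤ (Δ : ℝ) := by
    have : 0 < 192 * Kb * Wf.card := by positivity
    linarith
  have hΔ5' : 5 ≤ Δ := by exact_mod_cast hΔ5
  have hΔ : 0 < Δ := by linarith
  obtain ⟨δ, ε, C₀, r, hδ, hδΔ, hchi, hε, hC₀0, hC₀, hχ₀, hfam⟩ := family w₀ hw n s hs hn hΔ
  have hε0 : 0 < ε := by
    rcases hε with h | h <;> rw [h] <;> norm_num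
  rw [← hΔdef] at hδΔ hchi
  have hΔδ : Δ ≤ 4 * (δ : ℤ) ∧ (δ : ℤ) ≤ Δ ∧ (δ : ℤ) ∣ Δ := by
    rcases hδΔ with h | h
    · rw [← h]
      exact ⟨by linarith, le_refl _, dvd_refl _⟩
    · rw [← h]
      exact ⟨le_refl _, by linarith, dvd_mul_left _ _⟩
  obtain ⟨hΔ4, hδle, hδdvd⟩ := hΔδ
  have hΔnat : ((Δ.toNat : ℕ) : ℤ) = Δ := Int.toNat_of_nonneg hΔ.le
  have hΔR : ((Δ.toNat : ℕ) : ℝ) = (Δ : ℝ) := by
    have : (((Δ.toNat : ℕ) : ℤ) : ℝ) = (Δ : ℝ) := by rw [hΔnat]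
    rw [← this, Int.cast_natCast]
  have hδR : (0 : ℝ) < δ := by exact_mod_cast hδ
  have hδ1 : (1 : ℝ) ≤ δ := by exact_mod_cast hδ
  have hΔ4R : (Δ : ℝ) ≤ 4 * δ := by exact_mod_cast hΔ4
  have hΔR0 : (0 : ℝ) < Δ := by exact_mod_cast hΔ
  -- the injectivity hypothesis
  have hinj : ∀ (w x e e' f : Fin 4 → ℤ) (g : ℕ) (κ b b' : ℤ), InW w₀ w →
      Frame w n s g κ b x e f → Frame w n s g κ b' x e' f → Nat.Coprime g (2 * δ) →
        κ ∣ b' - b := by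
    intro w x e e' f g κ b b' hwW hF hF' hg
    have hQ : Qs w = Qs w₀ := hwW.2.1
    have hev := cl_evenW w₀ w hQ
    apply frame_inj w x e e' f n s g κ b b' hF hF'
    · by_cases h : Even (w 3)
      · rw [if_pos h, hQ]
        exact (hs.2 (hev.mp h)).1
      · rw [if_neg h, hQ]
        have h' : Odd (w₀ 3) := by
          rw [← Int.not_even_iff_odd]
          exact fun h1 => h (hev.mpr h1)
        exact (hs.1 h').1
    · rw [hQ, ← hΔdef]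
      have h1 : IsCoprime (g : ℤ) (2 * δ : ℤ) := by
        have := Nat.isCoprime_iff_coprime.mpr hg
        simpa using this
      have h2 : IsCoprime (g : ℤ) (2 : ℤ) := IsCoprime.of_mul_right_left h1
      have h3 : IsCoprime (g : ℤ) (δ : ℤ) := IsCoprime.of_mul_right_right h1
      rcases hδΔ with h | h
      · rw [← h]
        exact h3
      · rw [← h]
        have h4 : IsCoprime (g : ℤ) (4 : ℤ) := by
          have := IsCoprime.mul_right h2 h2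
          norm_num at this
          exact this
        exact IsCoprime.mul_right h4 h3
    · rw [hQ, ← hΔdef]
      linarith
  have hfam' : ∀ g c : ℕ, 0 < g → 0 < c → (g ^ 2 * c) % (16 * δ) = C₀ % (16 * δ) →
        ∀ β : ZMod c, β ^ 2 = -(δ : ZMod c) →
          ∃ (w x e f : Fin 4 → ℤ) (b : ℤ), ClFam w₀ n s δ ε r g c β w x e f b := hfam
  -- the character sum
  set X : ℕ := (16 * δ) ^ 12 with hX
  obtain ⟨A, hA, hAcard⟩ := cl_triples δ C₀ X hδ hC₀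
  have hupper := cl_total w₀ n s δ ε C₀ r Kb hKb hbin hδ hε0 hC₀ hinj hfam' A hA
  have hcop16 : ∀ k : ℕ, Nat.Coprime k (2 * δ) ↔ Nat.Coprime k (16 * δ) := by
    intro k
    have h1 : ∀ k : ℕ, Nat.Coprime k (16 * δ) ↔ Nat.Coprime k 2 ∧ Nat.Coprime k δ := by
      intro k
      rw [Nat.coprime_mul_iff_right, show (16 : ℕ) = 2 ^ 4 by norm_num,
        Nat.coprime_pow_right_iff (by norm_num)]
    rw [h1, Nat.coprime_mul_iff_right]
  have hap := ap_sum (fun k => chi δ k) (16 * δ) (by omega) (fun a b => chi_mul δ a b)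
    (fun k => chi_abs δ k)
    (fun k => by
      have e1 := chi_add δ k hδ
      have e2 := chi_add δ (k + 4 * δ) hδ
      have e3 := chi_add δ (k + 4 * δ + 4 * δ) hδ
      have e4 := chi_add δ (k + 4 * δ + 4 * δ + 4 * δ) hδ
      have e5 : k + 16 * δ = k + 4 * δ + 4 * δ + 4 * δ + 4 * δ := by ring
      show chi δ (k + 16 * δ) = chi δ k
      rw [e5, e4, e3, e2, e1])
    (fun k => by
      show chi δ k ≠ 0 ↔ _
      rw [chi_ne_zero_iff δ k hδ]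
      exact hcop16 k)
    (fun a b => by
      refine (chi_sum_le δ a b hδ).trans ?_
      push_cast
      linarith [show (0 : ℤ) < δ by exact_mod_cast hδ])
    C₀ ((hcop16 C₀).mp hC₀) hχ₀ L (16 * Δ.toNat)
    (fun x hx => by
      have := hL x hx
      have h2 : ∑ k ∈ Finset.Icc 1 x, ((chi δ k : ℤ) : ℝ) / k =
          ∑ k ∈ Finset.Icc 1 x, (chi Δ.toNat k : ℝ) / k := by
        apply Finset.sum_congr rfl
        intro k _
        rw [hchi k]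
      rw [h2]
      exact this)
    X (by
      rw [hX]
      exact Nat.one_le_pow _ _ (by omega))
  rw [hAcard] at hap
  set q : ℝ := ((16 * δ : ℕ) : ℝ) with hq
  have hqδ : q = 16 * δ := by
    rw [hq]
    push_cast
    ring
  have hq16 : 16 ≤ q := by
    rw [hqδ]
    linarith
  have hXR : ((X : ℕ) : ℝ) = q ^ 12 := by
    rw [hX, hq]
    push_cast
    ring
  have hsqX : Real.sqrt (X : ℝ) = q ^ 6 := by
    rw [hXR, show q ^ 12 = (q ^ 6) ^ 2 by ring]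
    exact Real.sqrt_sq (by positivity)
  rw [hXR] at hap
  rw [← hXR, hsqX, hXR] at hap
  have hAR : (((A.card : ℕ) : ℤ) : ℝ) = (A.card : ℝ) := by simp
  rw [hAR] at hap
  have hE : 4 * (16 * ((Δ.toNat : ℕ) : ℝ)) / q + 20 ≤ 36 := by
    rw [hΔR]
    have : 4 * (16 * (Δ : ℝ)) / q ≤ 16 := by
      rw [div_le_iff₀ (by linarith), hqδ]
      linarith
    linarith
  have hLlow : 4 / q ≤ L := by
    refine le_trans ?_ hL1
    rw [div_le_div_iff₀ (by linarith) hΔR0, hqδ]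
    linarith
  have hLpos : 0 < L := lt_of_lt_of_le (by positivity) hLlow
  have hlow : q ^ 12 * L / q ≤ (A.card : ℝ) := by
    have h1 := (abs_le.mp hap).1
    have h2 : (4 * (16 * ((Δ.toNat : ℕ) : ℝ)) / q + 20) * q ^ 6 ≤ 36 * q ^ 6 :=
      mul_le_mul_of_nonneg_right hE (by positivity)
    have h3 : 36 * q ^ 6 ≤ q ^ 12 * L / q := by
      rw [le_div_iff₀ (by linarith)]
      have h4 : q ^ 12 * (4 / q) ≤ q ^ 12 * L := mul_le_mul_of_nonneg_left hLlow (by positivity)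
      have h5 : q ^ 12 * (4 / q) = 4 * q ^ 11 := by
        field_simp
      have h6 : 36 * q ^ 6 * q ≤ 4 * q ^ 11 := by
        have h7 : (9 : ℝ) ≤ q ^ 4 := by
          have : (16 : ℝ) ^ 4 ≤ q ^ 4 := pow_le_pow_left₀ (by norm_num) hq16 4
          linarith
        have h8 : 0 ≤ q ^ 7 := by positivity
        nlinarith
      linarith
    have h9 : 2 * q ^ 12 * L / q = 2 * (q ^ 12 * L / q) := by ring
    rw [h9] at h1
    linarith
  set Sm : ℝ := ∑ w ∈ Wf, ((Rset w n s).ncard : ℝ) with hSm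
  -- the best direction
  obtain ⟨w, hwm, hwmax⟩ := Finset.exists_max_image Wf (fun w => ((Rset w n s).ncard : ℝ))
    ⟨w₀, hw₀⟩
  have hSm_le : Sm ≤ Wf.card * ((Rset w n s).ncard : ℝ) := by
    rw [hSm]
    calc ∑ w ∈ Wf, ((Rset w n s).ncard : ℝ) ≤ ∑ _w ∈ Wf, ((Rset w n s).ncard : ℝ) :=
          Finset.sum_le_sum hwmax
      _ = Wf.card * ((Rset w n s).ncard : ℝ) := by
          rw [Finset.sum_const, nsmul_eq_mul]
  refine ⟨w, ?_, ?_⟩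
  · rw [hWf, Set.Finite.mem_toFinset] at hwm
    exact hwm
  have h1 : q ^ 12 * L / q ≤ Sm * (6 * Kb * 2 ^ om δ * (q ^ 12 / (Real.sqrt δ * δ))) :=
    hlow.trans hupper
  have hsδ : 0 < Real.sqrt δ := Real.sqrt_pos.mpr hδR
  have h2 : Real.sqrt δ * L ≤ 96 * Kb * 2 ^ om δ * Sm := by
    have hq12 : 0 < q ^ 12 := by positivity
    have e1 : q ^ 12 * L / q = q ^ 12 * (L / (16 * δ)) := by
      rw [hqδ]
      ring
    have e2 : Sm * (6 * Kb * 2 ^ om δ * (q ^ 12 / (Real.sqrt δ * δ))) =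
        q ^ 12 * (6 * Kb * 2 ^ om δ * Sm / (Real.sqrt δ * δ)) := by
      ring
    rw [e1, e2] at h1
    have h3 := le_of_mul_le_mul_left h1 hq12
    rw [div_le_div_iff₀ (by positivity) (by positivity)] at h3
    have h4 : L * (Real.sqrt δ * δ) = (Real.sqrt δ * L) * δ := by ring
    have h5 : 6 * Kb * 2 ^ om δ * Sm * (16 * δ) = (96 * Kb * 2 ^ om δ * Sm) * δ := by ring
    rw [h4, h5] at h3
    exact le_of_mul_le_mul_right h3 hδR
  have hsΔ : Real.sqrt (Δ : ℝ) ≤ 2 * Real.sqrt δ := by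
    have : Real.sqrt (Δ : ℝ) ≤ Real.sqrt (4 * δ) := Real.sqrt_le_sqrt hΔ4R
    have h4 : Real.sqrt (4 * δ) = 2 * Real.sqrt δ := by
      rw [Real.sqrt_mul (by norm_num), show (4 : ℝ) = 2 ^ 2 by norm_num,
        Real.sqrt_sq (by norm_num)]
    rwa [h4] at this
  have hom : om δ ≤ om Δ.toNat := by
    unfold om
    apply Finset.card_le_card
    apply Nat.primeFactors_mono
    · have : (δ : ℤ) ∣ ((Δ.toNat : ℕ) : ℤ) := by
        rw [hΔnat]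
        exact hδdvd
      exact_mod_cast this
    · have : 0 < Δ.toNat := by
        have : (0 : ℤ) < ((Δ.toNat : ℕ) : ℤ) := by
          rw [hΔnat]
          exact hΔ
        exact_mod_cast this
      exact this.ne'
  have hpow : (2 : ℝ) ^ om δ ≤ 2 ^ om Δ.toNat := pow_le_pow_right₀ (by norm_num) hom
  have hSm0 : 0 ≤ Sm := Finset.sum_nonneg (fun _ _ => by positivity)
  have hRn : (0 : ℝ) ≤ ((Rset w n s).ncard : ℝ) := by positivity
  calc Real.sqrt (Δ : ℝ) * L ≤ 2 * Real.sqrt δ * L :=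
        mul_le_mul_of_nonneg_right hsΔ hLpos.le
    _ = 2 * (Real.sqrt δ * L) := by ring
    _ ≤ 2 * (96 * Kb * 2 ^ om δ * Sm) := by linarith
    _ = 192 * Kb * 2 ^ om δ * Sm := by ring
    _ ≤ 192 * Kb * 2 ^ om Δ.toNat * (Wf.card * ((Rset w n s).ncard : ℝ)) := by
        apply mul_le_mul _ hSm_le hSm0 (by positivity)
        apply mul_le_mul_of_nonneg_left hpow (by positivity)
    _ = (192 * Kb * Wf.card) * 2 ^ om Δ.toNat * ((Rset w n s).ncard : ℝ) := by ring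
    _ ≤ (5 + 192 * Kb * Wf.card) * 2 ^ om Δ.toNat * ((Rset w n s).ncard : ℝ) := by
        apply mul_le_mul_of_nonneg_right _ hRn
        apply mul_le_mul_of_nonneg_right _ (by positivity)
        linarith

end Pool.Agent.LX
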