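import Pool.Agent.LX.Defs
import Pool.Agent.LX.ChiChar

set_option autoImplicit false

open Matrix

namespace Pool.Agent.LX

section LBound

open Complex Finset MeasureTheory Filter Topology Asymptotics

variable {q : ℕ} [NeZero q] {χ : DirichletCharacter ℂ q}

lemma char_sum_range (hχ : χ ≠ 1) : ∑ a ∈ range q, χ (a : ZMod q) = 0 := by
  rw [← MulChar.sum_eq_zero_of_ne_one hχ]
  refine Finset.sum_bij' (fun a _ => (a : ZMod q)) (fun x _ => x.val) ?_ ?_ ?_ ?_ ?_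
  · intro a _; exact Finset.mem_univ _
  · intro x _; exact Finset.mem_range.mpr (ZMod.val_lt x)
  · intro a ha; exact ZMod.val_cast_of_lt (Finset.mem_range.mp ha)
  · intro x _; exact ZMod.natCast_zmod_val x
  · intro a _; rfl

lemma char_two_le (hχ : χ ≠ 1) : 2 ≤ q := by
  have h0 : q ≠ 0 := NeZero.ne q
  rcases Nat.lt_or_ge q 2 with h | h
  · exfalso
    have h1 : q = 1 := by omega
    subst h1
    exact hχ (DirichletCharacter.level_one χ)
  · exact h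

lemma char_cast_zero (hχ : χ ≠ 1) : χ ((0 : ℕ) : ZMod q) = 0 := by
  have h2 := char_two_le hχ
  have : Fact (1 < q) := ⟨by omega⟩
  rw [Nat.cast_zero]
  exact MulChar.map_zero χ

lemma char_periodic (hχ : χ ≠ 1) :
    Function.Periodic (fun n : ℕ => ∑ a ∈ range n, χ (a : ZMod q)) q := by
  intro n
  induction n with
  | zero => simp [char_sum_range hχ]
  | succ n ih =>
    simp only at ih ⊢
    rw [show n + 1 + q = (n + q) + 1 by ring, Finset.sum_range_succ, ih, Finset.sum_range_succ]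
    simp

lemma char_range_le (hχ : χ ≠ 1) (n : ℕ) : ‖∑ a ∈ range n, χ (a : ZMod q)‖ ≤ q := by
  have h := (char_periodic hχ).map_mod_nat n
  rw [show ∑ a ∈ range n, χ (a : ZMod q) = ∑ a ∈ range (n % q), χ (a : ZMod q) from h.symm]
  refine (norm_sum_le _ _).trans ?_
  refine (Finset.sum_le_sum (fun a _ => DirichletCharacter.norm_le_one χ _)).trans ?_
  simp only [Finset.sum_const, Finset.card_range, nsmul_eq_mul, mul_one]
  exact_mod_cast (Nat.mod_lt _ (Nat.pos_of_ne_zero (NeZero.ne q))).le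

lemma char_Icc_zero (hχ : χ ≠ 1) (n : ℕ) :
    ∑ k ∈ Icc 0 n, χ (k : ZMod q) = ∑ k ∈ Icc 1 n, χ (k : ZMod q) := by
  rw [← insert_Icc_add_one_left_eq_Icc n.zero_le, sum_insert (by simp), char_cast_zero hχ,
    zero_add, zero_add]

lemma char_Icc_le (hχ : χ ≠ 1) (n : ℕ) : ‖∑ k ∈ Icc 1 n, χ (k : ZMod q)‖ ≤ q := by
  rw [← char_Icc_zero hχ, ← Nat.range_succ_eq_Icc_zero]
  exact char_range_le hχ _

/-- The partial sums as a function of a real variable. -/
noncomputable def chS (χ : DirichletCharacter ℂ q) (t : ℝ) : ℂ :=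
  ∑ k ∈ Icc 1 ⌊t⌋₊, χ (k : ZMod q)

lemma chS_le (hχ : χ ≠ 1) (t : ℝ) : ‖chS χ t‖ ≤ q := char_Icc_le hχ _

omit [NeZero q] in
lemma chS_zero {t : ℝ} (ht : t < 1) : chS χ t = 0 := by
  unfold chS
  rw [Nat.floor_eq_zero.mpr ht]
  simp

omit [NeZero q] in
lemma chS_locInt : LocallyIntegrableOn (chS χ) (Set.Ioi 0) := by
  have h := locallyIntegrableOn_mul_sum_Icc (a := 0) (m := 1) (fun k => χ (k : ZMod q)) le_rfl
    (g := fun _ => (1 : ℂ)) (locallyIntegrableOn_const 1)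
  refine (h.congr ?_).mono_set Set.Ioi_subset_Ici_self
  exact Filter.Eventually.of_forall (fun t => by simp [chS])

lemma chS_top (hχ : χ ≠ 1) : chS χ =O[atTop] (fun t : ℝ => t ^ (-(0 : ℝ))) := by
  refine IsBigO.of_bound q (Filter.Eventually.of_forall fun t => ?_)
  simpa using chS_le hχ t

omit [NeZero q] in
lemma chS_bot' (b : ℝ) : chS χ =O[𝓝[>] 0] (fun t : ℝ => t ^ (-b)) := by
  refine IsBigO.of_bound 1 ?_
  have h : ∀ᶠ t : ℝ in 𝓝[>] 0, t < 1 :=
    mem_nhdsWithin_of_mem_nhds (Iio_mem_nhds one_pos)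
  filter_upwards [h] with t ht
  rw [chS_zero ht]
  simp

lemma chS_mellin_diff (hχ : χ ≠ 1) {s : ℂ} (hs : 0 < s.re) :
    DifferentiableAt ℂ (fun z => mellin (chS χ) (-z)) s := by
  have h : DifferentiableAt ℂ (mellin (chS χ)) (-s) := by
    refine mellin_differentiableAt_of_isBigO_rpow (a := 0) (b := (-s).re - 1) chS_locInt
      (chS_top hχ) ?_ (chS_bot' _) (by linarith)
    simpa using hs
  exact h.comp s differentiableAt_id.neg

lemma chS_integrable (hχ : χ ≠ 1) {s : ℂ} (hs : 0 < s.re) :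
    IntegrableOn (fun t : ℝ => chS χ t * (t : ℂ) ^ (-(s + 1))) (Set.Ioi 0) := by
  have h : MellinConvergent (chS χ) (-s) := by
    refine mellinConvergent_of_isBigO_rpow (a := 0) (b := (-s).re - 1) chS_locInt
      (chS_top hχ) ?_ (chS_bot' _) (by linarith)
    simpa using hs
  refine h.congr_fun ?_ measurableSet_Ioi
  intro t _
  simp only [smul_eq_mul]
  rw [mul_comm, neg_add, sub_eq_add_neg]

omit [NeZero q] in
lemma chS_mellin_eq (s : ℂ) :
    mellin (chS χ) (-s) = ∫ t in Set.Ioi (1 : ℝ), chS χ t * (t : ℂ) ^ (-(s + 1)) := by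
  unfold mellin
  rw [← integral_Ici_eq_integral_Ioi (x := 1)]
  have h := setIntegral_eq_of_subset_of_forall_sdiff_eq_zero (μ := volume)
    (f := fun t : ℝ => (t : ℂ) ^ (-s - 1) • chS χ t) (t := Set.Ioi 0) (s := Set.Ici 1)
    measurableSet_Ioi (fun t ht => lt_of_lt_of_le one_pos (Set.mem_Ici.mp ht)) ?_
  · rw [h]
    refine setIntegral_congr_fun measurableSet_Ici fun t _ => ?_
    simp only [smul_eq_mul]
    rw [mul_comm, neg_add, sub_eq_add_neg]
  · intro t ht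
    have h1 : t < 1 := by
      by_contra hc
      exact ht.2 (not_lt.mp hc)
    simp [chS_zero h1]

lemma LFunction_eq_int (hχ : χ ≠ 1) {s : ℂ} (hs : 0 < s.re) :
    χ.LFunction s = s * ∫ t in Set.Ioi (1 : ℝ), chS χ t * (t : ℂ) ^ (-(s + 1)) := by
  rw [← chS_mellin_eq]
  have hU : IsOpen {z : ℂ | 0 < z.re} := isOpen_lt continuous_const Complex.continuous_re
  have hpre : IsPreconnected {z : ℂ | 0 < z.re} := (convex_halfSpace_re_gt 0).isPreconnected
  have h1 : AnalyticOnNhd ℂ χ.LFunction {z : ℂ | 0 < z.re} :=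
    (DirichletCharacter.differentiable_LFunction hχ).differentiableOn.analyticOnNhd hU
  have h2 : AnalyticOnNhd ℂ (fun z => z * mellin (chS χ) (-z)) {z : ℂ | 0 < z.re} := by
    refine DifferentiableOn.analyticOnNhd (fun z hz => ?_) hU
    exact (differentiableAt_id.mul (chS_mellin_diff hχ hz)).differentiableWithinAt
  refine h1.eqOn_of_preconnected_of_eventuallyEq h2 hpre (z₀ := 2) (by simp) ?_ hs
  have hV : {z : ℂ | 1 < z.re} ∈ 𝓝 (2 : ℂ) :=
    (isOpen_lt continuous_const Complex.continuous_re).mem_nhds (by simp)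
  filter_upwards [hV] with z hz
  have hz : 1 < z.re := hz
  rw [DirichletCharacter.LFunction_eq_LSeries χ hz, chS_mellin_eq]
  refine LSeries_eq_mul_integral (fun n : ℕ => χ (n : ZMod q)) (r := 0) le_rfl (by linarith) ?_ ?_
  · exact DirichletCharacter.LSeriesSummable_of_one_lt_re χ hz
  · refine IsBigO.of_bound q (Filter.Eventually.of_forall fun n => ?_)
    simpa using char_Icc_le hχ n

lemma cpow_deriv {s : ℂ} (hs : s ≠ 0) {t : ℝ} (ht : 0 < t) :
    deriv (fun x : ℝ => (x : ℂ) ^ (-s)) t = -s * (t : ℂ) ^ (-(s + 1)) := by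
  rw [deriv_ofReal_cpow_const ht.ne' (neg_ne_zero.mpr hs), neg_add, sub_eq_add_neg]

lemma LFunction_trunc (hχ : χ ≠ 1) {s : ℂ} (hs : 0 < s.re) (x : ℕ) (hx : 1 ≤ x) :
    χ.LFunction s = ∑ k ∈ Icc 1 x, (k : ℂ) ^ (-s) * χ (k : ZMod q)
      - (x : ℂ) ^ (-s) * ∑ k ∈ Icc 1 x, χ (k : ZMod q)
      + s * ∫ t in Set.Ioi (x : ℝ), chS χ t * (t : ℂ) ^ (-(s + 1)) := by
  have hs0 : s ≠ 0 := ne_zero_of_re_pos hs
  have hx1 : (1 : ℝ) ≤ x := by exact_mod_cast hx
  have hint := chS_integrable hχ hs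
  have hsplit : ∫ t in Set.Ioi (1 : ℝ), chS χ t * (t : ℂ) ^ (-(s + 1)) =
      (∫ t in Set.Ioc (1 : ℝ) x, chS χ t * (t : ℂ) ^ (-(s + 1))) +
      ∫ t in Set.Ioi (x : ℝ), chS χ t * (t : ℂ) ^ (-(s + 1)) := by
    rw [← Set.Ioc_union_Ioi_eq_Ioi hx1]
    refine setIntegral_union (Set.Ioc_disjoint_Ioi le_rfl) measurableSet_Ioi ?_ ?_
    · exact hint.mono_set fun t ht => one_pos.trans ht.1
    · exact hint.mono_set fun t ht => (one_pos.trans_le hx1).trans ht
  have habel := sum_mul_eq_sub_integral_mul₀' (fun k : ℕ => χ (k : ZMod q))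
    (f := fun t : ℝ => (t : ℂ) ^ (-s)) (char_cast_zero hχ) x ?_ ?_
  · rw [LFunction_eq_int hχ hs, hsplit, mul_add, add_left_inj]
    have h0 : ∑ k ∈ Icc 0 x, ((k : ℝ) : ℂ) ^ (-s) * χ (k : ZMod q) =
        ∑ k ∈ Icc 1 x, (k : ℂ) ^ (-s) * χ (k : ZMod q) := by
      rw [← insert_Icc_add_one_left_eq_Icc x.zero_le, sum_insert (by simp), char_cast_zero hχ,
        mul_zero, zero_add, zero_add]
      simp
    rw [← h0, habel, char_Icc_zero hχ]
    have h1 : ∫ t in Set.Ioc (1 : ℝ) x,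
        deriv (fun t : ℝ => (t : ℂ) ^ (-s)) t * ∑ k ∈ Icc 0 ⌊t⌋₊, χ (k : ZMod q) =
        -(s * ∫ t in Set.Ioc (1 : ℝ) x, chS χ t * (t : ℂ) ^ (-(s + 1))) := by
      rw [← integral_const_mul, ← integral_neg]
      refine setIntegral_congr_fun measurableSet_Ioc fun t ht => ?_
      rw [cpow_deriv hs0 (one_pos.trans ht.1), char_Icc_zero hχ]
      simp only [chS]
      ring
    rw [h1]
    simp
  · intro t ht
    exact differentiableAt_id.ofReal_cpow_const (one_pos.trans_le ht.1).ne' (neg_ne_zero.mpr hs0)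
  · refine ContinuousOn.integrableOn_Icc ?_
    refine ContinuousOn.congr (f := fun t : ℝ => -s * (t : ℂ) ^ (-(s + 1))) ?_ ?_
    · refine continuousOn_const.mul fun t ht => ?_
      exact (continuousAt_ofReal_cpow_const _ _
        (Or.inr (one_pos.trans_le ht.1).ne')).continuousWithinAt
    · intro t ht
      exact cpow_deriv hs0 (one_pos.trans_le ht.1)

lemma tail_int_le (hχ : χ ≠ 1) {s : ℂ} (hs : 0 < s.re) {x : ℝ} (hx : 0 < x) :
    ‖∫ t in Set.Ioi x, chS χ t * (t : ℂ) ^ (-(s + 1))‖ ≤ q * (x ^ (-s.re) / s.re) := by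
  have h1 : ∫ t in Set.Ioi x, (q : ℝ) * t ^ (-(s.re + 1)) = q * (x ^ (-s.re) / s.re) := by
    rw [integral_const_mul, integral_Ioi_rpow_of_lt (by linarith) hx]
    congr 1
    rw [show -(s.re + 1) + 1 = -s.re by ring, div_neg, neg_div, neg_neg]
  rw [← h1]
  refine norm_integral_le_of_norm_le ?_ ?_
  · exact (integrableOn_Ioi_rpow_of_lt (by linarith) hx).const_mul _
  · refine (ae_restrict_iff' measurableSet_Ioi).mpr (Filter.Eventually.of_forall fun t ht => ?_)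
    have ht0 : 0 < t := hx.trans ht
    rw [norm_mul, norm_cpow_eq_rpow_re_of_pos ht0]
    simp only [neg_re, add_re, one_re]
    exact mul_le_mul_of_nonneg_right (chS_le hχ t) (by positivity)

lemma LFunction_trunc_le (hχ : χ ≠ 1) {s : ℂ} (hs : 0 < s.re) (x : ℕ) (hx : 1 ≤ x) :
    ‖χ.LFunction s - ∑ k ∈ Icc 1 x, (k : ℂ) ^ (-s) * χ (k : ZMod q)‖ ≤
      q * (x : ℝ) ^ (-s.re) * (1 + ‖s‖ / s.re) := by
  have hx0 : (0 : ℝ) < x := by exact_mod_cast hx
  rw [LFunction_trunc hχ hs x hx]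
  have e : ∀ a b c : ℂ, a - b + c - a = -b + c := fun a b c => by ring
  rw [e]
  refine (norm_add_le _ _).trans ?_
  rw [norm_neg, norm_mul, norm_mul]
  have h1 : ‖(x : ℂ) ^ (-s)‖ = (x : ℝ) ^ (-s.re) := by
    have := norm_cpow_eq_rpow_re_of_pos hx0 (-s)
    simpa using this
  rw [h1]
  have h2 := char_Icc_le hχ x
  have h3 := tail_int_le hχ hs hx0
  have h4 : (0 : ℝ) ≤ (x : ℝ) ^ (-s.re) := by positivity
  calc (x : ℝ) ^ (-s.re) * ‖∑ k ∈ Icc 1 x, χ (k : ZMod q)‖ +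
      ‖s‖ * ‖∫ t in Set.Ioi (x : ℝ), chS χ t * (t : ℂ) ^ (-(s + 1))‖
      ≤ (x : ℝ) ^ (-s.re) * q + ‖s‖ * (q * ((x : ℝ) ^ (-s.re) / s.re)) := by gcongr
    _ = q * (x : ℝ) ^ (-s.re) * (1 + ‖s‖ / s.re) := by ring

end LBound

theorem LFunction_one_sum (q : ℕ) [NeZero q] (χ : DirichletCharacter ℂ q) (hχ : χ ≠ 1) (x : ℕ)
    (hx : 1 ≤ x) :
    ‖∑ k ∈ Finset.Icc 1 x, χ (k : ZMod q) / (k : ℂ) - χ.LFunction 1‖ ≤ 4 * q / x := by
  have hx0 : (0 : ℝ) < x := by exact_mod_cast hx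
  have h := LFunction_trunc_le hχ (s := 1) (by simp) x hx
  rw [norm_sub_rev]
  have h1 : ∑ k ∈ Finset.Icc 1 x, χ (k : ZMod q) / (k : ℂ) =
      ∑ k ∈ Finset.Icc 1 x, (k : ℂ) ^ (-(1 : ℂ)) * χ (k : ZMod q) := by
    refine Finset.sum_congr rfl fun k _ => ?_
    rw [Complex.cpow_neg_one, div_eq_mul_inv, mul_comm]
  rw [h1]
  refine h.trans ?_
  simp only [Complex.one_re, norm_one, div_one]
  rw [Real.rpow_neg_one, ← div_eq_mul_inv]
  have hq : (0 : ℝ) ≤ q := by positivity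
  rw [show (q : ℝ) / x * (1 + 1) = (2 * q) / x by ring]
  gcongr
  linarith

theorem LFunction_bound (q : ℕ) [NeZero q] (χ : DirichletCharacter ℂ q) (hχ : χ ≠ 1) (η : ℝ)
    (hη : 0 ≤ η) (hη' : η ≤ 1 / 2) (s : ℂ) (hs : 1 - η ≤ s.re) :
    ‖χ.LFunction s‖ ≤ (q : ℝ) ^ η * (Real.log q + 8 * ‖s‖ + 8) := by
  have hq2 := char_two_le hχ
  have hq1 : (1 : ℝ) ≤ q := by exact_mod_cast (by omega : 1 ≤ q)
  have hq0 : (0 : ℝ) < q := by linarith
  have hs0 : 0 < s.re := by linarith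
  have hs12 : 1 / 2 ≤ s.re := by linarith
  have h := LFunction_trunc_le hχ hs0 q (by omega)
  have hsum : ‖∑ k ∈ Finset.Icc 1 q, (k : ℂ) ^ (-s) * χ (k : ZMod q)‖ ≤
      (q : ℝ) ^ η * (1 + Real.log q) := by
    refine (norm_sum_le _ _).trans ?_
    have h1 : ∀ k ∈ Finset.Icc 1 q, ‖(k : ℂ) ^ (-s) * χ (k : ZMod q)‖ ≤
        (q : ℝ) ^ η * ((k : ℝ)⁻¹) := by
      intro k hk
      obtain ⟨hk1, hk2⟩ := Finset.mem_Icc.mp hk
      have hk0 : (0 : ℝ) < k := by exact_mod_cast hk1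
      have hk1' : (1 : ℝ) ≤ k := by exact_mod_cast hk1
      have e1 : ‖(k : ℂ) ^ (-s)‖ = (k : ℝ) ^ (-s.re) := by
        have := Complex.norm_cpow_eq_rpow_re_of_pos hk0 (-s)
        simpa using this
      rw [norm_mul, e1]
      calc (k : ℝ) ^ (-s.re) * ‖χ (k : ZMod q)‖ ≤ (k : ℝ) ^ (-s.re) * 1 := by
            gcongr
            exact DirichletCharacter.norm_le_one χ _
        _ ≤ (k : ℝ) ^ (η + (-1)) := by
            rw [mul_one]
            exact Real.rpow_le_rpow_of_exponent_le hk1' (by linarith)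
        _ = (k : ℝ) ^ η * (k : ℝ)⁻¹ := by
            rw [Real.rpow_add hk0, Real.rpow_neg_one]
        _ ≤ (q : ℝ) ^ η * (k : ℝ)⁻¹ := by
            gcongr
    refine (Finset.sum_le_sum h1).trans ?_
    rw [← Finset.mul_sum]
    gcongr
    have h2 := harmonic_le_one_add_log q
    have h3 : ((harmonic q : ℚ) : ℝ) = ∑ k ∈ Finset.Icc 1 q, (k : ℝ)⁻¹ := by
      rw [harmonic_eq_sum_Icc]
      push_cast
      rfl
    rw [← h3]
    exact h2
  have hq' : (q : ℝ) * (q : ℝ) ^ (-s.re) ≤ (q : ℝ) ^ η := by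
    have e : (q : ℝ) * (q : ℝ) ^ (-s.re) = (q : ℝ) ^ (1 + -s.re) := by
      rw [Real.rpow_add hq0, Real.rpow_one]
    rw [e]
    exact Real.rpow_le_rpow_of_exponent_le hq1 (by linarith)
  have hdiv : ‖s‖ / s.re ≤ 2 * ‖s‖ := by
    rw [div_le_iff₀ hs0]
    nlinarith [norm_nonneg s]
  have htri : ‖χ.LFunction s‖ ≤ ‖χ.LFunction s -
      ∑ k ∈ Finset.Icc 1 q, (k : ℂ) ^ (-s) * χ (k : ZMod q)‖ +
      ‖∑ k ∈ Finset.Icc 1 q, (k : ℂ) ^ (-s) * χ (k : ZMod q)‖ := by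
    simpa using norm_add_le (χ.LFunction s -
      ∑ k ∈ Finset.Icc 1 q, (k : ℂ) ^ (-s) * χ (k : ZMod q))
      (∑ k ∈ Finset.Icc 1 q, (k : ℂ) ^ (-s) * χ (k : ZMod q))
  have hqη : (0 : ℝ) ≤ (q : ℝ) ^ η := by positivity
  have hns := norm_nonneg s
  calc ‖χ.LFunction s‖ ≤ q * (q : ℝ) ^ (-s.re) * (1 + ‖s‖ / s.re) +
        (q : ℝ) ^ η * (1 + Real.log q) := by linarith
    _ ≤ (q : ℝ) ^ η * (1 + 2 * ‖s‖) + (q : ℝ) ^ η * (1 + Real.log q) := by
        gcongr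
    _ ≤ (q : ℝ) ^ η * (Real.log q + 8 * ‖s‖ + 8) := by
        rw [← mul_add]
        exact mul_le_mul_of_nonneg_left (by linarith) hqη

theorem exists_L (D : ℕ) (hD : 1 ≤ D) : ∃ L : ℝ, IsL D L := by
  obtain ⟨χ, hχ, hne⟩ := exists_char D hD
  have : NeZero (4 * D) := ⟨by omega⟩
  refine ⟨(χ.LFunction 1).re, fun x hx => ?_⟩
  have h := LFunction_one_sum (4 * D) χ hne x hx
  have h1 := (Complex.abs_re_le_norm _).trans h
  have e : (∑ k ∈ Finset.Icc 1 x, χ (k : ZMod (4 * D)) / (k : ℂ) - χ.LFunction 1).re =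
      ∑ k ∈ Finset.Icc 1 x, (chi D k : ℝ) / k - (χ.LFunction 1).re := by
    rw [Complex.sub_re, Complex.re_sum]
    congr 1
    refine Finset.sum_congr rfl fun k _ => ?_
    rw [hχ k, ← Complex.ofReal_intCast, ← Complex.ofReal_natCast, ← Complex.ofReal_div,
      Complex.ofReal_re]
  rw [e] at h1
  refine h1.trans (le_of_eq ?_)
  push_cast
  ring

end Pool.Agent.LX
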