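import Mathlib
import Pool.Agent.LX.Defs

set_option autoImplicit false

/-!
LX-40: counting the coefficients `c₁` (pure arithmetic).
-/

namespace Pool.Agent.LX

/-- A set of integers of `[0, κ)` in one residue class modulo `m` has at most `κ / m + 1`
elements. -/
lemma cc_class (κ m : ℤ) (hκ : 0 < κ) (hm : 0 < m) (S : Finset ℤ)
    (hS : ∀ x ∈ S, 0 ≤ x ∧ x < κ)
    (hS2 : ∀ x ∈ S, ∀ y ∈ S, m ∣ x - y) : (S.card : ℝ) ≤ (κ : ℝ) / m + 1 := by
  rcases S.eq_empty_or_nonempty with rfl | ⟨v, hv⟩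
  · have h1 : (0 : ℝ) < (κ : ℝ) := by exact_mod_cast hκ
    have h2 : (0 : ℝ) < (m : ℝ) := by exact_mod_cast hm
    simp only [Finset.card_empty, Nat.cast_zero]
    positivity
  · have hsub : S ⊆ {x ∈ Finset.Ico 0 κ | x ≡ v [ZMOD m]} := by
      intro x hx
      rw [Finset.mem_filter, Finset.mem_Ico]
      exact ⟨hS x hx, Int.modEq_iff_dvd.2 (hS2 v hv x hx)⟩
    have h1 := Finset.card_le_card hsub
    have h2 := Int.Ico_filter_modEq_card 0 κ hm v
    have h3 : ((⌈((κ : ℚ) - v) / (m : ℚ)⌉ - ⌈(((0 : ℤ) : ℚ) - v) / (m : ℚ)⌉ : ℤ) : ℚ)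
        ≤ κ / m + 1 := by
      have a1 := Int.ceil_lt_add_one (((κ : ℚ) - v) / (m : ℚ))
      have a2 := Int.le_ceil ((((0 : ℤ) : ℚ) - v) / (m : ℚ))
      have a3 : ((κ : ℚ) - v) / m = κ / m + (((0 : ℤ) : ℚ) - v) / m := by
        push_cast; ring
      push_cast at a1 a2 a3 ⊢
      linarith
    have h4 : (0 : ℚ) ≤ κ / m + 1 := by
      have h1 : (0 : ℚ) < (κ : ℚ) := by exact_mod_cast hκ
      have h2 : (0 : ℚ) < (m : ℚ) := by exact_mod_cast hm
      positivity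
    have h5 : (S.card : ℚ) ≤ κ / m + 1 := by
      have h6 : ((S.card : ℤ) : ℚ) ≤
          ((max (⌈((κ : ℚ) - v) / (m : ℚ)⌉ - ⌈(((0 : ℤ) : ℚ) - v) / (m : ℚ)⌉) 0 : ℤ) : ℚ) := by
        rw [← h2]
        exact_mod_cast h1
      rw [Int.cast_max, Int.cast_zero] at h6
      have h7 := h6.trans (max_le h3 h4)
      exact_mod_cast h7
    exact_mod_cast h5

theorem count_c (κ D τ : ℤ) (hκ : 0 < κ) (hD : 0 < D) :
    ({c : ℤ | 0 ≤ c ∧ c < κ ∧ IsCoprime c κ ∧ κ ∣ c * D - τ ∧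
      κ ^ 2 ∣ D * (1 + c ^ 2) - 2 * c * τ}.ncard : ℝ) ≤
      4 * ((κ ^ 2).natAbs.divisors.card : ℝ) * Real.sqrt (Int.gcd D τ) := by
  classical
  set A := {c : ℤ | 0 ≤ c ∧ c < κ ∧ IsCoprime c κ ∧ κ ∣ c * D - τ ∧
      κ ^ 2 ∣ D * (1 + c ^ 2) - 2 * c * τ} with hA
  have hfin : A.Finite := (Set.finite_Ico 0 κ).subset (fun c hc => ⟨hc.1, hc.2.1⟩)
  have hcard : A.ncard = hfin.toFinset.card := Set.ncard_eq_toFinset_card A hfin
  rw [hcard]
  set F := hfin.toFinset with hF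
  rcases F.eq_empty_or_nonempty with h0 | ⟨c, hcF⟩
  · rw [h0]
    simp only [Finset.card_empty, Nat.cast_zero]
    positivity
  have hc : c ∈ A := hfin.mem_toFinset.1 hcF
  obtain ⟨hc0, hc1, hc2, hc3, hc4⟩ := hc
  have hκ2 : 0 < κ ^ 2 := by positivity
  obtain ⟨g, hg⟩ : ∃ g : ℤ, g = Int.gcd (κ ^ 2) D := ⟨_, rfl⟩
  have hgpos : 0 < g := by
    rw [hg]
    exact_mod_cast Int.gcd_pos_of_ne_zero_right _ hD.ne'
  obtain ⟨q, hq⟩ : g ∣ κ ^ 2 := by rw [hg]; exact Int.gcd_dvd_left _ _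
  obtain ⟨D', hD'⟩ : g ∣ D := by rw [hg]; exact Int.gcd_dvd_right _ _
  have hqpos : 0 < q := by
    rw [hq] at hκ2
    exact (mul_pos_iff_of_pos_left hgpos).1 hκ2
  have hcop : IsCoprime q D' := by
    rw [Int.isCoprime_iff_gcd_eq_one]
    have h1 : Int.gcd (g * q) (g * D') = g.natAbs * Int.gcd q D' := Int.gcd_mul_left _ _ _
    rw [← hq, ← hD'] at h1
    have h2 : g.natAbs = Int.gcd (κ ^ 2) D := by rw [hg]; simp
    rw [h2] at h1
    have h3 : 0 < Int.gcd (κ ^ 2) D := Int.gcd_pos_of_ne_zero_right _ hD.ne'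
    exact (Nat.eq_of_mul_eq_mul_left h3 (by rw [mul_one]; exact h1)).symm
  have hkey : ∀ c' ∈ A, q ∣ (c' - c) * (1 - c * c') := by
    intro c' hc'
    obtain ⟨-, -, -, -, h4⟩ := hc'
    have h5 : κ ^ 2 ∣ D * ((c' - c) * (1 - c * c')) := by
      have h6 := dvd_sub (hc4.mul_left c') (h4.mul_left c)
      have h7 : c' * (D * (1 + c ^ 2) - 2 * c * τ) - c * (D * (1 + c' ^ 2) - 2 * c' * τ) =
          D * ((c' - c) * (1 - c * c')) := by ring
      rwa [h7] at h6
    rw [hq, hD', mul_assoc] at h5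
    have h6 : q ∣ D' * ((c' - c) * (1 - c * c')) := (mul_dvd_mul_iff_left hgpos.ne').1 h5
    exact hcop.dvd_of_dvd_mul_left h6
  -- the bound for `g`
  have hg4 : g ≤ 4 * Int.gcd D τ := by
    have h1 : g ∣ 2 * τ := by
      have h2 : g ∣ D * (1 + c ^ 2) - 2 * c * τ := (Dvd.intro _ hq.symm).trans hc4
      have h3 : g ∣ D * (1 + c ^ 2) := (Dvd.intro _ hD'.symm).mul_right _
      have h4 : g ∣ c * (2 * τ) := by
        have h5 := dvd_sub h3 h2
        have h6 : D * (1 + c ^ 2) - (D * (1 + c ^ 2) - 2 * c * τ) = c * (2 * τ) := by ring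
        rwa [h6] at h5
      have h5 : IsCoprime g c := by
        have h6 : IsCoprime (κ ^ 2) c := (hc2.symm).pow_left
        exact h6.of_isCoprime_of_dvd_left (Dvd.intro _ hq.symm)
      exact h5.dvd_of_dvd_mul_left h4
    have h2 : g ∣ 2 * D := (Dvd.intro _ hD'.symm).mul_left 2
    have h3 : g ∣ (Int.gcd (2 * D) (2 * τ) : ℤ) := Int.dvd_coe_gcd h2 h1
    rw [Int.gcd_mul_left] at h3
    have h4 : 0 < Int.gcd D τ := Int.gcd_pos_of_ne_zero_left _ hD.ne'
    have h5 := Int.le_of_dvd (by positivity) h3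
    push_cast at h5
    have h7 : (0 : ℤ) < (Int.gcd D τ : ℤ) := by exact_mod_cast h4
    linarith
  -- the covering
  have hcov : F ⊆ q.natAbs.divisors.biUnion (fun e => F.filter (fun c' => (e : ℤ) ∣ c' - c ∧
      q / (e : ℤ) ∣ 1 - c * c')) := by
    intro c' hc'
    have hc'A : c' ∈ A := hfin.mem_toFinset.1 hc'
    rw [Finset.mem_biUnion]
    refine ⟨Int.gcd q (c' - c), ?_, ?_⟩
    · rw [Nat.mem_divisors]
      exact ⟨Int.gcd_dvd_natAbs_left _ _, by simpa using hqpos.ne'⟩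
    · rw [Finset.mem_filter]
      refine ⟨hc', Int.gcd_dvd_right _ _, ?_⟩
      have hgp : 0 < Int.gcd q (c' - c) := Int.gcd_pos_of_ne_zero_left _ hqpos.ne'
      obtain ⟨e, he⟩ : ∃ e : ℤ, e = Int.gcd q (c' - c) := ⟨_, rfl⟩
      have hepos : 0 < e := by rw [he]; exact_mod_cast hgp
      obtain ⟨f, hf⟩ : e ∣ q := by rw [he]; exact Int.gcd_dvd_left _ _
      obtain ⟨h, hh⟩ : e ∣ c' - c := by rw [he]; exact Int.gcd_dvd_right _ _
      rw [← he]
      have hfe : q / e = f := by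
        rw [hf]; exact Int.mul_ediv_cancel_left _ hepos.ne'
      rw [hfe]
      have hcop2 : IsCoprime f h := by
        rw [Int.isCoprime_iff_gcd_eq_one]
        have h1 : Int.gcd (e * f) (e * h) = e.natAbs * Int.gcd f h := Int.gcd_mul_left _ _ _
        rw [← hf, ← hh] at h1
        have h2 : e.natAbs = Int.gcd q (c' - c) := by rw [he]; simp
        rw [h2] at h1
        exact (Nat.eq_of_mul_eq_mul_left hgp (by rw [mul_one]; exact h1)).symm
      have h1 := hkey c' hc'A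
      rw [hf, hh, mul_assoc] at h1
      have h2 : f ∣ h * (1 - c * c') := (mul_dvd_mul_iff_left hepos.ne').1 h1
      exact hcop2.dvd_of_dvd_mul_left h2
  have hpart : ∀ e ∈ q.natAbs.divisors, ((F.filter (fun c' => (e : ℤ) ∣ c' - c ∧
      q / (e : ℤ) ∣ 1 - c * c')).card : ℝ) ≤ Real.sqrt g + 1 := by
    intro e he
    rw [Nat.mem_divisors] at he
    have hepos : 0 < (e : ℤ) := by
      rcases Nat.eq_zero_or_pos e with h | h
      · rw [h] at he
        exact absurd (by simpa using he.1) he.2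
      · exact_mod_cast h
    obtain ⟨f, hf⟩ : (e : ℤ) ∣ q := Int.natCast_dvd.2 he.1
    have hfe : q / (e : ℤ) = f := by
      rw [hf]; exact Int.mul_ediv_cancel_left _ hepos.ne'
    have hfpos : 0 < f := by
      rw [hf] at hqpos
      exact (mul_pos_iff_of_pos_left hepos).1 hqpos
    rw [hfe]
    have hbd : ∀ m : ℤ, 0 < m → q ≤ m ^ 2 → (κ : ℝ) / m + 1 ≤ Real.sqrt g + 1 := by
      intro m hm hqm
      have h1 : κ ^ 2 ≤ g * m ^ 2 := by rw [hq]; exact mul_le_mul_of_nonneg_left hqm hgpos.le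
      have h2 : (κ : ℝ) ^ 2 ≤ g * m ^ 2 := by exact_mod_cast h1
      have hmR : (0 : ℝ) < m := by exact_mod_cast hm
      have hκR : (0 : ℝ) < κ := by exact_mod_cast hκ
      have h3 : (κ : ℝ) / m ≤ Real.sqrt g := by
        apply Real.le_sqrt_of_sq_le
        rw [div_pow, div_le_iff₀ (by positivity)]
        exact h2
      linarith
    rcases le_total f e with hfe' | hfe'
    · -- modulo `e`
      have hqe : q ≤ (e : ℤ) ^ 2 := by rw [hf]; nlinarith
      refine (cc_class κ e hκ hepos _ ?_ ?_).trans ?_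
      · intro x hx
        have hxA : x ∈ A := hfin.mem_toFinset.1 (Finset.mem_filter.1 hx).1
        exact ⟨hxA.1, hxA.2.1⟩
      · intro x hx y hy
        have h1 := (Finset.mem_filter.1 hx).2.1
        have h2 := (Finset.mem_filter.1 hy).2.1
        have h3 := dvd_sub h1 h2
        have h4 : x - c - (y - c) = x - y := by ring
        rwa [h4] at h3
      · exact hbd e hepos hqe
    · have hqe : q ≤ f ^ 2 := by rw [hf]; nlinarith
      refine (cc_class κ f hκ hfpos _ ?_ ?_).trans ?_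
      · intro x hx
        have hxA : x ∈ A := hfin.mem_toFinset.1 (Finset.mem_filter.1 hx).1
        exact ⟨hxA.1, hxA.2.1⟩
      · intro x hx y hy
        have h1 := (Finset.mem_filter.1 hx).2.2
        have h2 := (Finset.mem_filter.1 hy).2.2
        have h3 := dvd_sub h2 h1
        have h4 : 1 - c * y - (1 - c * x) = c * (x - y) := by ring
        rw [h4] at h3
        have h5 : IsCoprime f c := by
          obtain ⟨k, hk⟩ := h1
          exact ⟨k, x, by linarith⟩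
        exact h5.dvd_of_dvd_mul_left h3
      · exact hbd f hfpos hqe
  -- conclusion
  have hg1 : (1 : ℝ) ≤ Real.sqrt g := by
    rw [Real.one_le_sqrt]
    exact_mod_cast hgpos
  have hg2 : Real.sqrt g ≤ 2 * Real.sqrt (Int.gcd D τ) := by
    have h1 : (g : ℝ) ≤ 4 * (Int.gcd D τ : ℝ) := by exact_mod_cast hg4
    have h2 : Real.sqrt g ≤ Real.sqrt (4 * (Int.gcd D τ : ℝ)) := Real.sqrt_le_sqrt h1
    have h3 : Real.sqrt (4 * (Int.gcd D τ : ℝ)) = 2 * Real.sqrt (Int.gcd D τ) := by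
      rw [Real.sqrt_mul (by norm_num)]
      congr 1
      rw [show (4 : ℝ) = 2 ^ 2 by norm_num]
      exact Real.sqrt_sq (by norm_num)
    linarith
  have hdiv : (q.natAbs.divisors.card : ℝ) ≤ ((κ ^ 2).natAbs.divisors.card : ℝ) := by
    have h1 : q.natAbs ∣ (κ ^ 2).natAbs := Int.natAbs_dvd_natAbs.2 (Dvd.intro_left _ hq.symm)
    have h2 : (κ ^ 2).natAbs ≠ 0 := Int.natAbs_ne_zero.2 hκ2.ne'
    exact Nat.cast_le.2 (Finset.card_le_card (Nat.divisors_subset_of_dvd h2 h1))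
  calc (F.card : ℝ) ≤ ((q.natAbs.divisors.biUnion (fun e => F.filter (fun c' => (e : ℤ) ∣ c' - c ∧
        q / (e : ℤ) ∣ 1 - c * c'))).card : ℝ) := Nat.cast_le.2 (Finset.card_le_card hcov)
    _ ≤ ((∑ e ∈ q.natAbs.divisors, (F.filter (fun c' => (e : ℤ) ∣ c' - c ∧
        q / (e : ℤ) ∣ 1 - c * c')).card : ℕ) : ℝ) := Nat.cast_le.2 Finset.card_biUnion_le
    _ = ∑ e ∈ q.natAbs.divisors, ((F.filter (fun c' => (e : ℤ) ∣ c' - c ∧
        q / (e : ℤ) ∣ 1 - c * c')).card : ℝ) := Nat.cast_sum _ _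
    _ ≤ ∑ e ∈ q.natAbs.divisors, (Real.sqrt g + 1) := Finset.sum_le_sum hpart
    _ = (q.natAbs.divisors.card : ℝ) * (Real.sqrt g + 1) := by
        rw [Finset.sum_const, nsmul_eq_mul]
    _ ≤ ((κ ^ 2).natAbs.divisors.card : ℝ) * (4 * Real.sqrt (Int.gcd D τ)) := by
        have hs : (0 : ℝ) ≤ Real.sqrt g + 1 := by linarith
        exact mul_le_mul hdiv (by linarith) hs (Nat.cast_nonneg _)
    _ = 4 * ((κ ^ 2).natAbs.divisors.card : ℝ) * Real.sqrt (Int.gcd D τ) := by ring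

end Pool.Agent.LX
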