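import Pool.Agent.LX.Defs

set_option autoImplicit false

namespace Pool.Agent.LX

/-- A set of integers in `[-n, n]` whose differences, multiplied by `a`, are divisible by `M`. -/
theorem card_class_le (a M n : ℤ) (ha : 0 < a) (hM : 0 < M) (hn : 0 < n) (T : Finset ℤ)
    (hT : ∀ t ∈ T, -n ≤ t ∧ t ≤ n) (h : ∀ t ∈ T, ∀ t' ∈ T, M ∣ a * (t - t')) :
    (T.card : ℝ) ≤ 2 * a * n / M + 1 := by
  have hn' : (0 : ℝ) < n := by exact_mod_cast hn
  have ha' : (0 : ℝ) < a := by exact_mod_cast ha
  have hM' : (0 : ℝ) < M := by exact_mod_cast hM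
  rcases T.eq_empty_or_nonempty with rfl | hne
  · have h1 : (0 : ℝ) ≤ 2 * a * n / M := by positivity
    simp only [Finset.card_empty, Nat.cast_zero]
    linarith
  · set t₀ := T.min' hne with ht₀
    have ht₀T : t₀ ∈ T := T.min'_mem hne
    have hmin : ∀ t ∈ T, t₀ ≤ t := fun t ht => T.min'_le t ht
    have hcard : T.card ≤ (Finset.range ((2 * a * n / M).toNat + 1)).card := by
      apply Finset.card_le_card_of_injOn (fun t => (a * (t - t₀) / M).toNat)
      · intro t ht
        have ht' : t ∈ T := ht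
        simp only [Finset.coe_range, Set.mem_Iio]
        apply Nat.lt_succ_of_le
        apply Int.toNat_le_toNat
        apply Int.ediv_le_ediv hM
        have h1 := (hT t ht').2
        have h2 := (hT t₀ ht₀T).1
        nlinarith
      · intro t ht t' ht' htt
        have h1 := hmin t ht
        have h2 := hmin t' ht'
        obtain ⟨c, hc⟩ := h t ht t₀ ht₀T
        obtain ⟨c', hc'⟩ := h t' ht' t₀ ht₀T
        simp only [hc, hc', Int.mul_ediv_cancel_left _ hM.ne'] at htt
        have hc0 : 0 ≤ c := by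
          by_contra hcc
          push Not at hcc
          nlinarith [mul_nonneg ha.le (sub_nonneg.2 h1)]
        have hc0' : 0 ≤ c' := by
          by_contra hcc
          push Not at hcc
          nlinarith [mul_nonneg ha.le (sub_nonneg.2 h2)]
        have hcc : c = c' := by
          have := Int.toNat_of_nonneg hc0
          have := Int.toNat_of_nonneg hc0'
          omega
        rw [← hcc] at hc'
        have h3 : a * (t - t₀) = a * (t' - t₀) := by rw [hc, hc']
        have h4 := mul_left_cancel₀ ha.ne' h3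
        omega
    rw [Finset.card_range] at hcard
    have h5 : (T.card : ℝ) ≤ ((2 * a * n / M : ℤ) : ℝ) + 1 := by
      have h6 : ((2 * a * n / M).toNat : ℤ) = 2 * a * n / M :=
        Int.toNat_of_nonneg (Int.ediv_nonneg (by positivity) hM.le)
      have h7 : (T.card : ℤ) ≤ (2 * a * n / M) + 1 := by
        rw [← h6]; exact_mod_cast hcard
      exact_mod_cast h7
    have h8 : ((2 * a * n / M : ℤ) : ℝ) ≤ 2 * a * n / M := by
      rw [le_div_iff₀ hM']
      have := Int.ediv_mul_le (2 * a * n) hM.ne'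
      exact_mod_cast this
    linarith

/-- If `p ^ j` divides `x * y` and `p` does not divide `x` then `p ^ j` divides `y`. -/
theorem pow_dvd_of_not_dvd (p j : ℕ) (hp : p.Prime) (x y : ℤ) (h : (p : ℤ) ^ j ∣ x * y)
    (hx : ¬ (p : ℤ) ∣ x) : (p : ℤ) ^ j ∣ y := by
  have hc : IsCoprime ((p : ℤ) ^ j) x :=
    ((Nat.prime_iff_prime_int.1 hp).coprime_iff_not_dvd.2 hx).pow_left
  exact hc.dvd_of_dvd_mul_left h

/-- LX-G5 SumT.lean -/
theorem sum_t (a : ℤ) (ha : 0 < a) (P : ℕ) (hP : Odd P) (hP1 : 1 < P)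
    (hPa : IsCoprime a (P : ℤ)) : ∃ K : ℝ, 0 < K ∧ ∀ (n σ : ℤ) (k : ℕ), 0 < n →
    0 < a * n - σ ^ 2 → IsCoprime (a * n - σ ^ 2) (P : ℤ) →
    ∑ t ∈ (Finset.Icc (-n) n).filter (fun t => ((P : ℤ) ^ k ∣ (n - t) * (a * (n + t) - 2 * σ ^ 2)) ∧
        (n - t) * (a * (n + t) - 2 * σ ^ 2) ≠ 0),
      Real.sqrt (Int.gcd (a * n - σ ^ 2) (a * t - σ ^ 2)) ≤
    K * (a * n - σ ^ 2).natAbs.divisors.card * (n / (P : ℝ) ^ k + Real.sqrt n) := by
  classical
  have ha' : (1 : ℝ) ≤ a := by exact_mod_cast ha
  refine ⟨2 ^ P.primeFactors.card * (2 * a), by positivity, fun n σ k hn hD hDP => ?_⟩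
  have hn' : (0 : ℝ) < n := by exact_mod_cast hn
  have hPpos : (0 : ℝ) < P := by exact_mod_cast (by omega : 0 < P)
  have hPk : (0 : ℝ) < (P : ℝ) ^ k := by positivity
  set D : ℤ := a * n - σ ^ 2 with hDdef
  set F := (Finset.Icc (-n) n).filter (fun t => ((P : ℤ) ^ k ∣ (n - t) * (a * (n + t) - 2 * σ ^ 2)) ∧
        (n - t) * (a * (n + t) - 2 * σ ^ 2) ≠ 0) with hF
  -- the class of `t`
  let g : ℤ → ℕ × Finset ℕ := fun t =>
    (Int.gcd D (a * t - σ ^ 2), P.primeFactors.filter (fun p : ℕ => (p : ℤ) ∣ a * (n - t)))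
  have hg : ∀ t ∈ F, g t ∈ D.natAbs.divisors ×ˢ P.primeFactors.powerset := by
    intro t _
    refine Finset.mem_product.2 ⟨?_, Finset.mem_powerset.2 (Finset.filter_subset _ _)⟩
    rw [Nat.mem_divisors]
    exact ⟨Nat.gcd_dvd_left _ _, by simpa using hD.ne'⟩
  rw [← Finset.sum_fiberwise_of_maps_to hg]
  -- each class
  have hclass : ∀ c ∈ D.natAbs.divisors ×ˢ P.primeFactors.powerset,
      ∑ t ∈ F.filter (fun t => g t = c), Real.sqrt (Int.gcd D (a * t - σ ^ 2)) ≤
        2 * a * (n / (P : ℝ) ^ k + Real.sqrt n) := by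
    rintro ⟨G, S⟩ hc
    obtain ⟨hG, -⟩ := Finset.mem_product.1 hc
    rw [Nat.mem_divisors] at hG
    have hGD : (G : ℤ) ∣ D := Int.natCast_dvd.2 hG.1
    have hGpos : 0 < G := Nat.pos_of_ne_zero (fun h => hG.2 (by simpa [h] using hG.1))
    have hG1 : (1 : ℝ) ≤ G := by exact_mod_cast hGpos
    have hGP : IsCoprime (G : ℤ) ((P : ℤ) ^ k) := (hDP.of_isCoprime_of_dvd_left hGD).pow_right
    have hsum : ∑ t ∈ F.filter (fun t => g t = (G, S)), Real.sqrt (Int.gcd D (a * t - σ ^ 2)) =
        (F.filter (fun t => g t = (G, S))).card * Real.sqrt G := by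
      rw [← nsmul_eq_mul]
      apply Finset.sum_eq_card_nsmul
      intro t ht
      have h1 := (Finset.mem_filter.1 ht).2
      rw [show Int.gcd D (a * t - σ ^ 2) = G from congrArg Prod.fst h1]
    have hdiv : ∀ t ∈ F.filter (fun t => g t = (G, S)), ∀ t' ∈ F.filter (fun t => g t = (G, S)),
        (G : ℤ) * (P : ℤ) ^ k ∣ a * (t - t') := by
      intro t ht t' ht'
      obtain ⟨htF, htg⟩ := Finset.mem_filter.1 ht
      obtain ⟨htF', htg'⟩ := Finset.mem_filter.1 ht'
      have hP1' := (Finset.mem_filter.1 htF).2.1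
      have hP2' := (Finset.mem_filter.1 htF').2.1
      apply hGP.mul_dvd
      · have h1 : (G : ℤ) ∣ a * t - σ ^ 2 := by
          rw [show G = Int.gcd D (a * t - σ ^ 2) from (congrArg Prod.fst htg).symm]
          exact Int.gcd_dvd_right _ _
        have h2 : (G : ℤ) ∣ a * t' - σ ^ 2 := by
          rw [show G = Int.gcd D (a * t' - σ ^ 2) from (congrArg Prod.fst htg').symm]
          exact Int.gcd_dvd_right _ _
        have := dvd_sub h1 h2
        rwa [show a * t - σ ^ 2 - (a * t' - σ ^ 2) = a * (t - t') by ring] at this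
      · rw [show (P : ℤ) ^ k = ((P ^ k : ℕ) : ℤ) by push_cast; rfl, Int.natCast_dvd,
          Nat.dvd_iff_prime_pow_dvd_dvd]
        intro p j hp hpj
        rw [← Int.natCast_dvd]
        push_cast
        rcases Nat.eq_zero_or_pos j with rfl | hj
        · simp
        have hpP : p ∣ P := hp.dvd_of_dvd_pow ((dvd_pow_self p hj.ne').trans hpj)
        have hpD : ¬ (p : ℤ) ∣ D := by
          intro h
          have h1 : IsCoprime (p : ℤ) (p : ℤ) :=
            (hDP.of_isCoprime_of_dvd_left h).of_isCoprime_of_dvd_right (Int.natCast_dvd_natCast.2 hpP)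
          have h2 := isCoprime_self.1 h1
          rw [Int.isUnit_iff] at h2
          have := hp.two_le
          omega
        have hp2 : ¬ (p : ℤ) ∣ 2 := by
          intro h
          have h1 : p ∣ 2 := by exact_mod_cast h
          have h2 : p = 2 := (Nat.prime_dvd_prime_iff_eq hp Nat.prime_two).1 h1
          rw [h2] at hpP
          exact (Nat.not_even_iff_odd.2 hP) (even_iff_two_dvd.2 hpP)
        have hpj' : (p : ℤ) ^ j ∣ (P : ℤ) ^ k := by exact_mod_cast hpj
        have hpprime : Prime (p : ℤ) := Nat.prime_iff_prime_int.1 hp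
        -- the two factors
        have key : ∀ s : ℤ, (P : ℤ) ^ k ∣ (n - s) * (a * (n + s) - 2 * σ ^ 2) →
            ((p : ℤ) ∣ a * (n - s) → (p : ℤ) ^ j ∣ a * (n - s)) ∧
            (¬ (p : ℤ) ∣ a * (n - s) → (p : ℤ) ^ j ∣ a * (n + s) - 2 * σ ^ 2) := by
          intro s hs
          have h1 : (p : ℤ) ^ j ∣ (a * (n - s)) * (a * (n + s) - 2 * σ ^ 2) := by
            refine hpj'.trans ?_
            rw [mul_assoc]
            exact dvd_mul_of_dvd_right hs a
          constructor
          · intro h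
            have h2 : ¬ (p : ℤ) ∣ a * (n + s) - 2 * σ ^ 2 := by
              intro h3
              have h4 : (p : ℤ) ∣ 2 * D := by
                have := dvd_add h h3
                rwa [show a * (n - s) + (a * (n + s) - 2 * σ ^ 2) = 2 * D by rw [hDdef]; ring]
                  at this
              rcases hpprime.dvd_or_dvd h4 with h5 | h5
              · exact hp2 h5
              · exact hpD h5
            exact pow_dvd_of_not_dvd p j hp _ _ (by rwa [mul_comm] at h1) h2
          · intro h
            exact pow_dvd_of_not_dvd p j hp _ _ h1 h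
        have hmemP : p ∈ P.primeFactors := Nat.mem_primeFactors.2 ⟨hp, hpP, by omega⟩
        have hiff : (p : ℤ) ∣ a * (n - t) ↔ (p : ℤ) ∣ a * (n - t') := by
          have e1 : P.primeFactors.filter (fun p : ℕ => (p : ℤ) ∣ a * (n - t)) = S :=
            congrArg Prod.snd htg
          have e2 : P.primeFactors.filter (fun p : ℕ => (p : ℤ) ∣ a * (n - t')) = S :=
            congrArg Prod.snd htg'
          have m1 : p ∈ S ↔ (p : ℤ) ∣ a * (n - t) := by
            rw [← e1, Finset.mem_filter]; exact ⟨fun h => h.2, fun h => ⟨hmemP, h⟩⟩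
          have m2 : p ∈ S ↔ (p : ℤ) ∣ a * (n - t') := by
            rw [← e2, Finset.mem_filter]; exact ⟨fun h => h.2, fun h => ⟨hmemP, h⟩⟩
          rw [← m1, ← m2]
        by_cases hcase : (p : ℤ) ∣ a * (n - t)
        · have h1 := (key t hP1').1 hcase
          have h2 := (key t' hP2').1 (hiff.1 hcase)
          have := dvd_sub h2 h1
          rwa [show a * (n - t') - a * (n - t) = a * (t - t') by ring] at this
        · have h1 := (key t hP1').2 hcase
          have h2 := (key t' hP2').2 (fun h => hcase (hiff.2 h))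
          have := dvd_sub h1 h2
          rwa [show a * (n + t) - 2 * σ ^ 2 - (a * (n + t') - 2 * σ ^ 2) = a * (t - t') by ring]
            at this
    have hcount := card_class_le a ((G : ℤ) * (P : ℤ) ^ k) n ha (by positivity) hn
      (F.filter (fun t => g t = (G, S))) (fun t ht => by
        have := Finset.mem_Icc.1 (Finset.mem_filter.1 (Finset.mem_filter.1 ht).1).1
        exact this) hdiv
    push_cast at hcount
    rw [hsum]
    have hsG : Real.sqrt G ≤ G := by
      rw [Real.sqrt_le_left (by linarith)]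
      nlinarith
    have hsG2 : Real.sqrt G ≤ a * Real.sqrt n := by
      have h1 : (G : ℝ) ≤ a * n := by
        have h2 : (G : ℤ) ≤ D := Int.le_of_dvd hD hGD
        have h3 : D ≤ a * n := by rw [hDdef]; nlinarith [sq_nonneg σ]
        exact_mod_cast h2.trans h3
      calc Real.sqrt G ≤ Real.sqrt (a * n) := Real.sqrt_le_sqrt h1
        _ = Real.sqrt a * Real.sqrt n := Real.sqrt_mul (by linarith) _
        _ ≤ a * Real.sqrt n := by
          apply mul_le_mul_of_nonneg_right _ (Real.sqrt_nonneg _)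
          rw [Real.sqrt_le_left (by linarith)]
          nlinarith
    have hs0 : 0 ≤ Real.sqrt G := Real.sqrt_nonneg _
    have hsn : 0 ≤ Real.sqrt n := Real.sqrt_nonneg _
    calc ((F.filter (fun t => g t = (G, S))).card : ℝ) * Real.sqrt G
        ≤ (2 * a * n / (G * (P : ℝ) ^ k) + 1) * Real.sqrt G :=
          mul_le_mul_of_nonneg_right hcount hs0
      _ = (2 * a * (n / (P : ℝ) ^ k)) * (Real.sqrt G / G) + Real.sqrt G := by
          field_simp
      _ ≤ (2 * a * (n / (P : ℝ) ^ k)) * 1 + a * Real.sqrt n := by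
          apply add_le_add _ hsG2
          apply mul_le_mul_of_nonneg_left _ (by positivity)
          rw [div_le_one (by linarith)]
          exact hsG
      _ ≤ 2 * a * (n / (P : ℝ) ^ k + Real.sqrt n) := by nlinarith
  calc ∑ c ∈ D.natAbs.divisors ×ˢ P.primeFactors.powerset,
        ∑ t ∈ F.filter (fun t => g t = c), Real.sqrt (Int.gcd D (a * t - σ ^ 2))
      ≤ ∑ _c ∈ D.natAbs.divisors ×ˢ P.primeFactors.powerset,
          2 * a * (n / (P : ℝ) ^ k + Real.sqrt n) := Finset.sum_le_sum hclass
    _ = 2 ^ P.primeFactors.card * (2 * a) * D.natAbs.divisors.card *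
          (n / (P : ℝ) ^ k + Real.sqrt n) := by
        rw [Finset.sum_const, Finset.card_product, Finset.card_powerset, nsmul_eq_mul]
        push_cast
        ring

end Pool.Agent.LX
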