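import Pool.Agent.LX.Triples
import Pool.Agent.LX.Closure
import Pool.Agent.LX.CountC
import Pool.Agent.LX.DivBound
import Pool.Agent.LX.SumT

set_option autoImplicit false
set_option linter.style.longLine false

/-! Upper bound for the number of pairs. -/

namespace Pool.Agent.LX

namespace PU

theorem ncard_biUnion_le {ι α : Type*} (I : Finset ι) (T : ι → Set α) (M : ι → ℝ)
    (hT : ∀ i ∈ I, (T i).Finite ∧ ((T i).ncard : ℝ) ≤ M i) :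
    (⋃ i ∈ I, T i).Finite ∧ ((⋃ i ∈ I, T i).ncard : ℝ) ≤ ∑ i ∈ I, M i := by
  classical
  induction I using Finset.induction_on with
  | empty => simp
  | insert a s ha ih =>
    obtain ⟨h1, h2⟩ := ih fun i hi => hT i (Finset.mem_insert_of_mem hi)
    obtain ⟨h3, h4⟩ := hT a (Finset.mem_insert_self a s)
    rw [Finset.set_biUnion_insert, Finset.sum_insert ha]
    refine ⟨h3.union h1, ?_⟩
    have h5 := Set.ncard_union_le (T a) (⋃ i ∈ s, T i)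
    have h6 : ((T a ∪ ⋃ i ∈ s, T i).ncard : ℝ) ≤ (T a).ncard + (⋃ i ∈ s, T i).ncard := by
      exact_mod_cast h5
    linarith

theorem ncard_biUnion_const {ι α : Type*} (I : Finset ι) (T : ι → Set α) (M : ℝ)
    (hT : ∀ i ∈ I, (T i).Finite ∧ ((T i).ncard : ℝ) ≤ M) :
    (⋃ i ∈ I, T i).Finite ∧ ((⋃ i ∈ I, T i).ncard : ℝ) ≤ I.card * M := by
  obtain ⟨h1, h2⟩ := ncard_biUnion_le I T (fun _ => M) hT
  refine ⟨h1, h2.trans (le_of_eq ?_)⟩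
  rw [Finset.sum_const, nsmul_eq_mul]

theorem Q_eq (x : Fin 4 → ℤ) : Q x = x 0 ^ 2 + x 1 ^ 2 + x 2 ^ 2 + 2 * x 3 ^ 2 := by
  simp only [Q, B]; ring

theorem Q_nonneg (x : Fin 4 → ℤ) : 0 ≤ Q x := by
  rw [Q_eq]; positivity

theorem Q_eq_zero (x : Fin 4 → ℤ) (h : Q x = 0) : x = 0 := by
  rw [Q_eq] at h
  have h0 : x 0 = 0 := by nlinarith [sq_nonneg (x 0), sq_nonneg (x 1), sq_nonneg (x 2), sq_nonneg (x 3)]
  have h1 : x 1 = 0 := by nlinarith [sq_nonneg (x 0), sq_nonneg (x 1), sq_nonneg (x 2), sq_nonneg (x 3)]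
  have h2 : x 2 = 0 := by nlinarith [sq_nonneg (x 0), sq_nonneg (x 1), sq_nonneg (x 2), sq_nonneg (x 3)]
  have h3 : x 3 = 0 := by nlinarith [sq_nonneg (x 0), sq_nonneg (x 1), sq_nonneg (x 2), sq_nonneg (x 3)]
  funext i
  fin_cases i <;> simp [h0, h1, h2, h3]

theorem finite_Q (m : ℤ) : {x : Fin 4 → ℤ | Q x = m}.Finite := by
  refine (Set.finite_Icc (fun _ : Fin 4 => -|m|) (fun _ : Fin 4 => |m|)).subset ?_
  intro x hx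
  replace hx : Q x = m := hx
  rw [Q_eq] at hx
  have key : ∀ i, |x i| ≤ |m| := by
    intro i
    have h1 : x i ^ 2 ≤ m := by
      fin_cases i <;> simp only [Fin.zero_eta, Fin.mk_one, Fin.reduceFinMk] <;>
        nlinarith [sq_nonneg (x 0), sq_nonneg (x 1), sq_nonneg (x 2), sq_nonneg (x 3)]
    have h2 : m ≤ |m| := le_abs_self m
    have h3 : |x i| ≤ x i ^ 2 := by
      rw [← sq_abs]
      have := abs_nonneg (x i)
      nlinarith [Int.le_self_sq |x i|]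
    omega
  exact ⟨fun i => (abs_le.mp (key i)).1, fun i => (abs_le.mp (key i)).2⟩

/-- the number of `c₀` -/
theorem count_c0 (a κ m : ℤ) (ha : 0 < a) (hκ : 0 < κ) :
    {c : ℤ | 0 ≤ c ∧ c < κ ∧ κ ∣ c * a - m}.Finite ∧
    ({c : ℤ | 0 ≤ c ∧ c < κ ∧ κ ∣ c * a - m}.ncard : ℝ) ≤ a := by
  have hfin : {c : ℤ | 0 ≤ c ∧ c < κ ∧ κ ∣ c * a - m}.Finite :=
    (Set.finite_Ico 0 κ).subset fun c hc => ⟨hc.1, hc.2.1⟩
  refine ⟨hfin, ?_⟩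
  have h1 : {c : ℤ | 0 ≤ c ∧ c < κ ∧ κ ∣ c * a - m}.ncard ≤
      (Set.Ico (-(m / κ)) (-(m / κ) + a)).ncard := by
    refine Set.ncard_le_ncard_of_injOn (fun c => (c * a - m) / κ) ?_ ?_ (Set.finite_Ico _ _)
    · rintro c ⟨h0, h2, q, hq⟩
      have h3 : (c * a - m) / κ = q := by
        rw [hq]; exact Int.mul_ediv_cancel_left _ hκ.ne'
      have h4 : m / κ * κ ≤ m := Int.ediv_mul_le m hκ.ne'
      have h5 : m < (m / κ + 1) * κ := Int.lt_ediv_add_one_mul_self m hκ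
      simp only [h3, Set.mem_Ico]
      constructor
      · have h6 : 0 ≤ c * a := by positivity
        have h7 : -q * κ ≤ m := by linarith
        have := (Int.le_ediv_iff_mul_le hκ).mpr h7
        omega
      · by_contra hcon
        push Not at hcon
        have h8 : (-(m / κ) + a) * κ ≤ q * κ := mul_le_mul_of_nonneg_right hcon hκ.le
        have h9 : c * a ≤ (κ - 1) * a := mul_le_mul_of_nonneg_right (by omega) ha.le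
        nlinarith
    · rintro c ⟨-, -, q, hq⟩ c' ⟨-, -, q', hq'⟩ h
      have h3 : (c * a - m) / κ = q := by
        rw [hq]; exact Int.mul_ediv_cancel_left _ hκ.ne'
      have h3' : (c' * a - m) / κ = q' := by
        rw [hq']; exact Int.mul_ediv_cancel_left _ hκ.ne'
      have h4 : q = q' := by
        have : (c * a - m) / κ = (c' * a - m) / κ := h
        rw [h3, h3'] at this
        exact this
      rw [h4] at hq
      have h5 : c * a = c' * a := by linarith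
      exact mul_right_cancel₀ ha.ne' h5
  have h2 : (Set.Ico (-(m / κ)) (-(m / κ) + a)).ncard = a.toNat := by
    rw [← Finset.coe_Ico, Set.ncard_coe_finset, Int.card_Ico]
    congr 1
    ring
  have h3 : ({c : ℤ | 0 ≤ c ∧ c < κ ∧ κ ∣ c * a - m}.ncard : ℝ) ≤ (a.toNat : ℝ) := by
    exact_mod_cast h1.trans_eq h2
  have h4 : ((a.toNat : ℕ) : ℝ) = (a : ℝ) := by
    have : ((a.toNat : ℕ) : ℤ) = a := Int.toNat_of_nonneg ha.le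
    exact_mod_cast this
  rw [h4] at h3
  exact h3

theorem B_comm (x y : Fin 4 → ℤ) : B x y = B y x := by
  simp only [B]; ring

theorem B_comb (v x₁ x₂ y u : Fin 4 → ℤ) (κ c₁ c₀ : ℤ)
    (h : ∀ l, x₂ l = κ * y l + c₁ * x₁ l + c₀ * u l) :
    B v x₂ = κ * B v y + c₁ * B v x₁ + c₀ * B v u := by
  simp only [B, h]; ring

theorem Q_comb (x₁ x₂ y u : Fin 4 → ℤ) (κ c₁ c₀ : ℤ)
    (h : ∀ l, x₂ l = κ * y l + c₁ * x₁ l + c₀ * u l) :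
    Q x₂ = κ ^ 2 * Q y + 2 * κ * c₁ * B x₁ y + 2 * κ * c₀ * B u y + c₁ ^ 2 * Q x₁ +
      c₀ ^ 2 * Q u + 2 * c₁ * c₀ * B u x₁ := by
  simp only [Q, B, h]; ring

theorem rel_det (a n σ t κ c₁ c₀ i₁ i₂ i₃ : ℤ) (r1 : σ = κ * i₁ + c₁ * σ + c₀ * a)
    (r2 : t = κ * i₂ + c₁ * n + c₀ * σ)
    (r3 : n = κ ^ 2 * i₃ + 2 * κ * c₁ * i₂ + 2 * κ * c₀ * i₁ + c₁ ^ 2 * n + c₀ ^ 2 * a +
      2 * c₁ * c₀ * σ) :
    κ ^ 2 * (a * (n * i₃ - i₂ ^ 2) - σ * (σ * i₃ - i₁ * i₂) + i₁ * (σ * i₂ - i₁ * n)) =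
      (n - t) * (a * (n + t) - 2 * σ ^ 2) := by
  subst r2
  linear_combination (-(a * n - σ ^ 2)) * r3 + (-(2 * σ * (κ * i₂ + c₁ * n + c₀ * σ) -
    n * ((κ * i₁ + c₁ * σ + c₀ * a) + σ))) * r1

theorem rel_c1 (a n σ t κ c₁ c₀ i₁ i₂ : ℤ) (r1 : σ = κ * i₁ + c₁ * σ + c₀ * a)
    (r2 : t = κ * i₂ + c₁ * n + c₀ * σ) :
    c₁ * (a * n - σ ^ 2) - (a * t - σ ^ 2) = κ * (σ * i₁ - a * i₂) := by
  subst r2
  linear_combination σ * r1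

theorem rel_c2 (a n σ t κ c₁ c₀ i₁ i₂ i₃ : ℤ) (r1 : σ = κ * i₁ + c₁ * σ + c₀ * a)
    (r2 : t = κ * i₂ + c₁ * n + c₀ * σ)
    (r3 : n = κ ^ 2 * i₃ + 2 * κ * c₁ * i₂ + 2 * κ * c₀ * i₁ + c₁ ^ 2 * n + c₀ ^ 2 * a +
      2 * c₁ * c₀ * σ) :
    (a * n - σ ^ 2) * (1 + c₁ ^ 2) - 2 * c₁ * (a * t - σ ^ 2) = κ ^ 2 * (a * i₃ - i₁ ^ 2) := by
  subst r2
  linear_combination a * r3 - (κ * i₁ + a * c₀ + σ * (1 - c₁)) * r1

/-- the pairs with given closure data -/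
def Fib (u : Fin 4 → ℤ) (n σ t κ c₁ c₀ : ℤ) : Set ((Fin 4 → ℤ) × (Fin 4 → ℤ)) :=
  {p | Q p.1 = n ∧ B u p.1 = σ ∧ Q p.2 = n ∧ B u p.2 = σ ∧ B p.1 p.2 = t ∧
    ∃ y : Fin 4 → ℤ, (∀ l, p.2 l = κ * y l + c₁ * p.1 l + c₀ * u l) ∧ Sat3 u p.1 y}

theorem fib_rel {u : Fin 4 → ℤ} {n σ t κ c₁ c₀ : ℤ} {x₁ x₂ y : Fin 4 → ℤ} (h1 : Q x₁ = n)
    (h2 : B u x₁ = σ) (h3 : Q x₂ = n) (h4 : B u x₂ = σ) (h5 : B x₁ x₂ = t)
    (hy : ∀ l, x₂ l = κ * y l + c₁ * x₁ l + c₀ * u l) :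
    σ = κ * B u y + c₁ * σ + c₀ * Q u ∧ t = κ * B x₁ y + c₁ * n + c₀ * σ ∧
    n = κ ^ 2 * Q y + 2 * κ * c₁ * B x₁ y + 2 * κ * c₀ * B u y + c₁ ^ 2 * n + c₀ ^ 2 * Q u +
      2 * c₁ * c₀ * σ := by
  refine ⟨?_, ?_, ?_⟩
  · have := B_comb u x₁ x₂ y u κ c₁ c₀ hy
    rw [h4, h2] at this
    exact this
  · have := B_comb x₁ x₁ x₂ y u κ c₁ c₀ hy
    rw [h5, B_comm x₁ u, h2] at this
    have h6 : B x₁ x₁ = n := h1
    rw [h6] at this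
    exact this
  · have := Q_comb x₁ x₂ y u κ c₁ c₀ hy
    rw [h3, h1, h2] at this
    exact this

theorem fib_count (K₀ : ℕ) (hK : ∀ (u : Fin 4 → ℤ) (n σ i₁ i₂ i₃ Δ : ℤ),
    Δ = Q u * (n * i₃ - i₂ ^ 2) - σ * (σ * i₃ - i₁ * i₂) + i₁ * (σ * i₂ - i₁ * n) → 0 < Δ →
    {p : (Fin 4 → ℤ) × (Fin 4 → ℤ) | Q p.1 = n ∧ B u p.1 = σ ∧ B u p.2 = i₁ ∧ B p.1 p.2 = i₂ ∧
      Q p.2 = i₃ ∧ Sat3 u p.1 p.2}.ncard ≤ K₀ * Δ.natAbs.divisors.card)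
    (u : Fin 4 → ℤ) (n σ t κ c₁ c₀ : ℤ) (hκ : 0 < κ)
    (hd : 0 < (n - t) * (Q u * (n + t) - 2 * σ ^ 2)) :
    (Fib u n σ t κ c₁ c₀).Finite ∧ ((Fib u n σ t κ c₁ c₀).ncard : ℝ) ≤
      K₀ * (((n - t) * (Q u * (n + t) - 2 * σ ^ 2)).natAbs.divisors.card : ℝ) := by
  have hfin : (Fib u n σ t κ c₁ c₀).Finite := by
    refine ((finite_Q n).prod (finite_Q n)).subset ?_
    rintro ⟨x₁, x₂⟩ ⟨h1, -, h3, -⟩
    exact ⟨h1, h3⟩
  refine ⟨hfin, ?_⟩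
  rcases (Fib u n σ t κ c₁ c₀).eq_empty_or_nonempty with he | ⟨⟨x₁, x₂⟩, h1, h2, h3, h4, h5, y, hy, hs⟩
  · rw [he, Set.ncard_empty]
    simp only [Nat.cast_zero]
    positivity
  · simp only at h1 h2 h3 h4 h5 hy hs
    obtain ⟨r1, r2, r3⟩ := fib_rel h1 h2 h3 h4 h5 hy
    have hdet := rel_det (Q u) n σ t κ c₁ c₀ (B u y) (B x₁ y) (Q y) r1 r2 r3
    set Δ := Q u * (n * Q y - B x₁ y ^ 2) - σ * (σ * Q y - B u y * B x₁ y) +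
      B u y * (σ * B x₁ y - B u y * n) with hΔ
    have hΔ0 : 0 < Δ := by
      have hk2 : 0 < κ ^ 2 := by positivity
      rw [← hdet] at hd
      exact (mul_pos_iff_of_pos_left hk2).mp hd
    have h6 := hK u n σ (B u y) (B x₁ y) (Q y) Δ hΔ hΔ0
    set T : Set ((Fin 4 → ℤ) × (Fin 4 → ℤ)) := {p | Q p.1 = n ∧ B u p.1 = σ ∧ B u p.2 = B u y ∧
      B p.1 p.2 = B x₁ y ∧ Q p.2 = Q y ∧ Sat3 u p.1 p.2} with hT
    have hTfin : T.Finite := by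
      refine ((finite_Q n).prod (finite_Q (Q y))).subset ?_
      rintro ⟨z₁, z₂⟩ ⟨g1, -, -, -, g5, -⟩
      exact ⟨g1, g5⟩
    have hsub : Fib u n σ t κ c₁ c₀ ⊆
        (fun p : (Fin 4 → ℤ) × (Fin 4 → ℤ) => (p.1, fun l => κ * p.2 l + c₁ * p.1 l + c₀ * u l)) '' T := by
      rintro ⟨z₁, z₂⟩ ⟨g1, g2, g3, g4, g5, y', hy', hs'⟩
      simp only at g1 g2 g3 g4 g5 hy' hs'
      obtain ⟨q1, q2, q3⟩ := fib_rel g1 g2 g3 g4 g5 hy'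
      have e1 : B u y' = B u y := mul_left_cancel₀ hκ.ne' (by linarith)
      have e2 : B z₁ y' = B x₁ y := mul_left_cancel₀ hκ.ne' (by linarith)
      have e3 : Q y' = Q y := by
        have hk2 : κ ^ 2 ≠ 0 := by positivity
        refine mul_left_cancel₀ hk2 ?_
        rw [e1, e2] at q3
        linarith
      refine ⟨(z₁, y'), ⟨g1, g2, e1, e2, e3, hs'⟩, ?_⟩
      refine Prod.ext rfl ?_
      funext l
      exact (hy' l).symm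
    have h7 : (Fib u n σ t κ c₁ c₀).ncard ≤ T.ncard :=
      (Set.ncard_le_ncard hsub (hTfin.image _)).trans (Set.ncard_image_le hTfin)
    have h8 : Δ.natAbs.divisors.card ≤
        ((n - t) * (Q u * (n + t) - 2 * σ ^ 2)).natAbs.divisors.card := by
      refine Finset.card_le_card (Nat.divisors_subset_of_dvd ?_ ?_)
      · exact Int.natAbs_ne_zero.mpr hd.ne'
      · exact Int.natAbs_dvd_natAbs.mpr ⟨κ ^ 2, by rw [← hdet]; ring⟩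
    have h9 : (Fib u n σ t κ c₁ c₀).ncard ≤
        K₀ * ((n - t) * (Q u * (n + t) - 2 * σ ^ 2)).natAbs.divisors.card :=
      (h7.trans h6).trans (Nat.mul_le_mul_left _ h8)
    exact_mod_cast h9

theorem det_eq (a n σ t : ℤ) :
    a * (n * n - t ^ 2) - σ * (σ * n - σ * t) + σ * (σ * t - σ * n) =
      (n - t) * (a * (n + t) - 2 * σ ^ 2) := by
  ring

/-- the pairs with inner product `t` -/
def St (u : Fin 4 → ℤ) (n σ t : ℤ) : Set ((Fin 4 → ℤ) × (Fin 4 → ℤ)) :=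
  {p | p.1 ∈ RU u n σ ∧ p.2 ∈ RU u n σ ∧ B p.1 p.2 = t}

theorem finite_St (u : Fin 4 → ℤ) (n σ t : ℤ) : (St u n σ t).Finite := by
  refine ((finite_Q n).prod (finite_Q n)).subset ?_
  rintro ⟨x₁, x₂⟩ ⟨h1, h3, -⟩
  exact ⟨h1.1, h3.1⟩

/-- the possible `κ` -/
def KI (d : ℤ) : Finset ℤ :=
  (d.natAbs.divisors.image (fun m : ℕ => (m : ℤ))).filter (fun κ => κ ^ 2 ∣ d)

theorem mem_KI {d κ : ℤ} (hd : d ≠ 0) (hκ : 0 < κ) (h : κ ^ 2 ∣ d) : κ ∈ KI d := by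
  rw [KI, Finset.mem_filter]
  refine ⟨?_, h⟩
  rw [Finset.mem_image]
  refine ⟨κ.toNat, ?_, Int.toNat_of_nonneg hκ.le⟩
  rw [Nat.mem_divisors]
  refine ⟨?_, Int.natAbs_ne_zero.mpr hd⟩
  have h1 : κ ∣ d := (Dvd.intro_left κ (by ring : κ * κ = κ ^ 2)).trans h
  have h2 : κ.toNat = κ.natAbs := by omega
  rw [h2]
  exact Int.natAbs_dvd_natAbs.mpr h1

theorem card_KI (d : ℤ) : (KI d).card ≤ d.natAbs.divisors.card :=
  (Finset.card_filter_le _ _).trans Finset.card_image_le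

theorem pos_KI {d κ : ℤ} (h : κ ∈ KI d) : 0 < κ ∧ κ ^ 2 ∣ d := by
  rw [KI, Finset.mem_filter, Finset.mem_image] at h
  obtain ⟨⟨m, hm, rfl⟩, h2⟩ := h
  have := Nat.pos_of_mem_divisors hm
  exact ⟨by exact_mod_cast this, h2⟩

/-- the set of `c₁` -/
def C1 (κ D τ : ℤ) : Set ℤ :=
  {c : ℤ | 0 ≤ c ∧ c < κ ∧ IsCoprime c κ ∧ κ ∣ c * D - τ ∧ κ ^ 2 ∣ D * (1 + c ^ 2) - 2 * c * τ}

theorem finite_C1 (κ D τ : ℤ) : (C1 κ D τ).Finite :=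
  (Set.finite_Ico 0 κ).subset fun _ hc => ⟨hc.1, hc.2.1⟩

/-- the set of `c₀` -/
def C0 (a κ m : ℤ) : Set ℤ := {c : ℤ | 0 ≤ c ∧ c < κ ∧ κ ∣ c * a - m}

theorem finite_C0 (a κ m : ℤ) : (C0 a κ m).Finite :=
  (Set.finite_Ico 0 κ).subset fun _ hc => ⟨hc.1, hc.2.1⟩

theorem per_t (K₀ : ℕ) (hK : ∀ (u : Fin 4 → ℤ) (n σ i₁ i₂ i₃ Δ : ℤ),
    Δ = Q u * (n * i₃ - i₂ ^ 2) - σ * (σ * i₃ - i₁ * i₂) + i₁ * (σ * i₂ - i₁ * n) → 0 < Δ →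
    {p : (Fin 4 → ℤ) × (Fin 4 → ℤ) | Q p.1 = n ∧ B u p.1 = σ ∧ B u p.2 = i₁ ∧ B p.1 p.2 = i₂ ∧
      Q p.2 = i₃ ∧ Sat3 u p.1 p.2}.ncard ≤ K₀ * Δ.natAbs.divisors.card)
    (u : Fin 4 → ℤ) (n σ t d : ℤ) (ha : 0 < Q u) (hD : 0 < Q u * n - σ ^ 2)
    (hdd : d = (n - t) * (Q u * (n + t) - 2 * σ ^ 2)) (hd : 0 < d) :
    ((St u n σ t).ncard : ℝ) ≤ (d.natAbs.divisors.card : ℝ) * (4 * (d.natAbs.divisors.card : ℝ) *
      Real.sqrt (Int.gcd (Q u * n - σ ^ 2) (Q u * t - σ ^ 2)) *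
      (((Q u : ℤ) : ℝ) * (K₀ * (d.natAbs.divisors.card : ℝ)))) := by
  classical
  set D := Q u * n - σ ^ 2 with hDd
  set τ := Q u * t - σ ^ 2 with hτ
  set S := Real.sqrt (Int.gcd D τ) with hS
  set N : ℝ := (d.natAbs.divisors.card : ℝ) with hN
  have hN0 : 0 ≤ N := Nat.cast_nonneg _
  have hS0 : 0 ≤ S := Real.sqrt_nonneg _
  have ha' : (0 : ℝ) ≤ ((Q u : ℤ) : ℝ) := by exact_mod_cast ha.le
  -- the innermost sets
  have hF : ∀ κ c₁ c₀ : ℤ, 0 < κ → (Fib u n σ t κ c₁ c₀).Finite ∧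
      ((Fib u n σ t κ c₁ c₀).ncard : ℝ) ≤ K₀ * N := by
    intro κ c₁ c₀ hκ
    have := fib_count K₀ hK u n σ t κ c₁ c₀ hκ (by rw [← hdd]; exact hd)
    rw [← hdd] at this
    exact this
  have hL0 : ∀ κ c₁ : ℤ, 0 < κ →
      (⋃ c₀ ∈ (finite_C0 (Q u) κ ((1 - c₁) * σ)).toFinset, Fib u n σ t κ c₁ c₀).Finite ∧
      ((⋃ c₀ ∈ (finite_C0 (Q u) κ ((1 - c₁) * σ)).toFinset,
        Fib u n σ t κ c₁ c₀).ncard : ℝ) ≤ ((Q u : ℤ) : ℝ) * (K₀ * N) := by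
    intro κ c₁ hκ
    obtain ⟨e1, e2⟩ := ncard_biUnion_const (finite_C0 (Q u) κ ((1 - c₁) * σ)).toFinset
      (fun c₀ => Fib u n σ t κ c₁ c₀) (K₀ * N) (fun c₀ _ => hF κ c₁ c₀ hκ)
    refine ⟨e1, e2.trans ?_⟩
    refine mul_le_mul_of_nonneg_right ?_ (by positivity)
    have h3 := (count_c0 (Q u) κ ((1 - c₁) * σ) ha hκ).2
    rw [← Set.ncard_eq_toFinset_card _ (finite_C0 (Q u) κ ((1 - c₁) * σ))]
    exact h3
  have hL1 : ∀ κ ∈ KI d,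
      (⋃ c₁ ∈ (finite_C1 κ D τ).toFinset,
        ⋃ c₀ ∈ (finite_C0 (Q u) κ ((1 - c₁) * σ)).toFinset, Fib u n σ t κ c₁ c₀).Finite ∧
      ((⋃ c₁ ∈ (finite_C1 κ D τ).toFinset,
        ⋃ c₀ ∈ (finite_C0 (Q u) κ ((1 - c₁) * σ)).toFinset,
          Fib u n σ t κ c₁ c₀).ncard : ℝ) ≤ 4 * N * S * (((Q u : ℤ) : ℝ) * (K₀ * N)) := by
    intro κ hκI
    obtain ⟨hκ, hκd⟩ := pos_KI hκI
    obtain ⟨e1, e2⟩ := ncard_biUnion_const (finite_C1 κ D τ).toFinset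
      (fun c₁ => ⋃ c₀ ∈ (finite_C0 (Q u) κ ((1 - c₁) * σ)).toFinset, Fib u n σ t κ c₁ c₀)
      (((Q u : ℤ) : ℝ) * (K₀ * N)) (fun c₁ _ => hL0 κ c₁ hκ)
    refine ⟨e1, e2.trans ?_⟩
    refine mul_le_mul_of_nonneg_right ?_ (by positivity)
    have h3 := count_c κ D τ hκ hD
    rw [← Set.ncard_eq_toFinset_card _ (finite_C1 κ D τ)]
    refine h3.trans ?_
    refine mul_le_mul_of_nonneg_right ?_ hS0
    refine mul_le_mul_of_nonneg_left ?_ (by norm_num)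
    rw [hN, Nat.cast_le]
    exact Finset.card_le_card (Nat.divisors_subset_of_dvd (Int.natAbs_ne_zero.mpr hd.ne')
      (Int.natAbs_dvd_natAbs.mpr hκd))
  obtain ⟨e1, e2⟩ := ncard_biUnion_const (KI d)
    (fun κ => ⋃ c₁ ∈ (finite_C1 κ D τ).toFinset,
        ⋃ c₀ ∈ (finite_C0 (Q u) κ ((1 - c₁) * σ)).toFinset, Fib u n σ t κ c₁ c₀)
    (4 * N * S * (((Q u : ℤ) : ℝ) * (K₀ * N))) hL1
  have hsub : St u n σ t ⊆ ⋃ κ ∈ KI d, ⋃ c₁ ∈ (finite_C1 κ D τ).toFinset,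
        ⋃ c₀ ∈ (finite_C0 (Q u) κ ((1 - c₁) * σ)).toFinset, Fib u n σ t κ c₁ c₀ := by
    rintro ⟨x₁, x₂⟩ ⟨⟨h1, h2, h3⟩, ⟨h4, h5, h6⟩, h7⟩
    simp only at h1 h2 h3 h4 h5 h6 h7
    have hdet : 0 < Q u * (Q x₁ * Q x₂ - B x₁ x₂ ^ 2) -
        B u x₁ * (B u x₁ * Q x₂ - B u x₂ * B x₁ x₂)
        + B u x₂ * (B u x₁ * B x₁ x₂ - B u x₂ * Q x₁) := by
      rw [h1, h2, h4, h5, h7, det_eq, ← hdd]
      exact hd
    obtain ⟨κ, c₁, c₀, y, hκ, hc1, hc1', hc0, hc0', hcop, hy, hs⟩ :=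
      closure_exists u x₁ x₂ h3 h6 hdet
    obtain ⟨r1, r2, r3⟩ := fib_rel h1 h2 h4 h5 h7 hy
    have q1 := rel_det (Q u) n σ t κ c₁ c₀ (B u y) (B x₁ y) (Q y) r1 r2 r3
    have q2 := rel_c1 (Q u) n σ t κ c₁ c₀ (B u y) (B x₁ y) r1 r2
    have q3 := rel_c2 (Q u) n σ t κ c₁ c₀ (B u y) (B x₁ y) (Q y) r1 r2 r3
    simp only [Set.mem_iUnion, exists_prop]
    refine ⟨κ, mem_KI hd.ne' hκ ?_, c₁, ?_, c₀, ?_, ?_⟩
    · rw [hdd, ← q1]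
      exact Dvd.intro _ rfl
    · rw [Set.Finite.mem_toFinset]
      refine ⟨hc1, hc1', hcop, ?_, ?_⟩
      · rw [q2]; exact Dvd.intro _ rfl
      · rw [q3]; exact Dvd.intro _ rfl
    · rw [Set.Finite.mem_toFinset]
      refine ⟨hc0, hc0', ?_⟩
      exact ⟨-(B u y), by linarith⟩
    · exact ⟨h1, h2, h4, h5, h7, y, hy, hs⟩
  have h8 : ((St u n σ t).ncard : ℝ) ≤ ((⋃ κ ∈ KI d, ⋃ c₁ ∈ (finite_C1 κ D τ).toFinset,
        ⋃ c₀ ∈ (finite_C0 (Q u) κ ((1 - c₁) * σ)).toFinset, Fib u n σ t κ c₁ c₀).ncard : ℝ) := by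
    exact_mod_cast Set.ncard_le_ncard hsub e1
  refine h8.trans (e2.trans ?_)
  refine mul_le_mul_of_nonneg_right ?_ (by positivity)
  rw [hN, Nat.cast_le]
  exact card_KI d

theorem Q_sub (x₁ x₂ : Fin 4 → ℤ) : Q (fun l => x₁ l - x₂ l) = Q x₁ + Q x₂ - 2 * B x₁ x₂ := by
  simp only [Q, B]; ring

theorem Q_add (x₁ x₂ : Fin 4 → ℤ) : Q (fun l => x₁ l + x₂ l) = Q x₁ + Q x₂ + 2 * B x₁ x₂ := by
  simp only [Q, B]; ring

theorem Q_mix (a s : ℤ) (u x₁ x₂ : Fin 4 → ℤ) : Q (fun l => a * (x₁ l + x₂ l) - s * u l) =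
    a ^ 2 * (Q x₁ + Q x₂ + 2 * B x₁ x₂) - 2 * a * s * (B u x₁ + B u x₂) + s ^ 2 * Q u := by
  simp only [Q, B]; ring

theorem facts {u : Fin 4 → ℤ} {n σ t : ℤ} {x₁ x₂ : Fin 4 → ℤ} (ha : 0 < Q u) (h1 : Q x₁ = n)
    (h2 : B u x₁ = σ) (h3 : Q x₂ = n) (h4 : B u x₂ = σ) (h5 : B x₁ x₂ = t) :
    0 ≤ n - t ∧ 0 ≤ n + t ∧ 0 ≤ Q u * (n + t) - 2 * σ ^ 2 ∧ (n - t = 0 → x₁ = x₂) ∧
    (Q u * (n + t) - 2 * σ ^ 2 = 0 → ∀ l, Q u * (x₁ l + x₂ l) = 2 * σ * u l) := by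
  have e1 := Q_sub x₁ x₂
  have e2 := Q_add x₁ x₂
  have e3 := Q_mix (Q u) (2 * σ) u x₁ x₂
  rw [h1, h3, h5] at e1 e2
  rw [h1, h2, h3, h4, h5] at e3
  have p1 := Q_nonneg (fun l => x₁ l - x₂ l)
  have p2 := Q_nonneg (fun l => x₁ l + x₂ l)
  have p3 := Q_nonneg (fun l => Q u * (x₁ l + x₂ l) - (2 * σ) * u l)
  have e4 : Q (fun l => Q u * (x₁ l + x₂ l) - (2 * σ) * u l) =
      (2 * Q u) * (Q u * (n + t) - 2 * σ ^ 2) := by rw [e3]; ring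
  refine ⟨by linarith, by linarith, ?_, ?_, ?_⟩
  · rw [e4] at p3
    exact nonneg_of_mul_nonneg_right p3 (by linarith)
  · intro h
    have := Q_eq_zero (fun l => x₁ l - x₂ l) (by rw [e1]; linarith)
    funext l
    have h6 := congrFun this l
    simp only [Pi.zero_apply] at h6
    linarith
  · intro h l
    have := Q_eq_zero (fun l => Q u * (x₁ l + x₂ l) - (2 * σ) * u l) (by rw [e4, h, mul_zero])
    have h6 := congrFun this l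
    simp only [Pi.zero_apply] at h6
    linarith

/-- the degenerate pairs -/
def E0 (u : Fin 4 → ℤ) (n σ : ℤ) : Set ((Fin 4 → ℤ) × (Fin 4 → ℤ)) :=
  {p | p.1 ∈ RU u n σ ∧ p.2 ∈ RU u n σ ∧
    (n - B p.1 p.2) * (Q u * (n + B p.1 p.2) - 2 * σ ^ 2) = 0}

theorem finite_RU (u : Fin 4 → ℤ) (n σ : ℤ) : (RU u n σ).Finite :=
  (finite_Q n).subset fun _ hx => hx.1

theorem card_E0 (u : Fin 4 → ℤ) (n σ : ℤ) (ha : 0 < Q u) :
    (E0 u n σ).Finite ∧ (E0 u n σ).ncard ≤ 2 * (RU u n σ).ncard := by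
  have hR := finite_RU u n σ
  have hfin : (E0 u n σ).Finite := by
    refine (hR.prod hR).subset ?_
    rintro ⟨x₁, x₂⟩ ⟨h1, h2, -⟩
    exact ⟨h1, h2⟩
  refine ⟨hfin, ?_⟩
  set A : Set ((Fin 4 → ℤ) × (Fin 4 → ℤ)) := {p | p.1 ∈ RU u n σ ∧ p.1 = p.2} with hA
  set A' : Set ((Fin 4 → ℤ) × (Fin 4 → ℤ)) := {p | p.1 ∈ RU u n σ ∧ p.2 ∈ RU u n σ ∧
    ∀ l, Q u * (p.1 l + p.2 l) = 2 * σ * u l} with hA'
  have hsub : E0 u n σ ⊆ A ∪ A' := by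
    rintro ⟨x₁, x₂⟩ ⟨h1, h2, h3⟩
    simp only at h1 h2 h3
    obtain ⟨-, -, -, f4, f5⟩ := facts ha h1.1 h1.2.1 h2.1 h2.2.1 (rfl : B x₁ x₂ = B x₁ x₂)
    rcases mul_eq_zero.mp h3 with h4 | h4
    · exact Or.inl ⟨h1, f4 h4⟩
    · exact Or.inr ⟨h1, h2, f5 h4⟩
  have hAc : A.ncard ≤ (RU u n σ).ncard := by
    refine Set.ncard_le_ncard_of_injOn Prod.fst ?_ ?_ hR
    · rintro ⟨x₁, x₂⟩ ⟨h1, -⟩
      exact h1
    · rintro ⟨x₁, x₂⟩ ⟨-, h1⟩ ⟨y₁, y₂⟩ ⟨-, h2⟩ h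
      simp only at h1 h2 h
      subst h1 h2 h
      rfl
  have hAc' : A'.ncard ≤ (RU u n σ).ncard := by
    refine Set.ncard_le_ncard_of_injOn Prod.fst ?_ ?_ hR
    · rintro ⟨x₁, x₂⟩ ⟨h1, -⟩
      exact h1
    · rintro ⟨x₁, x₂⟩ ⟨-, -, h1⟩ ⟨y₁, y₂⟩ ⟨-, -, h2⟩ h
      simp only at h1 h2 h
      subst h
      refine Prod.ext rfl ?_
      funext l
      have e1 := h1 l
      have e2 := h2 l
      have e3 : Q u * x₂ l = Q u * y₂ l := by linarith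
      exact mul_left_cancel₀ ha.ne' e3
  have hAf : (A ∪ A').Finite := by
    refine Set.Finite.union ?_ ?_
    · refine (hR.prod hR).subset ?_
      rintro ⟨x₁, x₂⟩ ⟨h1, h2⟩
      simp only at h1 h2
      exact ⟨h1, by rw [← h2]; exact h1⟩
    · refine (hR.prod hR).subset ?_
      rintro ⟨x₁, x₂⟩ ⟨h1, h2, -⟩
      exact ⟨h1, h2⟩
  have h5 := (Set.ncard_le_ncard hsub hAf).trans (Set.ncard_union_le A A')
  omega

end PU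

open PU in
theorem pair_upper (u : Fin 4 → ℤ) (hu : Prim u) (P : ℕ) (hP : Odd P) (hP1 : 1 < P)
    (hPu : IsCoprime (Q u) (P : ℤ)) (ε : ℝ) (hε : 0 < ε) (S₀ : ℤ) :
    ∃ K : ℝ, 0 < K ∧ ∀ (n σ : ℤ) (k : ℕ), 0 < n → |σ| ≤ S₀ → 0 < Q u * n - σ ^ 2 →
    IsCoprime (Q u * n - σ ^ 2) (P : ℤ) →
    ({p : (Fin 4 → ℤ) × (Fin 4 → ℤ) | p.1 ∈ RU u n σ ∧ p.2 ∈ RU u n σ ∧
      (P : ℤ) ^ k ∣ (n - B p.1 p.2) * (Q u * (n + B p.1 p.2) - 2 * σ ^ 2)}.ncard : ℝ) ≤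
      K * ((RU u n σ).ncard + (n : ℝ) ^ ε * (n / (P : ℝ) ^ k + Real.sqrt n)) := by
  classical
  have ha : 0 < Q u := by
    rcases (Q_nonneg u).lt_or_eq with h | h
    · exact h
    · exfalso
      obtain ⟨i, hi⟩ := hu 2 Nat.prime_two
      have h0 := Q_eq_zero u h.symm
      apply hi
      rw [h0]
      exact dvd_zero _
  obtain ⟨K₀, hK₀⟩ := triple_count
  obtain ⟨C, hC, hCd⟩ := divisor_bound (ε / 8) (by positivity)
  obtain ⟨K₁, hK₁, hS⟩ := sum_t (Q u) ha P hP hP1 hPu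
  set a : ℝ := ((Q u : ℤ) : ℝ) with haR
  have ha0 : 0 < a := by rw [haR]; exact_mod_cast ha
  refine ⟨2 + 4 * a * K₀ * K₁ * (C ^ 4 * (4 * a) ^ (ε / 2)), by positivity, ?_⟩
  intro n σ k hn _ hD hDP
  have hn0 : (0 : ℝ) < n := by exact_mod_cast hn
  have hn1 : (1 : ℝ) ≤ n := by exact_mod_cast hn
  set R : ℝ := ((RU u n σ).ncard : ℝ) with hR
  have hR0 : 0 ≤ R := Nat.cast_nonneg _
  set M : ℝ := C * (4 * a * (n : ℝ) ^ 2) ^ (ε / 8) with hM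
  have hM0 : 0 < M := by positivity
  -- divisor counts
  have hdiv : ∀ d : ℤ, 0 < d → (d : ℝ) ≤ 4 * a * (n : ℝ) ^ 2 →
      (d.natAbs.divisors.card : ℝ) ≤ M := by
    intro d hd hdle
    refine (hCd d.natAbs (Int.natAbs_pos.mpr hd.ne')).trans ?_
    rw [hM]
    refine mul_le_mul_of_nonneg_left ?_ hC.le
    refine Real.rpow_le_rpow (Nat.cast_nonneg _) ?_ (by positivity)
    have h1 : ((d.natAbs : ℕ) : ℝ) = (d : ℝ) := by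
      rw [Nat.cast_natAbs, abs_of_pos hd]
    rw [h1]
    exact hdle
  have hM4 : M ^ 4 = C ^ 4 * (4 * a) ^ (ε / 2) * (n : ℝ) ^ ε := by
    rw [hM, mul_pow, Real.mul_rpow (by positivity) (by positivity), mul_pow]
    rw [← Real.rpow_natCast (((4 : ℝ) * a) ^ (ε / 8)) 4, ← Real.rpow_mul (by positivity)]
    rw [← Real.rpow_natCast (((n : ℝ) ^ 2) ^ (ε / 8)) 4, ← Real.rpow_mul (by positivity)]
    rw [← Real.rpow_natCast (n : ℝ) 2, ← Real.rpow_mul (by positivity)]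
    have e1 : ε / 8 * ((4 : ℕ) : ℝ) = ε / 2 := by push_cast; ring
    have e2 : ((2 : ℕ) : ℝ) * (ε / 8 * ((4 : ℕ) : ℝ)) = ε := by push_cast; ring
    rw [e2, e1]
    ring
  set X : ℝ := (n : ℝ) / (P : ℝ) ^ k + Real.sqrt n with hX
  have hX0 : 0 ≤ X := by positivity
  set T := (Finset.Icc (-n) n).filter (fun t => ((P : ℤ) ^ k ∣ (n - t) * (Q u * (n + t) - 2 * σ ^ 2)) ∧
        (n - t) * (Q u * (n + t) - 2 * σ ^ 2) ≠ 0) with hT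
  have hper : ∀ t ∈ T, (St u n σ t).Finite ∧ ((St u n σ t).ncard : ℝ) ≤
      (4 * a * K₀ * M ^ 3) * Real.sqrt (Int.gcd (Q u * n - σ ^ 2) (Q u * t - σ ^ 2)) := by
    intro t ht
    refine ⟨finite_St u n σ t, ?_⟩
    rw [hT, Finset.mem_filter] at ht
    obtain ⟨-, -, ht2⟩ := ht
    rcases (St u n σ t).eq_empty_or_nonempty with he | ⟨⟨x₁, x₂⟩, h1, h2, h3⟩
    · rw [he, Set.ncard_empty]
      simp only [Nat.cast_zero]
      positivity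
    · simp only at h1 h2 h3
      obtain ⟨f1, f2, f3, -, -⟩ := facts ha h1.1 h1.2.1 h2.1 h2.2.1 h3
      set d := (n - t) * (Q u * (n + t) - 2 * σ ^ 2) with hd
      have hd0 : 0 < d := lt_of_le_of_ne (mul_nonneg f1 f3) (Ne.symm ht2)
      have h4 := per_t K₀ hK₀ u n σ t d ha hD hd hd0
      have hdle : (d : ℝ) ≤ 4 * a * (n : ℝ) ^ 2 := by
        have g1 : n - t ≤ 2 * n := by linarith
        have g2 : Q u * (n + t) - 2 * σ ^ 2 ≤ Q u * (2 * n) := by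
          have : Q u * (n + t) ≤ Q u * (2 * n) := mul_le_mul_of_nonneg_left (by linarith) ha.le
          nlinarith [sq_nonneg σ]
        have g3 : d ≤ (2 * n) * (Q u * (2 * n)) := mul_le_mul g1 g2 f3 (by linarith)
        have g4 : (d : ℝ) ≤ (((2 * n) * (Q u * (2 * n)) : ℤ) : ℝ) := by exact_mod_cast g3
        refine g4.trans (le_of_eq ?_)
        push_cast
        ring
      have h5 := hdiv d hd0 hdle
      refine h4.trans ?_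
      have hN0 : (0 : ℝ) ≤ (d.natAbs.divisors.card : ℝ) := Nat.cast_nonneg _
      have hS0 := Real.sqrt_nonneg (Int.gcd (Q u * n - σ ^ 2) (Q u * t - σ ^ 2) : ℝ)
      have h6 : (d.natAbs.divisors.card : ℝ) ^ 3 ≤ M ^ 3 := pow_le_pow_left₀ hN0 h5 3
      calc (d.natAbs.divisors.card : ℝ) * (4 * (d.natAbs.divisors.card : ℝ) *
            Real.sqrt (Int.gcd (Q u * n - σ ^ 2) (Q u * t - σ ^ 2)) *
            (((Q u : ℤ) : ℝ) * (K₀ * (d.natAbs.divisors.card : ℝ))))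
          = (4 * a * K₀ * (d.natAbs.divisors.card : ℝ) ^ 3) *
            Real.sqrt (Int.gcd (Q u * n - σ ^ 2) (Q u * t - σ ^ 2)) := by rw [haR]; ring
        _ ≤ _ := by
            refine mul_le_mul_of_nonneg_right ?_ hS0
            exact mul_le_mul_of_nonneg_left h6 (by positivity)
  obtain ⟨e1, e2⟩ := ncard_biUnion_le T (fun t => St u n σ t) _ hper
  rw [← Finset.mul_sum] at e2
  have h7 := hS n σ k hn hD hDP
  have h8 : ((Q u * n - σ ^ 2).natAbs.divisors.card : ℝ) ≤ M := by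
    refine hdiv _ hD ?_
    have g1 : Q u * n - σ ^ 2 ≤ 4 * Q u * n ^ 2 := by
      have : Q u * n ≤ Q u * n ^ 2 := by
        refine mul_le_mul_of_nonneg_left ?_ ha.le
        nlinarith
      nlinarith [sq_nonneg σ, mul_pos ha hn]
    have g2 : ((Q u * n - σ ^ 2 : ℤ) : ℝ) ≤ ((4 * Q u * n ^ 2 : ℤ) : ℝ) := by exact_mod_cast g1
    refine g2.trans (le_of_eq ?_)
    rw [haR]
    push_cast
    ring
  have h9 : ((⋃ t ∈ T, St u n σ t).ncard : ℝ) ≤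
      (4 * a * K₀ * K₁ * (C ^ 4 * (4 * a) ^ (ε / 2))) * ((n : ℝ) ^ ε * X) := by
    refine e2.trans ?_
    calc _ ≤ (4 * a * K₀ * M ^ 3) * (K₁ * M * X) := by
          refine mul_le_mul_of_nonneg_left ?_ (by positivity)
          refine h7.trans ?_
          refine mul_le_mul_of_nonneg_right ?_ hX0
          exact mul_le_mul_of_nonneg_left h8 hK₁.le
      _ = (4 * a * K₀ * K₁) * M ^ 4 * X := by ring
      _ = _ := by rw [hM4]; ring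
  obtain ⟨f1, f2⟩ := card_E0 u n σ ha
  have hsub : {p : (Fin 4 → ℤ) × (Fin 4 → ℤ) | p.1 ∈ RU u n σ ∧ p.2 ∈ RU u n σ ∧
      (P : ℤ) ^ k ∣ (n - B p.1 p.2) * (Q u * (n + B p.1 p.2) - 2 * σ ^ 2)} ⊆
      E0 u n σ ∪ ⋃ t ∈ T, St u n σ t := by
    rintro ⟨x₁, x₂⟩ ⟨h1, h2, h3⟩
    simp only at h1 h2 h3
    by_cases h0 : (n - B x₁ x₂) * (Q u * (n + B x₁ x₂) - 2 * σ ^ 2) = 0
    · exact Or.inl ⟨h1, h2, h0⟩
    · refine Or.inr ?_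
      simp only [Set.mem_iUnion, exists_prop]
      refine ⟨B x₁ x₂, ?_, h1, h2, rfl⟩
      obtain ⟨q1, q2, -, -, -⟩ := facts ha h1.1 h1.2.1 h2.1 h2.2.1 (rfl : B x₁ x₂ = B x₁ x₂)
      rw [hT, Finset.mem_filter, Finset.mem_Icc]
      exact ⟨⟨by linarith, by linarith⟩, h3, h0⟩
  have h10 := (Set.ncard_le_ncard hsub (f1.union e1)).trans
    (Set.ncard_union_le (E0 u n σ) (⋃ t ∈ T, St u n σ t))
  have h11 : ({p : (Fin 4 → ℤ) × (Fin 4 → ℤ) | p.1 ∈ RU u n σ ∧ p.2 ∈ RU u n σ ∧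
      (P : ℤ) ^ k ∣ (n - B p.1 p.2) * (Q u * (n + B p.1 p.2) - 2 * σ ^ 2)}.ncard : ℝ) ≤
      ((E0 u n σ).ncard : ℝ) + ((⋃ t ∈ T, St u n σ t).ncard : ℝ) := by
    exact_mod_cast h10
  have h12 : ((E0 u n σ).ncard : ℝ) ≤ 2 * R := by
    rw [hR]
    exact_mod_cast f2
  have h13 : 0 ≤ (n : ℝ) ^ ε * X := by positivity
  have h14 : 0 ≤ (4 * a * K₀ * K₁ * (C ^ 4 * (4 * a) ^ (ε / 2))) := by positivity
  calc _ ≤ 2 * R + (4 * a * K₀ * K₁ * (C ^ 4 * (4 * a) ^ (ε / 2))) * ((n : ℝ) ^ ε * X) := by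
        linarith
    _ ≤ (2 + 4 * a * K₀ * K₁ * (C ^ 4 * (4 * a) ^ (ε / 2))) * (R + (n : ℝ) ^ ε * X) := by
        nlinarith [mul_nonneg h14 hR0]

end Pool.Agent.LX
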