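import Pool.Agent.LX.SiegelMain
import Pool.Agent.LX.ChiChar

/-!
Project LX: the theorem of Siegel for two real characters.
-/

set_option autoImplicit false

open Complex Filter Topology

namespace Pool.Agent.LX

theorem sg_chi_cases (D k : ℕ) : chi D k = 0 ∨ chi D k = 1 ∨ chi D k = -1 := by
  unfold chi
  split_ifs
  · exact jacobiSym.trichotomy _ _
  · exact Or.inl rfl

/-- a character with values `0, 1, -1` is quadratic -/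
theorem sg_sq {N : ℕ} [NeZero N] (χ : DirichletCharacter ℂ N) (f : ℕ → ℤ)
    (hf : ∀ k : ℕ, χ (k : ZMod N) = (f k : ℂ)) (h : ∀ k, f k = 0 ∨ f k = 1 ∨ f k = -1) :
    χ ^ 2 = 1 := by
  rw [← MulChar.isQuadratic_iff_sq_eq_one]
  intro a
  have h1 : ((a.val : ℕ) : ZMod N) = a := ZMod.natCast_zmod_val a
  rw [← h1, hf]
  rcases h a.val with h2 | h2 | h2
  · left; rw [h2]; simp
  · right; left; rw [h2]; simp
  · right; right; rw [h2]; simp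

/-- the value at `1` -/
theorem sg_IsL (D : ℕ) [NeZero (4 * D)] (χ : DirichletCharacter ℂ (4 * D))
    (hχ : ∀ k : ℕ, χ (k : ZMod (4 * D)) = (chi D k : ℂ)) (hne : χ ≠ 1) (L : ℝ) (hL : IsL D L) :
    (χ.LFunction 1).re = L := by
  have hb : ∀ x : ℕ, 1 ≤ x → |(χ.LFunction 1).re - L| ≤ 32 * D / x := by
    intro x hx
    have h1 := LFunction_one_sum (4 * D) χ hne x hx
    have h2 := hL x hx
    have h3 : (∑ k ∈ Finset.Icc 1 x, χ (k : ZMod (4 * D)) / (k : ℂ)) =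
        ((∑ k ∈ Finset.Icc 1 x, (chi D k : ℝ) / k : ℝ) : ℂ) := by
      push_cast
      apply Finset.sum_congr rfl
      intro k _
      rw [hχ]
    rw [h3] at h1
    have h4 := (Complex.abs_re_le_norm _).trans h1
    rw [Complex.sub_re, Complex.ofReal_re] at h4
    have h5 : (χ.LFunction 1).re - L = (∑ k ∈ Finset.Icc 1 x, (chi D k : ℝ) / k - L) -
        (∑ k ∈ Finset.Icc 1 x, (chi D k : ℝ) / k - (χ.LFunction 1).re) := by ring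
    rw [h5]
    refine (abs_sub _ _).trans ?_
    push_cast at h4
    have h6 : (32 * D / x : ℝ) = 16 * D / x + 4 * (4 * D) / x := by ring
    rw [h6]
    exact add_le_add h2 h4
  have hlim : Tendsto (fun x : ℕ => (32 * D / x : ℝ)) atTop (𝓝 0) :=
    tendsto_const_div_atTop_nhds_zero_nat _
  have h0 : |(χ.LFunction 1).re - L| ≤ 0 := by
    apply ge_of_tendsto hlim
    filter_upwards [eventually_ge_atTop 1] with x hx
    exact hb x hx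
  exact sub_eq_zero.1 (abs_eq_zero.1 (le_antisymm h0 (abs_nonneg _)))

theorem siegel (ε : ℝ) (hε : 0 < ε) : ∃ c : ℝ, 0 < c ∧ ∀ D₁ D₂ : ℕ, 1 ≤ D₁ → 1 ≤ D₂ →
    ¬ IsSquare (D₁ * D₂) → ∀ L₁ L₂ : ℝ, IsL D₁ L₁ → IsL D₂ L₂ →
    c * ((D₁ : ℝ) * D₂) ^ (-ε) ≤ max L₁ L₂ := by
  obtain ⟨η₀, hη₀, hz⟩ := sg_zeta_neg
  obtain ⟨η, h0, h16, hη, hηε⟩ : ∃ η : ℝ, 0 < η ∧ η ≤ 1 / 16 ∧ η ≤ η₀ ∧ 16 * η ≤ ε :=
    ⟨min (1 / 16) (min η₀ (ε / 16)), by positivity, min_le_left _ _,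
      (min_le_right _ _).trans (min_le_left _ _), by
        have := (min_le_right (1 / 16) (min η₀ (ε / 16))).trans (min_le_right η₀ (ε / 16))
        linarith⟩
  obtain ⟨c, hc, hcore⟩ := sg_core η h0 h16 (hz η h0 hη)
  refine ⟨c * (16 : ℝ) ^ (-(16 * η)), by positivity, ?_⟩
  intro D₁ D₂ h₁ h₂ hsq L₁ L₂ hL₁ hL₂
  obtain ⟨χ₁, k₁, n₁⟩ := exists_char D₁ h₁
  obtain ⟨χ₂, k₂, n₂⟩ := exists_char D₂ h₂
  obtain ⟨χ₃, k₃, n₃⟩ := exists_char_mul D₁ D₂ h₁ h₂ hsq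
  have : NeZero (4 * D₁) := ⟨by omega⟩
  have : NeZero (4 * D₂) := ⟨by omega⟩
  have hD12 : 1 ≤ D₁ * D₂ := Nat.mul_pos h₁ h₂
  have : NeZero (4 * D₁ * (4 * D₂)) := ⟨by positivity⟩
  have hs₁ : χ₁ ^ 2 = 1 := sg_sq χ₁ _ k₁ (sg_chi_cases D₁)
  have hs₂ : χ₂ ^ 2 = 1 := sg_sq χ₂ _ k₂ (sg_chi_cases D₂)
  have hs₃ : χ₃ ^ 2 = 1 := by
    refine sg_sq χ₃ _ k₃ (fun k => ?_)
    rcases sg_chi_cases D₁ k with h | h | h <;> rcases sg_chi_cases D₂ k with h' | h' | h' <;>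
      rw [h, h'] <;> simp
  have hq₁ : 4 * D₁ ≤ 16 * (D₁ * D₂) := by nlinarith
  have hq₂ : 4 * D₂ ≤ 16 * (D₁ * D₂) := by nlinarith
  have hq₃ : 4 * D₁ * (4 * D₂) ≤ 16 * (D₁ * D₂) := by
    have : 4 * D₁ * (4 * D₂) = 16 * (D₁ * D₂) := by ring
    rw [this]
  have h := hcore (16 * (D₁ * D₂)) (4 * D₁) (4 * D₂) (4 * D₁ * (4 * D₂)) hq₁ hq₂ hq₃ χ₁ χ₂ χ₃
    n₁ n₂ n₃ hs₁ hs₂ hs₃ (fun k => by rw [k₁, k₂, k₃]; push_cast; ring)
  rw [sg_IsL D₁ χ₁ k₁ n₁ L₁ hL₁, sg_IsL D₂ χ₂ k₂ n₂ L₂ hL₂] at h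
  refine le_trans ?_ h
  have hD : (1 : ℝ) ≤ (D₁ : ℝ) * D₂ := by exact_mod_cast hD12
  have h5 : ((D₁ : ℝ) * D₂) ^ (-ε) ≤ ((D₁ : ℝ) * D₂) ^ (-(16 * η)) :=
    Real.rpow_le_rpow_of_exponent_le hD (by linarith)
  have h6 : ((16 * (D₁ * D₂) : ℕ) : ℝ) ^ (-(16 * η)) =
      (16 : ℝ) ^ (-(16 * η)) * ((D₁ : ℝ) * D₂) ^ (-(16 * η)) := by
    push_cast
    rw [Real.mul_rpow (by norm_num) (by linarith)]
  rw [h6, ← mul_assoc]
  exact mul_le_mul_of_nonneg_left h5 (by positivity)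

end Pool.Agent.LX
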