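import Pool.Agent.LX.CoreLem
import Pool.Agent.LX.ConnP
import Pool.Agent.LX.CountLower
import Pool.Agent.LX.LBound
import Pool.Agent.LX.Siegel
import Pool.Agent.LX.DivBound
import Pool.Agent.LX.PairUpper
import Pool.Agent.LX.ChooseS
import Pool.Agent.LX.CSStep

set_option autoImplicit false

open Matrix

namespace Pool.Agent.LX

/-- The bound for the pairs, for one direction. -/
theorem co_pairs (w₀ w : Fin 4 → ℤ) (hw : InW w₀ w) (P : ℕ) (hP : Odd P) (hP1 : 1 < P)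
    (hc : IsCoprime (Qs w₀) (P : ℤ)) (ε : ℝ) (hε : 0 < ε) (S₀ : ℤ) :
    ∃ K : ℝ, 0 < K ∧ ∀ (n s : ℤ) (k : ℕ), 0 < n → |s| ≤ S₀ → 0 < Qs w₀ * n - 2 * s ^ 2 →
    IsCoprime (Qs w₀ * n - 2 * s ^ 2) (P : ℤ) →
    ({p : (Fin 4 → ℤ) × (Fin 4 → ℤ) | p.1 ∈ Rset w n s ∧ p.2 ∈ Rset w n s ∧
      (P : ℤ) ^ k ∣ (n - B p.1 p.2) * (Qs w₀ * (n + B p.1 p.2) - 4 * s ^ 2)}.ncard : ℝ) ≤
      K * ((Rset w n s).ncard + (n : ℝ) ^ ε * (n / (P : ℝ) ^ k + Real.sqrt n)) := by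
  have h2P : IsCoprime (2 : ℤ) (P : ℤ) := by
    obtain ⟨t, ht⟩ := hP
    refine ⟨-t, 1, ?_⟩
    rw [ht]
    push_cast
    ring
  have hdvd : ∀ (k : ℕ) (y : ℤ), (P : ℤ) ^ k ∣ 2 * y ↔ (P : ℤ) ^ k ∣ y := by
    intro k y
    constructor
    · intro h
      exact IsCoprime.dvd_of_dvd_mul_left (h2P.symm.pow_left) h
    · intro h
      exact dvd_mul_of_dvd_right h _
  by_cases h : Even (w 3)
  · have hQ := co_Q_vs_even h
    rw [hw.2.1] at hQ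
    have hPu : IsCoprime (Q (vs w)) (P : ℤ) := by
      rw [← hQ] at hc
      exact hc.of_mul_left_right
    obtain ⟨K, hK, hb⟩ := pair_upper (vs w) (co_prim_vs hw.1) P hP hP1 hPu ε hε S₀
    refine ⟨K, hK, fun n s k hn hs hΔ hcop => ?_⟩
    have e : Qs w₀ * n - 2 * s ^ 2 = 2 * (Q (vs w) * n - s ^ 2) := by rw [← hQ]; ring
    rw [e] at hΔ hcop
    have h1 := hb n s k hn hs (by linarith) hcop.of_mul_left_right
    rw [co_Rset_even h]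
    have hset : {p : (Fin 4 → ℤ) × (Fin 4 → ℤ) | p.1 ∈ RU (vs w) n s ∧ p.2 ∈ RU (vs w) n s ∧
        (P : ℤ) ^ k ∣ (n - B p.1 p.2) * (Qs w₀ * (n + B p.1 p.2) - 4 * s ^ 2)} =
        {p : (Fin 4 → ℤ) × (Fin 4 → ℤ) | p.1 ∈ RU (vs w) n s ∧ p.2 ∈ RU (vs w) n s ∧
        (P : ℤ) ^ k ∣ (n - B p.1 p.2) * (Q (vs w) * (n + B p.1 p.2) - 2 * s ^ 2)} := by
      ext p
      simp only [Set.mem_ofPred_eq]
      have e2 : (n - B p.1 p.2) * (Qs w₀ * (n + B p.1 p.2) - 4 * s ^ 2) =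
          2 * ((n - B p.1 p.2) * (Q (vs w) * (n + B p.1 p.2) - 2 * s ^ 2)) := by
        rw [← hQ]; ring
      rw [e2, hdvd]
    rw [hset]
    exact h1
  · have hQ := co_Q_vs_odd h
    rw [hw.2.1] at hQ
    have hPu : IsCoprime (Q (vs w)) (P : ℤ) := by
      rw [hQ]
      exact h2P.mul_left hc
    obtain ⟨K, hK, hb⟩ := pair_upper (vs w) (co_prim_vs hw.1) P hP hP1 hPu ε hε (2 * S₀)
    refine ⟨K, hK, fun n s k hn hs hΔ hcop => ?_⟩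
    have e : Q (vs w) * n - (2 * s) ^ 2 = 2 * (Qs w₀ * n - 2 * s ^ 2) := by rw [hQ]; ring
    have h1 := hb n (2 * s) k hn (by rw [abs_mul]; simpa using hs) (by rw [e]; linarith)
      (by rw [e]; exact h2P.mul_left hcop)
    rw [co_Rset_odd h]
    have hset : {p : (Fin 4 → ℤ) × (Fin 4 → ℤ) | p.1 ∈ RU (vs w) n (2 * s) ∧
        p.2 ∈ RU (vs w) n (2 * s) ∧
        (P : ℤ) ^ k ∣ (n - B p.1 p.2) * (Qs w₀ * (n + B p.1 p.2) - 4 * s ^ 2)} =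
        {p : (Fin 4 → ℤ) × (Fin 4 → ℤ) | p.1 ∈ RU (vs w) n (2 * s) ∧ p.2 ∈ RU (vs w) n (2 * s) ∧
        (P : ℤ) ^ k ∣ (n - B p.1 p.2) * (Q (vs w) * (n + B p.1 p.2) - 2 * (2 * s) ^ 2)} := by
      ext p
      simp only [Set.mem_ofPred_eq]
      have e2 : (n - B p.1 p.2) * (Q (vs w) * (n + B p.1 p.2) - 2 * (2 * s) ^ 2) =
          2 * ((n - B p.1 p.2) * (Qs w₀ * (n + B p.1 p.2) - 4 * s ^ 2)) := by
        rw [hQ]; ring
      rw [e2, hdvd]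
    rw [hset]
    exact h1

/-- The bound for the pairs, uniform in the direction. -/
theorem co_pairs_unif (w₀ : Fin 4 → ℤ) (P : ℕ) (hP : Odd P) (hP1 : 1 < P)
    (hc : IsCoprime (Qs w₀) (P : ℤ)) (ε : ℝ) (hε : 0 < ε) (S₀ : ℤ) :
    ∃ K : ℝ, 0 < K ∧ ∀ w, InW w₀ w → ∀ (n s : ℤ) (k : ℕ), 0 < n → |s| ≤ S₀ →
    0 < Qs w₀ * n - 2 * s ^ 2 → IsCoprime (Qs w₀ * n - 2 * s ^ 2) (P : ℤ) →
    ({p : (Fin 4 → ℤ) × (Fin 4 → ℤ) | p.1 ∈ Rset w n s ∧ p.2 ∈ Rset w n s ∧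
      (P : ℤ) ^ k ∣ (n - B p.1 p.2) * (Qs w₀ * (n + B p.1 p.2) - 4 * s ^ 2)}.ncard : ℝ) ≤
      K * ((Rset w n s).ncard + (n : ℝ) ^ ε * (n / (P : ℝ) ^ k + Real.sqrt n)) := by
  classical
  have h1 : ∀ w, ∃ K : ℝ, 0 < K ∧ (InW w₀ w → ∀ (n s : ℤ) (k : ℕ), 0 < n → |s| ≤ S₀ →
    0 < Qs w₀ * n - 2 * s ^ 2 → IsCoprime (Qs w₀ * n - 2 * s ^ 2) (P : ℤ) →
    ({p : (Fin 4 → ℤ) × (Fin 4 → ℤ) | p.1 ∈ Rset w n s ∧ p.2 ∈ Rset w n s ∧
      (P : ℤ) ^ k ∣ (n - B p.1 p.2) * (Qs w₀ * (n + B p.1 p.2) - 4 * s ^ 2)}.ncard : ℝ) ≤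
      K * ((Rset w n s).ncard + (n : ℝ) ^ ε * (n / (P : ℝ) ^ k + Real.sqrt n))) := by
    intro w
    by_cases hw : InW w₀ w
    · obtain ⟨K, hK, h⟩ := co_pairs w₀ w hw P hP hP1 hc ε hε S₀
      exact ⟨K, hK, fun _ => h⟩
    · exact ⟨1, one_pos, fun h => absurd h hw⟩
  choose K hK hb using h1
  refine ⟨1 + ∑ w ∈ (co_finW w₀).toFinset, K w, ?_, ?_⟩
  · have := Finset.sum_nonneg (fun w (_ : w ∈ (co_finW w₀).toFinset) => (hK w).le)
    linarith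
  · intro w hw n s k hn hs hΔ hcop
    refine (hb w hw n s k hn hs hΔ hcop).trans (mul_le_mul_of_nonneg_right ?_ ?_)
    · have h2 : K w ≤ ∑ w ∈ (co_finW w₀).toFinset, K w :=
        Finset.single_le_sum (f := K) (fun w _ => (hK w).le)
          ((co_finW w₀).mem_toFinset.2 hw)
      linarith
    · have hn' : (0 : ℝ) ≤ n := by exact_mod_cast hn.le
      positivity


/-- LX-H3 Core.lean -/
theorem linnik_core (w₀ : Fin 4 → ℤ) (hw : Prim w₀) :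
    ∃ S₀ N₀ : ℕ, ∀ n : ℤ, (N₀ : ℤ) ≤ n → ∃ x : Fin 4 → ℤ, Q x = n ∧ |dot w₀ x| ≤ S₀ := by
  classical
  obtain ⟨P, ρ, hP1, hP, hsq, hc, h8, hC⟩ := exists_connP w₀ hw
  obtain ⟨S₁, hS₁, hS⟩ := choose_s w₀ hw P hP1 hP hsq hc h8
  have h₀ : InW w₀ w₀ := ⟨hw, rfl, Iff.rfl⟩
  have hM : 1 ≤ Qs w₀ := by
    obtain ⟨i, hi⟩ := hw 2 Nat.prime_two
    have h1 : w₀ i ≠ 0 := fun h0 => hi (by rw [h0]; exact dvd_zero _)
    have h2 : 1 ≤ w₀ i ^ 2 := by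
      have : 0 < w₀ i ^ 2 := by positivity
      omega
    unfold Qs
    fin_cases i
    · change 1 ≤ w₀ 0 ^ 2 at h2
      nlinarith [sq_nonneg (w₀ 0), sq_nonneg (w₀ 1), sq_nonneg (w₀ 2), sq_nonneg (w₀ 3)]
    · change 1 ≤ w₀ 1 ^ 2 at h2
      nlinarith [sq_nonneg (w₀ 0), sq_nonneg (w₀ 1), sq_nonneg (w₀ 2), sq_nonneg (w₀ 3)]
    · change 1 ≤ w₀ 2 ^ 2 at h2
      nlinarith [sq_nonneg (w₀ 0), sq_nonneg (w₀ 1), sq_nonneg (w₀ 2), sq_nonneg (w₀ 3)]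
    · change 1 ≤ w₀ 3 ^ 2 at h2
      nlinarith [sq_nonneg (w₀ 0), sq_nonneg (w₀ 1), sq_nonneg (w₀ 2), sq_nonneg (w₀ 3)]
  set M : ℤ := Qs w₀ with hMdef
  have hMr : (1 : ℝ) ≤ (M : ℝ) := by exact_mod_cast hM
  set h : ℕ := 2 * ρ + 1 with hh
  have hP' : (1 : ℝ) < P := by exact_mod_cast hP1
  set θ : ℝ := 1 - 1 / (P : ℝ) ^ h with hθ
  have hPh : 1 < (P : ℝ) ^ h := one_lt_pow₀ hP' (by omega)
  have hθ0 : 0 < θ := by
    rw [hθ, sub_pos, div_lt_one (by linarith)]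
    exact hPh
  have hθ1 : θ < 1 := by
    rw [hθ]
    have : 0 < 1 / (P : ℝ) ^ h := by positivity
    linarith
  have hη0 : 0 < Real.log θ⁻¹ / (2 * h * Real.log P) := by
    apply div_pos (Real.log_pos ((one_lt_inv₀ hθ0).2 hθ1))
    have : 0 < Real.log P := Real.log_pos hP'
    have h1 : (0 : ℝ) < h := by exact_mod_cast (by omega : 0 < h)
    positivity
  obtain ⟨ε, hε, hε8, hε4⟩ : ∃ ε : ℝ, 0 < ε ∧
      8 * ε ≤ Real.log θ⁻¹ / (2 * h * Real.log P) ∧ ε ≤ 1 / 8 := by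
    refine ⟨min (Real.log θ⁻¹ / (2 * h * Real.log P) / 8) (1 / 8), ?_, ?_, min_le_right _ _⟩
    · exact lt_min (by positivity) (by norm_num)
    · have := min_le_left (Real.log θ⁻¹ / (2 * h * Real.log P) / 8) (1 / 8)
      linarith
  obtain ⟨K₁, hK₁, hlow⟩ := count_lower w₀ hw
  obtain ⟨c, hc0, hsieg⟩ := siegel ε hε
  obtain ⟨C, hC0, hdiv⟩ := divisor_bound ε hε
  obtain ⟨K₂, hK₂, hpairs⟩ := co_pairs_unif w₀ P hP hP1 hc ε hε ((2 * S₁ : ℕ) : ℤ)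
  -- constants
  set c₁ : ℝ := c * (M : ℝ) ^ (-(2 * ε)) with hc₁
  have hc₁0 : 0 < c₁ := mul_pos hc0 (Real.rpow_pos_of_pos (by linarith) _)
  set c₂ : ℝ := c₁ / (Real.sqrt 2 * (K₁ * (C * (M : ℝ) ^ ε))) with hc₂
  have hMe : 0 < (M : ℝ) ^ ε := Real.rpow_pos_of_pos (by linarith) _
  have hc₂0 : 0 < c₂ := by positivity
  -- the size of n
  have hev : ∀ᶠ x : ℝ in Filter.atTop, 1 ≤ x ∧ (P : ℝ) ^ 2 ≤ x ∧ 2 * K₁ ≤ x ∧
      16 * (S₁ : ℝ) ^ 2 ≤ x ∧ 2 * (6 * (S₁ : ℝ) ^ 2) ^ 2 < x ∧ 2 / c₁ ≤ x ^ (1 - 2 * ε) ∧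
      2 * ((P : ℝ) ^ 7 * (K₂ * ((P : ℝ) ^ h + 1))) < x ^ ε ∧
      2 * ((P : ℝ) ^ 7 * (K₂ * ((P : ℝ) ^ h + 1))) * (θ ^ 2)⁻¹ / c₂ ^ 2 < x ^ ε := by
    refine (Filter.eventually_ge_atTop 1).and ((Filter.eventually_ge_atTop _).and
      ((Filter.eventually_ge_atTop _).and ((Filter.eventually_ge_atTop _).and
      ((Filter.eventually_gt_atTop _).and ?_))))
    exact ((tendsto_rpow_atTop (by linarith : 0 < 1 - 2 * ε)).eventually_ge_atTop _).and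
      (((tendsto_rpow_atTop hε).eventually_gt_atTop _).and
        ((tendsto_rpow_atTop hε).eventually_gt_atTop _))
  obtain ⟨X, hX⟩ := Filter.eventually_atTop.1 hev
  refine ⟨2 * S₁, ⌈X⌉₊, fun n hn => ?_⟩
  have hnX : X ≤ (n : ℝ) := by
    have h1 : X ≤ ((⌈X⌉₊ : ℕ) : ℝ) := Nat.le_ceil X
    have h2 : (((⌈X⌉₊ : ℕ) : ℤ) : ℝ) ≤ (n : ℝ) := by exact_mod_cast hn
    push_cast at h2
    linarith
  obtain ⟨hx1, hxP, hxK, hxS, hxS2, hxc, hxA, hxB⟩ := hX n hnX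
  have hn0 : 0 < n := by
    have : (0 : ℝ) < n := by linarith
    exact_mod_cast this
  have hnr : (0 : ℝ) < n := by exact_mod_cast hn0
  by_contra hno
  push Not at hno
  obtain ⟨s, hs, hj⟩ := hS n
  -- the discriminants
  set Δ : ℕ → ℤ := fun j => M * n - 2 * ((s + j * S₁ : ℕ) : ℤ) ^ 2 with hΔ
  have hsj : ∀ j ≤ 1, s + j * S₁ < 2 * S₁ := by
    intro j hj1
    have : j * S₁ ≤ 1 * S₁ := Nat.mul_le_mul_right _ hj1
    omega
  have hΔlow : ∀ j ≤ 1, (n : ℝ) / 2 ≤ (Δ j : ℝ) := by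
    intro j hj1
    have h1 : ((s + j * S₁ : ℕ) : ℝ) ≤ 2 * S₁ := by exact_mod_cast (hsj j hj1).le
    have h2 : ((s + j * S₁ : ℕ) : ℝ) ^ 2 ≤ (2 * S₁) ^ 2 :=
      pow_le_pow_left₀ (Nat.cast_nonneg _) h1 2
    have h3 : (Δ j : ℝ) = (M : ℝ) * n - 2 * ((s + j * S₁ : ℕ) : ℝ) ^ 2 := by
      simp only [hΔ]
      push_cast
      ring
    rw [h3]
    nlinarith
  have hΔup : ∀ j, (Δ j : ℝ) ≤ (M : ℝ) * n := by
    intro j
    have h3 : (Δ j : ℝ) = (M : ℝ) * n - 2 * ((s + j * S₁ : ℕ) : ℝ) ^ 2 := by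
      simp only [hΔ]
      push_cast
      ring
    rw [h3]
    have : (0 : ℝ) ≤ 2 * ((s + j * S₁ : ℕ) : ℝ) ^ 2 := by positivity
    linarith
  have hΔpos : ∀ j ≤ 1, 0 < Δ j := by
    intro j hj1
    have := hΔlow j hj1
    have h2 : (0 : ℝ) < Δ j := by linarith
    exact_mod_cast h2
  have hΔnat : ∀ j ≤ 1, (((Δ j).toNat : ℕ) : ℝ) = (Δ j : ℝ) := by
    intro j hj1
    have : (((Δ j).toNat : ℕ) : ℤ) = Δ j := Int.toNat_of_nonneg (hΔpos j hj1).le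
    exact_mod_cast this
  have hΔone : ∀ j ≤ 1, 1 ≤ (Δ j).toNat := by
    intro j hj1
    have := hΔpos j hj1
    omega
  -- not a square
  have hns : ¬ IsSquare ((Δ 0).toNat * (Δ 1).toNat) := by
    have e : Δ 0 = Δ 1 + 2 * (S₁ : ℤ) * (2 * s + S₁) := by
      simp only [hΔ]
      push_cast
      ring
    apply co_not_sq _ _ (2 * S₁ * (2 * s + S₁)) (by positivity)
    · have h1 := hΔpos 0 (by norm_num)
      have h2 := hΔpos 1 le_rfl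
      zify
      rw [Int.toNat_of_nonneg h1.le, Int.toNat_of_nonneg h2.le, e]
    · have h1 : 2 * S₁ * (2 * s + S₁) ≤ 6 * S₁ ^ 2 := by nlinarith
      have h2 : (2 * S₁ * (2 * s + S₁)) ^ 2 ≤ (6 * S₁ ^ 2) ^ 2 := Nat.pow_le_pow_left h1 2
      have h3 : (((6 * S₁ ^ 2) ^ 2 : ℕ) : ℝ) < (((Δ 1).toNat : ℕ) : ℝ) := by
        rw [hΔnat 1 le_rfl]
        push_cast
        have := hΔlow 1 le_rfl
        linarith
      exact lt_of_le_of_lt h2 (by exact_mod_cast h3)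
  obtain ⟨L₀, hL₀⟩ := exists_L (Δ 0).toNat (hΔone 0 (by norm_num))
  obtain ⟨L₁, hL₁⟩ := exists_L (Δ 1).toNat (hΔone 1 le_rfl)
  have hmax := hsieg _ _ (hΔone 0 (by norm_num)) (hΔone 1 le_rfl) hns L₀ L₁ hL₀ hL₁
  have hc1x : c₁ * (n : ℝ) ^ (-(2 * ε)) ≤ max L₀ L₁ := by
    refine le_trans ?_ hmax
    rw [hΔnat 0 (by norm_num), hΔnat 1 le_rfl, hc₁, mul_assoc]
    apply mul_le_mul_of_nonneg_left _ hc0.le
    rw [← Real.mul_rpow (by linarith) hnr.le]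
    have h1 : (Δ 0 : ℝ) * Δ 1 ≤ ((M : ℝ) * n) ^ (2 : ℝ) := by
      rw [Real.rpow_two, sq]
      have h2 : (0 : ℝ) ≤ Δ 1 := by exact_mod_cast (hΔpos 1 le_rfl).le
      exact mul_le_mul (hΔup 0) (hΔup 1) h2 (by positivity)
    have h2 : (0 : ℝ) < Δ 0 := by exact_mod_cast hΔpos 0 (by norm_num)
    have h3 : (0 : ℝ) < Δ 1 := by exact_mod_cast hΔpos 1 le_rfl
    have h4 : ((M : ℝ) * n) ^ (-(2 * ε)) = (((M : ℝ) * n) ^ (2 : ℝ)) ^ (-ε) := by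
      rw [← Real.rpow_mul (by positivity)]
      congr 1
      ring
    rw [h4]
    exact Real.rpow_le_rpow_of_nonpos (mul_pos h2 h3) h1 (by linarith)
  -- the good index
  obtain ⟨j, hj1, L, hL, hLc⟩ : ∃ j ≤ 1, ∃ L : ℝ, IsL (Δ j).toNat L ∧
      c₁ * (n : ℝ) ^ (-(2 * ε)) ≤ L := by
    rcases le_max_iff.1 hc1x with h1 | h1
    · exact ⟨0, by norm_num, L₀, hL₀, h1⟩
    · exact ⟨1, le_rfl, L₁, hL₁, h1⟩
  obtain ⟨hgood, hcop, hr⟩ := hj j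
  set σ : ℤ := ((s + j * S₁ : ℕ) : ℤ) with hσ
  have hΔj : Δ j = Qs w₀ * n - 2 * σ ^ 2 := rfl
  have hΔj0 : (0 : ℝ) < Δ j := by exact_mod_cast hΔpos j hj1
  have hL1 : 1 / (Δ j : ℝ) ≤ L := by
    refine le_trans ?_ hLc
    have h1 : 1 / (Δ j : ℝ) ≤ 2 / n := by
      rw [div_le_div_iff₀ hΔj0 hnr]
      have := hΔlow j hj1
      linarith
    refine h1.trans ?_
    rw [div_le_iff₀ hnr]
    have h2 : (n : ℝ) ^ (-(2 * ε)) * n = (n : ℝ) ^ (1 - 2 * ε) := by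
      nth_rewrite 2 [← Real.rpow_one (n : ℝ)]
      rw [← Real.rpow_add hnr]
      congr 1
      ring
    rw [mul_assoc, h2]
    rw [div_le_iff₀ hc₁0] at hxc
    linarith
  obtain ⟨w, hwW, hwl⟩ := hlow n σ L hgood hn0 (by rw [← hΔj]; have := hΔlow j hj1; linarith)
    (by rw [← hΔj]; exact hL) (by rw [← hΔj]; exact hL1)
  rw [← hΔj] at hwl
  -- lower bound for the number of vectors
  have hRlow : c₂ * (n : ℝ) ^ (1 / 2 - 3 * ε) ≤ (Rset w n σ).ncard := by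
    have h1 : ((2 ^ om (Δ j).toNat : ℕ) : ℝ) ≤ C * ((M : ℝ) ^ ε * (n : ℝ) ^ ε) := by
      have h2 : 2 ^ om (Δ j).toNat ≤ (Δ j).toNat.divisors.card := by
        rw [om]
        have h3 : (Δ j).toNat ≠ 0 := by have := hΔone j hj1; omega
        calc 2 ^ (Δ j).toNat.primeFactors.card = (Δ j).toNat.primeFactors.powerset.card :=
              (Finset.card_powerset _).symm
          _ ≤ (Δ j).toNat.divisors.card := by
              apply Finset.card_le_card_of_injOn (fun t => ∏ p ∈ t, p)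
              · intro t ht
                have ht' : t ⊆ (Δ j).toNat.primeFactors := by simpa using ht
                simp only [Finset.mem_coe, Nat.mem_divisors]
                refine ⟨?_, h3⟩
                exact (Finset.prod_dvd_prod_of_subset _ _ _ ht').trans
                  (Nat.prod_primeFactors_dvd _)
              · intro t ht t' ht' htt
                have ht1 : t ⊆ (Δ j).toNat.primeFactors := by simpa using ht
                have ht2 : t' ⊆ (Δ j).toNat.primeFactors := by simpa using ht'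
                have h5 : ∀ u : Finset ℕ, u ⊆ (Δ j).toNat.primeFactors →
                    (∏ p ∈ u, p).primeFactors = u := fun u hu =>
                  Nat.primeFactors_prod fun p hp => Nat.prime_of_mem_primeFactors (hu hp)
                rw [← h5 t ht1, ← h5 t' ht2]
                exact congrArg _ htt
      have h4 : (((Δ j).toNat.divisors.card : ℕ) : ℝ) ≤ C * (((Δ j).toNat : ℕ) : ℝ) ^ ε :=
        hdiv _ (hΔone j hj1)
      have h5 : (((Δ j).toNat : ℕ) : ℝ) ^ ε ≤ (M : ℝ) ^ ε * (n : ℝ) ^ ε := by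
        rw [hΔnat j hj1, ← Real.mul_rpow (by linarith) hnr.le]
        exact Real.rpow_le_rpow hΔj0.le (hΔup j) hε.le
      calc ((2 ^ om (Δ j).toNat : ℕ) : ℝ) ≤ (((Δ j).toNat.divisors.card : ℕ) : ℝ) := by
            exact_mod_cast h2
        _ ≤ C * (((Δ j).toNat : ℕ) : ℝ) ^ ε := h4
        _ ≤ _ := mul_le_mul_of_nonneg_left h5 hC0.le
    push_cast at h1
    have h2 : Real.sqrt n / Real.sqrt 2 ≤ Real.sqrt (Δ j) := by
      rw [← Real.sqrt_div hnr.le]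
      exact Real.sqrt_le_sqrt (hΔlow j hj1)
    have hs2 : 0 < Real.sqrt 2 := Real.sqrt_pos.2 (by norm_num)
    have hLpos : 0 ≤ c₁ * (n : ℝ) ^ (-(2 * ε)) := by positivity
    have h3 : Real.sqrt n / Real.sqrt 2 * (c₁ * (n : ℝ) ^ (-(2 * ε))) ≤
        K₁ * (C * ((M : ℝ) ^ ε * (n : ℝ) ^ ε)) * (Rset w n σ).ncard := by
      calc Real.sqrt n / Real.sqrt 2 * (c₁ * (n : ℝ) ^ (-(2 * ε)))
          ≤ Real.sqrt (Δ j) * L := mul_le_mul h2 hLc hLpos (Real.sqrt_nonneg _)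
        _ ≤ K₁ * 2 ^ om (Δ j).toNat * (Rset w n σ).ncard := hwl
        _ ≤ _ := by
          apply mul_le_mul_of_nonneg_right _ (Nat.cast_nonneg _)
          exact mul_le_mul_of_nonneg_left h1 hK₁.le
    have hne : 0 < (n : ℝ) ^ ε := Real.rpow_pos_of_pos hnr _
    have h4 : (n : ℝ) ^ (1 / 2 - 3 * ε) * (n : ℝ) ^ ε = Real.sqrt n * (n : ℝ) ^ (-(2 * ε)) := by
      rw [Real.sqrt_eq_rpow, ← Real.rpow_add hnr, ← Real.rpow_add hnr]
      congr 1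
      ring
    have hden : 0 < Real.sqrt 2 * (K₁ * (C * (M : ℝ) ^ ε)) := by positivity
    rw [hc₂, div_mul_eq_mul_div, div_le_iff₀ hden]
    apply le_of_mul_le_mul_right _ hne
    calc c₁ * (n : ℝ) ^ (1 / 2 - 3 * ε) * (n : ℝ) ^ ε
        = c₁ * (Real.sqrt n * (n : ℝ) ^ (-(2 * ε))) := by rw [mul_assoc, h4]
      _ = Real.sqrt 2 * (Real.sqrt n / Real.sqrt 2 * (c₁ * (n : ℝ) ^ (-(2 * ε)))) := by
        field_simp
      _ ≤ Real.sqrt 2 * (K₁ * (C * ((M : ℝ) ^ ε * (n : ℝ) ^ ε)) * (Rset w n σ).ncard) :=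
        mul_le_mul_of_nonneg_left h3 hs2.le
      _ = _ := by ring
  -- the choice of b
  obtain ⟨b, hb1, hb2⟩ : ∃ b : ℕ, (P : ℝ) ^ (1 + b * h) ≤ Real.sqrt n ∧
      Real.sqrt n < (P : ℝ) ^ (1 + b * h + h) := by
    have h1 : 1 ≤ Real.sqrt n / P := by
      rw [le_div_iff₀ (by linarith), one_mul]
      exact Real.le_sqrt_of_sq_le hxP
    obtain ⟨b, hb, hb'⟩ := exists_nat_pow_near h1 hPh
    have hP0 : (0 : ℝ) < P := by linarith
    refine ⟨b, ?_, ?_⟩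
    · rw [le_div_iff₀ hP0] at hb
      calc (P : ℝ) ^ (1 + b * h) = ((P : ℝ) ^ h) ^ b * P := by
            rw [← pow_mul, pow_add, pow_one, mul_comm h b, mul_comm]
        _ ≤ _ := hb
    · rw [div_lt_iff₀ hP0] at hb'
      calc Real.sqrt n < ((P : ℝ) ^ h) ^ (b + 1) * P := hb'
        _ = _ := by
          rw [← pow_mul, add_assoc, pow_add, pow_one, mul_comm]
          congr 2
          ring
  have hnox : ¬ ∃ x : Fin 4 → ℤ, Q x = n ∧ dot w₀ x = σ := by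
    rintro ⟨x, hx, hd⟩
    have h1 := hno x hx
    rw [hd, hσ] at h1
    have h2 := (hsj j hj1).le
    have h3 : |((s + j * S₁ : ℕ) : ℤ)| = ((s + j * S₁ : ℕ) : ℤ) := abs_of_nonneg (by positivity)
    rw [h3] at h1
    have h4 : 2 * S₁ < s + j * S₁ := by exact_mod_cast h1
    omega
  have hcs := cs_step w₀ P ρ hP hP1 hsq hc hC w h₀ hwW n σ hn0 hcop hr hnox b
  have hN := hpairs w hwW n σ (1 + b * h) hn0 (by
    rw [hσ, abs_of_nonneg (by positivity)]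
    exact_mod_cast (hsj j hj1).le) (hΔpos j hj1) hcop
  exact co_final P h b hP1 n θ ε c₂ K₂ _ _ hx1 hθ0 hθ1 hε hε8 (by omega) hc₂0 hK₂
    (Nat.cast_nonneg _) hb1 hb2 hRlow hN hcs hxA hxB

end Pool.Agent.LX
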