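import Pool.Agent.LX.Defs

/-!
Project LX (MP_063baf_nt), lemmas for the assembly of Linnik's argument.
-/

set_option autoImplicit false

open Matrix

namespace Pool.Agent.LX

theorem co_B_vs_even {w : Fin 4 → ℤ} (h : Even (w 3)) (x : Fin 4 → ℤ) :
    B (vs w) x = dot w x := by
  obtain ⟨t, ht⟩ := h
  have h2 : w 3 / 2 = t := by omega
  have h3 : Even (w 3) := ⟨t, ht⟩
  have hv : vs w = ![w 0, w 1, w 2, t] := by
    unfold vs
    rw [if_pos h3, h2]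
  rw [hv]
  simp [B, dot, ht]
  ring

theorem co_B_vs_odd {w : Fin 4 → ℤ} (h : ¬ Even (w 3)) (x : Fin 4 → ℤ) :
    B (vs w) x = 2 * dot w x := by
  simp only [B, vs, if_neg h, dot, hat]
  simp
  ring

theorem co_Q_vs_even {w : Fin 4 → ℤ} (h : Even (w 3)) : 2 * Q (vs w) = Qs w := by
  obtain ⟨t, ht⟩ := h
  have h2 : w 3 / 2 = t := by omega
  have h3 : Even (w 3) := ⟨t, ht⟩
  have hv : vs w = ![w 0, w 1, w 2, t] := by
    unfold vs
    rw [if_pos h3, h2]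
  rw [hv]
  simp [Q, B, Qs, ht]
  ring

theorem co_Q_vs_odd {w : Fin 4 → ℤ} (h : ¬ Even (w 3)) : Q (vs w) = 2 * Qs w := by
  simp only [Q, B, vs, if_neg h, Qs, hat]
  simp
  ring

theorem co_prim_vs {w : Fin 4 → ℤ} (hw : Prim w) : Prim (vs w) := by
  intro p hp
  by_contra hcon
  push Not at hcon
  obtain ⟨i, hi⟩ := hw p hp
  apply hi
  have hp' : Prime (p : ℤ) := Nat.prime_iff_prime_int.1 hp
  have h0 := hcon 0
  have h1 := hcon 1
  have h2 := hcon 2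
  have h3 := hcon 3
  by_cases h : Even (w 3)
  · obtain ⟨t, ht⟩ := id h
    have h4 : w 3 / 2 = t := by omega
    simp only [vs, if_pos h, h4] at h0 h1 h2 h3
    simp at h0 h1 h2 h3
    fin_cases i
    · exact h0
    · exact h1
    · exact h2
    · change (p : ℤ) ∣ w 3
      rw [ht]
      exact dvd_add h3 h3
  · simp only [vs, if_neg h, hat] at h0 h1 h2 h3
    simp at h0 h1 h2 h3
    have hp2 : ¬ (p : ℤ) ∣ 2 := by
      intro hd
      have h5 : p ∣ 2 := by exact_mod_cast hd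
      have h6 : p = 2 := (Nat.prime_dvd_prime_iff_eq hp Nat.prime_two).1 h5
      apply h
      rw [even_iff_two_dvd]
      rw [h6] at h3
      exact_mod_cast h3
    fin_cases i
    · exact (hp'.dvd_or_dvd h0).resolve_left hp2
    · exact (hp'.dvd_or_dvd h1).resolve_left hp2
    · exact (hp'.dvd_or_dvd h2).resolve_left hp2
    · exact h3

theorem co_Rset_even {w : Fin 4 → ℤ} (h : Even (w 3)) (n s : ℤ) :
    Rset w n s = RU (vs w) n s := by
  ext x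
  simp only [Rset, RU, Set.mem_ofPred_eq, co_B_vs_even h]

theorem co_Rset_odd {w : Fin 4 → ℤ} (h : ¬ Even (w 3)) (n s : ℤ) :
    Rset w n s = RU (vs w) n (2 * s) := by
  ext x
  simp only [Rset, RU, Set.mem_ofPred_eq, co_B_vs_odd h]
  constructor
  · rintro ⟨h1, h2, h3⟩
    exact ⟨h1, by rw [h2], h3⟩
  · rintro ⟨h1, h2, h3⟩
    exact ⟨h1, by linarith, h3⟩

theorem co_finW (w₀ : Fin 4 → ℤ) : {w | InW w₀ w}.Finite := by
  apply Set.Finite.subset (Set.Finite.pi' fun _ : Fin 4 => Set.finite_Icc (-Qs w₀) (Qs w₀))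
  intro w hw i
  have h1 := hw.2.1
  have h2 : w i ^ 2 ≤ Qs w₀ := by
    rw [← h1]
    unfold Qs
    fin_cases i
    · change w 0 ^ 2 ≤ _
      nlinarith [sq_nonneg (w 0), sq_nonneg (w 1), sq_nonneg (w 2), sq_nonneg (w 3)]
    · change w 1 ^ 2 ≤ _
      nlinarith [sq_nonneg (w 0), sq_nonneg (w 1), sq_nonneg (w 2), sq_nonneg (w 3)]
    · change w 2 ^ 2 ≤ _
      nlinarith [sq_nonneg (w 0), sq_nonneg (w 1), sq_nonneg (w 2), sq_nonneg (w 3)]
    · change w 3 ^ 2 ≤ _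
      nlinarith [sq_nonneg (w 0), sq_nonneg (w 1), sq_nonneg (w 2), sq_nonneg (w 3)]
  have h3 : |w i| ≤ w i ^ 2 := by
    rw [← sq_abs]
    rcases (abs_nonneg (w i)).eq_or_lt with h | h
    · rw [← h]; norm_num
    · nlinarith
  exact abs_le.1 (h3.trans h2)

/-- The product of two different large numbers with a bounded difference is not a square. -/
theorem co_not_sq (a b d : ℕ) (hd : 0 < d) (hab : a = b + d) (hb : d ^ 2 < b) :
    ¬ IsSquare (a * b) := by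
  rintro ⟨y, hy⟩
  subst hab
  have h1 : (2 * b + d) ^ 2 = 4 * (y * y) + d ^ 2 := by rw [← hy]; ring
  have h2 : 2 * y < 2 * b + d := by nlinarith
  have h3 : (2 * y + 1) ^ 2 ≤ (2 * b + d) ^ 2 := Nat.pow_le_pow_left (by omega) 2
  have h4 : b ≤ y := by nlinarith
  nlinarith

theorem co_theta (P h b : ℕ) (x θ : ℝ) (hP : 1 < P) (hh : 1 ≤ h) (hx : 1 ≤ x)
    (hθ0 : 0 < θ) (hθ1 : θ < 1) (hb : Real.sqrt x < (P : ℝ) ^ (1 + b * h + h)) :
    θ ^ b ≤ (θ ^ 2)⁻¹ * x ^ (-(Real.log θ⁻¹ / (2 * h * Real.log P))) := by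
  have hP' : (1 : ℝ) < P := by exact_mod_cast hP
  have hlP : 0 < Real.log P := Real.log_pos hP'
  have hh' : (1 : ℝ) ≤ h := by exact_mod_cast hh
  have hx0 : 0 < x := by linarith
  have hlθ : Real.log θ < 0 := Real.log_neg hθ0 hθ1
  have h1 : Real.log x / 2 < (1 + b * h + h : ℕ) * Real.log P := by
    rw [← Real.log_sqrt hx0.le, ← Real.log_pow]
    exact Real.log_lt_log (Real.sqrt_pos.2 hx0) hb
  have h2 : ((1 + b * h + h : ℕ) : ℝ) ≤ (b + 2) * h := by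
    push_cast
    nlinarith
  have hd : 0 < 2 * (h : ℝ) * Real.log P := by positivity
  have h3 : Real.log x / (2 * h * Real.log P) ≤ b + 2 := by
    rw [div_le_iff₀ hd]
    nlinarith
  have h4 : θ ^ b * θ ^ 2 ≤ x ^ (-(Real.log θ⁻¹ / (2 * h * Real.log P))) := by
    rw [← pow_add, Real.rpow_def_of_pos hx0, Real.log_inv]
    have e : θ ^ (b + 2) = Real.exp (((b : ℝ) + 2) * Real.log θ) := by
      rw [← Real.exp_log hθ0, ← Real.exp_nat_mul, Real.exp_log hθ0]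
      push_cast
      rfl
    rw [e]
    apply Real.exp_le_exp.2
    have e2 : Real.log x * -(-Real.log θ / (2 * h * Real.log P)) =
        (Real.log x / (2 * h * Real.log P)) * Real.log θ := by
      field_simp
    rw [e2]
    exact mul_le_mul_of_nonpos_right h3 hlθ.le
  have h5 : 0 < θ ^ 2 := by positivity
  rw [← div_eq_inv_mul, le_div_iff₀ h5]
  exact h4

/-- The final contradiction. -/
theorem co_final (P h b : ℕ) (hP : 1 < P) (x θ ε c₂ K₂ R N : ℝ)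
    (hx : 1 ≤ x) (hθ0 : 0 < θ) (hθ1 : θ < 1) (hε : 0 < ε)
    (hη : 8 * ε ≤ Real.log θ⁻¹ / (2 * h * Real.log P)) (hh : 1 ≤ h)
    (hc₂ : 0 < c₂) (hK₂ : 0 < K₂) (hR : 0 ≤ R)
    (hb1 : (P : ℝ) ^ (1 + b * h) ≤ Real.sqrt x) (hb2 : Real.sqrt x < (P : ℝ) ^ (1 + b * h + h))
    (hlow : c₂ * x ^ (1 / 2 - 3 * ε) ≤ R)
    (hN : N ≤ K₂ * (R + x ^ ε * (x / (P : ℝ) ^ (1 + b * h) + Real.sqrt x)))
    (hcs : R ^ 2 ≤ (P : ℝ) ^ (1 + b * h + 7) * θ ^ b * N)
    (h1 : 2 * ((P : ℝ) ^ 7 * (K₂ * ((P : ℝ) ^ h + 1))) < x ^ ε)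
    (h2 : 2 * ((P : ℝ) ^ 7 * (K₂ * ((P : ℝ) ^ h + 1))) * (θ ^ 2)⁻¹ / c₂ ^ 2 < x ^ ε) : False := by
  have hx0 : 0 < x := by linarith
  have hP0 : (0 : ℝ) < P := by exact_mod_cast (by omega : 0 < P)
  set C₃ : ℝ := (P : ℝ) ^ 7 * (K₂ * ((P : ℝ) ^ h + 1)) with hC₃
  have hC₃0 : 0 < C₃ := by positivity
  have hsx : 0 < Real.sqrt x := Real.sqrt_pos.2 hx0
  have hxe : 0 < x ^ ε := Real.rpow_pos_of_pos hx0 ε
  have hPk : 0 < (P : ℝ) ^ (1 + b * h) := by positivity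
  have hθb : 0 < θ ^ b := by positivity
  have hθb1 : θ ^ b ≤ 1 := pow_le_one₀ hθ0.le hθ1.le
  -- the sum
  have e1 : x / (P : ℝ) ^ (1 + b * h) ≤ (P : ℝ) ^ h * Real.sqrt x := by
    rw [div_le_iff₀ hPk]
    have e3 : x = Real.sqrt x * Real.sqrt x := (Real.mul_self_sqrt hx0.le).symm
    have e4 : (P : ℝ) ^ (1 + b * h + h) = (P : ℝ) ^ (1 + b * h) * (P : ℝ) ^ h := pow_add _ _ _
    calc x = Real.sqrt x * Real.sqrt x := e3
      _ ≤ Real.sqrt x * (P : ℝ) ^ (1 + b * h + h) := mul_le_mul_of_nonneg_left hb2.le hsx.le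
      _ = (P : ℝ) ^ h * Real.sqrt x * (P : ℝ) ^ (1 + b * h) := by rw [e4]; ring
  have hPh : 0 < (P : ℝ) ^ h := by positivity
  have e2 : N ≤ K₂ * ((P : ℝ) ^ h + 1) * (R + x ^ ε * Real.sqrt x) := by
    refine hN.trans ?_
    rw [mul_assoc]
    apply mul_le_mul_of_nonneg_left _ hK₂.le
    have e5 : x ^ ε * (x / (P : ℝ) ^ (1 + b * h) + Real.sqrt x) ≤
        x ^ ε * ((P : ℝ) ^ h * Real.sqrt x + Real.sqrt x) :=
      mul_le_mul_of_nonneg_left (by linarith) hxe.le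
    nlinarith
  have hRx : 0 ≤ R + x ^ ε * Real.sqrt x := by positivity
  have e3 : R ^ 2 ≤ C₃ * Real.sqrt x * θ ^ b * (R + x ^ ε * Real.sqrt x) := by
    calc R ^ 2 ≤ (P : ℝ) ^ (1 + b * h + 7) * θ ^ b * N := hcs
      _ ≤ (P : ℝ) ^ (1 + b * h + 7) * θ ^ b *
          (K₂ * ((P : ℝ) ^ h + 1) * (R + x ^ ε * Real.sqrt x)) :=
        mul_le_mul_of_nonneg_left e2 (by positivity)
      _ = (P : ℝ) ^ (1 + b * h) * (C₃ * θ ^ b * (R + x ^ ε * Real.sqrt x)) := by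
        rw [pow_add _ (1 + b * h) 7, hC₃]
        ring
      _ ≤ Real.sqrt x * (C₃ * θ ^ b * (R + x ^ ε * Real.sqrt x)) :=
        mul_le_mul_of_nonneg_right hb1 (by positivity)
      _ = _ := by ring
  rcases lt_or_ge (x ^ ε * Real.sqrt x) R with hA | hB
  · -- R is too large
    have hR0 : 0 < R := lt_trans (by positivity) hA
    have e4 : R ^ 2 ≤ 2 * C₃ * Real.sqrt x * R := by
      refine e3.trans ?_
      calc C₃ * Real.sqrt x * θ ^ b * (R + x ^ ε * Real.sqrt x)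
          ≤ C₃ * Real.sqrt x * 1 * (2 * R) := by
            apply mul_le_mul _ (by linarith) hRx (by positivity)
            exact mul_le_mul_of_nonneg_left hθb1 (by positivity)
        _ = _ := by ring
    have e5 : R ≤ 2 * C₃ * Real.sqrt x := by
      have e6 : R * R ≤ 2 * C₃ * Real.sqrt x * R := by rw [← sq]; exact e4
      exact le_of_mul_le_mul_right e6 hR0
    have e6 : x ^ ε * Real.sqrt x < 2 * C₃ * Real.sqrt x := lt_of_lt_of_le hA e5
    have e7 : x ^ ε < 2 * C₃ := lt_of_mul_lt_mul_right e6 hsx.le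
    linarith
  · have e4 : R ^ 2 ≤ 2 * C₃ * (θ ^ 2)⁻¹ * (x * x ^ ε * x ^ (-(8 * ε))) := by
      have e5 : θ ^ b ≤ (θ ^ 2)⁻¹ * x ^ (-(8 * ε)) := by
        refine (co_theta P h b x θ hP hh hx hθ0 hθ1 hb2).trans ?_
        apply mul_le_mul_of_nonneg_left _ (by positivity)
        exact Real.rpow_le_rpow_of_exponent_le hx (by linarith)
      calc R ^ 2 ≤ C₃ * Real.sqrt x * θ ^ b * (R + x ^ ε * Real.sqrt x) := e3
        _ ≤ C₃ * Real.sqrt x * θ ^ b * (2 * (x ^ ε * Real.sqrt x)) :=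
          mul_le_mul_of_nonneg_left (by linarith) (by positivity)
        _ = 2 * C₃ * ((Real.sqrt x * Real.sqrt x) * x ^ ε) * θ ^ b := by ring
        _ = 2 * C₃ * (x * x ^ ε) * θ ^ b := by rw [Real.mul_self_sqrt hx0.le]
        _ ≤ 2 * C₃ * (x * x ^ ε) * ((θ ^ 2)⁻¹ * x ^ (-(8 * ε))) :=
          mul_le_mul_of_nonneg_left e5 (by positivity)
        _ = _ := by ring
    have e5 : c₂ ^ 2 * x ^ (1 - 6 * ε) ≤ R ^ 2 := by
      have e6 : (c₂ * x ^ (1 / 2 - 3 * ε)) ^ 2 ≤ R ^ 2 :=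
        pow_le_pow_left₀ (by positivity) hlow 2
      have e7 : (x ^ (1 / 2 - 3 * ε)) ^ 2 = x ^ (1 - 6 * ε) := by
        rw [← Real.rpow_natCast, ← Real.rpow_mul hx0.le]
        congr 1
        push_cast
        ring
      rwa [mul_pow, e7] at e6
    have e6 : x * x ^ ε * x ^ (-(8 * ε)) = x ^ (1 - 7 * ε) := by
      nth_rewrite 1 [← Real.rpow_one x]
      rw [← Real.rpow_add hx0, ← Real.rpow_add hx0]
      congr 1
      ring
    rw [e6] at e4
    have e7 : x ^ (1 - 6 * ε) = x ^ ε * x ^ (1 - 7 * ε) := by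
      rw [← Real.rpow_add hx0]
      congr 1
      ring
    rw [e7] at e5
    have hx7 : 0 < x ^ (1 - 7 * ε) := Real.rpow_pos_of_pos hx0 _
    have e8 : c₂ ^ 2 * x ^ ε * x ^ (1 - 7 * ε) ≤ 2 * C₃ * (θ ^ 2)⁻¹ * x ^ (1 - 7 * ε) := by
      have := e5.trans e4
      linarith
    have e9 : c₂ ^ 2 * x ^ ε ≤ 2 * C₃ * (θ ^ 2)⁻¹ := le_of_mul_le_mul_right e8 hx7
    have hc : 0 < c₂ ^ 2 := by positivity
    rw [div_lt_iff₀ hc] at h2
    linarith

end Pool.Agent.LX
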