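import Pool.Agent.LX.Defs

set_option autoImplicit false

/-!
Estermann's lemma: an upper bound for an entire function on a circle gives a lower bound for the
residue of a Dirichlet series with nonnegative coefficients that is nonpositive at a real point
near 1.
-/

open Complex Filter Topology
open scoped ComplexOrder

namespace Pool.Agent.LX

private lemma est_coeff (a : ℕ → ℝ) (ha : ∀ k, 0 ≤ a k)
    (hs : ∀ σ : ℝ, 1 < σ → LSeriesSummable (fun k => (a k : ℂ)) σ) (G : ℂ → ℂ) (l : ℝ)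
    (hF : ∀ s : ℂ, 1 < s.re → LSeries (fun k => (a k : ℂ)) s = l / (s - 1) + G s) :
    ∃ b : ℕ → ℝ, (∀ m, 0 ≤ b m) ∧ b 0 = (LSeries (fun k => (a k : ℂ)) 2).re ∧
      ∀ m, (m.factorial : ℂ)⁻¹ * ((-1) ^ m * iteratedDeriv m G 2) = ((b m - l : ℝ) : ℂ) := by
  have habs : LSeries.abscissaOfAbsConv (fun k => (a k : ℂ)) < ((2 : ℝ) : EReal) := by
    refine lt_of_le_of_lt (hs (3 / 2) (by norm_num)).abscissaOfAbsConv_le ?_
    rw [ofReal_re]
    exact_mod_cast (by norm_num : (3 / 2 : ℝ) < 2)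
  have hpos : ∀ m, 0 ≤ (-1) ^ m * iteratedDeriv m (LSeries (fun k => (a k : ℂ))) 2 := by
    intro m
    have h := LSeries.iteratedDeriv_alternating (a := fun k => (a k : ℂ))
      (fun k => by simpa using ha k) habs m
    simpa using h
  have hpos' : ∀ m, 0 ≤ (m.factorial : ℂ)⁻¹ *
      ((-1) ^ m * iteratedDeriv m (LSeries (fun k => (a k : ℂ))) 2) := by
    intro m
    refine mul_nonneg ?_ (hpos m)
    rw [← ofReal_natCast, ← ofReal_inv, zero_le_real]
    positivity
  refine ⟨fun m => ((m.factorial : ℂ)⁻¹ *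
    ((-1) ^ m * iteratedDeriv m (LSeries (fun k => (a k : ℂ))) 2)).re, fun m => ?_, ?_, fun m => ?_⟩
  · exact (Complex.nonneg_iff.1 (hpos' m)).1
  · simp
  · have hre : ((((m.factorial : ℂ)⁻¹ *
        ((-1) ^ m * iteratedDeriv m (LSeries (fun k => (a k : ℂ))) 2)).re : ℝ) : ℂ) =
        (m.factorial : ℂ)⁻¹ * ((-1) ^ m * iteratedDeriv m (LSeries (fun k => (a k : ℂ))) 2) := by
      apply Complex.ext
      · simp
      · rw [ofReal_im]
        exact (Complex.nonneg_iff.1 (hpos' m)).2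
    rw [ofReal_sub, hre]
    have hev : G =ᶠ[𝓝 2] (LSeries (fun k => (a k : ℂ))) - fun s => (l : ℂ) * (1 * s - 1)⁻¹ := by
      have ho : IsOpen {s : ℂ | 1 < s.re} := continuous_re.isOpen_preimage _ isOpen_Ioi
      filter_upwards [ho.mem_nhds (show (1 : ℝ) < (2 : ℂ).re by simp)] with s h1
      rw [Pi.sub_apply, hF s h1, one_mul, div_eq_mul_inv]
      ring
    have hd1 : ContDiffAt ℂ m (LSeries (fun k => (a k : ℂ))) 2 :=
      (LSeries_analyticOnNhd _ 2 (by simpa using habs)).contDiffAt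
    have hd2 : ContDiffAt ℂ m (fun s : ℂ => (1 * s - 1)⁻¹) 2 := by
      apply ContDiffAt.inv
      · fun_prop
      · norm_num
    have hd3 : ContDiffAt ℂ m (fun s : ℂ => (l : ℂ) * (1 * s - 1)⁻¹) 2 :=
      contDiffAt_const.mul hd2
    rw [hev.iteratedDeriv_eq, iteratedDeriv_sub hd1 hd3,
      iteratedDeriv_const_mul (l : ℂ) hd2, iteratedDeriv_eq_iterate (n := m)
        (f := fun s : ℂ => (1 * s - 1)⁻¹), iter_deriv_inv_linear_sub]
    have h1 : ((1 : ℂ) * 2 - 1) ^ (-1 - (m : ℤ)) = 1 := by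
      norm_num
    have h2 : ((-1 : ℂ) ^ m) * (-1) ^ m = 1 := by
      rw [← mul_pow]
      norm_num
    have h3 : (m.factorial : ℂ) ≠ 0 := by exact_mod_cast m.factorial_ne_zero
    simp only [h1, one_pow, mul_one]
    field_simp
    linear_combination (-(l : ℂ)) * (m.factorial : ℂ) * h2

/-- LX-F3 -/
theorem estermann (a : ℕ → ℝ) (ha : ∀ k, 0 ≤ a k) (ha1 : 1 ≤ a 1)
    (hs : ∀ σ : ℝ, 1 < σ → LSeriesSummable (fun k => (a k : ℂ)) σ) (G : ℂ → ℂ)
    (hG : Differentiable ℂ G) (l : ℝ)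
    (hF : ∀ s : ℂ, 1 < s.re → LSeries (fun k => (a k : ℂ)) s = l / (s - 1) + G s) (T : ℝ)
    (hT : 1 ≤ T) (hGT : ∀ s : ℂ, ‖s - 2‖ = 3 / 2 → ‖G s‖ ≤ T) (β : ℝ) (hβ : 7 / 8 < β)
    (hβ1 : β < 1) (hneg : (G β).re - l / (1 - β) ≤ 0) :
    (1 - β) / 10 * T ^ (-(4 * (1 - β))) ≤ l := by
  obtain ⟨b, hb0, hb1, hb⟩ := est_coeff a ha hs G l hF
  have hT0 : 0 < T := by linarith
  -- the value at 2
  have hb1' : 1 ≤ b 0 := by
    rw [hb1]
    have h2 : LSeriesSummable (fun k => (a k : ℂ)) 2 := by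
      simpa using hs 2 (by norm_num)
    have h3 : HasSum (fun k => (LSeries.term (fun k => (a k : ℂ)) 2 k).re)
        (LSeries (fun k => (a k : ℂ)) 2).re := Complex.hasSum_re h2.hasSum
    have h4 : ∀ k, 0 ≤ (LSeries.term (fun k => (a k : ℂ)) 2 k).re := by
      intro k
      have h5 : 0 ≤ LSeries.term (fun k => (a k : ℂ)) ((2 : ℝ) : ℂ) k :=
        LSeries.term_nonneg (by simpa using ha k) 2
      simpa using (Complex.nonneg_iff.1 h5).1
    have h6 := h3.summable.le_tsum 1 (fun j _ => h4 j)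
    rw [h3.tsum_eq] at h6
    refine le_trans ?_ h6
    simpa [LSeries.term_def] using ha1
  -- Cauchy estimate
  have hc : ∀ m, |b m - l| ≤ T * (2 / 3) ^ m := by
    intro m
    have h1 := Complex.norm_iteratedDeriv_le_of_forall_mem_sphere_norm_le (c := 2) (R := 3 / 2)
      (C := T) (f := G) m (by norm_num) hG.diffContOnCl (fun z hz => hGT z (by
        simpa [dist_eq_norm] using hz))
    have h2 : ‖(m.factorial : ℂ)⁻¹ * ((-1) ^ m * iteratedDeriv m G 2)‖ = |b m - l| := by
      rw [hb m, Complex.norm_real, Real.norm_eq_abs]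
    rw [← h2, norm_mul, norm_mul, norm_pow, norm_neg, norm_one, one_pow, one_mul, norm_inv,
      Complex.norm_natCast]
    have h3 : (0 : ℝ) < m.factorial := by exact_mod_cast m.factorial_pos
    calc (m.factorial : ℝ)⁻¹ * ‖iteratedDeriv m G 2‖
        ≤ (m.factorial : ℝ)⁻¹ * (m.factorial * T / (3 / 2) ^ m) := by gcongr
      _ = T * (2 / 3) ^ m := by
          rw [show (2 / 3 : ℝ) = (3 / 2)⁻¹ by norm_num, inv_pow]
          field_simp
  -- the Taylor series at β
  have hx1 : 1 < 2 - β := by linarith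
  have hx2 : 2 - β < 9 / 8 := by linarith
  have hsum : HasSum (fun m => (2 - β) ^ m * (b m - l)) (G β).re := by
    have h1 := Complex.hasSum_re (Complex.hasSum_taylorSeries_of_entire hG 2 β)
    refine h1.congr_fun ?_
    intro m
    have h2 : (m.factorial : ℂ)⁻¹ • ((β : ℂ) - 2) ^ m • iteratedDeriv m G 2 =
        (((2 - β) ^ m * (b m - l) : ℝ) : ℂ) := by
      rw [ofReal_mul, ← hb m, smul_eq_mul, smul_eq_mul, ofReal_pow, ofReal_sub, ofReal_ofNat]
      have h3 : ((β : ℂ) - 2) ^ m = (2 - (β : ℂ)) ^ m * (-1) ^ m := by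
        rw [← mul_pow]
        ring
      rw [h3]
      ring
    rw [h2, ofReal_re]
  set N : ℕ := ⌈4 * Real.log (8 * T)⌉₊ with hN
  have hlog8 : Real.log 8 = 3 * Real.log 2 := by
    rw [show (8 : ℝ) = 2 ^ 3 by norm_num, Real.log_pow]
    norm_num
  have hlog2 := Real.log_two_lt_d9
  have hlog2' := Real.log_two_gt_d9
  have hlog8T : Real.log (8 * T) = Real.log 8 + Real.log T :=
    Real.log_mul (by norm_num) hT0.ne'
  have hlogT : 0 ≤ Real.log T := Real.log_nonneg hT
  have hN1 : 4 * Real.log (8 * T) ≤ N := Nat.le_ceil _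
  have hN2 : (N : ℝ) < 4 * Real.log (8 * T) + 1 := by
    apply Nat.ceil_lt_add_one
    rw [hlog8T]
    nlinarith
  have hNpos : 0 < N := by
    rw [Nat.ceil_pos, hlog8T]
    nlinarith
  have hexp : 4 * T * (3 / 4) ^ N ≤ 1 / 2 := by
    have h1 : Real.exp ((N : ℝ) / 4) ≤ (4 / 3) ^ N := by
      have h2 : Real.exp (1 / 4) ≤ 4 / 3 := by
        have h3 := Real.add_one_le_exp (-(1 / 4) : ℝ)
        rw [Real.exp_neg] at h3
        have h4 : 0 < Real.exp (1 / 4) := Real.exp_pos _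
        rw [le_inv_comm₀ (by norm_num) h4] at h3
        refine h3.trans (by norm_num)
      calc Real.exp ((N : ℝ) / 4) = Real.exp (1 / 4) ^ N := by
            rw [← Real.exp_nat_mul]
            congr 1
            ring
        _ ≤ (4 / 3) ^ N := by gcongr
    have h2 : 8 * T ≤ Real.exp ((N : ℝ) / 4) := by
      rw [← Real.log_le_iff_le_exp (by positivity)]
      linarith
    have h3 : (3 / 4 : ℝ) ^ N = ((4 / 3) ^ N)⁻¹ := by
      rw [← inv_pow]
      norm_num
    have h4 : (0 : ℝ) < (4 / 3) ^ N := by positivity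
    rw [h3, ← div_eq_mul_inv, div_le_iff₀ h4]
    linarith
  have htail : |∑' i, (2 - β) ^ (i + N) * (b (i + N) - l)| ≤ 4 * T * (3 / 4) ^ N := by
    have h1 : HasSum (fun i : ℕ => T * (3 / 4) ^ N * (3 / 4 : ℝ) ^ i)
        (T * (3 / 4) ^ N * (1 - 3 / 4)⁻¹) :=
      (hasSum_geometric_of_lt_one (by norm_num) (by norm_num)).mul_left _
    have h2 := tsum_of_norm_bounded h1 (f := fun i => (2 - β) ^ (i + N) * (b (i + N) - l)) ?_
    · rw [Real.norm_eq_abs] at h2
      refine h2.trans (le_of_eq ?_)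
      norm_num
      ring
    · intro i
      rw [norm_mul, norm_pow, Real.norm_eq_abs, Real.norm_eq_abs, abs_of_pos (by linarith)]
      calc (2 - β) ^ (i + N) * |b (i + N) - l|
          ≤ (9 / 8) ^ (i + N) * (T * (2 / 3) ^ (i + N)) := by
            gcongr
            exact hc _
        _ = T * ((9 / 8) ^ (i + N) * (2 / 3) ^ (i + N)) := by ring
        _ = T * (3 / 4) ^ (i + N) := by
            rw [← mul_pow]
            norm_num
        _ = T * (3 / 4) ^ N * (3 / 4) ^ i := by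
            rw [pow_add]
            ring
  have hsplit := hsum.summable.sum_add_tsum_nat_add N
  rw [hsum.tsum_eq] at hsplit
  have hfin : 1 - l * ((2 - β) ^ N - 1) / (1 - β) ≤
      ∑ i ∈ Finset.range N, (2 - β) ^ i * (b i - l) := by
    have h1 : ∑ i ∈ Finset.range N, (2 - β) ^ i * (b i - l) =
        ∑ i ∈ Finset.range N, (2 - β) ^ i * b i - l * ∑ i ∈ Finset.range N, (2 - β) ^ i := by
      rw [Finset.mul_sum, ← Finset.sum_sub_distrib]
      exact Finset.sum_congr rfl fun i _ => by ring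
    have h2 : ∑ i ∈ Finset.range N, (2 - β) ^ i = ((2 - β) ^ N - 1) / (1 - β) := by
      rw [geom_sum_eq (by linarith)]
      congr 1
      ring
    have h3 : (2 - β) ^ 0 * b 0 ≤ ∑ i ∈ Finset.range N, (2 - β) ^ i * b i :=
      Finset.single_le_sum (f := fun i => (2 - β) ^ i * b i)
        (fun i _ => mul_nonneg (pow_nonneg (by linarith) _) (hb0 i)) (Finset.mem_range.2 hNpos)
    rw [pow_zero, one_mul] at h3
    rw [h1, h2, ← mul_div_assoc]
    linarith
  have hβ0 : 0 < 1 - β := by linarith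
  have hkey : 1 / 2 ≤ l * (2 - β) ^ N / (1 - β) := by
    have h1 := (abs_le.1 htail).1
    have h2 : l * ((2 - β) ^ N - 1) / (1 - β) + l / (1 - β) = l * (2 - β) ^ N / (1 - β) := by
      field_simp
      ring
    linarith
  have hpow : (2 - β) ^ N ≤ Real.exp ((1 - β) * N) := by
    have h1 : 2 - β ≤ Real.exp (1 - β) := by
      have := Real.add_one_le_exp (1 - β)
      linarith
    calc (2 - β) ^ N ≤ Real.exp (1 - β) ^ N := by gcongr
      _ = Real.exp ((1 - β) * N) := by
          rw [← Real.exp_nat_mul]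
          congr 1
          ring
  have hl : 0 < l := by
    by_contra h
    have h1 : l * (2 - β) ^ N / (1 - β) ≤ 0 :=
      div_nonpos_of_nonpos_of_nonneg (mul_nonpos_of_nonpos_of_nonneg (not_lt.1 h)
        (pow_nonneg (by linarith) _)) hβ0.le
    linarith
  have h5 : Real.exp (3 / 2) ≤ 5 := by
    have h1 : Real.exp (3 / 2) ^ 2 = Real.exp 1 ^ 3 := by
      rw [← Real.exp_nat_mul, ← Real.exp_nat_mul]
      norm_num
    have h2 : Real.exp 1 ^ 3 ≤ 2.7182818286 ^ 3 := by
      have := Real.exp_one_lt_d9.le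
      gcongr
    have h3 : Real.exp (3 / 2) ^ 2 ≤ 5 ^ 2 := by
      rw [h1]
      refine h2.trans (by norm_num)
    exact le_of_sq_le_sq h3 (by norm_num)
  have hexpo : (1 - β) * N ≤ Real.log T * (4 * (1 - β)) + 3 / 2 := by
    have h1 : (1 - β) * N ≤ (1 - β) * (4 * Real.log (8 * T) + 1) := by
      gcongr
    have h2 : (1 - β) * (4 * (3 * Real.log 2) + 1) ≤ 3 / 2 := by nlinarith
    rw [hlog8T, hlog8] at h1
    nlinarith
  have hfinal : (1 - β) / 2 ≤ l * (5 * Real.exp (Real.log T * (4 * (1 - β)))) := by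
    have h1 : (1 - β) / 2 ≤ l * (2 - β) ^ N := by
      rw [le_div_iff₀ hβ0] at hkey
      linarith
    refine h1.trans (mul_le_mul_of_nonneg_left ?_ hl.le)
    refine hpow.trans ?_
    calc Real.exp ((1 - β) * N) ≤ Real.exp (Real.log T * (4 * (1 - β)) + 3 / 2) :=
          Real.exp_le_exp.2 hexpo
      _ = Real.exp (3 / 2) * Real.exp (Real.log T * (4 * (1 - β))) := by
          rw [Real.exp_add]
          ring
      _ ≤ 5 * Real.exp (Real.log T * (4 * (1 - β))) := by gcongr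
  rw [Real.rpow_def_of_pos hT0, mul_neg, Real.exp_neg, ← div_eq_mul_inv,
    div_le_iff₀ (Real.exp_pos _)]
  linarith

end Pool.Agent.LX
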