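import Pool.Agent.LX.Core

set_option autoImplicit false

open Matrix

namespace Pool.Agent.LX

theorem main (a b c d : ℕ) (h : ¬ (a = 0 ∧ b = 0 ∧ c = 0 ∧ d = 0)) :
    ∃ S : Finset ℕ, ∃ N₀ : ℕ, ∀ n : ℕ, N₀ ≤ n → ∃ x y z w : ℤ,
      (n : ℤ) = x ^ 2 + y ^ 2 + z ^ 2 + 2 * w ^ 2 ∧ ∃ s ∈ S, a * x + b * y + c * z + d * w = (s : ℤ) := by
  obtain ⟨g, hg⟩ : ∃ g, g = Nat.gcd (Nat.gcd a b) (Nat.gcd c d) := ⟨_, rfl⟩
  have hgp : 0 < g := by
    rcases Nat.eq_zero_or_pos g with h0 | h0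
    · exfalso
      apply h
      rw [hg] at h0
      have h1 := Nat.gcd_eq_zero_iff.mp h0
      have h2 := Nat.gcd_eq_zero_iff.mp h1.1
      have h3 := Nat.gcd_eq_zero_iff.mp h1.2
      exact ⟨h2.1, h2.2, h3.1, h3.2⟩
    · exact h0
  have da : g ∣ a := by rw [hg]; exact (Nat.gcd_dvd_left _ _).trans (Nat.gcd_dvd_left _ _)
  have db : g ∣ b := by rw [hg]; exact (Nat.gcd_dvd_left _ _).trans (Nat.gcd_dvd_right _ _)
  have dc : g ∣ c := by rw [hg]; exact (Nat.gcd_dvd_right _ _).trans (Nat.gcd_dvd_left _ _)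
  have dd : g ∣ d := by rw [hg]; exact (Nat.gcd_dvd_right _ _).trans (Nat.gcd_dvd_right _ _)
  obtain ⟨a', ha'⟩ := da
  obtain ⟨b', hb'⟩ := db
  obtain ⟨c', hc'⟩ := dc
  obtain ⟨d', hd'⟩ := dd
  have hprim : Prim ![(a' : ℤ), b', c', d'] := by
    intro p hp
    by_contra hcon
    push Not at hcon
    have h0 : p ∣ a' := by have := hcon 0; simpa [Int.natCast_dvd_natCast] using this
    have h1 : p ∣ b' := by have := hcon 1; simpa [Int.natCast_dvd_natCast] using this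
    have h2 : p ∣ c' := by have := hcon 2; simpa [Int.natCast_dvd_natCast] using this
    have h3 : p ∣ d' := by have := hcon 3; simpa [Int.natCast_dvd_natCast] using this
    have e0 : g * p ∣ a := by rw [ha']; exact Nat.mul_dvd_mul_left g h0
    have e1 : g * p ∣ b := by rw [hb']; exact Nat.mul_dvd_mul_left g h1
    have e2 : g * p ∣ c := by rw [hc']; exact Nat.mul_dvd_mul_left g h2
    have e3 : g * p ∣ d := by rw [hd']; exact Nat.mul_dvd_mul_left g h3
    have e4 : g * p ∣ g := by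
      conv_rhs => rw [hg]
      exact Nat.dvd_gcd (Nat.dvd_gcd e0 e1) (Nat.dvd_gcd e2 e3)
    have e5 := Nat.le_of_dvd hgp e4
    have := hp.two_le
    nlinarith
  obtain ⟨S₀, N₀, hmain⟩ := linnik_core _ hprim
  refine ⟨Finset.range (g * S₀ + 1), N₀, fun n hn => ?_⟩
  obtain ⟨x, hx, hdot⟩ := hmain n (by exact_mod_cast hn)
  have key : ∃ y : Fin 4 → ℤ, Q y = n ∧ 0 ≤ dot ![(a' : ℤ), b', c', d'] y ∧
      dot ![(a' : ℤ), b', c', d'] y ≤ S₀ := by
    rw [abs_le] at hdot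
    rcases le_total 0 (dot ![(a' : ℤ), b', c', d'] x) with h0 | h0
    · exact ⟨x, hx, h0, hdot.2⟩
    · refine ⟨-x, ?_, ?_, ?_⟩
      · rw [← hx]; simp only [Q, B, Pi.neg_apply]; ring
      · have : dot ![(a' : ℤ), b', c', d'] (-x) = - dot ![(a' : ℤ), b', c', d'] x := by
          simp only [dot, Pi.neg_apply]; ring
        rw [this]; linarith
      · have : dot ![(a' : ℤ), b', c', d'] (-x) = - dot ![(a' : ℤ), b', c', d'] x := by
          simp only [dot, Pi.neg_apply]; ring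
        rw [this]; linarith [hdot.1]
  obtain ⟨y, hy, hy0, hy1⟩ := key
  refine ⟨y 0, y 1, y 2, y 3, ?_, (g * dot ![(a' : ℤ), b', c', d'] y).toNat, ?_, ?_⟩
  · rw [← hy]; simp only [Q, B]; ring
  · rw [Finset.mem_range]
    have h1 : (g : ℤ) * dot ![(a' : ℤ), b', c', d'] y ≤ g * S₀ :=
      mul_le_mul_of_nonneg_left hy1 (by positivity)
    have h2 : (0 : ℤ) ≤ (g : ℤ) * dot ![(a' : ℤ), b', c', d'] y := by positivity
    zify
    rw [Int.toNat_of_nonneg h2]
    linarith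
  · have h2 : (0 : ℤ) ≤ (g : ℤ) * dot ![(a' : ℤ), b', c', d'] y := by positivity
    rw [Int.toNat_of_nonneg h2, ha', hb', hc', hd']
    simp only [dot, Matrix.cons_val]
    push_cast
    ring

end Pool.Agent.LX
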