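import Pool.Agent.LX.SiegelCoef

/-!
Project LX: analytic facts for the theorem of Siegel.
-/

set_option autoImplicit false

open Complex Filter Topology Metric
open scoped ComplexOrder

namespace Pool.Agent.LX

/-! ### entire functions which are real on the real line -/

theorem sg_real (f : ℂ → ℂ) (hf : Differentiable ℂ f)
    (h : ∀ x : ℝ, 1 < x → (f x).im = 0) (x : ℝ) : (f x).im = 0 := by
  have hg : Differentiable ℂ (fun z => (starRingEnd ℂ) (f ((starRingEnd ℂ) z))) := by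
    intro z
    have h1 := (hf ((starRingEnd ℂ) z)).conj_conj
    rw [Complex.conj_conj] at h1
    exact h1
  have hfr : ∃ᶠ z in 𝓝[≠] (2 : ℂ), f z = (starRingEnd ℂ) (f ((starRingEnd ℂ) z)) := by
    have ht : Tendsto (fun n : ℕ => ((2 + 1 / ((n : ℝ) + 1) : ℝ) : ℂ)) atTop (𝓝[≠] (2 : ℂ)) := by
      rw [tendsto_nhdsWithin_iff]
      constructor
      · have h1 : Tendsto (fun n : ℕ => (2 + 1 / ((n : ℝ) + 1) : ℝ)) atTop (𝓝 (2 + 0)) :=
          tendsto_const_nhds.add tendsto_one_div_add_atTop_nhds_zero_nat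
        rw [add_zero] at h1
        have h2 : Tendsto (fun n : ℕ => ((2 + 1 / ((n : ℝ) + 1) : ℝ) : ℂ)) atTop
            (𝓝 ((2 : ℝ) : ℂ)) := (Complex.continuous_ofReal.tendsto (2 : ℝ)).comp h1
        rw [show ((2 : ℝ) : ℂ) = 2 by norm_num] at h2
        exact h2
      · filter_upwards with n
        rw [Set.mem_compl_iff, Set.mem_singleton_iff]
        intro h0
        have h1 : (2 + 1 / ((n : ℝ) + 1) : ℝ) = 2 := by exact_mod_cast h0
        have h2 : 0 < 1 / ((n : ℝ) + 1) := by positivity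
        linarith
    apply ht.frequently
    apply Eventually.frequently
    filter_upwards with n
    rw [Complex.conj_ofReal]
    have h1 : (1 : ℝ) < 2 + 1 / ((n : ℝ) + 1) := by
      have h2 : 0 < 1 / ((n : ℝ) + 1) := by positivity
      linarith
    rw [Complex.conj_eq_iff_im.2 (h _ h1)]
  have hfe := AnalyticOnNhd.eq_of_frequently_eq (𝕜 := ℂ) (E := ℂ)
    (f := f) (g := fun z => (starRingEnd ℂ) (f ((starRingEnd ℂ) z))) (z₀ := 2)
    (hf.differentiableOn.analyticOnNhd isOpen_univ)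
    (hg.differentiableOn.analyticOnNhd isOpen_univ) hfr
  have h1 := congrFun hfe (x : ℂ)
  simp only [Complex.conj_ofReal] at h1
  exact Complex.conj_eq_iff_im.1 h1.symm

/-! ### zeta -/

/-- `ζ(s) - 1/(s-1)`, with its value at `1` -/
noncomputable def sgZ : ℂ → ℂ :=
  Function.update (fun s : ℂ => riemannZeta s - 1 / (s - 1)) 1
    (Real.eulerMascheroniConstant : ℂ)

theorem sgZ_of_ne {s : ℂ} (hs : s ≠ 1) : sgZ s = riemannZeta s - 1 / (s - 1) :=
  Function.update_of_ne hs _ _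

theorem sgZ_differentiable : Differentiable ℂ sgZ := by
  have hne : ∀ s : ℂ, s ≠ 1 → DifferentiableAt ℂ sgZ s := by
    intro s hs
    have h1 : DifferentiableAt ℂ (fun s : ℂ => riemannZeta s - 1 / (s - 1)) s := by
      apply (differentiableAt_riemannZeta hs).sub
      apply (differentiableAt_const _).div
      · exact differentiableAt_id.sub (differentiableAt_const _)
      · exact sub_ne_zero.2 hs
    apply h1.congr_of_eventuallyEq
    filter_upwards [eventually_ne_nhds hs] with t ht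
    exact sgZ_of_ne ht
  intro s
  rcases ne_or_eq s 1 with hs | rfl
  · exact hne s hs
  refine (analyticAt_of_differentiable_on_punctured_nhds_of_continuousAt ?_ ?_).differentiableAt
  · filter_upwards [self_mem_nhdsWithin] with t ht
    exact hne t ht
  · rw [sgZ, continuousAt_update_same]
    exact tendsto_riemannZeta_sub_one_div

theorem sg_exists_G (H : ℂ → ℂ) (hH : Differentiable ℂ H) :
    ∃ G : ℂ → ℂ, Differentiable ℂ G ∧
      ∀ s, s ≠ 1 → G s = riemannZeta s * H s - H 1 / (s - 1) := by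
  refine ⟨fun s => sgZ s * H s + dslope H 1 s, ?_, ?_⟩
  · apply (sgZ_differentiable.mul hH).add
    rw [← differentiableOn_univ]
    exact (Complex.differentiableOn_dslope (univ_mem)).2 hH.differentiableOn
  · intro s hs
    have hs' : s - 1 ≠ 0 := sub_ne_zero.2 hs
    have h1 : dslope H 1 s = (H s - H 1) / (s - 1) := by
      rw [dslope_of_ne _ hs, slope_def_field]
    change sgZ s * H s + dslope H 1 s = _
    rw [h1, sgZ_of_ne hs]
    field_simp
    ring

theorem sg_circle {s : ℂ} (hs : ‖s - 2‖ = 3 / 2) :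
    1 / 2 ≤ s.re ∧ ‖s‖ ≤ 7 / 2 ∧ 1 / 2 ≤ ‖s - 1‖ ∧ s ≠ 1 := by
  have h1 : |(s - 2).re| ≤ 3 / 2 := by
    rw [← hs]
    exact Complex.abs_re_le_norm _
  have h2 : (s - 2).re = s.re - 2 := by simp
  rw [h2, abs_le] at h1
  have h3 : ‖s‖ ≤ ‖s - 2‖ + ‖(2 : ℂ)‖ := by
    have := norm_add_le (s - 2) 2
    rwa [sub_add_cancel] at this
  have h4 : ‖s - 2‖ ≤ ‖s - 1‖ + ‖(1 : ℂ)‖ := by
    have := norm_sub_le (s - 1) 1
    rwa [sub_sub, one_add_one_eq_two] at this
  rw [norm_one] at h4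
  have h5 : ‖(2 : ℂ)‖ = 2 := by simp
  refine ⟨by linarith [h1.1], by rw [h5, hs] at h3; linarith, by rw [hs] at h4; linarith, ?_⟩
  rintro rfl
  rw [hs] at h4
  norm_num at h4

theorem sg_zeta_circle : ∃ C : ℝ, 0 ≤ C ∧ ∀ s : ℂ, ‖s - 2‖ = 3 / 2 → ‖riemannZeta s‖ ≤ C := by
  have hc : IsCompact (sphere (2 : ℂ) (3 / 2)) := isCompact_sphere _ _
  have hcont : ContinuousOn riemannZeta (sphere (2 : ℂ) (3 / 2)) := by
    intro s hs
    rw [mem_sphere, dist_eq_norm] at hs
    exact (differentiableAt_riemannZeta (sg_circle hs).2.2.2).continuousAt.continuousWithinAt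
  obtain ⟨C, hC⟩ := hc.exists_bound_of_continuousOn hcont
  refine ⟨|C|, abs_nonneg C, fun s hs => (hC s ?_).trans (le_abs_self C)⟩
  rw [mem_sphere, dist_eq_norm]
  exact hs

theorem sg_zeta_pos {x : ℝ} (hx : 1 < x) : 0 < riemannZeta (x : ℂ) := by
  rw [← ArithmeticFunction.LSeries_zeta_eq_riemannZeta (by simpa using hx)]
  apply LSeries.positive
  · intro n
    simp only [Pi.zero_apply]
    exact_mod_cast Nat.zero_le _
  · simp
  · rw [ArithmeticFunction.abscissaOfAbsConv_zeta]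
    exact_mod_cast hx

theorem sg_zeta_im {x : ℝ} (hx : x ≠ 1) : (riemannZeta (x : ℂ)).im = 0 := by
  have h1 : ∀ y : ℝ, 1 < y → (sgZ y).im = 0 := by
    intro y hy
    rw [sgZ_of_ne (by exact_mod_cast hy.ne'), Complex.sub_im]
    have h2 : (riemannZeta (y : ℂ)).im = 0 := (Complex.pos_iff.1 (sg_zeta_pos hy)).2.symm
    have h3 : (1 / ((y : ℂ) - 1)) = ((1 / (y - 1) : ℝ) : ℂ) := by push_cast; rfl
    rw [h2, h3, Complex.ofReal_im, sub_zero]
  have h2 := sg_real sgZ sgZ_differentiable h1 x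
  rw [sgZ_of_ne (by exact_mod_cast hx), Complex.sub_im] at h2
  have h3 : (1 / ((x : ℂ) - 1)) = ((1 / (x - 1) : ℝ) : ℂ) := by push_cast; rfl
  rw [h3, Complex.ofReal_im, sub_zero] at h2
  exact h2

theorem sg_zeta_neg : ∃ η₀ : ℝ, 0 < η₀ ∧ ∀ η : ℝ, 0 < η → η ≤ η₀ →
    (riemannZeta ((1 - η : ℝ) : ℂ)).re < 0 := by
  have h1 := riemannZeta_residue_one
  have h2 : ∀ᶠ s in 𝓝[≠] (1 : ℂ), 0 < ((s - 1) * riemannZeta s).re := by
    have h3 : Tendsto (fun s : ℂ => ((s - 1) * riemannZeta s).re) (𝓝[≠] (1 : ℂ))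
        (𝓝 (1 : ℂ).re) := (Complex.continuous_re.tendsto _).comp h1
    rw [Complex.one_re] at h3
    exact h3.eventually_const_lt zero_lt_one
  rw [eventually_nhdsWithin_iff, Metric.eventually_nhds_iff] at h2
  obtain ⟨r, hr, h2⟩ := h2
  refine ⟨r / 2, by positivity, fun η h0 hη => ?_⟩
  have h4 := h2 (y := ((1 - η : ℝ) : ℂ)) (by
    rw [dist_eq_norm]
    have : (((1 - η : ℝ) : ℂ) - 1) = ((-η : ℝ) : ℂ) := by push_cast; ring
    rw [this, Complex.norm_real, Real.norm_eq_abs, abs_neg, abs_of_pos h0]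
    linarith) (by
    rw [Set.mem_compl_iff, Set.mem_singleton_iff]
    intro h
    have : (1 - η : ℝ) = 1 := by exact_mod_cast h
    linarith)
  have h5 : (((1 - η : ℝ) : ℂ) - 1) = ((-η : ℝ) : ℂ) := by push_cast; ring
  rw [h5, Complex.re_ofReal_mul] at h4
  nlinarith

/-! ### real characters -/

section chars

variable {N : ℕ} [NeZero N] {χ : DirichletCharacter ℂ N}

theorem sg_L_pos (h2 : χ ^ 2 = 1) {x : ℝ} (hx : 1 < x) : 0 < χ.LFunction (x : ℂ) := by
  have hx' : 1 < ((x : ℂ)).re := by simpa using hx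
  have h3 : 0 < LSeries (fun n => χ.zetaMul n) (x : ℂ) := by
    apply LSeries.positive
    · exact fun n => DirichletCharacter.zetaMul_nonneg h2 n
    · rw [χ.isMultiplicative_zetaMul.map_one]
      exact zero_lt_one
    · apply lt_of_le_of_lt (LSeries.abscissaOfAbsConv_le_of_forall_lt_LSeriesSummable (x := 1)
        fun y hy => χ.LSeriesSummable_zetaMul (by simpa using hy))
      exact_mod_cast hx
  rw [zetaMul_LSeries χ hx'] at h3
  have h4 := sg_zeta_pos hx
  rw [Complex.pos_iff] at h3 h4 ⊢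
  obtain ⟨h3a, h3b⟩ := h3
  obtain ⟨h4a, h4b⟩ := h4
  rw [Complex.mul_re, ← h4b, zero_mul, sub_zero] at h3a
  rw [Complex.mul_im, ← h4b, zero_mul, add_zero] at h3b
  constructor
  · exact (pos_iff_pos_of_mul_pos h3a).1 h4a
  · have := mul_eq_zero.1 h3b.symm
    rcases this with h | h
    · exact absurd h h4a.ne'
    · exact h.symm

theorem sg_L_im (h2 : χ ^ 2 = 1) (h1 : χ ≠ 1) (x : ℝ) : (χ.LFunction (x : ℂ)).im = 0 :=
  sg_real χ.LFunction (χ.differentiable_LFunction h1)
    (fun _ hy => (Complex.pos_iff.1 (sg_L_pos h2 hy)).2.symm) x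

theorem sg_L_eq (h2 : χ ^ 2 = 1) (h1 : χ ≠ 1) (x : ℝ) :
    χ.LFunction (x : ℂ) = (((χ.LFunction (x : ℂ)).re : ℝ) : ℂ) := by
  apply Complex.ext
  · simp
  · rw [sg_L_im h2 h1, Complex.ofReal_im]

/-- positivity to the right of the largest real zero -/
theorem sg_L_re_pos (h2 : χ ^ 2 = 1) (h1 : χ ≠ 1) {b : ℝ}
    (hb : ∀ x : ℝ, b ≤ x → x < 1 → χ.LFunction (x : ℂ) ≠ 0) {x : ℝ} (hx : b ≤ x) :
    0 < (χ.LFunction (x : ℂ)).re := by
  have hcont : Continuous (fun y : ℝ => (χ.LFunction (y : ℂ)).re) :=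
    Complex.continuous_re.comp ((χ.differentiable_LFunction h1).continuous.comp
      Complex.continuous_ofReal)
  have hne : ∀ y : ℝ, b ≤ y → (χ.LFunction (y : ℂ)).re ≠ 0 := by
    intro y hy h0
    have h3 : χ.LFunction (y : ℂ) = 0 := by rw [sg_L_eq h2 h1, h0, Complex.ofReal_zero]
    rcases lt_or_ge y 1 with h4 | h4
    · exact hb y hy h4 h3
    · exact χ.LFunction_ne_zero_of_one_le_re (Or.inl h1) (by simpa using h4) h3
  by_contra hcon
  push Not at hcon
  have hm : (1 : ℝ) < max x 1 + 1 := by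
    have := le_max_right x 1
    linarith
  have hpos : 0 < (χ.LFunction ((max x 1 + 1 : ℝ) : ℂ)).re :=
    (Complex.pos_iff.1 (sg_L_pos h2 hm)).1
  have hle : x ≤ max x 1 + 1 := by
    have := le_max_left x 1
    linarith
  obtain ⟨y, hy, hy0⟩ := intermediate_value_Icc hle hcont.continuousOn
    (show (0 : ℝ) ∈ Set.Icc _ _ from ⟨hcon, hpos.le⟩)
  exact hne y (hx.trans hy.1) hy0

end chars

end Pool.Agent.LX
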