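import Mathlib

/-!
Project LX: the Dirichlet coefficients of `ζ L₁` and `ζ L₁ L₂ L₁₂` are nonnegative.
-/

set_option autoImplicit false

open Complex Filter Topology
open ArithmeticFunction hiding log
open scoped ComplexOrder

namespace Pool.Agent.LX

section coef

variable {N₁ N₂ N₃ : ℕ}

/-- the arithmetic function of a character -/
noncomputable def sgA {N : ℕ} (χ : DirichletCharacter ℂ N) : ArithmeticFunction ℂ :=
  toArithmeticFunction (χ ·)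

theorem sgA_apply {N : ℕ} (χ : DirichletCharacter ℂ N) {n : ℕ} (hn : n ≠ 0) :
    sgA χ n = χ (n : ZMod N) := by
  simp [sgA, toArithmeticFunction, hn]

theorem sgA_mult {N : ℕ} (χ : DirichletCharacter ℂ N) : (sgA χ).IsMultiplicative :=
  DirichletCharacter.isMultiplicative_toArithmeticFunction χ

theorem sgA_zetaMul {N : ℕ} (χ : DirichletCharacter ℂ N) :
    χ.zetaMul = ((ArithmeticFunction.zeta : ArithmeticFunction ℕ) : ArithmeticFunction ℂ) * sgA χ := rfl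

/-- multiplication by a character is compatible with the convolution -/
theorem sg_pmul_mul {N : ℕ} (χ : DirichletCharacter ℂ N) (f g : ArithmeticFunction ℂ) :
    (sgA χ).pmul (f * g) = (sgA χ).pmul f * (sgA χ).pmul g := by
  ext n
  rcases eq_or_ne n 0 with rfl | hn
  · simp
  rw [pmul_apply, mul_apply, mul_apply, Finset.mul_sum]
  apply Finset.sum_congr rfl
  intro x hx
  rw [Nat.mem_divisorsAntidiagonal] at hx
  have h1 : x.1 ≠ 0 := by
    rintro h0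
    apply hn
    rw [← hx.1, h0, zero_mul]
  have h2 : x.2 ≠ 0 := by
    rintro h0
    apply hn
    rw [← hx.1, h0, mul_zero]
  rw [pmul_apply, pmul_apply, sgA_apply χ hn, sgA_apply χ h1, sgA_apply χ h2, ← hx.1]
  push_cast
  rw [map_mul]
  ring

theorem sg_pmul_zeta {N : ℕ} (χ : DirichletCharacter ℂ N) :
    (sgA χ).pmul ((ArithmeticFunction.zeta : ArithmeticFunction ℕ) : ArithmeticFunction ℂ) = sgA χ := by
  ext n
  rcases eq_or_ne n 0 with rfl | hn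
  · simp
  rw [pmul_apply, natCoe_apply, zeta_apply_ne hn]
  push_cast
  rw [mul_one]

theorem sg_pmul_sgA (χ₁ : DirichletCharacter ℂ N₁) (χ₂ : DirichletCharacter ℂ N₂)
    (χ₃ : DirichletCharacter ℂ N₃)
    (h : ∀ k : ℕ, χ₃ (k : ZMod N₃) = χ₁ (k : ZMod N₁) * χ₂ (k : ZMod N₂)) :
    (sgA χ₁).pmul (sgA χ₂) = sgA χ₃ := by
  ext n
  rcases eq_or_ne n 0 with rfl | hn
  · simp
  rw [pmul_apply, sgA_apply χ₁ hn, sgA_apply χ₂ hn, sgA_apply χ₃ hn, h]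

/-- the coefficients of `ζ L₁ L₂ L₁₂` -/
noncomputable def sg4 (χ₁ : DirichletCharacter ℂ N₁) (χ₂ : DirichletCharacter ℂ N₂)
    (χ₃ : DirichletCharacter ℂ N₃) : ArithmeticFunction ℂ :=
  χ₁.zetaMul * (sgA χ₂ * sgA χ₃)

theorem sg4_eq (χ₁ : DirichletCharacter ℂ N₁) (χ₂ : DirichletCharacter ℂ N₂)
    (χ₃ : DirichletCharacter ℂ N₃)
    (h : ∀ k : ℕ, χ₃ (k : ZMod N₃) = χ₁ (k : ZMod N₁) * χ₂ (k : ZMod N₂)) :
    sg4 χ₁ χ₂ χ₃ = χ₁.zetaMul * (sgA χ₂).pmul χ₁.zetaMul := by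
  rw [sg4, sgA_zetaMul χ₁, sg_pmul_mul, sg_pmul_zeta,
    sg_pmul_sgA χ₂ χ₁ χ₃ (fun k => by rw [h, mul_comm])]

theorem sg4_comm (χ₁ : DirichletCharacter ℂ N₁) (χ₂ : DirichletCharacter ℂ N₂)
    (χ₃ : DirichletCharacter ℂ N₃) : sg4 χ₁ χ₂ χ₃ = sg4 χ₂ χ₁ χ₃ := by
  rw [sg4, sg4, sgA_zetaMul, sgA_zetaMul]
  ring

theorem sg4_mult (χ₁ : DirichletCharacter ℂ N₁) (χ₂ : DirichletCharacter ℂ N₂)
    (χ₃ : DirichletCharacter ℂ N₃) : (sg4 χ₁ χ₂ χ₃).IsMultiplicative :=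
  (χ₁.isMultiplicative_zetaMul).mul ((sgA_mult χ₂).mul (sgA_mult χ₃))

/-- the value at a prime power of a product, when the factors are nonnegative -/
theorem sg_mul_nonneg (f g : ArithmeticFunction ℂ) {p : ℕ} (hp : p.Prime) (k : ℕ)
    (hf : ∀ j, 0 ≤ f (p ^ j)) (hg : ∀ j, 0 ≤ g (p ^ j)) : 0 ≤ (f * g) (p ^ k) := by
  rw [mul_apply]
  apply Finset.sum_nonneg
  intro x hx
  rw [Nat.mem_divisorsAntidiagonal] at hx
  obtain ⟨i, -, hi⟩ := (Nat.dvd_prime_pow hp).1 (Dvd.intro _ hx.1)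
  obtain ⟨j, -, hj⟩ := (Nat.dvd_prime_pow hp).1 (Dvd.intro_left _ hx.1)
  rw [hi, hj]
  exact mul_nonneg (hf i) (hg j)

theorem sg4_prime_pow_aux (χ₁ : DirichletCharacter ℂ N₁) (χ₂ : DirichletCharacter ℂ N₂)
    (χ₃ : DirichletCharacter ℂ N₃)
    (h : ∀ k : ℕ, χ₃ (k : ZMod N₃) = χ₁ (k : ZMod N₁) * χ₂ (k : ZMod N₂)) (h₁ : χ₁ ^ 2 = 1)
    {p : ℕ} (hp : p.Prime) (h₂ : 0 ≤ χ₂ (p : ZMod N₂)) (k : ℕ) :
    0 ≤ sg4 χ₁ χ₂ χ₃ (p ^ k) := by
  rw [sg4_eq χ₁ χ₂ χ₃ h]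
  apply sg_mul_nonneg _ _ hp
  · exact fun j => DirichletCharacter.zetaMul_prime_pow_nonneg h₁ hp j
  · intro j
    rw [pmul_apply, sgA_apply χ₂ (pow_ne_zero j hp.ne_zero)]
    apply mul_nonneg
    · push_cast
      rw [map_pow]
      exact pow_nonneg h₂ j
    · exact DirichletCharacter.zetaMul_prime_pow_nonneg h₁ hp j

theorem sg4_prime_pow (χ₁ : DirichletCharacter ℂ N₁) (χ₂ : DirichletCharacter ℂ N₂)
    (χ₃ : DirichletCharacter ℂ N₃)
    (h : ∀ k : ℕ, χ₃ (k : ZMod N₃) = χ₁ (k : ZMod N₁) * χ₂ (k : ZMod N₂)) (h₁ : χ₁ ^ 2 = 1)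
    (h₂ : χ₂ ^ 2 = 1) {p : ℕ} (hp : p.Prime) (k : ℕ) : 0 ≤ sg4 χ₁ χ₂ χ₃ (p ^ k) := by
  rcases MulChar.isQuadratic_iff_sq_eq_one.mpr h₂ p with h3 | h3 | h3
  · exact sg4_prime_pow_aux χ₁ χ₂ χ₃ h h₁ hp (by rw [h3]) k
  · exact sg4_prime_pow_aux χ₁ χ₂ χ₃ h h₁ hp (by rw [h3]; exact zero_le_one) k
  rcases MulChar.isQuadratic_iff_sq_eq_one.mpr h₁ p with h4 | h4 | h4
  · rw [sg4_comm]
    exact sg4_prime_pow_aux χ₂ χ₁ χ₃ (fun k => by rw [h, mul_comm]) h₂ hp (by rw [h4]) k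
  · rw [sg4_comm]
    exact sg4_prime_pow_aux χ₂ χ₁ χ₃ (fun k => by rw [h, mul_comm]) h₂ hp
      (by rw [h4]; exact zero_le_one) k
  rw [sg4_eq χ₁ χ₂ χ₃ h]
  have hz : ∀ j, χ₁.zetaMul (p ^ j) = if Even j then 1 else 0 := by
    intro j
    rw [DirichletCharacter.zetaMul, coe_zeta_mul_apply, Nat.sum_divisors_prime_pow hp]
    have h5 : ∀ i ∈ Finset.range (j + 1), (toArithmeticFunction (χ₁ ·)) (p ^ i) = (-1 : ℂ) ^ i := by
      intro i _
      have h6 := sgA_apply χ₁ (pow_ne_zero i hp.ne_zero)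
      rw [Nat.cast_pow, map_pow χ₁, h4] at h6
      exact h6
    rw [Finset.sum_congr rfl h5, neg_one_geom_sum]
    by_cases hj : Even j
    · rw [if_pos hj, if_neg (by rw [Nat.even_add_one, not_not]; exact hj)]
    · rw [if_neg hj, if_pos (by rw [Nat.even_add_one]; exact hj)]
  apply sg_mul_nonneg _ _ hp
  · intro j
    rw [hz]
    split_ifs
    · exact zero_le_one
    · exact le_rfl
  · intro j
    rw [pmul_apply, sgA_apply χ₂ (pow_ne_zero j hp.ne_zero), hz]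
    push_cast
    rw [map_pow, h3]
    split_ifs with hj
    · rw [hj.neg_one_pow, one_mul]
      exact zero_le_one
    · rw [mul_zero]

theorem sg4_nonneg (χ₁ : DirichletCharacter ℂ N₁) (χ₂ : DirichletCharacter ℂ N₂)
    (χ₃ : DirichletCharacter ℂ N₃)
    (h : ∀ k : ℕ, χ₃ (k : ZMod N₃) = χ₁ (k : ZMod N₁) * χ₂ (k : ZMod N₂)) (h₁ : χ₁ ^ 2 = 1)
    (h₂ : χ₂ ^ 2 = 1) (n : ℕ) : 0 ≤ sg4 χ₁ χ₂ χ₃ n := by
  rcases eq_or_ne n 0 with rfl | hn
  · simp only [ArithmeticFunction.map_zero, le_refl]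
  · rw [(sg4_mult χ₁ χ₂ χ₃).multiplicative_factorization _ hn]
    exact Finset.prod_nonneg fun p hp =>
      sg4_prime_pow χ₁ χ₂ χ₃ h h₁ h₂ (Nat.prime_of_mem_primeFactors hp) _

/-! ### L-series -/

theorem sgA_summable {N : ℕ} [NeZero N] (χ : DirichletCharacter ℂ N) {s : ℂ} (hs : 1 < s.re) :
    LSeriesSummable (fun n => sgA χ n) s := by
  have h1 : LSeriesSummable (fun n : ℕ => χ (n : ZMod N)) s :=
    ZMod.LSeriesSummable_of_one_lt_re χ hs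
  refine (LSeriesSummable_congr s (f := fun n => sgA χ n) (g := fun n : ℕ => χ (n : ZMod N))
    ?_).2 h1
  intro n hn
  exact sgA_apply χ hn

theorem sgA_LSeries {N : ℕ} [NeZero N] (χ : DirichletCharacter ℂ N) {s : ℂ} (hs : 1 < s.re) :
    LSeries (fun n => sgA χ n) s = χ.LFunction s := by
  rw [χ.LFunction_eq_LSeries hs]
  refine LSeries_congr (f := fun n => sgA χ n) (g := fun n : ℕ => χ (n : ZMod N)) ?_ s
  intro n hn
  exact sgA_apply χ hn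

theorem zetaMul_LSeries {N : ℕ} [NeZero N] (χ : DirichletCharacter ℂ N) {s : ℂ}
    (hs : 1 < s.re) :
    LSeries (fun n => χ.zetaMul n) s = riemannZeta s * χ.LFunction s := by
  have h0 : LSeriesSummable (fun n =>
      (((ArithmeticFunction.zeta : ArithmeticFunction ℕ) : ArithmeticFunction ℂ) n)) s := by
    simp_rw [natCoe_apply]
    exact LSeriesSummable_zeta_iff.mpr hs
  have h2 : LSeries (fun n =>
      (((ArithmeticFunction.zeta : ArithmeticFunction ℕ) : ArithmeticFunction ℂ) n)) s =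
        riemannZeta s := by
    simp_rw [natCoe_apply]
    exact LSeries_zeta_eq_riemannZeta hs
  have h1 := ArithmeticFunction.LSeries_mul' h0 (sgA_summable χ hs)
  rw [h2, sgA_LSeries χ hs] at h1
  rw [sgA_zetaMul]
  exact h1

theorem sg4_summable [NeZero N₁] [NeZero N₂] [NeZero N₃] (χ₁ : DirichletCharacter ℂ N₁)
    (χ₂ : DirichletCharacter ℂ N₂) (χ₃ : DirichletCharacter ℂ N₃) {s : ℂ} (hs : 1 < s.re) :
    LSeriesSummable (fun n => sg4 χ₁ χ₂ χ₃ n) s := by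
  unfold sg4
  have h1 : LSeriesSummable (fun n => (sgA χ₂ * sgA χ₃) n) s :=
    ArithmeticFunction.LSeriesSummable_mul (sgA_summable χ₂ hs) (sgA_summable χ₃ hs)
  exact ArithmeticFunction.LSeriesSummable_mul (χ₁.LSeriesSummable_zetaMul hs) h1

theorem sg4_LSeries [NeZero N₁] [NeZero N₂] [NeZero N₃] (χ₁ : DirichletCharacter ℂ N₁)
    (χ₂ : DirichletCharacter ℂ N₂) (χ₃ : DirichletCharacter ℂ N₃) {s : ℂ} (hs : 1 < s.re) :
    LSeries (fun n => sg4 χ₁ χ₂ χ₃ n) s =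
      riemannZeta s * (χ₁.LFunction s * (χ₂.LFunction s * χ₃.LFunction s)) := by
  have h1 : LSeriesSummable (fun n => (sgA χ₂ * sgA χ₃) n) s :=
    ArithmeticFunction.LSeriesSummable_mul (sgA_summable χ₂ hs) (sgA_summable χ₃ hs)
  have h2 : LSeries (fun n => (sgA χ₂ * sgA χ₃) n) s = χ₂.LFunction s * χ₃.LFunction s := by
    rw [← sgA_LSeries χ₂ hs, ← sgA_LSeries χ₃ hs]
    exact ArithmeticFunction.LSeries_mul' (sgA_summable χ₂ hs) (sgA_summable χ₃ hs)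
  have h3 : LSeries (fun n => sg4 χ₁ χ₂ χ₃ n) s =
      LSeries (fun n => χ₁.zetaMul n) s * LSeries (fun n => (sgA χ₂ * sgA χ₃) n) s := by
    unfold sg4
    exact ArithmeticFunction.LSeries_mul' (χ₁.LSeriesSummable_zetaMul hs) h1
  rw [h3, h2, zetaMul_LSeries χ₁ hs, mul_assoc]

end coef

end Pool.Agent.LX
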