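import Pool.Agent.LX.Defs
import Pool.Agent.LX.LBound
import Pool.Agent.LX.Estermann
import Pool.Agent.LX.SiegelAn

/-!
Project LX: the theorem of Siegel for two real characters, for given characters.
-/

set_option autoImplicit false

open Complex Filter Topology Metric
open scoped ComplexOrder

namespace Pool.Agent.LX

theorem sg_est (A : ArithmeticFunction ℂ) (hA : ∀ n, 0 ≤ A n) (hA1 : A 1 = 1)
    (hs : ∀ s : ℂ, 1 < s.re → LSeriesSummable (fun n => A n) s) (H : ℂ → ℂ)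
    (hH : Differentiable ℂ H)
    (hL : ∀ s : ℂ, 1 < s.re → LSeries (fun n => A n) s = riemannZeta s * H s) (l : ℝ)
    (hl : H 1 = (l : ℂ)) (T : ℝ) (hT : 1 ≤ T)
    (hb : ∀ s : ℂ, ‖s - 2‖ = 3 / 2 → ‖riemannZeta s‖ * ‖H s‖ + 2 * |l| ≤ T) (β : ℝ)
    (hβ : 7 / 8 < β) (hβ1 : β < 1) (hneg : (riemannZeta (β : ℂ) * H (β : ℂ)).re ≤ 0) :
    (1 - β) / 10 * T ^ (-(4 * (1 - β))) ≤ l := by
  obtain ⟨G, hG, hGs⟩ := sg_exists_G H hH
  have hre : ∀ n, (((A n).re : ℝ) : ℂ) = A n := by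
    intro n
    apply Complex.ext
    · simp
    · rw [Complex.ofReal_im]
      exact (Complex.nonneg_iff.1 (hA n)).2
  have hfun : (fun k => (((A k).re : ℝ) : ℂ)) = fun n => A n := funext hre
  refine estermann (fun k => (A k).re) (fun k => (Complex.nonneg_iff.1 (hA k)).1) ?_ ?_ G hG l ?_
    T hT ?_ β hβ hβ1 ?_
  · change 1 ≤ (A 1).re
    rw [hA1, Complex.one_re]
  · intro σ hσ
    change LSeriesSummable (fun k => (((A k).re : ℝ) : ℂ)) σ
    rw [hfun]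
    exact hs _ (by simpa using hσ)
  · intro s hs1
    change LSeries (fun k => (((A k).re : ℝ) : ℂ)) s = _
    have hne : s ≠ 1 := by
      rintro rfl
      rw [Complex.one_re] at hs1
      exact lt_irrefl _ hs1
    rw [hfun, hL s hs1, hGs s hne, hl]
    ring
  · intro s hs1
    obtain ⟨-, -, h3, h4⟩ := sg_circle hs1
    rw [hGs s h4, hl]
    refine (norm_sub_le _ _).trans (le_trans ?_ (hb s hs1))
    rw [norm_mul, norm_div, Complex.norm_real, Real.norm_eq_abs]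
    have h5 : |l| / ‖s - 1‖ ≤ 2 * |l| := by
      rw [div_le_iff₀ (by linarith)]
      nlinarith [abs_nonneg l]
    linarith
  · have hne : (β : ℂ) ≠ 1 := by exact_mod_cast hβ1.ne
    rw [hGs _ hne, hl, Complex.sub_re]
    have h5 : ((l : ℂ) / ((β : ℂ) - 1)) = ((l / (β - 1) : ℝ) : ℂ) := by push_cast; rfl
    rw [h5, Complex.ofReal_re]
    have h6 : l / (1 - β) = - (l / (β - 1)) := by
      rw [← div_neg, neg_sub]
    rw [h6]
    linarith

/-- bounds for the L-functions -/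
theorem sg_bounds {N q : ℕ} [NeZero N] (hN : N ≤ q) (χ : DirichletCharacter ℂ N) (hχ : χ ≠ 1) :
    (∀ s : ℂ, ‖s - 2‖ = 3 / 2 → ‖χ.LFunction s‖ ≤ 38 * (q : ℝ)) ∧
      ‖χ.LFunction 1‖ ≤ Real.log q + 16 := by
  have hN1 : (1 : ℝ) ≤ N := by
    exact_mod_cast Nat.one_le_iff_ne_zero.2 (NeZero.ne N)
  have hNq : (N : ℝ) ≤ q := by exact_mod_cast hN
  have hq1 : (1 : ℝ) ≤ q := hN1.trans hNq
  have hlog : Real.log N ≤ Real.log q := Real.log_le_log (by linarith) hNq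
  have hlog0 : 0 ≤ Real.log N := Real.log_nonneg hN1
  constructor
  · intro s hs
    obtain ⟨h1, h2, -, -⟩ := sg_circle hs
    refine (LFunction_bound N χ hχ (1 / 2) (by norm_num) le_rfl s (by linarith)).trans ?_
    have h3 : (N : ℝ) ^ (1 / 2 : ℝ) ≤ (q : ℝ) ^ (1 / 2 : ℝ) :=
      Real.rpow_le_rpow (by linarith) hNq (by norm_num)
    have h4 : Real.log q ≤ (q : ℝ) ^ (1 / 2 : ℝ) / (1 / 2) :=
      Real.log_le_rpow_div (by linarith) (by norm_num)
    have h5 : 1 ≤ (q : ℝ) ^ (1 / 2 : ℝ) := Real.one_le_rpow hq1 (by norm_num)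
    have h6 : (q : ℝ) ^ (1 / 2 : ℝ) * (q : ℝ) ^ (1 / 2 : ℝ) = q := by
      rw [← Real.rpow_add (by linarith)]
      norm_num
    have h7 : Real.log N + 8 * ‖s‖ + 8 ≤ 38 * (q : ℝ) ^ (1 / 2 : ℝ) := by linarith
    calc (N : ℝ) ^ (1 / 2 : ℝ) * (Real.log N + 8 * ‖s‖ + 8)
        ≤ (q : ℝ) ^ (1 / 2 : ℝ) * (38 * (q : ℝ) ^ (1 / 2 : ℝ)) :=
          mul_le_mul h3 h7 (by positivity) (by positivity)
      _ = 38 * ((q : ℝ) ^ (1 / 2 : ℝ) * (q : ℝ) ^ (1 / 2 : ℝ)) := by ring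
      _ = 38 * (q : ℝ) := by rw [h6]
  · have h3 := LFunction_bound N χ hχ 0 le_rfl (by norm_num) 1 (by simp)
    rw [Real.rpow_zero, norm_one] at h3
    linarith

/-- the derivative near `1` -/
theorem sg_deriv {N q : ℕ} [NeZero N] (hN : N ≤ q) (χ : DirichletCharacter ℂ N) (hχ : χ ≠ 1)
    {η : ℝ} (h0 : 0 < η) (h16 : η ≤ 1 / 16) {β : ℝ} (hβ : 1 - η ≤ β) (hβ1 : β < 1)
    (hz : χ.LFunction (β : ℂ) = 0) :
    ‖χ.LFunction 1‖ ≤ (q : ℝ) ^ (2 * η) * (Real.log q + 24) / η * (1 - β) := by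
  have hN1 : (1 : ℝ) ≤ N := by
    exact_mod_cast Nat.one_le_iff_ne_zero.2 (NeZero.ne N)
  have hNq : (N : ℝ) ≤ q := by exact_mod_cast hN
  have hq1 : (1 : ℝ) ≤ q := hN1.trans hNq
  have hlog : Real.log N ≤ Real.log q := Real.log_le_log (by linarith) hNq
  have hlog0 : 0 ≤ Real.log N := Real.log_nonneg hN1
  have hdiff := χ.differentiable_LFunction hχ
  have hder : ∀ z ∈ closedBall (1 : ℂ) η,
      ‖deriv χ.LFunction z‖ ≤ (q : ℝ) ^ (2 * η) * (Real.log q + 24) / η := by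
    intro z hz1
    rw [mem_closedBall, dist_eq_norm] at hz1
    apply Complex.norm_deriv_le_of_forall_mem_sphere_norm_le h0 hdiff.diffContOnCl
    intro w hw
    rw [mem_sphere, dist_eq_norm] at hw
    have h1 : ‖w - 1‖ ≤ 2 * η := by
      have h2 := norm_add_le (w - z) (z - 1)
      rw [sub_add_sub_cancel, hw] at h2
      linarith
    have h2 : |(w - 1).re| ≤ 2 * η := (Complex.abs_re_le_norm _).trans h1
    rw [Complex.sub_re, Complex.one_re, abs_le] at h2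
    have h3 : ‖w‖ ≤ 2 := by
      have h4 := norm_add_le (w - 1) 1
      rw [sub_add_cancel, norm_one] at h4
      linarith
    refine (LFunction_bound N χ hχ (2 * η) (by linarith) (by linarith) w
      (by linarith [h2.1])).trans ?_
    apply mul_le_mul (Real.rpow_le_rpow (by linarith) hNq (by linarith)) (by linarith)
      (by positivity) (by positivity)
  have h1 : (1 : ℂ) ∈ closedBall (1 : ℂ) η := mem_closedBall_self h0.le
  have h2 : (β : ℂ) ∈ closedBall (1 : ℂ) η := by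
    rw [mem_closedBall, dist_eq_norm]
    have : ((β : ℂ) - 1) = ((β - 1 : ℝ) : ℂ) := by push_cast; rfl
    rw [this, Complex.norm_real, Real.norm_eq_abs, abs_le]
    constructor <;> linarith
  have h3 := (convex_closedBall (1 : ℂ) η).norm_image_sub_le_of_norm_deriv_le
    (𝕜 := ℂ) (f := χ.LFunction) (fun z _ => hdiff z) hder h2 h1
  rw [hz, sub_zero] at h3
  have h4 : ‖(1 : ℂ) - (β : ℂ)‖ = 1 - β := by
    have : ((1 : ℂ) - (β : ℂ)) = ((1 - β : ℝ) : ℂ) := by push_cast; rfl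
    rw [this, Complex.norm_real, Real.norm_eq_abs, abs_of_pos (by linarith)]
  rw [h4] at h3
  exact h3

theorem sg_core (η : ℝ) (h0 : 0 < η) (h16 : η ≤ 1 / 16)
    (hz : (riemannZeta ((1 - η : ℝ) : ℂ)).re < 0) :
    ∃ c : ℝ, 0 < c ∧ ∀ (q N₁ N₂ N₃ : ℕ) [NeZero N₁] [NeZero N₂] [NeZero N₃], N₁ ≤ q → N₂ ≤ q →
      N₃ ≤ q → ∀ (χ₁ : DirichletCharacter ℂ N₁) (χ₂ : DirichletCharacter ℂ N₂)
      (χ₃ : DirichletCharacter ℂ N₃), χ₁ ≠ 1 → χ₂ ≠ 1 → χ₃ ≠ 1 → χ₁ ^ 2 = 1 → χ₂ ^ 2 = 1 →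
      χ₃ ^ 2 = 1 →
      (∀ k : ℕ, χ₃ (k : ZMod N₃) = χ₁ (k : ZMod N₁) * χ₂ (k : ZMod N₂)) →
      c * (q : ℝ) ^ (-(16 * η)) ≤ max (χ₁.LFunction 1).re (χ₂.LFunction 1).re := by
  obtain ⟨Cz, hCz0, hCz⟩ := sg_zeta_circle
  set C₃ : ℝ := (Cz + 2) * 38 ^ 3 with hC₃
  have hC₃1 : 1 ≤ C₃ := by rw [hC₃]; nlinarith
  refine ⟨η / 10 * C₃ ^ (-(4 * η)) * ((1 / η + 24) ^ 2)⁻¹, by positivity, ?_⟩
  intro q N₁ N₂ N₃ _ _ _ hN₁ hN₂ hN₃ χ₁ χ₂ χ₃ h₁ h₂ h₃ s₁ s₂ s₃ hmul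
  have hq1 : (1 : ℝ) ≤ q := by
    have : 1 ≤ q := le_trans (Nat.one_le_iff_ne_zero.2 (NeZero.ne N₁)) hN₁
    exact_mod_cast this
  obtain ⟨b₁, c₁⟩ := sg_bounds hN₁ χ₁ h₁
  obtain ⟨b₂, c₂⟩ := sg_bounds hN₂ χ₂ h₂
  obtain ⟨b₃, c₃⟩ := sg_bounds hN₃ χ₃ h₃
  have hlogq : Real.log q ≤ q := by
    have := Real.log_le_sub_one_of_pos (show (0 : ℝ) < q by linarith)
    linarith
  have hlogq0 : 0 ≤ Real.log q := Real.log_nonneg hq1
  have e₁ : χ₁.LFunction 1 = (((χ₁.LFunction 1).re : ℝ) : ℂ) := by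
    have := sg_L_eq s₁ h₁ 1
    rwa [Complex.ofReal_one] at this
  have e₂ : χ₂.LFunction 1 = (((χ₂.LFunction 1).re : ℝ) : ℂ) := by
    have := sg_L_eq s₂ h₂ 1
    rwa [Complex.ofReal_one] at this
  have e₃ : χ₃.LFunction 1 = (((χ₃.LFunction 1).re : ℝ) : ℂ) := by
    have := sg_L_eq s₃ h₃ 1
    rwa [Complex.ofReal_one] at this
  -- the parameter T
  set T : ℝ := C₃ * (q : ℝ) ^ 3 with hT
  have hq3 : (1 : ℝ) ≤ (q : ℝ) ^ 3 := one_le_pow₀ hq1
  have hT1 : 1 ≤ T := by rw [hT]; nlinarith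
  have hqq3 : (q : ℝ) ≤ (q : ℝ) ^ 3 := by
    calc (q : ℝ) = (q : ℝ) ^ 1 := (pow_one _).symm
      _ ≤ (q : ℝ) ^ 3 := pow_le_pow_right₀ hq1 (by norm_num)
  have hTpow : T ^ (-(4 * η)) = C₃ ^ (-(4 * η)) * (q : ℝ) ^ (-(12 * η)) := by
    rw [hT, Real.mul_rpow (by linarith) (by linarith), ← Real.rpow_natCast (q : ℝ) 3,
      ← Real.rpow_mul (by linarith)]
    congr 2
    push_cast
    ring
  have hη24 : 1 ≤ 1 / η + 24 := by
    have : 0 < 1 / η := by positivity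
    linarith
  have hinv1 : ((1 / η + 24) ^ 2)⁻¹ ≤ 1 := inv_le_one_of_one_le₀ (one_le_pow₀ hη24)
  by_cases hcase : ∀ x : ℝ, 1 - η ≤ x → x < 1 → χ₁.LFunction (x : ℂ) ≠ 0
  · -- no zero
    refine le_trans ?_ (le_max_left _ _)
    have hpos := sg_L_re_pos s₁ h₁ hcase le_rfl
    have h := sg_est χ₁.zetaMul (DirichletCharacter.zetaMul_nonneg s₁)
      χ₁.isMultiplicative_zetaMul.map_one (fun s hs => χ₁.LSeriesSummable_zetaMul hs)
      χ₁.LFunction (χ₁.differentiable_LFunction h₁) (fun s hs => zetaMul_LSeries χ₁ hs)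
      (χ₁.LFunction 1).re e₁ T hT1 ?_ (1 - η) (by linarith) (by linarith) ?_
    · rw [show (1 - (1 - η)) = η by ring, hTpow] at h
      refine le_trans ?_ h
      have h5 : (q : ℝ) ^ (-(16 * η)) ≤ (q : ℝ) ^ (-(12 * η)) :=
        Real.rpow_le_rpow_of_exponent_le hq1 (by linarith)
      have hC : 0 < C₃ ^ (-(4 * η)) := Real.rpow_pos_of_pos (by linarith) _
      have hq0 : 0 < (q : ℝ) ^ (-(16 * η)) := Real.rpow_pos_of_pos (by linarith) _
      calc η / 10 * C₃ ^ (-(4 * η)) * ((1 / η + 24) ^ 2)⁻¹ * (q : ℝ) ^ (-(16 * η))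
          ≤ η / 10 * C₃ ^ (-(4 * η)) * 1 * (q : ℝ) ^ (-(12 * η)) := by
            apply mul_le_mul _ h5 hq0.le (by positivity)
            exact mul_le_mul_of_nonneg_left hinv1 (by positivity)
        _ = η / 10 * (C₃ ^ (-(4 * η)) * (q : ℝ) ^ (-(12 * η))) := by ring
    · intro s hs
      have h5 := hCz s hs
      have h6 := b₁ s hs
      have h7 : |(χ₁.LFunction 1).re| ≤ Real.log q + 16 := (Complex.abs_re_le_norm _).trans c₁
      have h8 : ‖riemannZeta s‖ * ‖χ₁.LFunction s‖ ≤ Cz * (38 * q) :=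
        mul_le_mul h5 h6 (norm_nonneg _) hCz0
      rw [hT, hC₃]
      nlinarith [mul_nonneg hCz0 (sub_nonneg.2 hqq3)]
    · have h5 := sg_zeta_im (x := 1 - η) (by linarith)
      rw [Complex.mul_re, h5, zero_mul, sub_zero]
      exact (mul_neg_of_neg_of_pos hz hpos).le
  · -- a zero
    push Not at hcase
    obtain ⟨β, hβ, hβ1, hβz⟩ := hcase
    refine le_trans ?_ (le_max_right _ _)
    set M₁ : ℝ := (χ₁.LFunction 1).re with hM₁
    set M₂ : ℝ := (χ₂.LFunction 1).re with hM₂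
    set M₃ : ℝ := (χ₃.LFunction 1).re with hM₃
    have h := sg_est (sg4 χ₁ χ₂ χ₃) (sg4_nonneg χ₁ χ₂ χ₃ hmul s₁ s₂)
      (sg4_mult χ₁ χ₂ χ₃).map_one (fun s hs => sg4_summable χ₁ χ₂ χ₃ hs)
      (fun s => χ₁.LFunction s * (χ₂.LFunction s * χ₃.LFunction s))
      ((χ₁.differentiable_LFunction h₁).mul ((χ₂.differentiable_LFunction h₂).mul
        (χ₃.differentiable_LFunction h₃))) (fun s hs => sg4_LSeries χ₁ χ₂ χ₃ hs)
      (M₁ * (M₂ * M₃)) ?_ T hT1 ?_ β (by linarith) hβ1 ?_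
    · have hd := sg_deriv hN₁ χ₁ h₁ h0 h16 hβ hβ1 hβz
      have hM₁' : |M₁| ≤ (q : ℝ) ^ (2 * η) * (Real.log q + 24) / η * (1 - β) :=
        (Complex.abs_re_le_norm _).trans hd
      have hM₃' : |M₃| ≤ Real.log q + 16 := (Complex.abs_re_le_norm _).trans c₃
      have hM₂0 : 0 ≤ M₂ := by
        have := sg_L_re_pos s₂ h₂ (b := 1) (fun x hx hx1 => absurd hx1 (not_lt.2 hx)) le_rfl
        rw [Complex.ofReal_one] at this
        exact this.le
      have h1β : 0 < 1 - β := by linarith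
      -- lower bound of the product
      have hT' : T ^ (-(4 * η)) ≤ T ^ (-(4 * (1 - β))) :=
        Real.rpow_le_rpow_of_exponent_le hT1 (by linarith)
      have hlow : (1 - β) / 10 * (C₃ ^ (-(4 * η)) * (q : ℝ) ^ (-(12 * η))) ≤
          M₁ * (M₂ * M₃) := by
        rw [← hTpow]
        exact le_trans (mul_le_mul_of_nonneg_left hT' (by positivity)) h
      -- upper bound
      have hup : M₁ * (M₂ * M₃) ≤
          ((q : ℝ) ^ (2 * η) * (Real.log q + 24) / η * (1 - β)) * (M₂ * (Real.log q + 24)) := by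
        calc M₁ * (M₂ * M₃) ≤ |M₁ * (M₂ * M₃)| := le_abs_self _
          _ = |M₁| * (M₂ * |M₃|) := by rw [abs_mul, abs_mul, abs_of_nonneg hM₂0]
          _ ≤ _ := by
            apply mul_le_mul hM₁' _ (by positivity) (by positivity)
            exact mul_le_mul_of_nonneg_left (by linarith) hM₂0
      have hlogη : Real.log q + 24 ≤ (1 / η + 24) * (q : ℝ) ^ η := by
        have h5 : Real.log q ≤ (q : ℝ) ^ η / η := Real.log_le_rpow_div (by linarith) h0
        have h6 : 1 ≤ (q : ℝ) ^ η := Real.one_le_rpow hq1 h0.le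
        have h7 : (1 / η + 24) * (q : ℝ) ^ η = (q : ℝ) ^ η / η + 24 * (q : ℝ) ^ η := by ring
        rw [h7]
        linarith
      have hq2 : 0 < (q : ℝ) ^ (2 * η) := Real.rpow_pos_of_pos (by linarith) _
      have hqη : 0 < (q : ℝ) ^ η := Real.rpow_pos_of_pos (by linarith) _
      have hsq : (Real.log q + 24) * (Real.log q + 24) ≤
          (1 / η + 24) ^ 2 * ((q : ℝ) ^ η * (q : ℝ) ^ η) := by
        calc (Real.log q + 24) * (Real.log q + 24)
            ≤ ((1 / η + 24) * (q : ℝ) ^ η) * ((1 / η + 24) * (q : ℝ) ^ η) :=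
              mul_le_mul hlogη hlogη (by linarith) (by positivity)
          _ = _ := by ring
      have hpow4 : (q : ℝ) ^ (2 * η) * ((q : ℝ) ^ η * (q : ℝ) ^ η) = (q : ℝ) ^ (4 * η) := by
        rw [← Real.rpow_add (by linarith), ← Real.rpow_add (by linarith)]
        congr 1
        ring
      have hfin : (1 - β) / 10 * (C₃ ^ (-(4 * η)) * (q : ℝ) ^ (-(12 * η))) ≤
          (1 - β) * (M₂ * (1 / η * ((1 / η + 24) ^ 2 * (q : ℝ) ^ (4 * η)))) := by
        refine hlow.trans (hup.trans ?_)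
        rw [← hpow4]
        have h8 := mul_le_mul_of_nonneg_left hsq
          (show 0 ≤ (1 - β) * (M₂ * (1 / η * (q : ℝ) ^ (2 * η))) by positivity)
        calc ((q : ℝ) ^ (2 * η) * (Real.log q + 24) / η * (1 - β)) * (M₂ * (Real.log q + 24))
            = (1 - β) * (M₂ * (1 / η * (q : ℝ) ^ (2 * η))) *
                ((Real.log q + 24) * (Real.log q + 24)) := by ring
          _ ≤ _ := h8
          _ = _ := by ring
      have hfin2 : 1 / 10 * (C₃ ^ (-(4 * η)) * (q : ℝ) ^ (-(12 * η))) ≤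
          M₂ * (1 / η * ((1 / η + 24) ^ 2 * (q : ℝ) ^ (4 * η))) := by
        have h9 : (1 - β) * (1 / 10 * (C₃ ^ (-(4 * η)) * (q : ℝ) ^ (-(12 * η)))) ≤
            (1 - β) * (M₂ * (1 / η * ((1 / η + 24) ^ 2 * (q : ℝ) ^ (4 * η)))) := by
          refine le_trans (le_of_eq ?_) hfin
          ring
        exact le_of_mul_le_mul_left h9 h1β
      -- divide
      have hpow16 : (q : ℝ) ^ (-(12 * η)) = (q : ℝ) ^ (-(16 * η)) * (q : ℝ) ^ (4 * η) := by
        rw [← Real.rpow_add (by linarith)]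
        congr 1
        ring
      rw [hpow16] at hfin2
      have hq4 : 0 < (q : ℝ) ^ (4 * η) := Real.rpow_pos_of_pos (by linarith) _
      have hK : 0 < 1 / η * (1 / η + 24) ^ 2 := by positivity
      have hfin3 : (1 / η * (1 / η + 24) ^ 2 * (q : ℝ) ^ (4 * η)) *
          (η / 10 * C₃ ^ (-(4 * η)) * ((1 / η + 24) ^ 2)⁻¹ * (q : ℝ) ^ (-(16 * η))) ≤
          (1 / η * (1 / η + 24) ^ 2 * (q : ℝ) ^ (4 * η)) * M₂ := by
        calc (1 / η * (1 / η + 24) ^ 2 * (q : ℝ) ^ (4 * η)) *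
            (η / 10 * C₃ ^ (-(4 * η)) * ((1 / η + 24) ^ 2)⁻¹ * (q : ℝ) ^ (-(16 * η)))
            = (1 / η * η) * ((1 / η + 24) ^ 2 * ((1 / η + 24) ^ 2)⁻¹) *
              (1 / 10 * (C₃ ^ (-(4 * η)) * ((q : ℝ) ^ (-(16 * η)) * (q : ℝ) ^ (4 * η)))) := by
              ring
          _ = 1 / 10 * (C₃ ^ (-(4 * η)) * ((q : ℝ) ^ (-(16 * η)) * (q : ℝ) ^ (4 * η))) := by
              rw [one_div_mul_cancel h0.ne', mul_inv_cancel₀ (by positivity), one_mul, one_mul]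
          _ ≤ _ := hfin2
          _ = _ := by ring
      exact le_of_mul_le_mul_left hfin3 (by positivity)
    · change χ₁.LFunction 1 * (χ₂.LFunction 1 * χ₃.LFunction 1) = _
      rw [e₁, e₂, e₃]
      push_cast
      rfl
    · intro s hs
      have h5 := hCz s hs
      have h6 : ‖χ₁.LFunction s * (χ₂.LFunction s * χ₃.LFunction s)‖ ≤
          38 * q * (38 * q * (38 * q)) := by
        rw [norm_mul, norm_mul]
        exact mul_le_mul (b₁ s hs) (mul_le_mul (b₂ s hs) (b₃ s hs) (norm_nonneg _)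
          (by positivity)) (by positivity) (by positivity)
      have h7 : ∀ M : ℝ, |M| ≤ Real.log q + 16 → |M| ≤ 38 * q := fun M hM => by linarith
      have h8 : |M₁ * (M₂ * M₃)| ≤ 38 * q * (38 * q * (38 * q)) := by
        rw [abs_mul, abs_mul]
        exact mul_le_mul (h7 _ ((Complex.abs_re_le_norm _).trans c₁))
          (mul_le_mul (h7 _ ((Complex.abs_re_le_norm _).trans c₂))
            (h7 _ ((Complex.abs_re_le_norm _).trans c₃)) (abs_nonneg _) (by positivity))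
          (by positivity) (by positivity)
      have h9 : ‖riemannZeta s‖ * ‖χ₁.LFunction s * (χ₂.LFunction s * χ₃.LFunction s)‖ ≤
          Cz * (38 * q * (38 * q * (38 * q))) := mul_le_mul h5 h6 (norm_nonneg _) hCz0
      change ‖riemannZeta s‖ * ‖χ₁.LFunction s * (χ₂.LFunction s * χ₃.LFunction s)‖ +
        2 * |M₁ * (M₂ * M₃)| ≤ T
      have h10 : T = Cz * (38 * q * (38 * q * (38 * q))) + 2 * (38 * q * (38 * q * (38 * q))) := by
        rw [hT, hC₃]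
        ring
      rw [h10]
      linarith
    · change (riemannZeta (β : ℂ) * (χ₁.LFunction (β : ℂ) *
        (χ₂.LFunction (β : ℂ) * χ₃.LFunction (β : ℂ)))).re ≤ 0
      rw [hβz, zero_mul, mul_zero, Complex.zero_re]

end Pool.Agent.LX
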