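import Pool.Agent.LX.Defs

set_option autoImplicit false

/-!
Project LX, part G1: the number of pairs `(x, y)` with prescribed Gram matrix of `(u, x, y)`.
-/

open Matrix

set_option linter.unusedSimpArgs false

namespace Pool.Agent.LX

namespace Triples

theorem card_sol (N : ℕ) [NeZero N] (m : ℕ) (hm : 0 < m) (v : ZMod N) :
    (Finset.univ.filter (fun t : ZMod N => (m : ZMod N) * t = v)).card ≤ m := by
  classical
  by_cases h : ∃ t₀ : ZMod N, (m : ZMod N) * t₀ = v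
  · obtain ⟨t₀, ht₀⟩ := h
    have h1 : (Finset.univ.filter (fun t : ZMod N => m • t = 0)).card ≤ m := by
      have := IsAddCyclic.card_nsmul_eq_zero_le (α := ZMod N) (n := m) hm
      exact this
    refine le_trans (Finset.card_le_card_of_injOn (fun t => t - t₀) ?_ ?_) h1
    · intro t ht
      simp only [Finset.coe_filter, Finset.mem_univ, true_and, Set.mem_ofPred_eq] at ht ⊢
      rw [nsmul_eq_mul, mul_sub, ht, ht₀, sub_self]
    · intro t _ t' _ htt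
      simpa using htt
  · have : (Finset.univ.filter (fun t : ZMod N => (m : ZMod N) * t = v)) = ∅ := by
      rw [Finset.filter_eq_empty_iff]
      intro t _ ht
      exact h ⟨t, ht⟩
    rw [this]
    simp

theorem card_four (N : ℕ) [NeZero N] :
    (Finset.univ.filter (fun j : ZMod N => j ^ 2 = 4)).card ≤ 4 * N.divisors.card := by
  classical
  have hN : 0 < N := Nat.pos_of_ne_zero (NeZero.ne N)
  set J := Finset.univ.filter (fun j : ZMod N => j ^ 2 = 4) with hJ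
  let f : ZMod N → ℕ := fun j => Int.gcd ((j.val : ℤ) - 2) N
  have himg : J.image f ⊆ N.divisors := by
    intro d hd
    obtain ⟨j, _, rfl⟩ := Finset.mem_image.mp hd
    rw [Nat.mem_divisors]
    refine ⟨?_, hN.ne'⟩
    have : ((Int.gcd ((j.val : ℤ) - 2) N : ℕ) : ℤ) ∣ (N : ℤ) := Int.gcd_dvd_right _ _
    exact_mod_cast this
  have key : ∀ j j' : ZMod N, j ∈ J → j' ∈ J → f j = f j' → (4 : ZMod N) * (j - j') = 0 := by
    intro j j' hj hj' hff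
    have hcast : ∀ t : ZMod N, t ∈ J → (N : ℤ) ∣ ((t.val : ℤ) - 2) * ((t.val : ℤ) + 2) := by
      intro t ht
      rw [← ZMod.intCast_zmod_eq_zero_iff_dvd]
      have h2 : t ^ 2 = 4 := by simpa [hJ] using ht
      push_cast
      rw [ZMod.natCast_zmod_val]
      linear_combination h2
    have hN0 : (N : ℤ) ≠ 0 := by exact_mod_cast hN.ne'
    -- d = gcd (j - 2) N, N = d * m, m ∣ j + 2
    have hstep : ∀ t : ZMod N, t ∈ J → ∃ m : ℤ, (N : ℤ) = (f t : ℤ) * m ∧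
        m ∣ (t.val : ℤ) + 2 := by
      intro t ht
      obtain ⟨m, hm⟩ : ((f t : ℕ) : ℤ) ∣ (N : ℤ) := Int.gcd_dvd_right _ _
      refine ⟨m, hm, ?_⟩
      obtain ⟨r, hr⟩ : ((f t : ℕ) : ℤ) ∣ ((t.val : ℤ) - 2) := Int.gcd_dvd_left _ _
      have hf0 : (f t : ℤ) ≠ 0 := by
        intro h0
        rw [h0, zero_mul] at hm
        exact hN0 hm
      have hcop : IsCoprime m r := by
        have hg : (f t : ℤ) = Int.gcd ((t.val : ℤ) - 2) N := rfl
        have hbez := Int.gcd_eq_gcd_ab ((t.val : ℤ) - 2) N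
        rw [← hg, hr, hm] at hbez
        refine ⟨Int.gcdB ((f t : ℤ) * r) ((f t : ℤ) * m), Int.gcdA ((f t : ℤ) * r) ((f t : ℤ) * m), ?_⟩
        have := mul_left_cancel₀ hf0 (show (f t : ℤ) * (Int.gcdB ((f t : ℤ) * r) ((f t : ℤ) * m) * m +
          Int.gcdA ((f t : ℤ) * r) ((f t : ℤ) * m) * r) = (f t : ℤ) * 1 by
            linear_combination -hbez)
        exact this
      have h3 := hcast t ht
      rw [hr, hm, mul_assoc] at h3
      have h4 : m ∣ r * ((t.val : ℤ) + 2) := (mul_dvd_mul_iff_left hf0).mp h3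
      exact hcop.dvd_of_dvd_mul_left h4
    obtain ⟨m, hm, hm1⟩ := hstep j hj
    obtain ⟨m', hm', hm1'⟩ := hstep j' hj'
    rw [← hff] at hm'
    have hf0 : (f j : ℤ) ≠ 0 := by
      intro h0
      rw [h0, zero_mul] at hm
      exact hN0 hm
    have hmm : m' = m := by
      apply mul_left_cancel₀ hf0
      rw [← hm, ← hm']
    rw [hmm] at hm1'
    have hd : (f j : ℤ) ∣ ((j.val : ℤ) - 2) := Int.gcd_dvd_left _ _
    have hd' : (f j : ℤ) ∣ ((j'.val : ℤ) - 2) := by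
      rw [hff]; exact Int.gcd_dvd_left _ _
    obtain ⟨α, hα⟩ := hd
    obtain ⟨α', hα'⟩ := hd'
    obtain ⟨μ, hμ⟩ := hm1
    obtain ⟨μ', hμ'⟩ := hm1'
    -- 4 (j - j') = ((j+2) - (j-2)) (j - j')
    have h5 : (N : ℤ) ∣ 4 * ((j.val : ℤ) - j'.val) := by
      have e1 : (j.val : ℤ) - j'.val = (f j : ℤ) * (α - α') := by linear_combination hα - hα'
      have e2 : (j.val : ℤ) - j'.val = m * (μ - μ') := by linear_combination hμ - hμ'
      have e3 : (4 : ℤ) * ((j.val : ℤ) - j'.val) = (m * μ) * ((f j : ℤ) * (α - α')) -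
          ((f j : ℤ) * α) * (m * (μ - μ')) := by
        rw [← hμ, ← hα, ← e1, ← e2]; ring
      rw [e3, hm]
      exact ⟨μ * (α - α') - α * (μ - μ'), by ring⟩
    have h6 := (ZMod.intCast_zmod_eq_zero_iff_dvd _ N).mpr h5
    push_cast at h6
    rw [ZMod.natCast_zmod_val, ZMod.natCast_zmod_val] at h6
    exact h6
  have h1 : J.card ≤ 4 * (J.image f).card := by
    apply Finset.card_le_mul_card_image
    intro d hd
    obtain ⟨j₀, hj₀, hj₀d⟩ := Finset.mem_image.mp hd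
    have := card_sol N 4 (by norm_num) 0
    refine le_trans (Finset.card_le_card_of_injOn (fun t => t - j₀) ?_ ?_) this
    · intro t ht
      have ht' := Finset.mem_filter.mp (Finset.mem_coe.mp ht)
      have := key t j₀ ht'.1 hj₀ (by rw [ht'.2, hj₀d])
      simpa using this
    · intro t _ t' _ htt
      simpa using htt
  exact le_trans h1 (Nat.mul_le_mul_left 4 (Finset.card_le_card himg))

theorem card_class (N : ℕ) [NeZero N] (w₀ : Fin 3 → ZMod N) :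
    (Finset.univ.filter (fun c : Fin 3 → ZMod N =>
      ∃ j : ZMod N, j ^ 2 = 4 ∧ ∀ i, 2 * c i = - j * w₀ i)).card ≤ 32 * N.divisors.card := by
  classical
  set J := Finset.univ.filter (fun j : ZMod N => j ^ 2 = 4) with hJ
  have hsub : (Finset.univ.filter (fun c : Fin 3 → ZMod N =>
      ∃ j : ZMod N, j ^ 2 = 4 ∧ ∀ i, 2 * c i = - j * w₀ i)) ⊆
      J.biUnion (fun j => Fintype.piFinset (fun i : Fin 3 =>
        Finset.univ.filter (fun t : ZMod N => ((2 : ℕ) : ZMod N) * t = -j * w₀ i))) := by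
    intro c hc
    obtain ⟨j, hj, hc'⟩ := (Finset.mem_filter.mp hc).2
    rw [Finset.mem_biUnion]
    refine ⟨j, by simp [hJ, hj], ?_⟩
    rw [Fintype.mem_piFinset]
    intro i
    simp only [Finset.mem_filter, Finset.mem_univ, true_and]
    have := hc' i
    push_cast
    exact this
  refine le_trans (Finset.card_le_card hsub) ?_
  have h2 : (J.biUnion (fun j => Fintype.piFinset (fun i : Fin 3 =>
        Finset.univ.filter (fun t : ZMod N => ((2 : ℕ) : ZMod N) * t = -j * w₀ i)))).card ≤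
      J.card * 8 := by
    apply Finset.card_biUnion_le_card_mul
    intro j _
    rw [Fintype.card_piFinset, Fin.prod_univ_three]
    have h0 := card_sol N 2 (by norm_num) (-j * w₀ 0)
    have h1 := card_sol N 2 (by norm_num) (-j * w₀ 1)
    have h2 := card_sol N 2 (by norm_num) (-j * w₀ 2)
    calc _ ≤ 2 * 2 * 2 := Nat.mul_le_mul (Nat.mul_le_mul h0 h1) h2
      _ = 8 := by norm_num
  have h3 := card_four N
  have h3' : J.card ≤ 4 * N.divisors.card := h3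
  calc _ ≤ J.card * 8 := h2
    _ ≤ (4 * N.divisors.card) * 8 := Nat.mul_le_mul_right 8 h3'
    _ = 32 * N.divisors.card := by ring

theorem det_four {R : Type*} [CommRing R] (a b c d : Fin 4 → R) :
    (Matrix.of ![a, b, c, d]).det =
      a 0 * (b 1 * (c 2 * d 3 - c 3 * d 2) - b 2 * (c 1 * d 3 - c 3 * d 1) +
        b 3 * (c 1 * d 2 - c 2 * d 1)) -
      a 1 * (b 0 * (c 2 * d 3 - c 3 * d 2) - b 2 * (c 0 * d 3 - c 3 * d 0) +
        b 3 * (c 0 * d 2 - c 2 * d 0)) +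
      a 2 * (b 0 * (c 1 * d 3 - c 3 * d 1) - b 1 * (c 0 * d 3 - c 3 * d 0) +
        b 3 * (c 0 * d 1 - c 1 * d 0)) -
      a 3 * (b 0 * (c 1 * d 2 - c 2 * d 1) - b 1 * (c 0 * d 2 - c 2 * d 0) +
        b 2 * (c 0 * d 1 - c 1 * d 0)) := by
  have e1 : Fin.succAbove (1 : Fin 4) (2 : Fin 3) = 3 := rfl
  have e2 : Fin.succAbove (2 : Fin 4) (2 : Fin 3) = 3 := rfl
  have e3 : Fin.succAbove (3 : Fin 4) (2 : Fin 3) = 2 := rfl
  simp [Matrix.det_succ_row_zero, Fin.sum_univ_succ, e1, e2, e3]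
  ring

/-- The diagonal matrix of the form. -/
def DD : Matrix (Fin 4) (Fin 4) ℤ := Matrix.diagonal ![1, 1, 1, 2]

theorem DD_det : DD.det = 2 := by
  simp [DD, Fin.prod_univ_four]

theorem gram_apply (F : Fin 4 → Fin 4 → ℤ) (i j : Fin 4) :
    (Matrix.of F * DD * (Matrix.of F)ᵀ) i j = B (F i) (F j) := by
  simp only [Matrix.mul_apply, DD, Matrix.transpose_apply, Matrix.of_apply, Fin.sum_univ_four, B,
    Matrix.diagonal_apply]
  simp
  ring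

/-- The finite set of integral automorphisms. -/
def OO : Set (Matrix (Fin 4) (Fin 4) ℤ) := {A | A * DD * Aᵀ = DD}

theorem OO_bound (A : Matrix (Fin 4) (Fin 4) ℤ) (hA : A ∈ OO) (i j : Fin 4) :
    -2 ≤ A i j ∧ A i j ≤ 2 := by
  have hA' : A * DD * Aᵀ = DD := hA
  have h1 : (A * DD * Aᵀ) i i = B (A i) (A i) := gram_apply (fun i j => A i j) i i
  rw [hA'] at h1
  have h3 : DD i i ≤ 2 := by
    fin_cases i <;> simp [DD]
  have h4 : (A i j) ^ 2 ≤ 2 := by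
    have e : B (A i) (A i) = (A i 0) ^ 2 + (A i 1) ^ 2 + (A i 2) ^ 2 + 2 * (A i 3) ^ 2 := by
      simp only [B]; ring
    rw [e] at h1
    have h0 := sq_nonneg (A i 0)
    have h1' := sq_nonneg (A i 1)
    have h2 := sq_nonneg (A i 2)
    have h3' := sq_nonneg (A i 3)
    fin_cases j
    · show (A i 0) ^ 2 ≤ 2; linarith
    · show (A i 1) ^ 2 ≤ 2; linarith
    · show (A i 2) ^ 2 ≤ 2; linarith
    · show (A i 3) ^ 2 ≤ 2; linarith
  constructor <;> nlinarith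

theorem OO_finite : OO.Finite := by
  apply Set.Finite.subset (Set.finite_Icc (fun _ _ => (-2 : ℤ)) (fun _ _ => (2 : ℤ)))
  intro A hA
  rw [Set.mem_Icc]
  exact ⟨fun i j => (OO_bound A hA i j).1, fun i j => (OO_bound A hA i j).2⟩

/-- A saturated triple extends to a basis. -/
theorem exists_ext (u x y : Fin 4 → ℤ) (h : Sat3 u x y) :
    ∃ e : Fin 4 → ℤ, (Matrix.of ![u, x, y, e]).det = 1 := by
  classical
  let φ : (Fin 4 → ℤ) →ₗ[ℤ] ℤ :=
    { toFun := fun e => (Matrix.of ![u, x, y, e]).det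
      map_add' := by
        intro e e'
        rw [det_four, det_four, det_four]
        simp only [Pi.add_apply]
        ring
      map_smul' := by
        intro c e
        rw [det_four, det_four]
        simp only [Pi.smul_apply, smul_eq_mul, RingHom.id_apply]
        ring }
  have hφ : ∀ e, φ e = (Matrix.of ![u, x, y, e]).det := fun e => rfl
  obtain ⟨d, hd⟩ := (IsPrincipalIdealRing.principal (LinearMap.range φ)).principal
  have hdvd : ∀ e, d ∣ φ e := by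
    intro e
    have : φ e ∈ LinearMap.range φ := ⟨e, rfl⟩
    rw [hd, Submodule.mem_span_singleton] at this
    obtain ⟨a, ha⟩ := this
    exact ⟨a, by rw [← ha, smul_eq_mul, mul_comm]⟩
  have hunit : IsUnit d := by
    by_contra hnu
    obtain ⟨p, hp, hpd⟩ : ∃ p : ℕ, p.Prime ∧ (p : ℤ) ∣ d := by
      have h1 : d.natAbs ≠ 1 := by
        intro h1
        exact hnu (Int.isUnit_iff_natAbs_eq.mpr h1)
      obtain ⟨p, hp, hpd⟩ := Nat.exists_prime_and_dvd h1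
      exact ⟨p, hp, Int.natCast_dvd.mpr hpd⟩
    have : Fact p.Prime := ⟨hp⟩
    -- linear independence mod p
    let c : (Fin 4 → ℤ) → (Fin 4 → ZMod p) := fun v l => (v l : ZMod p)
    have hli : LinearIndependent (ZMod p) ![c y, c x, c u] := by
      rw [Fintype.linearIndependent_iff]
      intro g hg
      have hrep : ∀ t : ZMod p, ((t.val : ℤ) : ZMod p) = t := by
        intro t
        rw [Int.cast_natCast, ZMod.natCast_zmod_val]
      have := h p hp ((g 2).val) ((g 1).val) ((g 0).val) ?_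
      · obtain ⟨h2, h1, h0⟩ := this
        have e0 : g 0 = 0 := by
          rw [← hrep (g 0)]; exact (ZMod.intCast_zmod_eq_zero_iff_dvd _ p).mpr h0
        have e1 : g 1 = 0 := by
          rw [← hrep (g 1)]; exact (ZMod.intCast_zmod_eq_zero_iff_dvd _ p).mpr h1
        have e2 : g 2 = 0 := by
          rw [← hrep (g 2)]; exact (ZMod.intCast_zmod_eq_zero_iff_dvd _ p).mpr h2
        intro i
        fin_cases i
        · exact e0
        · exact e1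
        · exact e2
      · intro l
        rw [← ZMod.intCast_zmod_eq_zero_iff_dvd]
        have h3 := congrFun hg l
        simp only [Fin.sum_univ_three, Pi.add_apply, Pi.smul_apply, smul_eq_mul, Pi.zero_apply] at h3
        push_cast
        rw [ZMod.natCast_zmod_val, ZMod.natCast_zmod_val, ZMod.natCast_zmod_val]
        have h4 : g 0 * (y l : ZMod p) + g 1 * (x l : ZMod p) + g 2 * (u l : ZMod p) = 0 := h3
        linear_combination h4
    obtain ⟨e', he'⟩ := exists_linearIndependent_cons_of_lt_finrank hli (by simp)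
    have hdet : IsUnit (Matrix.of (Fin.cons e' ![c y, c x, c u] : Fin 4 → Fin 4 → ZMod p)).det := by
      rw [← Matrix.isUnit_iff_isUnit_det]
      exact Matrix.linearIndependent_rows_iff_isUnit.mp he'
    let e : Fin 4 → ℤ := fun l => ((e' l).val : ℤ)
    have hce : c e = e' := by
      funext l
      show (((e' l).val : ℤ) : ZMod p) = e' l
      rw [Int.cast_natCast, ZMod.natCast_zmod_val]
    have h5 : ((φ e : ℤ) : ZMod p) = 0 :=
      (ZMod.intCast_zmod_eq_zero_iff_dvd _ p).mpr (hpd.trans (hdvd e))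
    have h6 : ((φ e : ℤ) : ZMod p) =
        (Matrix.of (Fin.cons e' ![c y, c x, c u] : Fin 4 → Fin 4 → ZMod p)).det := by
      have h7 : (Fin.cons (c e) ![c y, c x, c u] : Fin 4 → Fin 4 → ZMod p) =
          ![c e, c y, c x, c u] := rfl
      rw [hφ, ← hce, h7, det_four, det_four]
      simp only [c]
      push_cast
      ring
    rw [← h6, h5] at hdet
    exact not_isUnit_zero hdet
  have h1 : (1 : ℤ) ∈ LinearMap.range φ := by
    rw [hd, Submodule.mem_span_singleton]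
    obtain ⟨v, hv⟩ := hunit
    exact ⟨((v⁻¹ : ℤˣ) : ℤ), by rw [smul_eq_mul, ← hv]; simp⟩
  obtain ⟨e, he⟩ := h1
  exact ⟨e, he⟩

/-- The determinant of the Gram matrix of `(u, x, y)`. -/
def dl (a σ n i₁ i₂ i₃ : ℤ) : ℤ :=
  a * (n * i₃ - i₂ ^ 2) - σ * (σ * i₃ - i₁ * i₂) + i₁ * (σ * i₂ - i₁ * n)

/-- The coordinates of `adj T g`. -/
def wv (a σ n i₁ i₂ i₃ g₀ g₁ g₂ : ℤ) : Fin 3 → ℤ :=
  ![(n * i₃ - i₂ ^ 2) * g₀ + (i₁ * i₂ - σ * i₃) * g₁ + (σ * i₂ - i₁ * n) * g₂,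
    (i₁ * i₂ - σ * i₃) * g₀ + (a * i₃ - i₁ ^ 2) * g₁ + (σ * i₁ - a * i₂) * g₂,
    (σ * i₂ - i₁ * n) * g₀ + (σ * i₁ - a * i₂) * g₁ + (a * n - σ ^ 2) * g₂]

/-- The Gram matrix. -/
def GG (a σ n i₁ i₂ i₃ g₀ g₁ g₂ q : ℤ) : Matrix (Fin 4) (Fin 4) ℤ :=
  Matrix.of ![![a, σ, i₁, g₀], ![σ, n, i₂, g₁], ![i₁, i₂, i₃, g₂], ![g₀, g₁, g₂, q]]

theorem B_comm (x y : Fin 4 → ℤ) : B x y = B y x := by
  simp only [B]; ring

theorem gram_eq (u x y e : Fin 4 → ℤ) (a σ n i₁ i₂ i₃ g₀ g₁ g₂ q : ℤ) (h1 : Q u = a)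
    (h2 : B u x = σ) (h3 : Q x = n) (h4 : B u y = i₁) (h5 : B x y = i₂) (h6 : Q y = i₃)
    (h7 : B u e = g₀) (h8 : B x e = g₁) (h9 : B y e = g₂) (h10 : Q e = q) :
    Matrix.of ![u, x, y, e] * DD * (Matrix.of ![u, x, y, e])ᵀ =
      GG a σ n i₁ i₂ i₃ g₀ g₁ g₂ q := by
  have h1' : B u u = a := h1
  have h3' : B x x = n := h3
  have h6' : B y y = i₃ := h6
  have h10' : B e e = q := h10
  ext i j
  rw [gram_apply]
  fin_cases i <;> fin_cases j <;> simp [GG, h1', h2, h3', h4, h5, h6', h7, h8, h9, h10'] <;>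
    rw [B_comm] <;> assumption

theorem gram_det (u x y e : Fin 4 → ℤ) (a σ n i₁ i₂ i₃ g₀ g₁ g₂ q : ℤ) (h1 : Q u = a)
    (h2 : B u x = σ) (h3 : Q x = n) (h4 : B u y = i₁) (h5 : B x y = i₂) (h6 : Q y = i₃)
    (h7 : B u e = g₀) (h8 : B x e = g₁) (h9 : B y e = g₂) (h10 : Q e = q)
    (hdet : (Matrix.of ![u, x, y, e]).det = 1) :
    q * dl a σ n i₁ i₂ i₃ - (g₀ * wv a σ n i₁ i₂ i₃ g₀ g₁ g₂ 0 +
      g₁ * wv a σ n i₁ i₂ i₃ g₀ g₁ g₂ 1 + g₂ * wv a σ n i₁ i₂ i₃ g₀ g₁ g₂ 2) = 2 := by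
  have hg := gram_eq u x y e a σ n i₁ i₂ i₃ g₀ g₁ g₂ q h1 h2 h3 h4 h5 h6 h7 h8 h9 h10
  have hd := congrArg Matrix.det hg
  rw [Matrix.det_mul, Matrix.det_mul, Matrix.det_transpose, hdet, DD_det, GG, det_four] at hd
  simp at hd
  simp [wv, dl]
  linear_combination -hd

/-- The congruence conditions on `adj T g`. -/
theorem cong (a σ n i₁ i₂ i₃ g₀ g₁ g₂ q h₀ h₁ h₂ r : ℤ)
    (hg : q * dl a σ n i₁ i₂ i₃ - (g₀ * wv a σ n i₁ i₂ i₃ g₀ g₁ g₂ 0 +
      g₁ * wv a σ n i₁ i₂ i₃ g₀ g₁ g₂ 1 + g₂ * wv a σ n i₁ i₂ i₃ g₀ g₁ g₂ 2) = 2)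
    (hh : r * dl a σ n i₁ i₂ i₃ - (h₀ * wv a σ n i₁ i₂ i₃ h₀ h₁ h₂ 0 +
      h₁ * wv a σ n i₁ i₂ i₃ h₀ h₁ h₂ 1 + h₂ * wv a σ n i₁ i₂ i₃ h₀ h₁ h₂ 2) = 2) (j : ℤ)
    (hj : j = g₀ * wv a σ n i₁ i₂ i₃ h₀ h₁ h₂ 0 + g₁ * wv a σ n i₁ i₂ i₃ h₀ h₁ h₂ 1 +
      g₂ * wv a σ n i₁ i₂ i₃ h₀ h₁ h₂ 2) :
    (dl a σ n i₁ i₂ i₃ ∣ j ^ 2 - 4) ∧ ∀ i, dl a σ n i₁ i₂ i₃ ∣
      2 * wv a σ n i₁ i₂ i₃ h₀ h₁ h₂ i + j * wv a σ n i₁ i₂ i₃ g₀ g₁ g₂ i := by
  have main : ∀ i, ∃ m : ℤ, 2 * wv a σ n i₁ i₂ i₃ h₀ h₁ h₂ i +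
      j * wv a σ n i₁ i₂ i₃ g₀ g₁ g₂ i = dl a σ n i₁ i₂ i₃ * m := by
    intro i
    fin_cases i
    · refine ⟨q * wv a σ n i₁ i₂ i₃ h₀ h₁ h₂ 0 +
        (g₁ * (i₁ * (g₁ * h₂ - g₂ * h₁) + i₂ * (g₂ * h₀ - g₀ * h₂) + i₃ * (g₀ * h₁ - g₁ * h₀)) -
        g₂ * (σ * (g₁ * h₂ - g₂ * h₁) + n * (g₂ * h₀ - g₀ * h₂) + i₂ * (g₀ * h₁ - g₁ * h₀))), ?_⟩
      simp only [wv, dl, Matrix.cons_val_zero, Matrix.cons_val_one, Matrix.cons_val,
        Fin.zero_eta, Fin.mk_one, Fin.reduceFinMk] at hg hh hj ⊢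
      linear_combination (-((n * i₃ - i₂ ^ 2) * h₀ + (i₁ * i₂ - σ * i₃) * h₁ +
        (σ * i₂ - i₁ * n) * h₂)) * hg + ((n * i₃ - i₂ ^ 2) * g₀ + (i₁ * i₂ - σ * i₃) * g₁ +
        (σ * i₂ - i₁ * n) * g₂) * hj
    · refine ⟨q * wv a σ n i₁ i₂ i₃ h₀ h₁ h₂ 1 +
        (g₂ * (a * (g₁ * h₂ - g₂ * h₁) + σ * (g₂ * h₀ - g₀ * h₂) + i₁ * (g₀ * h₁ - g₁ * h₀)) -
        g₀ * (i₁ * (g₁ * h₂ - g₂ * h₁) + i₂ * (g₂ * h₀ - g₀ * h₂) + i₃ * (g₀ * h₁ - g₁ * h₀))), ?_⟩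
      simp only [wv, dl, Matrix.cons_val_zero, Matrix.cons_val_one, Matrix.cons_val,
        Fin.zero_eta, Fin.mk_one, Fin.reduceFinMk] at hg hh hj ⊢
      linear_combination (-((i₁ * i₂ - σ * i₃) * h₀ + (a * i₃ - i₁ ^ 2) * h₁ +
        (σ * i₁ - a * i₂) * h₂)) * hg + ((i₁ * i₂ - σ * i₃) * g₀ + (a * i₃ - i₁ ^ 2) * g₁ +
        (σ * i₁ - a * i₂) * g₂) * hj
    · refine ⟨q * wv a σ n i₁ i₂ i₃ h₀ h₁ h₂ 2 +
        (g₀ * (σ * (g₁ * h₂ - g₂ * h₁) + n * (g₂ * h₀ - g₀ * h₂) + i₂ * (g₀ * h₁ - g₁ * h₀)) -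
        g₁ * (a * (g₁ * h₂ - g₂ * h₁) + σ * (g₂ * h₀ - g₀ * h₂) + i₁ * (g₀ * h₁ - g₁ * h₀))), ?_⟩
      simp only [wv, dl, Matrix.cons_val_zero, Matrix.cons_val_one, Matrix.cons_val,
        Fin.zero_eta, Fin.mk_one, Fin.reduceFinMk] at hg hh hj ⊢
      linear_combination (-((σ * i₂ - i₁ * n) * h₀ + (σ * i₁ - a * i₂) * h₁ +
        (a * n - σ ^ 2) * h₂)) * hg + ((σ * i₂ - i₁ * n) * g₀ + (σ * i₁ - a * i₂) * g₁ +
        (a * n - σ ^ 2) * g₂) * hj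
  refine ⟨?_, fun i => ?_⟩
  · obtain ⟨m₀, hm₀⟩ := main 0
    obtain ⟨m₁, hm₁⟩ := main 1
    obtain ⟨m₂, hm₂⟩ := main 2
    have hsym : h₀ * wv a σ n i₁ i₂ i₃ g₀ g₁ g₂ 0 + h₁ * wv a σ n i₁ i₂ i₃ g₀ g₁ g₂ 1 +
        h₂ * wv a σ n i₁ i₂ i₃ g₀ g₁ g₂ 2 = j := by
      rw [hj]
      simp only [wv, Matrix.cons_val_zero, Matrix.cons_val_one, Matrix.cons_val]
      ring
    refine ⟨h₀ * m₀ + h₁ * m₁ + h₂ * m₂ - 2 * r, ?_⟩
    linear_combination h₀ * hm₀ + h₁ * hm₁ + h₂ * hm₂ + 2 * hh - j * hsym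
  · obtain ⟨m, hm⟩ := main i
    exact ⟨m, hm⟩

/-- Two bases with the same Gram matrix differ by an integral automorphism. -/
theorem match_basis (u x y e x' y' e' : Fin 4 → ℤ)
    (hd : (Matrix.of ![u, x, y, e]).det = 1)
    (hG : Matrix.of ![u, x, y, e] * DD * (Matrix.of ![u, x, y, e])ᵀ =
      Matrix.of ![u, x', y', e'] * DD * (Matrix.of ![u, x', y', e'])ᵀ) :
    ∃ A ∈ OO, x ᵥ* A = x' ∧ y ᵥ* A = y' := by
  set F := Matrix.of ![u, x, y, e] with hF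
  set F' := Matrix.of ![u, x', y', e'] with hF'
  have h1 : F.adjugate * F = 1 := by rw [Matrix.adjugate_mul, hd, one_smul]
  have h2 : F * F.adjugate = 1 := by rw [Matrix.mul_adjugate, hd, one_smul]
  have h3 : F * (F.adjugate * F') = F' := by rw [← Matrix.mul_assoc, h2, Matrix.one_mul]
  refine ⟨F.adjugate * F', ?_, ?_, ?_⟩
  · show F.adjugate * F' * DD * (F.adjugate * F')ᵀ = DD
    have h4 : F.adjugate * F' * DD * (F.adjugate * F')ᵀ =
        F.adjugate * (F' * DD * F'ᵀ) * F.adjugateᵀ := by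
      rw [Matrix.transpose_mul]
      simp only [Matrix.mul_assoc]
    rw [h4, ← hG]
    have h5 : F.adjugate * (F * DD * Fᵀ) * F.adjugateᵀ =
        (F.adjugate * F) * DD * (F.adjugate * F)ᵀ := by
      rw [Matrix.transpose_mul]
      simp only [Matrix.mul_assoc]
    rw [h5, h1, Matrix.transpose_one, Matrix.one_mul, Matrix.mul_one]
  · have h6 := congrFun h3 1
    exact h6
  · have h6 := congrFun h3 2
    exact h6

/-- Two pairs with congruent vectors `adj T g` differ by an integral automorphism. -/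
theorem match_pair (u x y e x' y' e' : Fin 4 → ℤ) (a σ n i₁ i₂ i₃ g₀ g₁ g₂ h₀ h₁ h₂ : ℤ)
    (hu : Q u = a)
    (h2 : B u x = σ) (h3 : Q x = n) (h4 : B u y = i₁) (h5 : B x y = i₂) (h6 : Q y = i₃)
    (h2' : B u x' = σ) (h3' : Q x' = n) (h4' : B u y' = i₁) (h5' : B x' y' = i₂) (h6' : Q y' = i₃)
    (h7 : B u e = g₀) (h8 : B x e = g₁) (h9 : B y e = g₂)
    (h7' : B u e' = h₀) (h8' : B x' e' = h₁) (h9' : B y' e' = h₂)
    (hd : (Matrix.of ![u, x, y, e]).det = 1) (hd' : (Matrix.of ![u, x', y', e']).det = 1)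
    (hΔ : 0 < dl a σ n i₁ i₂ i₃)
    (hc : ∀ i, dl a σ n i₁ i₂ i₃ ∣ wv a σ n i₁ i₂ i₃ g₀ g₁ g₂ i - wv a σ n i₁ i₂ i₃ h₀ h₁ h₂ i) :
    ∃ A ∈ OO, x ᵥ* A = x' ∧ y ᵥ* A = y' := by
  obtain ⟨k₀, hk₀⟩ := hc 0
  obtain ⟨k₁, hk₁⟩ := hc 1
  obtain ⟨k₂, hk₂⟩ := hc 2
  have hΔ0 := hΔ.ne'
  have e0 : g₀ - h₀ = a * k₀ + σ * k₁ + i₁ * k₂ := by
    apply mul_left_cancel₀ hΔ0
    simp only [wv, dl, Matrix.cons_val_zero, Matrix.cons_val_one, Matrix.cons_val] at hk₀ hk₁ hk₂ ⊢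
    linear_combination a * hk₀ + σ * hk₁ + i₁ * hk₂
  have e1 : g₁ - h₁ = σ * k₀ + n * k₁ + i₂ * k₂ := by
    apply mul_left_cancel₀ hΔ0
    simp only [wv, dl, Matrix.cons_val_zero, Matrix.cons_val_one, Matrix.cons_val] at hk₀ hk₁ hk₂ ⊢
    linear_combination σ * hk₀ + n * hk₁ + i₂ * hk₂
  have e2 : g₂ - h₂ = i₁ * k₀ + i₂ * k₁ + i₃ * k₂ := by
    apply mul_left_cancel₀ hΔ0
    simp only [wv, dl, Matrix.cons_val_zero, Matrix.cons_val_one, Matrix.cons_val] at hk₀ hk₁ hk₂ ⊢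
    linear_combination i₁ * hk₀ + i₂ * hk₁ + i₃ * hk₂
  let e'' : Fin 4 → ℤ := fun l => e' l + k₀ * u l + k₁ * x' l + k₂ * y' l
  have hB : ∀ v, B v e'' = B v e' + k₀ * B v u + k₁ * B v x' + k₂ * B v y' := by
    intro v
    simp only [B, e'']
    ring
  have hd'' : (Matrix.of ![u, x', y', e'']).det = 1 := by
    rw [← hd', det_four, det_four]
    simp only [e'']
    ring
  have b0 : B u e'' = g₀ := by
    have : B u u = a := hu
    rw [hB, h7', this, h2', h4']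
    linear_combination -e0
  have b1 : B x' e'' = g₁ := by
    have : B x' x' = n := h3'
    rw [hB, h8', this, B_comm x' u, h2', h5']
    linear_combination -e1
  have b2 : B y' e'' = g₂ := by
    have : B y' y' = i₃ := h6'
    rw [hB, h9', this, B_comm y' u, h4', B_comm y' x', h5']
    linear_combination -e2
  have hq := gram_det u x y e a σ n i₁ i₂ i₃ g₀ g₁ g₂ _ hu h2 h3 h4 h5 h6 h7 h8 h9 rfl hd
  have hq' := gram_det u x' y' e'' a σ n i₁ i₂ i₃ g₀ g₁ g₂ _ hu h2' h3' h4' h5' h6' b0 b1 b2 rfl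
    hd''
  have hqq : Q e = Q e'' := by
    apply mul_right_cancel₀ hΔ0
    linear_combination hq - hq'
  have hG := gram_eq u x y e a σ n i₁ i₂ i₃ g₀ g₁ g₂ _ hu h2 h3 h4 h5 h6 h7 h8 h9 rfl
  have hG' := gram_eq u x' y' e'' a σ n i₁ i₂ i₃ g₀ g₁ g₂ _ hu h2' h3' h4' h5' h6' b0 b1 b2 rfl
  exact match_basis u x y e x' y' e'' hd (by rw [hG, hG', hqq])

end Triples

open Triples in
/-- LX-G1: the number of pairs with given scalar products. -/
theorem triple_count : ∃ K : ℕ, ∀ (u : Fin 4 → ℤ) (n σ i₁ i₂ i₃ Δ : ℤ),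
    Δ = Q u * (n * i₃ - i₂ ^ 2) - σ * (σ * i₃ - i₁ * i₂) + i₁ * (σ * i₂ - i₁ * n) → 0 < Δ →
    {p : (Fin 4 → ℤ) × (Fin 4 → ℤ) | Q p.1 = n ∧ B u p.1 = σ ∧ B u p.2 = i₁ ∧ B p.1 p.2 = i₂ ∧
      Q p.2 = i₃ ∧ Sat3 u p.1 p.2}.ncard ≤ K * Δ.natAbs.divisors.card := by
  classical
  refine ⟨32 * OO.ncard, ?_⟩
  intro u n σ i₁ i₂ i₃ Δ hΔe hΔ
  set S : Set ((Fin 4 → ℤ) × (Fin 4 → ℤ)) := {p | Q p.1 = n ∧ B u p.1 = σ ∧ B u p.2 = i₁ ∧
    B p.1 p.2 = i₂ ∧ Q p.2 = i₃ ∧ Sat3 u p.1 p.2} with hS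
  rcases S.eq_empty_or_nonempty with hSe | ⟨p₀, hp₀⟩
  · rw [hSe]; simp
  set a := Q u with ha
  have hΔd : Δ = dl a σ n i₁ i₂ i₃ := hΔe
  set N := Δ.natAbs with hN
  have hNΔ : (N : ℤ) = Δ := Int.natAbs_of_nonneg hΔ.le
  have hN0 : N ≠ 0 := by
    intro h
    rw [h] at hNΔ
    simp at hNΔ
    exact hΔ.ne hNΔ
  have : NeZero N := ⟨hN0⟩
  -- the chosen fourth vector
  have hex : ∀ p : (Fin 4 → ℤ) × (Fin 4 → ℤ), ∃ e : Fin 4 → ℤ, p ∈ S →
      (Matrix.of ![u, p.1, p.2, e]).det = 1 := by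
    intro p
    by_cases hp : p ∈ S
    · obtain ⟨e, he⟩ := exists_ext u p.1 p.2 hp.2.2.2.2.2
      exact ⟨e, fun _ => he⟩
    · exact ⟨0, fun h => absurd h hp⟩
  choose ex hex using hex
  let W : (Fin 4 → ℤ) × (Fin 4 → ℤ) → Fin 3 → ℤ := fun p =>
    wv a σ n i₁ i₂ i₃ (B u (ex p)) (B p.1 (ex p)) (B p.2 (ex p))
  let cls : (Fin 4 → ℤ) × (Fin 4 → ℤ) → Fin 3 → ZMod N := fun p i => (W p i : ZMod N)
  have hdet : ∀ p ∈ S, Q (ex p) * dl a σ n i₁ i₂ i₃ - (B u (ex p) * W p 0 +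
      B p.1 (ex p) * W p 1 + B p.2 (ex p) * W p 2) = 2 := by
    intro p hp
    obtain ⟨h1, h2, h3, h4, h5, h6⟩ := hp
    exact gram_det u p.1 p.2 (ex p) a σ n i₁ i₂ i₃ _ _ _ _ rfl h2 h1 h3 h4 h5 rfl rfl rfl rfl
      (hex p ⟨h1, h2, h3, h4, h5, h6⟩)
  set C := Finset.univ.filter (fun c : Fin 3 → ZMod N =>
      ∃ j : ZMod N, j ^ 2 = 4 ∧ ∀ i, 2 * c i = - j * cls p₀ i) with hC
  have hCcard : C.card ≤ 32 * N.divisors.card := card_class N (cls p₀)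
  have hclsC : ∀ p ∈ S, cls p ∈ C := by
    intro p hp
    obtain ⟨c1, c2⟩ := cong a σ n i₁ i₂ i₃ _ _ _ _ _ _ _ _ (hdet p₀ hp₀) (hdet p hp) _ rfl
    rw [← hΔd, ← hNΔ] at c1
    rw [hC, Finset.mem_filter]
    refine ⟨Finset.mem_univ _, ((B u (ex p₀) * W p 0 + B p₀.1 (ex p₀) * W p 1 +
      B p₀.2 (ex p₀) * W p 2 : ℤ) : ZMod N), ?_, ?_⟩
    · have h1 := (ZMod.intCast_zmod_eq_zero_iff_dvd _ N).mpr c1
      rw [Int.cast_sub, Int.cast_pow] at h1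
      have h2 := sub_eq_zero.mp h1
      rw [h2]
      norm_num
    · intro i
      have h1 := c2 i
      rw [← hΔd, ← hNΔ] at h1
      have h2 := (ZMod.intCast_zmod_eq_zero_iff_dvd _ N).mpr h1
      rw [Int.cast_add, Int.cast_mul, Int.cast_mul] at h2
      have h3 : (2 : ZMod N) * cls p i = ((2 : ℤ) : ZMod N) * (W p i : ZMod N) := by
        simp [cls]
      rw [h3]
      rw [neg_mul]
      exact eq_neg_of_add_eq_zero_left h2
  -- the representative of a class and the automorphism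
  let rep : (Fin 4 → ℤ) × (Fin 4 → ℤ) → (Fin 4 → ℤ) × (Fin 4 → ℤ) := fun p =>
    Function.invFunOn cls S (cls p)
  have hrep : ∀ p ∈ S, rep p ∈ S ∧ cls (rep p) = cls p := by
    intro p hp
    exact ⟨Function.invFunOn_mem ⟨p, hp, rfl⟩, Function.invFunOn_eq ⟨p, hp, rfl⟩⟩
  have hA : ∀ p : (Fin 4 → ℤ) × (Fin 4 → ℤ), ∃ A : Matrix (Fin 4) (Fin 4) ℤ, p ∈ S →
      A ∈ OO ∧ (rep p).1 ᵥ* A = p.1 ∧ (rep p).2 ᵥ* A = p.2 := by
    intro p
    by_cases hp : p ∈ S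
    · obtain ⟨hr, hcl⟩ := hrep p hp
      obtain ⟨h1, h2, h3, h4, h5, h6⟩ := hp
      obtain ⟨r1, r2, r3, r4, r5, r6⟩ := hr
      obtain ⟨A, hA1, hA2, hA3⟩ := match_pair u (rep p).1 (rep p).2 (ex (rep p)) p.1 p.2 (ex p)
        a σ n i₁ i₂ i₃ _ _ _ _ _ _ rfl r2 r1 r3 r4 r5 h2 h1 h3 h4 h5 rfl rfl rfl rfl rfl rfl
        (hex _ ⟨r1, r2, r3, r4, r5, r6⟩) (hex _ ⟨h1, h2, h3, h4, h5, h6⟩) (by rw [← hΔd]; exact hΔ)
        (by
          intro i
          rw [← hΔd, ← hNΔ, ← ZMod.intCast_zmod_eq_zero_iff_dvd, Int.cast_sub]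
          exact sub_eq_zero.mpr (congrFun hcl i))
      exact ⟨A, fun _ => ⟨hA1, hA2, hA3⟩⟩
    · exact ⟨0, fun h => absurd h hp⟩
  choose AA hAA using hA
  have hfin : ((C : Set (Fin 3 → ZMod N)) ×ˢ OO).Finite := (Finset.finite_toSet C).prod OO_finite
  have hle : S.ncard ≤ ((C : Set (Fin 3 → ZMod N)) ×ˢ OO).ncard := by
    apply Set.ncard_le_ncard_of_injOn (fun p => (cls p, AA p)) ?_ ?_ hfin
    · intro p hp
      exact ⟨hclsC p hp, (hAA p hp).1⟩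
    · intro p hp p' hp' hpp
      have e1 : cls p = cls p' := congrArg Prod.fst hpp
      have e2 : AA p = AA p' := congrArg Prod.snd hpp
      have e3 : rep p = rep p' := by
        show Function.invFunOn cls S (cls p) = Function.invFunOn cls S (cls p')
        rw [e1]
      obtain ⟨_, q1, q2⟩ := hAA p hp
      obtain ⟨_, q1', q2'⟩ := hAA p' hp'
      apply Prod.ext
      · rw [← q1, ← q1', e2, e3]
      · rw [← q2, ← q2', e2, e3]
  calc S.ncard ≤ ((C : Set (Fin 3 → ZMod N)) ×ˢ OO).ncard := hle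
    _ = C.card * OO.ncard := by rw [Set.ncard_prod, Set.ncard_coe_finset]
    _ ≤ (32 * N.divisors.card) * OO.ncard := Nat.mul_le_mul_right _ hCcard
    _ = 32 * OO.ncard * N.divisors.card := by ring

end Pool.Agent.LX
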